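import Pool.Agent.Lib.MP_2e8272_nt.Full.Final

/-!
# Fast evaluation of the relation list (binary tree instead of a list)
-/

namespace Pool.Agent.Lib.MP_2e8272_nt.Full

/-- split a list into the entries with even and odd index -/
def deal : List TE → List TE × List TE
  | [] => ([], [])
  | a :: L => (a :: (deal L).2, (deal L).1)

theorem deal_getD (d : TE) : ∀ (L : List TE) (j : ℕ),
    (deal L).1.getD j d = L.getD (2 * j) d ∧ (deal L).2.getD j d = L.getD (2 * j + 1) d := by
  intro L
  induction L with
  | nil => intro j; simp [deal]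
  | cons a L ih =>
    intro j
    constructor
    · cases j with
      | zero => simp [deal]
      | succ j =>
        have h := (ih j).2
        rw [deal, show 2 * (j + 1) = (2 * j + 1) + 1 by ring, List.getD_cons_succ,
          List.getD_cons_succ]
        exact h
    · have h := (ih j).1
      rw [deal, List.getD_cons_succ]
      exact h

/-- binary tree of table entries -/
inductive BT : Type
  | leaf : TE → BT
  | node : BT → BT → BT

/-- tree of depth `k` of a list -/
def bld : ℕ → List TE → BT
  | 0, L => BT.leaf (L.headD (1, 1, [], []))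
  | k + 1, L => BT.node (bld k (deal L).1) (bld k (deal L).2)

/-- entry number `i` -/
def BT.get : BT → ℕ → TE
  | BT.leaf e, _ => e
  | BT.node a b, i =>
    match Nat.beq (Nat.mod i 2) 0 with
    | true => a.get (Nat.div i 2)
    | false => b.get (Nat.div i 2)

theorem get_bld : ∀ (k : ℕ) (L : List TE) (i : ℕ), i < 2 ^ k →
    (bld k L).get i = L.getD i (1, 1, [], []) := by
  intro k
  induction k with
  | zero =>
    intro L i hi
    have h0 : i = 0 := by simpa using hi
    subst h0
    rw [bld, BT.get]
    cases L <;> rfl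
  | succ k ih =>
    intro L i hi
    rw [pow_succ] at hi
    rw [bld, BT.get]
    split
    · rename_i hb
      have h1 : i % 2 = 0 := Nat.eq_of_beq_eq_true hb
      have h2 : Nat.div i 2 = i / 2 := rfl
      rw [h2, ih _ _ (by omega), (deal_getD _ L (i / 2)).1]
      congr 1
      omega
    · rename_i hb
      have h1 : i % 2 ≠ 0 := fun h => Bool.false_ne_true (hb.symm.trans (by
        have : Nat.mod i 2 = 0 := h
        rw [this]; rfl))
      have h2 : Nat.div i 2 = i / 2 := rfl
      rw [h2, ih _ _ (by omega), (deal_getD _ L (i / 2)).2]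
      congr 1
      omega

/-- fast maximum -/
def nmax (a b : ℕ) : ℕ :=
  match Nat.ble a b with
  | true => b
  | false => a

theorem nmax_eq (a b : ℕ) : nmax a b = max a b := by
  rw [nmax]
  split
  · rename_i h
    exact (max_eq_right (Nat.le_of_ble_eq_true h)).symm
  · rename_i h
    have : ¬ a ≤ b := fun h1 => Bool.false_ne_true (h.symm.trans (Nat.ble_eq_true_of_le h1))
    exact (max_eq_left (by omega)).symm

/-- fast degree of an atom -/
def aDf (l : List (ℕ × ℕ)) (i : ℕ) : ℕ :=
  match Nat.ble 1000 i with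
  | true => Nat.sub i 1000
  | false => gd l i

theorem aDf_eq (l : List (ℕ × ℕ)) (i : ℕ) : aDf l i = aD l i := by
  rw [aDf, aD]
  split
  · rename_i h
    have h1 : 1000 ≤ i := Nat.le_of_ble_eq_true h
    rw [if_neg (by omega)]
    rfl
  · rename_i h
    have : ¬ 1000 ≤ i := fun h1 => Bool.false_ne_true (h.symm.trans (Nat.ble_eq_true_of_le h1))
    rw [if_pos (by omega)]

/-- fast degree of a monomial -/
def mdf (l : List (ℕ × ℕ)) : Mo → ℕ
  | [] => 0
  | x :: m => Nat.add (Nat.mul x.2 (aDf l x.1)) (mdf l m)

theorem mdf_eq (l : List (ℕ × ℕ)) : ∀ m, mdf l m = mdeg (aD l) m := by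
  intro m
  induction m with
  | nil => rfl
  | cons x m ih =>
    rw [mdf, mdeg, aDf_eq, ih]
    rfl

/-- fast generator number -/
def entMf (e : TE) (b : ℕ) : ℕ :=
  match Nat.beq e.1 1 with
  | true => Nat.mul e.2.1 b
  | false => e.2.1

theorem entMf_eq (e : TE) (b : ℕ) : entMf e b = entM e b := by
  rw [entMf, entM]
  split
  · rename_i h
    rw [if_pos (Nat.eq_of_beq_eq_true h)]
    rfl
  · rename_i h
    rw [if_neg]
    intro h1
    rw [h1] at h
    exact absurd h (by decide)

/-- fast degree of a relation -/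
def entTf (l : List (ℕ × ℕ)) (e : TE) (b : ℕ) : ℕ :=
  match Nat.beq b 1 with
  | true => nmax (Nat.add (Nat.sub (entMf e b) e.1) (mdf l e.2.2.1))
      (Nat.add (entMf e b) (mdf l e.2.2.2))
  | false => nmax (Nat.add (Nat.add (Nat.sub (entMf e b) e.1) (mdf l e.2.2.1)) b)
      (Nat.add (Nat.add (entMf e b) (mdf l e.2.2.2)) (Nat.sub b 1))

theorem entTf_eq (l : List (ℕ × ℕ)) (e : TE) (b : ℕ) : entTf l e b = entT l e b := by
  rw [entTf, entT]
  split
  · rename_i h
    rw [if_pos (Nat.eq_of_beq_eq_true h), nmax_eq, mdf_eq, mdf_eq, entMf_eq]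
    rfl
  · rename_i h
    rw [if_neg, nmax_eq, mdf_eq, mdf_eq, entMf_eq]
    · rfl
    · intro h1
      rw [h1] at h
      exact absurd h (by decide)

/-- fast relation list -/
def relF (l : List (ℕ × ℕ)) (T : BT) : List (ℕ × ℕ) → List (ℕ × ℕ)
  | [] => []
  | u :: us => (entMf (T.get u.1) u.2, entTf l (T.get u.1) u.2) :: relF l T us

theorem relF_eq {l : List (ℕ × ℕ)} {tb : List TE} {k : ℕ} : ∀ us : List (ℕ × ℕ),
    us.all (fun u => Nat.blt u.1 (2 ^ k)) = true → relF l (bld k tb) us = relList l tb us := by
  intro us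
  induction us with
  | nil => intro _; rfl
  | cons u us ih =>
    intro h
    rw [List.all_cons, Bool.and_eq_true] at h
    rw [relF, relList, ih h.2, get_bld k tb u.1 (Nat.blt_eq.mp h.1), entMf_eq, entTf_eq]

/-- fast largest atom -/
def topAf : Mo → ℕ
  | [] => 0
  | x :: m => nmax x.1 (topAf m)

theorem topAf_eq : ∀ m, topAf m = topA m := by
  intro m
  induction m with
  | nil => rfl
  | cons x m ih => rw [topAf, topA, nmax_eq, ih]

/-- fast check of a use -/
def entOkF (e : TE) (b : ℕ) : Bool :=
  match Nat.blt 0 b with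
  | false => false
  | true =>
  match Nat.beq b 1 || Nat.beq e.1 1 with
  | false => false
  | true =>
  match Nat.blt b (entMf e b) with
  | false => false
  | true =>
  match Nat.blt (topAf e.2.2.1) (Nat.add 1000 (entMf e b)) with
  | false => false
  | true => Nat.blt (topAf e.2.2.2) (Nat.add 1000 (entMf e b))

theorem entOkF_spec {e : TE} {b : ℕ} (h : entOkF e b = true) : entOk e b = true := by
  rw [entOkF] at h
  split at h
  · exact absurd h (by simp)
  rename_i h1
  split at h
  · exact absurd h (by simp)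
  rename_i h2
  split at h
  · exact absurd h (by simp)
  rename_i h3
  split at h
  · exact absurd h (by simp)
  rename_i h4
  rw [entMf_eq] at h3 h4 h
  rw [topAf_eq] at h4 h
  have g1 : 0 < b := Nat.blt_eq.mp h1
  have g3 : b < entM e b := Nat.blt_eq.mp h3
  have g4 : topA e.2.2.1 < 1000 + entM e b := Nat.blt_eq.mp h4
  have g5 : topA e.2.2.2 < 1000 + entM e b := Nat.blt_eq.mp h
  simp only [entOk, Bool.and_eq_true, Bool.or_eq_true, decide_eq_true_eq]
  rw [Bool.or_eq_true] at h2
  exact ⟨⟨⟨⟨g1, h2.imp Nat.eq_of_beq_eq_true Nat.eq_of_beq_eq_true⟩, g3⟩, g4⟩, g5⟩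

/-- fast check of all uses -/
def usesF (T : BT) (n : ℕ) : List (ℕ × ℕ) → Bool
  | [] => true
  | u :: us =>
    match Nat.blt u.1 n with
    | false => false
    | true =>
      match entOkF (T.get u.1) u.2 with
      | false => false
      | true => usesF T n us

theorem usesF_spec {tb : List TE} {k n : ℕ} (hn' : Nat.ble n tb.length = true)
    (hk' : Nat.ble n (2 ^ k) = true) :
    ∀ us : List (ℕ × ℕ), usesF (bld k tb) n us = true →
      usesOk tb us = true ∧ us.all (fun u => Nat.blt u.1 (2 ^ k)) = true := by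
  have hn : n ≤ tb.length := Nat.le_of_ble_eq_true hn'
  have hk : n ≤ 2 ^ k := Nat.le_of_ble_eq_true hk'
  intro us
  induction us with
  | nil => intro _; exact ⟨rfl, rfl⟩
  | cons u us ih =>
    intro h
    rw [usesF] at h
    split at h
    · exact absurd h (by simp)
    rename_i h1
    split at h
    · exact absurd h (by simp)
    rename_i h2
    have g1 : u.1 < n := Nat.blt_eq.mp h1
    rw [get_bld k tb u.1 (by omega)] at h2
    have g2 := entOkF_spec h2
    obtain ⟨i1, i2⟩ := ih h
    constructor
    · rw [usesOk, List.all_cons, Bool.and_eq_true]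
      refine ⟨?_, i1⟩
      rw [Bool.and_eq_true]
      exact ⟨decide_eq_true (by omega), g2⟩
    · rw [List.all_cons, Bool.and_eq_true]
      exact ⟨Nat.blt_eq.mpr (by omega), i2⟩

end Pool.Agent.Lib.MP_2e8272_nt.Full
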