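import Pool.Agent.Lib.MP_2e8272_nt.Full.Tree

/-!
# The base monoid: values are represented by exponent vectors avoiding the patterns
-/

namespace Pool.Agent.Lib.MP_2e8272_nt.Full

open PowerSeries

/-- degree of generator number `i` of the list `l`; number `l.length` is `(1, 1)` -/
def gd (l : List (ℕ × ℕ)) (i : ℕ) : ℕ := (l.getD i (1, 1)).1

/-- value of generator number `i` -/
def gv (l : List (ℕ × ℕ)) (i : ℕ) : ℕ := (l.getD i (1, 1)).2

/-- value of an exponent vector -/
def vval (l : List (ℕ × ℕ)) (k : ℕ) (c : ℕ → ℕ) : ℕ := ∏ i ∈ Finset.range k, gv l i ^ c i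

/-- value of a sparse monomial -/
def mval (l : List (ℕ × ℕ)) : Mo → ℕ
  | [] => 1
  | x :: m => gv l x.1 ^ x.2 * mval l m

theorem gd_pos {l : List (ℕ × ℕ)} (h : ∀ g ∈ l, 0 < g.1 ∧ 0 < g.2) (i : ℕ) : 0 < gd l i := by
  unfold gd
  by_cases hi : i < l.length
  · have : l.getD i (1, 1) = l[i] := by simp [hi]
    rw [this]
    exact (h _ (List.getElem_mem hi)).1
  · have : l.getD i (1, 1) = (1, 1) := by simp [hi]
    rw [this]
    exact Nat.one_pos

theorem exists_vec (l : List (ℕ × ℕ)) : ∀ n x : ℕ, (n, x) ∈ baseOf l →
    ∃ c : ℕ → ℕ, (∀ i, l.length + 1 ≤ i → c i = 0) ∧ dgr (gd l) (l.length + 1) c = n ∧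
      vval l (l.length + 1) c = x := by
  induction l with
  | nil =>
    intro n x h
    have hx : x = 1 := h
    refine ⟨fun i => if i = 0 then n else 0, ?_, ?_, ?_⟩
    · intro i hi
      have : i ≠ 0 := by
        have : 0 + 1 ≤ i := hi
        omega
      simp [this]
    · simp [dgr, gd]
    · simp [vval, gv, hx]
  | cons g l ih =>
    rintro n x ⟨e, a, y, hy, he⟩
    obtain ⟨h1, h2⟩ := Prod.mk.inj he
    obtain ⟨c, hc1, hc2, hc3⟩ := ih a y hy
    refine ⟨fun i => match i with
      | 0 => e
      | i + 1 => c i, ?_, ?_, ?_⟩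
    · intro i hi
      cases i with
      | zero => exact absurd hi (by simp)
      | succ i =>
        show c i = 0
        exact hc1 i (by rw [List.length_cons] at hi; omega)
    · unfold dgr at hc2 ⊢
      rw [List.length_cons, Finset.sum_range_succ']
      have : ∀ i, gd (g :: l) (i + 1) = gd l i := fun i => rfl
      simp only [this]
      show ∑ i ∈ Finset.range (l.length + 1), c i * gd l i + e * g.1 = n
      rw [hc2, h1]
    · unfold vval at hc3 ⊢
      rw [List.length_cons, Finset.prod_range_succ']
      have : ∀ i, gv (g :: l) (i + 1) = gv l i := fun i => rfl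
      simp only [this]
      show (∏ i ∈ Finset.range (l.length + 1), gv l i ^ c i) * g.2 ^ e = x
      rw [hc3, h2]

theorem vval_look {l : List (ℕ × ℕ)} {k : ℕ} {m : Mo} (hn : (m.map Prod.fst).Nodup)
    (hk : ∀ x ∈ m, x.1 < k) : vval l k (look m) = mval l m := by
  induction m with
  | nil => simp [vval, look, mval]
  | cons x m ih =>
    rw [List.map_cons, List.nodup_cons] at hn
    have ih' := ih hn.2 (fun y hy => hk y (by simp [hy]))
    rw [mval, ← ih']
    unfold vval
    have hx : x.1 ∈ Finset.range k := Finset.mem_range.mpr (hk x (by simp))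
    rw [← Finset.mul_prod_erase _ _ hx, ← Finset.mul_prod_erase (a := x.1) (s := Finset.range k)
      (fun i => gv l i ^ look m i) hx]
    have h0 : look m x.1 = 0 := look_eq_zero hn.1
    have h1 : look (x :: m) x.1 = x.2 := by rw [look, if_pos rfl]
    rw [h0, h1, pow_zero, one_mul]
    congr 1
    refine Finset.prod_congr rfl fun i hi => ?_
    have : x.1 ≠ i := (Finset.ne_of_mem_erase hi).symm
    rw [look, if_neg this]

/-- check of one relation: pattern, replacement -/
def relOk (l : List (ℕ × ℕ)) (w : ℕ → ℕ) (k : ℕ) (r : Mo × Mo) : Bool :=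
  decide (mdeg (gd l) r.1 = mdeg (gd l) r.2) && decide (mval l r.1 = mval l r.2) &&
  decide (mdeg w r.1 < mdeg w r.2) && decide ((r.1.map Prod.fst).Nodup) &&
  decide ((r.2.map Prod.fst).Nodup) && r.1.all (fun x => decide (x.1 < k)) &&
  r.2.all (fun x => decide (x.1 < k))

theorem base_count {l : List (ℕ × ℕ)} (hl : ∀ g ∈ l, 0 < g.1 ∧ 0 < g.2) (w : ℕ → ℕ)
    (rels : List (List (Mo × Mo)))
    (hr : rels.all (fun rs => rs.all (relOk l w (l.length + 1))) = true) :
    Nn (ser (gd l) (l.length + 1) (Region (rels.map fun rs => rs.map Prod.fst) [] []) -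
      cnt (baseOf l)) := by
  set k := l.length + 1 with hk
  have hd : ∀ i < k, 0 < gd l i := fun i _ => gd_pos hl i
  intro n
  rw [map_sub, coeff_ser, coeff_cnt, sub_nonneg, Nat.cast_le]
  -- every value has a representative avoiding the patterns
  have key : ∀ x, (n, x) ∈ baseOf l → ∃ c, c ∈ vecs (gd l) k
      (Region (rels.map fun rs => rs.map Prod.fst) [] []) n ∧ vval l k c = x := by
    intro x hx
    obtain ⟨c0, h1, h2, h3⟩ := exists_vec l n x hx
    have hfin := vecs_finite hd (fun c => vval l k c = x) n
    obtain ⟨c, hc, hmax⟩ := Set.exists_max_image (vecs (gd l) k (fun c => vval l k c = x) n)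
      (fun c => dgr w k c) hfin ⟨c0, h1, h2, h3⟩
    refine ⟨c, ⟨hc.1, hc.2.1, ?_, ?_, ?_⟩, hc.2.2⟩
    · intro v; exact Nat.zero_le _
    · intro y hy; exact absurd hy (by simp)
    · intro p hp hcont
      obtain ⟨ps, hps, hp'⟩ := List.mem_flatten.mp hp
      obtain ⟨rs, hrs, rfl⟩ := List.mem_map.mp hps
      obtain ⟨r, hrr, rfl⟩ := List.mem_map.mp hp'
      have hok := List.all_eq_true.mp (List.all_eq_true.mp hr rs hrs) r hrr
      simp only [relOk, Bool.and_eq_true, decide_eq_true_eq, List.all_eq_true] at hok
      obtain ⟨⟨⟨⟨⟨⟨g1, g2⟩, g3⟩, g4⟩, g5⟩, g6⟩, g7⟩ := hok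
      have hle := (cont_iff g4 c).mp hcont
      -- the improved vector
      set c' : ℕ → ℕ := fun i => c i - look r.1 i + look r.2 i with hc'
      have hsum : ∀ u : ℕ → ℕ, dgr u k c' + mdeg u r.1 = dgr u k c + mdeg u r.2 := by
        intro u
        rw [← dgr_look g4 g6, ← dgr_look g5 g7]
        unfold dgr
        rw [← Finset.sum_add_distrib, ← Finset.sum_add_distrib]
        refine Finset.sum_congr rfl fun i _ => ?_
        show (c i - look r.1 i + look r.2 i) * u i + look r.1 i * u i = _
        have := hle i
        obtain ⟨e, he⟩ := Nat.exists_eq_add_of_le this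
        rw [he, Nat.add_sub_cancel_left]
        ring
      have hprod : vval l k c' * mval l r.1 = vval l k c * mval l r.2 := by
        rw [← vval_look g4 g6, ← vval_look g5 g7]
        unfold vval
        rw [← Finset.prod_mul_distrib, ← Finset.prod_mul_distrib]
        refine Finset.prod_congr rfl fun i _ => ?_
        show gv l i ^ (c i - look r.1 i + look r.2 i) * gv l i ^ look r.1 i = _
        rw [← pow_add, ← pow_add]
        congr 1
        have := hle i
        omega
      have hpos : 0 < mval l r.1 := by
        rw [← vval_look g4 g6]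
        refine Finset.prod_pos fun i _ => Nat.pow_pos ?_
        unfold gv
        by_cases hi : i < l.length
        · have : l.getD i (1, 1) = l[i] := by simp [hi]
          rw [this]
          exact (hl _ (List.getElem_mem hi)).2
        · have : l.getD i (1, 1) = (1, 1) := by simp [hi]
          rw [this]
          exact Nat.one_pos
      have hmem : c' ∈ vecs (gd l) k (fun c => vval l k c = x) n := by
        refine ⟨?_, ?_, ?_⟩
        · intro i hi
          have h8 : look r.2 i = 0 := by
            refine look_eq_zero fun hmem => ?_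
            obtain ⟨y, hy, hyi⟩ := List.mem_map.mp hmem
            have := g7 y hy
            omega
          show c i - look r.1 i + look r.2 i = 0
          rw [hc.1 i hi, h8]
          simp
        · have := hsum (gd l)
          have h9 := hc.2.1
          omega
        · show vval l k c' = x
          rw [← g2] at hprod
          have h10 : vval l k c' = vval l k c := Nat.eq_of_mul_eq_mul_right hpos hprod
          rw [h10]
          exact hc.2.2
      have h11 := hmax c' hmem
      have h12 := hsum w
      omega
  choose! f hf using key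
  refine Set.ncard_le_ncard_of_injOn f ?_ ?_ (vecs_finite hd _ n)
  · intro x hx
    exact (hf x hx).1
  · intro x hx y hy hxy
    rw [← (hf x hx).2, ← (hf y hy).2, hxy]

/-- **Base theorem**: relations and a decision tree bound the number of values of the base
monoid. -/
theorem base_bound {l : List (ℕ × ℕ)} (hl : ∀ g ∈ l, 0 < g.1 ∧ 0 < g.2) (w : ℕ → ℕ)
    (rels : List (List (Mo × Mo)))
    (hr : rels.all (fun rs => rs.all (relOk l w (l.length + 1))) = true) (t : Tree)
    (ht : chk (rels.map fun rs => rs.map Prod.fst) (l.length + 1) t [] [] = true) :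
    Nn (num (gd l) t [] 0 * ∏ i ∈ Finset.range (l.length + 1), geo (gd l i) -
      cnt (baseOf l)) := by
  have hd : ∀ i < l.length + 1, 0 < gd l i := fun i _ => gd_pos hl i
  have h1 := base_count hl w rels hr
  have h2 := tree_bound hd (rels.map fun rs => rs.map Prod.fst) t [] [] (fun _ _ => rfl) ht
  have h3 : dgr (gd l) (l.length + 1) (look []) = 0 := by
    unfold dgr
    simp [look]
  rw [h3] at h2
  have := h2.add h1
  convert this using 1
  ring

end Pool.Agent.Lib.MP_2e8272_nt.Full
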