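import Pool.Agent.Lib.MP_2e8272_nt.Full.Range

/-!
# Certificate data: multiplication table, uses, surviving parts
-/

namespace Pool.Agent.Lib.MP_2e8272_nt.Full.BaseA

open Full

def tb0 : List TE := [(2,2,[(0,1)],[]),
  (3,3,[(1,1)],[]),
  (4,4,[(2,1)],[]),
  (5,5,[(3,1)],[]),
  (6,6,[(4,1)],[]),
  (7,7,[(5,1)],[]),
  (8,8,[(6,1)],[]),
  (9,9,[(7,1)],[]),
  (10,10,[(8,1)],[]),
  (11,11,[(9,1)],[]),
  (12,12,[(10,1)],[]),
  (13,13,[(11,1)],[]),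
  (14,14,[(12,1)],[]),
  (15,15,[(13,1)],[]),
  (16,16,[(14,1)],[]),
  (1,18,[(1003,2)],[(1002,1)]),
  (1,20,[(1005,1)],[(1003,1)]),
  (2,21,[(1007,1)],[(1002,1),(1003,1)]),
  (3,22,[(1011,1)],[(1003,1),(1006,1)]),
  (1,24,[(1004,1)],[]),
  (2,25,[(1005,2)],[(1004,1)]),
  (1,26,[(1002,1),(1013,1)],[(1012,1)]),
  (1,27,[(1003,3)],[(1002,3)]),
  (1,28,[(1008,1)],[(1002,1),(1006,1)]),
  (1,30,[(1005,1)],[(1002,2)]),
  (1,32,[(1002,5)],[]),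
  (1,33,[(1003,1),(1011,1)],[(1002,1),(1010,1)]),
  (1,34,[(1002,1),(1017,1)],[(1016,1)]),
  (1,35,[(1007,1)],[(1003,1),(1004,1)]),
  (1,36,[(1003,2)],[]),
  (1,38,[(1002,1),(1019,1)],[(1018,1)]),
  (1,39,[(1003,1),(1013,1)],[(1002,1),(1012,1)]),
  (1,40,[(1002,1),(1005,1)],[(1003,1)]),
  (1,42,[(1007,1)],[(1005,1)]),
  (1,44,[(1002,1),(1012,1)],[(1003,1),(1010,1)]),
  (1,45,[(1003,1),(1006,1)],[(1002,2),(1004,1)]),
  (1,46,[(1002,1),(1023,1)],[(1022,1)]),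
  (1,48,[(1002,1),(1004,1)],[]),
  (1,49,[(1007,2)],[(1006,2)]),
  (1,50,[(1005,2)],[(1002,1),(1003,1),(1004,1)])]

def tb1 : List TE := [(1,51,[(1003,1),(1017,1)],[(1002,1),(1016,1)]),
  (1,52,[(1002,1),(1013,1)],[(1003,1),(1011,1)]),
  (1,54,[(1003,3)],[(1002,2)]),
  (1,55,[(1011,1)],[(1002,1),(1009,1)]),
  (1,56,[(1008,1)],[(1006,1)]),
  (3,57,[(1022,1)],[(1018,1)]),
  (1,58,[(1002,1),(1029,1)],[(1028,1)]),
  (1,60,[(1005,1)],[(1002,1)]),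
  (1,62,[(1002,1),(1031,1)],[(1030,1)]),
  (1,63,[(1003,1),(1007,1)],[(1002,2),(1005,1)]),
  (2,64,[(1004,1),(1008,1)],[(1002,1),(1005,1)]),
  (3,65,[(1016,1)],[(1002,1),(1011,1)]),
  (4,66,[(1014,1)],[(1007,1)]),
  (1,68,[(1003,1),(1017,1)],[(1004,1),(1015,1)]),
  (1,69,[(1003,1),(1023,1)],[(1002,1),(1022,1)]),
  (1,70,[(1002,1),(1007,1)],[(1003,1),(1004,1)]),
  (1,72,[(1003,1),(1004,1)],[(1002,1)]),
  (1,74,[(1002,1),(1037,1)],[(1036,1)]),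
  (1,75,[(1005,1),(1006,1)],[(1002,1),(1004,2)]),
  (1,76,[(1002,2),(1019,1)],[(1018,1)]),
  (1,77,[(1011,1)],[(1006,2)]),
  (1,78,[(1013,1)],[(1002,1),(1011,1)]),
  (1,80,[(1002,2),(1005,1)],[(1003,1)]),
  (2,81,[(1003,2),(1006,1)],[(1002,2)]),
  (1,82,[(1002,1),(1041,1)],[(1040,1)]),
  (1,84,[(1002,1),(1007,1)],[(1005,1)]),
  (2,85,[(1003,1),(1017,1)],[(1002,1),(1004,1),(1013,1)]),
  (1,86,[(1002,1),(1043,1)],[(1042,1)]),
  (1,87,[(1003,1),(1029,1)],[(1002,1),(1028,1)]),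
  (1,88,[(1002,2),(1012,1)],[(1003,1),(1010,1)]),
  (1,90,[(1006,1)],[(1002,3)]),
  (1,91,[(1014,1)],[(1002,1),(1012,1)]),
  (1,92,[(1024,1)],[(1003,1),(1022,1)]),
  (1,93,[(1003,1),(1031,1)],[(1002,1),(1030,1)]),
  (1,94,[(1002,1),(1047,1)],[(1046,1)]),
  (1,95,[(1003,1),(1020,1)],[(1004,1),(1018,1)]),
  (1,96,[(1002,2),(1004,1)],[]),
  (1,98,[(1002,1),(1007,2)],[(1006,2)]),
  (1,99,[(1012,1)],[(1005,1),(1008,1)]),
  (1,100,[(1005,2)],[(1003,1),(1004,1)])]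

def tb2 : List TE := [(1,102,[(1003,1),(1017,1)],[(1016,1)]),
  (1,104,[(1002,2),(1013,1)],[(1003,1),(1011,1)]),
  (1,105,[(1007,1)],[(1002,1),(1004,1)]),
  (1,106,[(1002,1),(1053,1)],[(1052,1)]),
  (1,108,[(1003,3)],[(1002,1)]),
  (1,110,[(1011,1)],[(1009,1)]),
  (1,111,[(1003,1),(1037,1)],[(1002,1),(1036,1)]),
  (1,112,[(1002,1),(1008,1)],[(1006,1)]),
  (1,114,[(1002,1),(1019,1)],[(1003,1),(1017,1)]),
  (1,115,[(1005,1),(1023,1)],[(1004,1),(1022,1)]),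
  (1,116,[(1002,2),(1029,1)],[(1028,1)]),
  (1,117,[(1003,1),(1013,1)],[(1002,3),(1011,1)]),
  (1,2,[(1002,1)],[]),
  (1,119,[(1003,1),(1017,1)],[(1004,1),(1005,1),(1013,1)]),
  (1,120,[(1005,1)],[]),
  (2,121,[(1011,2)],[(1003,1),(1007,1),(1010,1)]),
  (1,123,[(1003,1),(1041,1)],[(1002,1),(1040,1)]),
  (1,124,[(1002,2),(1031,1)],[(1030,1)]),
  (1,125,[(1005,3)],[(1004,3)]),
  (1,126,[(1003,1),(1007,1)],[(1002,1),(1005,1)]),
  (1,128,[(1002,7)],[]),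
  (1,129,[(1003,1),(1043,1)],[(1002,1),(1042,1)]),
  (1,130,[(1005,1),(1013,1)],[(1002,1),(1003,1),(1012,1)]),
  (1,132,[(1012,1)],[(1010,1)]),
  (1,133,[(1002,1),(1021,1)],[(1005,1),(1018,1)]),
  (1,135,[(1003,1),(1006,1)],[(1002,5)]),
  (1,136,[(1017,1)],[(1002,1),(1015,1)]),
  (1,138,[(1003,1),(1023,1)],[(1022,1)]),
  (1,140,[(1007,1)],[(1003,2)]),
  (1,141,[(1003,1),(1047,1)],[(1002,1),(1046,1)]),
  (1,143,[(1002,1),(1013,1)],[(1004,1),(1010,1)]),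
  (1,144,[(1003,1),(1004,1)],[]),
  (1,145,[(1030,1)],[(1003,1),(1028,1)]),
  (1,147,[(1007,2)],[(1002,1),(1005,1),(1006,1)]),
  (1,148,[(1002,2),(1037,1)],[(1036,1)]),
  (1,150,[(1005,2)],[(1002,2),(1004,1)]),
  (1,152,[(1002,3),(1019,1)],[(1018,1)]),
  (1,153,[(1018,1)],[(1002,1),(1016,1)]),
  (1,154,[(1002,1),(1011,1)],[(1006,2)]),
  (1,155,[(1031,1)],[(1003,1),(1029,1)])]

def tb3 : List TE := [(1,156,[(1013,1)],[(1011,1)]),
  (1,159,[(1003,1),(1053,1)],[(1002,1),(1052,1)]),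
  (1,160,[(1002,3),(1005,1)],[(1003,1)]),
  (1,161,[(1007,1),(1023,1)],[(1006,1),(1022,1)]),
  (1,162,[(1003,4)],[(1002,3)]),
  (1,164,[(1002,2),(1041,1)],[(1040,1)]),
  (1,165,[(1011,1)],[(1003,1),(1008,1)]),
  (1,168,[(1008,1)],[(1002,1),(1005,1)]),
  (1,169,[(1013,2)],[(1012,2)]),
  (1,170,[(1017,1)],[(1004,1),(1014,1)]),
  (1,171,[(1019,1)],[(1002,1),(1017,1)]),
  (1,172,[(1002,2),(1043,1)],[(1042,1)]),
  (1,174,[(1003,1),(1029,1)],[(1028,1)]),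
  (1,175,[(1005,1),(1007,1)],[(1003,1),(1004,2)]),
  (2,176,[(1011,1)],[(1003,4)]),
  (1,3,[(1003,1)],[(1002,1)]),
  (1,180,[(1006,1)],[(1002,2)]),
  (1,182,[(1014,1)],[(1012,1)]),
  (1,184,[(1002,1),(1024,1)],[(1003,1),(1022,1)]),
  (1,185,[(1005,1),(1037,1)],[(1004,1),(1036,1)]),
  (1,186,[(1003,1),(1031,1)],[(1030,1)]),
  (1,187,[(1011,1),(1017,1)],[(1010,1),(1016,1)]),
  (1,188,[(1002,2),(1047,1)],[(1046,1)]),
  (1,189,[(1003,2),(1007,1)],[(1002,3),(1005,1)]),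
  (1,190,[(1020,1)],[(1002,1),(1018,1)]),
  (1,192,[(1002,3),(1004,1)],[]),
  (1,195,[(1006,1),(1013,1)],[(1002,1),(1004,1),(1012,1)]),
  (1,196,[(1007,1),(1008,1)],[(1002,1),(1006,2)]),
  (1,198,[(1002,1),(1012,1)],[(1005,1),(1008,1)]),
  (1,200,[(1005,2)],[(1002,1),(1003,2)]),
  (1,203,[(1003,1),(1029,1)],[(1004,1),(1027,1)]),
  (1,204,[(1018,1)],[(1004,1),(1015,1)]),
  (1,205,[(1005,1),(1041,1)],[(1004,1),(1040,1)]),
  (1,207,[(1003,2),(1023,1)],[(1002,2),(1022,1)]),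
  (1,208,[(1002,3),(1013,1)],[(1003,1),(1011,1)]),
  (1,209,[(1003,1),(1022,1)],[(1007,1),(1018,1)]),
  (1,210,[(1007,1)],[(1004,1)]),
  (1,212,[(1002,2),(1053,1)],[(1052,1)]),
  (1,215,[(1005,1),(1043,1)],[(1004,1),(1042,1)]),
  (1,216,[(1003,3)],[])]

def tb4 : List TE := [(1,217,[(1007,1),(1031,1)],[(1006,1),(1030,1)]),
  (1,220,[(1002,1),(1011,1)],[(1009,1)]),
  (2,221,[(1002,1),(1017,1)],[(1008,1),(1009,1)]),
  (1,222,[(1037,1)],[(1003,1),(1035,1)]),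
  (1,224,[(1002,2),(1008,1)],[(1006,1)]),
  (2,225,[(1010,1)],[(1002,1),(1003,2)]),
  (1,228,[(1004,1),(1019,1)],[(1002,1),(1018,1)]),
  (1,230,[(1002,1),(1025,1)],[(1005,1),(1022,1)]),
  (1,231,[(1011,1)],[(1002,1),(1005,1),(1006,1)]),
  (1,232,[(1002,3),(1029,1)],[(1028,1)]),
  (1,234,[(1003,1),(1013,1)],[(1002,2),(1011,1)]),
  (1,235,[(1005,1),(1047,1)],[(1004,1),(1046,1)]),
  (1,59,[(1059,1)],[(1058,1)]),
  (1,238,[(1017,1)],[(1002,1),(1005,1),(1013,1)]),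
  (1,240,[(1002,1),(1005,1)],[]),
  (1,242,[(1002,1),(1011,2)],[(1010,2)]),
  (1,243,[(1003,5)],[(1002,5)]),
  (1,4,[(1002,2)],[]),
  (1,245,[(1007,2)],[(1003,1),(1004,1),(1006,1)]),
  (1,246,[(1003,1),(1041,1)],[(1040,1)]),
  (1,247,[(1013,1),(1019,1)],[(1012,1),(1018,1)]),
  (1,248,[(1003,1),(1032,1)],[(1004,1),(1030,1)]),
  (1,250,[(1005,3)],[(1002,1),(1003,1),(1004,2)]),
  (1,252,[(1009,1)],[(1002,1),(1006,1)]),
  (1,253,[(1023,1)],[(1002,1),(1021,1)]),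
  (1,255,[(1006,1),(1017,1)],[(1002,1),(1004,1),(1016,1)]),
  (1,256,[(1002,8)],[]),
  (1,258,[(1003,1),(1043,1)],[(1042,1)]),
  (1,259,[(1002,2),(1037,1)],[(1006,1),(1034,1)]),
  (1,260,[(1005,1),(1013,1)],[(1003,1),(1012,1)]),
  (2,261,[(1029,1)],[(1007,1),(1023,1)]),
  (1,264,[(1002,1),(1012,1)],[(1010,1)]),
  (1,266,[(1002,2),(1021,1)],[(1005,1),(1018,1)]),
  (1,270,[(1003,1),(1006,1)],[(1002,4)]),
  (1,272,[(1017,1)],[(1015,1)]),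
  (1,273,[(1003,1),(1014,1)],[(1002,2),(1012,1)]),
  (1,275,[(1005,1),(1011,1)],[(1002,1),(1004,1),(1009,1)]),
  (1,276,[(1024,1)],[(1002,1),(1022,1)]),
  (1,279,[(1003,2),(1031,1)],[(1002,2),(1030,1)]),
  (1,280,[(1008,1)],[(1003,1),(1004,1)])]

def tb5 : List TE := [(1,285,[(1020,1)],[(1004,1),(1017,1)]),
  (1,286,[(1013,1)],[(1003,1),(1010,1)]),
  (1,288,[(1004,2)],[(1002,1)]),
  (1,294,[(1007,2)],[(1005,1),(1006,1)]),
  (1,297,[(1003,1),(1012,1)],[(1002,1),(1005,1),(1008,1)]),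
  (1,300,[(1005,2)],[(1002,1),(1004,1)])]

/-- multiplication table -/
def tb : List TE := tb0 ++ tb1 ++ tb2 ++ tb3 ++ tb4 ++ tb5

def us0 : List (ℕ × ℕ) := [(0,1), (1,1), (2,1), (3,1), (4,1), (5,1), (6,1), (7,1), (8,1), (9,1), (10,1), (11,1), (12,1), (13,1), (14,1), (15,1), (16,1), (17,1), (18,1), (19,1), (20,1), (21,1), (22,1), (23,1), (24,1), (25,1), (26,1), (27,1), (28,1), (29,1), (30,1), (31,1), (32,1), (33,1), (34,1), (35,1), (36,1), (37,1), (38,1), (39,1), (40,1), (41,1), (42,1), (43,1), (44,1), (45,1), (46,1), (47,1), (48,1), (49,1), (50,1), (51,1), (52,1), (53,1), (54,1), (55,1), (56,1), (57,1), (58,1), (59,1), (60,1), (61,1), (62,1), (63,1), (64,1), (65,1), (66,1), (67,1), (68,1), (69,1), (70,1), (71,1), (72,1), (73,1), (74,1), (75,1), (76,1), (77,1), (78,1), (79,1), (80,1), (81,1), (82,1), (83,1), (84,1), (85,1), (86,1), (87,1), (88,1), (89,1), (90,1),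 (91,1), (92,59), (93,1), (94,1), (95,1), (92,61), (96,1), (97,1), (98,1), (99,1), (100,1), (101,1), (102,1), (103,1), (104,1), (92,67), (105,1), (106,1), (107,1), (108,1), (109,1), (92,71), (110,1), (111,1), (112,1), (92,73), (113,1), (114,1), (115,1), (116,1), (117,1), (118,1), (119,1), (120,1), (92,79), (121,1), (122,1), (123,1), (124,1), (125,1), (126,1), (92,83), (127,1), (128,1), (129,1), (130,1), (131,1), (132,1), (133,1), (134,1), (135,59), (92,89), (136,1), (137,1), (135,61), (138,1), (139,1), (140,1), (141,1), (142,1), (143,1), (144,1), (145,1), (92,97), (146,1), (147,1), (148,1), (149,1), (135,67), (92,101), (150,1), (151,1), (152,1), (92,103), (153,1), (154,1), (155,1), (156,1), (157,1), (135,71), (158,1), (159,1), (160,1), (135,73), (161,1), (162,1), (163,1), (164,1), (165,1), (166,1), (167,1), (168,1), (169,1), (170,1), (171,1), (172,4), (135,79),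 (173,1), (174,1), (175,1), (176,1), (177,61), (178,1), (179,1), (180,1), (181,1), (182,1), (183,1), (184,1)]

def us1 : List (ℕ × ℕ) := [(185,1), (186,1), (187,1), (188,1), (189,1), (190,1), (191,1), (192,1), (193,1), (194,1), (195,1), (196,1), (197,1), (198,1), (199,1), (200,1), (201,1), (202,1), (203,1), (204,1), (205,1)]

/-- uses of the table -/
def us : List (ℕ × ℕ) := us0 ++ us1

def sv0 : List ℕ := [17, 18, 19, 20, 21, 22, 25, 28, 29, 30, 32, 37, 38, 39, 44, 45, 49, 50, 51, 56, 60, 61, 68, 69, 73, 75, 81, 82, 83, 84, 86, 97, 99, 100, 101, 102, 107, 108, 110, 115, 127, 128, 129, 131, 132, 133, 137, 138, 140, 154, 155, 162, 164, 165, 169, 172, 180, 181, 182, 183, 196, 197, 198, 199, 200, 204, 206, 207, 222, 225, 228, 229, 230, 231, 242, 243, 245, 248, 253, 255, 256, 267, 272, 273, 274, 275, 283, 284, 285, 302, 305, 311, 313, 314, 316, 317, 319, 320]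

/-- surviving parts -/
def sv : List ℕ := sv0

end Pool.Agent.Lib.MP_2e8272_nt.Full.BaseA
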