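import Pool.Agent.Lib.MP_2e8272_nt.Full.DataA
import Pool.Agent.Lib.MP_2e8272_nt.Full.TabA

/-!
# The inequality for all `n < 301`
-/

namespace Pool.Agent.Lib.MP_2e8272_nt.Full.BaseA

open Full

theorem hl : ∀ g ∈ l, 0 < g.1 ∧ 0 < g.2 := by decide +kernel

theorem hrels : rels.all (fun rs => rs.all (relOk l w (l.length + 1))) = true := by
  decide +kernel

theorem htree : chk (rels.map fun rs => rs.map Prod.fst) (l.length + 1) tree [] [] = true := by
  decide +kernel

theorem htb : tb.all (teOk l) = true := by decide +kernel

theorem hus : usesOk tb us = true := by decide +kernel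

theorem hinc : incr 1 (relList l tb us) = true := by decide +kernel

theorem hN : (relList l tb us).all (fun r => Nat.ble r.1 320) = true := by decide +kernel

theorem hI : sv.all (fun a => Nat.blt 0 a) = true := by decide +kernel

theorem hcount : countOk 12 321 (1 :: ((relList l tb us).map Prod.snd ++ sv)) = true := by
  decide +kernel

theorem hnum : numOk 120 301 0 (gd l) tree (((List.range (l.length + 1)).map (gd l)) ++ sv)
    (tsL 301) = true := by decide +kernel

theorem main : ∀ m, m < 301 → M m ≤ pSharp m :=
  fun m hm => range_cert hl hrels htree htb hus hinc hN hI hcount (by norm_num) (by norm_num)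
    (by norm_num) (by norm_num) (by norm_num) hnum m (Nat.zero_le m) hm

end Pool.Agent.Lib.MP_2e8272_nt.Full.BaseA
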