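import Pool.Agent.Lib.MP_2e8272_nt.Full.TreeNum

/-!
# Certificate data: base generators, relations, decision tree
-/

namespace Pool.Agent.Lib.MP_2e8272_nt.Full.BaseB

open Full

/-- generators (degree, value) -/
def l : List (ℕ × ℕ) := [(1,2),
  (2,6),
  (4,120),
  (4,5040),
  (9,39916800),
  (10,1037836800),
  (15,177843714048000),
  (17,20274183401472000),
  (19,6463004184721244160000),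
  (14,87178291200),
  (15,1307674368000),
  (18,6402373705728000),
  (20,2432902008176640000),
  (21,51090942171709440000),
  (22,1124000727777607680000),
  (24,620448401733239439360000),
  (25,15511210043330985984000000),
  (26,403291461126605635584000000),
  (27,10888869450418352160768000000),
  (28,304888344611713860501504000000),
  (29,8841761993739701954543616000000),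
  (30,265252859812191058636308480000000)]

/-- weight: lexicographic order, the unit first -/
def w (i : ℕ) : ℕ := if i = 22 then 2 ^ 138 else 2 ^ (132 - 6 * i)

def r0 : List (Mo × Mo) := [([(0,2),(10,1)],[(3,1),(5,1),(22,3)]),
  ([(2,1),(9,1)],[(0,1),(3,1),(5,1),(22,3)]),
  ([(1,2),(6,1)],[(11,1),(22,1)]),
  ([(2,1),(7,1)],[(12,1),(22,1)]),
  ([(0,1),(13,1)],[(3,1),(7,1),(22,1)]),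
  ([(0,4),(1,1),(8,1)],[(15,1),(22,1)]),
  ([(2,2),(8,1)],[(1,1),(16,1)]),
  ([(1,1),(2,1),(14,1)],[(4,1),(7,1),(22,2)]),
  ([(1,3),(17,1)],[(0,3),(18,1),(22,2)]),
  ([(0,1),(7,1),(10,1)],[(5,1),(13,1),(22,2)]),
  ([(0,4),(1,2),(16,1)],[(2,2),(15,1),(22,1)]),
  ([(2,1),(20,1)],[(0,2),(21,1),(22,1)]),
  ([(9,1),(12,1)],[(0,1),(3,1),(5,1),(7,1),(22,2)]),
  ([(1,2),(3,1),(17,1)],[(0,1),(2,1),(19,1),(22,1)]),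
  ([(1,1),(2,1),(19,1)],[(0,2),(3,1),(18,1),(22,1)]),
  ([(5,1),(16,1)],[(4,1),(17,1)]),
  ([(0,1),(10,1),(12,1)],[(2,1),(5,1),(13,1),(22,1)]),
  ([(1,1),(2,1),(3,1),(5,1),(8,1)],[(0,1),(4,1),(19,1),(22,1)]),
  ([(10,1),(15,1)],[(0,2),(1,1),(3,1),(5,1),(8,1),(22,2)]),
  ([(4,1),(7,1),(9,1)],[(0,1),(1,1),(3,1),(5,1),(14,1),(22,1)])]

def r1 : List (Mo × Mo) := [([(0,1),(1,1),(2,1),(8,1),(10,1)],[(4,1),(19,1),(22,4)]),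
  ([(1,1),(6,1),(15,1)],[(0,4),(8,1),(11,1)]),
  ([(1,1),(9,1),(16,1)],[(0,1),(2,1),(3,1),(5,1),(8,1),(22,3)]),
  ([(0,1),(9,1),(18,1)],[(1,1),(5,1),(19,1),(22,2)]),
  ([(2,1),(3,1),(5,1),(15,1)],[(0,5),(4,1),(19,1)]),
  ([(0,4),(1,2),(4,1),(17,1)],[(2,2),(5,1),(15,1),(22,1)]),
  ([(4,1),(9,1),(13,1)],[(1,1),(3,2),(5,1),(14,1),(22,2)]),
  ([(2,1),(11,1),(14,1)],[(1,1),(4,1),(6,1),(7,1),(22,1)]),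
  ([(1,1),(12,1),(14,1)],[(4,1),(7,2),(22,1)]),
  ([(1,1),(2,2),(5,1),(15,1)],[(0,7),(4,1),(18,1),(22,1)]),
  ([(1,1),(7,1),(16,1)],[(2,1),(8,1),(12,1),(22,1)]),
  ([(1,2),(9,1),(17,1)],[(0,2),(5,1),(19,1),(22,4)]),
  ([(13,1),(15,1)],[(0,3),(1,1),(3,1),(7,1),(8,1)]),
  ([(0,1),(1,2),(10,1),(16,1)],[(2,1),(4,1),(19,1),(22,4)]),
  ([(0,1),(10,1),(20,1)],[(9,1),(21,1),(22,1)]),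
  ([(0,1),(9,1),(21,1)],[(3,1),(5,1),(20,1),(22,2)]),
  ([(1,3),(10,1),(16,1)],[(0,1),(3,1),(4,1),(18,1),(22,5)]),
  ([(0,1),(1,2),(10,1),(17,1)],[(2,1),(5,1),(19,1),(22,4)]),
  ([(1,1),(11,1),(17,1)],[(0,3),(6,1),(18,1),(22,1)]),
  ([(0,1),(1,1),(10,1),(19,1)],[(3,1),(9,1),(18,1),(22,1)])]

def r2 : List (Mo × Mo) := [([(2,2),(6,1),(15,1)],[(0,4),(11,1),(16,1)]),
  ([(3,1),(11,1),(17,1)],[(0,1),(2,1),(6,1),(19,1)]),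
  ([(12,1),(20,1)],[(0,2),(7,1),(21,1)]),
  ([(2,1),(14,1),(15,1)],[(0,4),(4,1),(7,1),(8,1),(22,1)]),
  ([(2,1),(11,1),(19,1)],[(0,2),(1,1),(3,1),(6,1),(18,1)]),
  ([(1,1),(12,1),(19,1)],[(0,2),(3,1),(7,1),(18,1)]),
  ([(14,1),(19,1)],[(5,1),(8,1),(13,1)]),
  ([(1,2),(14,1),(16,1)],[(4,1),(8,1),(12,1),(22,3)]),
  ([(1,1),(4,1),(9,1),(17,1)],[(0,1),(2,1),(3,1),(5,2),(8,1),(22,3)]),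
  ([(1,2),(13,1),(17,1)],[(12,1),(19,1),(22,3)]),
  ([(4,1),(9,1),(19,1)],[(1,1),(3,2),(5,2),(8,1),(22,2)]),
  ([(1,2),(2,1),(5,1),(8,1),(10,1)],[(4,1),(9,1),(18,1),(22,2)]),
  ([(1,2),(14,1),(17,1)],[(5,1),(8,1),(12,1),(22,3)]),
  ([(0,3),(14,1),(18,1)],[(1,1),(5,1),(8,1),(12,1),(22,1)]),
  ([(3,1),(7,2),(10,1)],[(5,1),(13,2),(22,1)]),
  ([(1,1),(4,1),(7,1),(17,1)],[(2,1),(5,1),(8,1),(12,1),(22,1)]),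
  ([(1,2),(15,1),(17,1)],[(0,7),(8,1),(18,1),(22,1)]),
  ([(1,1),(2,1),(3,1),(8,1),(17,1)],[(0,1),(16,1),(19,1),(22,1)]),
  ([(0,2),(3,1),(14,1),(18,1)],[(4,1),(7,1),(19,1),(22,1)]),
  ([(2,1),(3,1),(5,1),(8,1),(11,1)],[(0,1),(1,1),(4,1),(6,1),(19,1)])]

def r3 : List (Mo × Mo) := [([(1,1),(3,1),(5,1),(8,1),(12,1)],[(0,1),(4,1),(7,1),(19,1)]),
  ([(1,1),(8,1),(10,1),(12,1)],[(0,1),(3,1),(14,1),(18,1),(22,2)]),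
  ([(1,1),(2,1),(5,1),(8,1),(13,1)],[(4,1),(7,1),(19,1),(22,2)]),
  ([(3,1),(7,1),(10,1),(12,1)],[(2,1),(5,1),(13,2)]),
  ([(7,1),(9,1),(16,1)],[(0,1),(1,1),(3,1),(14,1),(17,1),(22,1)]),
  ([(1,1),(3,1),(15,1),(17,1)],[(0,5),(2,1),(8,1),(19,1)]),
  ([(2,1),(15,1),(19,1)],[(0,6),(3,1),(8,1),(18,1)]),
  ([(1,1),(16,1),(20,1)],[(0,2),(2,1),(8,1),(21,1),(22,1)]),
  ([(0,2),(1,1),(14,1),(21,1)],[(4,1),(7,1),(20,1),(22,1)]),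
  ([(0,1),(2,1),(8,1),(10,1),(11,1)],[(1,1),(4,1),(6,1),(19,1),(22,3)]),
  ([(1,2),(2,1),(5,1),(8,1),(12,1)],[(0,3),(4,1),(7,1),(18,1),(22,1)]),
  ([(9,1),(11,1),(16,1)],[(0,2),(4,1),(6,1),(19,1),(22,3)]),
  ([(1,2),(16,1),(19,1)],[(0,2),(2,1),(3,1),(8,1),(18,1),(22,1)]),
  ([(9,1),(11,1),(17,1)],[(0,2),(5,1),(6,1),(19,1),(22,3)]),
  ([(4,1),(13,1),(19,1)],[(0,1),(3,2),(14,1),(18,1)]),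
  ([(2,1),(3,1),(15,1),(17,1)],[(0,5),(16,1),(19,1)]),
  ([(0,1),(10,1),(11,1),(16,1)],[(2,1),(4,1),(6,1),(19,1),(22,3)]),
  ([(0,5),(4,1),(7,1),(19,1)],[(3,1),(5,1),(12,1),(15,1),(22,1)]),
  ([(4,1),(13,1),(20,1)],[(0,1),(1,1),(3,1),(14,1),(21,1)]),
  ([(2,2),(5,1),(13,2)],[(3,1),(10,1),(12,2),(22,1)])]

def r4 : List (Mo × Mo) := [([(11,1),(12,1),(14,1)],[(1,1),(4,1),(6,1),(7,2)]),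
  ([(7,1),(11,1),(16,1)],[(1,1),(2,1),(6,1),(8,1),(12,1)]),
  ([(1,1),(10,1),(11,1),(16,1)],[(0,1),(3,1),(4,1),(6,1),(18,1),(22,4)]),
  ([(9,1),(13,1),(16,1)],[(1,1),(3,2),(14,1),(17,1),(22,2)]),
  ([(0,1),(10,1),(11,1),(17,1)],[(2,1),(5,1),(6,1),(19,1),(22,3)]),
  ([(1,1),(2,2),(15,1),(17,1)],[(0,7),(16,1),(18,1),(22,1)]),
  ([(2,2),(5,1),(11,1),(15,1)],[(0,7),(1,1),(4,1),(6,1),(18,1)]),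
  ([(1,1),(2,1),(5,1),(12,1),(15,1)],[(0,7),(4,1),(7,1),(18,1)]),
  ([(3,1),(18,1),(20,1)],[(1,1),(19,1),(21,1)]),
  ([(1,1),(2,1),(8,1),(10,1),(13,1)],[(3,2),(14,1),(18,1),(22,4)]),
  ([(7,1),(9,1),(21,1)],[(5,1),(13,1),(20,1),(22,1)]),
  ([(11,2),(17,1)],[(0,3),(1,1),(6,2),(18,1)]),
  ([(3,1),(7,1),(9,1),(18,1)],[(1,1),(5,1),(13,1),(19,1),(22,1)]),
  ([(9,1),(13,1),(18,1)],[(1,1),(7,1),(10,1),(19,1)]),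
  ([(1,1),(3,1),(6,1),(9,1),(18,1)],[(0,1),(10,1),(11,1),(19,1)]),
  ([(9,1),(15,1),(16,1)],[(0,5),(2,1),(3,1),(5,1),(8,2),(22,2)]),
  ([(9,1),(14,1),(18,1)],[(1,1),(5,1),(7,1),(8,1),(10,1)]),
  ([(0,8),(8,2),(11,1)],[(6,1),(15,2),(22,1)]),
  ([(1,2),(10,1),(12,1),(16,1)],[(0,1),(2,2),(3,1),(14,1),(18,1),(22,2)]),
  ([(4,1),(9,2),(18,1)],[(0,1),(1,2),(3,1),(5,2),(8,1),(10,1),(22,1)])]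

def r5 : List (Mo × Mo) := [([(2,2),(19,2)],[(0,1),(1,1),(3,2),(17,1),(18,1)]),
  ([(1,2),(10,1),(13,1),(16,1)],[(2,1),(3,2),(14,1),(18,1),(22,4)]),
  ([(11,1),(14,1),(16,1)],[(4,1),(6,1),(8,1),(12,1),(22,2)]),
  ([(11,1),(13,1),(17,1)],[(6,1),(12,1),(19,1),(22,2)]),
  ([(9,1),(15,1),(18,1)],[(0,3),(1,2),(5,1),(8,1),(19,1),(22,1)]),
  ([(4,1),(19,2)],[(0,1),(3,2),(5,1),(8,1),(18,1)]),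
  ([(9,1),(13,1),(21,1)],[(3,1),(7,1),(10,1),(20,1)]),
  ([(2,1),(5,1),(8,1),(10,1),(11,1)],[(4,1),(6,1),(9,1),(18,1),(22,1)]),
  ([(12,1),(14,1),(15,1)],[(0,4),(4,1),(7,2),(8,1)]),
  ([(7,1),(15,1),(16,1)],[(0,4),(2,1),(8,2),(12,1)]),
  ([(11,1),(14,1),(17,1)],[(5,1),(6,1),(8,1),(12,1),(22,2)]),
  ([(1,1),(9,1),(15,1),(17,1)],[(0,6),(5,1),(8,1),(19,1),(22,3)]),
  ([(2,2),(5,1),(15,2)],[(0,11),(4,1),(8,1),(18,1)]),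
  ([(1,1),(4,1),(17,1),(20,1)],[(0,2),(2,1),(5,1),(8,1),(21,1),(22,1)]),
  ([(4,1),(19,1),(20,1)],[(0,1),(1,1),(3,1),(5,1),(8,1),(21,1)]),
  ([(0,2),(1,1),(3,1),(6,1),(7,1),(18,1)],[(11,1),(12,1),(19,1),(22,1)]),
  ([(9,1),(16,1),(19,1)],[(1,1),(3,2),(5,1),(8,1),(17,1),(22,2)]),
  ([(1,2),(4,1),(17,1),(19,1)],[(0,2),(2,1),(3,1),(5,1),(8,1),(18,1),(22,1)]),
  ([(1,2),(2,1),(5,1),(8,1),(21,1)],[(0,1),(4,1),(18,1),(20,1),(22,1)]),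
  ([(1,2),(2,1),(8,1),(10,1),(17,1)],[(9,1),(16,1),(18,1),(22,2)])]

def r6 : List (Mo × Mo) := [([(11,1),(15,1),(17,1)],[(0,7),(6,1),(8,1),(18,1)]),
  ([(9,1),(15,1),(21,1)],[(0,3),(1,1),(3,1),(5,1),(8,1),(20,1),(22,1)]),
  ([(4,1),(7,1),(10,1),(19,1)],[(3,2),(5,1),(14,1),(18,1),(22,2)]),
  ([(4,1),(7,1),(11,1),(17,1)],[(1,1),(2,1),(5,1),(6,1),(8,1),(12,1)]),
  ([(4,1),(7,1),(10,1),(20,1)],[(1,1),(3,1),(5,1),(14,1),(21,1),(22,2)]),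
  ([(1,1),(2,1),(5,1),(15,1),(21,1)],[(0,5),(4,1),(18,1),(20,1)]),
  ([(2,1),(5,1),(8,1),(11,1),(12,1)],[(0,3),(4,1),(6,1),(7,1),(18,1)]),
  ([(1,1),(3,1),(8,1),(12,1),(17,1)],[(0,1),(7,1),(16,1),(19,1)]),
  ([(11,1),(16,1),(19,1)],[(0,2),(2,1),(3,1),(6,1),(8,1),(18,1)]),
  ([(8,1),(10,1),(11,1),(12,1)],[(0,1),(1,1),(3,1),(6,1),(14,1),(18,1),(22,1)]),
  ([(2,1),(5,1),(8,1),(11,1),(13,1)],[(1,1),(4,1),(6,1),(7,1),(19,1),(22,1)]),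
  ([(1,1),(5,1),(8,1),(12,1),(13,1)],[(4,1),(7,2),(19,1),(22,1)]),
  ([(1,1),(2,1),(8,1),(13,1),(17,1)],[(7,1),(16,1),(19,1),(22,2)]),
  ([(0,1),(1,1),(4,1),(6,1),(7,1),(19,1)],[(3,1),(5,1),(8,1),(11,1),(12,1),(22,1)]),
  ([(4,1),(10,1),(12,1),(19,1)],[(2,1),(3,2),(5,1),(14,1),(18,1),(22,1)]),
  ([(11,1),(16,1),(20,1)],[(0,2),(1,1),(2,1),(6,1),(8,1),(21,1)]),
  ([(1,1),(4,1),(6,1),(7,1),(20,1)],[(0,2),(11,1),(14,1),(21,1)]),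
  ([(1,1),(14,1),(15,1),(16,1)],[(0,4),(4,1),(8,2),(12,1),(22,2)]),
  ([(1,2),(2,1),(8,1),(12,1),(17,1)],[(0,3),(7,1),(16,1),(18,1),(22,1)]),
  ([(4,1),(9,1),(15,1),(17,1)],[(0,5),(2,1),(3,1),(5,2),(8,2),(22,2)])]

def r7 : List (Mo × Mo) := [([(1,2),(5,1),(8,1),(12,2)],[(0,3),(4,1),(7,2),(18,1)]),
  ([(0,6),(3,1),(7,1),(8,1),(18,1)],[(12,1),(15,1),(19,1),(22,1)]),
  ([(14,1),(15,1),(18,1)],[(0,1),(1,2),(5,1),(8,2),(12,1)]),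
  ([(1,1),(3,1),(9,1),(17,1),(18,1)],[(2,1),(5,1),(19,2),(22,3)]),
  ([(1,2),(4,1),(10,1),(12,1),(17,1)],[(0,1),(2,2),(3,1),(5,1),(14,1),(18,1),(22,2)]),
  ([(1,1),(14,1),(15,1),(17,1)],[(0,4),(5,1),(8,2),(12,1),(22,2)]),
  ([(1,2),(10,1),(17,1),(20,1)],[(0,1),(5,1),(19,1),(21,1),(22,5)]),
  ([(0,5),(7,1),(16,1),(19,1)],[(3,1),(12,1),(15,1),(17,1),(22,1)]),
  ([(10,1),(11,2),(16,1)],[(0,1),(1,1),(3,1),(4,1),(6,2),(18,1),(22,3)]),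
  ([(4,1),(7,1),(15,1),(17,1)],[(0,4),(2,1),(5,1),(8,2),(12,1)]),
  ([(1,1),(15,2),(17,1)],[(0,11),(8,2),(18,1)]),
  ([(1,1),(2,1),(12,1),(15,1),(17,1)],[(0,7),(7,1),(16,1),(18,1)]),
  ([(14,1),(15,1),(21,1)],[(0,2),(4,1),(7,1),(8,1),(20,1)]),
  ([(4,1),(7,2),(8,1),(10,1)],[(0,1),(3,1),(14,2),(18,1),(22,1)]),
  ([(2,1),(8,1),(10,1),(11,1),(13,1)],[(1,1),(3,2),(6,1),(14,1),(18,1),(22,3)]),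
  ([(0,7),(1,1),(4,1),(6,1),(7,1),(18,1)],[(2,1),(5,1),(11,1),(12,1),(15,1),(22,1)]),
  ([(0,7),(4,1),(7,2),(18,1)],[(1,1),(5,1),(12,2),(15,1),(22,1)]),
  ([(10,1),(11,1),(12,1),(16,1)],[(0,1),(2,2),(3,1),(6,1),(14,1),(18,1),(22,1)]),
  ([(15,1),(16,1),(20,1)],[(0,6),(2,1),(8,2),(21,1)]),
  ([(10,1),(11,1),(13,1),(16,1)],[(2,1),(3,2),(6,1),(14,1),(18,1),(22,3)])]

def r8 : List (Mo × Mo) := [([(1,1),(4,1),(13,2),(17,1)],[(3,1),(8,1),(10,1),(12,2),(22,1)]),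
  ([(0,9),(2,1),(8,2),(19,1)],[(3,1),(15,2),(17,1),(22,1)]),
  ([(1,1),(15,1),(16,1),(19,1)],[(0,6),(2,1),(3,1),(8,2),(18,1)]),
  ([(4,1),(9,1),(18,1),(20,1)],[(1,2),(3,1),(5,2),(8,1),(21,1),(22,2)]),
  ([(0,1),(14,1),(18,1),(20,1)],[(1,1),(5,1),(7,1),(8,1),(21,1),(22,1)]),
  ([(4,1),(7,1),(8,1),(10,1),(12,1)],[(0,1),(2,1),(3,1),(14,2),(18,1)]),
  ([(4,1),(5,1),(8,1),(13,2)],[(0,1),(3,2),(14,2),(18,1)]),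
  ([(9,2),(16,1),(18,1)],[(2,1),(3,1),(5,2),(8,1),(19,1),(22,5)]),
  ([(4,1),(7,1),(8,1),(10,1),(13,1)],[(3,2),(14,2),(18,1),(22,2)]),
  ([(0,1),(1,1),(3,2),(7,1),(17,1),(18,1)],[(2,1),(12,1),(19,2),(22,1)]),
  ([(10,1),(11,1),(12,1),(19,1)],[(1,1),(3,2),(5,1),(6,1),(7,1),(18,1),(22,2)]),
  ([(4,1),(11,1),(17,1),(19,1)],[(0,2),(2,1),(3,1),(5,1),(6,1),(8,1),(18,1)]),
  ([(16,1),(19,2)],[(0,1),(3,2),(8,1),(17,1),(18,1)]),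
  ([(2,1),(5,1),(8,1),(11,1),(21,1)],[(0,1),(4,1),(6,1),(18,1),(20,1)]),
  ([(2,1),(8,1),(10,1),(11,1),(17,1)],[(6,1),(9,1),(16,1),(18,1),(22,1)]),
  ([(2,2),(15,2),(17,1)],[(0,11),(8,1),(16,1),(18,1)]),
  ([(4,1),(11,1),(17,1),(20,1)],[(0,2),(1,1),(2,1),(5,1),(6,1),(8,1),(21,1)]),
  ([(16,1),(19,1),(20,1)],[(0,1),(1,1),(3,1),(8,1),(17,1),(21,1)]),
  ([(0,11),(4,1),(7,1),(8,1),(18,1)],[(2,1),(5,1),(12,1),(15,2),(22,1)]),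
  ([(1,1),(9,2),(17,1),(18,1)],[(0,1),(5,2),(19,2),(22,6)])]

def r9 : List (Mo × Mo) := [([(1,2),(5,1),(8,1),(12,1),(21,1)],[(0,1),(4,1),(7,1),(18,1),(20,1)]),
  ([(1,2),(2,1),(8,1),(17,1),(21,1)],[(0,1),(16,1),(18,1),(20,1),(22,1)]),
  ([(4,1),(8,1),(10,1),(12,1),(13,1)],[(2,1),(3,2),(14,2),(18,1),(22,1)]),
  ([(0,1),(2,2),(3,1),(14,2),(18,1)],[(4,1),(8,1),(10,1),(12,2),(22,1)]),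
  ([(4,1),(7,3),(16,1)],[(2,1),(8,1),(12,2),(14,1)]),
  ([(2,2),(4,1),(13,2),(17,1)],[(3,1),(10,1),(12,2),(16,1),(22,1)]),
  ([(7,1),(10,1),(16,1),(19,1)],[(3,2),(14,1),(17,1),(18,1),(22,2)]),
  ([(9,2),(18,1),(21,1)],[(1,1),(5,1),(10,1),(19,1),(20,1),(22,1)]),
  ([(3,1),(9,2),(18,2)],[(1,2),(5,1),(10,1),(19,2),(22,1)]),
  ([(2,1),(8,1),(10,1),(12,1),(19,1)],[(1,1),(3,2),(14,1),(17,1),(18,1),(22,1)]),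
  ([(7,1),(10,1),(16,1),(20,1)],[(1,1),(3,1),(14,1),(17,1),(21,1),(22,2)]),
  ([(1,1),(2,1),(15,1),(17,1),(21,1)],[(0,5),(16,1),(18,1),(20,1)]),
  ([(2,1),(8,1),(11,1),(12,1),(17,1)],[(0,3),(6,1),(7,1),(16,1),(18,1)]),
  ([(3,1),(6,1),(7,1),(15,1),(18,1)],[(0,2),(8,1),(11,1),(12,1),(19,1)]),
  ([(11,1),(12,1),(13,1),(19,1)],[(0,1),(1,1),(3,2),(6,1),(7,2),(18,1)]),
  ([(0,5),(1,1),(4,1),(6,1),(18,1),(20,1)],[(2,1),(5,1),(11,1),(15,1),(21,1),(22,1)]),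
  ([(0,5),(4,1),(7,1),(18,1),(20,1)],[(1,1),(5,1),(12,1),(15,1),(21,1),(22,1)]),
  ([(4,1),(10,1),(11,1),(12,1),(17,1)],[(0,1),(2,2),(3,1),(5,1),(6,1),(14,1),(18,1),(22,1)]),
  ([(1,1),(8,1),(12,1),(13,1),(17,1)],[(7,2),(16,1),(19,1),(22,1)]),
  ([(9,1),(15,2),(17,1)],[(0,10),(5,1),(8,2),(19,1),(22,2)])]

def r10 : List (Mo × Mo) := [([(0,3),(4,1),(6,1),(7,2),(18,1)],[(5,1),(8,1),(11,1),(12,2),(22,1)]),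
  ([(5,1),(8,1),(11,1),(12,1),(13,1)],[(1,1),(4,1),(6,1),(7,2),(19,1)]),
  ([(10,1),(12,1),(16,1),(19,1)],[(2,1),(3,2),(14,1),(17,1),(18,1),(22,1)]),
  ([(10,1),(11,1),(17,1),(20,1)],[(0,1),(5,1),(6,1),(19,1),(21,1),(22,4)]),
  ([(4,1),(15,1),(17,1),(20,1)],[(0,6),(2,1),(5,1),(8,2),(21,1)]),
  ([(9,2),(21,2)],[(3,1),(5,1),(10,1),(20,2),(22,1)]),
  ([(1,2),(8,1),(12,2),(17,1)],[(0,3),(7,2),(16,1),(18,1)]),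
  ([(1,1),(4,1),(15,1),(17,1),(19,1)],[(0,6),(2,1),(3,1),(5,1),(8,2),(18,1)]),
  ([(1,1),(4,1),(10,1),(12,1),(13,1),(16,1)],[(2,3),(3,2),(14,2),(18,1),(22,1)]),
  ([(0,2),(3,1),(7,2),(16,1),(18,1)],[(2,1),(8,1),(12,2),(19,1),(22,1)]),
  ([(0,7),(7,2),(16,1),(18,1)],[(1,1),(12,2),(15,1),(17,1),(22,1)]),
  ([(4,1),(6,1),(7,1),(15,1),(19,1)],[(0,3),(3,1),(5,1),(8,2),(11,1),(12,1)]),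
  ([(0,9),(4,1),(8,1),(18,1),(20,1)],[(2,1),(5,1),(15,2),(21,1),(22,1)]),
  ([(4,1),(18,1),(20,2)],[(0,1),(1,2),(5,1),(8,1),(21,2)]),
  ([(14,1),(15,2),(16,1)],[(0,8),(4,1),(8,3),(12,1),(22,1)]),
  ([(4,2),(7,3),(17,1)],[(2,1),(5,1),(8,1),(12,2),(14,1)]),
  ([(3,1),(7,1),(15,2),(17,1)],[(0,9),(8,2),(12,1),(19,1)]),
  ([(2,1),(10,1),(12,1),(19,2)],[(1,1),(3,2),(5,1),(13,1),(17,1),(18,1),(22,1)]),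
  ([(9,1),(16,1),(18,1),(20,1)],[(0,1),(2,1),(5,1),(8,1),(19,1),(21,1),(22,3)]),
  ([(0,6),(8,1),(11,1),(14,1),(21,1)],[(4,1),(6,1),(7,1),(15,1),(20,1),(22,1)])]

def r11 : List (Mo × Mo) := [([(14,1),(15,2),(17,1)],[(0,8),(5,1),(8,3),(12,1),(22,1)]),
  ([(2,1),(8,2),(10,1),(12,2)],[(0,1),(3,1),(7,1),(14,1),(16,1),(18,1),(22,1)]),
  ([(0,1),(4,1),(7,2),(16,1),(19,1)],[(2,1),(3,1),(5,1),(8,2),(12,2),(22,1)]),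
  ([(4,1),(7,2),(16,1),(20,1)],[(0,2),(2,1),(8,1),(12,1),(14,1),(21,1)]),
  ([(2,1),(8,1),(11,1),(17,1),(21,1)],[(0,1),(6,1),(16,1),(18,1),(20,1)]),
  ([(0,1),(4,1),(6,1),(7,1),(18,1),(20,1)],[(5,1),(8,1),(11,1),(12,1),(21,1),(22,1)]),
  ([(0,15),(8,3),(18,1)],[(15,3),(17,1),(22,1)]),
  ([(0,11),(7,1),(8,1),(16,1),(18,1)],[(2,1),(12,1),(15,2),(17,1),(22,1)]),
  ([(1,2),(8,1),(12,1),(17,1),(21,1)],[(0,1),(7,1),(16,1),(18,1),(20,1)]),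
  ([(1,1),(7,2),(8,1),(10,1),(21,1)],[(13,1),(14,1),(18,1),(20,1),(22,1)])]

/-- relations (pattern, replacement) -/
def rels : List (List (Mo × Mo)) := [r0, r1, r2, r3, r4, r5, r6, r7, r8, r9, r10, r11]

def u0 : Tree := .node 15 1 (.node 16 1 (.leaf [(3,5,[(3,1)]),(0,15,[(5,1)]),(5,11,[(9,1)]),(0,18,[(10,1)]),(1,1,[(6,1)]),(1,10,[(7,1)]),(1,18,[(11,1)]),(0,4,[(13,1)]),(7,5,[(14,1)]),(0,5,[(0,3),(8,1)]),(7,10,[(15,1)]),(8,2,[(19,1)]),(3,7,[(20,1)])] [(1,1),(2,1)]) (.node 4 1 (.leaf [(3,5,[(3,1)]),(5,11,[(9,1)]),(0,18,[(10,1)]),(1,1,[(6,1)]),(2,15,[(7,1)]),(1,18,[(11,1)]),(0,4,[(13,1)]),(7,5,[(14,1)]),(0,5,[(0,3),(8,1)]),(7,10,[(15,1)]),(10,7,[(19,1)]),(5,13,[(20,1)])] [(1,1),(2,1),(16,1)]) (.node 12 1 (.leaf [(3,5,[(3,1)]),(5,11,[(9,1)]),(0,18,[(10,1)]),(1,1,[(6,1)]),(1,18,[(11,1)]),(0,4,[(13,1)]),(7,5,[(14,1)]),(0,5,[(0,3),(8,1)]),(7,10,[(15,1)]),(2,5,[(19,1)]),(2,2,[(20,1)])]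 [(1,1),(2,1),(4,1),(16,1)]) (.leaf [(3,5,[(3,1)]),(5,11,[(9,1)]),(0,18,[(10,1)]),(1,1,[(6,1)]),(1,18,[(11,1)]),(0,4,[(13,1)]),(7,5,[(14,1)]),(0,5,[(0,3),(8,1)]),(7,10,[(15,1)])] [(1,1),(2,1),(16,1),(4,1),(12,1)])))) (.node 18 1 (.node 0 2 (.node 14 1 (.node 7 1 (.leaf [(2,13,[(0,1)]),(2,18,[(3,1)]),(2,15,[(4,1)]),(1,3,[(9,1)]),(0,0,[(10,1)]),(1,18,[(11,1)]),(1,8,[(12,1)]),(0,4,[(13,1)]),(1,10,[(16,1)]),(2,6,[(19,1)]),(8,4,[(20,1)]),(3,8,[(21,1)])] [(1,1),(2,1),(15,1)]) (.leaf [(2,13,[(0,1)]),(2,18,[(3,1)]),(1,3,[(9,1)]),(0,0,[(10,1)]),(1,18,[(11,1)]),(1,8,[(12,1)]),(0,4,[(13,1)]),(2,6,[(19,1)]),(8,4,[(20,1)]),(3,8,[(21,1)]),(0,15,[(5,1),(16,1)])] [(1,1),(2,1),(15,1),(7,1)])) (.node 3 1 (.node 7 1 (.node 8 1 (.leaf [(0,5,[(0,2)]),(8,9,[(3,1)]),(2,15,[(4,1)]),(1,3,[(9,1)]),(0,0,[(10,1)]),(5,15,[(6,1)]),(1,18,[(11,1)]),(6,7,[(12,1)]),(0,4,[(13,1)]),(1,10,[(16,1)]),(4,8,[(20,1)])]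 [(1,1),(2,1),(14,1),(15,1)]) (.leaf [(8,9,[(3,1)]),(2,15,[(4,1)]),(1,3,[(9,1)]),(0,0,[(10,1)]),(5,15,[(6,1)]),(1,18,[(11,1)]),(0,4,[(13,1)]),(1,10,[(16,1)]),(4,8,[(20,1)]),(2,5,[(12,1),(19,1)])] [(1,1),(2,1),(14,1),(15,1),(8,1)])) (.node 19 2 (.leaf [(5,5,[(4,1)]),(1,3,[(9,1)]),(0,0,[(10,1)]),(1,18,[(11,1)]),(2,5,[(12,1)]),(0,4,[(13,1)]),(0,5,[(0,2),(8,1)]),(8,12,[(16,1)]),(4,8,[(20,1)])] [(1,1),(2,1),(7,1),(14,1),(15,1)]) (.node 8 1 (.leaf [(0,5,[(0,2)]),(1,3,[(9,1)]),(0,0,[(10,1)]),(1,18,[(11,1)]),(6,7,[(12,1)]),(0,4,[(13,1)]),(4,8,[(20,1)]),(0,15,[(5,1),(16,1)])] [(1,1),(2,1),(7,1),(14,1),(15,1),(19,2)]) (.node 19 1 (.leaf [(1,3,[(9,1)]),(0,0,[(10,1)]),(1,18,[(11,1)]),(2,5,[(12,1)]),(0,4,[(13,1)]),(4,8,[(20,1)]),(0,15,[(5,1),(16,1)])]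 [(1,1),(2,1),(7,1),(8,1),(14,1),(15,1),(19,1)]) (.leaf [(1,3,[(9,1)]),(0,0,[(10,1)]),(1,18,[(11,1)]),(0,4,[(13,1)]),(4,8,[(20,1)]),(0,15,[(5,1),(16,1)])] [(1,1),(2,1),(14,1),(15,1),(7,1),(8,1),(19,1)]))))) (.node 16 1 (.node 19 1 (.leaf [(0,15,[(5,1)]),(1,3,[(9,1)]),(0,0,[(10,1)]),(1,10,[(7,1)]),(1,18,[(11,1)]),(2,5,[(12,1)]),(0,4,[(13,1)]),(0,5,[(0,2),(8,1)]),(8,12,[(19,1)]),(3,7,[(20,1)])] [(1,1),(3,1),(2,1),(14,1),(15,1)]) (.leaf [(0,15,[(5,1)]),(1,3,[(9,1)]),(0,0,[(10,1)]),(1,10,[(7,1)]),(1,18,[(11,1)]),(0,4,[(13,1)]),(0,5,[(0,2),(8,1)]),(3,7,[(20,1)])] [(1,1),(3,1),(2,1),(14,1),(15,1),(19,1)])) (.node 4 1 (.node 19 1 (.leaf [(1,3,[(9,1)]),(0,0,[(10,1)]),(2,15,[(7,1)]),(1,18,[(11,1)]),(2,5,[(12,1)]),(0,4,[(13,1)]),(0,5,[(0,2),(8,1)]),(5,5,[(19,1)]),(5,13,[(20,1)])]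 [(1,1),(3,1),(2,1),(14,1),(15,1),(16,1)]) (.leaf [(1,3,[(9,1)]),(0,0,[(10,1)]),(2,15,[(7,1)]),(1,18,[(11,1)]),(0,4,[(13,1)]),(0,5,[(0,2),(8,1)]),(5,13,[(20,1)])] [(1,1),(3,1),(2,1),(14,1),(15,1),(16,1),(19,1)])) (.node 12 1 (.leaf [(1,3,[(9,1)]),(0,0,[(10,1)]),(1,18,[(11,1)]),(0,4,[(13,1)]),(0,5,[(0,2),(8,1)]),(2,5,[(19,1)]),(2,2,[(20,1)])] [(1,1),(3,1),(2,1),(4,1),(14,1),(15,1),(16,1)]) (.leaf [(1,3,[(9,1)]),(0,0,[(10,1)]),(1,18,[(11,1)]),(0,4,[(13,1)]),(0,5,[(0,2),(8,1)])] [(1,1),(2,1),(15,1),(14,1),(3,1),(16,1),(4,1),(12,1)])))))) (.node 20 1 (.leaf [(4,8,[(3,1)]),(5,13,[(4,1)]),(1,3,[(9,1)]),(1,14,[(10,1)]),(1,18,[(11,1)]),(2,2,[(12,1)]),(0,4,[(13,1)]),(8,4,[(14,1)]),(3,7,[(16,1)])] [(0,1),(1,1),(2,1),(15,1)]) (.node 19 1 (.node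 7 1 (.leaf [(8,9,[(3,2)]),(2,15,[(4,1)]),(1,3,[(9,1)]),(1,19,[(10,1)]),(1,18,[(11,1)]),(2,5,[(12,1)]),(0,4,[(13,1)]),(2,6,[(14,1)]),(1,10,[(16,1)])] [(0,1),(1,1),(2,1),(15,1),(20,1)]) (.node 16 1 (.leaf [(0,15,[(5,1)]),(1,3,[(9,1)]),(1,19,[(10,1)]),(1,18,[(11,1)]),(2,5,[(12,1)]),(0,4,[(13,1)]),(2,6,[(14,1)]),(8,12,[(19,1)])] [(0,1),(1,1),(2,1),(7,1),(15,1),(20,1)]) (.leaf [(1,3,[(9,1)]),(1,19,[(10,1)]),(1,18,[(11,1)]),(2,5,[(12,1)]),(0,4,[(13,1)]),(2,6,[(14,1)]),(5,5,[(4,1),(19,1)])] [(0,1),(1,1),(2,1),(15,1),(20,1),(7,1),(16,1)]))) (.node 7 1 (.node 3 1 (.node 12 1 (.leaf [(8,9,[(3,1)]),(2,15,[(4,1)]),(1,3,[(9,1)]),(0,9,[(10,1)]),(1,18,[(11,1)]),(6,7,[(8,1)]),(0,4,[(13,1)]),(1,8,[(14,1)]),(1,10,[(16,1)])] [(0,1),(1,1),(2,1),(15,1),(19,1),(20,1)])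 (.leaf [(8,9,[(3,1)]),(2,15,[(4,1)]),(1,3,[(9,1)]),(0,9,[(10,1)]),(1,18,[(11,1)]),(0,4,[(13,1)]),(1,10,[(16,1)])] [(0,1),(1,1),(2,1),(15,1),(19,1),(20,1),(12,1)])) (.leaf [(2,15,[(4,1)]),(1,3,[(9,1)]),(0,9,[(10,1)]),(1,18,[(11,1)]),(0,4,[(13,1)]),(1,10,[(16,1)]),(1,8,[(12,1),(14,1)])] [(0,1),(1,1),(2,1),(15,1),(19,1),(20,1),(3,1)])) (.node 12 1 (.leaf [(1,3,[(9,1)]),(0,16,[(10,1)]),(1,18,[(11,1)]),(0,4,[(13,1)]),(1,8,[(14,1)]),(6,7,[(3,1),(8,1)]),(0,15,[(5,1),(16,1)])] [(0,1),(1,1),(2,1),(7,1),(15,1),(19,1),(20,1)]) (.leaf [(1,3,[(9,1)]),(1,18,[(11,1)]),(0,4,[(13,1)]),(0,15,[(5,1),(16,1)])] [(1,1),(2,1),(15,1),(0,1),(20,1),(19,1),(7,1),(12,1)])))))) (.node 12 1 (.node 7 1 (.node 8 1 (.leaf [(0,5,[(0,3)]),(6,7,[(3,1)]),(2,15,[(4,1)]),(0,12,[(9,1)]),(0,16,[(10,1)]),(1,18,[(11,1)]),(0,4,[(13,1)]),(1,8,[(14,1)]),(1,10,[(16,1)]),(2,5,[(19,1)]),(2,2,[(20,1)])]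 [(1,1),(2,1),(15,1),(18,1)]) (.leaf [(2,15,[(4,1)]),(0,12,[(9,1)]),(0,16,[(10,1)]),(1,18,[(11,1)]),(0,4,[(13,1)]),(1,8,[(14,1)]),(1,10,[(16,1)]),(2,5,[(19,1)]),(2,2,[(20,1)])] [(1,1),(2,1),(15,1),(18,1),(8,1)])) (.node 8 1 (.leaf [(0,5,[(0,3)]),(6,7,[(3,1)]),(0,12,[(9,1)]),(0,16,[(10,1)]),(1,18,[(11,1)]),(0,4,[(13,1)]),(1,8,[(14,1)]),(2,5,[(19,1)]),(2,2,[(20,1)]),(0,15,[(5,1),(16,1)])] [(1,1),(2,1),(7,1),(15,1),(18,1)]) (.leaf [(0,12,[(9,1)]),(0,16,[(10,1)]),(1,18,[(11,1)]),(0,4,[(13,1)]),(1,8,[(14,1)]),(2,5,[(19,1)]),(2,2,[(20,1)]),(0,15,[(5,1),(16,1)])] [(1,1),(2,1),(15,1),(18,1),(7,1),(8,1)]))) (.node 16 1 (.node 0 2 (.node 14 1 (.leaf [(0,15,[(5,1)]),(1,2,[(9,1)]),(0,0,[(10,1)]),(1,10,[(7,1)]),(1,18,[(11,1)]),(0,4,[(13,1)]),(0,5,[(0,2),(8,1)]),(2,6,[(19,1)]),(3,7,[(20,1)]),(3,8,[(21,1)])]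 [(1,1),(2,1),(12,1),(15,1),(18,1)]) (.leaf [(0,15,[(5,1)]),(1,2,[(9,1)]),(0,0,[(10,1)]),(1,10,[(7,1)]),(1,18,[(11,1)]),(0,4,[(13,1)]),(0,5,[(0,2),(8,1)]),(3,7,[(20,1)]),(8,12,[(19,2)])] [(1,1),(2,1),(12,1),(15,1),(18,1),(14,1)])) (.node 19 1 (.leaf [(0,15,[(5,1)]),(1,2,[(9,1)]),(1,19,[(10,1)]),(1,10,[(7,1)]),(1,18,[(11,1)]),(0,4,[(13,1)]),(2,6,[(14,1)]),(8,12,[(19,1)]),(3,7,[(20,1)])] [(0,1),(1,1),(2,1),(12,1),(15,1),(18,1)]) (.leaf [(0,15,[(5,1)]),(1,2,[(9,1)]),(1,10,[(7,1)]),(1,18,[(11,1)]),(0,4,[(13,1)]),(3,7,[(20,1)])] [(1,1),(2,1),(12,1),(15,1),(18,1),(0,1),(19,1)]))) (.node 4 1 (.node 0 2 (.node 14 1 (.leaf [(2,8,[(9,1)]),(0,0,[(10,1)]),(2,15,[(7,1)]),(1,18,[(11,1)]),(0,4,[(13,1)]),(0,5,[(0,2),(8,1)]),(2,6,[(19,1)]),(5,13,[(20,1)]),(3,8,[(21,1)])]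 [(1,1),(2,1),(12,1),(15,1),(16,1),(18,1)]) (.leaf [(2,8,[(9,1)]),(0,0,[(10,1)]),(2,15,[(7,1)]),(1,18,[(11,1)]),(0,4,[(13,1)]),(0,5,[(0,2),(8,1)]),(5,13,[(20,1)]),(5,5,[(19,2)])] [(1,1),(2,1),(12,1),(15,1),(16,1),(18,1),(14,1)])) (.node 19 1 (.leaf [(2,8,[(9,1)]),(1,19,[(10,1)]),(2,15,[(7,1)]),(1,18,[(11,1)]),(0,4,[(13,1)]),(2,6,[(14,1)]),(5,5,[(19,1)]),(5,13,[(20,1)])] [(0,1),(1,1),(2,1),(12,1),(15,1),(16,1),(18,1)]) (.leaf [(2,8,[(9,1)]),(2,15,[(7,1)]),(1,18,[(11,1)]),(0,4,[(13,1)]),(5,13,[(20,1)])] [(1,1),(2,1),(12,1),(15,1),(16,1),(18,1),(0,1),(19,1)]))) (.node 10 1 (.leaf [(0,0,[(0,1)]),(0,9,[(7,1)]),(1,18,[(11,1)]),(0,4,[(13,1)]),(1,19,[(19,1)]),(1,14,[(20,1)]),(1,15,[(9,1),(21,1)])] [(1,1),(2,1),(4,1),(12,1),(15,1),(16,1),(18,1)])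 (.node 0 4 (.node 14 1 (.leaf [(1,18,[(11,1)]),(0,5,[(8,1)]),(0,4,[(13,1)]),(2,6,[(19,1)]),(3,8,[(21,1)])] [(1,1),(2,1),(4,1),(10,1),(12,1),(15,1),(16,1),(18,1)]) (.leaf [(1,18,[(11,1)]),(0,5,[(8,1)]),(0,4,[(13,1)]),(1,15,[(9,1),(21,1)])] [(1,1),(2,1),(4,1),(10,1),(12,1),(15,1),(16,1),(18,1),(14,1)])) (.node 0 2 (.node 14 1 (.leaf [(1,18,[(11,1)]),(0,4,[(13,1)]),(2,6,[(19,1)]),(3,8,[(21,1)])] [(1,1),(0,2),(2,1),(4,1),(10,1),(12,1),(15,1),(16,1),(18,1)]) (.leaf [(1,18,[(11,1)]),(0,4,[(13,1)]),(1,15,[(9,1),(21,1)])] [(1,1),(0,2),(2,1),(4,1),(10,1),(12,1),(15,1),(16,1),(18,1),(14,1)])) (.leaf [(1,18,[(11,1)]),(0,4,[(13,1)]),(1,15,[(9,1),(21,1)]),(2,6,[(14,1),(19,1)])] [(1,1),(2,1),(15,1),(18,1),(12,1),(16,1),(4,1),(10,1),(0,1)]))))))))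

def u1 : Tree := .node 18 1 (.node 0 5 (.node 7 1 (.node 6 1 (.leaf [(0,2,[(1,1)]),(7,15,[(0,2)]),(5,15,[(3,1)]),(1,3,[(9,1)]),(0,0,[(10,1)]),(10,0,[(7,1)]),(0,5,[(8,1)]),(0,4,[(13,1)]),(2,13,[(14,1)]),(1,1,[(15,1)]),(1,10,[(16,1)]),(3,17,[(19,1)]),(9,16,[(20,1)])] [(2,1),(17,1)]) (.leaf [(1,3,[(9,1)]),(0,0,[(10,1)]),(0,5,[(8,1)]),(7,16,[(0,2),(7,1)]),(0,4,[(13,1)]),(2,13,[(14,1)]),(1,10,[(16,1)]),(3,17,[(19,1)]),(9,16,[(20,1)])] [(2,1),(17,1),(6,1)])) (.node 20 1 (.leaf [(4,8,[(3,1)]),(1,3,[(9,1)]),(0,0,[(10,1)]),(9,15,[(6,1)]),(0,5,[(8,1)]),(2,2,[(12,1)]),(0,4,[(13,1)]),(2,13,[(14,1)]),(3,7,[(16,1)]),(5,14,[(19,1)]),(10,13,[(20,1)])] [(2,1),(7,1),(17,1)]) (.node 16 1 (.node 19 1 (.leaf [(0,10,[(1,1)]),(0,15,[(5,1)]),(1,3,[(9,1)]),(0,0,[(10,1)]),(6,8,[(11,1)]),(0,5,[(8,1)]),(2,5,[(12,1)]),(0,4,[(13,1)]),(2,13,[(14,1)]),(8,2,[(15,1)]),(5,5,[(19,1)])]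 [(2,1),(7,1),(17,1),(20,1)]) (.leaf [(0,10,[(1,1)]),(0,15,[(5,1)]),(1,3,[(9,1)]),(0,0,[(10,1)]),(0,5,[(8,1)]),(0,4,[(13,1)]),(2,13,[(14,1)]),(1,1,[(6,1),(15,1)])] [(2,1),(7,1),(17,1),(20,1),(19,1)])) (.node 6 1 (.node 19 1 (.leaf [(0,2,[(1,1)]),(1,3,[(9,1)]),(0,0,[(10,1)]),(0,5,[(8,1)]),(2,5,[(12,1)]),(0,4,[(13,1)]),(2,13,[(14,1)]),(1,1,[(15,1)]),(5,5,[(19,1)])] [(2,1),(7,1),(16,1),(17,1),(20,1)]) (.leaf [(0,2,[(1,1)]),(1,3,[(9,1)]),(0,0,[(10,1)]),(0,5,[(8,1)]),(0,4,[(13,1)]),(2,13,[(14,1)]),(1,1,[(15,1)])] [(2,1),(7,1),(16,1),(17,1),(20,1),(19,1)])) (.node 19 1 (.leaf [(1,3,[(9,1)]),(0,0,[(10,1)]),(0,5,[(8,1)]),(2,5,[(12,1)]),(0,4,[(13,1)]),(2,13,[(14,1)]),(5,5,[(19,1)])] [(2,1),(6,1),(7,1),(16,1),(17,1),(20,1)]) (.leaf [(1,3,[(9,1)]),(0,0,[(10,1)]),(0,5,[(8,1)]),(0,4,[(13,1)]),(2,13,[(14,1)])]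 [(2,1),(17,1),(7,1),(20,1),(16,1),(6,1),(19,1)])))))) (.node 14 1 (.node 16 1 (.leaf [(2,13,[(0,1)]),(2,7,[(1,1)]),(2,18,[(3,1)]),(0,15,[(5,1)]),(1,3,[(9,1)]),(0,0,[(10,1)]),(1,10,[(7,1)]),(5,2,[(11,1)]),(1,8,[(12,1)]),(0,4,[(13,1)]),(7,2,[(15,1)]),(2,6,[(19,1)]),(8,4,[(20,1)]),(3,8,[(21,1)])] [(2,1),(17,1)]) (.leaf [(2,13,[(0,1)]),(2,18,[(3,1)]),(1,3,[(9,1)]),(0,0,[(10,1)]),(0,2,[(1,1),(6,1)]),(1,8,[(12,1)]),(0,4,[(13,1)]),(7,2,[(15,1)]),(2,6,[(19,1)]),(8,4,[(20,1)]),(3,8,[(21,1)])] [(2,1),(17,1),(16,1)])) (.node 16 1 (.node 19 1 (.node 0 4 (.leaf [(3,12,[(1,1)]),(0,15,[(5,1)]),(1,3,[(9,1)]),(0,0,[(10,1)]),(1,10,[(7,1)]),(6,8,[(11,1)]),(0,5,[(8,1)]),(2,5,[(12,1)]),(0,4,[(13,1)]),(8,2,[(15,1)]),(5,5,[(19,1)]),(3,7,[(20,1)])] [(0,1),(2,1),(14,1),(17,1)])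 (.leaf [(3,12,[(1,1)]),(0,15,[(5,1)]),(1,3,[(9,1)]),(0,0,[(10,1)]),(1,10,[(7,1)]),(6,8,[(11,1)]),(2,5,[(12,1)]),(0,4,[(13,1)]),(8,2,[(15,1)]),(5,5,[(19,1)]),(3,7,[(20,1)])] [(2,1),(14,1),(17,1),(0,2)])) (.node 0 4 (.leaf [(0,10,[(1,1)]),(0,15,[(5,1)]),(1,3,[(9,1)]),(0,0,[(10,1)]),(1,10,[(7,1)]),(0,5,[(8,1)]),(0,4,[(13,1)]),(3,7,[(20,1)]),(1,1,[(6,1),(15,1)])] [(0,1),(2,1),(14,1),(17,1),(19,1)]) (.node 6 1 (.leaf [(0,2,[(1,1)]),(0,15,[(5,1)]),(1,3,[(9,1)]),(0,0,[(10,1)]),(1,10,[(7,1)]),(0,4,[(13,1)]),(1,1,[(15,1)]),(3,7,[(20,1)])] [(0,2),(2,1),(14,1),(17,1),(19,1)]) (.leaf [(0,15,[(5,1)]),(1,3,[(9,1)]),(0,0,[(10,1)]),(1,10,[(7,1)]),(0,4,[(13,1)]),(3,7,[(20,1)])] [(2,1),(14,1),(17,1),(19,1),(0,2),(6,1)])))) (.node 6 1 (.node 20 1 (.node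 0 4 (.leaf [(0,2,[(1,1)]),(4,8,[(3,1)]),(1,3,[(9,1)]),(0,0,[(10,1)]),(6,16,[(7,1)]),(0,5,[(8,1)]),(2,2,[(12,1)]),(0,4,[(13,1)]),(1,1,[(15,1)]),(5,14,[(19,1)]),(10,13,[(20,1)])] [(0,1),(2,1),(14,1),(16,1),(17,1)]) (.leaf [(0,2,[(1,1)]),(4,8,[(3,1)]),(1,3,[(9,1)]),(0,0,[(10,1)]),(6,16,[(7,1)]),(2,2,[(12,1)]),(0,4,[(13,1)]),(1,1,[(15,1)]),(5,14,[(19,1)]),(10,13,[(20,1)])] [(2,1),(14,1),(16,1),(17,1),(0,2)])) (.node 0 4 (.node 7 1 (.leaf [(0,2,[(1,1)]),(5,15,[(3,1)]),(1,3,[(9,1)]),(0,0,[(10,1)]),(10,0,[(7,1)]),(0,5,[(8,1)]),(0,4,[(13,1)]),(1,1,[(15,1)]),(6,13,[(19,1)])] [(0,1),(2,1),(14,1),(16,1),(17,1),(20,1)]) (.node 19 1 (.leaf [(0,2,[(1,1)]),(1,3,[(9,1)]),(0,0,[(10,1)]),(0,5,[(8,1)]),(2,5,[(12,1)]),(0,4,[(13,1)]),(1,1,[(15,1)]),(5,5,[(19,1)])]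 [(0,1),(2,1),(7,1),(14,1),(16,1),(17,1),(20,1)]) (.leaf [(0,2,[(1,1)]),(1,3,[(9,1)]),(0,0,[(10,1)]),(0,5,[(8,1)]),(0,4,[(13,1)]),(1,1,[(15,1)])] [(0,1),(2,1),(14,1),(16,1),(17,1),(20,1),(7,1),(19,1)]))) (.node 7 1 (.node 0 3 (.leaf [(0,2,[(1,1)]),(5,15,[(3,1)]),(1,3,[(9,1)]),(0,0,[(10,1)]),(10,0,[(7,1)]),(0,4,[(13,1)]),(1,1,[(15,1)]),(6,13,[(19,1)])] [(0,1),(2,1),(14,1),(16,1),(17,1),(20,1)]) (.leaf [(0,2,[(1,1)]),(5,15,[(3,1)]),(1,3,[(9,1)]),(0,0,[(10,1)]),(0,4,[(13,1)]),(1,1,[(15,1)]),(6,13,[(19,1)])] [(2,1),(14,1),(16,1),(17,1),(20,1),(0,1)])) (.node 12 1 (.leaf [(0,2,[(1,1)]),(1,3,[(9,1)]),(0,0,[(10,1)]),(0,4,[(13,1)]),(1,1,[(15,1)]),(2,5,[(19,1)]),(3,0,[(3,1),(5,1),(8,1)])] [(0,2),(2,1),(7,1),(14,1),(16,1),(17,1),(20,1)]) (.leaf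 [(0,2,[(1,1)]),(1,3,[(9,1)]),(0,0,[(10,1)]),(0,4,[(13,1)]),(1,1,[(15,1)]),(5,5,[(19,2)])] [(2,1),(14,1),(16,1),(17,1),(20,1),(0,2),(7,1),(12,1)]))))) (.node 12 1 (.node 8 1 (.node 5 1 (.node 1 2 (.leaf [(0,5,[(0,2)]),(3,0,[(3,1)]),(1,3,[(9,1)]),(0,0,[(10,1)]),(7,0,[(12,1)]),(0,4,[(13,1)]),(2,5,[(19,1)]),(2,2,[(20,1)]),(9,0,[(21,1)])] [(2,1),(6,1),(14,1),(16,1),(17,1)]) (.leaf [(0,5,[(0,2)]),(3,0,[(3,1)]),(1,3,[(9,1)]),(0,0,[(10,1)]),(0,4,[(13,1)]),(2,5,[(19,1)]),(2,2,[(20,1)])] [(2,1),(6,1),(14,1),(16,1),(17,1),(1,1)])) (.leaf [(0,5,[(0,2)]),(1,3,[(9,1)]),(0,0,[(10,1)]),(0,4,[(13,1)]),(2,5,[(19,1)]),(2,2,[(20,1)])] [(2,1),(6,1),(14,1),(16,1),(17,1),(5,1)])) (.leaf [(1,3,[(9,1)]),(0,0,[(10,1)]),(0,4,[(13,1)]),(2,5,[(19,1)]),(2,2,[(20,1)])]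 [(0,3),(2,1),(6,1),(14,1),(16,1),(17,1),(8,1)])) (.node 20 1 (.node 0 4 (.leaf [(4,8,[(3,1)]),(1,3,[(9,1)]),(0,0,[(10,1)]),(0,5,[(8,1)]),(0,4,[(13,1)]),(5,14,[(19,1)]),(10,13,[(20,1)])] [(0,1),(2,1),(6,1),(12,1),(14,1),(16,1),(17,1)]) (.leaf [(4,8,[(3,1)]),(1,3,[(9,1)]),(0,0,[(10,1)]),(0,4,[(13,1)]),(5,14,[(19,1)]),(10,13,[(20,1)])] [(2,1),(6,1),(12,1),(14,1),(16,1),(17,1),(0,2)])) (.node 0 4 (.leaf [(1,3,[(9,1)]),(0,0,[(10,1)]),(0,5,[(8,1)]),(0,4,[(13,1)]),(5,5,[(19,2)])] [(0,1),(2,1),(6,1),(12,1),(14,1),(16,1),(17,1),(20,1)]) (.leaf [(1,3,[(9,1)]),(0,0,[(10,1)]),(0,4,[(13,1)]),(5,5,[(19,2)])] [(2,1),(17,1),(14,1),(16,1),(6,1),(12,1),(20,1),(0,2)])))))))) (.node 16 1 (.node 14 1 (.leaf [(2,7,[(1,1)]),(0,15,[(5,1)]),(1,2,[(9,1)]),(0,0,[(10,1)]),(1,10,[(7,1)]),(5,2,[(11,1)]),(1,8,[(12,1)]),(0,4,[(13,1)]),(0,5,[(0,2),(8,1)]),(6,17,[(15,1)]),(2,6,[(19,1)]),(3,7,[(20,1)]),(3,8,[(21,1)])]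 [(2,1),(17,1),(18,1)]) (.node 19 1 (.leaf [(3,12,[(1,1)]),(0,15,[(5,1)]),(1,2,[(9,1)]),(0,0,[(10,1)]),(1,10,[(7,1)]),(6,8,[(11,1)]),(2,5,[(12,1)]),(0,4,[(13,1)]),(0,5,[(0,2),(8,1)]),(8,2,[(15,1)]),(5,5,[(19,1)]),(3,7,[(20,1)])] [(2,1),(14,1),(17,1),(18,1)]) (.node 0 4 (.leaf [(0,10,[(1,1)]),(0,15,[(5,1)]),(1,2,[(9,1)]),(0,0,[(10,1)]),(1,10,[(7,1)]),(0,5,[(8,1)]),(0,4,[(13,1)]),(3,7,[(20,1)]),(1,1,[(6,1),(15,1)])] [(2,1),(14,1),(17,1),(18,1),(19,1)]) (.node 6 1 (.leaf [(0,2,[(1,1)]),(0,15,[(5,1)]),(1,2,[(9,1)]),(0,0,[(10,1)]),(1,10,[(7,1)]),(0,4,[(13,1)]),(1,1,[(15,1)]),(3,7,[(20,1)])] [(0,2),(2,1),(14,1),(17,1),(18,1),(19,1)]) (.leaf [(0,15,[(5,1)]),(1,2,[(9,1)]),(0,0,[(10,1)]),(1,10,[(7,1)]),(0,4,[(13,1)]),(3,7,[(20,1)])] [(2,1),(17,1),(18,1),(14,1),(19,1),(0,2),(6,1)])))))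 (.node 12 1 (.node 8 1 (.node 1 2 (.node 5 1 (.leaf [(0,5,[(0,2)]),(3,0,[(3,1)]),(0,12,[(9,1)]),(0,0,[(10,1)]),(0,2,[(6,1)]),(7,0,[(12,1)]),(0,4,[(13,1)]),(1,8,[(14,1)]),(2,5,[(19,1)]),(2,2,[(20,1)]),(9,0,[(21,1)])] [(2,1),(16,1),(17,1),(18,1)]) (.leaf [(0,5,[(0,2)]),(0,12,[(9,1)]),(0,0,[(10,1)]),(0,2,[(6,1)]),(0,4,[(13,1)]),(1,8,[(14,1)]),(2,5,[(19,1)]),(2,2,[(20,1)])] [(2,1),(16,1),(17,1),(18,1),(5,1)])) (.leaf [(0,5,[(0,2)]),(0,12,[(9,1)]),(3,0,[(3,1),(5,1)]),(0,0,[(10,1)]),(0,4,[(13,1)]),(1,8,[(14,1)]),(2,5,[(19,1)]),(2,2,[(20,1)]),(1,1,[(6,1),(15,1)])] [(2,1),(16,1),(17,1),(18,1),(1,1)])) (.node 6 1 (.leaf [(0,2,[(1,1)]),(0,12,[(9,1)]),(0,0,[(10,1)]),(0,4,[(13,1)]),(1,8,[(14,1)]),(1,1,[(15,1)]),(2,5,[(19,1)]),(2,2,[(20,1)])]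 [(2,1),(8,1),(16,1),(17,1),(18,1)]) (.leaf [(0,12,[(9,1)]),(0,0,[(10,1)]),(0,4,[(13,1)]),(1,8,[(14,1)]),(2,5,[(19,1)]),(2,2,[(20,1)])] [(2,1),(16,1),(17,1),(18,1),(8,1),(6,1)]))) (.node 19 1 (.node 6 1 (.leaf [(0,2,[(1,1)]),(2,10,[(9,1)]),(0,0,[(10,1)]),(6,13,[(7,1)]),(0,4,[(13,1)]),(0,5,[(0,2),(8,1)]),(2,6,[(14,1)]),(1,1,[(15,1)]),(5,5,[(19,1)]),(5,14,[(20,1)])] [(2,1),(12,1),(16,1),(17,1),(18,1)]) (.node 0 5 (.leaf [(2,10,[(9,1)]),(0,0,[(10,1)]),(3,17,[(7,1)]),(0,5,[(8,1)]),(0,4,[(13,1)]),(2,6,[(14,1)]),(5,5,[(19,1)]),(5,14,[(20,1)])] [(2,1),(6,1),(12,1),(16,1),(17,1),(18,1)]) (.node 0 4 (.leaf [(2,10,[(9,1)]),(0,0,[(10,1)]),(0,5,[(8,1)]),(0,4,[(13,1)]),(2,6,[(14,1)]),(5,5,[(19,1)]),(5,14,[(20,1)])] [(0,1),(2,1),(6,1),(12,1),(16,1),(17,1),(18,1)])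 (.leaf [(2,10,[(9,1)]),(0,0,[(10,1)]),(0,4,[(13,1)]),(2,6,[(14,1)]),(5,5,[(19,1)]),(5,14,[(20,1)])] [(2,1),(12,1),(16,1),(17,1),(18,1),(6,1),(0,2)])))) (.node 6 1 (.node 7 1 (.leaf [(0,2,[(1,1)]),(0,19,[(9,1)]),(0,0,[(10,1)]),(0,4,[(13,1)]),(0,5,[(0,2),(8,1)]),(1,1,[(15,1)]),(6,16,[(20,1)]),(3,8,[(14,1),(21,1)])] [(2,1),(12,1),(16,1),(17,1),(18,1),(19,1)]) (.node 21 1 (.leaf [(0,2,[(1,1)]),(1,15,[(9,1)]),(0,0,[(10,1)]),(0,4,[(13,1)]),(0,5,[(0,2),(8,1)]),(3,8,[(14,1)]),(1,1,[(15,1)])] [(2,1),(7,1),(12,1),(16,1),(17,1),(18,1),(19,1)]) (.leaf [(0,2,[(1,1)]),(0,0,[(10,1)]),(0,4,[(13,1)]),(0,5,[(0,2),(8,1)]),(1,1,[(15,1)])] [(2,1),(12,1),(16,1),(17,1),(18,1),(19,1),(7,1),(21,1)]))) (.node 9 1 (.leaf [(0,0,[(10,1)]),(0,19,[(7,1)]),(0,4,[(13,1)]),(0,5,[(0,2),(8,1)]),(1,15,[(21,1)])]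 [(2,1),(6,1),(12,1),(16,1),(17,1),(18,1),(19,1)]) (.leaf [(0,0,[(10,1)]),(0,4,[(13,1)]),(0,5,[(0,2),(8,1)]),(3,8,[(14,1),(21,1)])] [(2,1),(17,1),(18,1),(16,1),(12,1),(19,1),(6,1),(9,1)]))))))

def u2 : Tree := .node 5 1 (.node 2 1 (.node 8 1 (.node 1 2 (.leaf [(0,17,[(3,1)]),(0,6,[(2,1)]),(0,2,[(6,1)]),(0,3,[(7,1)]),(3,10,[(12,1)]),(3,2,[(13,1)]),(0,7,[(14,1)]),(0,15,[(16,1)]),(0,14,[(19,1)]),(0,11,[(20,1)]),(5,18,[(21,1)])] [(0,2),(9,1),(10,1),(17,1)]) (.node 15 1 (.leaf [(0,17,[(3,1)]),(0,6,[(2,1)]),(1,1,[(6,1)]),(0,3,[(7,1)]),(4,7,[(12,1)]),(3,2,[(13,1)]),(0,7,[(14,1)]),(0,15,[(16,1)]),(0,14,[(19,1)]),(0,11,[(20,1)]),(6,5,[(21,1)])] [(1,1),(0,2),(9,1),(10,1),(17,1)]) (.node 11 1 (.leaf [(0,17,[(3,1)]),(0,6,[(2,1)]),(0,3,[(7,1)]),(6,6,[(12,1)]),(3,2,[(13,1)]),(0,7,[(14,1)]),(0,15,[(16,1)]),(0,14,[(19,1)]),(0,11,[(20,1)]),(8,13,[(21,1)])]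 [(1,1),(0,2),(9,1),(10,1),(15,1),(17,1)]) (.leaf [(0,17,[(3,1)]),(0,6,[(2,1)]),(0,3,[(7,1)]),(3,2,[(13,1)]),(0,7,[(14,1)]),(0,15,[(16,1)]),(0,14,[(19,1)]),(0,11,[(20,1)])] [(0,2),(9,1),(10,1),(17,1),(1,1),(15,1),(11,1)])))) (.node 15 1 (.leaf [(1,4,[(3,1)]),(1,9,[(2,1)]),(1,1,[(6,1)]),(0,3,[(7,1)]),(4,7,[(12,1)]),(1,12,[(13,1)]),(0,7,[(14,1)]),(0,15,[(16,1)]),(0,14,[(19,1)]),(0,11,[(20,1)]),(6,5,[(21,1)])] [(0,2),(9,1),(10,1),(8,1),(17,1)]) (.node 0 1 (.leaf [(0,3,[(7,1)]),(0,2,[(1,1),(6,1)]),(0,4,[(13,1)]),(0,7,[(14,1)]),(0,15,[(16,1)]),(0,14,[(19,1)]),(0,11,[(20,1)])] [(0,1),(9,1),(10,1),(8,1),(15,1),(17,1)]) (.leaf [(0,3,[(7,1)]),(0,2,[(1,1),(6,1)]),(0,7,[(14,1)]),(0,15,[(16,1)]),(0,14,[(19,1)]),(0,11,[(20,1)]),(3,19,[(2,1),(13,2)])]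 [(9,1),(10,1),(17,1),(8,1),(15,1),(0,1)])))) (.node 4 1 (.node 12 1 (.node 8 1 (.node 1 2 (.leaf [(3,0,[(3,1)]),(0,2,[(6,1)]),(7,0,[(12,1)]),(6,11,[(13,1)]),(1,8,[(14,1)]),(0,15,[(16,1)]),(2,5,[(19,1)]),(2,2,[(20,1)]),(9,0,[(21,1)])] [(0,2),(2,1),(9,1),(10,1),(17,1)]) (.leaf [(3,0,[(3,1)]),(6,11,[(13,1)]),(1,8,[(14,1)]),(0,15,[(16,1)]),(2,5,[(19,1)]),(2,2,[(20,1)]),(1,1,[(6,1),(15,1)])] [(0,2),(2,1),(9,1),(10,1),(17,1),(1,1)])) (.node 0 1 (.node 6 1 (.leaf [(0,2,[(1,1)]),(0,4,[(13,1)]),(1,8,[(14,1)]),(1,1,[(15,1)]),(0,15,[(16,1)]),(2,5,[(19,1)]),(2,2,[(20,1)])] [(0,1),(2,1),(9,1),(10,1),(8,1),(17,1)]) (.leaf [(0,4,[(13,1)]),(1,8,[(14,1)]),(0,15,[(16,1)]),(2,5,[(19,1)]),(2,2,[(20,1)])] [(0,1),(2,1),(9,1),(10,1),(8,1),(17,1),(6,1)]))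 (.node 6 1 (.leaf [(0,2,[(1,1)]),(1,8,[(14,1)]),(1,1,[(15,1)]),(0,15,[(16,1)]),(2,5,[(19,1)]),(2,2,[(20,1)])] [(0,1),(2,1),(9,1),(10,1),(8,1),(17,1)]) (.leaf [(1,8,[(14,1)]),(0,15,[(16,1)]),(2,5,[(19,1)]),(2,2,[(20,1)]),(1,12,[(13,1),(15,1)])] [(2,1),(9,1),(10,1),(17,1),(8,1),(0,1),(6,1)])))) (.node 20 1 (.node 18 1 (.node 6 1 (.node 0 1 (.leaf [(0,2,[(1,1)]),(4,8,[(3,1)]),(6,16,[(7,1)]),(3,18,[(13,1)]),(8,4,[(14,1)]),(1,1,[(15,1)]),(0,15,[(16,1)]),(5,14,[(19,1)]),(10,13,[(20,1)])] [(0,1),(2,1),(9,1),(10,1),(12,1),(17,1)]) (.leaf [(0,2,[(1,1)]),(4,8,[(3,1)]),(6,16,[(7,1)]),(3,18,[(13,1)]),(1,1,[(15,1)]),(0,15,[(16,1)]),(5,14,[(19,1)]),(10,13,[(20,1)])] [(2,1),(9,1),(10,1),(12,1),(17,1),(0,1)])) (.node 0 1 (.leaf [(4,8,[(3,1)]),(3,18,[(13,1)]),(8,4,[(14,1)]),(0,15,[(16,1)]),(5,14,[(19,1)]),(10,13,[(20,1)])]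 [(0,1),(2,1),(9,1),(10,1),(6,1),(12,1),(17,1)]) (.leaf [(4,8,[(3,1)]),(3,18,[(13,1)]),(0,15,[(16,1)]),(5,14,[(19,1)]),(10,13,[(20,1)]),(7,2,[(14,1),(15,1)])] [(2,1),(9,1),(10,1),(12,1),(17,1),(6,1),(0,1)]))) (.node 6 1 (.leaf [(0,2,[(1,1)]),(6,16,[(7,1)]),(3,18,[(13,1)]),(1,1,[(15,1)]),(0,15,[(16,1)]),(5,14,[(19,1)])] [(0,2),(2,1),(9,1),(10,1),(12,1),(17,1),(18,1)]) (.leaf [(3,18,[(13,1)]),(0,15,[(16,1)]),(5,14,[(19,1)]),(7,12,[(14,1),(15,1),(21,1)])] [(0,2),(2,1),(9,1),(10,1),(12,1),(17,1),(18,1),(6,1)]))) (.node 13 1 (.leaf [(0,4,[(0,1)]),(0,2,[(1,1),(6,1)]),(1,12,[(15,1)]),(0,15,[(16,1)]),(3,14,[(19,1)]),(8,6,[(8,1),(13,1)])] [(2,1),(9,1),(10,1),(12,1),(17,1),(20,1)]) (.node 6 1 (.node 19 1 (.node 0 1 (.leaf [(0,2,[(1,1)]),(6,13,[(7,1)]),(2,6,[(14,1)]),(1,1,[(15,1)]),(0,15,[(16,1)]),(5,5,[(19,1)])]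 [(0,1),(2,1),(9,1),(10,1),(12,1),(13,1),(17,1),(20,1)]) (.leaf [(0,2,[(1,1)]),(2,6,[(14,1)]),(1,1,[(15,1)]),(0,15,[(16,1)]),(5,5,[(19,1)])] [(2,1),(9,1),(10,1),(12,1),(13,1),(17,1),(20,1),(0,1)])) (.leaf [(0,2,[(1,1)]),(1,1,[(15,1)]),(0,15,[(16,1)])] [(0,2),(2,1),(9,1),(10,1),(12,1),(13,1),(17,1),(20,1),(19,1)])) (.node 14 1 (.node 15 1 (.leaf [(0,15,[(16,1)]),(7,2,[(18,1)]),(2,6,[(19,1)]),(7,12,[(21,1)])] [(0,2),(2,1),(9,1),(10,1),(6,1),(12,1),(13,1),(17,1),(20,1)]) (.leaf [(0,15,[(16,1)]),(2,6,[(19,1)])] [(0,2),(2,1),(9,1),(10,1),(6,1),(12,1),(13,1),(17,1),(20,1),(15,1)])) (.leaf [(0,15,[(16,1)]),(5,5,[(19,2)])] [(0,2),(2,1),(9,1),(10,1),(17,1),(12,1),(20,1),(13,1),(6,1),(14,1)])))))) (.node 12 1 (.node 8 1 (.node 1 2 (.leaf [(3,0,[(3,1)]),(0,2,[(6,1)]),(7,0,[(12,1)]),(6,11,[(13,1)]),(1,8,[(14,1)]),(0,15,[(16,1)]),(2,5,[(19,1)]),(2,2,[(20,1)]),(9,0,[(21,1)])]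 [(0,2),(2,1),(4,1),(9,1),(10,1),(17,1)]) (.leaf [(3,0,[(3,1)]),(6,11,[(13,1)]),(1,8,[(14,1)]),(0,15,[(16,1)]),(2,5,[(19,1)]),(2,2,[(20,1)]),(1,1,[(6,1),(15,1)])] [(0,2),(2,1),(4,1),(9,1),(10,1),(17,1),(1,1)])) (.node 0 1 (.node 6 1 (.leaf [(0,2,[(1,1)]),(0,4,[(13,1)]),(1,8,[(14,1)]),(1,1,[(15,1)]),(0,15,[(16,1)]),(2,5,[(19,1)]),(2,2,[(20,1)])] [(0,1),(2,1),(4,1),(9,1),(10,1),(8,1),(17,1)]) (.leaf [(0,4,[(13,1)]),(1,8,[(14,1)]),(0,15,[(16,1)]),(2,5,[(19,1)]),(2,2,[(20,1)])] [(0,1),(2,1),(4,1),(9,1),(10,1),(8,1),(17,1),(6,1)])) (.node 6 1 (.leaf [(0,2,[(1,1)]),(1,8,[(14,1)]),(1,1,[(15,1)]),(0,15,[(16,1)]),(2,5,[(19,1)]),(2,2,[(20,1)])] [(0,1),(2,1),(4,1),(9,1),(10,1),(8,1),(17,1)]) (.leaf [(1,8,[(14,1)]),(0,15,[(16,1)]),(2,5,[(19,1)]),(2,2,[(20,1)]),(1,12,[(13,1),(15,1)])]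 [(2,1),(4,1),(9,1),(10,1),(17,1),(8,1),(0,1),(6,1)])))) (.node 14 1 (.node 15 1 (.leaf [(1,1,[(6,1)]),(1,12,[(13,1)]),(0,15,[(16,1)]),(7,2,[(18,1)]),(2,6,[(19,1)]),(7,12,[(21,1)])] [(0,2),(2,1),(4,1),(9,1),(10,1),(12,1),(17,1)]) (.node 0 1 (.leaf [(0,2,[(1,1),(6,1)]),(0,4,[(13,1)]),(0,15,[(16,1)]),(2,6,[(19,1)]),(8,4,[(18,1),(20,1)])] [(0,1),(2,1),(4,1),(9,1),(10,1),(12,1),(15,1),(17,1)]) (.leaf [(0,2,[(1,1),(6,1)]),(0,15,[(16,1)]),(2,6,[(19,1)]),(4,8,[(3,1),(18,1),(20,1)])] [(2,1),(4,1),(9,1),(10,1),(12,1),(17,1),(15,1),(0,1)]))) (.node 0 1 (.node 6 1 (.leaf [(0,2,[(1,1)]),(0,4,[(13,1)]),(1,1,[(15,1)]),(0,15,[(16,1)]),(4,8,[(3,1),(18,1),(20,1)])] [(0,1),(2,1),(4,1),(9,1),(10,1),(12,1),(14,1),(17,1)]) (.leaf [(0,4,[(13,1)]),(0,15,[(16,1)]),(4,8,[(3,1),(18,1),(20,1)])]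 [(0,1),(2,1),(4,1),(9,1),(10,1),(12,1),(14,1),(17,1),(6,1)])) (.node 6 1 (.leaf [(0,2,[(1,1)]),(1,1,[(15,1)]),(0,15,[(16,1)]),(4,8,[(3,1),(18,1),(20,1)])] [(0,1),(2,1),(4,1),(9,1),(10,1),(12,1),(14,1),(17,1)]) (.leaf [(0,15,[(16,1)]),(1,12,[(13,1),(15,1)]),(4,8,[(3,1),(18,1),(20,1)])] [(9,1),(10,1),(17,1),(2,1),(4,1),(12,1),(14,1),(0,1),(6,1)]))))))) (.node 19 1 (.node 16 1 (.node 0 1 (.leaf [(3,12,[(1,1)]),(0,14,[(2,1)]),(1,10,[(7,1)]),(6,8,[(11,1)]),(2,5,[(12,1)]),(0,4,[(13,1)]),(2,6,[(14,1)]),(8,2,[(15,1)]),(8,12,[(19,1)]),(3,7,[(20,1)])] [(0,1),(5,1),(9,1),(10,1),(17,1)]) (.leaf [(3,12,[(1,1)]),(0,14,[(2,1)]),(1,10,[(7,1)]),(6,8,[(11,1)]),(2,5,[(12,1)]),(2,6,[(14,1)]),(8,2,[(15,1)]),(8,12,[(19,1)]),(3,7,[(20,1)]),(3,14,[(4,1),(13,1)])]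 [(5,1),(9,1),(10,1),(17,1),(0,1)])) (.node 4 1 (.node 6 1 (.node 0 1 (.leaf [(0,2,[(1,1)]),(0,14,[(2,1)]),(6,13,[(7,1)]),(2,5,[(12,1)]),(3,14,[(13,1)]),(2,6,[(14,1)]),(1,1,[(15,1)]),(5,5,[(19,1)]),(5,14,[(20,1)])] [(0,1),(5,1),(9,1),(10,1),(16,1),(17,1)]) (.leaf [(0,2,[(1,1)]),(0,14,[(2,1)]),(2,5,[(12,1)]),(3,14,[(13,1)]),(2,6,[(14,1)]),(1,1,[(15,1)]),(5,5,[(19,1)]),(5,14,[(20,1)])] [(5,1),(9,1),(10,1),(16,1),(17,1),(0,1)])) (.leaf [(0,14,[(2,1)]),(2,5,[(12,1)]),(3,14,[(13,1)]),(2,6,[(14,1)]),(5,5,[(19,1)]),(5,14,[(20,1)])] [(0,2),(5,1),(9,1),(10,1),(16,1),(17,1),(6,1)])) (.node 0 1 (.node 6 1 (.leaf [(0,2,[(1,1)]),(0,14,[(2,1)]),(2,5,[(12,1)]),(0,4,[(13,1)]),(2,6,[(14,1)]),(1,1,[(15,1)]),(4,8,[(3,1),(18,1),(20,1)])] [(0,1),(4,1),(5,1),(9,1),(10,1),(16,1),(17,1)])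 (.leaf [(0,14,[(2,1)]),(2,5,[(12,1)]),(0,4,[(13,1)]),(2,6,[(14,1)]),(4,8,[(3,1),(18,1),(20,1)])] [(0,1),(4,1),(5,1),(9,1),(10,1),(16,1),(17,1),(6,1)])) (.node 6 1 (.leaf [(0,2,[(1,1)]),(0,14,[(2,1)]),(2,5,[(12,1)]),(2,6,[(14,1)]),(1,1,[(15,1)]),(4,8,[(3,1),(18,1),(20,1)])] [(0,1),(4,1),(5,1),(9,1),(10,1),(16,1),(17,1)]) (.leaf [(0,14,[(2,1)]),(2,5,[(12,1)]),(2,6,[(14,1)]),(1,12,[(13,1),(15,1)]),(4,8,[(3,1),(18,1),(20,1)])] [(5,1),(9,1),(10,1),(17,1),(16,1),(4,1),(0,1),(6,1)]))))) (.node 14 1 (.node 20 1 (.node 15 1 (.leaf [(0,7,[(2,1)]),(1,1,[(6,1)]),(1,8,[(12,1)]),(1,12,[(13,1)]),(3,7,[(16,1)]),(7,2,[(18,1)]),(7,12,[(21,1)])] [(0,2),(5,1),(9,1),(10,1),(17,1),(19,1)]) (.node 0 1 (.node 6 1 (.leaf [(0,2,[(1,1)]),(0,7,[(2,1)]),(1,8,[(12,1)]),(0,4,[(13,1)]),(3,7,[(16,1)]),(6,16,[(4,1),(7,1)]),(8,4,[(18,1)])]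 [(0,1),(5,1),(9,1),(10,1),(15,1),(17,1),(19,1)]) (.leaf [(0,7,[(2,1)]),(1,8,[(12,1)]),(0,4,[(13,1)]),(3,7,[(16,1)]),(8,4,[(18,1)])] [(0,1),(5,1),(9,1),(10,1),(15,1),(17,1),(19,1),(6,1)])) (.node 4 1 (.node 6 1 (.node 18 1 (.leaf [(0,2,[(1,1)]),(4,8,[(3,1)]),(0,7,[(2,1)]),(6,16,[(7,1)]),(1,8,[(12,1)]),(3,18,[(13,1)]),(3,7,[(16,1)]),(10,13,[(20,1)])] [(0,1),(5,1),(9,1),(10,1),(15,1),(17,1),(19,1)]) (.leaf [(0,2,[(1,1)]),(0,7,[(2,1)]),(6,16,[(7,1)]),(1,8,[(12,1)]),(3,18,[(13,1)]),(3,7,[(16,1)])] [(0,1),(5,1),(9,1),(10,1),(15,1),(17,1),(19,1),(18,1)])) (.node 18 1 (.leaf [(4,8,[(3,1)]),(0,7,[(2,1)]),(1,8,[(12,1)]),(3,18,[(13,1)]),(3,7,[(16,1)]),(10,13,[(20,1)])] [(0,1),(5,1),(9,1),(10,1),(6,1),(15,1),(17,1),(19,1)]) (.leaf [(0,7,[(2,1)]),(1,8,[(12,1)]),(3,18,[(13,1)]),(3,7,[(16,1)])]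 [(0,1),(5,1),(9,1),(10,1),(15,1),(17,1),(19,1),(6,1),(18,1)]))) (.leaf [(0,7,[(2,1)]),(0,2,[(1,1),(6,1)]),(1,8,[(12,1)]),(3,7,[(16,1)]),(4,8,[(3,1),(18,1)])] [(5,1),(9,1),(10,1),(17,1),(19,1),(15,1),(0,1),(4,1)])))) (.node 15 1 (.leaf [(0,7,[(2,1)]),(1,1,[(6,1)]),(1,8,[(12,1)]),(1,12,[(13,1)]),(6,17,[(16,1)]),(7,2,[(18,1)]),(7,12,[(21,1)])] [(0,2),(5,1),(9,1),(10,1),(17,1),(19,1),(20,1)]) (.node 16 1 (.node 0 1 (.leaf [(2,7,[(1,1)]),(0,7,[(2,1)]),(1,10,[(7,1)]),(5,2,[(11,1)]),(1,8,[(12,1)]),(0,4,[(13,1)])] [(0,1),(5,1),(9,1),(10,1),(15,1),(17,1),(19,1),(20,1)]) (.leaf [(2,7,[(1,1)]),(0,7,[(2,1)]),(1,10,[(7,1)]),(5,2,[(11,1)]),(1,8,[(12,1)])] [(5,1),(9,1),(10,1),(15,1),(17,1),(19,1),(20,1),(0,1)])) (.node 0 1 (.leaf [(0,7,[(2,1)]),(0,2,[(1,1),(6,1)]),(1,8,[(12,1)]),(0,4,[(13,1)])]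 [(0,1),(5,1),(9,1),(10,1),(15,1),(16,1),(17,1),(19,1),(20,1)]) (.leaf [(0,7,[(2,1)]),(0,2,[(1,1),(6,1)]),(1,8,[(12,1)])] [(5,1),(9,1),(10,1),(17,1),(19,1),(20,1),(15,1),(16,1),(0,1)]))))) (.node 20 1 (.node 4 1 (.node 6 1 (.node 18 1 (.leaf [(0,2,[(1,1)]),(4,8,[(3,1)]),(0,11,[(2,1)]),(6,16,[(7,1)]),(2,2,[(12,1)]),(3,18,[(13,1)]),(1,1,[(15,1)]),(3,7,[(16,1)]),(10,13,[(20,1)])] [(0,2),(5,1),(9,1),(10,1),(14,1),(17,1),(19,1)]) (.leaf [(0,2,[(1,1)]),(0,11,[(2,1)]),(6,16,[(7,1)]),(2,2,[(12,1)]),(3,18,[(13,1)]),(1,1,[(15,1)]),(3,7,[(16,1)])] [(0,2),(5,1),(9,1),(10,1),(14,1),(17,1),(19,1),(18,1)])) (.node 18 1 (.leaf [(4,8,[(3,1)]),(0,11,[(2,1)]),(2,2,[(12,1)]),(3,18,[(13,1)]),(3,7,[(16,1)]),(10,13,[(20,1)])] [(0,2),(5,1),(9,1),(10,1),(6,1),(14,1),(17,1),(19,1)])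 (.leaf [(0,11,[(2,1)]),(2,2,[(12,1)]),(3,18,[(13,1)]),(3,7,[(16,1)])] [(0,2),(5,1),(9,1),(10,1),(14,1),(17,1),(19,1),(6,1),(18,1)]))) (.node 0 1 (.node 6 1 (.leaf [(0,2,[(1,1)]),(0,11,[(2,1)]),(2,2,[(12,1)]),(0,4,[(13,1)]),(1,1,[(15,1)]),(3,7,[(16,1)]),(4,8,[(3,1),(18,1)])] [(0,1),(4,1),(5,1),(9,1),(10,1),(14,1),(17,1),(19,1)]) (.leaf [(0,11,[(2,1)]),(2,2,[(12,1)]),(0,4,[(13,1)]),(3,7,[(16,1)]),(4,8,[(3,1),(18,1)])] [(0,1),(4,1),(5,1),(9,1),(10,1),(14,1),(17,1),(19,1),(6,1)])) (.node 6 1 (.leaf [(0,2,[(1,1)]),(0,11,[(2,1)]),(2,2,[(12,1)]),(1,1,[(15,1)]),(3,7,[(16,1)]),(4,8,[(3,1),(18,1)])] [(0,1),(4,1),(5,1),(9,1),(10,1),(14,1),(17,1),(19,1)]) (.leaf [(0,11,[(2,1)]),(2,2,[(12,1)]),(3,7,[(16,1)]),(4,8,[(3,1),(18,1)]),(1,12,[(13,1),(15,1)])]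 [(5,1),(9,1),(10,1),(14,1),(17,1),(19,1),(4,1),(0,1),(6,1)])))) (.node 0 1 (.node 2 2 (.node 6 1 (.leaf [(0,2,[(1,1)]),(0,3,[(7,1)]),(0,6,[(8,1)]),(0,4,[(13,1)]),(1,1,[(15,1)])] [(0,1),(5,1),(9,1),(10,1),(14,1),(17,1),(19,1),(20,1)]) (.leaf [(0,3,[(7,1)]),(0,6,[(8,1)]),(0,4,[(13,1)])] [(0,1),(5,1),(9,1),(10,1),(14,1),(17,1),(19,1),(20,1),(6,1)])) (.node 2 1 (.node 6 1 (.leaf [(0,2,[(1,1)]),(0,3,[(7,1)]),(0,4,[(13,1)]),(1,1,[(15,1)])] [(0,1),(2,1),(5,1),(9,1),(10,1),(14,1),(17,1),(19,1),(20,1)]) (.leaf [(0,3,[(7,1)]),(0,4,[(13,1)])] [(0,1),(2,1),(5,1),(9,1),(10,1),(14,1),(17,1),(19,1),(20,1),(6,1)])) (.node 6 1 (.leaf [(0,2,[(1,1)]),(0,4,[(13,1)]),(1,1,[(15,1)]),(1,10,[(7,1),(16,1)])] [(0,1),(2,1),(5,1),(9,1),(10,1),(14,1),(17,1),(19,1),(20,1)])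 (.leaf [(0,4,[(13,1)]),(1,10,[(7,1),(16,1)])] [(0,1),(5,1),(9,1),(10,1),(14,1),(17,1),(19,1),(20,1),(2,1),(6,1)])))) (.node 2 2 (.node 6 1 (.leaf [(0,2,[(1,1)]),(0,3,[(7,1)]),(0,6,[(8,1)]),(1,1,[(15,1)])] [(0,1),(5,1),(9,1),(10,1),(14,1),(17,1),(19,1),(20,1)]) (.leaf [(0,3,[(7,1)]),(0,6,[(8,1)]),(1,12,[(13,1),(15,1)])] [(0,1),(5,1),(9,1),(10,1),(14,1),(17,1),(19,1),(20,1),(6,1)])) (.node 2 1 (.node 6 1 (.leaf [(0,2,[(1,1)]),(0,3,[(7,1)]),(1,1,[(15,1)])] [(0,1),(2,1),(5,1),(9,1),(10,1),(14,1),(17,1),(19,1),(20,1)]) (.leaf [(0,3,[(7,1)]),(1,12,[(13,1),(15,1)])] [(0,1),(2,1),(5,1),(9,1),(10,1),(14,1),(17,1),(19,1),(20,1),(6,1)])) (.node 6 1 (.leaf [(0,2,[(1,1)]),(1,1,[(15,1)]),(1,10,[(7,1),(16,1)])] [(0,1),(2,1),(5,1),(9,1),(10,1),(14,1),(17,1),(19,1),(20,1)])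 (.leaf [(1,10,[(7,1),(16,1)]),(1,12,[(13,1),(15,1)])] [(17,1),(10,1),(9,1),(5,1),(19,1),(14,1),(20,1),(0,1),(2,1),(6,1)]))))))))

def u3 : Tree := .node 10 1 (.node 9 1 (.node 18 1 (.node 3 1 (.node 9 2 (.leaf [(1,3,[(0,1)]),(0,1,[(2,1)]),(4,19,[(4,1)]),(4,14,[(6,1)]),(4,12,[(7,1)]),(0,12,[(12,1)]),(4,13,[(13,1)]),(4,16,[(14,1)]),(0,18,[(15,1)]),(1,2,[(16,1)]),(9,8,[(18,1)]),(4,8,[(20,1)]),(9,7,[(21,1)])] [(17,1)]) (.leaf [(1,3,[(0,1)]),(0,1,[(2,1)]),(4,14,[(6,1)]),(4,12,[(7,1)]),(0,12,[(12,1)]),(4,13,[(13,1)]),(4,16,[(14,1)]),(0,18,[(15,1)]),(1,2,[(16,1)]),(4,8,[(20,1)]),(2,10,[(4,1),(19,1)])] [(17,1),(9,1)])) (.node 4 1 (.leaf [(1,3,[(0,1)]),(0,1,[(2,1)]),(4,19,[(9,1)]),(0,19,[(7,1)]),(0,2,[(1,1),(6,1)]),(0,12,[(12,1)]),(4,13,[(13,1)]),(4,16,[(14,1)]),(0,18,[(15,1)]),(1,2,[(16,1)]),(2,10,[(19,1)]),(8,3,[(20,1)])]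 [(3,1),(17,1)]) (.node 21 1 (.leaf [(1,3,[(0,1)]),(0,1,[(2,1)]),(9,7,[(9,1)]),(4,10,[(7,1)]),(0,2,[(1,1),(6,1)]),(0,12,[(12,1)]),(4,13,[(13,1)]),(4,16,[(14,1)]),(0,18,[(15,1)]),(1,2,[(16,1)])] [(3,1),(4,1),(17,1)]) (.leaf [(1,3,[(0,1)]),(0,1,[(2,1)]),(0,2,[(1,1),(6,1)]),(0,12,[(12,1)]),(4,13,[(13,1)]),(4,16,[(14,1)]),(0,18,[(15,1)]),(1,2,[(16,1)])] [(17,1),(3,1),(4,1),(21,1)])))) (.node 0 1 (.leaf [(0,1,[(2,1)]),(0,9,[(7,1)]),(0,2,[(1,1),(6,1)]),(0,12,[(12,1)]),(0,4,[(13,1)]),(0,18,[(15,1)]),(1,2,[(16,1)]),(1,19,[(19,1)]),(1,14,[(20,1)]),(1,15,[(21,1)])] [(0,1),(17,1),(18,1)]) (.node 4 1 (.leaf [(0,1,[(2,1)]),(0,19,[(7,1)]),(0,2,[(1,1),(6,1)]),(0,12,[(12,1)]),(1,6,[(13,1)]),(0,18,[(15,1)]),(1,2,[(16,1)]),(2,10,[(19,1)]),(10,5,[(9,1),(21,2)])]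 [(0,1),(17,1),(18,1)]) (.node 21 1 (.leaf [(0,1,[(2,1)]),(4,10,[(7,1)]),(0,2,[(1,1),(6,1)]),(0,12,[(12,1)]),(5,6,[(13,1)]),(0,18,[(15,1)]),(1,2,[(16,1)]),(10,5,[(9,1),(21,1)]),(2,6,[(14,1),(19,1)])] [(0,1),(4,1),(17,1),(18,1)]) (.leaf [(0,1,[(2,1)]),(0,2,[(1,1),(6,1)]),(0,12,[(12,1)]),(0,18,[(15,1)]),(1,2,[(16,1)]),(2,14,[(3,1),(7,2)]),(2,6,[(14,1),(19,1)])] [(17,1),(18,1),(0,1),(4,1),(21,1)]))))) (.node 16 1 (.node 1 2 (.leaf [(1,13,[(0,1)]),(1,16,[(1,1)]),(0,15,[(5,1)]),(0,2,[(6,1)]),(1,10,[(7,1)]),(4,2,[(11,1)]),(4,18,[(12,1)]),(5,1,[(13,1)]),(2,7,[(14,1)]),(0,18,[(15,1)]),(0,6,[(2,2),(8,1)]),(3,12,[(19,1)]),(3,7,[(20,1)])] [(9,1),(17,1)]) (.node 19 1 (.leaf [(1,19,[(0,1)]),(0,14,[(2,1)]),(0,15,[(5,1)]),(1,10,[(7,1)]),(4,2,[(11,1)]),(2,5,[(12,1)]),(2,6,[(14,1)]),(0,18,[(15,1)]),(8,12,[(19,1)]),(3,7,[(20,1)]),(3,14,[(4,1),(13,1)])]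 [(1,1),(9,1),(17,1)]) (.node 0 1 (.node 2 1 (.leaf [(0,15,[(5,1)]),(1,10,[(7,1)]),(4,2,[(11,1)]),(1,0,[(8,1)]),(0,16,[(12,1)]),(0,4,[(13,1)]),(0,7,[(14,1)]),(0,18,[(15,1)]),(3,7,[(20,1)])] [(0,1),(1,1),(9,1),(17,1),(19,1)]) (.leaf [(0,15,[(5,1)]),(1,10,[(7,1)]),(4,2,[(11,1)]),(0,16,[(12,1)]),(0,4,[(13,1)]),(0,18,[(15,1)]),(3,7,[(20,1)])] [(0,1),(1,1),(9,1),(17,1),(19,1),(2,1)])) (.node 2 1 (.node 8 1 (.leaf [(0,6,[(2,1)]),(0,15,[(5,1)]),(1,10,[(7,1)]),(4,2,[(11,1)]),(3,1,[(12,1)]),(4,9,[(13,1)]),(0,7,[(14,1)]),(0,18,[(15,1)]),(3,7,[(20,1)])] [(0,1),(1,1),(9,1),(17,1),(19,1)]) (.leaf [(0,15,[(5,1)]),(1,10,[(7,1)]),(4,2,[(11,1)]),(0,7,[(14,1)]),(0,18,[(15,1)]),(3,7,[(20,1)]),(10,8,[(4,1),(12,1),(13,1)])] [(0,1),(1,1),(9,1),(17,1),(19,1),(8,1)]))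 (.node 12 1 (.leaf [(0,15,[(5,1)]),(1,10,[(7,1)]),(4,2,[(11,1)]),(3,1,[(8,1)]),(1,8,[(14,1)]),(0,18,[(15,1)]),(3,7,[(20,1)]),(10,8,[(4,1),(13,1)])] [(0,1),(1,1),(2,1),(9,1),(17,1),(19,1)]) (.leaf [(0,15,[(5,1)]),(1,10,[(7,1)]),(4,2,[(11,1)]),(0,18,[(15,1)]),(3,7,[(20,1)])] [(9,1),(17,1),(1,1),(19,1),(0,1),(2,1),(12,1)])))))) (.node 2 1 (.node 8 1 (.node 5 1 (.leaf [(1,0,[(0,1)]),(2,11,[(1,1)]),(0,17,[(3,1)]),(0,6,[(2,1)]),(0,3,[(7,1)]),(5,7,[(11,1)]),(3,1,[(12,1)]),(4,9,[(13,1)]),(0,7,[(14,1)]),(0,18,[(15,1)]),(0,14,[(19,1)]),(0,11,[(20,1)])] [(9,1),(16,1),(17,1)]) (.leaf [(1,0,[(0,1)]),(0,6,[(2,1)]),(0,3,[(7,1)]),(0,2,[(1,1),(6,1)]),(3,1,[(12,1)]),(4,9,[(13,1)]),(0,7,[(14,1)]),(0,18,[(15,1)]),(0,14,[(19,1)]),(0,11,[(20,1)])] [(9,1),(16,1),(17,1),(5,1)]))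 (.node 0 1 (.leaf [(0,3,[(7,1)]),(0,2,[(1,1),(6,1)]),(0,16,[(12,1)]),(0,4,[(13,1)]),(0,7,[(14,1)]),(0,18,[(15,1)]),(0,14,[(19,1)]),(0,11,[(20,1)])] [(0,1),(9,1),(8,1),(16,1),(17,1)]) (.leaf [(0,3,[(7,1)]),(0,2,[(1,1),(6,1)]),(0,7,[(14,1)]),(0,18,[(15,1)]),(0,14,[(19,1)]),(0,11,[(20,1)]),(3,19,[(2,1),(5,1),(13,2)])] [(9,1),(16,1),(17,1),(8,1),(0,1)]))) (.node 4 1 (.node 7 1 (.node 8 1 (.leaf [(0,9,[(0,1)]),(7,13,[(7,1)]),(0,2,[(1,1),(6,1)]),(3,1,[(12,1)]),(8,8,[(13,1)]),(0,18,[(15,1)]),(6,2,[(19,1)]),(6,4,[(20,1)])] [(2,1),(9,1),(16,1),(17,1)]) (.node 3 1 (.leaf [(0,9,[(0,1)]),(2,14,[(7,1)]),(0,2,[(1,1),(6,1)]),(3,3,[(12,1)]),(0,18,[(15,1)]),(6,2,[(19,1)]),(6,4,[(20,1)])] [(2,1),(9,1),(8,1),(16,1),(17,1)]) (.leaf [(0,9,[(0,1)]),(0,2,[(1,1),(6,1)]),(0,18,[(15,1)]),(6,2,[(19,1)]),(6,4,[(20,1)]),(1,8,[(12,1),(14,1)])]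 [(2,1),(9,1),(16,1),(17,1),(8,1),(3,1)]))) (.node 19 1 (.leaf [(1,19,[(0,1)]),(0,2,[(1,1),(6,1)]),(2,5,[(12,1)]),(3,14,[(13,1)]),(2,6,[(14,1)]),(0,18,[(15,1)]),(5,5,[(19,1)]),(5,14,[(20,1)])] [(2,1),(9,1),(7,1),(16,1),(17,1)]) (.node 20 1 (.node 18 1 (.leaf [(1,14,[(0,1)]),(4,8,[(3,1)]),(0,2,[(1,1),(6,1)]),(2,2,[(12,1)]),(3,18,[(13,1)]),(0,18,[(15,1)]),(10,13,[(20,1)])] [(2,1),(9,1),(7,1),(16,1),(17,1),(19,1)]) (.leaf [(1,14,[(0,1)]),(0,2,[(1,1),(6,1)]),(2,2,[(12,1)]),(3,18,[(13,1)]),(0,18,[(15,1)])] [(2,1),(9,1),(7,1),(16,1),(17,1),(19,1),(18,1)])) (.node 0 1 (.leaf [(0,2,[(1,1),(6,1)]),(0,16,[(12,1)]),(0,4,[(13,1)]),(0,18,[(15,1)])] [(0,1),(2,1),(9,1),(7,1),(16,1),(17,1),(19,1),(20,1)]) (.node 8 1 (.leaf [(0,2,[(1,1),(6,1)]),(3,1,[(12,1)]),(0,18,[(15,1)]),(8,6,[(5,1),(13,2)])]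 [(0,1),(2,1),(9,1),(7,1),(16,1),(17,1),(19,1),(20,1)]) (.leaf [(0,2,[(1,1),(6,1)]),(0,18,[(15,1)]),(1,8,[(12,1),(14,1)])] [(2,1),(9,1),(16,1),(17,1),(7,1),(19,1),(20,1),(0,1),(8,1)])))))) (.node 0 1 (.leaf [(0,9,[(7,1)]),(0,2,[(1,1),(6,1)]),(0,16,[(12,1)]),(0,4,[(13,1)]),(0,18,[(15,1)]),(1,19,[(19,1)]),(1,14,[(20,1)])] [(0,1),(2,1),(4,1),(9,1),(16,1),(17,1)]) (.node 12 1 (.leaf [(0,2,[(1,1),(6,1)]),(3,1,[(8,1)]),(3,3,[(3,1),(7,1)]),(1,8,[(14,1)]),(0,18,[(15,1)]),(2,5,[(19,1)]),(2,2,[(20,1)])] [(0,1),(2,1),(4,1),(9,1),(16,1),(17,1)]) (.node 3 1 (.leaf [(0,2,[(1,1),(6,1)]),(0,18,[(15,1)]),(2,14,[(7,2)]),(2,6,[(14,1),(19,1)]),(4,8,[(18,1),(20,1)])] [(0,1),(2,1),(4,1),(9,1),(12,1),(16,1),(17,1)]) (.leaf [(0,2,[(1,1),(6,1)]),(0,18,[(15,1)]),(2,6,[(14,1),(19,1)]),(11,9,[(7,2),(8,1),(21,1)])]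 [(17,1),(9,1),(16,1),(2,1),(4,1),(0,1),(12,1),(3,1)])))))))) (.node 9 1 (.node 18 1 (.node 3 1 (.node 9 2 (.leaf [(1,3,[(0,1)]),(0,1,[(2,1)]),(4,19,[(4,1)]),(4,14,[(6,1)]),(4,12,[(7,1)]),(0,12,[(12,1)]),(4,13,[(13,1)]),(4,16,[(14,1)]),(5,4,[(15,1)]),(1,2,[(16,1)]),(9,8,[(18,1)]),(4,8,[(20,1)]),(9,7,[(21,1)])] [(10,1),(17,1)]) (.leaf [(1,3,[(0,1)]),(0,1,[(2,1)]),(4,14,[(6,1)]),(4,12,[(7,1)]),(0,12,[(12,1)]),(4,13,[(13,1)]),(4,16,[(14,1)]),(5,4,[(15,1)]),(1,2,[(16,1)]),(4,8,[(20,1)]),(2,10,[(4,1),(19,1)])] [(10,1),(17,1),(9,1)])) (.node 4 1 (.leaf [(1,3,[(0,1)]),(0,1,[(2,1)]),(4,19,[(9,1)]),(0,19,[(7,1)]),(0,2,[(1,1),(6,1)]),(0,12,[(12,1)]),(4,13,[(13,1)]),(4,16,[(14,1)]),(5,4,[(15,1)]),(1,2,[(16,1)]),(2,10,[(19,1)]),(8,3,[(20,1)])]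 [(3,1),(10,1),(17,1)]) (.node 21 1 (.leaf [(1,3,[(0,1)]),(0,1,[(2,1)]),(9,7,[(9,1)]),(4,10,[(7,1)]),(0,2,[(1,1),(6,1)]),(0,12,[(12,1)]),(4,13,[(13,1)]),(4,16,[(14,1)]),(5,4,[(15,1)]),(1,2,[(16,1)])] [(3,1),(4,1),(10,1),(17,1)]) (.leaf [(1,3,[(0,1)]),(0,1,[(2,1)]),(0,2,[(1,1),(6,1)]),(0,12,[(12,1)]),(4,13,[(13,1)]),(4,16,[(14,1)]),(5,4,[(15,1)]),(1,2,[(16,1)])] [(10,1),(17,1),(3,1),(4,1),(21,1)])))) (.node 21 1 (.node 19 1 (.leaf [(1,15,[(0,1)]),(0,1,[(2,1)]),(2,10,[(4,1)]),(4,10,[(7,1)]),(0,2,[(1,1),(6,1)]),(0,12,[(12,1)]),(5,6,[(13,1)]),(2,6,[(14,1)]),(6,1,[(15,1)]),(1,2,[(16,1)]),(10,5,[(9,1),(21,1)])] [(10,1),(17,1),(18,1)]) (.leaf [(1,15,[(0,1)]),(0,1,[(2,1)]),(4,10,[(7,1)]),(0,2,[(1,1),(6,1)]),(0,12,[(12,1)]),(5,6,[(13,1)]),(6,1,[(15,1)]),(1,2,[(16,1)]),(10,5,[(9,1),(21,1)])]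 [(10,1),(17,1),(18,1),(19,1)])) (.node 4 1 (.node 6 1 (.leaf [(0,2,[(1,1)]),(0,1,[(2,1)]),(0,19,[(7,1)]),(0,12,[(12,1)]),(1,6,[(13,1)]),(1,1,[(15,1)]),(1,2,[(16,1)]),(2,10,[(19,1)])] [(0,2),(10,1),(17,1),(18,1),(21,1)]) (.leaf [(0,1,[(2,1)]),(0,19,[(7,1)]),(0,12,[(12,1)]),(1,6,[(13,1)]),(1,2,[(16,1)]),(2,10,[(19,1)])] [(0,2),(10,1),(17,1),(18,1),(21,1),(6,1)])) (.node 0 1 (.node 6 1 (.leaf [(0,2,[(1,1)]),(0,1,[(2,1)]),(0,12,[(12,1)]),(0,4,[(13,1)]),(1,1,[(15,1)]),(1,2,[(16,1)]),(2,6,[(14,1),(19,1)])] [(0,1),(4,1),(10,1),(17,1),(18,1),(21,1)]) (.leaf [(0,1,[(2,1)]),(0,12,[(12,1)]),(0,4,[(13,1)]),(1,2,[(16,1)]),(2,6,[(14,1),(19,1)])] [(0,1),(4,1),(10,1),(17,1),(18,1),(21,1),(6,1)])) (.node 6 1 (.leaf [(0,2,[(1,1)]),(0,1,[(2,1)]),(0,12,[(12,1)]),(1,1,[(15,1)]),(1,2,[(16,1)]),(2,6,[(14,1),(19,1)])]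 [(0,1),(4,1),(10,1),(17,1),(18,1),(21,1)]) (.leaf [(0,1,[(2,1)]),(0,12,[(12,1)]),(1,2,[(16,1)]),(1,12,[(13,1),(15,1)]),(2,6,[(14,1),(19,1)])] [(10,1),(17,1),(18,1),(21,1),(4,1),(0,1),(6,1)])))))) (u2))

def u4 : Tree := .node 1 2 (.node 8 1 (.node 2 1 (.leaf [(0,8,[(1,1)]),(0,13,[(3,1)]),(0,6,[(2,1)]),(0,5,[(0,4)]),(1,11,[(9,1)]),(5,19,[(10,1)]),(0,2,[(6,1)]),(0,3,[(7,1)]),(1,18,[(11,1)]),(6,18,[(12,1)]),(2,9,[(13,1)]),(2,12,[(14,1)]),(2,16,[(15,1)]),(0,14,[(19,1)]),(0,11,[(20,1)]),(9,1,[(21,1)]),(0,15,[(5,1),(16,1)])] []) (.node 12 1 (.node 7 1 (.leaf [(0,8,[(1,1)]),(0,13,[(3,1)]),(0,5,[(0,4)]),(2,15,[(4,1)]),(1,11,[(9,1)]),(3,1,[(10,1)]),(0,2,[(6,1)]),(1,18,[(11,1)]),(10,6,[(12,1)]),(2,9,[(13,1)]),(2,12,[(14,1)]),(2,16,[(15,1)]),(1,10,[(16,1)]),(2,5,[(19,1)]),(2,2,[(20,1)]),(11,8,[(21,1)])]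 [(2,1)]) (.leaf [(0,8,[(1,1)]),(0,13,[(3,1)]),(0,5,[(0,4)]),(1,11,[(9,1)]),(3,1,[(10,1)]),(0,2,[(6,1)]),(1,18,[(11,1)]),(10,6,[(12,1)]),(2,9,[(13,1)]),(2,12,[(14,1)]),(2,16,[(15,1)]),(2,5,[(19,1)]),(2,2,[(20,1)]),(11,8,[(21,1)]),(0,15,[(5,1),(16,1)])] [(2,1),(7,1)])) (.node 16 1 (.node 0 1 (.leaf [(0,8,[(1,1)]),(0,5,[(0,3)]),(0,13,[(3,1)]),(0,15,[(5,1)]),(1,11,[(9,1)]),(1,17,[(10,1)]),(0,2,[(6,1)]),(1,10,[(7,1)]),(1,18,[(11,1)]),(2,9,[(13,1)]),(2,12,[(14,1)]),(2,16,[(15,1)]),(3,12,[(19,1)]),(3,7,[(20,1)])] [(2,1),(12,1)]) (.leaf [(0,8,[(1,1)]),(0,13,[(3,1)]),(0,15,[(5,1)]),(1,11,[(9,1)]),(0,2,[(6,1)]),(1,10,[(7,1)]),(1,18,[(11,1)]),(2,9,[(13,1)]),(2,12,[(14,1)]),(2,16,[(15,1)]),(3,12,[(19,1)]),(3,7,[(20,1)])] [(2,1),(12,1),(0,1)]))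 (.node 4 1 (.node 0 1 (.leaf [(0,8,[(1,1)]),(0,5,[(0,3)]),(0,13,[(3,1)]),(1,11,[(9,1)]),(1,17,[(10,1)]),(0,2,[(6,1)]),(2,15,[(7,1)]),(1,18,[(11,1)]),(2,9,[(13,1)]),(2,12,[(14,1)]),(2,16,[(15,1)]),(5,17,[(19,1)]),(5,13,[(20,1)])] [(2,1),(12,1),(16,1)]) (.leaf [(0,8,[(1,1)]),(0,13,[(3,1)]),(1,11,[(9,1)]),(0,2,[(6,1)]),(2,15,[(7,1)]),(1,18,[(11,1)]),(2,9,[(13,1)]),(2,12,[(14,1)]),(2,16,[(15,1)]),(5,17,[(19,1)]),(5,13,[(20,1)])] [(2,1),(12,1),(16,1),(0,1)])) (.node 10 1 (.leaf [(1,17,[(0,1)]),(0,8,[(1,1)]),(0,13,[(3,1)]),(1,11,[(9,1)]),(0,2,[(6,1)]),(1,18,[(11,1)]),(2,9,[(13,1)]),(2,12,[(14,1)]),(2,16,[(15,1)]),(7,6,[(20,1)]),(11,9,[(7,2),(21,1)])] [(2,1),(4,1),(12,1),(16,1)]) (.leaf [(0,8,[(1,1)]),(0,13,[(3,1)]),(0,5,[(0,4)]),(1,11,[(9,1)]),(0,2,[(6,1)]),(1,18,[(11,1)]),(2,9,[(13,1)]),(2,12,[(14,1)]),(2,16,[(15,1)])]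 [(2,1),(12,1),(16,1),(4,1),(10,1)])))))) (.node 16 1 (.node 0 1 (.leaf [(0,8,[(1,1)]),(0,10,[(0,3)]),(0,13,[(3,1)]),(0,15,[(5,1)]),(1,11,[(9,1)]),(1,17,[(10,1)]),(0,2,[(6,1)]),(1,10,[(7,1)]),(1,18,[(11,1)]),(2,9,[(13,1)]),(2,12,[(14,1)]),(2,16,[(15,1)]),(3,12,[(19,1)]),(3,7,[(20,1)])] [(8,1)]) (.leaf [(0,8,[(1,1)]),(0,13,[(3,1)]),(0,15,[(5,1)]),(1,11,[(9,1)]),(0,2,[(6,1)]),(1,10,[(7,1)]),(1,18,[(11,1)]),(2,9,[(13,1)]),(2,12,[(14,1)]),(2,16,[(15,1)]),(3,12,[(19,1)]),(3,7,[(20,1)]),(4,18,[(10,1),(12,1)])] [(8,1),(0,1)])) (.node 4 1 (.node 0 1 (.leaf [(0,8,[(1,1)]),(1,5,[(0,3)]),(0,13,[(3,1)]),(1,11,[(9,1)]),(1,17,[(10,1)]),(0,2,[(6,1)]),(2,15,[(7,1)]),(1,18,[(11,1)]),(2,9,[(13,1)]),(2,12,[(14,1)]),(2,16,[(15,1)]),(5,17,[(19,1)]),(5,13,[(20,1)])]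 [(8,1),(16,1)]) (.leaf [(0,8,[(1,1)]),(0,13,[(3,1)]),(1,11,[(9,1)]),(0,2,[(6,1)]),(2,15,[(7,1)]),(1,18,[(11,1)]),(2,9,[(13,1)]),(2,12,[(14,1)]),(2,16,[(15,1)]),(5,17,[(19,1)]),(5,13,[(20,1)]),(7,4,[(10,1),(12,1)])] [(8,1),(16,1),(0,1)])) (.node 2 1 (.leaf [(0,8,[(1,1)]),(0,13,[(3,1)]),(1,11,[(9,1)]),(0,2,[(6,1)]),(1,17,[(0,1),(10,1)]),(0,3,[(7,1)]),(1,18,[(11,1)]),(2,9,[(13,1)]),(2,12,[(14,1)]),(2,16,[(15,1)]),(0,14,[(19,1)]),(0,11,[(20,1)])] [(4,1),(8,1),(16,1)]) (.node 10 1 (.leaf [(1,17,[(0,1)]),(0,8,[(1,1)]),(0,13,[(3,1)]),(1,11,[(9,1)]),(0,2,[(6,1)]),(1,18,[(11,1)]),(2,9,[(13,1)]),(2,12,[(14,1)]),(2,16,[(15,1)]),(7,6,[(20,1)]),(2,5,[(12,1),(19,1)])] [(2,1),(4,1),(8,1),(16,1)]) (.node 12 1 (.leaf [(0,8,[(1,1)]),(0,13,[(3,1)]),(1,11,[(9,1)]),(0,2,[(6,1)]),(1,18,[(11,1)]),(2,9,[(13,1)]),(2,12,[(14,1)]),(2,16,[(15,1)]),(2,5,[(19,1)]),(2,2,[(20,1)])]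 [(2,1),(4,1),(10,1),(8,1),(16,1)]) (.leaf [(0,8,[(1,1)]),(0,13,[(3,1)]),(1,11,[(9,1)]),(0,2,[(6,1)]),(1,18,[(11,1)]),(2,9,[(13,1)]),(2,12,[(14,1)]),(2,16,[(15,1)])] [(8,1),(16,1),(4,1),(2,1),(10,1),(12,1)]))))))) (.node 0 1 (.node 2 1 (.node 15 1 (.leaf [(3,5,[(3,1)]),(4,5,[(2,1)]),(0,1,[(9,1)]),(0,18,[(10,1)]),(1,1,[(6,1)]),(0,3,[(7,1)]),(1,18,[(11,1)]),(7,11,[(12,1)]),(0,4,[(13,1)]),(0,7,[(14,1)]),(0,5,[(0,3),(8,1)]),(7,10,[(15,1)]),(0,14,[(19,1)]),(0,11,[(20,1)]),(9,11,[(21,1)]),(0,15,[(5,1),(16,1)])] [(1,1)]) (.node 8 1 (.leaf [(0,5,[(0,3)]),(2,17,[(3,1)]),(0,6,[(2,1)]),(0,1,[(9,1)]),(1,0,[(10,1)]),(0,3,[(7,1)]),(1,18,[(11,1)]),(0,4,[(13,1)]),(0,7,[(14,1)]),(0,14,[(19,1)]),(0,11,[(20,1)]),(0,15,[(5,1),(16,1)])] [(1,1),(15,1)])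 (.node 10 1 (.leaf [(0,0,[(0,1)]),(0,1,[(9,1)]),(0,3,[(7,1)]),(1,18,[(11,1)]),(0,16,[(12,1)]),(0,4,[(13,1)]),(0,7,[(14,1)]),(0,14,[(19,1)]),(0,11,[(20,1)]),(0,15,[(5,1),(16,1)])] [(1,1),(8,1),(15,1)]) (.leaf [(0,1,[(9,1)]),(0,3,[(7,1)]),(1,18,[(11,1)]),(0,4,[(13,1)]),(0,7,[(14,1)]),(0,14,[(19,1)]),(0,11,[(20,1)]),(0,15,[(5,1),(16,1)])] [(1,1),(15,1),(8,1),(10,1)])))) (u0)) (.node 2 1 (.node 15 1 (.leaf [(3,5,[(3,1)]),(4,5,[(2,1)]),(0,1,[(9,1)]),(0,18,[(10,1)]),(1,1,[(6,1)]),(0,3,[(7,1)]),(1,18,[(11,1)]),(7,11,[(12,1)]),(1,12,[(13,1)]),(0,7,[(14,1)]),(7,10,[(15,1)]),(0,14,[(19,1)]),(0,11,[(20,1)]),(9,11,[(21,1)]),(0,15,[(5,1),(16,1)])] [(0,1),(1,1)]) (.node 8 1 (.leaf [(2,17,[(3,1)]),(0,6,[(2,1)]),(0,1,[(9,1)]),(0,3,[(7,1)]),(1,18,[(11,1)]),(6,12,[(13,1)]),(0,7,[(14,1)]),(0,14,[(19,1)]),(0,11,[(20,1)]),(3,1,[(10,1),(12,1)]),(0,15,[(5,1),(16,1)])]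 [(0,1),(1,1),(15,1)]) (.node 13 2 (.node 5 1 (.leaf [(3,19,[(2,1)]),(8,0,[(4,1)]),(0,1,[(9,1)]),(0,3,[(7,1)]),(1,18,[(11,1)]),(0,7,[(14,1)]),(0,15,[(16,1)]),(0,14,[(19,1)]),(0,11,[(20,1)])] [(0,1),(1,1),(8,1),(15,1)]) (.leaf [(8,0,[(4,1)]),(0,1,[(9,1)]),(0,3,[(7,1)]),(1,18,[(11,1)]),(0,7,[(14,1)]),(0,14,[(19,1)]),(0,11,[(20,1)])] [(0,1),(1,1),(8,1),(15,1),(5,1)])) (.node 13 1 (.node 16 1 (.leaf [(0,15,[(5,1)]),(0,1,[(9,1)]),(0,3,[(7,1)]),(1,18,[(11,1)]),(0,7,[(14,1)]),(0,14,[(19,1)]),(0,11,[(20,1)]),(10,8,[(4,1),(10,1),(12,1)])] [(0,1),(1,1),(8,1),(13,1),(15,1)]) (.leaf [(0,1,[(9,1)]),(0,3,[(7,1)]),(1,18,[(11,1)]),(0,7,[(14,1)]),(0,14,[(19,1)]),(0,11,[(20,1)])] [(0,1),(1,1),(8,1),(13,1),(15,1),(16,1)])) (.leaf [(0,1,[(9,1)]),(0,3,[(7,1)]),(1,18,[(11,1)]),(0,7,[(14,1)]),(0,14,[(19,1)]),(0,11,[(20,1)]),(0,15,[(5,1),(16,1)])]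 [(0,1),(1,1),(15,1),(8,1),(13,1)]))))) (.node 9 1 (.node 18 1 (.leaf [(7,3,[(3,1)]),(2,8,[(4,1)]),(8,19,[(9,1)]),(1,18,[(11,1)]),(0,12,[(12,1)]),(4,13,[(13,1)]),(4,16,[(14,1)]),(5,11,[(15,1)]),(1,2,[(16,1)]),(4,10,[(7,1),(21,1)])] [(0,1),(1,1),(2,1)]) (.node 21 1 (.leaf [(2,8,[(4,1)]),(4,10,[(7,1)]),(1,18,[(11,1)]),(0,12,[(12,1)]),(5,6,[(13,1)]),(5,11,[(15,1)]),(1,2,[(16,1)]),(10,5,[(9,1),(21,1)]),(2,6,[(14,1),(19,1)])] [(0,1),(1,1),(2,1),(18,1)]) (.leaf [(2,8,[(4,1)]),(1,18,[(11,1)]),(0,12,[(12,1)]),(5,11,[(15,1)]),(1,2,[(16,1)]),(2,6,[(14,1),(19,1)]),(2,14,[(3,1),(7,2),(10,1)])] [(0,1),(1,1),(2,1),(18,1),(21,1)]))) (.node 12 1 (.node 15 1 (.node 7 1 (.leaf [(3,5,[(3,1)]),(2,15,[(4,1)]),(0,18,[(10,1)]),(1,1,[(6,1)]),(1,18,[(11,1)]),(1,12,[(13,1)]),(1,8,[(14,1)]),(7,10,[(15,1)]),(1,10,[(16,1)]),(2,5,[(19,1)]),(2,2,[(20,1)])]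 [(0,1),(1,1),(2,1),(9,1)]) (.leaf [(3,5,[(3,1)]),(0,18,[(10,1)]),(1,1,[(6,1)]),(1,18,[(11,1)]),(1,12,[(13,1)]),(1,8,[(14,1)]),(7,10,[(15,1)]),(2,5,[(19,1)]),(2,2,[(20,1)]),(0,15,[(5,1),(16,1)])] [(0,1),(1,1),(2,1),(9,1),(7,1)])) (.node 4 1 (.node 8 1 (.leaf [(6,7,[(3,1)]),(3,1,[(10,1)]),(2,15,[(7,1)]),(1,18,[(11,1)]),(9,18,[(13,1)]),(1,8,[(14,1)]),(2,5,[(19,1)]),(2,2,[(20,1)]),(0,15,[(5,1),(16,1)])] [(0,1),(1,1),(2,1),(9,1),(15,1)]) (.node 13 1 (.node 16 1 (.leaf [(0,15,[(5,1)]),(10,8,[(10,1)]),(2,15,[(7,1)]),(1,18,[(11,1)]),(8,0,[(13,1)]),(1,8,[(14,1)]),(2,5,[(19,1)]),(2,2,[(20,1)])] [(0,1),(1,1),(2,1),(9,1),(8,1),(15,1)]) (.leaf [(2,15,[(7,1)]),(1,18,[(11,1)]),(8,0,[(13,1)]),(1,8,[(14,1)]),(2,5,[(19,1)]),(2,2,[(20,1)])] [(0,1),(1,1),(2,1),(9,1),(8,1),(15,1),(16,1)]))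 (.leaf [(2,15,[(7,1)]),(1,18,[(11,1)]),(1,8,[(14,1)]),(2,5,[(19,1)]),(2,2,[(20,1)]),(0,15,[(5,1),(16,1)])] [(0,1),(1,1),(2,1),(9,1),(15,1),(8,1),(13,1)]))) (.node 8 1 (.node 16 1 (.leaf [(6,7,[(3,1)]),(0,15,[(5,1)]),(3,1,[(10,1)]),(1,10,[(7,1)]),(1,18,[(11,1)]),(9,18,[(13,1)]),(1,8,[(14,1)]),(2,5,[(19,1)]),(2,2,[(20,1)])] [(0,1),(1,1),(2,1),(4,1),(9,1),(15,1)]) (.leaf [(6,7,[(3,1)]),(3,1,[(10,1)]),(1,18,[(11,1)]),(9,18,[(13,1)]),(1,8,[(14,1)]),(2,5,[(19,1)]),(2,2,[(20,1)])] [(0,1),(1,1),(2,1),(4,1),(9,1),(15,1),(16,1)])) (.node 7 1 (.leaf [(1,18,[(11,1)]),(3,3,[(3,1),(10,1)]),(1,8,[(14,1)]),(1,10,[(16,1)]),(2,5,[(19,1)]),(2,2,[(20,1)])] [(0,1),(1,1),(2,1),(4,1),(9,1),(8,1),(15,1)]) (.leaf [(1,18,[(11,1)]),(1,8,[(14,1)]),(2,5,[(19,1)]),(2,2,[(20,1)]),(0,15,[(5,1),(16,1)])]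 [(0,1),(1,1),(2,1),(9,1),(15,1),(4,1),(8,1),(7,1)]))))) (.node 15 1 (.node 16 1 (.leaf [(3,5,[(3,1)]),(0,15,[(5,1)]),(0,18,[(10,1)]),(1,1,[(6,1)]),(1,10,[(7,1)]),(1,18,[(11,1)]),(1,12,[(13,1)]),(7,5,[(14,1)]),(7,10,[(15,1)]),(8,2,[(19,1)]),(3,7,[(20,1)])] [(0,1),(1,1),(2,1),(9,1),(12,1)]) (.node 4 1 (.leaf [(3,5,[(3,1)]),(0,18,[(10,1)]),(1,1,[(6,1)]),(2,15,[(7,1)]),(1,18,[(11,1)]),(1,12,[(13,1)]),(7,5,[(14,1)]),(7,10,[(15,1)]),(10,7,[(19,1)]),(5,13,[(20,1)])] [(0,1),(1,1),(2,1),(9,1),(12,1),(16,1)]) (.leaf [(3,5,[(3,1)]),(0,18,[(10,1)]),(1,1,[(6,1)]),(1,18,[(11,1)]),(1,12,[(13,1)]),(7,5,[(14,1)]),(7,10,[(15,1)])] [(0,1),(1,1),(2,1),(9,1),(12,1),(16,1),(4,1)]))) (.node 4 1 (.node 19 1 (.leaf [(2,15,[(7,1)]),(1,18,[(11,1)]),(3,14,[(13,1)]),(2,6,[(14,1)]),(5,5,[(19,1)]),(5,13,[(20,1)]),(0,15,[(5,1),(16,1)])]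 [(0,1),(1,1),(2,1),(9,1),(12,1),(15,1)]) (.leaf [(2,15,[(7,1)]),(1,18,[(11,1)]),(5,13,[(20,1)]),(0,15,[(5,1),(16,1)]),(8,0,[(13,2)])] [(0,1),(1,1),(2,1),(9,1),(12,1),(15,1),(19,1)])) (.node 16 1 (.node 19 1 (.leaf [(0,15,[(5,1)]),(1,10,[(7,1)]),(1,18,[(11,1)]),(2,6,[(14,1)]),(8,12,[(19,1)]),(3,7,[(20,1)])] [(0,1),(1,1),(2,1),(4,1),(9,1),(12,1),(15,1)]) (.leaf [(0,15,[(5,1)]),(1,10,[(7,1)]),(1,18,[(11,1)]),(3,7,[(20,1)])] [(0,1),(1,1),(2,1),(4,1),(9,1),(12,1),(15,1),(19,1)])) (.node 3 1 (.leaf [(1,18,[(11,1)]),(2,14,[(7,2),(10,1)]),(2,6,[(14,1),(19,1)]),(4,8,[(18,1),(20,1)])] [(0,1),(1,1),(2,1),(4,1),(9,1),(12,1),(15,1),(16,1)]) (.leaf [(1,18,[(11,1)]),(2,6,[(14,1),(19,1)]),(11,9,[(7,2),(8,1),(10,1),(21,1)])] [(1,1),(0,1),(2,1),(9,1),(12,1),(15,1),(4,1),(16,1),(3,1)])))))))))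

def u5 : Tree := .node 18 1 (.node 2 1 (.node 8 1 (.node 17 1 (.leaf [(2,1,[(3,1)]),(0,6,[(2,1)]),(1,3,[(9,1)]),(0,0,[(10,1)]),(0,3,[(7,1)]),(4,11,[(11,1)]),(9,12,[(12,1)]),(0,4,[(13,1)]),(1,7,[(14,1)]),(6,0,[(15,1)]),(4,17,[(0,6),(8,1)]),(2,4,[(19,1)]),(0,11,[(20,1)]),(11,4,[(21,1)]),(0,15,[(5,1),(16,1)])] [(1,1)]) (.node 5 1 (.leaf [(2,19,[(3,1)]),(0,6,[(2,1)]),(1,3,[(9,1)]),(0,0,[(10,1)]),(0,3,[(7,1)]),(6,6,[(12,1)]),(0,4,[(13,1)]),(1,7,[(14,1)]),(0,15,[(16,1)]),(4,17,[(0,6),(8,1)]),(2,4,[(19,1)]),(0,11,[(20,1)]),(8,13,[(21,1)])] [(1,1),(17,1)]) (.leaf [(0,6,[(2,1)]),(1,3,[(9,1)]),(0,0,[(10,1)]),(0,3,[(7,1)]),(0,4,[(13,1)]),(1,7,[(14,1)]),(4,17,[(0,6),(8,1)]),(2,4,[(19,1)]),(0,11,[(20,1)])] [(1,1),(17,1),(5,1)]))) (.node 15 1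 (.node 5 1 (.leaf [(1,4,[(3,1)]),(4,6,[(2,1)]),(1,3,[(9,1)]),(0,0,[(10,1)]),(0,3,[(7,1)]),(0,4,[(13,1)]),(1,7,[(14,1)]),(0,15,[(16,1)]),(6,0,[(17,1)]),(2,4,[(19,1)]),(0,11,[(20,1)])] [(1,1),(8,1)]) (.leaf [(1,3,[(9,1)]),(0,0,[(10,1)]),(0,3,[(7,1)]),(2,0,[(2,1),(6,1)]),(0,4,[(13,1)]),(1,7,[(14,1)]),(6,0,[(17,1)]),(2,4,[(19,1)]),(0,11,[(20,1)])] [(1,1),(8,1),(5,1)])) (.node 17 1 (.leaf [(2,1,[(3,1)]),(1,3,[(9,1)]),(0,0,[(10,1)]),(0,3,[(7,1)]),(4,11,[(11,1)]),(0,4,[(13,1)]),(1,7,[(14,1)]),(2,4,[(19,1)]),(0,11,[(20,1)]),(0,15,[(5,1),(16,1)])] [(1,1),(8,1),(15,1)]) (.leaf [(1,3,[(9,1)]),(0,0,[(10,1)]),(0,3,[(7,1)]),(0,4,[(13,1)]),(1,7,[(14,1)]),(2,4,[(19,1)]),(0,11,[(20,1)]),(0,15,[(5,1),(16,1)])] [(1,1),(8,1),(15,1),(17,1)])))) (.node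 7 1 (.node 0 6 (.node 0 8 (.node 8 1 (.leaf [(8,18,[(0,3)]),(7,1,[(3,1)]),(1,3,[(9,1)]),(0,0,[(10,1)]),(7,16,[(7,1)]),(4,17,[(8,1)]),(0,4,[(13,1)]),(2,13,[(14,1)]),(4,1,[(16,1)]),(6,3,[(17,1)]),(3,17,[(19,1)]),(9,16,[(20,1)])] [(1,1),(2,1)]) (.leaf [(1,3,[(9,1)]),(0,0,[(10,1)]),(7,16,[(7,1)]),(0,4,[(13,1)]),(2,13,[(14,1)]),(4,1,[(16,1)]),(6,3,[(17,1)]),(3,17,[(19,1)]),(9,16,[(20,1)]),(9,13,[(3,1),(6,1),(15,1)])] [(1,1),(2,1),(8,1)])) (.node 0 7 (.node 3 1 (.leaf [(1,3,[(9,1)]),(0,0,[(10,1)]),(7,16,[(7,1)]),(7,1,[(8,1)]),(0,4,[(13,1)]),(2,13,[(14,1)]),(4,1,[(16,1)]),(6,3,[(17,1)]),(3,17,[(19,1)]),(9,16,[(20,1)]),(9,13,[(6,1),(15,1)])] [(0,1),(1,1),(2,1)]) (.leaf [(1,3,[(9,1)]),(0,0,[(10,1)]),(7,16,[(7,1)]),(0,4,[(13,1)]),(2,13,[(14,1)]),(4,1,[(16,1)]),(6,3,[(17,1)]),(3,17,[(19,1)]),(9,16,[(20,1)])]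 [(0,1),(1,1),(2,1),(3,1)])) (.node 3 1 (.node 6 1 (.leaf [(1,3,[(9,1)]),(0,0,[(10,1)]),(10,0,[(7,1)]),(7,1,[(8,1)]),(0,4,[(13,1)]),(2,13,[(14,1)]),(9,13,[(15,1)]),(4,1,[(16,1)]),(6,3,[(17,1)]),(3,17,[(19,1)]),(9,16,[(20,1)])] [(0,1),(1,1),(2,1)]) (.leaf [(1,3,[(9,1)]),(0,0,[(10,1)]),(7,1,[(8,1)]),(0,4,[(13,1)]),(2,13,[(14,1)]),(4,1,[(16,1)]),(6,3,[(17,1)]),(3,17,[(19,1)]),(9,16,[(20,1)])] [(0,1),(1,1),(2,1),(6,1)])) (.leaf [(1,3,[(9,1)]),(0,0,[(10,1)]),(0,4,[(13,1)]),(2,13,[(14,1)]),(4,1,[(16,1)]),(6,3,[(17,1)]),(3,17,[(19,1)]),(9,16,[(20,1)]),(10,0,[(6,1),(7,1)])] [(1,1),(2,1),(0,1),(3,1)])))) (.node 20 1 (.leaf [(9,16,[(0,3)]),(4,8,[(3,1)]),(1,3,[(9,1)]),(0,0,[(10,1)]),(11,5,[(6,1)]),(2,2,[(12,1)]),(0,4,[(13,1)]),(8,4,[(14,1)]),(4,1,[(16,1)]),(6,3,[(17,1)]),(5,14,[(19,1)]),(10,13,[(20,1)])]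 [(1,1),(2,1)]) (.node 14 1 (.leaf [(2,13,[(0,1)]),(2,18,[(3,1)]),(1,3,[(9,1)]),(0,0,[(10,1)]),(4,0,[(12,1)]),(0,4,[(13,1)]),(7,2,[(15,1)]),(4,1,[(16,1)]),(6,3,[(17,1)]),(2,6,[(19,1)])] [(1,1),(2,1),(20,1)]) (.node 0 5 (.node 6 1 (.leaf [(1,3,[(9,1)]),(0,0,[(10,1)]),(10,0,[(7,1)]),(0,4,[(13,1)]),(4,1,[(16,1)]),(6,3,[(17,1)]),(3,17,[(19,1)]),(9,13,[(3,1),(15,1)])] [(0,1),(1,1),(2,1),(14,1),(20,1)]) (.leaf [(1,3,[(9,1)]),(0,0,[(10,1)]),(0,4,[(13,1)]),(4,1,[(16,1)]),(6,3,[(17,1)]),(3,17,[(19,1)])] [(0,1),(1,1),(2,1),(14,1),(20,1),(6,1)])) (.node 6 1 (.node 0 3 (.node 15 1 (.leaf [(9,13,[(3,1)]),(1,3,[(9,1)]),(0,0,[(10,1)]),(10,0,[(7,1)]),(0,4,[(13,1)]),(4,1,[(16,1)]),(6,3,[(17,1)]),(10,11,[(19,1)])] [(1,1),(0,2),(2,1),(14,1),(20,1)])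 (.leaf [(1,3,[(9,1)]),(0,0,[(10,1)]),(10,0,[(7,1)]),(0,4,[(13,1)]),(4,1,[(16,1)]),(6,3,[(17,1)]),(5,5,[(19,2)])] [(1,1),(0,2),(2,1),(14,1),(20,1),(15,1)])) (.node 15 1 (.leaf [(9,13,[(3,1)]),(1,3,[(9,1)]),(0,0,[(10,1)]),(0,4,[(13,1)]),(4,1,[(16,1)]),(6,3,[(17,1)]),(10,11,[(19,1)])] [(0,1),(1,1),(2,1),(14,1),(20,1)]) (.leaf [(1,3,[(9,1)]),(0,0,[(10,1)]),(0,4,[(13,1)]),(4,1,[(16,1)]),(6,3,[(17,1)]),(5,5,[(19,2)])] [(1,1),(2,1),(14,1),(20,1),(0,1),(15,1)]))) (.leaf [(1,3,[(9,1)]),(0,0,[(10,1)]),(0,4,[(13,1)]),(4,1,[(16,1)]),(6,3,[(17,1)]),(5,5,[(19,2)])] [(1,1),(2,1),(20,1),(14,1),(0,3),(6,1)])))))) (.node 14 1 (.leaf [(2,13,[(0,1)]),(2,18,[(3,1)]),(1,3,[(9,1)]),(0,0,[(10,1)]),(4,0,[(12,1)]),(0,4,[(13,1)]),(7,2,[(15,1)]),(5,2,[(16,1)]),(5,10,[(17,1)]),(2,6,[(19,1)]),(8,4,[(20,1)])]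 [(1,1),(2,1),(7,1)]) (.node 20 1 (.node 0 9 (.leaf [(4,8,[(3,1)]),(1,3,[(9,1)]),(0,0,[(10,1)]),(10,12,[(8,1)]),(2,2,[(12,1)]),(0,4,[(13,1)]),(6,15,[(16,1)]),(8,16,[(17,1)]),(5,14,[(19,1)]),(10,13,[(20,1)])] [(1,1),(2,1),(7,1),(14,1)]) (.node 0 8 (.leaf [(4,8,[(3,1)]),(1,3,[(9,1)]),(0,0,[(10,1)]),(2,2,[(12,1)]),(0,4,[(13,1)]),(6,15,[(16,1)]),(8,16,[(17,1)]),(5,14,[(19,1)]),(10,13,[(20,1)]),(4,17,[(8,2)])] [(0,1),(1,1),(2,1),(7,1),(14,1)]) (.leaf [(4,8,[(3,1)]),(1,3,[(9,1)]),(0,0,[(10,1)]),(2,2,[(12,1)]),(0,4,[(13,1)]),(6,15,[(16,1)]),(8,16,[(17,1)]),(5,14,[(19,1)]),(10,13,[(20,1)])] [(1,1),(2,1),(7,1),(14,1),(0,6)]))) (.node 17 1 (.leaf [(2,1,[(3,1)]),(1,3,[(9,1)]),(0,0,[(10,1)]),(4,11,[(11,1)]),(0,4,[(13,1)]),(6,0,[(15,1)]),(8,11,[(19,1)]),(0,15,[(5,1),(16,1)]),(4,17,[(0,6),(8,2)])]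 [(1,1),(2,1),(7,1),(14,1),(20,1)]) (.node 16 1 (.leaf [(0,15,[(5,1)]),(1,3,[(9,1)]),(0,0,[(10,1)]),(0,4,[(13,1)]),(6,8,[(19,1)]),(4,17,[(0,6),(8,2)])] [(1,1),(2,1),(7,1),(14,1),(17,1),(20,1)]) (.leaf [(1,3,[(9,1)]),(0,0,[(10,1)]),(0,4,[(13,1)]),(4,17,[(0,6),(8,2)]),(5,5,[(19,2)])] [(1,1),(2,1),(7,1),(14,1),(20,1),(17,1),(16,1)]))))))) (.node 2 1 (.node 8 1 (.node 17 1 (.leaf [(2,1,[(3,1)]),(0,6,[(2,1)]),(0,1,[(9,1)]),(0,0,[(10,1)]),(0,3,[(7,1)]),(4,11,[(11,1)]),(9,12,[(12,1)]),(0,4,[(13,1)]),(1,7,[(14,1)]),(6,0,[(15,1)]),(4,17,[(0,6),(8,1)]),(2,4,[(19,1)]),(0,11,[(20,1)]),(11,4,[(21,1)]),(0,15,[(5,1),(16,1)])] [(1,1),(18,1)]) (.node 5 1 (.leaf [(2,19,[(3,1)]),(0,6,[(2,1)]),(0,1,[(9,1)]),(0,0,[(10,1)]),(0,3,[(7,1)]),(6,6,[(12,1)]),(0,4,[(13,1)]),(1,7,[(14,1)]),(0,15,[(16,1)]),(4,17,[(0,6),(8,1)]),(2,4,[(19,1)]),(0,11,[(20,1)]),(8,13,[(21,1)])]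 [(1,1),(17,1),(18,1)]) (.leaf [(0,6,[(2,1)]),(0,1,[(9,1)]),(0,0,[(10,1)]),(0,3,[(7,1)]),(0,4,[(13,1)]),(1,7,[(14,1)]),(4,17,[(0,6),(8,1)]),(2,4,[(19,1)]),(0,11,[(20,1)])] [(1,1),(18,1),(17,1),(5,1)]))) (.node 15 1 (.node 5 1 (.leaf [(1,4,[(3,1)]),(4,6,[(2,1)]),(0,1,[(9,1)]),(0,0,[(10,1)]),(0,3,[(7,1)]),(0,4,[(13,1)]),(1,7,[(14,1)]),(0,15,[(16,1)]),(6,0,[(17,1)]),(2,4,[(19,1)]),(0,11,[(20,1)])] [(1,1),(8,1),(18,1)]) (.leaf [(0,1,[(9,1)]),(0,0,[(10,1)]),(0,3,[(7,1)]),(2,0,[(2,1),(6,1)]),(0,4,[(13,1)]),(1,7,[(14,1)]),(6,0,[(17,1)]),(2,4,[(19,1)]),(0,11,[(20,1)])] [(1,1),(8,1),(18,1),(5,1)])) (.node 17 1 (.leaf [(2,1,[(3,1)]),(0,1,[(9,1)]),(0,0,[(10,1)]),(0,3,[(7,1)]),(4,11,[(11,1)]),(0,4,[(13,1)]),(1,7,[(14,1)]),(2,4,[(19,1)]),(0,11,[(20,1)]),(0,15,[(5,1),(16,1)])]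 [(1,1),(8,1),(15,1),(18,1)]) (.leaf [(0,1,[(9,1)]),(0,0,[(10,1)]),(0,3,[(7,1)]),(0,4,[(13,1)]),(1,7,[(14,1)]),(2,4,[(19,1)]),(0,11,[(20,1)]),(0,15,[(5,1),(16,1)])] [(1,1),(18,1),(8,1),(15,1),(17,1)])))) (.node 17 1 (.leaf [(2,1,[(3,1)]),(3,13,[(9,1)]),(0,0,[(10,1)]),(6,3,[(7,1)]),(4,11,[(11,1)]),(0,4,[(13,1)]),(5,10,[(14,1)]),(6,0,[(15,1)]),(8,11,[(19,1)]),(8,16,[(20,1)]),(0,15,[(5,1),(16,1)]),(4,17,[(0,6),(8,2)])] [(1,1),(2,1),(18,1)]) (.node 19 1 (.node 0 8 (.leaf [(2,10,[(9,1)]),(0,0,[(10,1)]),(3,17,[(7,1)]),(0,4,[(13,1)]),(2,6,[(14,1)]),(6,8,[(16,1)]),(5,5,[(19,1)]),(5,14,[(20,1)]),(4,17,[(8,2)])] [(1,1),(2,1),(17,1),(18,1)]) (.node 0 5 (.leaf [(2,10,[(9,1)]),(0,0,[(10,1)]),(3,17,[(7,1)]),(0,4,[(13,1)]),(2,6,[(14,1)]),(6,8,[(16,1)]),(5,5,[(19,1)]),(5,14,[(20,1)])]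 [(1,1),(0,3),(2,1),(17,1),(18,1)]) (.leaf [(2,10,[(9,1)]),(0,0,[(10,1)]),(0,4,[(13,1)]),(2,6,[(14,1)]),(6,8,[(16,1)]),(5,5,[(19,1)]),(5,14,[(20,1)]),(10,11,[(6,1),(7,1),(15,1)])] [(1,1),(2,1),(17,1),(18,1),(0,3)]))) (.node 16 1 (.leaf [(0,15,[(5,1)]),(3,11,[(9,1)]),(0,0,[(10,1)]),(4,1,[(7,1)]),(0,4,[(13,1)]),(5,2,[(14,1)]),(6,15,[(20,1)]),(4,17,[(0,6),(8,2)])] [(1,1),(2,1),(17,1),(18,1),(19,1)]) (.node 9 1 (.leaf [(0,0,[(10,1)]),(0,19,[(7,1)]),(0,12,[(12,1)]),(0,4,[(13,1)]),(1,15,[(21,1)]),(4,17,[(0,6),(8,2)])] [(1,1),(2,1),(16,1),(17,1),(18,1),(19,1)]) (.node 14 1 (.node 0 8 (.node 8 1 (.leaf [(0,0,[(10,1)]),(4,17,[(8,1)]),(4,0,[(12,1)]),(0,4,[(13,1)]),(10,19,[(21,1)])] [(1,1),(2,1),(9,1),(16,1),(17,1),(18,1),(19,1)]) (.leaf [(0,0,[(10,1)]),(4,0,[(12,1)]),(0,4,[(13,1)]),(7,12,[(15,1),(21,1)])]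 [(1,1),(2,1),(9,1),(16,1),(17,1),(18,1),(19,1),(8,1)])) (.node 0 6 (.node 21 1 (.leaf [(0,0,[(10,1)]),(10,19,[(8,1)]),(4,0,[(12,1)]),(0,4,[(13,1)]),(7,12,[(15,1)])] [(1,1),(0,2),(2,1),(9,1),(16,1),(17,1),(18,1),(19,1)]) (.leaf [(0,0,[(10,1)]),(4,0,[(12,1)]),(0,4,[(13,1)])] [(1,1),(0,2),(2,1),(9,1),(16,1),(17,1),(18,1),(19,1),(21,1)])) (.leaf [(0,0,[(10,1)]),(4,0,[(12,1)]),(0,4,[(13,1)]),(7,12,[(15,1),(21,1)])] [(1,1),(2,1),(9,1),(16,1),(17,1),(18,1),(19,1),(0,4)]))) (.leaf [(0,0,[(10,1)]),(0,4,[(13,1)]),(4,17,[(0,6),(8,2)]),(2,2,[(12,1),(20,1)])] [(1,1),(18,1),(2,1),(17,1),(19,1),(16,1),(9,1),(14,1)])))))))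

def u6 : Tree := .node 10 1 (.node 9 1 (.node 0 1 (.leaf [(0,1,[(2,1)]),(0,19,[(7,1)]),(0,12,[(12,1)]),(1,6,[(13,1)]),(0,18,[(15,1)]),(3,11,[(16,1)]),(3,13,[(17,1)]),(1,3,[(18,1)]),(2,10,[(19,1)]),(1,14,[(20,1)]),(1,15,[(21,1)])] [(0,1),(1,1)]) (.node 18 1 (.leaf [(0,1,[(2,1)]),(4,19,[(9,1)]),(0,19,[(7,1)]),(0,12,[(12,1)]),(1,6,[(13,1)]),(4,16,[(14,1)]),(0,18,[(15,1)]),(3,11,[(16,1)]),(3,13,[(17,1)]),(2,10,[(19,1)]),(8,3,[(20,1)])] [(0,1),(1,1)]) (.leaf [(0,1,[(2,1)]),(0,19,[(7,1)]),(0,12,[(12,1)]),(1,6,[(13,1)]),(0,18,[(15,1)]),(3,11,[(16,1)]),(3,13,[(17,1)]),(2,10,[(19,1)]),(10,5,[(9,1),(21,2)])] [(1,1),(0,1),(18,1)]))) (.node 2 1 (.node 0 1 (.leaf [(0,3,[(7,1)]),(3,9,[(8,1)]),(0,16,[(12,1)]),(0,4,[(13,1)]),(1,7,[(14,1)]),(0,18,[(15,1)]),(3,16,[(16,1)]),(4,4,[(17,1)]),(2,4,[(19,1)]),(0,11,[(20,1)])]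 [(0,1),(1,1),(9,1)]) (.node 8 1 (.leaf [(0,6,[(2,1)]),(5,7,[(5,1)]),(0,3,[(7,1)]),(6,9,[(12,1)]),(7,14,[(13,1)]),(1,7,[(14,1)]),(0,18,[(15,1)]),(8,14,[(17,1)]),(2,4,[(19,1)]),(0,11,[(20,1)]),(7,8,[(11,1),(16,1)])] [(0,1),(1,1),(9,1)]) (.node 16 1 (.leaf [(0,15,[(5,1)]),(0,3,[(7,1)]),(7,8,[(11,1)]),(7,17,[(12,1)]),(7,19,[(13,1)]),(1,7,[(14,1)]),(0,18,[(15,1)]),(2,4,[(19,1)]),(0,11,[(20,1)]),(2,1,[(3,1),(17,1)])] [(0,1),(1,1),(9,1),(8,1)]) (.node 17 1 (.leaf [(2,1,[(3,1)]),(0,3,[(7,1)]),(4,11,[(11,1)]),(9,17,[(12,1)]),(5,3,[(13,1)]),(1,7,[(14,1)]),(0,18,[(15,1)]),(2,4,[(19,1)]),(0,11,[(20,1)])] [(0,1),(1,1),(9,1),(8,1),(16,1)]) (.leaf [(0,3,[(7,1)]),(1,7,[(14,1)]),(0,18,[(15,1)]),(2,4,[(19,1)]),(0,11,[(20,1)]),(3,19,[(2,1),(5,1),(13,2)])]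 [(1,1),(9,1),(0,1),(8,1),(16,1),(17,1)]))))) (.node 7 1 (.node 8 1 (.leaf [(0,9,[(0,1)]),(7,13,[(7,1)]),(6,9,[(12,1)]),(8,8,[(13,1)]),(0,18,[(15,1)]),(4,1,[(16,1)]),(6,3,[(17,1)]),(6,2,[(19,1)]),(6,4,[(20,1)])] [(1,1),(2,1),(9,1)]) (.node 3 1 (.leaf [(0,9,[(0,1)]),(2,14,[(7,1)]),(3,3,[(12,1)]),(0,18,[(15,1)]),(4,1,[(16,1)]),(6,3,[(17,1)]),(6,2,[(19,1)]),(6,4,[(20,1)])] [(1,1),(2,1),(9,1),(8,1)]) (.leaf [(0,9,[(0,1)]),(0,18,[(15,1)]),(4,1,[(16,1)]),(6,3,[(17,1)]),(6,2,[(19,1)]),(6,4,[(20,1)]),(4,0,[(12,1),(14,1)])] [(1,1),(2,1),(9,1),(8,1),(3,1)]))) (.node 16 1 (.leaf [(3,16,[(0,1)]),(0,15,[(5,1)]),(7,8,[(11,1)]),(7,17,[(12,1)]),(7,19,[(13,1)]),(5,2,[(14,1)]),(0,18,[(15,1)]),(6,8,[(19,1)]),(6,15,[(20,1)]),(2,1,[(3,1),(17,1)])] [(1,1),(2,1),(9,1),(7,1)])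 (.node 17 1 (.leaf [(4,4,[(0,1)]),(2,1,[(3,1)]),(4,11,[(11,1)]),(9,17,[(12,1)]),(5,3,[(13,1)]),(5,10,[(14,1)]),(0,18,[(15,1)]),(8,11,[(19,1)]),(8,16,[(20,1)])] [(1,1),(2,1),(9,1),(7,1),(16,1)]) (.node 20 1 (.node 18 1 (.leaf [(1,14,[(0,1)]),(4,8,[(3,1)]),(2,2,[(12,1)]),(3,18,[(13,1)]),(0,18,[(15,1)]),(5,14,[(19,1)]),(10,13,[(20,1)])] [(1,1),(2,1),(9,1),(7,1),(16,1),(17,1)]) (.leaf [(1,14,[(0,1)]),(2,2,[(12,1)]),(3,18,[(13,1)]),(0,18,[(15,1)]),(5,14,[(19,1)])] [(1,1),(2,1),(9,1),(7,1),(16,1),(17,1),(18,1)])) (.node 12 1 (.leaf [(0,16,[(0,1)]),(6,9,[(8,1)]),(4,0,[(14,1)]),(0,18,[(15,1)]),(8,10,[(19,1)])] [(1,1),(2,1),(9,1),(7,1),(16,1),(17,1),(20,1)]) (.node 13 1 (.leaf [(0,4,[(0,1)]),(0,18,[(15,1)]),(3,14,[(19,1)]),(8,6,[(5,1),(8,1),(13,1)])]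 [(1,1),(2,1),(9,1),(7,1),(12,1),(16,1),(17,1),(20,1)]) (.node 19 1 (.leaf [(2,6,[(14,1)]),(0,18,[(15,1)]),(5,5,[(19,1)])] [(1,1),(0,2),(2,1),(9,1),(7,1),(12,1),(13,1),(16,1),(17,1),(20,1)]) (.leaf [(0,18,[(15,1)])] [(1,1),(0,2),(9,1),(2,1),(7,1),(16,1),(17,1),(20,1),(12,1),(13,1),(19,1)])))))))))) (.node 2 1 (.node 5 1 (.node 8 1 (.node 17 1 (.leaf [(2,19,[(3,1)]),(0,6,[(2,1)]),(0,1,[(9,1)]),(0,3,[(7,1)]),(4,11,[(11,1)]),(6,6,[(12,1)]),(6,10,[(13,1)]),(1,7,[(14,1)]),(6,0,[(15,1)]),(0,15,[(16,1)]),(2,4,[(19,1)]),(0,11,[(20,1)]),(8,13,[(21,1)])] [(1,1),(0,2),(10,1)]) (.leaf [(2,19,[(3,1)]),(0,6,[(2,1)]),(0,1,[(9,1)]),(0,3,[(7,1)]),(6,6,[(12,1)]),(6,10,[(13,1)]),(1,7,[(14,1)]),(0,15,[(16,1)]),(2,4,[(19,1)]),(0,11,[(20,1)]),(8,13,[(21,1)])]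 [(1,1),(0,2),(10,1),(17,1)])) (.node 13 1 (.leaf [(0,4,[(0,1)]),(0,1,[(9,1)]),(0,3,[(7,1)]),(1,7,[(14,1)]),(1,12,[(15,1)]),(0,15,[(16,1)]),(3,19,[(2,1),(13,1)]),(5,3,[(17,1)]),(2,4,[(19,1)]),(0,11,[(20,1)])] [(1,1),(10,1),(8,1)]) (.node 15 1 (.leaf [(1,4,[(3,1)]),(4,6,[(2,1)]),(0,1,[(9,1)]),(0,3,[(7,1)]),(1,7,[(14,1)]),(0,15,[(16,1)]),(6,0,[(17,1)]),(2,4,[(19,1)]),(0,11,[(20,1)])] [(1,1),(0,2),(10,1),(8,1),(13,1)]) (.node 17 1 (.leaf [(2,1,[(3,1)]),(0,1,[(9,1)]),(0,3,[(7,1)]),(4,11,[(11,1)]),(1,7,[(14,1)]),(0,15,[(16,1)]),(2,4,[(19,1)]),(0,11,[(20,1)])] [(1,1),(0,2),(10,1),(8,1),(13,1),(15,1)]) (.leaf [(0,1,[(9,1)]),(0,3,[(7,1)]),(1,7,[(14,1)]),(0,15,[(16,1)]),(2,4,[(19,1)]),(0,11,[(20,1)])] [(1,1),(0,2),(10,1),(8,1),(13,1),(15,1),(17,1)])))))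 (.node 17 1 (.node 8 1 (.leaf [(2,1,[(3,1)]),(0,6,[(2,1)]),(0,1,[(9,1)]),(0,3,[(7,1)]),(4,11,[(11,1)]),(9,12,[(12,1)]),(5,3,[(13,1)]),(1,7,[(14,1)]),(6,0,[(15,1)]),(2,4,[(19,1)]),(0,11,[(20,1)]),(11,4,[(21,1)])] [(1,1),(0,2),(5,1),(10,1)]) (.leaf [(2,1,[(3,1)]),(0,1,[(9,1)]),(0,3,[(7,1)]),(4,11,[(11,1)]),(5,3,[(13,1)]),(1,7,[(14,1)]),(6,0,[(15,1)]),(2,4,[(19,1)]),(0,11,[(20,1)])] [(1,1),(0,2),(5,1),(10,1),(8,1)])) (.node 0 1 (.node 2 2 (.leaf [(0,1,[(9,1)]),(0,3,[(7,1)]),(0,6,[(8,1)]),(0,4,[(13,1)]),(1,7,[(14,1)]),(2,4,[(19,1)]),(0,11,[(20,1)]),(2,0,[(6,1),(15,1)])] [(0,1),(1,1),(5,1),(10,1),(17,1)]) (.leaf [(0,1,[(9,1)]),(0,3,[(7,1)]),(0,4,[(13,1)]),(1,7,[(14,1)]),(2,4,[(19,1)]),(0,11,[(20,1)])] [(0,1),(1,1),(5,1),(10,1),(17,1),(2,1)]))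 (.node 2 2 (.node 15 1 (.leaf [(0,1,[(9,1)]),(2,0,[(6,1)]),(0,3,[(7,1)]),(0,6,[(8,1)]),(1,12,[(13,1)]),(1,7,[(14,1)]),(2,4,[(19,1)]),(0,11,[(20,1)])] [(0,1),(1,1),(5,1),(10,1),(17,1)]) (.leaf [(0,1,[(9,1)]),(0,3,[(7,1)]),(0,6,[(8,1)]),(1,7,[(14,1)]),(2,4,[(19,1)]),(0,11,[(20,1)])] [(0,1),(1,1),(5,1),(10,1),(17,1),(15,1)])) (.leaf [(0,1,[(9,1)]),(0,3,[(7,1)]),(1,7,[(14,1)]),(2,4,[(19,1)]),(0,11,[(20,1)]),(1,12,[(13,1),(15,1)])] [(1,1),(10,1),(5,1),(17,1),(0,1),(2,1)]))))) (.node 9 1 (.node 18 1 (.leaf [(1,3,[(0,1)]),(4,19,[(9,1)]),(0,19,[(7,1)]),(0,12,[(12,1)]),(1,6,[(13,1)]),(4,16,[(14,1)]),(5,4,[(15,1)]),(3,11,[(16,1)]),(3,13,[(17,1)]),(2,10,[(19,1)]),(8,3,[(20,1)])] [(1,1),(2,1),(10,1)]) (.node 21 1 (.leaf [(1,15,[(0,1)]),(0,19,[(7,1)]),(0,12,[(12,1)]),(1,6,[(13,1)]),(6,1,[(15,1)]),(3,11,[(16,1)]),(3,13,[(17,1)]),(2,10,[(19,1)]),(10,5,[(9,1),(21,1)])]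 [(1,1),(2,1),(10,1),(18,1)]) (.leaf [(0,19,[(7,1)]),(0,12,[(12,1)]),(1,6,[(13,1)]),(3,11,[(16,1)]),(3,13,[(17,1)]),(2,10,[(19,1)])] [(1,1),(0,2),(2,1),(10,1),(18,1),(21,1)]))) (.node 20 1 (.node 18 1 (.node 0 1 (.leaf [(4,8,[(3,1)]),(2,2,[(12,1)]),(3,18,[(13,1)]),(8,4,[(14,1)]),(6,15,[(16,1)]),(8,16,[(17,1)]),(5,14,[(19,1)]),(10,13,[(20,1)]),(11,5,[(6,1),(7,1)])] [(0,1),(1,1),(2,1),(9,1),(10,1)]) (.leaf [(4,8,[(3,1)]),(2,2,[(12,1)]),(3,18,[(13,1)]),(6,15,[(16,1)]),(8,16,[(17,1)]),(5,14,[(19,1)]),(10,13,[(20,1)]),(7,2,[(14,1),(15,1)])] [(1,1),(2,1),(9,1),(10,1),(0,1)])) (.leaf [(2,2,[(12,1)]),(3,18,[(13,1)]),(6,15,[(16,1)]),(8,16,[(17,1)]),(5,14,[(19,1)]),(7,12,[(14,1),(15,1),(21,1)])] [(1,1),(0,2),(2,1),(9,1),(10,1),(18,1)])) (.node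 17 1 (.leaf [(2,1,[(3,1)]),(6,3,[(7,1)]),(4,11,[(11,1)]),(5,3,[(13,1)]),(5,10,[(14,1)]),(6,0,[(15,1)]),(8,11,[(19,1)]),(0,15,[(5,1),(16,1)])] [(1,1),(0,2),(2,1),(9,1),(10,1),(20,1)]) (.node 13 1 (.node 5 1 (.node 8 1 (.leaf [(0,4,[(0,1)]),(10,1,[(12,1)]),(8,6,[(13,1)]),(1,12,[(15,1)]),(0,15,[(16,1)]),(3,14,[(19,1)])] [(1,1),(2,1),(9,1),(10,1),(17,1),(20,1)]) (.leaf [(0,4,[(0,1)]),(1,12,[(15,1)]),(0,15,[(16,1)]),(3,14,[(19,1)]),(4,0,[(12,1),(14,1)])] [(1,1),(2,1),(9,1),(10,1),(17,1),(20,1),(8,1)])) (.node 14 1 (.leaf [(0,4,[(0,1)]),(4,0,[(12,1)]),(1,12,[(15,1)]),(5,2,[(16,1)]),(3,14,[(19,1)])] [(1,1),(2,1),(5,1),(9,1),(10,1),(17,1),(20,1)]) (.leaf [(0,4,[(0,1)]),(1,12,[(15,1)]),(3,14,[(19,1)]),(4,1,[(7,1),(16,1)])] [(1,1),(2,1),(9,1),(10,1),(17,1),(20,1),(5,1),(14,1)])))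 (.node 14 1 (.node 15 1 (.leaf [(4,0,[(12,1)]),(5,2,[(16,1)]),(7,2,[(18,1)]),(2,6,[(19,1)]),(7,12,[(21,1)])] [(1,1),(0,2),(2,1),(9,1),(10,1),(13,1),(17,1),(20,1)]) (.leaf [(4,0,[(12,1)]),(5,2,[(16,1)]),(2,6,[(19,1)])] [(1,1),(0,2),(2,1),(9,1),(10,1),(13,1),(17,1),(20,1),(15,1)])) (.node 7 1 (.node 6 1 (.node 15 1 (.leaf [(4,1,[(16,1)]),(10,11,[(19,1)]),(9,13,[(3,1),(18,1)])] [(1,1),(0,2),(2,1),(9,1),(10,1),(13,1),(14,1),(17,1),(20,1)]) (.leaf [(4,1,[(16,1)]),(5,5,[(19,2)])] [(1,1),(0,2),(2,1),(9,1),(10,1),(13,1),(14,1),(17,1),(20,1),(15,1)])) (.leaf [(4,1,[(16,1)]),(5,5,[(19,2)])] [(1,1),(0,2),(2,1),(9,1),(10,1),(13,1),(14,1),(17,1),(20,1),(6,1)])) (.node 16 1 (.leaf [(0,15,[(5,1)]),(6,8,[(19,1)])] [(1,1),(0,2),(2,1),(9,1),(10,1),(7,1),(13,1),(14,1),(17,1),(20,1)])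 (.leaf [(5,5,[(19,2)])] [(1,1),(0,2),(10,1),(2,1),(9,1),(20,1),(17,1),(13,1),(14,1),(7,1),(16,1)])))))))))

def u7 : Tree := .node 2 1 (.node 8 1 (.node 10 1 (.leaf [(3,9,[(0,1)]),(0,6,[(2,1)]),(5,7,[(5,1)]),(0,1,[(9,1)]),(0,3,[(7,1)]),(6,9,[(12,1)]),(7,14,[(13,1)]),(1,7,[(14,1)]),(0,18,[(15,1)]),(8,14,[(17,1)]),(2,4,[(19,1)]),(0,11,[(20,1)]),(7,8,[(11,1),(16,1)])] [(1,1),(4,1)]) (.node 17 1 (.leaf [(2,1,[(3,1)]),(0,6,[(2,1)]),(0,1,[(9,1)]),(0,3,[(7,1)]),(4,11,[(11,1)]),(9,12,[(12,1)]),(5,3,[(13,1)]),(1,7,[(14,1)]),(6,0,[(15,1)]),(4,17,[(0,8),(8,1)]),(2,4,[(19,1)]),(0,11,[(20,1)]),(11,4,[(21,1)]),(0,15,[(5,1),(16,1)])] [(1,1),(4,1),(10,1)]) (.node 5 1 (.leaf [(2,19,[(3,1)]),(0,6,[(2,1)]),(0,1,[(9,1)]),(0,3,[(7,1)]),(6,6,[(12,1)]),(6,10,[(13,1)]),(1,7,[(14,1)]),(0,15,[(16,1)]),(4,17,[(0,8),(8,1)]),(2,4,[(19,1)]),(0,11,[(20,1)]),(8,13,[(21,1)])]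 [(1,1),(4,1),(10,1),(17,1)]) (.node 0 8 (.leaf [(0,6,[(2,1)]),(0,1,[(9,1)]),(0,3,[(7,1)]),(4,17,[(8,1)]),(0,4,[(13,1)]),(1,7,[(14,1)]),(2,4,[(19,1)]),(0,11,[(20,1)])] [(1,1),(4,1),(5,1),(10,1),(17,1)]) (.node 0 1 (.leaf [(0,6,[(2,1)]),(0,1,[(9,1)]),(0,3,[(7,1)]),(0,4,[(13,1)]),(1,7,[(14,1)]),(2,4,[(19,1)]),(0,11,[(20,1)])] [(1,1),(0,7),(4,1),(5,1),(10,1),(17,1)]) (.leaf [(0,6,[(2,1)]),(0,1,[(9,1)]),(0,3,[(7,1)]),(1,7,[(14,1)]),(2,4,[(19,1)]),(0,11,[(20,1)]),(1,12,[(13,1),(15,1)])] [(1,1),(4,1),(10,1),(17,1),(5,1),(0,1)])))))) (.node 10 1 (.node 0 1 (.leaf [(0,0,[(0,1)]),(0,1,[(9,1)]),(0,3,[(7,1)]),(0,16,[(12,1)]),(0,4,[(13,1)]),(1,7,[(14,1)]),(0,18,[(15,1)]),(3,16,[(16,1)]),(4,4,[(17,1)]),(2,4,[(19,1)]),(0,11,[(20,1)])] [(1,1),(4,1),(8,1)])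 (.node 16 1 (.leaf [(0,15,[(5,1)]),(0,1,[(9,1)]),(0,3,[(7,1)]),(7,8,[(11,1)]),(7,17,[(12,1)]),(7,19,[(13,1)]),(1,7,[(14,1)]),(0,18,[(15,1)]),(2,4,[(19,1)]),(0,11,[(20,1)]),(2,1,[(3,1),(17,1)])] [(0,1),(1,1),(4,1),(8,1)]) (.node 17 1 (.leaf [(2,1,[(3,1)]),(0,1,[(9,1)]),(0,3,[(7,1)]),(4,11,[(11,1)]),(5,3,[(13,1)]),(1,7,[(14,1)]),(0,18,[(15,1)]),(2,4,[(19,1)]),(0,11,[(20,1)])] [(0,1),(1,1),(4,1),(8,1),(16,1)]) (.leaf [(0,1,[(9,1)]),(0,3,[(7,1)]),(1,7,[(14,1)]),(0,18,[(15,1)]),(2,4,[(19,1)]),(0,11,[(20,1)]),(3,19,[(2,1),(5,1),(13,2)])] [(1,1),(4,1),(8,1),(0,1),(16,1),(17,1)])))) (.node 15 1 (.node 5 1 (.leaf [(1,4,[(3,1)]),(4,6,[(2,1)]),(0,1,[(9,1)]),(0,3,[(7,1)]),(1,12,[(13,1)]),(1,7,[(14,1)]),(0,15,[(16,1)]),(6,0,[(17,1)]),(2,4,[(19,1)]),(0,11,[(20,1)])]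 [(1,1),(4,1),(10,1),(8,1)]) (.leaf [(0,1,[(9,1)]),(0,3,[(7,1)]),(2,0,[(2,1),(6,1)]),(1,12,[(13,1)]),(1,7,[(14,1)]),(6,0,[(17,1)]),(2,4,[(19,1)]),(0,11,[(20,1)])] [(1,1),(4,1),(10,1),(8,1),(5,1)])) (.node 13 1 (.node 5 1 (.leaf [(0,4,[(0,1)]),(0,1,[(9,1)]),(0,3,[(7,1)]),(1,7,[(14,1)]),(0,15,[(16,1)]),(3,19,[(2,1),(13,1)]),(5,3,[(17,1)]),(2,4,[(19,1)]),(0,11,[(20,1)])] [(1,1),(4,1),(10,1),(8,1),(15,1)]) (.leaf [(0,4,[(0,1)]),(0,1,[(9,1)]),(0,3,[(7,1)]),(1,7,[(14,1)]),(5,3,[(17,1)]),(2,4,[(19,1)]),(0,11,[(20,1)])] [(1,1),(4,1),(10,1),(8,1),(15,1),(5,1)])) (.node 17 1 (.leaf [(2,1,[(3,1)]),(0,1,[(9,1)]),(0,3,[(7,1)]),(4,11,[(11,1)]),(1,7,[(14,1)]),(2,4,[(19,1)]),(0,11,[(20,1)]),(0,15,[(5,1),(16,1)])] [(1,1),(4,1),(10,1),(8,1),(13,1),(15,1)])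 (.leaf [(0,1,[(9,1)]),(0,3,[(7,1)]),(1,7,[(14,1)]),(2,4,[(19,1)]),(0,11,[(20,1)]),(0,15,[(5,1),(16,1)])] [(1,1),(4,1),(8,1),(10,1),(15,1),(13,1),(17,1)])))))) (.node 0 1 (.node 14 1 (.node 0 3 (.node 21 1 (.leaf [(1,15,[(9,1)]),(0,0,[(10,1)]),(4,0,[(12,1)]),(0,4,[(13,1)]),(10,19,[(0,3),(8,1)]),(7,12,[(15,1)]),(5,2,[(16,1)]),(5,10,[(17,1)]),(2,13,[(18,1)]),(2,6,[(19,1)])] [(1,1),(2,1),(4,1)]) (.leaf [(0,0,[(10,1)]),(4,0,[(12,1)]),(0,4,[(13,1)]),(5,2,[(16,1)]),(5,10,[(17,1)]),(2,13,[(18,1)]),(2,6,[(19,1)]),(4,17,[(0,5),(8,2)])] [(1,1),(2,1),(4,1),(21,1)])) (.node 10 1 (.node 9 1 (.leaf [(0,0,[(0,1)]),(0,9,[(7,1)]),(4,0,[(12,1)]),(0,4,[(13,1)]),(0,18,[(15,1)]),(5,2,[(16,1)]),(5,10,[(17,1)]),(1,3,[(18,1)]),(2,6,[(19,1)]),(1,14,[(20,1)]),(1,15,[(21,1)])]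 [(1,1),(2,1),(4,1)]) (.leaf [(0,0,[(0,1)]),(0,9,[(7,1)]),(4,0,[(12,1)]),(0,4,[(13,1)]),(0,18,[(15,1)]),(5,2,[(16,1)]),(5,10,[(17,1)]),(2,6,[(19,1)]),(1,14,[(20,1)])] [(1,1),(2,1),(4,1),(9,1)])) (.node 18 1 (.node 0 2 (.leaf [(2,18,[(3,1)]),(1,3,[(9,1)]),(4,0,[(12,1)]),(0,4,[(13,1)]),(7,2,[(15,1)]),(5,2,[(16,1)]),(5,10,[(17,1)]),(2,6,[(19,1)]),(8,4,[(20,1)])] [(0,1),(1,1),(2,1),(4,1),(10,1)]) (.leaf [(1,3,[(9,1)]),(4,0,[(12,1)]),(0,4,[(13,1)]),(7,2,[(15,1)]),(5,2,[(16,1)]),(5,10,[(17,1)]),(2,6,[(19,1)]),(8,4,[(20,1)])] [(1,1),(2,1),(4,1),(10,1),(0,1)])) (.node 21 1 (.leaf [(1,15,[(9,1)]),(4,0,[(12,1)]),(0,4,[(13,1)]),(7,12,[(15,1)]),(5,2,[(16,1)]),(5,10,[(17,1)]),(2,6,[(19,1)])] [(1,1),(0,2),(2,1),(4,1),(10,1),(18,1)]) (.leaf [(4,0,[(12,1)]),(0,4,[(13,1)]),(5,2,[(16,1)]),(5,10,[(17,1)]),(2,6,[(19,1)])]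 [(1,1),(2,1),(4,1),(0,2),(10,1),(18,1),(21,1)]))))) (.node 10 1 (.node 9 1 (.leaf [(0,0,[(0,1)]),(0,9,[(7,1)]),(0,16,[(12,1)]),(0,4,[(13,1)]),(0,18,[(15,1)]),(3,16,[(16,1)]),(4,4,[(17,1)]),(1,3,[(18,1)]),(1,14,[(20,1)]),(1,15,[(21,1)])] [(1,1),(2,1),(4,1),(14,1)]) (.leaf [(0,0,[(0,1)]),(0,9,[(7,1)]),(0,16,[(12,1)]),(0,4,[(13,1)]),(0,18,[(15,1)]),(3,16,[(16,1)]),(4,4,[(17,1)]),(1,14,[(20,1)])] [(1,1),(2,1),(4,1),(14,1),(9,1)])) (.node 9 1 (.leaf [(0,12,[(12,1)]),(0,4,[(13,1)]),(3,11,[(16,1)]),(3,13,[(17,1)]),(1,3,[(18,1)]),(1,15,[(21,1)]),(4,17,[(0,7),(8,2)])] [(1,1),(2,1),(4,1),(10,1),(14,1)]) (.node 3 1 (.node 16 1 (.leaf [(0,15,[(5,1)]),(4,1,[(7,1)]),(0,4,[(13,1)]),(2,1,[(17,1)]),(6,8,[(19,1)]),(6,15,[(20,1)]),(4,17,[(0,7),(8,2)])]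 [(1,1),(2,1),(4,1),(9,1),(10,1),(14,1)]) (.node 18 1 (.node 0 8 (.node 7 1 (.leaf [(7,1,[(8,1)]),(0,4,[(13,1)]),(2,1,[(17,1)]),(4,8,[(20,1)]),(9,13,[(6,1),(15,1)])] [(1,1),(2,1),(4,1),(9,1),(10,1),(14,1),(16,1)]) (.leaf [(0,4,[(13,1)]),(2,1,[(17,1)]),(4,8,[(20,1)]),(4,17,[(8,2)])] [(1,1),(2,1),(4,1),(9,1),(10,1),(14,1),(16,1),(7,1)])) (.node 0 6 (.node 7 1 (.leaf [(7,1,[(8,1)]),(0,4,[(13,1)]),(2,1,[(17,1)]),(4,8,[(20,1)]),(9,13,[(6,1),(15,1)])] [(1,1),(0,2),(2,1),(4,1),(9,1),(10,1),(14,1),(16,1)]) (.leaf [(0,4,[(13,1)]),(2,1,[(17,1)]),(4,8,[(20,1)])] [(1,1),(0,2),(2,1),(4,1),(9,1),(10,1),(14,1),(16,1),(7,1)])) (.leaf [(0,4,[(13,1)]),(2,1,[(17,1)]),(4,8,[(20,1)]),(9,13,[(6,1),(7,1),(15,1)])] [(1,1),(2,1),(4,1),(9,1),(10,1),(14,1),(16,1),(0,5)])))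 (.leaf [(0,4,[(13,1)]),(2,1,[(17,1)]),(4,17,[(0,7),(8,2)]),(2,2,[(12,1),(20,1)])] [(1,1),(2,1),(4,1),(9,1),(10,1),(14,1),(16,1),(18,1)]))) (.node 16 1 (.node 17 1 (.leaf [(0,15,[(5,1)]),(4,1,[(7,1)]),(4,11,[(11,1)]),(0,4,[(13,1)]),(6,0,[(15,1)]),(6,8,[(19,1)]),(6,15,[(20,1)]),(4,17,[(0,7),(8,2)])] [(1,1),(3,1),(2,1),(4,1),(9,1),(10,1),(14,1)]) (.leaf [(0,15,[(5,1)]),(4,1,[(7,1)]),(0,4,[(13,1)]),(6,8,[(19,1)]),(6,15,[(20,1)]),(4,17,[(0,7),(8,2)])] [(1,1),(3,1),(2,1),(4,1),(9,1),(10,1),(14,1),(17,1)])) (.node 17 1 (.leaf [(4,11,[(11,1)]),(0,4,[(13,1)]),(6,0,[(15,1)]),(4,17,[(0,7),(8,2)]),(2,2,[(12,1),(20,1)])] [(1,1),(3,1),(2,1),(4,1),(9,1),(10,1),(14,1),(16,1)]) (.leaf [(0,4,[(13,1)]),(4,17,[(0,7),(8,2)]),(2,2,[(12,1),(20,1)])] [(1,1),(2,1),(4,1),(14,1),(10,1),(9,1),(3,1),(16,1),(17,1)])))))))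 (.node 9 1 (.node 18 1 (.node 3 1 (.node 9 2 (.leaf [(4,12,[(7,1)]),(0,12,[(12,1)]),(4,13,[(13,1)]),(4,16,[(14,1)]),(5,4,[(15,1)]),(3,11,[(16,1)]),(3,13,[(17,1)]),(9,8,[(18,1)]),(4,8,[(20,1)]),(9,7,[(21,1)])] [(0,1),(1,1),(2,1),(4,1)]) (.leaf [(4,12,[(7,1)]),(0,12,[(12,1)]),(4,13,[(13,1)]),(4,16,[(14,1)]),(5,4,[(15,1)]),(3,11,[(16,1)]),(3,13,[(17,1)]),(4,8,[(20,1)])] [(0,1),(1,1),(2,1),(4,1),(9,1)])) (.node 21 1 (.leaf [(9,7,[(9,1)]),(4,10,[(7,1)]),(0,12,[(12,1)]),(4,13,[(13,1)]),(4,16,[(14,1)]),(5,4,[(15,1)]),(3,11,[(16,1)]),(3,13,[(17,1)])] [(0,1),(1,1),(3,1),(2,1),(4,1)]) (.leaf [(0,12,[(12,1)]),(4,13,[(13,1)]),(4,16,[(14,1)]),(5,4,[(15,1)]),(3,11,[(16,1)]),(3,13,[(17,1)])] [(0,1),(1,1),(2,1),(4,1),(3,1),(21,1)]))) (.node 21 1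 (.leaf [(4,10,[(7,1)]),(0,12,[(12,1)]),(5,6,[(13,1)]),(6,1,[(15,1)]),(3,11,[(16,1)]),(3,13,[(17,1)]),(10,5,[(9,1),(21,1)]),(2,6,[(14,1),(19,1)])] [(0,1),(1,1),(2,1),(4,1),(18,1)]) (.node 10 1 (.leaf [(0,12,[(12,1)]),(0,18,[(15,1)]),(3,11,[(16,1)]),(3,13,[(17,1)]),(2,14,[(3,1),(7,2)]),(2,6,[(14,1),(19,1)])] [(0,1),(1,1),(2,1),(4,1),(18,1),(21,1)]) (.leaf [(0,12,[(12,1)]),(3,11,[(16,1)]),(3,13,[(17,1)]),(1,12,[(13,1),(15,1)]),(2,6,[(14,1),(19,1)])] [(0,1),(1,1),(2,1),(4,1),(18,1),(21,1),(10,1)])))) (.node 10 1 (.node 16 1 (.leaf [(0,15,[(5,1)]),(4,1,[(7,1)]),(7,8,[(11,1)]),(7,17,[(12,1)]),(7,19,[(13,1)]),(5,2,[(14,1)]),(0,18,[(15,1)]),(6,8,[(19,1)]),(6,15,[(20,1)]),(2,1,[(3,1),(17,1)])] [(0,1),(1,1),(2,1),(4,1),(9,1)]) (.node 12 1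 (.node 17 1 (.leaf [(2,1,[(3,1)]),(4,11,[(11,1)]),(6,9,[(8,1)]),(5,3,[(13,1)]),(4,0,[(14,1)]),(0,18,[(15,1)]),(8,10,[(19,1)]),(2,2,[(20,1)])] [(0,1),(1,1),(2,1),(4,1),(9,1),(16,1)]) (.leaf [(6,9,[(8,1)]),(3,3,[(3,1),(7,1)]),(4,0,[(14,1)]),(0,18,[(15,1)]),(8,10,[(19,1)]),(2,2,[(20,1)])] [(0,1),(1,1),(2,1),(4,1),(9,1),(16,1),(17,1)])) (.node 17 1 (.leaf [(2,1,[(3,1)]),(4,11,[(11,1)]),(5,3,[(13,1)]),(5,10,[(14,1)]),(0,18,[(15,1)]),(10,3,[(20,1)])] [(0,1),(1,1),(2,1),(4,1),(9,1),(12,1),(16,1)]) (.node 3 1 (.leaf [(0,18,[(15,1)]),(2,14,[(7,2)]),(2,6,[(14,1),(19,1)]),(4,8,[(18,1),(20,1)])] [(0,1),(1,1),(2,1),(4,1),(9,1),(12,1),(16,1),(17,1)]) (.leaf [(0,18,[(15,1)]),(2,6,[(14,1),(19,1)])] [(0,1),(1,1),(2,1),(4,1),(9,1),(16,1),(12,1),(17,1),(3,1)])))))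 (.node 14 1 (.node 15 1 (.leaf [(4,0,[(12,1)]),(1,12,[(13,1)]),(5,2,[(16,1)]),(5,10,[(17,1)]),(7,2,[(18,1)]),(2,6,[(19,1)]),(7,12,[(21,1)])] [(0,1),(1,1),(2,1),(4,1),(9,1),(10,1)]) (.leaf [(4,0,[(12,1)]),(5,2,[(16,1)]),(5,10,[(17,1)]),(2,6,[(19,1)]),(4,8,[(3,1),(18,1),(20,1)])] [(0,1),(1,1),(2,1),(4,1),(9,1),(10,1),(15,1)])) (.node 13 1 (.node 16 1 (.leaf [(0,15,[(5,1)]),(4,1,[(7,1)]),(1,12,[(15,1)]),(5,3,[(17,1)]),(6,8,[(19,1)]),(6,15,[(20,1)])] [(0,1),(1,1),(2,1),(4,1),(9,1),(10,1),(14,1)]) (.node 12 1 (.leaf [(1,12,[(15,1)]),(5,3,[(17,1)]),(9,14,[(19,1)]),(2,2,[(20,1)]),(10,1,[(5,1),(8,1)])] [(0,1),(1,1),(2,1),(4,1),(9,1),(10,1),(14,1),(16,1)]) (.leaf [(1,12,[(15,1)]),(5,3,[(17,1)]),(4,8,[(3,1),(18,1),(20,1)])] [(0,1),(1,1),(2,1),(4,1),(9,1),(10,1),(14,1),(16,1),(12,1)])))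 (.node 16 1 (.node 17 1 (.leaf [(2,1,[(3,1)]),(0,15,[(5,1)]),(4,1,[(7,1)]),(4,11,[(11,1)]),(6,0,[(15,1)]),(6,8,[(19,1)]),(6,15,[(20,1)])] [(0,1),(1,1),(2,1),(4,1),(9,1),(10,1),(13,1),(14,1)]) (.leaf [(0,15,[(5,1)]),(4,1,[(7,1)]),(6,8,[(19,1)]),(6,15,[(20,1)])] [(0,1),(1,1),(2,1),(4,1),(9,1),(10,1),(13,1),(14,1),(17,1)])) (.node 3 1 (.node 18 1 (.leaf [(2,1,[(17,1)]),(4,8,[(20,1)]),(9,13,[(6,1),(7,1),(15,1)])] [(0,1),(1,1),(2,1),(4,1),(9,1),(10,1),(13,1),(14,1),(16,1)]) (.leaf [(2,1,[(17,1)]),(2,2,[(12,1),(20,1)])] [(0,1),(1,1),(2,1),(4,1),(9,1),(10,1),(13,1),(14,1),(16,1),(18,1)])) (.node 17 1 (.leaf [(4,11,[(11,1)]),(6,0,[(15,1)]),(2,2,[(12,1),(20,1)])] [(0,1),(1,1),(3,1),(2,1),(4,1),(9,1),(10,1),(13,1),(14,1),(16,1)]) (.leaf [(2,2,[(12,1),(20,1)])]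 [(1,1),(4,1),(2,1),(0,1),(9,1),(10,1),(14,1),(13,1),(16,1),(3,1),(17,1)])))))))))

def u8 : Tree := .node 0 3 (.node 18 1 (.node 7 2 (.node 16 1 (.leaf [(10,9,[(3,1)]),(0,3,[(2,1)]),(7,16,[(0,4)]),(0,15,[(5,1)]),(0,19,[(9,1)]),(0,9,[(10,1)]),(10,0,[(6,1)]),(9,4,[(7,1)]),(0,4,[(13,1)]),(2,13,[(14,1)]),(5,9,[(15,1)]),(11,2,[(19,1)]),(11,3,[(20,1)])] [(1,1),(11,1)]) (.node 20 1 (.node 17 1 (.leaf [(9,16,[(0,2)]),(4,8,[(3,1)]),(0,3,[(2,1)]),(0,19,[(9,1)]),(0,9,[(10,1)]),(10,0,[(6,1)]),(2,2,[(12,1)]),(0,4,[(13,1)]),(2,13,[(14,1)]),(7,9,[(15,1)]),(10,15,[(4,1),(7,1)]),(5,14,[(19,1)]),(10,13,[(20,1)])] [(1,1),(11,1),(16,1)]) (.leaf [(9,16,[(0,2)]),(4,8,[(3,1)]),(0,3,[(2,1)]),(0,19,[(9,1)]),(0,9,[(10,1)]),(10,0,[(6,1)]),(2,2,[(12,1)]),(0,4,[(13,1)]),(2,13,[(14,1)]),(5,14,[(19,1)]),(10,13,[(20,1)])]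 [(1,1),(11,1),(16,1),(17,1)])) (.node 0 6 (.node 17 1 (.leaf [(7,16,[(0,1)]),(0,3,[(2,1)]),(0,19,[(9,1)]),(0,9,[(10,1)]),(10,0,[(6,1)]),(0,4,[(13,1)]),(2,13,[(14,1)]),(7,1,[(3,1),(8,1)]),(7,9,[(15,1)]),(10,15,[(4,1),(7,1)]),(3,17,[(19,1)])] [(1,1),(11,1),(16,1),(20,1)]) (.leaf [(7,16,[(0,1)]),(0,3,[(2,1)]),(0,19,[(9,1)]),(0,9,[(10,1)]),(10,0,[(6,1)]),(0,4,[(13,1)]),(2,13,[(14,1)]),(7,1,[(3,1),(8,1)]),(3,17,[(19,1)])] [(1,1),(11,1),(16,1),(20,1),(17,1)])) (.node 0 5 (.node 17 1 (.leaf [(0,3,[(2,1)]),(0,19,[(9,1)]),(0,9,[(10,1)]),(10,0,[(6,1)]),(0,4,[(13,1)]),(2,13,[(14,1)]),(7,9,[(15,1)]),(10,15,[(4,1),(7,1)]),(3,17,[(19,1)])] [(0,1),(1,1),(11,1),(16,1),(20,1)]) (.leaf [(0,3,[(2,1)]),(0,19,[(9,1)]),(0,9,[(10,1)]),(10,0,[(6,1)]),(0,4,[(13,1)]),(2,13,[(14,1)]),(3,17,[(19,1)])]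 [(0,1),(1,1),(11,1),(16,1),(20,1),(17,1)])) (.node 17 1 (.leaf [(0,3,[(2,1)]),(0,19,[(9,1)]),(0,9,[(10,1)]),(10,0,[(6,1)]),(0,4,[(13,1)]),(2,13,[(14,1)]),(7,9,[(15,1)]),(10,15,[(4,1),(7,1)]),(5,5,[(19,2)])] [(1,1),(0,2),(11,1),(16,1),(20,1)]) (.leaf [(0,3,[(2,1)]),(0,19,[(9,1)]),(0,9,[(10,1)]),(10,0,[(6,1)]),(0,4,[(13,1)]),(2,13,[(14,1)]),(5,5,[(19,2)])] [(1,1),(11,1),(16,1),(20,1),(0,2),(17,1)])))))) (.node 20 1 (.node 15 1 (.leaf [(9,16,[(0,2)]),(4,8,[(3,1)]),(0,3,[(2,1)]),(0,19,[(9,1)]),(0,9,[(10,1)]),(11,5,[(6,1)]),(2,2,[(12,1)]),(0,4,[(13,1)]),(2,13,[(14,1)]),(5,9,[(16,1)]),(7,9,[(17,1)]),(5,14,[(19,1)]),(10,13,[(20,1)])] [(1,1),(7,1),(11,1)]) (.leaf [(9,16,[(0,2)]),(4,8,[(3,1)]),(0,3,[(2,1)]),(0,19,[(9,1)]),(0,9,[(10,1)]),(11,5,[(6,1)]),(2,2,[(12,1)]),(0,4,[(13,1)]),(2,13,[(14,1)]),(5,14,[(19,1)]),(10,13,[(20,1)]),(0,15,[(5,1),(16,1)])]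 [(1,1),(7,1),(11,1),(15,1)])) (.node 15 1 (.node 0 6 (.node 3 1 (.leaf [(0,3,[(2,1)]),(0,19,[(9,1)]),(0,9,[(10,1)]),(9,13,[(6,1)]),(7,1,[(8,1)]),(0,4,[(13,1)]),(2,13,[(14,1)]),(5,9,[(16,1)]),(7,9,[(17,1)]),(3,17,[(19,1)])] [(1,1),(7,1),(11,1),(20,1)]) (.leaf [(0,3,[(2,1)]),(0,19,[(9,1)]),(0,9,[(10,1)]),(0,4,[(13,1)]),(2,13,[(14,1)]),(8,18,[(0,5),(8,1)]),(5,9,[(16,1)]),(7,9,[(17,1)]),(3,17,[(19,1)])] [(1,1),(7,1),(11,1),(20,1),(3,1)])) (.node 19 1 (.leaf [(3,17,[(0,2)]),(0,3,[(2,1)]),(0,19,[(9,1)]),(0,9,[(10,1)]),(10,11,[(6,1)]),(0,4,[(13,1)]),(2,13,[(14,1)]),(5,9,[(16,1)]),(7,9,[(17,1)]),(5,5,[(19,1)])] [(1,1),(7,1),(11,1),(20,1)]) (.leaf [(0,3,[(2,1)]),(0,19,[(9,1)]),(0,9,[(10,1)]),(9,13,[(3,1),(6,1)]),(0,4,[(13,1)]),(2,13,[(14,1)]),(5,9,[(16,1)]),(7,9,[(17,1)])]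 [(1,1),(7,1),(11,1),(20,1),(0,3),(19,1)]))) (.node 0 6 (.node 8 1 (.leaf [(7,1,[(3,1)]),(0,3,[(2,1)]),(8,18,[(0,5)]),(0,19,[(9,1)]),(0,9,[(10,1)]),(0,4,[(13,1)]),(2,13,[(14,1)]),(3,17,[(19,1)]),(0,15,[(5,1),(16,1)])] [(1,1),(7,1),(11,1),(15,1),(20,1)]) (.leaf [(0,3,[(2,1)]),(0,19,[(9,1)]),(0,9,[(10,1)]),(0,4,[(13,1)]),(2,13,[(14,1)]),(3,17,[(19,1)]),(0,15,[(5,1),(16,1)])] [(1,1),(7,1),(11,1),(15,1),(20,1),(8,1)])) (.node 0 5 (.leaf [(0,3,[(2,1)]),(0,19,[(9,1)]),(0,9,[(10,1)]),(0,4,[(13,1)]),(2,13,[(14,1)]),(3,17,[(19,1)]),(0,15,[(5,1),(16,1)])] [(0,1),(1,1),(7,1),(11,1),(15,1),(20,1)]) (.leaf [(0,3,[(2,1)]),(0,19,[(9,1)]),(0,9,[(10,1)]),(0,4,[(13,1)]),(2,13,[(14,1)]),(0,15,[(5,1),(16,1)]),(5,5,[(19,2)])] [(1,1),(11,1),(7,1),(20,1),(15,1),(0,2)]))))))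 (.node 19 1 (.node 15 1 (.leaf [(3,17,[(0,2)]),(0,3,[(2,1)]),(0,19,[(9,1)]),(0,9,[(10,1)]),(10,11,[(6,1)]),(0,4,[(13,1)]),(2,6,[(14,1)]),(5,9,[(16,1)]),(7,9,[(17,1)]),(5,5,[(19,1)]),(5,14,[(20,1)])] [(1,1),(11,1),(18,1)]) (.node 7 3 (.leaf [(3,17,[(0,2)]),(0,3,[(2,1)]),(0,19,[(9,1)]),(0,9,[(10,1)]),(0,4,[(13,1)]),(2,6,[(14,1)]),(11,2,[(16,1)]),(5,5,[(19,1)]),(5,14,[(20,1)]),(10,15,[(4,1),(17,1)])] [(1,1),(11,1),(15,1),(18,1)]) (.node 7 2 (.leaf [(3,17,[(0,2)]),(0,3,[(2,1)]),(0,19,[(9,1)]),(0,9,[(10,1)]),(0,4,[(13,1)]),(2,6,[(14,1)]),(11,2,[(16,1)]),(5,5,[(19,1)]),(5,14,[(20,1)])] [(1,1),(7,1),(11,1),(15,1),(18,1)]) (.leaf [(3,17,[(0,2)]),(0,3,[(2,1)]),(0,19,[(9,1)]),(0,9,[(10,1)]),(0,4,[(13,1)]),(2,6,[(14,1)]),(5,5,[(19,1)]),(5,14,[(20,1)]),(0,15,[(5,1),(16,1)])]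 [(1,1),(11,1),(18,1),(15,1),(7,1)])))) (.node 15 1 (.node 12 1 (.leaf [(0,3,[(2,1)]),(0,19,[(9,1)]),(0,9,[(10,1)]),(0,4,[(13,1)]),(5,8,[(14,1)]),(5,9,[(16,1)]),(7,9,[(17,1)]),(2,2,[(20,1)])] [(1,1),(11,1),(18,1),(19,1)]) (.leaf [(0,3,[(2,1)]),(0,19,[(9,1)]),(0,9,[(10,1)]),(0,4,[(13,1)]),(5,9,[(16,1)]),(7,9,[(17,1)]),(7,12,[(14,1),(21,1)])] [(1,1),(11,1),(18,1),(19,1),(12,1)])) (.node 7 3 (.leaf [(0,3,[(2,1)]),(0,19,[(9,1)]),(0,9,[(10,1)]),(0,4,[(13,1)]),(9,4,[(16,1)]),(10,15,[(4,1),(17,1)]),(2,2,[(12,1),(20,1)])] [(1,1),(11,1),(15,1),(18,1),(19,1)]) (.node 7 2 (.node 16 1 (.leaf [(0,3,[(2,1)]),(0,15,[(5,1)]),(0,19,[(9,1)]),(0,9,[(10,1)]),(0,4,[(13,1)]),(11,3,[(20,1)])] [(1,1),(7,1),(11,1),(15,1),(18,1),(19,1)]) (.leaf [(0,3,[(2,1)]),(0,19,[(9,1)]),(0,9,[(10,1)]),(0,4,[(13,1)]),(2,2,[(12,1),(20,1)])]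 [(1,1),(7,1),(11,1),(15,1),(18,1),(19,1),(16,1)])) (.leaf [(0,3,[(2,1)]),(0,19,[(9,1)]),(0,9,[(10,1)]),(0,4,[(13,1)]),(0,15,[(5,1),(16,1)]),(2,2,[(12,1),(20,1)])] [(1,1),(11,1),(18,1),(19,1),(15,1),(7,1)])))))) (.node 10 1 (.node 7 3 (.leaf [(0,9,[(0,1)]),(2,14,[(3,1)]),(0,3,[(2,1)]),(0,19,[(9,1)]),(7,13,[(8,1)]),(0,18,[(15,1)]),(9,4,[(16,1)]),(6,2,[(19,1)]),(6,4,[(20,1)]),(10,15,[(4,1),(17,1)])] [(1,1),(11,1)]) (.node 7 2 (.leaf [(0,9,[(0,1)]),(2,14,[(3,1)]),(0,3,[(2,1)]),(0,19,[(9,1)]),(7,13,[(8,1)]),(0,18,[(15,1)]),(6,2,[(19,1)]),(6,4,[(20,1)]),(0,15,[(5,1),(16,1)])] [(1,1),(7,1),(11,1)]) (.node 8 1 (.leaf [(0,9,[(0,1)]),(0,3,[(2,1)]),(0,19,[(9,1)]),(8,5,[(12,1)]),(8,8,[(13,1)]),(0,18,[(15,1)]),(6,2,[(19,1)]),(6,4,[(20,1)]),(0,15,[(5,1),(16,1)])]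 [(1,1),(7,1),(11,1)]) (.leaf [(0,9,[(0,1)]),(0,3,[(2,1)]),(0,19,[(9,1)]),(0,18,[(15,1)]),(3,3,[(3,1),(12,1)]),(6,2,[(19,1)]),(6,4,[(20,1)]),(0,15,[(5,1),(16,1)])] [(1,1),(11,1),(7,1),(8,1)])))) (.node 15 1 (.node 18 1 (.node 20 1 (.node 0 1 (.leaf [(4,8,[(3,1)]),(0,3,[(2,1)]),(0,19,[(9,1)]),(11,5,[(6,1)]),(2,2,[(12,1)]),(1,12,[(13,1)]),(7,2,[(14,1)]),(5,9,[(16,1)]),(7,9,[(17,1)]),(5,14,[(19,1)]),(10,13,[(20,1)])] [(1,1),(0,2),(10,1),(11,1)]) (.leaf [(4,8,[(3,1)]),(0,3,[(2,1)]),(0,19,[(9,1)]),(2,2,[(12,1)]),(1,12,[(13,1)]),(7,2,[(14,1)]),(5,9,[(16,1)]),(7,9,[(17,1)]),(5,14,[(19,1)]),(10,13,[(20,1)])] [(1,1),(10,1),(11,1),(0,1)])) (.node 6 1 (.leaf [(9,13,[(3,1)]),(0,3,[(2,1)]),(0,19,[(9,1)]),(1,12,[(13,1)]),(7,2,[(14,1)]),(5,9,[(16,1)]),(7,9,[(17,1)]),(10,11,[(19,1)])]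 [(1,1),(0,3),(10,1),(11,1),(20,1)]) (.leaf [(0,3,[(2,1)]),(0,19,[(9,1)]),(1,12,[(13,1)]),(7,2,[(14,1)]),(5,9,[(16,1)]),(7,9,[(17,1)]),(5,5,[(19,2)])] [(1,1),(0,3),(10,1),(11,1),(20,1),(6,1)]))) (.node 19 1 (.leaf [(0,3,[(2,1)]),(0,19,[(9,1)]),(10,11,[(6,1)]),(1,12,[(13,1)]),(2,6,[(14,1)]),(5,9,[(16,1)]),(7,9,[(17,1)]),(5,5,[(19,1)]),(5,14,[(20,1)])] [(1,1),(0,3),(10,1),(11,1),(18,1)]) (.node 12 1 (.leaf [(0,3,[(2,1)]),(0,19,[(9,1)]),(1,12,[(13,1)]),(5,8,[(14,1)]),(5,9,[(16,1)]),(7,9,[(17,1)]),(2,2,[(20,1)])] [(1,1),(0,3),(10,1),(11,1),(18,1),(19,1)]) (.leaf [(0,3,[(2,1)]),(0,19,[(9,1)]),(1,12,[(13,1)]),(5,9,[(16,1)]),(7,9,[(17,1)]),(7,12,[(14,1),(21,1)])] [(1,1),(0,3),(10,1),(11,1),(18,1),(19,1),(12,1)])))) (.node 20 1 (.node 18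 1 (.node 0 1 (.node 7 3 (.leaf [(4,8,[(3,1)]),(0,3,[(2,1)]),(0,19,[(9,1)]),(11,5,[(6,1)]),(2,2,[(12,1)]),(3,18,[(13,1)]),(8,4,[(14,1)]),(11,3,[(16,1)]),(5,14,[(19,1)]),(10,13,[(20,1)]),(10,15,[(4,1),(17,1)])] [(1,1),(0,2),(10,1),(11,1),(15,1)]) (.node 7 2 (.leaf [(4,8,[(3,1)]),(0,3,[(2,1)]),(0,19,[(9,1)]),(11,5,[(6,1)]),(2,2,[(12,1)]),(3,18,[(13,1)]),(8,4,[(14,1)]),(11,3,[(16,1)]),(5,14,[(19,1)]),(10,13,[(20,1)])] [(1,1),(0,2),(10,1),(7,1),(11,1),(15,1)]) (.leaf [(4,8,[(3,1)]),(0,3,[(2,1)]),(0,19,[(9,1)]),(11,5,[(6,1)]),(2,2,[(12,1)]),(3,18,[(13,1)]),(8,4,[(14,1)]),(5,14,[(19,1)]),(10,13,[(20,1)]),(0,15,[(5,1),(16,1)])] [(1,1),(0,2),(10,1),(11,1),(15,1),(7,1)]))) (.node 7 3 (.leaf [(4,8,[(3,1)]),(0,3,[(2,1)]),(0,19,[(9,1)]),(2,2,[(12,1)]),(3,18,[(13,1)]),(11,3,[(16,1)]),(5,14,[(19,1)]),(10,13,[(20,1)]),(10,15,[(4,1),(17,1)])]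 [(0,1),(1,1),(10,1),(11,1),(15,1)]) (.node 7 2 (.leaf [(4,8,[(3,1)]),(0,3,[(2,1)]),(0,19,[(9,1)]),(2,2,[(12,1)]),(3,18,[(13,1)]),(11,3,[(16,1)]),(5,14,[(19,1)]),(10,13,[(20,1)])] [(0,1),(1,1),(10,1),(7,1),(11,1),(15,1)]) (.leaf [(4,8,[(3,1)]),(0,3,[(2,1)]),(0,19,[(9,1)]),(2,2,[(12,1)]),(3,18,[(13,1)]),(5,14,[(19,1)]),(10,13,[(20,1)]),(0,15,[(5,1),(16,1)])] [(1,1),(10,1),(11,1),(15,1),(0,1),(7,1)])))) (.node 7 3 (.leaf [(0,3,[(2,1)]),(0,19,[(9,1)]),(2,2,[(12,1)]),(3,18,[(13,1)]),(11,3,[(16,1)]),(5,14,[(19,1)]),(10,15,[(4,1),(17,1)])] [(1,1),(0,3),(10,1),(11,1),(15,1),(18,1)]) (.node 7 2 (.leaf [(0,3,[(2,1)]),(0,19,[(9,1)]),(2,2,[(12,1)]),(3,18,[(13,1)]),(11,3,[(16,1)]),(5,14,[(19,1)])] [(1,1),(0,3),(10,1),(7,1),(11,1),(15,1),(18,1)])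 (.leaf [(0,3,[(2,1)]),(0,19,[(9,1)]),(2,2,[(12,1)]),(3,18,[(13,1)]),(5,14,[(19,1)]),(0,15,[(5,1),(16,1)])] [(1,1),(0,3),(10,1),(11,1),(15,1),(18,1),(7,1)])))) (.node 0 2 (.node 7 3 (.node 14 1 (.leaf [(0,3,[(2,1)]),(0,19,[(9,1)]),(0,4,[(13,1)]),(9,4,[(16,1)]),(2,6,[(19,1)]),(2,18,[(3,1),(18,1)]),(10,15,[(4,1),(17,1)])] [(0,1),(1,1),(10,1),(11,1),(15,1),(20,1)]) (.leaf [(0,3,[(2,1)]),(0,19,[(9,1)]),(0,4,[(13,1)]),(9,4,[(16,1)]),(10,15,[(4,1),(17,1)]),(5,5,[(19,2)])] [(0,1),(1,1),(10,1),(11,1),(15,1),(20,1),(14,1)])) (.node 7 2 (.node 16 1 (.leaf [(0,3,[(2,1)]),(0,15,[(5,1)]),(0,19,[(9,1)]),(0,4,[(13,1)]),(11,2,[(19,1)]),(10,9,[(3,1),(18,1)])] [(0,1),(1,1),(10,1),(7,1),(11,1),(15,1),(20,1)]) (.node 14 1 (.leaf [(0,3,[(2,1)]),(0,19,[(9,1)]),(0,4,[(13,1)]),(2,6,[(19,1)]),(2,18,[(3,1),(18,1)])]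 [(0,1),(1,1),(10,1),(7,1),(11,1),(15,1),(16,1),(20,1)]) (.leaf [(0,3,[(2,1)]),(0,19,[(9,1)]),(0,4,[(13,1)]),(5,5,[(19,2)])] [(0,1),(1,1),(10,1),(7,1),(11,1),(15,1),(20,1),(16,1),(14,1)]))) (.node 14 1 (.leaf [(0,3,[(2,1)]),(0,19,[(9,1)]),(0,4,[(13,1)]),(2,6,[(19,1)]),(2,18,[(3,1),(18,1)]),(0,15,[(5,1),(16,1)])] [(0,1),(1,1),(10,1),(7,1),(11,1),(15,1),(20,1)]) (.leaf [(0,3,[(2,1)]),(0,19,[(9,1)]),(0,4,[(13,1)]),(0,15,[(5,1),(16,1)]),(5,5,[(19,2)])] [(0,1),(1,1),(10,1),(11,1),(15,1),(20,1),(7,1),(14,1)])))) (.node 19 1 (.node 7 3 (.leaf [(0,3,[(2,1)]),(0,19,[(9,1)]),(3,14,[(13,1)]),(2,6,[(14,1)]),(9,4,[(16,1)]),(5,5,[(19,1)]),(10,15,[(4,1),(17,1)])] [(1,1),(0,2),(10,1),(11,1),(15,1),(20,1)]) (.node 0 1 (.node 7 2 (.leaf [(0,3,[(2,1)]),(0,19,[(9,1)]),(3,14,[(13,1)]),(2,6,[(14,1)]),(11,2,[(16,1)]),(5,5,[(19,1)])]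 [(0,1),(1,1),(10,1),(7,1),(11,1),(15,1),(20,1)]) (.leaf [(0,3,[(2,1)]),(0,19,[(9,1)]),(3,14,[(13,1)]),(2,6,[(14,1)]),(5,5,[(19,1)]),(0,15,[(5,1),(16,1)])] [(0,1),(1,1),(10,1),(11,1),(15,1),(20,1),(7,1)])) (.leaf [(0,3,[(2,1)]),(0,19,[(9,1)]),(3,14,[(13,1)]),(2,6,[(14,1)]),(5,5,[(19,1)]),(0,15,[(5,1),(16,1)])] [(1,1),(10,1),(11,1),(15,1),(20,1),(7,2),(0,1)]))) (.node 0 1 (.node 7 3 (.leaf [(0,3,[(2,1)]),(0,19,[(9,1)]),(0,4,[(13,1)]),(9,4,[(16,1)]),(10,15,[(4,1),(17,1)])] [(0,1),(1,1),(10,1),(11,1),(15,1),(19,1),(20,1)]) (.leaf [(0,3,[(2,1)]),(0,19,[(9,1)]),(0,4,[(13,1)]),(0,15,[(5,1),(16,1)])] [(0,1),(1,1),(10,1),(11,1),(15,1),(19,1),(20,1),(7,2)])) (.node 5 1 (.leaf [(0,3,[(2,1)]),(0,19,[(9,1)]),(0,15,[(16,1)]),(8,6,[(8,1),(13,2)]),(10,15,[(4,1),(7,2),(17,1)])]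 [(0,1),(1,1),(10,1),(11,1),(15,1),(19,1),(20,1)]) (.node 7 3 (.leaf [(0,3,[(2,1)]),(0,19,[(9,1)]),(9,4,[(16,1)]),(10,15,[(4,1),(17,1)])] [(0,1),(1,1),(5,1),(10,1),(11,1),(15,1),(19,1),(20,1)]) (.leaf [(0,3,[(2,1)]),(0,19,[(9,1)])] [(1,1),(11,1),(10,1),(15,1),(20,1),(19,1),(0,1),(5,1),(7,2)])))))))))

def u9 : Tree := .node 2 1 (.node 19 1 (.node 10 1 (.node 12 1 (.leaf [(0,16,[(0,1)]),(6,14,[(4,1)]),(9,9,[(8,1)]),(2,6,[(14,1)]),(3,6,[(15,1)]),(10,2,[(16,1)]),(10,17,[(19,1)]),(0,11,[(20,1)]),(3,19,[(2,1),(5,1),(13,2)])] [(1,1),(9,1),(7,1),(11,1)]) (.node 2 2 (.node 13 1 (.node 5 1 (.leaf [(0,4,[(0,1)]),(3,14,[(4,1)]),(0,6,[(8,1)]),(3,19,[(13,1)]),(2,6,[(14,1)]),(3,6,[(15,1)]),(0,15,[(16,1)]),(5,0,[(19,1)]),(0,11,[(20,1)])] [(1,1),(9,1),(7,1),(11,1),(12,1)])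 (.leaf [(0,4,[(0,1)]),(3,14,[(4,1)]),(0,6,[(8,1)]),(2,6,[(14,1)]),(3,6,[(15,1)]),(5,0,[(19,1)]),(0,11,[(20,1)])] [(1,1),(9,1),(7,1),(11,1),(12,1),(5,1)])) (.leaf [(0,0,[(0,2)]),(0,6,[(8,1)]),(2,6,[(14,1)]),(3,6,[(15,1)]),(5,0,[(19,1)]),(0,11,[(20,1)]),(0,15,[(5,1),(16,1)])] [(1,1),(9,1),(7,1),(11,1),(12,1),(13,1)])) (.node 0 1 (.node 16 1 (.leaf [(0,0,[(0,1)]),(0,15,[(5,1)]),(0,4,[(13,1)]),(2,6,[(14,1)]),(3,6,[(15,1)]),(8,12,[(19,1)]),(0,11,[(20,1)])] [(1,1),(2,1),(9,1),(7,1),(11,1),(12,1)]) (.leaf [(0,0,[(0,1)]),(0,4,[(13,1)]),(2,6,[(14,1)]),(3,6,[(15,1)]),(0,11,[(20,1)]),(5,5,[(4,1),(19,1)])] [(1,1),(2,1),(9,1),(7,1),(11,1),(12,1),(16,1)])) (.node 4 1 (.leaf [(3,14,[(13,1)]),(2,6,[(14,1)]),(3,6,[(15,1)]),(5,5,[(19,1)]),(0,11,[(20,1)]),(0,15,[(5,1),(16,1)])]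 [(0,1),(1,1),(2,1),(9,1),(7,1),(11,1),(12,1)]) (.node 16 1 (.leaf [(0,15,[(5,1)]),(2,6,[(14,1)]),(3,6,[(15,1)]),(8,12,[(19,1)]),(0,11,[(20,1)])] [(0,1),(1,1),(2,1),(4,1),(9,1),(7,1),(11,1),(12,1)]) (.leaf [(2,6,[(14,1)]),(3,6,[(15,1)]),(0,11,[(20,1)])] [(1,1),(9,1),(7,1),(11,1),(12,1),(2,1),(0,1),(4,1),(16,1)])))))) (.node 2 2 (.node 13 1 (.node 5 1 (.leaf [(0,4,[(0,1)]),(3,14,[(4,1)]),(0,6,[(8,1)]),(3,19,[(13,1)]),(2,6,[(14,1)]),(3,6,[(15,1)]),(0,15,[(16,1)]),(5,0,[(19,1)]),(0,11,[(20,1)])] [(1,1),(9,1),(10,1),(7,1),(11,1)]) (.leaf [(0,4,[(0,1)]),(3,14,[(4,1)]),(0,6,[(8,1)]),(2,6,[(14,1)]),(3,6,[(15,1)]),(5,0,[(19,1)]),(0,11,[(20,1)])] [(1,1),(9,1),(10,1),(7,1),(11,1),(5,1)])) (.leaf [(0,6,[(8,1)]),(2,6,[(14,1)]),(3,6,[(15,1)]),(5,0,[(19,1)]),(0,11,[(20,1)]),(0,15,[(5,1),(16,1)])]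 [(1,1),(9,1),(10,1),(7,1),(11,1),(13,1)])) (.node 0 9 (.node 16 1 (.leaf [(0,15,[(5,1)]),(0,4,[(13,1)]),(2,6,[(14,1)]),(3,6,[(15,1)]),(8,12,[(19,1)]),(0,11,[(20,1)]),(8,1,[(8,2)])] [(1,1),(2,1),(9,1),(10,1),(7,1),(11,1)]) (.leaf [(0,4,[(13,1)]),(2,6,[(14,1)]),(3,6,[(15,1)]),(0,11,[(20,1)]),(5,5,[(4,1),(19,1)]),(8,1,[(8,2)])] [(1,1),(2,1),(9,1),(10,1),(7,1),(11,1),(16,1)])) (.node 0 1 (.node 16 1 (.leaf [(0,15,[(5,1)]),(0,4,[(13,1)]),(2,6,[(14,1)]),(3,6,[(15,1)]),(8,12,[(19,1)]),(0,11,[(20,1)])] [(1,1),(2,1),(0,8),(9,1),(10,1),(7,1),(11,1)]) (.leaf [(0,4,[(13,1)]),(2,6,[(14,1)]),(3,6,[(15,1)]),(0,11,[(20,1)]),(5,5,[(4,1),(19,1)])] [(1,1),(2,1),(0,8),(9,1),(10,1),(7,1),(11,1),(16,1)])) (.node 4 1 (.leaf [(3,14,[(13,1)]),(2,6,[(14,1)]),(3,6,[(15,1)]),(5,5,[(19,1)]),(0,11,[(20,1)]),(0,15,[(5,1),(16,1)])]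 [(0,1),(1,1),(2,1),(9,1),(10,1),(7,1),(11,1)]) (.node 16 1 (.leaf [(0,15,[(5,1)]),(2,6,[(14,1)]),(3,6,[(15,1)]),(8,12,[(19,1)]),(0,11,[(20,1)])] [(0,1),(1,1),(2,1),(4,1),(9,1),(10,1),(7,1),(11,1)]) (.leaf [(2,6,[(14,1)]),(3,6,[(15,1)]),(0,11,[(20,1)])] [(1,1),(9,1),(7,1),(11,1),(10,1),(2,1),(0,1),(4,1),(16,1)]))))))) (.node 15 1 (.node 2 2 (.node 5 1 (.leaf [(1,4,[(3,1)]),(0,18,[(10,1)]),(2,0,[(6,1)]),(0,6,[(8,1)]),(1,12,[(13,1)]),(2,3,[(14,1)]),(5,12,[(15,1)]),(0,15,[(16,1)]),(0,11,[(20,1)])] [(1,1),(9,1),(7,1),(11,1),(19,1)]) (.node 17 1 (.leaf [(3,15,[(3,1)]),(0,18,[(10,1)]),(2,0,[(6,1)]),(0,6,[(8,1)]),(1,12,[(13,1)]),(2,3,[(14,1)]),(8,15,[(15,1)]),(0,11,[(20,1)])] [(1,1),(5,1),(9,1),(7,1),(11,1),(19,1)]) (.leaf [(0,18,[(10,1)]),(2,0,[(6,1)]),(0,6,[(8,1)]),(1,12,[(13,1)]),(2,3,[(14,1)]),(0,11,[(20,1)])]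 [(1,1),(9,1),(7,1),(11,1),(19,1),(5,1),(17,1)]))) (.node 3 1 (.leaf [(1,4,[(5,1)]),(0,18,[(10,1)]),(1,12,[(13,1)]),(2,3,[(14,1)]),(3,15,[(17,1)]),(0,11,[(20,1)]),(11,6,[(0,15),(8,3),(18,1)])] [(1,1),(2,1),(9,1),(7,1),(11,1),(19,1)]) (.leaf [(0,18,[(10,1)]),(1,12,[(13,1)]),(2,3,[(14,1)]),(0,11,[(20,1)]),(0,15,[(5,1),(16,1)]),(11,6,[(0,15),(8,3),(18,1)])] [(1,1),(9,1),(7,1),(11,1),(19,1),(2,1),(3,1)]))) (.node 0 2 (.node 18 1 (.node 0 15 (.node 8 1 (.leaf [(0,6,[(2,1)]),(0,0,[(10,1)]),(0,4,[(13,1)]),(2,13,[(14,1)]),(0,11,[(20,1)]),(0,15,[(5,1),(16,1)]),(11,6,[(8,2)])] [(1,1),(9,1),(7,1),(11,1),(15,1),(19,1)]) (.leaf [(0,0,[(10,1)]),(0,4,[(13,1)]),(2,13,[(14,1)]),(0,11,[(20,1)]),(0,15,[(5,1),(16,1)])] [(1,1),(9,1),(7,1),(11,1),(15,1),(19,1),(8,1)]))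 (.node 0 3 (.leaf [(0,0,[(10,1)]),(0,4,[(13,1)]),(2,13,[(14,1)]),(0,6,[(2,1),(8,1)]),(0,11,[(20,1)]),(0,15,[(5,1),(16,1)])] [(1,1),(0,12),(9,1),(7,1),(11,1),(15,1),(19,1)]) (.leaf [(0,0,[(10,1)]),(0,4,[(13,1)]),(0,6,[(2,1),(8,1)]),(2,18,[(3,1),(14,1)]),(0,11,[(20,1)]),(0,15,[(5,1),(16,1)])] [(1,1),(9,1),(7,1),(11,1),(15,1),(19,1),(0,1)]))) (.leaf [(0,0,[(10,1)]),(0,4,[(13,1)]),(0,6,[(2,1),(8,1)]),(0,11,[(20,1)]),(0,15,[(5,1),(16,1)])] [(1,1),(9,1),(7,1),(11,1),(15,1),(19,1),(18,1)])) (.node 13 2 (.node 8 1 (.node 4 1 (.leaf [(0,4,[(0,1)]),(0,6,[(2,1)]),(8,6,[(5,1)]),(0,11,[(20,1)]),(9,2,[(10,1),(12,1)])] [(1,1),(9,1),(7,1),(11,1),(15,1),(19,1)]) (.leaf [(0,4,[(0,1)]),(0,6,[(2,1)]),(0,11,[(20,1)]),(0,15,[(5,1),(16,1)]),(11,1,[(8,1),(10,1),(12,2)])]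 [(1,1),(9,1),(7,1),(11,1),(15,1),(19,1),(4,1)])) (.node 2 2 (.leaf [(0,4,[(0,1)]),(3,19,[(5,1)]),(0,11,[(20,1)]),(9,5,[(4,1),(17,1)])] [(1,1),(9,1),(7,1),(11,1),(8,1),(15,1),(19,1)]) (.leaf [(0,4,[(0,1)]),(0,11,[(20,1)]),(0,15,[(5,1),(16,1)])] [(1,1),(9,1),(7,1),(11,1),(15,1),(19,1),(8,1),(2,1)]))) (.node 0 1 (.node 2 2 (.leaf [(0,6,[(8,1)]),(0,4,[(13,1)]),(0,11,[(20,1)]),(0,16,[(10,1),(12,1)]),(0,15,[(5,1),(16,1)]),(9,3,[(3,1),(14,2),(18,1)])] [(0,1),(1,1),(9,1),(7,1),(11,1),(15,1),(19,1)]) (.leaf [(0,4,[(13,1)]),(0,11,[(20,1)]),(0,16,[(10,1),(12,1)]),(0,15,[(5,1),(16,1)])] [(0,1),(1,1),(9,1),(7,1),(11,1),(15,1),(19,1),(2,1)])) (.node 8 1 (.node 10 1 (.node 12 2 (.node 13 1 (.leaf [(0,6,[(2,1)]),(9,2,[(4,1)]),(11,1,[(8,1)]),(0,11,[(20,1)]),(0,15,[(5,1),(16,1)])]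 [(0,1),(1,1),(9,1),(7,1),(11,1),(13,1),(15,1),(19,1)]) (.leaf [(0,6,[(2,1)]),(11,1,[(8,1)]),(0,11,[(20,1)]),(0,15,[(5,1),(16,1)])] [(0,1),(1,1),(9,1),(7,1),(11,1),(15,1),(19,1),(13,1)])) (.node 12 1 (.node 13 1 (.leaf [(0,6,[(2,1)]),(9,2,[(4,1)]),(0,11,[(20,1)]),(0,15,[(5,1),(16,1)])] [(0,1),(1,1),(9,1),(7,1),(11,1),(12,1),(13,1),(15,1),(19,1)]) (.leaf [(0,6,[(2,1)]),(0,11,[(20,1)]),(0,15,[(5,1),(16,1)])] [(0,1),(1,1),(9,1),(7,1),(11,1),(12,1),(15,1),(19,1),(13,1)])) (.leaf [(0,6,[(2,1)]),(0,11,[(20,1)]),(0,15,[(5,1),(16,1)])] [(0,1),(1,1),(9,1),(7,1),(11,1),(15,1),(19,1),(13,2),(12,1)]))) (.leaf [(0,6,[(2,1)]),(0,11,[(20,1)]),(0,15,[(5,1),(16,1)])] [(0,1),(1,1),(9,1),(7,1),(11,1),(15,1),(19,1),(13,2),(10,1)])) (.leaf [(0,11,[(20,1)]),(0,15,[(5,1),(16,1)])]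 [(1,1),(9,1),(7,1),(11,1),(19,1),(15,1),(13,2),(0,1),(8,1)]))))))) (.node 20 1 (.node 15 1 (.node 18 1 (.node 4 1 (.leaf [(4,8,[(3,1)]),(0,18,[(10,1)]),(2,2,[(12,1)]),(1,12,[(13,1)]),(7,2,[(14,1)]),(7,18,[(16,1)]),(10,4,[(17,1)]),(5,14,[(19,1)]),(10,12,[(0,9),(8,1)]),(10,13,[(20,1)])] [(1,1),(2,1),(9,1),(7,1),(11,1)]) (.leaf [(4,8,[(3,1)]),(0,18,[(10,1)]),(2,2,[(12,1)]),(1,12,[(13,1)]),(7,2,[(14,1)]),(7,18,[(16,1)]),(11,6,[(0,15),(8,3)])] [(1,1),(2,1),(9,1),(7,1),(11,1),(4,1)])) (.node 14 1 (.node 17 1 (.leaf [(10,4,[(4,1)]),(0,18,[(10,1)]),(2,2,[(12,1)]),(1,12,[(13,1)]),(11,0,[(15,1)]),(7,18,[(16,1)]),(2,6,[(19,1)]),(7,12,[(21,1)])] [(1,1),(2,1),(9,1),(7,1),(11,1),(18,1)]) (.leaf [(0,18,[(10,1)]),(2,2,[(12,1)]),(1,12,[(13,1)]),(7,18,[(16,1)]),(2,6,[(19,1)]),(7,12,[(21,1)])]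 [(1,1),(2,1),(9,1),(7,1),(11,1),(18,1),(17,1)])) (.node 4 1 (.leaf [(0,18,[(10,1)]),(2,2,[(12,1)]),(1,12,[(13,1)]),(7,18,[(16,1)]),(10,4,[(17,1)]),(5,14,[(19,1)])] [(1,1),(2,1),(9,1),(7,1),(11,1),(14,1),(18,1)]) (.leaf [(0,18,[(10,1)]),(2,2,[(12,1)]),(1,12,[(13,1)]),(7,18,[(16,1)])] [(1,1),(2,1),(9,1),(7,1),(11,1),(18,1),(14,1),(4,1)])))) (.node 0 1 (.node 18 1 (.node 4 1 (.leaf [(4,8,[(3,1)]),(1,14,[(10,1)]),(2,2,[(12,1)]),(0,4,[(13,1)]),(8,4,[(14,1)]),(10,12,[(0,8),(8,1)]),(5,14,[(19,1)]),(10,13,[(20,1)]),(0,15,[(5,1),(16,1)])] [(1,1),(2,1),(9,1),(7,1),(11,1),(15,1)]) (.node 16 1 (.leaf [(4,8,[(3,1)]),(0,15,[(5,1)]),(1,14,[(10,1)]),(2,2,[(12,1)]),(0,4,[(13,1)]),(8,4,[(14,1)]),(8,17,[(19,1)]),(11,6,[(0,14),(8,3)])] [(1,1),(2,1),(4,1),(9,1),(7,1),(11,1),(15,1)])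 (.leaf [(4,8,[(3,1)]),(1,14,[(10,1)]),(2,2,[(12,1)]),(0,4,[(13,1)]),(8,4,[(14,1)]),(11,6,[(0,14),(8,3)])] [(1,1),(2,1),(9,1),(7,1),(11,1),(15,1),(4,1),(16,1)]))) (.node 19 1 (.leaf [(5,14,[(4,1)]),(1,14,[(10,1)]),(2,2,[(12,1)]),(0,4,[(13,1)]),(2,6,[(14,1)]),(8,17,[(16,1)])] [(1,1),(2,1),(9,1),(7,1),(11,1),(15,1),(18,1)]) (.leaf [(1,14,[(10,1)]),(2,2,[(12,1)]),(0,4,[(13,1)]),(0,15,[(5,1),(16,1)])] [(1,1),(2,1),(9,1),(7,1),(11,1),(15,1),(18,1),(19,1)]))) (.node 4 1 (.node 18 1 (.leaf [(4,8,[(3,1)]),(2,2,[(12,1)]),(3,18,[(13,1)]),(5,14,[(19,1)]),(10,13,[(20,1)]),(0,15,[(5,1),(16,1)])] [(0,1),(1,1),(2,1),(9,1),(7,1),(11,1),(15,1)]) (.leaf [(2,2,[(12,1)]),(3,18,[(13,1)]),(5,14,[(19,1)]),(0,15,[(5,1),(16,1)])] [(0,1),(1,1),(2,1),(9,1),(7,1),(11,1),(15,1),(18,1)]))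 (.node 16 1 (.leaf [(0,15,[(5,1)]),(2,2,[(12,1)]),(8,17,[(19,1)]),(4,8,[(3,1),(18,1)])] [(0,1),(1,1),(2,1),(4,1),(9,1),(7,1),(11,1),(15,1)]) (.leaf [(2,2,[(12,1)]),(4,8,[(3,1),(18,1)]),(2,6,[(14,1),(19,1)])] [(1,1),(2,1),(9,1),(7,1),(11,1),(15,1),(0,1),(4,1),(16,1)]))))) (.node 14 1 (.node 15 1 (.node 15 2 (.leaf [(0,18,[(10,1)]),(5,8,[(12,1)]),(1,12,[(13,1)]),(10,14,[(16,1)]),(11,0,[(17,1)]),(7,2,[(18,1)]),(2,6,[(19,1)]),(7,12,[(21,1)])] [(1,1),(2,1),(9,1),(7,1),(11,1),(20,1)]) (.leaf [(0,18,[(10,1)]),(5,8,[(12,1)]),(1,12,[(13,1)]),(7,2,[(18,1)]),(2,6,[(19,1)]),(7,12,[(21,1)]),(0,15,[(5,1),(16,1)])] [(1,1),(2,1),(9,1),(7,1),(11,1),(20,1),(15,1)])) (.node 0 2 (.node 18 1 (.leaf [(2,13,[(0,1)]),(2,18,[(3,1)]),(0,0,[(10,1)]),(0,4,[(13,1)]),(2,6,[(19,1)]),(0,15,[(5,1),(16,1)])]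 [(1,1),(2,1),(9,1),(7,1),(11,1),(15,1),(20,1)]) (.leaf [(0,0,[(10,1)]),(0,4,[(13,1)]),(2,6,[(19,1)]),(0,15,[(5,1),(16,1)])] [(1,1),(2,1),(9,1),(7,1),(11,1),(15,1),(20,1),(18,1)])) (.node 0 1 (.leaf [(0,4,[(13,1)]),(2,6,[(19,1)]),(0,16,[(10,1),(12,1)]),(0,15,[(5,1),(16,1)])] [(0,1),(1,1),(2,1),(9,1),(7,1),(11,1),(15,1),(20,1)]) (.node 4 1 (.node 5 1 (.node 8 1 (.node 13 1 (.leaf [(8,6,[(13,1)]),(0,15,[(16,1)]),(2,6,[(19,1)]),(9,2,[(10,1),(12,1)])] [(0,1),(1,1),(2,1),(9,1),(7,1),(11,1),(15,1),(20,1)]) (.leaf [(0,15,[(16,1)]),(2,6,[(19,1)])] [(0,1),(1,1),(2,1),(9,1),(7,1),(11,1),(15,1),(20,1),(13,1)])) (.leaf [(0,15,[(16,1)]),(2,6,[(19,1)])] [(0,1),(1,1),(2,1),(9,1),(7,1),(11,1),(15,1),(20,1),(8,1)])) (.leaf [(2,6,[(19,1)]),(9,2,[(8,1),(10,1),(12,1),(13,1)])]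 [(0,1),(1,1),(2,1),(9,1),(7,1),(11,1),(15,1),(20,1),(5,1)])) (.leaf [(2,6,[(19,1)]),(0,15,[(5,1),(16,1)])] [(1,1),(2,1),(9,1),(7,1),(11,1),(20,1),(15,1),(0,1),(4,1)]))))) (.node 10 1 (.node 4 1 (.node 13 1 (.node 5 1 (.node 8 1 (.leaf [(0,4,[(0,1)]),(9,2,[(12,1)]),(8,6,[(13,1)]),(0,18,[(15,1)]),(0,15,[(16,1)]),(3,14,[(19,1)])] [(1,1),(2,1),(9,1),(7,1),(11,1),(14,1),(20,1)]) (.leaf [(0,4,[(0,1)]),(0,18,[(15,1)]),(0,15,[(16,1)]),(3,14,[(19,1)])] [(1,1),(2,1),(9,1),(7,1),(11,1),(14,1),(20,1),(8,1)])) (.leaf [(0,4,[(0,1)]),(0,18,[(15,1)]),(3,14,[(19,1)]),(9,2,[(8,1),(12,1)])] [(1,1),(2,1),(9,1),(7,1),(11,1),(14,1),(20,1),(5,1)])) (.node 0 1 (.leaf [(0,0,[(0,1)]),(0,16,[(12,1)]),(0,18,[(15,1)]),(0,15,[(5,1),(16,1)]),(5,5,[(19,2)])] [(1,1),(2,1),(9,1),(7,1),(11,1),(13,1),(14,1),(20,1)])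 (.node 19 1 (.leaf [(6,14,[(12,1)]),(0,18,[(15,1)]),(5,5,[(19,1)]),(0,15,[(5,1),(16,1)])] [(0,1),(1,1),(2,1),(9,1),(7,1),(11,1),(13,1),(14,1),(20,1)]) (.leaf [(0,18,[(15,1)]),(0,15,[(5,1),(16,1)])] [(1,1),(2,1),(9,1),(7,1),(11,1),(14,1),(20,1),(13,1),(0,1),(19,1)])))) (.node 0 1 (.node 16 1 (.leaf [(0,0,[(0,1)]),(0,15,[(5,1)]),(0,16,[(12,1)]),(0,4,[(13,1)]),(0,18,[(15,1)]),(8,12,[(19,2)])] [(1,1),(2,1),(4,1),(9,1),(7,1),(11,1),(14,1),(20,1)]) (.leaf [(0,0,[(0,1)]),(0,16,[(12,1)]),(0,4,[(13,1)]),(0,18,[(15,1)])] [(1,1),(2,1),(4,1),(9,1),(7,1),(11,1),(14,1),(20,1),(16,1)])) (.node 16 1 (.node 19 1 (.leaf [(0,15,[(5,1)]),(10,2,[(12,1)]),(0,18,[(15,1)]),(8,12,[(19,1)])] [(0,1),(1,1),(2,1),(4,1),(9,1),(7,1),(11,1),(14,1),(20,1)]) (.leaf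 [(0,15,[(5,1)]),(0,18,[(15,1)])] [(0,1),(1,1),(2,1),(4,1),(9,1),(7,1),(11,1),(14,1),(20,1),(19,1)])) (.leaf [(0,18,[(15,1)])] [(1,1),(2,1),(9,1),(7,1),(11,1),(14,1),(20,1),(4,1),(0,1),(16,1)])))) (.node 13 1 (.node 4 1 (.node 5 1 (.leaf [(0,4,[(0,1)]),(1,12,[(15,1)]),(0,15,[(16,1)]),(3,14,[(19,1)]),(8,6,[(8,1),(13,1)])] [(1,1),(2,1),(9,1),(10,1),(7,1),(11,1),(14,1),(20,1)]) (.leaf [(0,4,[(0,1)]),(1,12,[(15,1)]),(3,14,[(19,1)])] [(1,1),(2,1),(9,1),(10,1),(7,1),(11,1),(14,1),(20,1),(5,1)])) (.node 16 1 (.leaf [(0,4,[(0,1)]),(0,15,[(5,1)]),(1,12,[(15,1)]),(8,12,[(19,2)])] [(1,1),(2,1),(4,1),(9,1),(10,1),(7,1),(11,1),(14,1),(20,1)]) (.leaf [(0,4,[(0,1)]),(1,12,[(15,1)])] [(1,1),(2,1),(9,1),(10,1),(7,1),(11,1),(14,1),(20,1),(4,1),(16,1)])))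 (.node 16 1 (.leaf [(0,15,[(5,1)]),(8,12,[(19,2)]),(11,6,[(0,15),(8,3),(18,1)])] [(1,1),(2,1),(9,1),(10,1),(7,1),(11,1),(13,1),(14,1),(20,1)]) (.leaf [(5,5,[(4,1),(19,2)]),(11,6,[(0,15),(8,3),(18,1)])] [(1,1),(11,1),(7,1),(9,1),(2,1),(20,1),(14,1),(10,1),(13,1),(16,1)]))))))

def u10 : Tree := .node 7 1 (.node 4 1 (u8) (.node 18 1 (.node 0 3 (.node 16 1 (.node 0 7 (.node 3 1 (.leaf [(0,3,[(2,1)]),(0,15,[(5,1)]),(1,3,[(9,1)]),(0,9,[(10,1)]),(10,10,[(7,1)]),(7,1,[(8,1)]),(0,4,[(13,1)]),(2,13,[(14,1)]),(5,9,[(15,1)]),(7,7,[(19,1)]),(4,8,[(20,1)])] [(1,1),(4,1),(11,1)]) (.leaf [(0,3,[(2,1)]),(0,15,[(5,1)]),(1,3,[(9,1)]),(0,9,[(10,1)]),(10,10,[(7,1)]),(0,4,[(13,1)]),(2,13,[(14,1)]),(11,7,[(0,4),(8,1)]),(5,9,[(15,1)]),(7,7,[(19,1)]),(2,2,[(12,1),(20,1)])]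 [(1,1),(4,1),(11,1),(3,1)])) (.node 0 6 (.node 3 1 (.leaf [(0,3,[(2,1)]),(0,15,[(5,1)]),(1,3,[(9,1)]),(0,9,[(10,1)]),(10,9,[(7,1)]),(7,1,[(8,1)]),(0,4,[(13,1)]),(2,13,[(14,1)]),(5,9,[(15,1)]),(7,7,[(19,1)]),(4,8,[(20,1)])] [(0,1),(1,1),(4,1),(11,1)]) (.leaf [(0,3,[(2,1)]),(0,15,[(5,1)]),(1,3,[(9,1)]),(0,9,[(10,1)]),(0,4,[(13,1)]),(2,13,[(14,1)]),(5,9,[(15,1)]),(7,7,[(19,1)]),(2,2,[(12,1),(20,1)])] [(0,1),(1,1),(4,1),(11,1),(3,1)])) (.node 19 1 (.leaf [(7,7,[(0,2)]),(0,3,[(2,1)]),(0,15,[(5,1)]),(1,3,[(9,1)]),(0,9,[(10,1)]),(0,4,[(13,1)]),(10,9,[(3,1),(7,1)]),(2,13,[(14,1)]),(5,9,[(15,1)]),(8,12,[(19,1)]),(8,17,[(20,1)])] [(1,1),(4,1),(11,1)]) (.node 3 1 (.leaf [(0,3,[(2,1)]),(0,15,[(5,1)]),(1,3,[(9,1)]),(0,9,[(10,1)]),(10,9,[(7,1)]),(0,4,[(13,1)]),(2,13,[(14,1)]),(5,9,[(15,1)]),(4,8,[(20,1)])]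 [(1,1),(0,3),(4,1),(11,1),(19,1)]) (.leaf [(0,3,[(2,1)]),(0,15,[(5,1)]),(1,3,[(9,1)]),(0,9,[(10,1)]),(0,4,[(13,1)]),(2,13,[(14,1)]),(5,9,[(15,1)]),(2,2,[(12,1),(20,1)])] [(1,1),(4,1),(11,1),(0,3),(19,1),(3,1)]))))) (.node 3 1 (.node 15 2 (.leaf [(0,3,[(2,1)]),(1,3,[(9,1)]),(0,9,[(10,1)]),(9,13,[(6,1)]),(0,4,[(13,1)]),(2,13,[(14,1)]),(7,1,[(0,3),(8,1)]),(10,16,[(17,1)]),(4,8,[(20,1)])] [(1,1),(4,1),(11,1),(16,1)]) (.node 15 1 (.leaf [(0,3,[(2,1)]),(1,3,[(9,1)]),(0,9,[(10,1)]),(9,13,[(6,1)]),(0,4,[(13,1)]),(2,13,[(14,1)]),(7,1,[(0,3),(8,1)]),(4,8,[(20,1)])] [(1,1),(4,1),(11,1),(15,1),(16,1)]) (.leaf [(0,3,[(2,1)]),(1,3,[(9,1)]),(0,9,[(10,1)]),(0,4,[(13,1)]),(2,13,[(14,1)]),(7,1,[(0,3),(8,1)]),(4,8,[(20,1)])] [(1,1),(4,1),(11,1),(16,1),(15,1)])))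 (.leaf [(0,3,[(2,1)]),(1,3,[(9,1)]),(0,9,[(10,1)]),(0,4,[(13,1)]),(2,13,[(14,1)]),(2,2,[(12,1),(20,1)]),(11,6,[(0,12),(8,3)])] [(1,1),(4,1),(11,1),(16,1),(3,1)]))) (.node 3 1 (.node 15 1 (.leaf [(0,3,[(2,1)]),(4,12,[(9,1)]),(0,18,[(10,1)]),(9,13,[(6,1)]),(1,12,[(13,1)]),(7,2,[(14,1)]),(5,9,[(16,1)]),(4,8,[(20,1)]),(10,16,[(15,1),(17,1)])] [(1,1),(0,3),(4,1),(11,1)]) (.node 0 2 (.node 16 1 (.leaf [(0,3,[(2,1)]),(0,15,[(5,1)]),(4,12,[(9,1)]),(0,9,[(10,1)]),(10,9,[(7,1)]),(0,4,[(13,1)]),(2,18,[(14,1)]),(4,8,[(20,1)]),(8,12,[(19,2)])] [(0,1),(1,1),(4,1),(11,1),(15,1)]) (.leaf [(0,3,[(2,1)]),(4,12,[(9,1)]),(0,9,[(10,1)]),(0,4,[(13,1)]),(2,18,[(14,1)]),(4,8,[(20,1)])] [(0,1),(1,1),(4,1),(11,1),(15,1),(16,1)])) (.node 10 1 (.node 16 1 (.leaf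 [(0,9,[(0,1)]),(0,3,[(2,1)]),(0,15,[(5,1)]),(4,12,[(9,1)]),(2,14,[(7,1)]),(3,3,[(12,1)]),(9,6,[(19,1)]),(4,8,[(20,1)])] [(1,1),(4,1),(11,1),(15,1)]) (.leaf [(0,9,[(0,1)]),(0,3,[(2,1)]),(4,12,[(9,1)]),(2,14,[(7,1)]),(3,3,[(12,1)]),(4,8,[(20,1)]),(2,6,[(14,1),(19,1)])] [(1,1),(4,1),(11,1),(15,1),(16,1)])) (.node 0 1 (.node 16 1 (.node 19 1 (.leaf [(0,3,[(2,1)]),(0,15,[(5,1)]),(4,12,[(9,1)]),(0,4,[(13,1)]),(2,6,[(14,1)]),(8,12,[(19,1)]),(4,8,[(20,1)])] [(0,1),(1,1),(4,1),(10,1),(11,1),(15,1)]) (.leaf [(0,3,[(2,1)]),(0,15,[(5,1)]),(4,12,[(9,1)]),(0,4,[(13,1)]),(4,8,[(20,1)])] [(0,1),(1,1),(4,1),(10,1),(11,1),(15,1),(19,1)])) (.leaf [(0,3,[(2,1)]),(4,12,[(9,1)]),(0,4,[(13,1)]),(4,8,[(20,1)]),(2,6,[(14,1),(19,1)])] [(0,1),(1,1),(4,1),(10,1),(11,1),(15,1),(16,1)]))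 (.node 16 1 (.node 19 1 (.leaf [(0,3,[(2,1)]),(0,15,[(5,1)]),(4,12,[(9,1)]),(2,6,[(14,1)]),(8,12,[(19,1)]),(4,8,[(20,1)])] [(0,1),(1,1),(4,1),(10,1),(11,1),(15,1)]) (.leaf [(0,3,[(2,1)]),(0,15,[(5,1)]),(4,12,[(9,1)]),(4,8,[(20,1)])] [(0,1),(1,1),(4,1),(10,1),(11,1),(15,1),(19,1)])) (.leaf [(0,3,[(2,1)]),(4,12,[(9,1)]),(4,8,[(20,1)]),(2,6,[(14,1),(19,1)])] [(1,1),(4,1),(11,1),(15,1),(10,1),(0,1),(16,1)])))))) (.node 9 1 (.leaf [(1,3,[(0,1)]),(0,3,[(2,1)]),(0,12,[(12,1)]),(4,13,[(13,1)]),(4,16,[(14,1)]),(5,4,[(15,1)]),(3,4,[(16,1)]),(4,10,[(21,1)])] [(1,1),(3,1),(4,1),(11,1)]) (.node 16 1 (.node 0 1 (.node 19 1 (.leaf [(0,3,[(2,1)]),(0,15,[(5,1)]),(0,9,[(10,1)]),(0,4,[(13,1)]),(2,6,[(14,1)]),(5,9,[(15,1)]),(8,12,[(19,1)]),(8,17,[(20,1)])]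 [(1,1),(0,2),(3,1),(4,1),(9,1),(11,1)]) (.node 20 1 (.leaf [(0,3,[(2,1)]),(0,15,[(5,1)]),(0,9,[(10,1)]),(2,2,[(12,1)]),(0,4,[(13,1)]),(8,4,[(14,1)]),(5,9,[(15,1)])] [(1,1),(0,2),(3,1),(4,1),(9,1),(11,1),(19,1)]) (.leaf [(0,3,[(2,1)]),(0,15,[(5,1)]),(0,9,[(10,1)]),(0,4,[(13,1)]),(5,9,[(15,1)])] [(1,1),(0,2),(3,1),(4,1),(9,1),(11,1),(19,1),(20,1)]))) (.node 19 1 (.leaf [(0,3,[(2,1)]),(0,15,[(5,1)]),(9,6,[(10,1)]),(2,6,[(14,1)]),(5,9,[(15,1)]),(8,12,[(19,1)]),(8,17,[(20,1)])] [(0,1),(1,1),(3,1),(4,1),(9,1),(11,1)]) (.node 20 1 (.leaf [(0,3,[(2,1)]),(0,15,[(5,1)]),(9,10,[(10,1)]),(2,2,[(12,1)]),(5,9,[(15,1)])] [(0,1),(1,1),(3,1),(4,1),(9,1),(11,1),(19,1)]) (.leaf [(0,3,[(2,1)]),(0,15,[(5,1)]),(5,9,[(15,1)])] [(1,1),(3,1),(4,1),(9,1),(11,1),(0,1),(19,1),(20,1)]))))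 (.node 0 1 (.node 14 1 (.leaf [(0,3,[(2,1)]),(0,9,[(10,1)]),(0,4,[(13,1)]),(7,2,[(15,1)]),(2,6,[(19,1)]),(8,4,[(20,1)])] [(1,1),(0,2),(3,1),(4,1),(9,1),(11,1),(16,1)]) (.leaf [(0,3,[(2,1)]),(0,9,[(10,1)]),(0,4,[(13,1)]),(2,2,[(12,1),(20,1)])] [(1,1),(0,2),(3,1),(4,1),(9,1),(11,1),(16,1),(14,1)])) (.node 15 1 (.leaf [(0,3,[(2,1)]),(0,18,[(10,1)]),(1,12,[(13,1)]),(7,2,[(14,1)]),(2,2,[(12,1),(20,1)])] [(0,1),(1,1),(3,1),(4,1),(9,1),(11,1),(16,1)]) (.leaf [(0,3,[(2,1)]),(2,2,[(12,1),(20,1)]),(2,6,[(14,1),(19,1)])] [(1,1),(4,1),(11,1),(3,1),(9,1),(16,1),(0,1),(15,1)]))))))) (.node 15 1 (.node 14 1 (.leaf [(0,3,[(2,1)]),(0,18,[(10,1)]),(5,8,[(12,1)]),(1,12,[(13,1)]),(5,9,[(16,1)]),(2,6,[(19,1)]),(7,12,[(21,1)]),(11,0,[(15,1),(17,1)])]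 [(1,1),(4,1),(11,1),(18,1)]) (.node 9 1 (.leaf [(0,3,[(2,1)]),(0,18,[(10,1)]),(0,12,[(12,1)]),(1,12,[(13,1)]),(5,9,[(16,1)]),(4,10,[(21,1)]),(9,19,[(15,1),(17,1)])] [(1,1),(4,1),(11,1),(14,1),(18,1)]) (.leaf [(0,3,[(2,1)]),(0,18,[(10,1)]),(1,12,[(13,1)]),(5,9,[(16,1)]),(2,2,[(12,1),(20,1)]),(10,16,[(3,1),(15,1),(17,1)])] [(1,1),(4,1),(11,1),(18,1),(14,1),(9,1)]))) (.node 16 1 (.node 10 1 (.node 3 1 (.leaf [(0,9,[(0,1)]),(0,3,[(2,1)]),(0,15,[(5,1)]),(3,4,[(9,1)]),(2,14,[(7,1)]),(3,3,[(12,1)]),(9,6,[(19,1)]),(9,10,[(20,1)])] [(1,1),(4,1),(11,1),(15,1),(18,1)]) (.leaf [(0,9,[(0,1)]),(0,3,[(2,1)]),(0,15,[(5,1)]),(3,4,[(9,1)]),(9,6,[(19,1)]),(9,10,[(20,1)])] [(1,1),(4,1),(11,1),(15,1),(18,1),(3,1)])) (.node 19 1 (.node 0 1 (.leaf [(0,3,[(2,1)]),(7,7,[(0,4)]),(0,15,[(5,1)]),(3,4,[(9,1)]),(0,4,[(13,1)]),(2,6,[(14,1)]),(8,12,[(19,1)]),(8,17,[(20,1)])]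 [(1,1),(4,1),(10,1),(11,1),(15,1),(18,1)]) (.leaf [(0,3,[(2,1)]),(0,15,[(5,1)]),(3,4,[(9,1)]),(2,6,[(14,1)]),(8,12,[(19,1)]),(8,17,[(20,1)])] [(1,1),(4,1),(10,1),(11,1),(15,1),(18,1),(0,1)])) (.leaf [(0,3,[(2,1)]),(0,15,[(5,1)]),(3,4,[(9,1)]),(0,4,[(0,1),(13,1)]),(2,2,[(12,1),(20,1)])] [(1,1),(4,1),(11,1),(15,1),(18,1),(10,1),(19,1)]))) (.node 10 1 (.node 12 1 (.leaf [(0,9,[(0,1)]),(3,3,[(3,1)]),(0,3,[(2,1)]),(0,12,[(9,1)]),(2,2,[(20,1)]),(2,6,[(14,1),(19,1)])] [(1,1),(4,1),(11,1),(15,1),(16,1),(18,1)]) (.leaf [(0,9,[(0,1)]),(0,3,[(2,1)]),(2,14,[(3,1),(7,1)]),(4,10,[(9,1),(21,1)]),(2,6,[(14,1),(19,1)])] [(1,1),(4,1),(11,1),(15,1),(16,1),(18,1),(12,1)])) (.node 9 1 (.leaf [(0,3,[(2,1)]),(0,12,[(12,1)]),(0,4,[(0,1),(13,1)]),(4,10,[(21,1)]),(2,6,[(14,1),(19,1)])]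 [(1,1),(4,1),(10,1),(11,1),(15,1),(16,1),(18,1)]) (.leaf [(0,3,[(2,1)]),(0,4,[(0,1),(13,1)]),(2,2,[(12,1),(20,1)]),(2,6,[(14,1),(19,1)])] [(1,1),(11,1),(4,1),(18,1),(15,1),(16,1),(10,1),(9,1)]))))))) (.node 9 1 (.node 18 1 (.node 9 2 (.node 3 1 (.leaf [(1,3,[(0,1)]),(0,1,[(2,1)]),(4,19,[(4,1)]),(0,12,[(12,1)]),(4,13,[(13,1)]),(4,16,[(14,1)]),(5,4,[(15,1)]),(8,7,[(16,1)]),(9,8,[(18,1)]),(4,8,[(20,1)]),(9,7,[(21,1)])] [(1,1),(7,1),(11,1)]) (.leaf [(1,3,[(0,1)]),(0,1,[(2,1)]),(4,19,[(4,1)]),(0,12,[(12,1)]),(4,13,[(13,1)]),(4,16,[(14,1)]),(5,4,[(15,1)]),(8,7,[(16,1)]),(9,7,[(21,1)])] [(1,1),(7,1),(11,1),(3,1)])) (.node 16 1 (.leaf [(1,3,[(0,1)]),(0,1,[(2,1)]),(0,15,[(5,1)]),(0,12,[(12,1)]),(4,13,[(13,1)]),(4,16,[(14,1)]),(5,4,[(15,1)]),(5,16,[(19,1)]),(10,18,[(20,1)])]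 [(1,1),(9,1),(7,1),(11,1)]) (.node 4 1 (.leaf [(1,3,[(0,1)]),(0,1,[(2,1)]),(0,12,[(12,1)]),(4,13,[(13,1)]),(4,16,[(14,1)]),(5,4,[(15,1)]),(2,10,[(19,1)]),(8,3,[(20,1)])] [(1,1),(9,1),(7,1),(11,1),(16,1)]) (.leaf [(1,3,[(0,1)]),(0,1,[(2,1)]),(0,12,[(12,1)]),(4,13,[(13,1)]),(4,16,[(14,1)]),(5,4,[(15,1)]),(4,8,[(3,1),(20,1)])] [(1,1),(7,1),(11,1),(9,1),(16,1),(4,1)])))) (.node 15 1 (.node 4 1 (.leaf [(0,1,[(2,1)]),(0,18,[(10,1)]),(0,12,[(12,1)]),(1,12,[(13,1)]),(4,15,[(16,1)]),(6,19,[(17,1)]),(2,10,[(19,1)]),(6,1,[(21,1)])] [(1,1),(7,1),(11,1),(18,1)]) (.leaf [(0,1,[(2,1)]),(0,18,[(10,1)]),(0,12,[(12,1)]),(1,12,[(13,1)]),(4,15,[(16,1)]),(6,1,[(21,1)]),(9,19,[(15,1),(17,1)]),(2,6,[(14,1),(19,1)])] [(1,1),(7,1),(11,1),(18,1),(4,1)]))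 (.node 0 1 (.node 19 1 (.node 10 1 (.leaf [(0,0,[(0,1)]),(0,1,[(2,1)]),(2,10,[(4,1)]),(0,12,[(12,1)]),(0,4,[(13,1)]),(2,6,[(14,1)]),(5,16,[(16,1)]),(1,14,[(20,1)]),(1,15,[(21,1)])] [(1,1),(7,1),(11,1),(15,1),(18,1)]) (.leaf [(0,1,[(2,1)]),(2,10,[(4,1)]),(0,12,[(12,1)]),(0,4,[(13,1)]),(2,6,[(14,1)]),(5,16,[(16,1)]),(1,15,[(21,1)])] [(1,1),(7,1),(11,1),(15,1),(18,1),(10,1)])) (.node 10 1 (.leaf [(0,0,[(0,1)]),(0,1,[(2,1)]),(0,12,[(12,1)]),(0,4,[(13,1)]),(1,14,[(20,1)]),(1,15,[(21,1)]),(0,15,[(5,1),(16,1)])] [(1,1),(7,1),(11,1),(15,1),(18,1),(19,1)]) (.leaf [(0,1,[(2,1)]),(0,12,[(12,1)]),(0,4,[(13,1)]),(1,15,[(21,1)]),(0,15,[(5,1),(16,1)])] [(1,1),(7,1),(11,1),(15,1),(18,1),(19,1),(10,1)]))) (.node 13 1 (.leaf [(0,1,[(2,1)]),(1,6,[(4,1)]),(0,12,[(12,1)]),(4,3,[(16,1)]),(5,6,[(21,1)]),(2,6,[(14,1),(19,1)])]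 [(0,1),(1,1),(7,1),(11,1),(15,1),(18,1)]) (.node 19 1 (.leaf [(0,1,[(2,1)]),(2,10,[(4,1)]),(0,12,[(12,1)]),(2,6,[(14,1)]),(5,16,[(16,1)]),(10,5,[(9,1),(21,2)])] [(0,1),(1,1),(7,1),(11,1),(13,1),(15,1),(18,1)]) (.leaf [(0,1,[(2,1)]),(0,12,[(12,1)]),(0,15,[(5,1),(16,1)]),(10,5,[(9,1),(21,2)])] [(1,1),(7,1),(11,1),(18,1),(15,1),(0,1),(13,1),(19,1)])))))) (u9))

def tree : Tree := .node 1 1 (.node 17 1 (u4) (.node 0 2 (.node 2 1 (.node 5 1 (.node 8 1 (.node 1 2 (.leaf [(0,5,[(0,2)]),(0,17,[(3,1)]),(0,6,[(2,1)]),(0,1,[(9,1)]),(0,0,[(10,1)]),(0,2,[(6,1)]),(0,3,[(7,1)]),(3,10,[(12,1)]),(0,4,[(13,1)]),(0,7,[(14,1)]),(0,15,[(16,1)]),(0,14,[(19,1)]),(0,11,[(20,1)]),(5,18,[(21,1)])] [(17,1)]) (.node 15 1 (.leaf [(0,5,[(0,2)]),(0,17,[(3,1)]),(0,6,[(2,1)]),(0,1,[(9,1)]),(0,0,[(10,1)]),(1,1,[(6,1)]),(0,3,[(7,1)]),(4,7,[(12,1)]),(0,4,[(13,1)]),(0,7,[(14,1)]),(0,15,[(16,1)]),(0,14,[(19,1)]),(0,11,[(20,1)]),(6,5,[(21,1)])]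 [(1,1),(17,1)]) (.node 11 1 (.leaf [(0,5,[(0,2)]),(0,17,[(3,1)]),(0,6,[(2,1)]),(0,1,[(9,1)]),(0,0,[(10,1)]),(0,3,[(7,1)]),(6,6,[(12,1)]),(0,4,[(13,1)]),(0,7,[(14,1)]),(0,15,[(16,1)]),(0,14,[(19,1)]),(0,11,[(20,1)]),(8,13,[(21,1)])] [(1,1),(15,1),(17,1)]) (.leaf [(0,5,[(0,2)]),(0,17,[(3,1)]),(0,6,[(2,1)]),(0,1,[(9,1)]),(0,0,[(10,1)]),(0,3,[(7,1)]),(0,4,[(13,1)]),(0,7,[(14,1)]),(0,15,[(16,1)]),(0,14,[(19,1)]),(0,11,[(20,1)])] [(17,1),(1,1),(15,1),(11,1)])))) (.node 15 1 (.leaf [(1,4,[(3,1)]),(1,9,[(2,1)]),(0,1,[(9,1)]),(0,0,[(10,1)]),(1,1,[(6,1)]),(0,3,[(7,1)]),(4,7,[(12,1)]),(0,4,[(13,1)]),(0,7,[(14,1)]),(0,15,[(16,1)]),(0,14,[(19,1)]),(0,11,[(20,1)]),(6,5,[(21,1)])] [(8,1),(17,1)]) (.leaf [(0,1,[(9,1)]),(0,0,[(10,1)]),(0,3,[(7,1)]),(0,2,[(1,1),(6,1)]),(0,4,[(13,1)]),(0,7,[(14,1)]),(0,15,[(16,1)]),(0,14,[(19,1)]),(0,11,[(20,1)])]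 [(17,1),(8,1),(15,1)]))) (.node 0 4 (.node 1 2 (.leaf [(0,1,[(9,1)]),(0,0,[(10,1)]),(0,2,[(6,1)]),(0,3,[(7,1)]),(0,5,[(8,1)]),(0,4,[(13,1)]),(0,7,[(14,1)]),(0,10,[(16,1)]),(0,14,[(19,1)]),(0,11,[(20,1)])] [(5,1),(17,1)]) (.leaf [(0,1,[(9,1)]),(0,0,[(10,1)]),(0,3,[(7,1)]),(0,5,[(8,1)]),(0,4,[(13,1)]),(0,7,[(14,1)]),(0,14,[(19,1)]),(0,11,[(20,1)]),(1,1,[(6,1),(15,1)])] [(5,1),(17,1),(1,1)])) (.node 6 1 (.leaf [(0,2,[(1,1)]),(0,1,[(9,1)]),(0,0,[(10,1)]),(0,3,[(7,1)]),(0,4,[(13,1)]),(0,7,[(14,1)]),(0,6,[(2,1),(8,1)]),(1,1,[(15,1)]),(0,14,[(19,1)]),(0,11,[(20,1)])] [(0,2),(5,1),(17,1)]) (.leaf [(0,1,[(9,1)]),(0,0,[(10,1)]),(0,3,[(7,1)]),(0,4,[(13,1)]),(0,7,[(14,1)]),(0,6,[(2,1),(8,1)]),(0,14,[(19,1)]),(0,11,[(20,1)])] [(17,1),(5,1),(0,2),(6,1)]))))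 (.node 4 1 (u1) (.node 16 1 (.node 14 1 (.node 0 4 (.leaf [(2,7,[(1,1)]),(0,15,[(5,1)]),(1,2,[(9,1)]),(0,0,[(10,1)]),(1,10,[(7,1)]),(5,2,[(11,1)]),(0,5,[(8,1)]),(1,8,[(12,1)]),(0,4,[(13,1)]),(6,17,[(15,1)]),(2,13,[(18,1)]),(2,6,[(19,1)]),(3,7,[(20,1)]),(3,8,[(21,1)])] [(2,1),(4,1),(17,1)]) (.node 0 3 (.leaf [(2,7,[(1,1)]),(0,15,[(5,1)]),(1,2,[(9,1)]),(0,0,[(10,1)]),(1,10,[(7,1)]),(5,2,[(11,1)]),(1,8,[(12,1)]),(0,4,[(13,1)]),(6,17,[(15,1)]),(2,13,[(18,1)]),(2,6,[(19,1)]),(3,7,[(20,1)]),(3,8,[(21,1)])] [(0,1),(2,1),(4,1),(17,1)]) (.leaf [(2,7,[(1,1)]),(0,15,[(5,1)]),(1,2,[(9,1)]),(0,0,[(10,1)]),(1,10,[(7,1)]),(5,2,[(11,1)]),(1,8,[(12,1)]),(0,4,[(13,1)]),(6,17,[(15,1)]),(2,6,[(19,1)]),(3,7,[(20,1)]),(3,8,[(21,1)]),(2,18,[(3,1),(18,1)])]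 [(2,1),(4,1),(17,1),(0,1)]))) (.node 19 1 (.leaf [(3,12,[(1,1)]),(0,15,[(5,1)]),(1,2,[(9,1)]),(0,0,[(10,1)]),(1,10,[(7,1)]),(6,8,[(11,1)]),(2,5,[(12,1)]),(0,4,[(13,1)]),(0,5,[(0,2),(8,1)]),(8,2,[(15,1)]),(8,12,[(19,1)]),(3,7,[(20,1)])] [(2,1),(4,1),(14,1),(17,1)]) (.node 0 4 (.leaf [(0,10,[(1,1)]),(0,15,[(5,1)]),(1,2,[(9,1)]),(0,0,[(10,1)]),(1,10,[(7,1)]),(0,5,[(8,1)]),(0,4,[(13,1)]),(3,7,[(20,1)]),(1,1,[(6,1),(15,1)])] [(2,1),(4,1),(14,1),(17,1),(19,1)]) (.node 6 1 (.leaf [(0,2,[(1,1)]),(0,15,[(5,1)]),(1,2,[(9,1)]),(0,0,[(10,1)]),(1,10,[(7,1)]),(0,4,[(13,1)]),(1,1,[(15,1)]),(3,7,[(20,1)])] [(0,2),(2,1),(4,1),(14,1),(17,1),(19,1)]) (.leaf [(0,15,[(5,1)]),(1,2,[(9,1)]),(0,0,[(10,1)]),(1,10,[(7,1)]),(0,4,[(13,1)]),(3,7,[(20,1)])] [(2,1),(4,1),(17,1),(14,1),(19,1),(0,2),(6,1)])))))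 (.node 12 1 (.node 8 1 (.node 1 2 (.node 5 1 (.leaf [(0,5,[(0,2)]),(3,0,[(3,1)]),(0,12,[(9,1)]),(0,0,[(10,1)]),(0,2,[(6,1)]),(7,0,[(12,1)]),(0,4,[(13,1)]),(1,8,[(14,1)]),(2,5,[(19,1)]),(2,2,[(20,1)]),(9,0,[(21,1)])] [(2,1),(4,1),(16,1),(17,1)]) (.leaf [(0,5,[(0,2)]),(0,12,[(9,1)]),(0,0,[(10,1)]),(0,2,[(6,1)]),(0,4,[(13,1)]),(1,8,[(14,1)]),(2,5,[(19,1)]),(2,2,[(20,1)])] [(2,1),(4,1),(16,1),(17,1),(5,1)])) (.node 3 1 (.node 6 1 (.leaf [(0,5,[(0,2)]),(3,0,[(5,1)]),(0,12,[(9,1)]),(0,0,[(10,1)]),(0,4,[(13,1)]),(1,8,[(14,1)]),(1,1,[(15,1)]),(2,5,[(19,1)]),(2,2,[(20,1)]),(5,15,[(7,1),(18,1)])] [(1,1),(2,1),(4,1),(16,1),(17,1)]) (.leaf [(0,5,[(0,2)]),(3,0,[(5,1)]),(0,12,[(9,1)]),(0,0,[(10,1)]),(0,4,[(13,1)]),(1,8,[(14,1)]),(2,5,[(19,1)]),(2,2,[(20,1)])]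 [(1,1),(2,1),(4,1),(16,1),(17,1),(6,1)])) (.leaf [(0,5,[(0,2)]),(0,12,[(9,1)]),(0,0,[(10,1)]),(0,4,[(13,1)]),(1,8,[(14,1)]),(2,5,[(19,1)]),(2,2,[(20,1)]),(1,1,[(6,1),(15,1)])] [(2,1),(4,1),(16,1),(17,1),(1,1),(3,1)]))) (.node 6 1 (.leaf [(0,2,[(1,1)]),(0,12,[(9,1)]),(0,0,[(10,1)]),(0,4,[(13,1)]),(1,8,[(14,1)]),(1,1,[(15,1)]),(2,5,[(19,1)]),(2,2,[(20,1)]),(5,15,[(3,1),(7,1),(18,1)])] [(2,1),(4,1),(8,1),(16,1),(17,1)]) (.leaf [(0,12,[(9,1)]),(0,0,[(10,1)]),(0,4,[(13,1)]),(1,8,[(14,1)]),(2,5,[(19,1)]),(2,2,[(20,1)])] [(2,1),(4,1),(16,1),(17,1),(8,1),(6,1)]))) (.node 18 1 (.node 14 1 (.leaf [(2,13,[(0,1)]),(2,18,[(3,1)]),(1,3,[(9,1)]),(0,0,[(10,1)]),(0,2,[(1,1),(6,1)]),(0,4,[(13,1)]),(7,2,[(15,1)]),(2,6,[(19,1)]),(8,4,[(20,1)]),(3,8,[(21,1)])]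 [(2,1),(4,1),(12,1),(16,1),(17,1)]) (.node 6 1 (.node 3 1 (.leaf [(0,2,[(1,1)]),(1,3,[(9,1)]),(0,0,[(10,1)]),(5,15,[(7,1)]),(0,4,[(13,1)]),(0,5,[(0,2),(8,1)]),(1,1,[(15,1)]),(4,8,[(20,1)])] [(2,1),(4,1),(12,1),(14,1),(16,1),(17,1)]) (.leaf [(0,2,[(1,1)]),(1,3,[(9,1)]),(0,0,[(10,1)]),(0,4,[(13,1)]),(0,5,[(0,2),(8,1)]),(1,1,[(15,1)])] [(2,1),(4,1),(12,1),(14,1),(16,1),(17,1),(3,1)])) (.leaf [(1,3,[(9,1)]),(0,0,[(10,1)]),(0,4,[(13,1)]),(0,5,[(0,2),(8,1)]),(4,8,[(3,1),(20,1)])] [(2,1),(4,1),(12,1),(16,1),(17,1),(14,1),(6,1)]))) (.node 6 1 (.node 14 1 (.leaf [(0,2,[(1,1)]),(0,0,[(10,1)]),(0,4,[(13,1)]),(0,5,[(0,2),(8,1)]),(1,1,[(15,1)]),(2,6,[(19,1)]),(3,8,[(21,1)])] [(2,1),(4,1),(12,1),(16,1),(17,1),(18,1)]) (.leaf [(0,2,[(1,1)]),(0,0,[(10,1)]),(0,4,[(13,1)]),(0,5,[(0,2),(8,1)]),(1,1,[(15,1)]),(1,15,[(9,1),(21,1)])]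 [(2,1),(4,1),(12,1),(16,1),(17,1),(18,1),(14,1)])) (.node 14 1 (.leaf [(0,0,[(10,1)]),(0,4,[(13,1)]),(0,5,[(0,2),(8,1)]),(2,6,[(19,1)]),(3,8,[(21,1)])] [(2,1),(4,1),(6,1),(12,1),(16,1),(17,1),(18,1)]) (.leaf [(0,0,[(10,1)]),(0,4,[(13,1)]),(0,5,[(0,2),(8,1)]),(1,15,[(9,1),(21,1)])] [(17,1),(2,1),(4,1),(16,1),(12,1),(18,1),(6,1),(14,1)])))))))) (u3))) (.node 11 1 (.node 4 1 (.node 0 2 (u5) (u6)) (u7)) (u10))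

end Pool.Agent.Lib.MP_2e8272_nt.Full.BaseB
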