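import Pool.Agent.Lib.MP_2e8272_nt.Full.Range

/-!
# Certificate data: multiplication table, uses, surviving parts
-/

namespace Pool.Agent.Lib.MP_2e8272_nt.Full.BaseB

open Full

def tb0 : List TE := [(1,2,[(0,1)],[]),
  (1,3,[(1,1)],[(0,1)]),
  (1,4,[(0,2)],[]),
  (1,5,[(2,1)],[(1004,1)]),
  (1,6,[(1,1)],[]),
  (1,7,[(3,1)],[(1006,1)]),
  (1,8,[(0,3)],[]),
  (1,9,[(1,2)],[(0,2)]),
  (1,10,[(2,1)],[(0,1),(1,1)]),
  (1,11,[(4,1)],[(1010,1)]),
  (1,12,[(0,1),(1,1)],[]),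
  (1,13,[(5,1)],[(0,1),(4,1)]),
  (1,14,[(0,1),(3,1)],[(1006,1)]),
  (1,15,[(2,1)],[(0,3)]),
  (1,16,[(0,4)],[]),
  (1,17,[(6,1)],[(0,1),(3,1),(5,1)]),
  (1,18,[(1,2)],[(0,1)]),
  (1,19,[(7,1)],[(1,1),(6,1)]),
  (1,20,[(2,1)],[(1,1)]),
  (1,21,[(3,1)],[(0,1),(2,1)]),
  (1,22,[(0,1),(4,1)],[(1010,1)]),
  (1,23,[(0,2),(8,1)],[(1022,1)]),
  (1,24,[(1004,1)],[]),
  (1,26,[(5,1)],[(4,1)]),
  (1,25,[(2,2)],[(1004,2)]),
  (1,27,[(1,3)],[(0,3)]),
  (1,28,[(0,2),(3,1)],[(1006,1)]),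
  (1,29,[(1029,1)],[(1028,1)]),
  (1,31,[(1031,1)],[(1030,1)]),
  (1,30,[(2,1)],[(0,2)]),
  (1,32,[(0,5)],[]),
  (1,33,[(4,1)],[(0,1),(2,1),(3,1)]),
  (1,34,[(6,1)],[(3,1),(5,1)]),
  (1,35,[(3,1)],[(1,1),(1004,1)]),
  (1,38,[(0,1),(7,1)],[(1,1),(6,1)]),
  (1,36,[(1,2)],[]),
  (1,39,[(1,1),(5,1)],[(0,2),(4,1)]),
  (1,40,[(0,1),(2,1)],[(1,1)]),
  (1,44,[(0,2),(4,1)],[(1010,1)]),
  (1,42,[(3,1)],[(2,1)])]

def tb1 : List TE := [(1,46,[(0,3),(8,1)],[(1022,1)]),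
  (1,45,[(1006,1)],[(0,4)]),
  (1,48,[(0,1),(1004,1)],[]),
  (1,51,[(1,1),(6,1)],[(1016,1)]),
  (1,49,[(3,2)],[(1006,2)]),
  (1,52,[(0,1),(5,1)],[(4,1)]),
  (1,54,[(1,3)],[(0,2)]),
  (1,50,[(2,2)],[(0,1),(1,1),(1004,1)]),
  (1,56,[(0,3),(3,1)],[(1006,1)]),
  (1,57,[(7,1)],[(0,1),(6,1)]),
  (1,55,[(4,1)],[(0,1),(1009,1)]),
  (1,58,[(0,1),(1029,1)],[(1028,1)]),
  (1,62,[(0,1),(1031,1)],[(1030,1)]),
  (1,63,[(1,1),(3,1)],[(0,2),(2,1)]),
  (1,60,[(2,1)],[(0,1)]),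
  (1,68,[(0,1),(6,1)],[(3,1),(5,1)]),
  (1,69,[(0,1),(1,1),(8,1)],[(1022,1)]),
  (1,64,[(0,6)],[]),
  (1,76,[(0,2),(7,1)],[(1,1),(6,1)]),
  (1,66,[(4,1)],[(2,1),(3,1)]),
  (1,77,[(4,1)],[(1006,2)]),
  (1,78,[(1,1),(5,1)],[(0,1),(4,1)]),
  (1,65,[(2,1),(5,1)],[(0,2),(1012,1)]),
  (1,70,[(3,1)],[(0,1),(1,2)]),
  (1,72,[(0,1),(1,2)],[]),
  (1,75,[(2,2)],[(0,3),(1004,1)]),
  (1,81,[(1,4)],[(0,4)]),
  (1,80,[(0,2),(2,1)],[(1,1)]),
  (1,84,[(0,1),(3,1)],[(2,1)]),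
  (1,87,[(1,1),(1029,1)],[(0,1),(1028,1)]),
  (1,88,[(0,3),(4,1)],[(1010,1)]),
  (1,91,[(1014,1)],[(0,1),(1012,1)]),
  (1,92,[(0,4),(8,1)],[(1022,1)]),
  (1,99,[(1,1),(4,1)],[(0,2),(2,1),(3,1)]),
  (1,85,[(6,1)],[(1004,1),(1014,1)]),
  (1,90,[(1006,1)],[(0,3)]),
  (1,93,[(1,1),(1031,1)],[(0,1),(1030,1)]),
  (1,98,[(0,1),(3,2)],[(1006,2)]),
  (1,102,[(1,1),(6,1)],[(0,1),(3,1),(5,1)]),
  (1,95,[(1020,1)],[(0,2),(1018,1)])]

def tb2 : List TE := [(1,96,[(0,2),(1004,1)],[]),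
  (1,100,[(2,2)],[(1,1),(1004,1)]),
  (1,104,[(0,2),(5,1)],[(4,1)]),
  (1,105,[(3,1)],[(0,1),(1004,1)]),
  (1,108,[(1,3)],[(0,1)]),
  (1,110,[(4,1)],[(1009,1)]),
  (1,114,[(7,1)],[(6,1)]),
  (1,115,[(2,1),(8,1)],[(1,1),(1022,1)]),
  (1,112,[(0,4),(3,1)],[(1006,1)]),
  (1,116,[(0,2),(1029,1)],[(1028,1)]),
  (1,117,[(1,2),(5,1)],[(0,3),(4,1)]),
  (1,119,[(6,1)],[(0,1),(5,1),(1006,1)]),
  (1,121,[(4,2)],[(1010,2)]),
  (1,120,[(2,1)],[]),
  (1,124,[(0,2),(1031,1)],[(1030,1)]),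
  (1,136,[(6,1)],[(1015,1)]),
  (1,138,[(8,1),(1004,1)],[(1022,1)]),
  (1,145,[(1030,1)],[(1,1),(1028,1)]),
  (1,155,[(1031,1)],[(1,1),(1029,1)]),
  (1,125,[(2,3)],[(1004,3)]),
  (1,126,[(1,1),(3,1)],[(0,1),(2,1)]),
  (1,132,[(0,1),(4,1)],[(2,1),(3,1)]),
  (1,128,[(0,7)],[]),
  (1,130,[(2,1),(5,1)],[(0,1),(1012,1)]),
  (1,143,[(5,1)],[(0,1),(1010,1)]),
  (1,133,[(3,1),(7,1)],[(2,1),(1018,1)]),
  (1,135,[(1,1),(1006,1)],[(0,5)]),
  (1,140,[(3,1)],[(1,2)]),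
  (1,144,[(1,1),(1004,1)],[]),
  (1,153,[(1018,1)],[(0,1),(1016,1)]),
  (1,161,[(0,2),(3,1),(8,1)],[(4,1),(7,1)]),
  (1,169,[(5,2)],[(0,2),(4,2)]),
  (1,170,[(6,1)],[(0,1),(1,1),(1014,1)]),
  (1,147,[(3,2)],[(0,1),(2,1),(1006,1)]),
  (1,150,[(2,2)],[(0,2),(1004,1)]),
  (1,152,[(0,3),(7,1)],[(1,1),(6,1)]),
  (1,156,[(1,1),(5,1)],[(4,1)]),
  (1,162,[(1,4)],[(0,3)]),
  (1,168,[(0,2),(3,1)],[(2,1)]),
  (1,187,[(4,1),(6,1)],[(0,1),(3,1),(5,1),(1010,1)])]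

def tb3 : List TE := [(1,190,[(1020,1)],[(0,1),(1018,1)]),
  (1,203,[(1029,1)],[(0,2),(1027,1)]),
  (1,204,[(1,1),(6,1)],[(3,1),(5,1)]),
  (1,207,[(1,2),(8,1)],[(1022,1)]),
  (1,154,[(0,1),(4,1)],[(1006,2)]),
  (1,160,[(0,3),(2,1)],[(1,1)]),
  (1,165,[(4,1)],[(0,1),(3,1),(1004,1)]),
  (1,174,[(1,1),(1029,1)],[(1028,1)]),
  (1,175,[(2,1),(3,1)],[(1,1),(1004,2)]),
  (1,182,[(1014,1)],[(1012,1)]),
  (1,184,[(0,5),(8,1)],[(1022,1)]),
  (1,186,[(1,1),(1031,1)],[(1030,1)]),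
  (1,189,[(1,2),(3,1)],[(0,3),(2,1)]),
  (1,209,[(1022,1)],[(1,1),(3,1),(6,1)]),
  (1,171,[(1019,1)],[(0,2),(6,1)]),
  (1,180,[(1006,1)],[(0,2)]),
  (1,196,[(0,2),(3,2)],[(1006,2)]),
  (1,198,[(1,1),(4,1)],[(0,1),(2,1),(3,1)]),
  (1,208,[(0,3),(5,1)],[(4,1)]),
  (1,238,[(6,1)],[(5,1),(1006,1)]),
  (1,289,[(6,2)],[(3,1),(5,1),(1016,1)]),
  (1,176,[(0,4),(4,1)],[(1010,1)]),
  (1,192,[(0,3),(1004,1)],[]),
  (1,195,[(2,1),(5,1)],[(0,4),(4,1)]),
  (1,200,[(2,2)],[(0,1),(1,2)]),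
  (1,216,[(1,3)],[]),
  (1,228,[(0,1),(7,1)],[(6,1)]),
  (1,248,[(1032,1)],[(0,2),(1030,1)]),
  (1,272,[(0,1),(6,1)],[(1015,1)]),
  (1,310,[(0,1),(1031,1)],[(1,1),(1029,1)]),
  (1,361,[(7,2)],[(6,1),(1018,1)]),
  (1,377,[(1029,1)],[(8,1),(1010,1)]),
  (1,465,[(1031,1)],[(0,1),(1029,1)]),
  (1,682,[(1033,1)],[(0,1),(1004,1),(1030,1)]),
  (1,210,[(3,1)],[(1004,1)]),
  (1,220,[(4,1)],[(1,2),(3,1)]),
  (1,230,[(0,1),(2,1),(8,1)],[(1,1),(1022,1)]),
  (1,231,[(4,1)],[(0,1),(2,1),(1006,1)]),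
  (1,232,[(0,3),(1029,1)],[(1028,1)]),
  (1,234,[(1,2),(5,1)],[(0,2),(4,1)])]

def tb4 : List TE := [(1,247,[(5,1),(7,1)],[(6,1),(1012,1)]),
  (1,253,[(0,1),(8,1)],[(1021,1)]),
  (1,266,[(0,1),(3,1),(7,1)],[(2,1),(1018,1)]),
  (1,275,[(2,1),(4,1)],[(0,1),(1004,1),(1009,1)]),
  (1,276,[(0,1),(8,1),(1004,1)],[(1022,1)]),
  (1,286,[(5,1)],[(1010,1)]),
  (1,345,[(2,1),(8,1)],[(0,1),(1022,1)]),
  (1,406,[(1029,1)],[(0,1),(1027,1)]),
  (1,1023,[(1033,1)],[(0,5),(1030,1)]),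
  (1,221,[(6,1)],[(0,2),(3,1),(4,1)]),
  (1,224,[(0,5),(3,1)],[(1006,1)]),
  (1,240,[(0,1),(2,1)],[]),
  (1,242,[(0,1),(4,2)],[(1010,2)]),
  (1,243,[(1,5)],[(0,5)]),
  (1,245,[(3,2)],[(1,1),(1004,1),(1006,1)]),
  (1,252,[(1,1),(3,1)],[(2,1)]),
  (1,255,[(6,1)],[(0,3),(1014,1)]),
  (1,256,[(0,8)],[]),
  (1,260,[(2,1),(5,1)],[(1012,1)]),
  (1,264,[(0,2),(4,1)],[(2,1),(3,1)]),
  (1,273,[(1014,1)],[(0,3),(4,1)]),
  (1,279,[(1,2),(1031,1)],[(0,2),(1030,1)]),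
  (1,290,[(0,1),(1030,1)],[(1,1),(1028,1)]),
  (1,297,[(1,2),(4,1)],[(0,3),(2,1),(3,1)]),
  (1,299,[(0,1),(1,2),(1026,1)],[(4,1),(1020,1)]),
  (1,304,[(0,4),(7,1)],[(1,1),(6,1)]),
  (1,306,[(1018,1)],[(1016,1)]),
  (1,322,[(0,3),(3,1),(8,1)],[(4,1),(7,1)]),
  (1,338,[(5,2)],[(0,1),(4,2)]),
  (1,340,[(6,1)],[(1,1),(1014,1)]),
  (1,357,[(6,1)],[(0,2),(2,1),(5,1)]),
  (1,368,[(0,6),(8,1)],[(1022,1)]),
  (1,380,[(1020,1)],[(1018,1)]),
  (1,399,[(1021,1)],[(6,1),(1006,1)]),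
  (1,414,[(0,1),(1,2),(8,1)],[(1022,1)]),
  (1,418,[(0,1),(1022,1)],[(1,1),(3,1),(6,1)]),
  (1,435,[(1030,1)],[(0,1),(1028,1)]),
  (1,437,[(0,2),(2,1),(8,1)],[(4,1),(6,1)]),
  (1,496,[(1032,1)],[(0,1),(1030,1)]),
  (1,578,[(6,2)],[(0,1),(3,2),(5,2)])]

def tb5 : List TE := [(1,598,[(1004,1),(1026,1)],[(2,2),(1022,1)]),
  (1,651,[(3,1),(1031,1)],[(0,1),(2,1),(1030,1)]),
  (1,667,[(0,2),(1029,1)],[(5,1),(1021,1)]),
  (1,722,[(0,1),(7,2)],[(6,1),(1018,1)]),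
  (1,725,[(2,1),(1030,1)],[(1,1),(1004,1),(1028,1)]),
  (1,775,[(2,1),(1031,1)],[(1,1),(1004,1),(1029,1)]),
  (1,812,[(1029,1)],[(1027,1)]),
  (1,992,[(1032,1)],[(1030,1)]),
  (1,1083,[(7,2)],[(0,1),(1,1),(6,2)]),
  (1,1127,[(0,2),(3,2),(8,1)],[(1,1),(4,1),(1020,1)]),
  (1,1444,[(0,2),(7,2)],[(6,1),(1018,1)]),
  (1,1445,[(6,2)],[(0,1),(1,1),(1014,1),(1016,1)]),
  (1,1550,[(2,1),(1031,1)],[(0,1),(1,2),(1029,1)]),
  (2,2,[(0,1)],[]),
  (3,3,[(1,1)],[]),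
  (4,4,[(1,1),(0,2)],[]),
  (5,5,[(2,1)],[]),
  (6,6,[(2,1),(1,1)],[]),
  (7,7,[(3,1)],[]),
  (8,8,[(3,1),(0,3)],[]),
  (9,9,[(3,1),(1,2),(0,1)],[]),
  (10,10,[(3,1),(2,1),(1,1)],[]),
  (11,11,[(4,1)],[]),
  (12,12,[(4,1),(1,1),(0,1)],[]),
  (13,13,[(5,1),(1,1)],[]),
  (14,14,[(9,1)],[]),
  (15,15,[(10,1)],[]),
  (16,16,[(5,1),(3,1),(0,2)],[]),
  (17,17,[(6,1),(0,1)],[]),
  (18,18,[(11,1)],[]),
  (19,19,[(7,1),(1,1)],[]),
  (20,20,[(12,1)],[]),
  (21,21,[(13,1)],[]),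
  (22,22,[(14,1)],[]),
  (23,23,[(8,1),(0,2)],[]),
  (24,24,[(15,1)],[]),
  (25,25,[(16,1)],[]),
  (26,26,[(17,1)],[]),
  (27,27,[(18,1)],[]),
  (28,28,[(19,1)],[])]

def tb6 : List TE := [(29,29,[(20,1)],[]),
  (30,30,[(21,1)],[]),
  (2,36,[(3,1)],[(0,2)]),
  (2,49,[(0,3),(3,2)],[(2,1),(1006,1)]),
  (3,50,[(3,2)],[(1,3)]),
  (2,55,[(1,1),(4,1)],[(0,4),(3,1)]),
  (3,65,[(0,1),(3,1),(5,1)],[(4,1)]),
  (4,66,[(0,1),(5,1)],[(2,1)]),
  (2,85,[(6,1)],[(5,1),(1004,1)]),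
  (2,121,[(4,2)],[(1,1),(3,1),(1010,1)]),
  (2,133,[(0,1),(1022,1)],[(6,1),(1006,1)]),
  (2,171,[(7,1)],[(0,3),(1014,1)]),
  (2,176,[(4,1)],[(1,4)]),
  (2,221,[(6,1)],[(0,1),(3,1),(1009,1)]),
  (2,225,[(2,1),(3,1)],[(0,1),(1,1)]),
  (1,250,[(2,3)],[(0,1),(1,1),(1004,2)]),
  (2,261,[(1029,1)],[(0,2),(3,1),(8,1)]),
  (1,270,[(1,1),(1006,1)],[(0,4)]),
  (1,280,[(0,1),(3,1)],[(1,2)]),
  (1,285,[(1020,1)],[(0,1),(6,1),(1004,1)]),
  (1,288,[(0,1),(1,1),(1004,1)],[]),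
  (1,294,[(3,2)],[(2,1),(1006,1)]),
  (1,300,[(2,2)],[(0,1),(1004,1)]),
  (1,308,[(0,2),(4,1)],[(1006,2)]),
  (1,312,[(0,1),(1,1),(5,1)],[(4,1)]),
  (1,315,[(3,1)],[(0,4)]),
  (1,320,[(0,4),(2,1)],[(1,1)]),
  (1,323,[(7,1)],[(0,1),(1,1),(3,1),(5,1)]),
  (1,324,[(1,4)],[(0,2)]),
  (1,325,[(2,2),(5,1)],[(0,2),(1004,1),(1012,1)]),
  (1,330,[(4,1)],[(3,1),(1004,1)]),
  (1,336,[(0,3),(3,1)],[(2,1)]),
  (2,341,[(1035,1)],[(0,1),(3,1),(1029,1)]),
  (1,342,[(1019,1)],[(0,1),(6,1)]),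
  (1,343,[(3,3)],[(1006,3)]),
  (1,348,[(0,1),(1,1),(1029,1)],[(1028,1)]),
  (1,350,[(2,1),(3,1)],[(0,1),(1,2),(1004,1)]),
  (1,351,[(1,3),(5,1)],[(0,4),(4,1)]),
  (3,352,[(5,1)],[(1004,1)]),
  (1,360,[(1006,1)],[(0,1)])]

def tb7 : List TE := [(1,363,[(4,2)],[(0,1),(2,1),(3,1),(1010,1)]),
  (1,364,[(1014,1)],[(1,1),(4,1)]),
  (1,372,[(0,1),(1,1),(1031,1)],[(1030,1)]),
  (1,374,[(4,1),(6,1)],[(3,1),(5,1),(1010,1)]),
  (1,375,[(2,3)],[(0,3),(1004,2)]),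
  (1,378,[(1,2),(3,1)],[(0,2),(2,1)]),
  (1,384,[(0,4),(1004,1)],[]),
  (2,385,[(0,4),(4,1)],[(1,1),(1006,1)]),
  (1,390,[(2,1),(5,1)],[(0,3),(4,1)]),
  (1,392,[(0,3),(3,2)],[(1006,2)]),
  (1,396,[(1,1),(4,1)],[(2,1),(3,1)]),
  (1,400,[(2,2)],[(1,2)]),
  (1,405,[(1,2),(1006,1)],[(0,6)]),
  (1,408,[(1,1),(6,1)],[(0,1),(1015,1)]),
  (1,416,[(0,4),(5,1)],[(4,1)]),
  (1,420,[(3,1)],[(0,1),(1,1)]),
  (1,425,[(2,1),(6,1)],[(1004,2),(1014,1)]),
  (1,429,[(5,1)],[(0,2),(2,1),(3,1)]),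
  (1,432,[(0,1),(1,3)],[]),
  (1,440,[(0,1),(4,1)],[(1,2),(3,1)]),
  (1,441,[(3,2)],[(0,2),(2,2)]),
  (1,442,[(6,1)],[(0,1),(3,1),(4,1)]),
  (1,448,[(0,6),(3,1)],[(1006,1)]),
  (1,450,[(2,2)],[(0,5)]),
  (1,455,[(1015,1)],[(1,1),(1012,1)]),
  (1,456,[(0,2),(7,1)],[(6,1)]),
  (1,459,[(1,1),(1018,1)],[(0,2),(1016,1)]),
  (1,460,[(0,2),(2,1),(8,1)],[(1,1),(1022,1)]),
  (1,462,[(4,1)],[(2,1),(1006,1)]),
  (1,464,[(0,4),(1029,1)],[(1028,1)]),
  (1,468,[(1,2),(5,1)],[(0,1),(4,1)]),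
  (1,475,[(2,1),(1020,1)],[(0,2),(1004,1),(1018,1)]),
  (1,476,[(0,1),(6,1)],[(5,1),(1006,1)]),
  (1,480,[(0,2),(2,1)],[]),
  (1,483,[(0,1),(3,1),(8,1)],[(2,1),(1022,1)]),
  (1,484,[(0,2),(4,2)],[(1010,2)]),
  (1,486,[(1,5)],[(0,4)]),
  (1,490,[(3,2)],[(0,1),(1,2),(1006,1)]),
  (1,494,[(5,1),(7,1)],[(1,1),(4,1),(6,1)]),
  (1,495,[(4,1)],[(0,4),(3,1)])]

def tb8 : List TE := [(1,500,[(2,3)],[(1,1),(1004,2)]),
  (1,504,[(0,1),(1,1),(3,1)],[(2,1)]),
  (1,506,[(0,2),(8,1)],[(1021,1)]),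
  (1,507,[(1,1),(5,2)],[(0,3),(4,2)]),
  (1,510,[(6,1)],[(0,2),(1014,1)]),
  (1,512,[(0,9)],[]),
  (1,513,[(1,1),(1019,1)],[(0,3),(6,1)]),
  (1,520,[(2,1),(5,1)],[(1,1),(4,1)]),
  (1,522,[(0,2),(1030,1)],[(3,1),(1026,1)]),
  (1,525,[(2,1),(3,1)],[(0,1),(1004,2)]),
  (1,528,[(0,3),(4,1)],[(2,1),(3,1)]),
  (1,532,[(0,2),(3,1),(7,1)],[(2,1),(1018,1)]),
  (1,539,[(3,1),(4,1)],[(1006,3)]),
  (1,540,[(1,1),(1006,1)],[(0,3)]),
  (1,544,[(0,2),(6,1)],[(1015,1)]),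
  (1,546,[(1014,1)],[(0,2),(4,1)]),
  (1,550,[(2,1),(4,1)],[(1004,1),(1009,1)]),
  (1,552,[(1024,1)],[(1022,1)]),
  (1,558,[(1,2),(1031,1)],[(0,1),(1030,1)]),
  (1,560,[(0,2),(3,1)],[(1,2)]),
  (2,561,[(4,1),(6,1)],[(1,1),(5,1),(1010,1)]),
  (1,567,[(1,3),(3,1)],[(0,4),(2,1)]),
  (1,570,[(1020,1)],[(6,1),(1004,1)]),
  (1,572,[(0,1),(5,1)],[(1010,1)]),
  (1,575,[(1025,1)],[(1004,1),(1022,1)]),
  (1,576,[(1004,2)],[]),
  (1,580,[(0,2),(1030,1)],[(1,1),(1028,1)]),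
  (1,585,[(5,1),(1006,1)],[(0,5),(4,1)]),
  (1,588,[(0,1),(3,2)],[(2,1),(1006,1)]),
  (1,594,[(1,2),(4,1)],[(0,2),(2,1),(3,1)]),
  (1,595,[(6,1)],[(0,1),(1,1),(5,1),(1004,1)]),
  (1,600,[(2,2)],[(1004,1)]),
  (1,605,[(4,2)],[(0,1),(1009,1),(1010,1)]),
  (1,608,[(0,5),(7,1)],[(1,1),(6,1)]),
  (1,609,[(1,1),(1029,1)],[(0,3),(1027,1)]),
  (1,612,[(1018,1)],[(0,1),(3,1),(5,1)]),
  (1,616,[(0,3),(4,1)],[(1006,2)]),
  (1,620,[(0,2),(1031,1)],[(1,1),(1029,1)]),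
  (1,621,[(1,3),(8,1)],[(0,1),(1022,1)]),
  (1,624,[(5,1),(1004,1)],[(4,1)])]

def tb9 : List TE := [(1,625,[(2,4)],[(1004,4)]),
  (1,627,[(1022,1)],[(0,1),(3,1),(6,1)]),
  (1,630,[(3,1)],[(0,3)]),
  (1,637,[(3,1),(1014,1)],[(0,1),(1006,1),(1012,1)]),
  (1,640,[(0,5),(2,1)],[(1,1)]),
  (1,644,[(0,4),(3,1),(8,1)],[(4,1),(7,1)]),
  (1,646,[(7,1)],[(1,1),(3,1),(5,1)]),
  (1,648,[(1,4)],[(0,1)]),
  (1,650,[(2,2),(5,1)],[(0,1),(1004,1),(1012,1)]),
  (1,660,[(4,1)],[(0,1),(1,1),(3,1)]),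
  (1,663,[(1,1),(6,1)],[(0,3),(3,1),(4,1)]),
  (1,665,[(1021,1)],[(0,1),(1,1),(1018,1)]),
  (1,672,[(0,4),(3,1)],[(2,1)]),
  (1,675,[(2,1),(1006,1)],[(0,7)]),
  (1,676,[(5,2)],[(4,2)]),
  (1,680,[(0,1),(6,1)],[(1,1),(1014,1)]),
  (1,684,[(1019,1)],[(6,1)]),
  (1,686,[(0,1),(3,3)],[(1006,3)]),
  (1,690,[(2,1),(8,1)],[(1022,1)]),
  (1,693,[(4,1)],[(0,2),(2,2)]),
  (1,696,[(1004,1),(1029,1)],[(1028,1)]),
  (1,700,[(2,1),(3,1)],[(1,2),(1004,1)]),
  (1,702,[(1,3),(5,1)],[(0,3),(4,1)]),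
  (1,704,[(0,6),(4,1)],[(1010,1)]),
  (1,714,[(6,1)],[(0,1),(2,1),(5,1)]),
  (1,715,[(5,1)],[(0,2),(1009,1)]),
  (1,720,[(1006,1)],[]),
  (1,726,[(4,2)],[(2,1),(3,1),(1010,1)]),
  (1,728,[(0,1),(1014,1)],[(1,1),(4,1)]),
  (1,729,[(1,6)],[(0,6)]),
  (1,735,[(3,2)],[(0,1),(1004,1),(1006,1)]),
  (1,736,[(0,7),(8,1)],[(1022,1)]),
  (1,741,[(5,1),(7,1)],[(0,2),(4,1),(6,1)]),
  (1,744,[(1,1),(1032,1)],[(0,3),(1030,1)]),
  (1,748,[(0,1),(4,1),(6,1)],[(3,1),(5,1),(1010,1)]),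
  (1,750,[(2,3)],[(0,2),(1004,2)]),
  (1,754,[(0,1),(1029,1)],[(8,1),(1010,1)]),
  (1,756,[(1,2),(3,1)],[(0,1),(2,1)]),
  (1,759,[(1,1),(8,1)],[(1021,1)]),
  (1,760,[(0,1),(1020,1)],[(1018,1)])]

def tb10 : List TE := [(1,765,[(1,1),(6,1)],[(0,4),(1014,1)]),
  (1,768,[(0,5),(1004,1)],[]),
  (1,770,[(4,1)],[(0,1),(1,2),(1006,1)]),
  (1,780,[(2,1),(5,1)],[(0,2),(4,1)]),
  (1,783,[(1,1),(1030,1)],[(3,1),(1026,1)]),
  (1,784,[(0,4),(3,2)],[(1006,2)]),
  (1,792,[(1012,1)],[(2,1),(3,1)]),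
  (1,798,[(3,1),(7,1)],[(6,1),(1006,1)]),
  (1,800,[(0,1),(2,2)],[(1,2)]),
  (1,805,[(3,1),(8,1)],[(1,2),(1022,1)]),
  (1,810,[(1,2),(1006,1)],[(0,5)]),
  (1,816,[(1,1),(6,1)],[(1015,1)]),
  (1,819,[(1,1),(1014,1)],[(0,4),(4,1)]),
  (1,825,[(2,1),(4,1)],[(0,4),(1009,1)]),
  (1,828,[(1,1),(8,1),(1004,1)],[(1022,1)]),
  (1,832,[(0,5),(5,1)],[(4,1)]),
  (2,833,[(0,4),(3,1),(6,1)],[(4,1),(1006,2)]),
  (1,836,[(0,2),(1022,1)],[(1,1),(3,1),(6,1)]),
  (1,840,[(3,1)],[(1,1)]),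
  (1,845,[(2,1),(5,2)],[(0,3),(4,1),(1012,1)]),
  (1,847,[(4,2)],[(1006,2),(1010,1)]),
  (1,850,[(2,1),(6,1)],[(0,1),(1,1),(1004,1),(1014,1)]),
  (1,855,[(1020,1)],[(0,4),(6,1)]),
  (1,858,[(5,1)],[(0,1),(2,1),(3,1)]),
  (1,864,[(1,2),(1004,1)],[]),
  (1,867,[(1,1),(6,2)],[(0,1),(3,1),(5,1),(1016,1)]),
  (1,870,[(1030,1)],[(1028,1)]),
  (1,874,[(0,3),(2,1),(8,1)],[(4,1),(6,1)]),
  (1,875,[(2,2),(3,1)],[(1,1),(1004,3)]),
  (1,880,[(0,2),(4,1)],[(1,2),(3,1)]),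
  (1,882,[(3,2)],[(0,1),(2,2)]),
  (1,884,[(6,1)],[(3,1),(4,1)]),
  (1,891,[(1,3),(4,1)],[(0,4),(2,1),(3,1)]),
  (1,896,[(0,7),(3,1)],[(1006,1)]),
  (1,897,[(0,3),(1027,1)],[(4,1),(1020,1)]),
  (1,899,[(1,1),(1031,1)],[(3,1),(1027,1)]),
  (1,900,[(2,2)],[(0,4)]),
  (1,910,[(1015,1)],[(1,2),(4,1)]),
  (1,912,[(0,3),(7,1)],[(6,1)]),
  (1,918,[(1,1),(1018,1)],[(0,1),(1016,1)])]

def tb11 : List TE := [(1,920,[(0,3),(2,1),(8,1)],[(1,1),(1022,1)]),
  (1,924,[(0,1),(4,1)],[(2,1),(1006,1)]),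
  (1,928,[(0,5),(1029,1)],[(1028,1)]),
  (1,930,[(1031,1)],[(1029,1)]),
  (1,931,[(3,2),(7,1)],[(2,1),(1006,1),(1018,1)]),
  (1,935,[(4,1),(6,1)],[(1009,1),(1016,1)]),
  (1,936,[(1,2),(5,1)],[(4,1)]),
  (1,945,[(1,1),(3,1)],[(0,5)]),
  (1,950,[(2,1),(1020,1)],[(0,1),(1004,1),(1018,1)]),
  (1,952,[(0,2),(6,1)],[(5,1),(1006,1)]),
  (1,960,[(0,3),(2,1)],[]),
  (1,966,[(0,2),(3,1),(8,1)],[(2,1),(1022,1)]),
  (1,968,[(0,3),(4,2)],[(1010,2)]),
  (1,969,[(7,1)],[(1016,1)]),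
  (1,972,[(1,5)],[(0,3)]),
  (1,975,[(2,2),(5,1)],[(0,5),(1012,1)]),
  (1,980,[(3,2)],[(1,2),(1006,1)]),
  (1,988,[(0,1),(5,1),(7,1)],[(1,1),(4,1),(6,1)]),
  (1,990,[(4,1)],[(0,3),(3,1)]),
  (1,1000,[(2,3)],[(0,1),(1,2),(1004,1)]),
  (1,1001,[(5,1)],[(0,1),(1006,2)]),
  (1,1008,[(3,1),(1004,1)],[(2,1)]),
  (1,1012,[(0,3),(8,1)],[(1021,1)]),
  (1,1014,[(1,1),(5,2)],[(0,2),(4,2)]),
  (1,1015,[(1030,1)],[(1004,1),(1027,1)]),
  (1,1020,[(6,1)],[(0,1),(1014,1)]),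
  (1,1024,[(0,10)],[]),
  (1,1026,[(1,1),(1019,1)],[(0,2),(6,1)]),
  (1,1029,[(3,3)],[(0,1),(2,1),(1006,2)]),
  (1,1035,[(8,1),(1006,1)],[(0,2),(1022,1)]),
  (1,1040,[(0,1),(2,1),(5,1)],[(1,1),(4,1)]),
  (1,1044,[(1,2),(1029,1)],[(1028,1)]),
  (1,1045,[(2,1),(1022,1)],[(0,2),(3,1),(1018,1)]),
  (1,1050,[(2,1),(3,1)],[(1004,2)]),
  (1,1053,[(1,4),(5,1)],[(0,5),(4,1)]),
  (1,1056,[(0,4),(4,1)],[(2,1),(3,1)]),
  (1,1064,[(0,3),(3,1),(7,1)],[(2,1),(1018,1)]),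
  (1,1071,[(1,1),(6,1)],[(0,3),(2,1),(5,1)]),
  (1,1078,[(0,1),(3,1),(4,1)],[(1006,3)]),
  (1,1080,[(1,1),(1006,1)],[(0,2)])]

def tb12 : List TE := [(1,1088,[(0,3),(6,1)],[(1015,1)]),
  (1,1089,[(4,2)],[(0,2),(2,2),(3,2)]),
  (1,1092,[(1014,1)],[(0,1),(4,1)]),
  (1,1100,[(2,1),(4,1)],[(0,1),(1,1),(1009,1)]),
  (1,1104,[(0,1),(1024,1)],[(1022,1)]),
  (1,1105,[(2,1),(6,1)],[(0,3),(3,1),(1012,1)]),
  (1,1116,[(1,2),(1031,1)],[(1030,1)]),
  (1,1120,[(0,3),(3,1)],[(1,2)]),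
  (1,1122,[(4,1),(6,1)],[(0,1),(2,1),(3,2),(5,1)]),
  (1,1125,[(2,3)],[(0,6),(1004,1)]),
  (1,1131,[(1029,1)],[(0,1),(2,1),(3,1),(8,1)]),
  (1,1134,[(1,3),(3,1)],[(0,3),(2,1)]),
  (1,1140,[(1020,1)],[(0,1),(1,1),(6,1)]),
  (1,1144,[(0,2),(5,1)],[(1010,1)]),
  (1,1150,[(1025,1)],[(0,1),(1,1),(1022,1)]),
  (1,1152,[(0,1),(1004,2)],[]),
  (1,1155,[(4,1)],[(0,1),(1004,1),(1006,1)]),
  (1,1156,[(6,2)],[(3,2),(5,2)]),
  (1,1160,[(0,3),(1030,1)],[(1,1),(1028,1)]),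
  (1,1170,[(5,1),(1006,1)],[(0,4),(4,1)]),
  (1,1176,[(0,2),(3,2)],[(2,1),(1006,1)]),
  (1,1183,[(5,1),(1014,1)],[(0,2),(4,1),(1012,1)]),
  (1,1188,[(1,2),(4,1)],[(0,1),(2,1),(3,1)]),
  (1,1190,[(6,1)],[(1,1),(5,1),(1004,1)]),
  (1,1196,[(0,1),(1004,1),(1026,1)],[(2,2),(1022,1)]),
  (1,1197,[(1021,1)],[(0,1),(2,1),(6,1)]),
  (1,1200,[(2,2)],[(0,1),(1,1)]),
  (1,1210,[(4,2)],[(1009,1),(1010,1)]),
  (1,1215,[(1,3),(1006,1)],[(0,7)]),
  (1,1216,[(0,6),(7,1)],[(1,1),(6,1)]),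
  (1,1218,[(1,1),(1029,1)],[(0,2),(1027,1)]),
  (1,1224,[(1018,1)],[(3,1),(5,1)]),
  (1,1225,[(3,2)],[(1,2),(1004,2)]),
  (1,1232,[(0,4),(4,1)],[(1006,2)]),
  (1,1235,[(5,1),(1020,1)],[(0,3),(4,1),(1018,1)]),
  (1,1240,[(0,3),(1031,1)],[(1,1),(1029,1)]),
  (1,1242,[(1,3),(8,1)],[(1022,1)]),
  (1,1248,[(0,1),(5,1),(1004,1)],[(4,1)]),
  (1,1250,[(2,4)],[(0,1),(1,1),(1004,3)]),
  (1,1254,[(1022,1)],[(3,1),(6,1)])]

def tb13 : List TE := [(1,1260,[(3,1)],[(0,2)]),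
  (1,1265,[(2,1),(8,1)],[(3,1),(1019,1)]),
  (1,1274,[(3,1),(1014,1)],[(1006,1),(1012,1)]),
  (1,1275,[(2,1),(6,1)],[(0,3),(1004,1),(1014,1)]),
  (1,1280,[(0,6),(2,1)],[(1,1)]),
  (1,1287,[(1,1),(5,1)],[(0,3),(2,1),(3,1)]),
  (1,1288,[(0,5),(3,1),(8,1)],[(4,1),(7,1)]),
  (1,1292,[(0,1),(7,1)],[(1,1),(3,1),(5,1)]),
  (1,1296,[(1,4)],[]),
  (1,1300,[(2,2),(5,1)],[(1004,1),(1012,1)]),
  (1,1302,[(3,1),(1031,1)],[(2,1),(1030,1)]),
  (1,1305,[(1,1),(1030,1)],[(0,2),(1028,1)]),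
  (1,1309,[(4,1),(6,1)],[(0,1),(5,1),(1006,1),(1010,1)]),
  (1,1311,[(0,1),(8,1),(1006,1)],[(4,1),(6,1)]),
  (1,1320,[(4,1)],[(1,1),(3,1)]),
  (1,1323,[(1,1),(3,2)],[(0,3),(2,2)]),
  (1,1326,[(1,1),(6,1)],[(0,2),(3,1),(4,1)]),
  (1,1330,[(1021,1)],[(1,1),(1018,1)]),
  (1,1331,[(4,3)],[(1010,3)]),
  (1,1334,[(0,3),(1029,1)],[(5,1),(1021,1)]),
  (1,1344,[(0,5),(3,1)],[(2,1)]),
  (1,1350,[(2,1),(1006,1)],[(0,6)]),
  (1,1352,[(0,1),(5,2)],[(4,2)]),
  (1,1360,[(0,2),(6,1)],[(1,1),(1014,1)]),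
  (1,1364,[(1033,1)],[(1004,1),(1030,1)]),
  (1,1365,[(1015,1)],[(0,1),(1012,1)]),
  (1,1368,[(0,1),(1019,1)],[(6,1)]),
  (1,1372,[(0,2),(3,3)],[(1006,3)]),
  (1,1375,[(2,2),(4,1)],[(0,1),(1004,2),(1009,1)]),
  (1,1377,[(1,2),(1018,1)],[(0,3),(1016,1)]),
  (1,1380,[(0,1),(2,1),(8,1)],[(1022,1)]),
  (1,1386,[(4,1)],[(0,1),(2,2)]),
  (1,1392,[(0,1),(1004,1),(1029,1)],[(1028,1)]),
  (1,1395,[(1,1),(1031,1)],[(0,2),(1029,1)]),
  (1,1400,[(2,1),(3,1)],[(0,1),(1,3)]),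
  (1,1404,[(1,3),(5,1)],[(0,2),(4,1)]),
  (1,1408,[(0,7),(4,1)],[(1010,1)]),
  (1,1421,[(3,1),(1029,1)],[(0,2),(1006,1),(1027,1)]),
  (1,1425,[(2,1),(1020,1)],[(0,5),(1018,1)]),
  (1,1428,[(6,1)],[(2,1),(5,1)])]

def tb14 : List TE := [(1,1430,[(5,1)],[(0,1),(1009,1)]),
  (1,1440,[(0,1),(1006,1)],[]),
  (1,1449,[(1,1),(3,1),(8,1)],[(2,1),(1022,1)]),
  (2,1450,[(1030,1)],[(5,1),(1019,1)]),
  (1,1452,[(0,1),(4,2)],[(2,1),(3,1),(1010,1)]),
  (1,1456,[(0,2),(1014,1)],[(1,1),(4,1)]),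
  (1,1458,[(1,6)],[(0,5)]),
  (1,1463,[(1022,1)],[(2,1),(1018,1)]),
  (1,1470,[(3,2)],[(1004,1),(1006,1)]),
  (1,1472,[(0,8),(8,1)],[(1022,1)]),
  (1,1482,[(5,1),(7,1)],[(0,1),(4,1),(6,1)]),
  (1,1485,[(1,1),(4,1)],[(0,5),(3,1)]),
  (1,1488,[(1,1),(1032,1)],[(0,2),(1030,1)]),
  (1,1495,[(1026,1)],[(0,1),(2,1),(1022,1)]),
  (1,1496,[(0,2),(4,1),(6,1)],[(3,1),(5,1),(1010,1)]),
  (1,1500,[(2,3)],[(0,1),(1004,2)]),
  (1,1508,[(0,2),(1029,1)],[(8,1),(1010,1)]),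
  (1,1512,[(1,2),(3,1)],[(2,1)]),
  (1,1518,[(0,1),(1,1),(8,1)],[(1021,1)]),
  (1,1520,[(0,2),(1020,1)],[(1018,1)]),
  (1,1521,[(1,2),(5,2)],[(0,4),(4,2)]),
  (1,1530,[(1,1),(6,1)],[(0,3),(1014,1)]),
  (1,1536,[(0,6),(1004,1)],[]),
  (1,1539,[(1,2),(1019,1)],[(0,4),(6,1)]),
  (1,1540,[(4,1)],[(1,2),(1006,1)]),
  (1,1547,[(6,1)],[(0,1),(2,1),(1012,1)]),
  (1,1560,[(2,1),(5,1)],[(0,1),(4,1)]),
  (1,1566,[(0,1),(1,1),(1030,1)],[(3,1),(1026,1)]),
  (1,1568,[(0,5),(3,2)],[(1006,2)]),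
  (1,1573,[(4,1),(5,1)],[(0,1),(1010,2)]),
  (1,1575,[(2,1),(3,1)],[(0,4),(1004,1)]),
  (1,1584,[(0,1),(1012,1)],[(2,1),(3,1)]),
  (1,1596,[(0,1),(3,1),(7,1)],[(6,1),(1006,1)]),
  (1,1600,[(0,2),(2,2)],[(1,2)]),
  (1,1610,[(0,1),(3,1),(8,1)],[(1,2),(1022,1)]),
  (1,1615,[(7,1)],[(1,1),(1004,1),(1014,1)]),
  (1,1617,[(3,1),(4,1)],[(0,1),(2,1),(1006,2)]),
  (1,1620,[(1,2),(1006,1)],[(0,4)]),
  (1,1624,[(0,1),(1029,1)],[(1027,1)]),
  (1,1625,[(2,3),(5,1)],[(0,2),(1004,2),(1012,1)])]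

def tb15 : List TE := [(1,1632,[(0,1),(1,1),(6,1)],[(1015,1)]),
  (1,1638,[(1,1),(1014,1)],[(0,3),(4,1)]),
  (1,1650,[(2,1),(4,1)],[(0,3),(1009,1)]),
  (1,1656,[(0,1),(1,1),(8,1),(1004,1)],[(1022,1)]),
  (1,1664,[(0,6),(5,1)],[(4,1)]),
  (1,1666,[(3,1),(6,1)],[(5,1),(1006,2)]),
  (1,1672,[(0,3),(1022,1)],[(1,1),(3,1),(6,1)]),
  (1,1680,[(0,1),(3,1)],[(1,1)]),
  (1,1683,[(1,1),(4,1),(6,1)],[(0,1),(2,1),(3,1),(1016,1)]),
  (1,1690,[(2,1),(5,2)],[(0,2),(4,1),(1012,1)]),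
  (1,1694,[(0,1),(4,2)],[(1006,2),(1010,1)]),
  (1,1700,[(2,1),(6,1)],[(1,1),(1004,1),(1014,1)]),
  (1,1701,[(1,4),(3,1)],[(0,5),(2,1)]),
  (1,1710,[(1020,1)],[(0,3),(6,1)]),
  (1,1715,[(3,3)],[(1,1),(1004,1),(1006,2)]),
  (1,1716,[(5,1)],[(2,1),(3,1)]),
  (1,1725,[(1025,1)],[(0,3),(1022,1)]),
  (1,1728,[(0,1),(1,2),(1004,1)],[]),
  (1,1729,[(7,1),(1014,1)],[(0,2),(4,1),(1018,1)]),
  (1,1734,[(1,1),(6,2)],[(3,1),(5,1),(1016,1)]),
  (1,1740,[(0,1),(1030,1)],[(1028,1)]),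
  (1,1748,[(0,4),(2,1),(8,1)],[(4,1),(6,1)]),
  (1,1750,[(2,2),(3,1)],[(0,1),(1,2),(1004,2)]),
  (1,1755,[(1,1),(5,1),(1006,1)],[(0,6),(4,1)]),
  (1,1760,[(0,3),(4,1)],[(1,2),(3,1)]),
  (1,1764,[(3,2)],[(2,2)]),
  (1,1768,[(0,1),(6,1)],[(3,1),(4,1)]),
  (1,1771,[(0,2),(8,1)],[(1,1),(1020,1)]),
  (1,1782,[(1,3),(4,1)],[(0,3),(2,1),(3,1)]),
  (1,1785,[(6,1)],[(0,2),(5,1),(1004,1)]),
  (1,1792,[(0,8),(3,1)],[(1006,1)]),
  (1,1794,[(0,4),(1027,1)],[(4,1),(1020,1)]),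
  (1,1798,[(0,1),(1,1),(1031,1)],[(3,1),(1027,1)]),
  (1,1800,[(2,2)],[(0,3)]),
  (1,1815,[(4,2)],[(0,1),(3,1),(1004,1),(1010,1)]),
  (1,1820,[(3,1),(5,1)],[(1,1),(1012,1)]),
  (1,1824,[(0,4),(7,1)],[(6,1)]),
  (1,1827,[(1029,1)],[(0,1),(1,1),(1026,1)]),
  (1,1836,[(1,1),(1018,1)],[(1016,1)]),
  (1,1840,[(0,4),(2,1),(8,1)],[(1,1),(1022,1)])]

def tb16 : List TE := [(1,1848,[(0,2),(4,1)],[(2,1),(1006,1)]),
  (1,1856,[(0,6),(1029,1)],[(1028,1)]),
  (1,1859,[(5,2)],[(0,1),(2,1),(3,1),(1012,1)]),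
  (1,1860,[(0,1),(1031,1)],[(1029,1)]),
  (1,1862,[(0,1),(3,2),(7,1)],[(2,1),(1006,1),(1018,1)]),
  (1,1863,[(1,4),(8,1)],[(0,2),(1022,1)]),
  (1,1870,[(4,1),(6,1)],[(1,2),(3,1),(1016,1)]),
  (1,1872,[(0,1),(1,2),(5,1)],[(4,1)]),
  (1,1875,[(2,4)],[(0,3),(1004,3)]),
  (1,1881,[(1,1),(1022,1)],[(0,2),(3,1),(6,1)]),
  (1,1885,[(1029,1)],[(0,1),(8,1),(1009,1)]),
  (1,1890,[(1,1),(3,1)],[(0,4)]),
  (1,1900,[(2,1),(1020,1)],[(1004,1),(1018,1)]),
  (1,1904,[(0,3),(6,1)],[(5,1),(1006,1)]),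
  (1,1911,[(3,1),(1014,1)],[(0,2),(2,1),(1012,1)]),
  (1,1920,[(0,4),(2,1)],[]),
  (1,1925,[(4,1)],[(1,2),(1004,2)]),
  (1,1932,[(0,3),(3,1),(8,1)],[(2,1),(1022,1)]),
  (1,1936,[(0,4),(4,2)],[(1010,2)]),
  (1,1938,[(7,1)],[(0,1),(3,1),(5,1)]),
  (1,1944,[(1,5)],[(0,2)]),
  (1,1950,[(2,2),(5,1)],[(0,4),(1012,1)]),
  (1,1960,[(0,1),(3,2)],[(1,2),(1006,1)]),
  (1,1976,[(0,2),(5,1),(7,1)],[(1,1),(4,1),(6,1)]),
  (1,1980,[(4,1)],[(0,2),(3,1)]),
  (1,1984,[(0,1),(1032,1)],[(1030,1)]),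
  (1,1989,[(1018,1)],[(0,4),(3,1),(4,1)]),
  (1,1995,[(1021,1)],[(0,2),(1018,1)]),
  (1,2000,[(2,3)],[(1,2),(1004,1)]),
  (1,2001,[(0,1),(1,1),(1029,1)],[(5,1),(1021,1)]),
  (1,2002,[(5,1)],[(1006,2)]),
  (1,2016,[(0,1),(3,1),(1004,1)],[(2,1)]),
  (1,2023,[(6,2)],[(5,1),(1006,1),(1016,1)]),
  (1,2024,[(0,4),(8,1)],[(1021,1)]),
  (1,2025,[(1006,2)],[(0,8)]),
  (1,2028,[(1,1),(5,2)],[(0,1),(4,2)]),
  (1,2030,[(1030,1)],[(0,1),(1,1),(1027,1)]),
  (1,2040,[(6,1)],[(1014,1)]),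
  (1,2046,[(1033,1)],[(0,4),(1030,1)]),
  (1,2048,[(0,11)],[])]

def tb17 : List TE := [(1,2052,[(1,1),(1019,1)],[(0,1),(6,1)]),
  (1,2057,[(4,2),(6,1)],[(0,1),(3,1),(5,1),(1010,2)]),
  (1,2058,[(3,3)],[(2,1),(1006,2)]),
  (1,2070,[(8,1),(1006,1)],[(0,1),(1022,1)]),
  (1,2079,[(1,1),(4,1)],[(0,3),(2,2)]),
  (2,2080,[(5,1)],[(0,1),(2,1)]),
  (1,2088,[(0,1),(1,2),(1029,1)],[(1028,1)]),
  (1,2090,[(2,1),(1022,1)],[(0,1),(3,1),(1018,1)]),
  (1,2093,[(0,2),(1028,1)],[(1,1),(4,1),(1020,1)]),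
  (1,2100,[(2,1),(3,1)],[(0,1),(1,1),(1004,1)]),
  (1,2106,[(1,4),(5,1)],[(0,4),(4,1)]),
  (1,2112,[(0,5),(4,1)],[(2,1),(3,1)]),
  (1,2125,[(2,2),(6,1)],[(1004,3),(1014,1)]),
  (1,2128,[(0,4),(3,1),(7,1)],[(2,1),(1018,1)]),
  (1,2142,[(1,1),(6,1)],[(0,2),(2,1),(5,1)]),
  (1,2145,[(5,1)],[(0,2),(3,1),(1004,1)]),
  (1,2156,[(0,2),(3,1),(4,1)],[(1006,3)]),
  (1,2160,[(1,1),(1006,1)],[(0,1)]),
  (1,2166,[(7,2)],[(1,1),(6,2)]),
  (1,2170,[(3,1),(1031,1)],[(0,1),(1,2),(1030,1)]),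
  (1,2175,[(2,1),(1030,1)],[(0,1),(1004,1),(1028,1)]),
  (1,2176,[(0,4),(6,1)],[(1015,1)]),
  (1,2178,[(4,2)],[(0,1),(2,2),(3,2)]),
  (1,2184,[(1014,1)],[(4,1)]),
  (1,2185,[(1025,1)],[(4,1),(6,1)]),
  (1,2187,[(1,7)],[(0,7)]),
  (1,2197,[(5,3)],[(0,3),(4,3)]),
  (1,2200,[(2,1),(4,1)],[(1,1),(1009,1)]),
  (1,2205,[(3,2)],[(0,4),(1006,1)]),
  (1,2208,[(0,2),(1024,1)],[(1022,1)]),
  (1,2210,[(2,1),(6,1)],[(0,2),(3,1),(1012,1)]),
  (1,2223,[(5,1),(1019,1)],[(0,3),(4,1),(6,1)]),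
  (1,2232,[(0,1),(1,2),(1031,1)],[(1030,1)]),
  (2,2233,[(1,1),(1033,1)],[(0,3),(2,1),(1027,1)]),
  (1,2240,[(0,4),(3,1)],[(1,2)]),
  (1,2244,[(4,1),(6,1)],[(2,1),(3,2),(5,1)]),
  (1,2250,[(2,3)],[(0,5),(1004,1)]),
  (1,2254,[(0,3),(3,2),(8,1)],[(1,1),(4,1),(1020,1)]),
  (1,2261,[(7,1)],[(0,1),(1,1),(5,1),(1006,1)]),
  (1,2262,[(1029,1)],[(2,1),(3,1),(8,1)])]

def tb18 : List TE := [(1,2268,[(1,3),(3,1)],[(0,2),(2,1)]),
  (1,2275,[(2,1),(1015,1)],[(1,1),(1004,1),(1012,1)]),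
  (1,2277,[(1,2),(8,1)],[(3,1),(7,1)]),
  (1,2280,[(1020,1)],[(1,1),(6,1)]),
  (1,2288,[(0,3),(5,1)],[(1010,1)]),
  (1,2295,[(1018,1)],[(0,5),(1014,1)]),
  (1,2299,[(4,1),(1022,1)],[(2,1),(3,2),(1018,1)]),
  (1,2300,[(1025,1)],[(1,1),(1022,1)]),
  (1,2304,[(0,2),(1004,2)],[]),
  (1,2310,[(4,1)],[(1004,1),(1006,1)]),
  (1,2312,[(0,1),(6,2)],[(3,2),(5,2)]),
  (1,2320,[(0,4),(1030,1)],[(1,1),(1028,1)]),
  (1,2325,[(2,1),(1031,1)],[(0,1),(1004,1),(1029,1)]),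
  (1,2340,[(5,1),(1006,1)],[(0,3),(4,1)]),
  (1,2349,[(1,2),(1030,1)],[(0,1),(3,1),(1026,1)]),
  (1,2352,[(0,3),(3,2)],[(2,1),(1006,1)]),
  (1,2366,[(5,1),(1014,1)],[(0,1),(4,1),(1012,1)]),
  (1,2375,[(2,2),(1020,1)],[(0,2),(1004,2),(1018,1)]),
  (1,2376,[(1,2),(4,1)],[(2,1),(3,1)]),
  (1,2380,[(6,1)],[(0,1),(1,2),(5,1)]),
  (1,2392,[(0,2),(1004,1),(1026,1)],[(2,2),(1022,1)]),
  (1,2394,[(1021,1)],[(2,1),(6,1)]),
  (1,2400,[(2,2)],[(1,1)]),
  (2,2401,[(3,4)],[(1,3),(1006,2)]),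
  (1,2415,[(3,1),(8,1)],[(0,1),(1,1),(1022,1)]),
  (1,2420,[(4,2)],[(1,2),(3,1),(1010,1)]),
  (1,2430,[(1,3),(1006,1)],[(0,6)]),
  (1,2431,[(6,1)],[(0,2),(3,1),(1010,1)]),
  (3,2432,[(1,1),(1019,1)],[(0,1),(3,2)]),
  (1,2436,[(1,1),(1029,1)],[(0,1),(1027,1)]),
  (1,2448,[(1018,1)],[(0,1),(1015,1)]),
  (1,2450,[(3,2)],[(0,1),(1,3),(1004,1)]),
  (1,2457,[(1,2),(1014,1)],[(0,5),(4,1)]),
  (1,2464,[(0,5),(4,1)],[(1006,2)]),
  (1,2470,[(5,1),(1020,1)],[(0,2),(4,1),(1018,1)]),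
  (1,2475,[(2,1),(4,1)],[(0,4),(3,1),(1004,1)]),
  (1,2480,[(1032,1)],[(0,1),(1,1),(1029,1)]),
  (1,2484,[(0,1),(1,3),(8,1)],[(1022,1)]),
  (1,2496,[(0,2),(5,1),(1004,1)],[(4,1)]),
  (1,2499,[(3,1),(6,1)],[(0,2),(2,1),(5,1),(1006,1)])]

def tb19 : List TE := [(1,2500,[(2,4)],[(1,1),(1004,3)]),
  (1,2508,[(0,1),(1022,1)],[(3,1),(6,1)]),
  (1,2520,[(3,1)],[(0,1)]),
  (1,2530,[(2,1),(8,1)],[(1,1),(1021,1)]),
  (1,2535,[(2,1),(5,2)],[(0,5),(4,2)]),
  (1,2541,[(4,2)],[(0,1),(2,1),(1006,1),(1010,1)]),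
  (1,2548,[(3,1),(1014,1)],[(1,1),(4,1),(1006,1)]),
  (1,2550,[(2,1),(6,1)],[(0,2),(1004,1),(1014,1)]),
  (1,2560,[(0,7),(2,1)],[(1,1)]),
  (1,2565,[(1,1),(1020,1)],[(0,5),(6,1)]),
  (1,2574,[(1,1),(5,1)],[(0,2),(2,1),(3,1)]),
  (1,2576,[(0,6),(3,1),(8,1)],[(4,1),(7,1)]),
  (1,2584,[(7,1)],[(1,1),(1015,1)]),
  (1,2592,[(0,1),(1,4)],[]),
  (1,2600,[(2,2),(5,1)],[(0,1),(1,1),(1012,1)]),
  (1,2601,[(6,1),(1018,1)],[(1016,2)]),
  (1,2604,[(0,1),(3,1),(1031,1)],[(2,1),(1030,1)]),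
  (1,2610,[(1,1),(1030,1)],[(0,1),(1028,1)]),
  (1,2618,[(4,1),(6,1)],[(5,1),(1006,1),(1010,1)]),
  (1,2622,[(0,2),(8,1),(1006,1)],[(4,1),(6,1)]),
  (1,2625,[(2,2),(3,1)],[(0,1),(1004,3)]),
  (1,2639,[(1029,1)],[(1,3),(1025,1)]),
  (1,2640,[(0,1),(4,1)],[(1,1),(3,1)]),
  (1,2646,[(1,1),(3,2)],[(0,2),(2,2)]),
  (1,2652,[(1,1),(6,1)],[(0,1),(3,1),(4,1)]),
  (1,2660,[(3,1),(7,1)],[(1,1),(1018,1)]),
  (1,2662,[(0,1),(4,3)],[(1010,3)]),
  (1,2668,[(0,4),(1029,1)],[(5,1),(1021,1)]),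
  (1,2673,[(1,4),(4,1)],[(0,5),(2,1),(3,1)]),
  (1,2688,[(0,6),(3,1)],[(2,1)]),
  (1,2691,[(1004,1),(1027,1)],[(4,1),(1020,1)]),
  (1,2695,[(3,1),(4,1)],[(1,1),(1004,1),(1006,2)]),
  (1,2697,[(0,2),(1031,1)],[(1,1),(3,1),(1026,1)]),
  (1,2700,[(2,1),(1006,1)],[(0,5)]),
  (1,2704,[(0,2),(5,2)],[(4,2)]),
  (1,2717,[(5,1),(7,1)],[(0,1),(2,1),(3,1),(1018,1)]),
  (1,2720,[(0,3),(6,1)],[(1,1),(1014,1)]),
  (1,2728,[(1033,1)],[(0,1),(1,1),(1030,1)]),
  (1,2730,[(1015,1)],[(1012,1)]),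
  (1,2736,[(0,2),(1019,1)],[(6,1)])]

def tb20 : List TE := [(2,2737,[(0,1),(8,1),(1004,1)],[(4,1),(5,1)]),
  (1,2744,[(0,3),(3,3)],[(1006,3)]),
  (1,2750,[(2,2),(4,1)],[(1004,2),(1009,1)]),
  (1,2754,[(1,2),(1018,1)],[(0,2),(1016,1)]),
  (1,2760,[(0,2),(2,1),(8,1)],[(1022,1)]),
  (1,2772,[(4,1)],[(2,2)]),
  (1,2783,[(0,2),(4,1),(8,1)],[(1,1),(3,2),(1020,1)]),
  (1,2784,[(0,2),(1004,1),(1029,1)],[(1028,1)]),
  (1,2790,[(1,1),(1031,1)],[(0,1),(1029,1)]),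
  (1,2793,[(3,1),(1021,1)],[(2,2),(1018,1)]),
  (1,2800,[(2,1),(3,1)],[(1,3)]),
  (1,2805,[(4,1),(6,1)],[(3,1),(1004,1),(1016,1)]),
  (1,2808,[(1,3),(5,1)],[(0,1),(4,1)]),
  (1,2816,[(0,8),(4,1)],[(1010,1)]),
  (1,2835,[(1,2),(3,1)],[(0,6)]),
  (1,2842,[(3,1),(1029,1)],[(0,1),(1006,1),(1027,1)]),
  (1,2850,[(2,1),(1020,1)],[(0,4),(1018,1)]),
  (1,2856,[(0,1),(6,1)],[(2,1),(5,1)]),
  (1,2860,[(5,1)],[(1009,1)]),
  (1,2873,[(5,1),(6,1)],[(0,3),(3,1),(4,2)]),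
  (1,2875,[(2,1),(1025,1)],[(1004,2),(1022,1)]),
  (1,2880,[(0,2),(1006,1)],[]),
  (1,2890,[(6,2)],[(1,1),(1014,1),(1016,1)]),
  (1,2898,[(0,1),(1,1),(3,1),(8,1)],[(2,1),(1022,1)]),
  (1,2900,[(2,1),(1030,1)],[(1,2),(1028,1)]),
  (1,2904,[(0,2),(4,2)],[(2,1),(3,1),(1010,1)]),
  (1,2907,[(1019,1)],[(0,1),(1016,1)]),
  (1,2912,[(0,3),(1014,1)],[(1,1),(4,1)]),
  (1,2916,[(1,6)],[(0,4)]),
  (1,2925,[(2,2),(5,1)],[(0,7),(4,1)]),
  (1,2926,[(0,1),(1022,1)],[(2,1),(1018,1)]),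
  (1,2940,[(3,2)],[(0,1),(1,1),(1006,1)]),
  (1,2944,[(0,9),(8,1)],[(1022,1)]),
  (1,2964,[(5,1),(7,1)],[(4,1),(6,1)]),
  (1,2970,[(1,1),(4,1)],[(0,4),(3,1)]),
  (1,2975,[(2,1),(6,1)],[(0,1),(1,1),(5,1),(1004,2)]),
  (1,2976,[(1,1),(1032,1)],[(0,1),(1030,1)]),
  (1,2990,[(1026,1)],[(2,1),(1022,1)]),
  (1,2992,[(0,1),(4,1),(6,1)],[(1010,1),(1015,1)]),
  (1,3000,[(2,3)],[(1004,2)])]

def tb21 : List TE := [(1,3003,[(5,1)],[(0,2),(2,1),(1006,1)]),
  (1,3016,[(0,3),(1029,1)],[(8,1),(1010,1)]),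
  (1,3024,[(1009,1)],[(2,1)]),
  (2,3025,[(4,2)],[(0,1),(1004,1),(1010,1)]),
  (1,3036,[(8,1),(1004,1)],[(1021,1)]),
  (1,3040,[(0,3),(1020,1)],[(1018,1)]),
  (1,3042,[(1,2),(5,2)],[(0,3),(4,2)]),
  (1,3045,[(1030,1)],[(0,3),(1027,1)]),
  (1,3059,[(0,2),(3,1),(8,1)],[(1,1),(4,1),(6,1)]),
  (1,3060,[(1,1),(6,1)],[(0,2),(1014,1)]),
  (1,3072,[(0,7),(1004,1)],[]),
  (1,3078,[(1,2),(1019,1)],[(0,3),(6,1)]),
  (1,3080,[(0,1),(4,1)],[(1,2),(1006,1)]),
  (1,3087,[(3,3)],[(0,2),(2,2),(1006,1)]),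
  (1,3094,[(6,1)],[(2,1),(1012,1)]),
  (1,3100,[(2,1),(1031,1)],[(1,2),(1029,1)]),
  (1,3105,[(1,1),(8,1),(1006,1)],[(0,3),(1022,1)]),
  (1,3120,[(2,1),(5,1)],[(4,1)]),
  (1,3125,[(2,5)],[(1004,5)]),
  (1,3132,[(1004,1),(1030,1)],[(3,1),(1026,1)]),
  (1,3135,[(2,1),(1022,1)],[(0,1),(3,1),(6,1),(1004,1)]),
  (1,3136,[(0,6),(3,2)],[(1006,2)]),
  (1,3146,[(4,1),(5,1)],[(1010,2)]),
  (1,3150,[(2,1),(3,1)],[(0,3),(1004,1)]),
  (1,3159,[(1,5),(5,1)],[(0,6),(4,1)]),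
  (1,3168,[(0,2),(1012,1)],[(2,1),(3,1)]),
  (1,3185,[(3,1),(1014,1)],[(0,1),(1,1),(1004,1),(1012,1)]),
  (1,3192,[(0,2),(3,1),(7,1)],[(6,1),(1006,1)]),
  (1,3200,[(0,3),(2,2)],[(1,2)]),
  (1,3213,[(1018,1)],[(0,4),(2,1),(5,1)]),
  (1,3220,[(0,2),(3,1),(8,1)],[(1,2),(1022,1)]),
  (1,3230,[(7,1)],[(0,1),(1,2),(1014,1)]),
  (1,3234,[(3,1),(4,1)],[(2,1),(1006,2)]),
  (1,3240,[(1,2),(1006,1)],[(0,3)]),
  (1,3248,[(0,2),(1029,1)],[(1027,1)]),
  (1,3249,[(7,2)],[(0,2),(6,2)]),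
  (1,3250,[(2,3),(5,1)],[(0,1),(1004,2),(1012,1)]),
  (1,3255,[(3,1),(1031,1)],[(0,1),(1004,1),(1030,1)]),
  (1,3264,[(6,1),(1004,1)],[(1015,1)]),
  (1,3267,[(1,1),(4,2)],[(0,3),(2,2),(3,2)])]

def tb22 : List TE := [(1,3276,[(1,1),(1014,1)],[(0,2),(4,1)]),
  (1,3289,[(0,1),(1,1),(1026,1)],[(2,1),(3,1),(1020,1)]),
  (1,3300,[(2,1),(4,1)],[(0,2),(1009,1)]),
  (1,3312,[(1,1),(1024,1)],[(1022,1)]),
  (1,3315,[(2,1),(6,1)],[(0,5),(3,1),(4,1)]),
  (1,3325,[(2,1),(1021,1)],[(0,1),(1,1),(1004,1),(1018,1)]),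
  (1,3328,[(0,7),(5,1)],[(4,1)]),
  (1,3332,[(0,1),(3,1),(6,1)],[(5,1),(1006,2)]),
  (1,3335,[(0,2),(1030,1)],[(1,1),(5,1),(1021,1)]),
  (1,3344,[(0,4),(1022,1)],[(1,1),(3,1),(6,1)]),
  (1,3360,[(0,2),(3,1)],[(1,1)]),
  (1,3366,[(1,1),(4,1),(6,1)],[(2,1),(3,1),(1016,1)]),
  (1,3375,[(2,3)],[(0,9)]),
  (1,3380,[(2,1),(5,2)],[(0,1),(4,1),(1012,1)]),
  (1,3381,[(0,1),(3,2),(8,1)],[(4,1),(1020,1)]),
  (1,3388,[(0,2),(4,2)],[(1006,2),(1010,1)]),
  (1,3393,[(1030,1)],[(3,1),(1025,1)]),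
  (1,3400,[(2,1),(6,1)],[(0,1),(1,2),(1014,1)]),
  (1,3402,[(1,4),(3,1)],[(0,4),(2,1)]),
  (1,3420,[(1020,1)],[(0,2),(6,1)]),
  (1,3430,[(3,3)],[(0,1),(1,2),(1006,2)]),
  (1,3432,[(0,1),(5,1)],[(2,1),(3,1)]),
  (1,3450,[(1025,1)],[(0,2),(1022,1)]),
  (1,3456,[(1,1),(1004,2)],[]),
  (1,3458,[(7,1),(1014,1)],[(0,1),(4,1),(1018,1)]),
  (1,3465,[(4,1)],[(0,4),(1006,1)]),
  (1,3468,[(1,1),(6,2)],[(0,1),(3,2),(5,2)]),
  (1,3480,[(0,2),(1030,1)],[(1028,1)]),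
  (1,3496,[(0,5),(2,1),(8,1)],[(4,1),(6,1)]),
  (1,3500,[(2,2),(3,1)],[(1,2),(1004,2)]),
  (1,3510,[(1,1),(5,1),(1006,1)],[(0,5),(4,1)]),
  (1,3520,[(0,4),(4,1)],[(1,2),(3,1)]),
  (1,3528,[(0,1),(3,2)],[(2,2)]),
  (1,3536,[(0,2),(6,1)],[(3,1),(4,1)]),
  (1,3542,[(0,3),(8,1)],[(1,1),(1020,1)]),
  (1,3549,[(5,1),(1014,1)],[(0,4),(4,2)]),
  (1,3553,[(1022,1)],[(0,1),(1,1),(3,2),(5,1)]),
  (1,3564,[(1,3),(4,1)],[(0,2),(2,1),(3,1)]),
  (1,3570,[(6,1)],[(0,1),(5,1),(1004,1)]),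
  (1,3575,[(2,1),(5,1)],[(0,2),(1004,1),(1009,1)])]

def tb23 : List TE := [(1,3584,[(0,9),(3,1)],[(1006,1)]),
  (1,3588,[(0,3),(1028,1)],[(2,1),(3,1),(1022,1)]),
  (1,3591,[(1,1),(1021,1)],[(0,2),(2,1),(6,1)]),
  (1,3596,[(1032,1)],[(0,1),(2,1),(1028,1)]),
  (1,3600,[(2,2)],[(0,2)]),
  (1,3630,[(4,2)],[(3,1),(1004,1),(1010,1)]),
  (1,3640,[(3,1),(5,1)],[(1,2),(4,1)]),
  (1,3645,[(1,4),(1006,1)],[(0,8)]),
  (1,3648,[(0,5),(7,1)],[(6,1)]),
  (1,3654,[(1029,1)],[(1,1),(1026,1)]),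
  (1,3672,[(1,1),(1018,1)],[(0,1),(3,1),(5,1)]),
  (1,3675,[(3,2)],[(0,1),(1,1),(1004,2)]),
  (1,3680,[(0,5),(2,1),(8,1)],[(1,1),(1022,1)]),
  (1,3696,[(0,3),(4,1)],[(2,1),(1006,1)]),
  (1,3705,[(5,1),(1020,1)],[(0,3),(6,1),(1012,1)]),
  (1,3712,[(0,7),(1029,1)],[(1028,1)]),
  (1,3718,[(5,2)],[(2,1),(3,1),(1012,1)]),
  (1,3720,[(0,2),(1031,1)],[(1029,1)]),
  (1,3724,[(0,2),(3,2),(7,1)],[(2,1),(1006,1),(1018,1)]),
  (1,3726,[(1,4),(8,1)],[(0,1),(1022,1)]),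
  (1,3740,[(4,1),(6,1)],[(3,1),(5,1),(1009,1)]),
  (1,3744,[(1,1),(5,1),(1004,1)],[(4,1)]),
  (1,3750,[(2,4)],[(0,2),(1004,3)]),
  (1,3757,[(6,2)],[(0,1),(3,1),(4,1),(1016,1)]),
  (1,3762,[(1,1),(1022,1)],[(0,1),(3,1),(6,1)]),
  (1,3770,[(1029,1)],[(8,1),(1009,1)]),
  (1,3773,[(3,2),(4,1)],[(1006,4)]),
  (1,3780,[(1,1),(3,1)],[(0,3)]),
  (1,3795,[(2,1),(8,1)],[(0,1),(3,1),(7,1)]),
  (1,3800,[(2,1),(1020,1)],[(0,1),(1,1),(1018,1)]),
  (1,3808,[(0,4),(6,1)],[(5,1),(1006,1)]),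
  (1,3822,[(3,1),(1014,1)],[(0,1),(2,1),(1012,1)]),
  (1,3825,[(2,1),(6,1)],[(0,6),(1014,1)]),
  (1,3840,[(0,5),(2,1)],[]),
  (1,3850,[(4,1)],[(0,1),(1,3),(1004,1)]),
  (1,3861,[(1,2),(5,1)],[(0,4),(2,1),(3,1)]),
  (1,3864,[(0,4),(3,1),(8,1)],[(2,1),(1022,1)]),
  (1,3872,[(0,5),(4,2)],[(1010,2)]),
  (1,3876,[(7,1)],[(3,1),(5,1)]),
  (1,3888,[(1,5)],[(0,1)])]

def tb24 : List TE := [(1,3900,[(2,2),(5,1)],[(0,3),(1012,1)]),
  (1,3915,[(1,2),(1030,1)],[(0,3),(1028,1)]),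
  (1,3920,[(0,2),(3,2)],[(1,2),(1006,1)]),
  (1,3927,[(4,1),(6,1)],[(2,1),(1006,1),(1016,1)]),
  (1,3933,[(1,1),(8,1),(1006,1)],[(4,1),(6,1)]),
  (1,3952,[(0,3),(5,1),(7,1)],[(1,1),(4,1),(6,1)]),
  (1,3960,[(4,1)],[(0,1),(3,1)]),
  (1,3968,[(0,2),(1032,1)],[(1030,1)]),
  (1,3969,[(1,2),(3,2)],[(0,4),(2,2)]),
  (1,3978,[(1018,1)],[(0,3),(3,1),(4,1)]),
  (1,3990,[(1021,1)],[(0,1),(1018,1)]),
  (1,3993,[(4,3)],[(0,1),(2,1),(3,1),(1010,2)]),
  (1,4000,[(2,3)],[(0,1),(1,3)]),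
  (1,4002,[(1004,1),(1029,1)],[(5,1),(1021,1)]),
  (1,4004,[(0,1),(5,1)],[(1006,2)]),
  (1,4025,[(2,1),(3,1),(8,1)],[(1,2),(1004,1),(1022,1)]),
  (1,4032,[(0,2),(3,1),(1004,1)],[(2,1)]),
  (1,4046,[(6,2)],[(0,1),(5,2),(1010,1)]),
  (1,4048,[(0,5),(8,1)],[(1021,1)]),
  (1,4050,[(1006,2)],[(0,7)]),
  (1,4056,[(1,1),(5,2)],[(4,2)]),
  (1,4060,[(1030,1)],[(1,1),(1027,1)]),
  (1,4080,[(0,1),(6,1)],[(1014,1)]),
  (1,4092,[(1033,1)],[(0,3),(1030,1)]),
  (1,4095,[(1015,1)],[(0,3),(4,1)]),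
  (1,4096,[(0,12)],[]),
  (1,4104,[(1,1),(1019,1)],[(6,1)]),
  (1,4114,[(4,2),(6,1)],[(3,1),(5,1),(1010,2)]),
  (1,4116,[(0,1),(3,3)],[(2,1),(1006,2)]),
  (1,4125,[(2,2),(4,1)],[(0,4),(1004,1),(1009,1)]),
  (1,4131,[(1,3),(1018,1)],[(0,4),(1016,1)]),
  (1,4140,[(8,1),(1006,1)],[(1022,1)]),
  (1,4158,[(1,1),(4,1)],[(0,2),(2,2)]),
  (1,4160,[(0,3),(2,1),(5,1)],[(1,1),(4,1)]),
  (1,4165,[(3,1),(6,1)],[(0,1),(1,1),(5,1),(1004,1),(1006,1)]),
  (1,4176,[(1,1),(1004,1),(1029,1)],[(1028,1)]),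
  (1,4180,[(2,1),(1022,1)],[(3,1),(1018,1)]),
  (1,4185,[(1,2),(1031,1)],[(0,3),(1029,1)]),
  (1,4186,[(0,3),(1028,1)],[(1,1),(4,1),(1020,1)]),
  (1,4199,[(7,1)],[(0,1),(3,1),(1012,1)])]

def tb25 : List TE := [(1,4200,[(2,1),(3,1)],[(1,1),(1004,1)]),
  (1,4212,[(1,4),(5,1)],[(0,3),(4,1)]),
  (1,4224,[(0,6),(4,1)],[(2,1),(3,1)]),
  (2,4225,[(2,1),(5,2)],[(1,2),(3,1),(4,1)]),
  (1,4235,[(4,2)],[(1,1),(1004,1),(1006,1),(1010,1)]),
  (1,4250,[(2,2),(6,1)],[(0,1),(1,1),(1004,2),(1014,1)]),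
  (1,4256,[(0,5),(3,1),(7,1)],[(2,1),(1018,1)]),
  (1,4263,[(3,1),(1029,1)],[(0,3),(2,1),(1027,1)]),
  (1,4275,[(2,1),(1020,1)],[(0,4),(6,1),(1004,1)]),
  (1,4284,[(1,1),(6,1)],[(0,1),(2,1),(5,1)]),
  (1,4290,[(5,1)],[(0,1),(3,1),(1004,1)]),
  (1,4301,[(6,1),(8,1)],[(3,1),(5,1),(1021,1)]),
  (1,4312,[(0,3),(3,1),(4,1)],[(1006,3)]),
  (1,4320,[(1,1),(1006,1)],[]),
  (1,4332,[(0,1),(7,2)],[(1,1),(6,2)]),
  (1,4335,[(6,2)],[(0,2),(1014,1),(1016,1)]),
  (1,4340,[(3,1),(1031,1)],[(1,2),(1030,1)]),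
  (1,4347,[(1,2),(3,1),(8,1)],[(0,1),(2,1),(1022,1)]),
  (1,4350,[(2,1),(1030,1)],[(1004,1),(1028,1)]),
  (1,4352,[(0,5),(6,1)],[(1015,1)]),
  (1,4356,[(4,2)],[(2,2),(3,2)]),
  (1,4368,[(0,1),(1014,1)],[(4,1)]),
  (1,4370,[(0,1),(1025,1)],[(4,1),(6,1)]),
  (1,4374,[(1,7)],[(0,6)]),
  (1,4375,[(2,3),(3,1)],[(1,1),(1004,4)]),
  (1,4389,[(1022,1)],[(0,1),(6,1),(1006,1)]),
  (1,4394,[(5,3)],[(0,2),(4,3)]),
  (1,4400,[(2,1),(4,1)],[(1,3),(3,1)]),
  (1,4410,[(3,2)],[(0,3),(1006,1)]),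
  (1,4416,[(0,3),(1024,1)],[(1022,1)]),
  (1,4420,[(2,1),(6,1)],[(0,1),(3,1),(1012,1)]),
  (1,4446,[(5,1),(1019,1)],[(0,2),(4,1),(6,1)]),
  (1,4455,[(1,2),(4,1)],[(0,6),(3,1)]),
  (1,4459,[(3,2),(1014,1)],[(0,1),(1006,2),(1012,1)]),
  (1,4464,[(1,2),(1032,1)],[(0,3),(1030,1)]),
  (1,4480,[(0,5),(3,1)],[(1,2)]),
  (1,4485,[(1,1),(1026,1)],[(0,2),(2,1),(1022,1)]),
  (1,4488,[(0,1),(4,1),(6,1)],[(2,1),(3,2),(5,1)]),
  (1,4495,[(1031,1)],[(1,1),(1028,1)]),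
  (1,4500,[(2,3)],[(0,4),(1004,1)])]

def tb26 : List TE := [(1,4508,[(0,4),(3,2),(8,1)],[(1,1),(4,1),(1020,1)]),
  (1,4522,[(7,1)],[(1,1),(5,1),(1006,1)]),
  (1,4524,[(0,1),(1029,1)],[(2,1),(3,1),(8,1)]),
  (1,4536,[(1,3),(3,1)],[(0,1),(2,1)]),
  (1,4550,[(2,1),(1015,1)],[(0,1),(1,2),(1012,1)]),
  (1,4554,[(1,2),(8,1)],[(1021,1)]),
  (1,4560,[(0,1),(1020,1)],[(1,1),(6,1)]),
  (1,4563,[(1,3),(5,2)],[(0,5),(4,2)]),
  (1,4576,[(0,4),(5,1)],[(1010,1)]),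
  (1,4590,[(1018,1)],[(0,4),(1014,1)]),
  (1,4598,[(0,1),(4,1),(1022,1)],[(2,1),(3,2),(1018,1)]),
  (1,4600,[(0,1),(1025,1)],[(1,1),(1022,1)]),
  (1,4608,[(0,3),(1004,2)],[]),
  (1,4617,[(1,3),(1019,1)],[(0,5),(6,1)]),
  (1,4620,[(4,1)],[(0,1),(1,1),(1006,1)]),
  (1,4624,[(6,2)],[(3,1),(5,1),(1015,1)]),
  (1,4640,[(0,5),(1030,1)],[(1,1),(1028,1)]),
  (1,4641,[(6,1)],[(0,3),(2,1),(4,1)]),
  (1,4650,[(2,1),(1031,1)],[(1004,1),(1029,1)]),
  (1,4655,[(3,1),(1021,1)],[(0,1),(1,1),(1006,1),(1018,1)]),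
  (1,4669,[(0,3),(1029,1)],[(1,1),(5,1),(1020,1)]),
  (1,4675,[(4,1),(6,1)],[(0,1),(1004,1),(1009,1),(1014,1)]),
  (1,4680,[(5,1),(1006,1)],[(0,2),(4,1)]),
  (1,4698,[(1,2),(1030,1)],[(3,1),(1026,1)]),
  (1,4704,[(0,4),(3,2)],[(2,1),(1006,1)]),
  (1,4719,[(4,1),(5,1)],[(0,2),(2,1),(3,1),(1010,1)]),
  (1,4725,[(2,1),(3,1)],[(0,7)]),
  (1,4732,[(5,1),(1014,1)],[(4,1),(1012,1)]),
  (1,4750,[(2,2),(1020,1)],[(0,1),(1004,2),(1018,1)]),
  (1,4752,[(1,1),(1012,1)],[(2,1),(3,1)]),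
  (1,4760,[(6,1)],[(1,2),(5,1)]),
  (1,4784,[(0,3),(1004,1),(1026,1)],[(2,2),(1022,1)]),
  (2,4785,[(0,2),(1029,1)],[(1,1),(3,1),(1021,1)]),
  (1,4788,[(3,1),(7,1)],[(2,1),(6,1)]),
  (1,4800,[(0,1),(2,2)],[(1,1)]),
  (1,4802,[(0,1),(3,4)],[(1006,4)]),
  (1,4807,[(0,2),(8,1)],[(1,1),(3,1),(6,1)]),
  (1,4830,[(3,1),(8,1)],[(1,1),(1022,1)]),
  (1,4840,[(0,1),(4,2)],[(1,2),(3,1),(1010,1)]),
  (1,4845,[(7,1)],[(0,1),(1004,1),(1014,1)])]

def tb27 : List TE := [(1,4851,[(3,1),(4,1)],[(0,2),(2,2),(1006,1)]),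
  (1,4860,[(1,3),(1006,1)],[(0,5)]),
  (1,4862,[(6,1)],[(0,1),(3,1),(1010,1)]),
  (1,4864,[(0,8),(7,1)],[(1,1),(6,1)]),
  (1,4872,[(1,1),(1029,1)],[(1027,1)]),
  (1,4875,[(2,3),(5,1)],[(0,5),(1004,1),(1012,1)]),
  (1,4896,[(1018,1)],[(1015,1)]),
  (1,4900,[(3,2)],[(1,3),(1004,1)]),
  (1,4914,[(1,2),(1014,1)],[(0,4),(4,1)]),
  (1,4928,[(0,6),(4,1)],[(1006,2)]),
  (1,4940,[(5,1),(1020,1)],[(0,1),(4,1),(1018,1)]),
  (1,4950,[(2,1),(4,1)],[(0,3),(3,1),(1004,1)]),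
  (1,4960,[(1032,1)],[(1,1),(1029,1)]),
  (1,4968,[(1,2),(8,1),(1004,1)],[(1022,1)]),
  (1,4992,[(0,3),(5,1),(1004,1)],[(4,1)]),
  (1,4998,[(3,1),(6,1)],[(0,1),(2,1),(5,1),(1006,1)]),
  (1,5000,[(2,4)],[(0,1),(1,2),(1004,2)]),
  (1,5005,[(5,1)],[(0,1),(1,1),(1004,1),(1006,1)]),
  (1,5016,[(0,2),(1022,1)],[(3,1),(6,1)]),
  (1,5040,[(3,1)],[]),
  (1,5049,[(4,1),(1018,1)],[(0,2),(2,1),(3,1),(1016,1)]),
  (1,5060,[(0,1),(2,1),(8,1)],[(1,1),(1021,1)]),
  (1,5070,[(2,1),(5,2)],[(0,4),(4,2)]),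
  (1,5075,[(2,1),(1030,1)],[(1004,2),(1027,1)]),
  (1,5082,[(4,2)],[(2,1),(1006,1),(1010,1)]),
  (2,5083,[(6,1),(8,1)],[(3,1),(1010,1),(1020,1)]),
  (1,5096,[(0,1),(3,1),(1014,1)],[(1,1),(4,1),(1006,1)]),
  (1,5100,[(2,1),(6,1)],[(0,1),(1004,1),(1014,1)]),
  (1,5103,[(1,5),(3,1)],[(0,6),(2,1)]),
  (1,5120,[(0,8),(2,1)],[(1,1)]),
  (1,5130,[(1,1),(1020,1)],[(0,4),(6,1)]),
  (1,5145,[(3,3)],[(0,1),(1004,1),(1006,2)]),
  (1,5148,[(1,1),(5,1)],[(0,1),(2,1),(3,1)]),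
  (1,5152,[(0,7),(3,1),(8,1)],[(4,1),(7,1)]),
  (1,5168,[(0,1),(7,1)],[(1,1),(1015,1)]),
  (1,5175,[(1,1),(1025,1)],[(0,4),(1022,1)]),
  (1,5184,[(1,3),(1004,1)],[]),
  (1,5187,[(7,1),(1014,1)],[(0,2),(6,1),(1012,1)]),
  (1,5200,[(2,2),(5,1)],[(1,1),(1012,1)]),
  (1,5202,[(6,1),(1018,1)],[(0,1),(3,1),(5,1),(1016,1)])]

def tb28 : List TE := [(1,5220,[(1,1),(1030,1)],[(1028,1)]),
  (1,5225,[(2,2),(1022,1)],[(0,2),(3,1),(1004,1),(1018,1)]),
  (1,5236,[(0,1),(4,1),(6,1)],[(5,1),(1006,1),(1010,1)]),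
  (1,5244,[(0,3),(8,1),(1006,1)],[(4,1),(6,1)]),
  (1,5250,[(2,2),(3,1)],[(1004,3)]),
  (1,5265,[(1,2),(5,1),(1006,1)],[(0,7),(4,1)]),
  (1,5278,[(0,1),(1029,1)],[(1,3),(1025,1)]),
  (1,5280,[(0,2),(4,1)],[(1,1),(3,1)]),
  (1,5292,[(1,1),(3,2)],[(0,1),(2,2)]),
  (1,5304,[(1,1),(6,1)],[(3,1),(4,1)]),
  (1,5313,[(0,1),(8,1)],[(1020,1)]),
  (1,5320,[(0,1),(3,1),(7,1)],[(1,1),(1018,1)]),
  (1,5324,[(0,2),(4,3)],[(1010,3)]),
  (1,5336,[(0,4),(1029,1)],[(7,1),(1015,1)]),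
  (1,5346,[(1,4),(4,1)],[(0,4),(2,1),(3,1)]),
  (1,5355,[(6,1)],[(0,5),(5,1)]),
  (1,5376,[(0,7),(3,1)],[(2,1)]),
  (1,5382,[(0,3),(1027,1)],[(2,2),(1022,1)]),
  (1,5390,[(3,1),(4,1)],[(0,1),(1,2),(1006,2)]),
  (1,5394,[(0,3),(1031,1)],[(1,1),(3,1),(1026,1)]),
  (1,5400,[(2,1),(1006,1)],[(0,4)]),
  (1,5408,[(0,3),(5,2)],[(4,2)]),
  (1,5434,[(5,1),(7,1)],[(2,1),(3,1),(1018,1)]),
  (1,5440,[(0,4),(6,1)],[(1,1),(1014,1)]),
  (1,5445,[(4,2)],[(0,4),(3,1),(1010,1)]),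
  (1,5456,[(1033,1)],[(1,1),(1030,1)]),
  (1,5460,[(3,1),(5,1)],[(0,1),(1012,1)]),
  (1,5472,[(0,3),(1019,1)],[(6,1)]),
  (1,5481,[(1029,1)],[(0,2),(1026,1)]),
  (1,5488,[(0,4),(3,3)],[(1006,3)]),
  (1,5491,[(6,1),(7,1)],[(1,1),(3,1),(5,1),(1016,1)]),
  (1,5500,[(2,2),(4,1)],[(0,1),(1,1),(1004,1),(1009,1)]),
  (1,5508,[(1,2),(1018,1)],[(0,1),(1016,1)]),
  (1,5520,[(0,3),(2,1),(8,1)],[(1022,1)]),
  (1,5525,[(2,2),(6,1)],[(0,3),(3,1),(1004,1),(1012,1)]),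
  (1,5544,[(0,1),(4,1)],[(2,2)]),
  (1,5566,[(0,3),(4,1),(8,1)],[(1,1),(3,2),(1020,1)]),
  (1,5568,[(0,3),(1004,1),(1029,1)],[(1028,1)]),
  (1,5577,[(5,2)],[(0,3),(2,1),(3,1),(4,1)]),
  (1,5580,[(1,1),(1031,1)],[(1029,1)])]

def tb29 : List TE := [(1,5586,[(3,2),(7,1)],[(2,2),(1018,1)]),
  (1,5589,[(1,5),(8,1)],[(0,3),(1022,1)]),
  (1,5600,[(0,1),(2,1),(3,1)],[(1,3)]),
  (1,5610,[(4,1),(6,1)],[(0,1),(1,1),(3,1),(1016,1)]),
  (1,5616,[(1,3),(5,1)],[(4,1)]),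
  (1,5625,[(2,4)],[(0,6),(1004,2)]),
  (1,5632,[(0,9),(4,1)],[(1010,1)]),
  (1,5635,[(3,2),(8,1)],[(1,1),(4,1),(1019,1)]),
  (1,5643,[(1,2),(1022,1)],[(0,3),(3,1),(6,1)]),
  (1,5655,[(1029,1)],[(0,1),(3,1),(8,1),(1004,1)]),
  (1,5670,[(1,2),(3,1)],[(0,5)]),
  (1,5681,[(0,1),(1,1),(1026,1)],[(2,1),(4,1),(6,1)]),
  (1,5684,[(3,1),(1029,1)],[(1006,1),(1027,1)]),
  (1,5700,[(2,1),(1020,1)],[(0,3),(1018,1)]),
  (1,5712,[(0,2),(6,1)],[(2,1),(5,1)]),
  (1,5720,[(5,1)],[(1,2),(3,1)]),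
  (1,5733,[(3,1),(1014,1)],[(0,4),(2,1),(4,1)]),
  (1,5746,[(5,1),(6,1)],[(0,2),(3,1),(4,2)]),
  (1,5750,[(2,1),(1025,1)],[(0,1),(1,1),(1004,1),(1022,1)]),
  (1,5760,[(0,3),(1006,1)],[]),
  (1,5775,[(4,1)],[(0,1),(1,1),(1004,2)]),
  (1,5780,[(6,2)],[(0,1),(1,1),(3,1),(5,1),(1014,1)]),
  (1,5796,[(3,1),(8,1),(1004,1)],[(2,1),(1022,1)]),
  (1,5800,[(0,1),(2,1),(1030,1)],[(1,2),(1028,1)]),
  (1,5808,[(0,3),(4,2)],[(2,1),(3,1),(1010,1)]),
  (1,5814,[(1019,1)],[(1016,1)]),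
  (1,5824,[(0,4),(1014,1)],[(1,1),(4,1)]),
  (1,5831,[(3,2),(6,1)],[(0,1),(5,1),(1006,3)]),
  (1,5832,[(1,6)],[(0,3)]),
  (1,5850,[(2,2),(5,1)],[(0,6),(4,1)]),
  (1,5852,[(0,2),(1022,1)],[(2,1),(1018,1)]),
  (1,5880,[(3,2)],[(1,1),(1006,1)]),
  (1,5888,[(0,10),(8,1)],[(1022,1)]),
  (1,5915,[(5,1),(1015,1)],[(1012,2)]),
  (1,5928,[(0,1),(5,1),(7,1)],[(4,1),(6,1)]),
  (1,5929,[(4,2)],[(1006,4)]),
  (1,5940,[(1,1),(4,1)],[(0,3),(3,1)]),
  (1,5950,[(2,1),(6,1)],[(1,1),(5,1),(1004,2)]),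
  (1,5952,[(1,1),(1032,1)],[(1030,1)]),
  (1,5967,[(1,1),(1018,1)],[(0,5),(3,1),(4,1)])]

def tb30 : List TE := [(1,5980,[(0,1),(1026,1)],[(2,1),(1022,1)]),
  (1,5984,[(0,2),(4,1),(6,1)],[(1010,1),(1015,1)]),
  (1,5985,[(1021,1)],[(0,1),(6,1),(1004,1)]),
  (1,6000,[(2,3)],[(0,1),(1,1),(1004,1)]),
  (1,6003,[(1,2),(1029,1)],[(5,1),(1021,1)]),
  (1,6006,[(5,1)],[(0,1),(2,1),(1006,1)]),
  (1,6032,[(0,4),(1029,1)],[(8,1),(1010,1)]),
  (1,6048,[(0,1),(1009,1)],[(2,1)]),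
  (1,6050,[(4,2)],[(0,1),(1009,2)]),
  (1,6069,[(6,2)],[(0,1),(2,1),(5,1),(1016,1)]),
  (1,6072,[(0,1),(8,1),(1004,1)],[(1021,1)]),
  (1,6075,[(1,1),(1006,2)],[(0,9)]),
  (1,6080,[(0,4),(1020,1)],[(1018,1)]),
  (1,6084,[(1,2),(5,2)],[(0,2),(4,2)]),
  (1,6090,[(1030,1)],[(0,2),(1027,1)]),
  (1,6118,[(0,3),(3,1),(8,1)],[(1,1),(4,1),(6,1)]),
  (1,6120,[(1,1),(6,1)],[(0,1),(1014,1)]),
  (1,6125,[(2,1),(3,2)],[(1,2),(1004,3)]),
  (1,6137,[(7,2)],[(0,1),(3,1),(5,1),(1018,1)]),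
  (1,6138,[(1,1),(1033,1)],[(0,5),(1030,1)]),
  (1,6144,[(0,8),(1004,1)],[]),
  (1,6156,[(1,2),(1019,1)],[(0,2),(6,1)]),
  (1,6160,[(0,2),(4,1)],[(1,2),(1006,1)]),
  (1,6171,[(4,2),(6,1)],[(2,1),(3,1),(1010,1),(1016,1)]),
  (1,6174,[(3,3)],[(0,1),(2,2),(1006,1)]),
  (1,6175,[(2,1),(5,1),(1020,1)],[(0,4),(1012,1),(1018,1)]),
  (1,6188,[(6,1)],[(4,1),(1006,1)]),
  (1,6200,[(0,1),(2,1),(1031,1)],[(1,2),(1029,1)]),
  (1,6210,[(1,1),(8,1),(1006,1)],[(0,2),(1022,1)]),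
  (1,6237,[(1,2),(4,1)],[(0,4),(2,2)]),
  (1,6240,[(0,1),(2,1),(5,1)],[(4,1)]),
  (1,6250,[(2,5)],[(0,1),(1,1),(1004,4)]),
  (1,6264,[(1,3),(1029,1)],[(1028,1)]),
  (1,6270,[(2,1),(1022,1)],[(3,1),(6,1),(1004,1)]),
  (1,6272,[(0,7),(3,2)],[(1006,2)]),
  (1,6279,[(0,1),(1028,1)],[(4,1),(1020,1)]),
  (1,6292,[(0,1),(4,1),(5,1)],[(1010,2)]),
  (1,6293,[(1031,1)],[(2,1),(1027,1)]),
  (1,6300,[(2,1),(3,1)],[(0,2),(1004,1)]),
  (1,6318,[(1,5),(5,1)],[(0,5),(4,1)])]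

def tb31 : List TE := [(1,6325,[(1025,1)],[(0,2),(3,1),(1019,1)]),
  (1,6336,[(0,3),(1012,1)],[(2,1),(3,1)]),
  (1,6370,[(3,1),(1014,1)],[(1,1),(1004,1),(1012,1)]),
  (1,6375,[(2,2),(6,1)],[(0,3),(1004,2),(1014,1)]),
  (1,6384,[(0,3),(3,1),(7,1)],[(6,1),(1006,1)]),
  (1,6400,[(0,4),(2,2)],[(1,2)]),
  (1,6426,[(1018,1)],[(0,3),(2,1),(5,1)]),
  (1,6435,[(5,1)],[(0,5),(3,1)]),
  (1,6440,[(0,3),(3,1),(8,1)],[(1,2),(1022,1)]),
  (1,6460,[(7,1)],[(1,2),(1014,1)]),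
  (1,6468,[(0,1),(3,1),(4,1)],[(2,1),(1006,2)]),
  (1,6480,[(1,2),(1006,1)],[(0,2)]),
  (1,6496,[(0,3),(1029,1)],[(1027,1)]),
  (1,6498,[(7,2)],[(0,1),(6,2)]),
  (1,6500,[(2,3),(5,1)],[(1004,2),(1012,1)]),
  (1,6510,[(3,1),(1031,1)],[(1004,1),(1030,1)]),
  (1,6517,[(3,3),(7,1)],[(2,1),(1006,2),(1018,1)]),
  (1,6525,[(2,1),(1030,1)],[(0,4),(1028,1)]),
  (1,6528,[(0,1),(6,1),(1004,1)],[(1015,1)]),
  (1,6534,[(1,1),(4,2)],[(0,2),(2,2),(3,2)]),
  (1,6545,[(4,1),(6,1)],[(0,1),(1,2),(1006,1),(1016,1)]),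
  (1,6552,[(1,1),(1014,1)],[(0,1),(4,1)]),
  (1,6555,[(1,1),(1025,1)],[(0,1),(4,1),(6,1)]),
  (1,6561,[(1,8)],[(0,8)]),
  (1,6578,[(1004,1),(1026,1)],[(2,1),(3,1),(1020,1)]),
  (1,6591,[(1,1),(5,3)],[(0,4),(4,3)]),
  (1,6600,[(2,1),(4,1)],[(0,1),(1009,1)]),
  (1,6615,[(3,2)],[(0,5),(2,1)]),
  (1,6624,[(0,1),(1,1),(1024,1)],[(1022,1)]),
  (1,6630,[(2,1),(6,1)],[(0,4),(3,1),(4,1)]),
  (1,6650,[(2,1),(1021,1)],[(1,1),(1004,1),(1018,1)]),
  (1,6655,[(4,3)],[(0,1),(1009,1),(1010,2)]),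
  (1,6656,[(0,8),(5,1)],[(4,1)]),
  (1,6664,[(0,2),(3,1),(6,1)],[(5,1),(1006,2)]),
  (1,6669,[(1,1),(5,1),(1019,1)],[(0,4),(4,1),(6,1)]),
  (2,6670,[(1,1),(1030,1)],[(3,1),(4,1),(6,1)]),
  (1,6688,[(0,5),(1022,1)],[(1,1),(3,1),(6,1)]),
  (1,6720,[(0,3),(3,1)],[(1,1)]),
  (1,6732,[(1,1),(4,1),(6,1)],[(0,1),(2,1),(3,2),(5,1)]),
  (1,6750,[(2,3)],[(0,8)])]

def tb32 : List TE := [(1,6760,[(2,1),(5,2)],[(4,1),(1012,1)]),
  (1,6762,[(0,2),(3,2),(8,1)],[(4,1),(1020,1)]),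
  (1,6776,[(0,3),(4,2)],[(1006,2),(1010,1)]),
  (1,6783,[(7,1)],[(0,2),(5,1),(1006,1)]),
  (1,6786,[(1,1),(1029,1)],[(0,1),(2,1),(3,1),(8,1)]),
  (1,6800,[(2,1),(6,1)],[(1,2),(1014,1)]),
  (1,6804,[(1,4),(3,1)],[(0,3),(2,1)]),
  (1,6820,[(1033,1)],[(1,1),(1004,1),(1029,1)]),
  (1,6825,[(2,1),(1015,1)],[(0,1),(1004,1),(1012,1)]),
  (1,6831,[(1,3),(8,1)],[(0,1),(3,1),(7,1)]),
  (1,6840,[(1020,1)],[(0,1),(6,1)]),
  (1,6860,[(3,3)],[(1,2),(1006,2)]),
  (1,6864,[(0,2),(5,1)],[(2,1),(3,1)]),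
  (1,6875,[(2,3),(4,1)],[(0,1),(1004,3),(1009,1)]),
  (1,6885,[(1,1),(1018,1)],[(0,6),(1014,1)]),
  (1,6897,[(4,1),(1022,1)],[(0,1),(3,1),(6,1),(1010,1)]),
  (1,6900,[(1025,1)],[(0,1),(1022,1)]),
  (1,6912,[(0,1),(1,1),(1004,2)],[]),
  (1,6916,[(7,1),(1014,1)],[(4,1),(1018,1)]),
  (1,6930,[(4,1)],[(0,3),(1006,1)]),
  (1,6936,[(1,1),(6,2)],[(3,2),(5,2)]),
  (1,6960,[(0,3),(1030,1)],[(1028,1)]),
  (1,6975,[(2,1),(1031,1)],[(0,4),(1029,1)]),
  (1,6992,[(0,6),(2,1),(8,1)],[(4,1),(6,1)]),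
  (1,7000,[(2,2),(3,1)],[(0,1),(1,3),(1004,1)]),
  (1,7007,[(1014,1)],[(1004,1),(1006,2)]),
  (1,7020,[(1,1),(5,1),(1006,1)],[(0,4),(4,1)]),
  (1,7040,[(0,5),(4,1)],[(1,2),(3,1)]),
  (1,7047,[(1,3),(1030,1)],[(0,2),(3,1),(1026,1)]),
  (1,7056,[(0,2),(3,2)],[(2,2)]),
  (1,7072,[(0,3),(6,1)],[(3,1),(4,1)]),
  (1,7084,[(0,4),(8,1)],[(1,1),(1020,1)]),
  (1,7098,[(5,1),(1014,1)],[(0,3),(4,2)]),
  (1,7105,[(3,1),(1029,1)],[(1004,2),(1027,1)]),
  (1,7106,[(1022,1)],[(1,1),(3,2),(5,1)]),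
  (1,7125,[(2,2),(1020,1)],[(0,5),(1004,1),(1018,1)]),
  (1,7128,[(1,3),(4,1)],[(0,1),(2,1),(3,1)]),
  (1,7140,[(6,1)],[(5,1),(1004,1)]),
  (1,7150,[(2,1),(5,1)],[(0,1),(1004,1),(1009,1)]),
  (1,7168,[(0,10),(3,1)],[(1006,1)])]

def tb33 : List TE := [(1,7176,[(0,4),(1028,1)],[(2,1),(3,1),(1022,1)]),
  (1,7182,[(1,1),(1021,1)],[(0,1),(2,1),(6,1)]),
  (1,7192,[(1032,1)],[(2,1),(1028,1)]),
  (1,7200,[(2,2)],[(0,1)]),
  (1,7203,[(3,4)],[(0,1),(2,1),(1006,3)]),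
  (1,7245,[(3,1),(8,1)],[(0,2),(1022,1)]),
  (1,1450,[(2,1),(1030,1)],[(0,1),(1,2),(1028,1)]),
  (1,7260,[(4,2)],[(0,1),(1,1),(3,1),(1010,1)]),
  (1,7280,[(0,1),(3,1),(5,1)],[(1,2),(4,1)]),
  (1,7290,[(1,4),(1006,1)],[(0,7)]),
  (1,7293,[(6,1)],[(0,3),(2,1),(3,2)]),
  (1,7296,[(0,6),(7,1)],[(6,1)]),
  (1,7308,[(0,1),(1029,1)],[(1,1),(1026,1)]),
  (1,7315,[(1022,1)],[(1004,1),(1018,1)]),
  (1,7344,[(1,1),(1018,1)],[(3,1),(5,1)]),
  (1,7350,[(3,2)],[(1,1),(1004,2)]),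
  (1,7360,[(0,6),(2,1),(8,1)],[(1,1),(1022,1)]),
  (1,7371,[(1,3),(1014,1)],[(0,6),(4,1)]),
  (1,7392,[(0,4),(4,1)],[(2,1),(1006,1)]),
  (1,7410,[(5,1),(1020,1)],[(0,2),(6,1),(1012,1)]),
  (1,7425,[(2,1),(4,1)],[(0,7),(3,1)]),
  (1,7429,[(0,2),(8,1)],[(4,1),(1014,1)]),
  (1,7436,[(5,2)],[(4,1),(1010,1)]),
  (1,7440,[(1032,1)],[(0,2),(1029,1)]),
  (1,7448,[(0,3),(3,2),(7,1)],[(2,1),(1006,1),(1018,1)]),
  (1,7452,[(1,4),(8,1)],[(1022,1)]),
  (1,7475,[(1026,1)],[(0,1),(1004,1),(1022,1)]),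
  (1,7480,[(4,1),(6,1)],[(1,2),(3,2),(5,1)]),
  (1,7488,[(0,1),(1,1),(5,1),(1004,1)],[(4,1)]),
  (1,7497,[(3,1),(6,1)],[(0,3),(2,2),(5,1)]),
  (1,7500,[(2,4)],[(0,1),(1004,3)]),
  (1,7514,[(6,2)],[(3,1),(4,1),(1016,1)]),
  (1,7524,[(1,1),(1022,1)],[(3,1),(6,1)]),
  (1,7540,[(1029,1)],[(1,2),(3,1),(8,1)]),
  (1,7546,[(0,1),(3,2),(4,1)],[(1006,4)]),
  (1,7560,[(1,1),(3,1)],[(0,2)]),
  (1,261,[(0,1),(1030,1)],[(3,1),(1026,1)]),
  (1,7590,[(2,1),(8,1)],[(3,1),(7,1)]),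
  (1,7600,[(2,1),(1020,1)],[(1,1),(1018,1)]),
  (1,7605,[(5,2),(1006,1)],[(0,6),(4,2)])]

def tb34 : List TE := [(1,7616,[(0,5),(6,1)],[(5,1),(1006,1)]),
  (1,7623,[(4,2)],[(0,2),(2,2),(1010,1)]),
  (1,7644,[(3,1),(1014,1)],[(2,1),(1012,1)]),
  (1,7650,[(2,1),(6,1)],[(0,5),(1014,1)]),
  (1,7680,[(0,6),(2,1)],[]),
  (1,7695,[(1,2),(1020,1)],[(0,6),(6,1)]),
  (1,7700,[(4,1)],[(1,3),(1004,1)]),
  (1,7722,[(1,2),(5,1)],[(0,3),(2,1),(3,1)]),
  (1,7728,[(0,5),(3,1),(8,1)],[(2,1),(1022,1)]),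
  (1,7735,[(6,1)],[(0,1),(1004,1),(1012,1)]),
  (1,7744,[(0,6),(4,2)],[(1010,2)]),
  (1,7752,[(7,1)],[(0,1),(1015,1)]),
  (1,7776,[(1,5)],[]),
  (1,7800,[(2,2),(5,1)],[(0,2),(1012,1)]),
  (1,7803,[(1,1),(6,1),(1018,1)],[(0,1),(1016,2)]),
  (1,7830,[(1,2),(1030,1)],[(0,2),(1028,1)]),
  (1,7840,[(0,3),(3,2)],[(1,2),(1006,1)]),
  (1,7854,[(4,1),(6,1)],[(0,1),(2,1),(5,1),(1010,1)]),
  (1,7865,[(4,1),(5,1)],[(0,2),(1009,1),(1010,1)]),
  (1,7866,[(0,1),(1,1),(8,1),(1006,1)],[(4,1),(6,1)]),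
  (1,7875,[(2,2),(3,1)],[(0,4),(1004,2)]),
  (1,7904,[(0,4),(5,1),(7,1)],[(1,1),(4,1),(6,1)]),
  (1,7917,[(1029,1)],[(0,1),(1,2),(1025,1)]),
  (1,7920,[(4,1)],[(3,1)]),
  (1,7936,[(0,3),(1032,1)],[(1030,1)]),
  (1,7938,[(1,2),(3,2)],[(0,3),(2,2)]),
  (1,7956,[(1018,1)],[(0,2),(3,1),(4,1)]),
  (1,7980,[(1021,1)],[(1018,1)]),
  (1,7986,[(4,3)],[(2,1),(3,1),(1010,2)]),
  (1,8000,[(2,3)],[(1,3)]),
  (1,8004,[(1004,1),(1029,1)],[(7,1),(1015,1)]),
  (1,8008,[(0,2),(5,1)],[(1006,2)]),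
  (1,8019,[(1,5),(4,1)],[(0,6),(2,1),(3,1)]),
  (1,8050,[(2,1),(3,1),(8,1)],[(0,1),(1,3),(1022,1)]),
  (1,8064,[(0,3),(3,1),(1004,1)],[(2,1)]),
  (1,8073,[(0,1),(1,1),(1027,1)],[(2,2),(1022,1)]),
  (1,8075,[(1020,1)],[(1,1),(1004,2),(1014,1)]),
  (1,8085,[(3,1),(4,1)],[(0,1),(1004,1),(1006,2)]),
  (1,8091,[(0,1),(1031,1)],[(3,1),(1026,1)]),
  (1,8092,[(6,2)],[(5,2),(1010,1)])]

def tb35 : List TE := [(1,8096,[(0,6),(8,1)],[(1021,1)]),
  (1,8100,[(1006,2)],[(0,6)]),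
  (1,8112,[(0,1),(1,1),(5,2)],[(4,2)]),
  (1,8120,[(0,1),(1030,1)],[(1,1),(1027,1)]),
  (1,8125,[(2,4),(5,1)],[(0,2),(1004,3),(1012,1)]),
  (1,8151,[(5,1),(7,1)],[(0,2),(6,1),(1010,1)]),
  (1,8160,[(0,2),(6,1)],[(1014,1)]),
  (1,8184,[(1033,1)],[(0,2),(1030,1)]),
  (1,8190,[(3,1),(5,1)],[(0,4),(4,1)]),
  (1,8192,[(0,13)],[]),
  (1,8208,[(0,1),(1,1),(1019,1)],[(6,1)]),
  (1,8228,[(0,1),(4,2),(6,1)],[(3,1),(5,1),(1010,2)]),
  (1,8232,[(0,2),(3,3)],[(2,1),(1006,2)]),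
  (1,8250,[(2,2),(4,1)],[(0,3),(1004,1),(1009,1)]),
  (1,8262,[(1,3),(1018,1)],[(0,3),(1016,1)]),
  (1,8280,[(0,1),(8,1),(1006,1)],[(1022,1)]),
  (1,8281,[(1014,2)],[(0,2),(1012,2)]),
  (1,8316,[(1,1),(4,1)],[(0,1),(2,2)]),
  (1,8320,[(0,4),(2,1),(5,1)],[(1,1),(4,1)]),
  (1,225,[(2,2)],[(0,6)]),
  (1,8330,[(3,1),(6,1)],[(1,1),(5,1),(1004,1),(1006,1)]),
  (1,8349,[(0,1),(4,1),(8,1)],[(3,2),(1020,1)]),
  (1,8352,[(0,1),(1,1),(1004,1),(1029,1)],[(1028,1)]),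
  (1,8360,[(0,1),(2,1),(1022,1)],[(3,1),(1018,1)]),
  (1,8370,[(1,2),(1031,1)],[(0,2),(1029,1)]),
  (1,8372,[(0,4),(1028,1)],[(1,1),(4,1),(1020,1)]),
  (1,8379,[(3,1),(1021,1)],[(0,1),(2,1),(6,1),(1006,1)]),
  (1,8398,[(7,1)],[(3,1),(1012,1)]),
  (1,8400,[(2,1),(3,1)],[(0,1),(1,2)]),
  (1,8415,[(4,1),(6,1)],[(0,3),(3,1),(1016,1)]),
  (1,8424,[(1,4),(5,1)],[(0,2),(4,1)]),
  (1,8448,[(0,7),(4,1)],[(2,1),(3,1)]),
  (1,8450,[(2,2),(5,2)],[(0,3),(1012,2)]),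
  (1,8470,[(4,2)],[(0,1),(1,2),(1006,1),(1010,1)]),
  (1,8500,[(2,2),(6,1)],[(1,1),(1004,2),(1014,1)]),
  (1,8505,[(1,3),(3,1)],[(0,7)]),
  (1,8512,[(0,6),(3,1),(7,1)],[(2,1),(1018,1)]),
  (1,8526,[(3,1),(1029,1)],[(0,2),(2,1),(1027,1)]),
  (1,8550,[(2,1),(1020,1)],[(0,3),(6,1),(1004,1)]),
  (1,8568,[(1,1),(6,1)],[(2,1),(5,1)])]

def tb36 : List TE := [(1,8575,[(3,3)],[(1,2),(1004,2),(1006,1)]),
  (1,8580,[(5,1)],[(3,1),(1004,1)]),
  (1,8602,[(0,1),(6,1),(8,1)],[(3,1),(5,1),(1021,1)]),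
  (1,8619,[(1,1),(5,1),(6,1)],[(0,4),(3,1),(4,2)]),
  (1,8624,[(0,4),(3,1),(4,1)],[(1006,3)]),
  (2,8625,[(2,1),(3,1),(8,1)],[(0,1),(1,3),(1019,1)]),
  (1,8640,[(0,1),(1,1),(1006,1)],[]),
  (1,8645,[(7,1),(1015,1)],[(1012,1),(1018,1)]),
  (1,8664,[(0,2),(7,2)],[(1,1),(6,2)]),
  (1,8670,[(6,2)],[(0,1),(1014,1),(1016,1)]),
  (1,8671,[(0,1),(1029,1)],[(4,1),(1021,1)]),
  (1,8680,[(0,1),(3,1),(1031,1)],[(1,2),(1030,1)]),
  (1,8694,[(1,2),(3,1),(8,1)],[(2,1),(1022,1)]),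
  (1,8700,[(2,1),(1030,1)],[(0,1),(1,1),(1028,1)]),
  (1,8704,[(0,6),(6,1)],[(1015,1)]),
  (1,8712,[(0,1),(4,2)],[(2,2),(3,2)]),
  (1,8721,[(1,1),(1019,1)],[(0,2),(1016,1)]),
  (1,8736,[(0,2),(1014,1)],[(4,1)]),
  (1,8740,[(0,2),(1025,1)],[(4,1),(6,1)]),
  (1,8748,[(1,7)],[(0,5)]),
  (1,8750,[(2,3),(3,1)],[(0,1),(1,2),(1004,3)]),
  (1,8775,[(2,1),(5,1),(1006,1)],[(0,8),(4,1)]),
  (1,8778,[(1022,1)],[(6,1),(1006,1)]),
  (1,8788,[(5,3)],[(0,1),(4,3)]),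
  (1,8800,[(0,1),(2,1),(4,1)],[(1,3),(3,1)]),
  (1,8820,[(3,2)],[(0,2),(1006,1)]),
  (1,8832,[(0,4),(1024,1)],[(1022,1)]),
  (1,8840,[(2,1),(6,1)],[(3,1),(1012,1)]),
  (1,8855,[(8,1)],[(1,1),(1019,1)]),
  (1,8892,[(5,1),(1019,1)],[(0,1),(4,1),(6,1)]),
  (1,8910,[(1,2),(4,1)],[(0,5),(3,1)]),
  (1,8918,[(3,2),(1014,1)],[(1006,2),(1012,1)]),
  (1,8925,[(2,1),(6,1)],[(0,2),(5,1),(1004,2)]),
  (1,8928,[(1,2),(1032,1)],[(0,2),(1030,1)]),
  (1,8960,[(0,6),(3,1)],[(1,2)]),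
  (1,8970,[(1,1),(1026,1)],[(0,1),(2,1),(1022,1)]),
  (1,8976,[(4,1),(6,1)],[(2,1),(3,1),(1015,1)])]

/-- multiplication table -/
def tb : List TE := tb0 ++ tb1 ++ tb2 ++ tb3 ++ tb4 ++ tb5 ++ tb6 ++ tb7 ++ tb8 ++ tb9 ++ tb10 ++ tb11 ++ tb12 ++ tb13 ++ tb14 ++ tb15 ++ tb16 ++ tb17 ++ tb18 ++ tb19 ++ tb20 ++ tb21 ++ tb22 ++ tb23 ++ tb24 ++ tb25 ++ tb26 ++ tb27 ++ tb28 ++ tb29 ++ tb30 ++ tb31 ++ tb32 ++ tb33 ++ tb34 ++ tb35 ++ tb36

def us0 : List (ℕ × ℕ) := [(213,1), (214,1), (215,1), (216,1), (217,1), (218,1), (219,1), (220,1), (221,1), (222,1), (223,1), (224,1), (225,1), (226,1), (227,1), (228,1), (229,1), (230,1), (231,1), (232,1), (233,1), (234,1), (235,1), (236,1), (237,1), (238,1), (239,1), (240,1), (241,1), (30,1), (31,1), (32,1), (33,1), (242,1), (34,1), (36,1), (37,1), (39,1), (38,1), (41,1), (40,1), (42,1), (243,1), (244,1), (43,1), (45,1), (46,1), (245,1), (48,1), (49,1), (51,1), (54,1),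 (52,1), (53,1), (57,1), (246,1), (247,1), (55,1), (56,1), (63,1), (64,1), (0,37), (65,1), (58,1), (60,1), (61,1), (67,1), (66,1), (0,41), (68,1), (248,1), (0,43), (69,1), (70,1), (75,1), (71,1), (72,1), (76,1), (0,47), (79,1), (80,1), (77,1), (73,1), (81,1), (78,1), (82,1), (83,1), (0,53), (84,1), (85,1), (1,37), (88,1), (86,1), (87,1), (89,1), (90,1), (0,59), (91,1), (93,1), (249,1), (0,61), (1,41), (94,1), (99,1), (100,1), (102,1), (1,43), (103,1), (101,1), (250,1), (0,67), (106,1), (95,1), (96,1), (107,1), (1,47), (0,71), (104,1), (108,1), (97,1), (0,73), (113,1), (2,37), (114,1), (115,1), (109,1), (124,1), (98,1), (116,1), (0,79), (1,53), (125,1), (110,1), (117,1), (2,41), (126,1), (0,83), (118,1), (111,1), (112,1), (251,1), (2,43), (127,1), (128,1), (252,1), (1,59), (0,89), (135,1), (129,1), (1,61), (130,1), (3,37), (131,1), (119,1), (2,47), (132,1), (120,1), (142,1), (0,97), (143,1), (136,1),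 (137,1), (144,1), (1,67), (0,101), (121,1), (122,1), (3,41), (0,103), (123,1), (138,1), (133,1), (154,1), (2,53), (1,71), (0,107), (3,43), (145,1), (5,31), (0,109), (1,73), (155,1), (253,1), (4,37), (170,1), (254,1), (0,113), (146,1), (156,1), (157,1), (158,1), (159,1), (3,47), (2,59), (1,79), (139,1), (171,1), (172,1), (173,1), (2,61)]

def us1 : List (ℕ × ℕ) := [(174,1), (4,41), (160,1), (147,1), (1,83), (255,1), (175,1), (161,1), (0,127), (176,1), (177,1), (4,43), (5,37), (178,1), (256,1), (0,131), (179,1), (3,53), (162,1), (1,89), (2,67), (257,1), (148,1), (180,1), (0,137), (163,1), (164,1), (0,139), (181,1), (258,1), (4,47), (2,71), (259,1), (165,1), (5,41), (260,1), (140,1), (182,1), (1,97), (2,73), (261,1), (3,59), (6,37), (183,1), (0,149), (184,1), (262,1), (5,43), (0,151), (1,101), (185,1), (3,61), (186,1), (263,1), (1,103), (149,1), (264,1), (0,157), (265,1), (2,79), (4,53), (9,29),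 (266,1), (1,107), (187,1), (267,1), (268,1), (269,1), (0,163), (1,109), (6,41), (5,47), (270,1), (2,83), (7,37), (0,167), (3,67), (271,1), (188,1), (1,113), (189,1), (272,1), (273,1), (274,1), (6,43), (166,1), (0,173), (275,1), (276,1), (277,1), (278,1), (4,59), (3,71), (2,89), (190,1), (0,179), (279,1), (150,1), (0,181), (280,1), (281,1), (3,73), (4,61), (191,1), (7,41), (8,37), (5,53), (282,1), (283,1), (284,1), (6,47), (151,1), (285,1), (192,1), (1,127), (0,191), (286,1), (287,1), (0,193), (7,43), (2,97), (288,1), (15,23), (289,1), (1,131), (0,197), (3,79), (290,1), (0,199), (193,1), (291,1), (4,67), (11,31), (2,101), (292,1), (167,1), (9,37), (293,1), (8,41), (1,137), (2,103), (5,59), (194,1), (3,83), (294,1), (1,139), (195,1), (295,1), (0,211), (7,47), (6,53), (296,1), (4,71), (5,61), (2,107), (297,1), (8,43), (298,1), (12,31), (196,1), (2,109), (197,1), (4,73), (299,1), (300,1), (301,1),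 (10,37), (3,89), (0,223), (1,149), (302,1), (303,1), (9,41), (2,113), (1,151), (0,227), (304,1), (305,1), (0,229), (306,1), (307,1), (308,1), (309,1), (152,1), (0,233), (310,1), (5,67), (8,47), (1,157), (6,59), (9,43), (4,79), (311,1), (312,1), (7,53), (0,239), (313,1), (11,37), (0,241), (314,1)]

def us2 : List (ℕ × ℕ) := [(315,1), (3,97), (316,1), (6,61), (1,163), (317,1), (10,41), (15,29), (318,1), (319,1), (198,1), (5,71), (4,83), (320,1), (1,167), (0,251), (321,1), (3,101), (322,1), (323,1), (2,127), (324,1), (5,73), (325,1), (326,1), (0,257), (3,103), (10,43), (9,47), (12,37), (1,173), (327,1), (328,1), (2,131), (329,1), (0,263), (15,31), (330,1), (21,23), (8,53), (7,59), (331,1), (11,41), (4,89), (3,107), (6,67), (1,179), (0,269), (332,1), (333,1), (0,271), (1,181), (334,1), (3,109), (335,1), (2,137), (7,61), (336,1), (17,29), (337,1), (5,79), (0,277), (13,37), (2,139), (338,1), (11,43),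 (339,1), (340,1), (0,281), (10,47), (3,113), (0,283), (341,1), (6,71), (342,1), (343,1), (1,191), (12,41), (344,1), (345,1), (199,1), (1,193), (346,1), (5,83), (4,97), (9,53), (6,73), (347,1), (0,293), (348,1), (17,31), (8,59), (1,197), (14,37), (349,1), (350,1), (2,149), (1,199), (200,1), (351,1), (12,43), (7,67), (2,151), (352,1), (4,101), (353,1), (354,1), (8,61), (11,47), (355,1), (0,307), (13,41), (356,1), (4,103), (357,1), (358,1), (0,311), (5,89), (359,1), (360,1), (0,313), (361,1), (2,157), (15,37), (362,1), (6,79), (1,211), (0,317), (3,127), (10,53), (363,1), (20,29), (7,71), (364,1), (4,107), (365,1), (13,43), (366,1), (367,1), (9,59), (368,1), (201,1), (2,163), (4,109), (3,131), (14,41), (7,73), (12,47), (369,1), (0,331), (370,1), (6,83), (371,1), (16,37), (202,1), (2,167), (1,223), (8,67), (9,61), (372,1), (0,337), (373,1), (374,1), (4,113), (5,97), (375,1), (1,227), (153,1), (376,1),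 (3,137), (377,1), (1,229), (14,43), (11,53), (378,1), (2,173), (379,1), (0,347), (3,139), (380,1), (15,41), (0,349), (1,233), (381,1), (382,1), (17,37), (383,1), (13,47), (0,353), (5,101), (10,59), (8,71), (7,79), (6,89), (21,31), (384,1), (385,1), (2,179), (1,239), (0,359)]

def us3 : List (ℕ × ℕ) := [(386,1), (5,103), (203,1), (1,241), (2,181), (204,1), (387,1), (388,1), (389,1), (8,73), (15,43), (10,61), (0,367), (390,1), (391,1), (9,67), (16,41), (18,37), (392,1), (12,53), (393,1), (3,149), (0,373), (7,83), (394,1), (5,107), (395,1), (14,47), (1,251), (396,1), (3,151), (397,1), (0,379), (398,1), (399,1), (4,127), (5,109), (2,191), (400,1), (0,383), (11,59), (401,1), (402,1), (1,257), (2,193), (16,43), (205,1), (6,97), (19,37), (0,389), (17,41), (403,1), (9,71), (32,23), (404,1), (405,1), (3,157), (4,131), (2,197), (1,263), (8,79), (5,113), (406,1), (11,61), (0,397), (13,53), (2,199), (407,1),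 (15,47), (408,1), (7,89), (0,401), (9,73), (10,67), (409,1), (23,31), (1,269), (6,101), (410,1), (206,1), (1,271), (20,37), (3,163), (411,1), (17,43), (0,409), (412,1), (18,41), (4,137), (6,103), (413,1), (12,59), (414,1), (8,83), (1,277), (415,1), (416,1), (4,139), (3,167), (417,1), (25,31), (0,419), (418,1), (27,29), (0,421), (1,281), (2,211), (419,1), (16,47), (420,1), (14,53), (1,283), (421,1), (21,37), (10,71), (12,61), (422,1), (6,107), (423,1), (18,43), (19,41), (0,431), (424,1), (3,173), (0,433), (425,1), (26,31), (9,79), (426,1), (11,67), (6,109), (7,97), (427,1), (428,1), (10,73), (0,439), (1,293), (429,1), (430,1), (431,1), (13,59), (0,443), (22,37), (5,127), (8,89), (432,1), (2,223), (17,47), (4,149), (3,179), (433,1), (434,1), (0,449), (435,1), (436,1), (15,53), (20,41), (19,43), (6,113), (3,181), (4,151), (2,227), (7,101), (437,1), (438,1), (9,83), (0,457), (13,61), (2,229), (5,131),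 (439,1), (440,1), (1,307), (0,461), (11,71), (441,1), (24,37), (0,463), (7,103), (442,1), (443,1), (444,1), (2,233), (1,311), (0,467), (445,1), (446,1), (12,67), (1,313), (18,47), (4,157), (21,41), (14,59), (447,1), (20,43), (10,79), (11,73), (448,1), (1,317), (449,1)]

def us4 : List (ℕ × ℕ) := [(16,53), (3,191), (2,239), (31,29), (0,479), (5,137), (450,1), (28,31), (23,37), (7,107), (2,241), (3,193), (451,1), (452,1), (453,1), (8,97), (454,1), (5,139), (0,487), (455,1), (14,61), (4,163), (9,89), (456,1), (7,109), (0,491), (22,41), (3,197), (32,29), (19,47), (457,1), (21,43), (458,1), (207,1), (1,331), (12,71), (3,199), (10,83), (0,499), (25,37), (459,1), (460,1), (4,167), (15,59), (2,251), (13,67), (0,503), (17,53), (461,1), (8,101), (1,337), (462,1), (463,1), (464,1), (6,127), (7,113), (0,509), (465,1), (12,73), (168,1), (466,1), (24,41), (467,1), (11,79), (2,257), (468,1), (8,103), (22,43),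 (20,47), (469,1), (26,37), (15,61), (4,173), (470,1), (1,347), (0,521), (5,149), (471,1), (472,1), (0,523), (1,349), (6,131), (473,1), (2,263), (474,1), (32,31), (3,211), (475,1), (5,151), (40,23), (1,353), (18,53), (16,59), (476,1), (13,71), (23,41), (9,97), (10,89), (8,107), (477,1), (14,67), (27,37), (4,179), (24,43), (2,269), (1,359), (478,1), (11,83), (479,1), (21,47), (0,541), (208,1), (2,271), (33,31), (4,181), (480,1), (481,1), (8,109), (482,1), (0,547), (13,73), (6,137), (16,61), (5,157), (483,1), (1,367), (34,29), (484,1), (485,1), (12,79), (25,41), (2,277), (29,37), (9,101), (6,139), (19,53), (0,557), (3,223), (486,1), (23,43), (1,373), (487,1), (17,59), (488,1), (2,281), (489,1), (0,563), (209,1), (22,47), (8,113), (490,1), (2,283), (9,103), (491,1), (3,227), (14,71), (1,379), (0,569), (15,67), (492,1), (5,163), (0,571), (7,127), (493,1), (3,229), (4,191), (28,37), (26,41), (1,383),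 (494,1), (495,1), (0,577), (496,1), (497,1), (11,89), (4,193), (17,61), (498,1), (25,43), (12,83), (10,97), (3,233), (20,53), (1,389), (14,73), (5,167), (499,1), (2,293), (56,17), (0,587), (24,47), (500,1), (9,107), (34,31), (7,131), (18,59), (4,197), (501,1), (30,37), (13,79)]

def us5 : List (ℕ × ℕ) := [(0,593), (502,1), (27,41), (503,1), (1,397), (6,149), (4,199), (3,239), (504,1), (505,1), (0,599), (9,109), (506,1), (0,601), (1,401), (26,43), (3,241), (16,67), (15,71), (6,151), (36,31), (507,1), (5,173), (10,101), (0,607), (508,1), (509,1), (510,1), (21,53), (18,61), (31,37), (23,47), (511,1), (512,1), (0,613), (1,409), (2,307), (29,41), (513,1), (7,137), (0,617), (514,1), (10,103), (0,619), (19,59), (515,1), (15,73), (516,1), (9,113), (2,311), (13,83), (12,89), (27,43), (517,1), (518,1), (7,139), (2,313), (5,179), (519,1), (3,251), (6,157), (1,419), (32,37), (520,1), (11,97), (0,631), (1,421),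 (14,79), (521,1), (4,211), (5,181), (2,317), (25,47), (8,127), (28,41), (22,53), (17,67), (522,1), (523,1), (38,29), (16,71), (524,1), (19,61), (0,641), (10,107), (3,257), (0,643), (525,1), (526,1), (29,43), (527,1), (1,431), (0,647), (33,37), (528,1), (20,59), (1,433), (529,1), (530,1), (6,163), (531,1), (0,653), (10,109), (532,1), (8,131), (533,1), (30,41), (11,101), (16,73), (3,263), (26,47), (1,439), (0,659), (534,1), (0,661), (535,1), (2,331), (24,53), (536,1), (14,83), (1,443), (537,1), (538,1), (35,37), (28,43), (539,1), (13,89), (6,167), (5,191), (4,223), (11,103), (18,67), (7,149), (20,61), (15,79), (540,1), (3,269), (0,673), (1,449), (2,337), (17,71), (541,1), (5,193), (542,1), (31,41), (0,677), (3,271), (10,113), (21,59), (12,97), (7,151), (543,1), (4,227), (27,47), (544,1), (545,1), (0,683), (546,1), (8,137), (1,457), (547,1), (4,229), (548,1), (30,43), (549,1), (23,53), (5,197), (550,1),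 (0,691), (1,461), (6,173), (3,277), (551,1), (17,73), (2,347), (1,463), (8,139), (11,107), (552,1), (5,199), (32,41), (553,1), (2,349), (9,127), (4,233), (554,1), (1,467), (0,701), (21,61), (555,1), (3,281), (34,37), (19,67), (556,1), (29,47), (15,83), (2,353), (7,157), (12,101), (3,283)]

def us6 : List (ℕ × ℕ) := [(22,59), (11,109), (0,709), (31,43), (18,71), (557,1), (16,79), (14,89), (558,1), (40,31), (559,1), (560,1), (25,53), (6,179), (4,239), (33,41), (2,359), (1,479), (0,719), (561,1), (9,131), (12,103), (36,37), (210,1), (211,1), (4,241), (6,181), (562,1), (563,1), (564,1), (0,727), (13,97), (565,1), (28,47), (566,1), (18,73), (1,487), (32,43), (567,1), (22,61), (3,293), (0,733), (7,163), (2,367), (11,113), (568,1), (569,1), (1,491), (20,67), (24,59), (35,41), (5,211), (0,739), (43,29), (37,37), (570,1), (26,53), (571,1), (0,743), (572,1), (8,149), (19,71), (2,373), (16,83), (573,1),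 (574,1), (1,499), (12,107), (575,1), (17,79), (0,751), (7,167), (30,47), (33,43), (4,251), (9,137), (576,1), (1,503), (8,151), (577,1), (15,89), (0,757), (13,101), (2,379), (578,1), (44,31), (579,1), (580,1), (0,761), (10,127), (24,61), (12,109), (1,509), (6,191), (9,139), (581,1), (2,383), (19,73), (23,59), (3,307), (582,1), (27,53), (0,769), (583,1), (584,1), (21,67), (4,257), (6,193), (13,103), (0,773), (585,1), (35,43), (212,1), (31,47), (14,97), (39,37), (3,311), (2,389), (7,173), (34,41), (586,1), (5,223), (20,71), (1,521), (55,23), (3,313), (587,1), (588,1), (1,523), (8,157), (10,131), (589,1), (0,787), (590,1), (6,197), (17,83), (4,263), (18,79), (43,31), (12,113), (591,1), (3,317), (23,61), (56,23), (2,397), (5,227), (29,53), (6,199), (25,59), (0,797), (50,29), (592,1), (32,47), (36,41), (593,1), (16,89), (5,229), (2,401), (13,107), (20,73), (22,67), (594,1), (7,179), (45,31), (4,269),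 (595,1), (14,101), (596,1), (0,809), (597,1), (0,811), (1,541), (598,1), (599,1), (4,271), (38,37), (7,181), (8,163), (5,233), (600,1), (21,71), (34,43), (13,109), (2,409), (601,1), (9,149), (37,41), (1,547), (0,821), (28,53), (10,137), (33,47), (0,823), (25,61), (14,103), (15,97), (602,1), (11,127), (26,59), (49,29)]

def us7 : List (ℕ × ℕ) := [(0,827), (3,331), (603,1), (0,829), (19,79), (18,83), (9,151), (4,277), (604,1), (41,37), (605,1), (10,139), (8,167), (1,557), (606,1), (5,239), (46,31), (24,67), (2,419), (36,43), (0,839), (21,73), (607,1), (51,29), (608,1), (2,421), (3,337), (4,281), (5,241), (6,211), (1,563), (609,1), (17,89), (35,47), (610,1), (13,113), (30,53), (4,283), (611,1), (612,1), (40,37), (11,131), (22,71), (50,31), (0,853), (1,569), (26,61), (613,1), (27,59), (14,107), (1,571), (0,857), (614,1), (615,1), (15,101), (0,859), (7,191), (37,43), (39,41), (2,431), (616,1), (0,863),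 (9,157), (617,1), (618,1), (8,173), (1,577), (2,433), (619,1), (3,347), (48,31), (7,193), (20,79), (620,1), (23,67), (19,83), (14,109), (3,349), (16,97), (621,1), (31,53), (622,1), (15,103), (22,73), (0,877), (623,1), (2,439), (5,251), (4,293), (624,1), (1,587), (0,881), (625,1), (3,353), (0,883), (49,31), (626,1), (27,61), (29,59), (627,1), (2,443), (7,197), (0,887), (24,71), (42,37), (12,127), (1,593), (18,89), (11,137), (628,1), (6,223), (629,1), (34,47), (10,149), (8,179), (7,199), (630,1), (9,163), (631,1), (3,359), (2,449), (1,599), (632,1), (5,257), (633,1), (32,53), (1,601), (38,41), (150,5), (39,43), (11,139), (14,113), (25,67), (8,181), (10,151), (44,37), (0,907), (634,1), (6,227), (21,79), (16,101), (15,107), (635,1), (1,607), (0,911), (636,1), (24,73), (20,83), (637,1), (2,457), (28,59), (29,61), (6,229), (36,47), (12,131), (3,367), (638,1), (9,167), (0,919), (1,613), (639,1), (5,263),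 (4,307), (17,97), (2,461), (41,41), (23,71), (640,1), (47,37), (1,617), (2,463), (15,109), (16,103), (33,53), (641,1), (1,619), (0,929), (642,1), (643,1), (644,1), (645,1), (6,233), (3,373), (4,311), (2,467), (19,89), (646,1), (647,1), (0,937), (648,1), (26,67), (4,313), (37,47), (649,1), (0,941), (5,269), (10,157), (650,1), (40,41), (43,37)]

def us8 : List (ℕ × ℕ) := [(30,59), (651,1), (28,61), (38,43), (1,631), (0,947), (3,379), (22,79), (5,271), (23,73), (7,211), (652,1), (4,317), (9,173), (653,1), (13,127), (0,953), (35,53), (21,83), (8,191), (654,1), (6,239), (59,29), (3,383), (2,479), (25,71), (12,137), (17,101), (655,1), (15,113), (52,31), (1,641), (45,37), (656,1), (16,107), (6,241), (1,643), (8,193), (657,1), (0,967), (41,43), (658,1), (11,149), (659,1), (5,277), (18,97), (1,647), (0,971), (27,67), (660,1), (3,389), (12,139), (31,59), (2,487), (661,1), (30,61), (53,31), (0,977), (87,17),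 (10,163), (17,103), (20,89), (1,653), (662,1), (16,109), (11,151), (2,491), (13,131), (0,983), (5,281), (42,41), (9,179), (8,197), (25,73), (55,29), (39,47), (24,79), (663,1), (1,659), (40,43), (664,1), (5,283), (0,991), (1,661), (665,1), (3,397), (4,331), (26,71), (666,1), (8,199), (9,181), (22,83), (0,997), (667,1), (2,499), (46,37), (668,1), (669,1), (670,1), (10,167), (3,401), (32,59), (7,223), (6,251), (44,41), (29,67), (2,503), (31,61), (34,53), (98,13), (671,1), (0,1009), (1,673), (18,101), (4,337), (672,1), (673,1), (674,1), (0,1013), (675,1), (676,1), (1,677), (14,127), (17,107), (16,113), (50,37), (2,509), (19,97), (0,1019), (677,1), (11,157), (0,1021), (7,227), (26,73), (3,409), (678,1), (21,89), (679,1), (1,683), (47,41), (5,293), (680,1), (23,79), (13,137), (6,257), (681,1), (682,1), (27,71), (18,103), (7,229), (0,1031), (42,43), (33,59), (0,1033), (36,53), (38,47), (683,1), (17,109),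 (48,37), (1,691), (32,61), (24,83), (10,173), (28,67), (0,1039), (684,1), (685,1), (4,347), (2,521), (13,139), (12,149), (686,1), (687,1), (43,41), (2,523), (688,1), (4,349), (3,419), (14,131), (7,233), (0,1049), (689,1), (9,191), (0,1051), (1,701), (6,263), (3,421), (690,1), (44,43), (55,31), (49,37), (8,211), (691,1), (12,151), (41,47), (72,23), (27,73), (4,353), (11,163), (37,53)]

def us9 : List (ℕ × ℕ) := [(19,101), (0,1061), (9,193), (35,59), (692,1), (0,1063), (1,709), (693,1), (29,71), (45,41), (25,79), (20,97), (33,61), (22,89), (0,1069), (56,31), (18,107), (694,1), (30,67), (695,1), (51,37), (17,113), (10,179), (5,307), (47,43), (7,239), (6,269), (4,359), (3,431), (696,1), (1,719), (23,83), (15,127), (697,1), (40,47), (19,103), (2,541), (3,433), (698,1), (9,197), (6,271), (7,241), (699,1), (11,167), (10,181), (0,1087), (700,1), (701,1), (5,311), (702,1), (18,109), (1,727), (0,1091),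 (703,1), (704,1), (0,1093), (705,1), (2,547), (9,199), (29,73), (5,313), (14,137), (43,43), (0,1097), (3,439), (35,61), (706,1), (12,157), (1,733), (707,1), (28,71), (4,367), (58,29), (708,1), (0,1103), (709,1), (710,1), (31,67), (26,79), (46,41), (3,443), (6,277), (1,739), (0,1109), (5,317), (54,37), (20,101), (711,1), (14,139), (24,89), (39,53), (15,131), (2,557), (1,743), (8,223), (21,97), (712,1), (713,1), (0,1117), (13,149), (45,43), (4,373), (714,1), (25,83), (34,59), (715,1), (3,449), (0,1123), (19,107), (6,281), (11,173), (716,1), (2,563), (1,751), (717,1), (50,41), (42,47), (0,1129), (7,251), (18,113), (718,1), (719,1), (28,73), (6,283), (13,151), (20,103), (720,1), (8,227), (1,757), (30,71), (4,379), (721,1), (2,569), (722,1), (32,67), (723,1), (12,163), (1,761), (2,571), (3,457), (16,127), (724,1), (19,109), (8,229), (27,79), (10,191), (52,37), (725,1), (48,41), (4,383), (726,1), (727,1),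 (36,59), (0,1151), (44,47), (728,1), (3,461), (0,1153), (1,769), (2,577), (729,1), (730,1), (7,257), (23,89), (3,463), (10,193), (5,331), (34,61), (1,773), (731,1), (9,211), (46,43), (21,101), (26,83), (732,1), (0,1163), (11,179), (22,97), (15,137), (8,233), (53,37), (38,53), (4,389), (3,467), (30,73), (49,41), (12,167), (733,1), (0,1171), (31,71), (6,293), (33,67), (96,17), (2,587), (734,1), (47,47), (735,1), (11,181), (20,107), (13,157)]

def us10 : List (ℕ × ℕ) := [(58,31), (16,131), (5,337), (37,59), (1,787), (0,1181), (15,139), (10,197), (50,43), (736,1), (7,263), (57,37), (21,103), (29,79), (2,593), (19,113), (0,1187), (737,1), (738,1), (51,41), (36,61), (739,1), (4,397), (14,149), (41,53), (0,1193), (60,31), (10,199), (8,239), (1,797), (740,1), (741,1), (3,479), (2,599), (43,47), (20,109), (742,1), (743,1), (0,1201), (25,89), (2,601), (62,37), (4,401), (27,83), (48,43), (31,73), (8,241),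 (35,67), (17,127), (32,71), (744,1), (14,151), (61,31), (745,1), (7,269), (12,173), (22,101), (24,97), (0,1213), (1,809), (2,607), (5,347), (746,1), (747,1), (748,1), (1,811), (0,1217), (3,487), (749,1), (40,53), (7,271), (37,61), (59,37), (5,349), (45,47), (13,163), (0,1223), (750,1), (28,79), (751,1), (49,43), (2,613), (9,223), (4,409), (3,491), (6,307), (752,1), (0,1229), (54,41), (21,107), (0,1231), (1,821), (753,1), (97,17), (16,137), (2,617), (1,823), (754,1), (5,353), (22,103), (0,1237), (755,1), (2,619), (39,59), (756,1), (1,827), (32,73), (11,191), (757,1), (33,71), (20,113), (1,829), (6,311), (17,131), (29,83), (26,89), (7,277), (51,43), (3,499), (758,1), (9,227), (0,1249), (759,1), (760,1), (16,139), (6,313), (13,167), (12,179), (21,109), (761,1), (11,193), (8,251), (66,31), (14,157), (5,359), (4,419), (3,503), (55,37), (1,839), (0,1259), (9,229), (762,1), (23,97), (69,29), (2,631),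 (24,101), (4,421), (150,7), (30,79), (7,281), (763,1), (10,211), (15,149), (12,181), (764,1), (6,317), (46,47), (18,127), (765,1), (52,41), (42,53), (3,509), (34,67), (7,283), (766,1), (767,1), (70,29), (56,37), (0,1277), (33,73), (35,71), (0,1279), (1,853), (768,1), (11,197), (39,61), (9,233), (2,641), (769,1), (0,1283), (15,151), (22,107), (5,367), (8,257), (1,857), (2,643), (28,83), (770,1), (24,103), (771,1), (1,859), (0,1289), (54,43), (27,89), (0,1291), (53,41), (772,1), (50,47), (4,431), (11,199)]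

def us11 : List (ℕ × ℕ) := [(2,647), (1,863), (63,37), (773,1), (0,1297), (13,173), (38,59), (44,53), (4,433), (21,113), (774,1), (775,1), (0,1301), (17,137), (776,1), (3,521), (0,1303), (31,79), (14,163), (777,1), (5,373), (2,653), (36,67), (0,1307), (3,523), (22,109), (778,1), (25,97), (18,131), (779,1), (57,41), (780,1), (23,101), (35,73), (9,239), (8,263), (1,877), (48,47), (4,439), (98,17), (2,659), (7,293), (0,1319), (781,1), (782,1), (17,139), (0,1321), (1,881), (2,661), (87,23), (783,1), (6,331), (1,883), (47,53), (9,241), (784,1), (5,379), (0,1327), (41,59), (30,83), (4,443), (785,1), (1,887), (786,1), (64,37), (62,41), (52,43), (19,127), (787,1), (15,157), (29,89), (14,167), (788,1), (12,191), (24,107), (10,223), (23,103), (49,47), (37,67), (5,383), (16,149), (38,61), (13,179), (32,79), (789,1), (8,269), (790,1), (2,673), (4,449), (791,1), (6,337), (792,1), (34,71), (793,1), (12,193),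 (43,53), (794,1), (3,541), (59,41), (2,677), (53,43), (8,271), (22,113), (40,59), (13,181), (26,97), (795,1), (16,151), (796,1), (1,907), (0,1361), (5,389), (10,227), (24,109), (51,47), (25,101), (797,1), (798,1), (2,683), (1,911), (0,1367), (3,547), (799,1), (800,1), (0,1369), (31,83), (18,137), (4,457), (11,211), (801,1), (41,61), (0,1373), (10,229), (802,1), (19,131), (57,43), (803,1), (97,19), (45,53), (1,919), (12,197), (28,89), (804,1), (9,251), (0,1381), (7,307), (2,691), (33,79), (4,461), (14,173), (36,71), (8,277), (15,163), (805,1), (34,73), (65,37), (6,347), (4,463), (5,397), (18,139), (25,103), (23,107), (806,1), (807,1), (3,557), (12,199), (1,929), (55,41), (808,1), (6,349), (809,1), (20,127), (62,43), (10,233), (0,1399), (7,311), (810,1), (4,467), (2,701), (811,1), (40,61), (5,401), (812,1), (8,281), (1,937), (58,37), (27,97), (39,67), (3,563), (813,1), (7,313), (0,1409), (54,47),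 (71,31), (32,83), (1,941), (6,353), (24,113), (16,157), (9,257)]

def us12 : List (ℕ × ℕ) := [(26,101), (56,41), (8,283), (17,149), (42,59), (23,109), (814,1), (2,709), (59,43), (15,167), (37,71), (1,947), (815,1), (35,79), (3,569), (0,1423), (36,73), (30,89), (60,37), (816,1), (72,31), (7,317), (0,1427), (3,571), (817,1), (0,1429), (1,953), (818,1), (46,53), (5,409), (14,179), (13,191), (0,1433), (10,239), (17,151), (63,41), (73,29), (6,359), (819,1), (4,479), (820,1), (2,719), (19,137), (0,1439), (821,1), (20,131), (76,31), (26,103), (3,577), (61,37), (203,4), (25,107), (822,1), (44,59), (10,241), (9,263), (0,1447), (13,193), (14,181), (823,1), (11,223), (824,1), (1,967), (0,1451), (825,1), (33,83), (0,1453), (826,1), (2,727), (29,97), (827,1), (1,971), (52,47), (50,53), (828,1), (0,1459), (19,139), (37,73), (21,127), (4,487), (55,43), (829,1), (830,1), (42,61), (27,101), (8,293), (1,977), (2,733),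 (5,419), (16,163), (3,587), (6,367), (31,89), (23,113), (831,1), (15,173), (0,1471), (25,109), (832,1), (98,19), (4,491), (5,421), (38,67), (1,983), (47,59), (11,227), (64,41), (12,211), (13,197), (2,739), (78,29), (9,269), (67,37), (53,47), (0,1481), (833,1), (3,593), (0,1483), (56,43), (48,53), (834,1), (2,743), (1,991), (0,1487), (835,1), (836,1), (11,229), (0,1489), (7,331), (18,149), (9,271), (39,71), (17,157), (6,373), (13,199), (0,1493), (27,103), (35,83), (44,61), (837,1), (1,997), (838,1), (4,499), (3,599), (26,107), (66,37), (0,1499), (839,1), (34,79), (840,1), (2,751), (3,601), (16,167), (28,97), (57,47), (43,59), (63,43), (10,251), (21,131), (20,137), (41,67), (841,1), (5,431), (4,503), (18,151), (49,53), (0,1511), (842,1), (843,1), (32,89), (1,1009), (2,757), (11,233), (29,101), (5,433), (6,379), (7,337), (0,1517), (3,607), (844,1), (77,31), (1,1013), (845,1), (846,1), (15,179), (2,761),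 (847,1), (0,1523), (9,277), (22,127), (47,61), (25,113), (26,109), (4,509), (62,47), (14,191), (1,1019), (20,139), (848,1), (849,1)]

def us13 : List (ℕ × ℕ) := [(0,1531), (1,1021), (6,383), (3,613), (39,73), (45,59), (73,31), (8,307), (850,1), (5,439), (51,53), (65,41), (2,769), (15,181), (851,1), (852,1), (36,79), (40,67), (10,257), (3,617), (0,1543), (853,1), (14,193), (29,103), (9,281), (2,773), (1,1031), (854,1), (3,619), (64,43), (17,163), (0,1549), (1,1033), (855,1), (5,443), (59,47), (27,107), (30,97), (856,1), (0,1553), (11,239), (68,37), (8,311), (43,61), (6,389), (9,283), (16,173), (33,89), (58,41), (1,1039), (0,1559), (857,1), (12,223), (7,347), (38,71), (858,1), (4,521), (95,23), (19,149), (8,313), (28,101), (859,1), (11,241), (0,1567), (860,1), (861,1), (4,523), (18,157), (7,349), (0,1571), (5,449), (22,131), (74,37), (862,1), (1,1049), (2,787), (863,1), (21,137), (14,197), (1,1051),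 (34,83), (3,631), (10,263), (60,41), (0,1579), (864,1), (37,79), (27,109), (78,31), (26,113), (13,211), (0,1583), (865,1), (8,317), (19,151), (45,61), (17,167), (96,23), (24,127), (6,397), (7,353), (12,227), (140,11), (54,53), (0,1591), (1,1061), (14,199), (866,1), (46,59), (2,797), (1,1063), (85,29), (867,1), (28,103), (0,1597), (41,71), (55,47), (21,139), (61,41), (5,457), (868,1), (31,97), (0,1601), (35,89), (3,641), (12,229), (1,1069), (6,401), (29,107), (111,19), (38,73), (869,1), (0,1607), (3,643), (42,67), (0,1609), (69,37), (870,1), (16,179), (9,293), (82,31), (65,43), (0,1613), (5,461), (10,269), (871,1), (7,359), (30,101), (872,1), (3,647), (2,809), (36,83), (0,1619), (873,1), (5,463), (0,1621), (56,47), (2,811), (50,59), (4,541), (15,191), (874,1), (875,1), (876,1), (10,271), (0,1627), (877,1), (70,37), (16,181), (18,163), (1,1087), (12,233), (11,251), (878,1), (3,653), (40,71), (879,1),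 (58,43), (5,467), (29,109), (6,409), (1,1091), (0,1637), (24,131), (880,1), (27,113), (20,149), (1,1093), (67,41), (15,193), (4,547), (44,67), (2,821), (41,73), (52,53), (17,173), (22,137), (881,1), (63,47), (1,1097)]

def us14 : List (ℕ × ℕ) := [(2,823), (46,61), (3,659), (30,103), (19,157), (32,97), (882,1), (23,127), (7,367), (48,59), (3,661), (86,29), (2,827), (1,1103), (8,331), (60,43), (883,1), (0,1657), (884,1), (2,829), (28,107), (39,79), (37,83), (66,41), (20,151), (10,277), (885,1), (0,1663), (1,1109), (886,1), (75,37), (887,1), (31,101), (0,1667), (888,1), (22,139), (0,1669), (53,53), (18,167), (11,257), (4,557), (889,1), (13,223), (12,239), (84,31), (15,197), (47,67), (1,1117), (6,419), (5,479), (61,43), (50,61), (2,839), (7,373), (40,73), (890,1), (0,1681), (49,59), (89,29), (3,673), (891,1), (71,37), (6,421), (1,1123), (8,337), (10,281), (12,241), (892,1), (14,211), (9,307), (4,563),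 (28,109), (893,1), (894,1), (34,89), (15,199), (64,47), (3,677), (0,1693), (1,1129), (895,1), (29,113), (57,53), (896,1), (0,1697), (33,97), (10,283), (0,1699), (31,103), (897,1), (17,179), (898,1), (72,37), (13,227), (23,131), (42,71), (5,487), (153,5), (7,379), (2,853), (4,569), (3,683), (48,61), (43,67), (0,1709), (11,263), (899,1), (9,311), (51,59), (19,163), (30,107), (24,137), (4,571), (21,149), (2,857), (25,127), (900,1), (901,1), (32,101), (13,229), (2,859), (5,491), (16,191), (17,181), (67,43), (76,37), (0,1721), (9,313), (68,41), (62,53), (0,1723), (7,383), (6,431), (902,1), (121,17), (2,863), (1,1151), (20,157), (3,691), (903,1), (904,1), (1,1153), (18,173), (4,577), (6,433), (905,1), (0,1733), (906,1), (8,347), (36,89), (198,7), (21,151), (16,193), (24,139), (38,79), (49,61), (0,1739), (44,71), (907,1), (0,1741), (66,43), (45,67), (74,41), (39,83), (9,317), (30,109), (1,1163), (8,349),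 (35,97), (5,499), (0,1747), (13,233), (908,1), (11,269), (59,53), (909,1), (7,389), (32,103), (28,113), (42,73), (3,701), (0,1753), (19,167), (2,877), (92,29), (910,1), (6,439), (1,1171), (12,251), (79,37), (10,293), (0,1759), (123,17), (911,1), (5,503), (4,587), (11,271), (2,881), (65,47), (0,1763)]

def us15 : List (ℕ × ℕ) := [(912,1), (8,353), (31,107), (2,883), (86,31), (33,101), (913,1), (25,131), (51,61), (54,59), (914,1), (1,1181), (6,443), (3,709), (16,197), (2,887), (915,1), (47,71), (80,37), (916,1), (0,1777), (41,79), (26,127), (4,593), (37,89), (1,1187), (23,137), (5,509), (917,1), (98,23), (0,1783), (69,41), (14,223), (918,1), (58,47), (7,397), (0,1787), (919,1), (22,149), (44,73), (0,1789), (1,1193), (18,179), (16,199), (920,1), (13,239), (20,163), (15,211), (921,1), (8,359), (922,1), (6,449), (4,599), (3,719), (923,1), (31,109), (12,257), (924,1), (11,277), (0,1801), (1,1201), (55,53),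 (33,103), (4,601), (70,41), (7,401), (120,19), (21,157), (68,43), (23,139), (13,241), (30,113), (46,67), (60,47), (18,181), (43,71), (0,1811), (22,151), (204,5), (77,37), (90,31), (2,907), (17,191), (925,1), (14,227), (19,173), (40,79), (3,727), (35,101), (32,107), (1,1213), (926,1), (9,331), (4,607), (2,911), (927,1), (0,1823), (5,521), (928,1), (47,73), (1,1217), (38,83), (11,281), (929,1), (74,43), (6,457), (56,53), (52,59), (54,61), (5,523), (0,1831), (73,37), (14,229), (3,733), (61,47), (17,193), (26,131), (1,1223), (8,367), (930,1), (20,167), (931,1), (2,919), (4,613), (11,283), (932,1), (7,409), (12,263), (27,127), (10,307), (50,67), (34,97), (1,1229), (6,461), (91,31), (75,41), (45,71), (1,1231), (0,1847), (3,739), (933,1), (0,1849), (25,137), (81,37), (4,617), (110,23), (6,463), (934,1), (32,109), (9,337), (35,103), (63,53), (1,1237), (935,1), (4,619), (3,743), (2,929), (53,59), (936,1),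 (937,1), (0,1861), (43,73), (938,1), (24,149), (939,1), (14,233), (31,113), (8,373), (71,41), (10,311), (0,1867), (41,83), (6,467), (39,89), (940,1), (69,43), (0,1871), (17,197), (941,1), (33,107), (0,1873), (1,1249), (2,937), (21,163), (942,1), (92,31), (48,67), (25,139), (0,1877), (3,751), (10,313), (943,1), (0,1879), (19,179), (67,47), (944,1), (2,941), (13,251), (12,269), (22,157)]

def us16 : List (ℕ × ℕ) := [(945,1), (7,419), (72,41), (946,1), (78,37), (24,151), (57,59), (1,1259), (0,1889), (947,1), (17,199), (52,61), (36,97), (70,43), (3,757), (4,631), (5,541), (2,947), (7,421), (8,379), (15,223), (42,79), (12,271), (948,1), (45,73), (16,211), (27,131), (949,1), (19,181), (0,1901), (10,317), (3,761), (20,173), (66,47), (950,1), (11,293), (29,127), (2,953), (76,41), (0,1907), (33,109), (64,53), (9,347), (40,83), (49,67), (18,191), (951,1), (14,239), (952,1), (0,1913), (101,29), (5,547),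 (8,383), (1,1277), (6,479), (46,71), (62,59), (26,137), (1,1279), (34,101), (9,349), (953,1), (21,167), (32,113), (53,61), (94,31), (3,769), (4,641), (82,37), (1,1283), (954,1), (35,107), (0,1927), (13,257), (14,241), (121,19), (4,643), (15,227), (18,193), (955,1), (0,1931), (956,1), (3,773), (0,1933), (1,1289), (2,967), (75,43), (44,79), (957,1), (1,1291), (23,149), (205,5), (958,1), (12,277), (7,431), (37,97), (4,647), (9,353), (2,971), (83,37), (51,67), (111,23), (959,1), (8,389), (1,1297), (26,139), (15,229), (59,59), (79,41), (6,487), (7,433), (0,1949), (5,557), (960,1), (0,1951), (1,1301), (57,61), (50,71), (100,31), (2,977), (1,1303), (112,23), (22,163), (71,43), (34,103), (961,1), (38,89), (4,653), (962,1), (1,1307), (0,1961), (35,109), (24,157), (23,151), (963,1), (6,491), (29,131), (2,983), (964,1), (12,281), (3,787), (80,41), (28,127), (20,179), (36,101), (18,197), (5,563), (46,73),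 (95,29), (13,263), (0,1973), (68,47), (9,359), (47,79), (7,439), (965,1), (4,659), (33,113), (72,43), (1,1319), (0,1979), (966,1), (15,233), (12,283), (1,1321), (2,991), (62,61), (4,661), (967,1), (968,1), (8,397), (133,19), (10,331), (27,137), (0,1987), (65,53), (48,71), (969,1), (21,173), (18,199), (1,1327), (20,181), (5,569), (42,83), (3,797), (0,1993), (7,443), (2,997), (970,1), (11,307), (6,499), (971,1), (0,1997), (74,47), (84,37), (5,571), (0,1999), (76,43), (972,1), (973,1)]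

def us17 : List (ℕ × ℕ) := [(974,1), (41,89), (0,2003), (22,167), (17,211), (8,401), (19,191), (55,59), (16,223), (50,73), (14,251), (36,103), (77,41), (54,67), (0,2011), (25,149), (6,503), (975,1), (59,61), (58,53), (43,79), (149,13), (27,139), (976,1), (0,2017), (13,269), (2,1009), (9,367), (4,673), (5,577), (37,101), (7,449), (0,2021), (11,311), (10,337), (3,809), (977,1), (49,71), (978,1), (979,1), (2,1013), (19,193), (0,2027), (3,811), (980,1), (0,2029), (73,41), (981,1), (28,131), (4,677), (15,239), (30,127), (13,271), (34,107), (44,83), (35,113), (11,313), (85,37), (56,59), (6,509), (39,97), (24,163), (2,1019), (25,151), (0,2039), (982,1), (60,53), (23,157), (1,1361), (2,1021), (79,43), (16,227), (48,73), (69,47), (8,409), (983,1), (40,89), (984,1), (985,1), (15,241), (4,683), (81,41), (1,1367), (12,293), (9,373), (986,1), (3,821), (0,2053), (1,1369), (45,79), (5,587), (29,137), (14,257),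 (7,457), (987,1), (3,823), (988,1), (21,179), (51,71), (1,1373), (37,103), (11,317), (16,229), (105,31), (2,1031), (989,1), (0,2063), (80,43), (63,59), (990,1), (2,1033), (61,53), (3,827), (70,47), (19,197), (0,2069), (991,1), (34,109), (1,1381), (88,37), (3,829), (4,691), (151,11), (55,61), (7,461), (47,83), (5,593), (22,173), (52,67), (13,277), (2,1039), (992,1), (993,1), (49,73), (0,2081), (21,181), (10,347), (994,1), (0,2083), (7,463), (6,521), (9,379), (29,139), (26,149), (36,107), (0,2087), (24,167), (995,1), (0,2089), (19,199), (996,1), (78,41), (6,523), (997,1), (998,1), (10,349), (8,419), (31,127), (30,131), (5,599), (16,233), (3,839), (2,1049), (1,1399), (0,2099), (999,1), (1000,1), (20,191), (7,467), (2,1051), (97,29), (4,701), (5,601), (14,263), (56,61), (8,421), (1001,1), (9,383), (77,43), (13,281), (95,31), (86,37), (18,211), (53,67), (0,2111), (1002,1), (1003,1), (0,2113), (1,1409),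 (26,151), (75,47), (130,23), (43,83), (51,73), (1004,1), (10,353), (17,223), (23,163), (25,157), (67,53)]

def us18 : List (ℕ × ℕ) := [(39,101), (2,1061), (13,283), (20,193), (28,137), (64,59), (5,607), (1005,1), (36,109), (2,1063), (4,709), (87,37), (1006,1), (73,43), (0,2129), (54,71), (0,2131), (1007,1), (82,41), (3,853), (46,79), (15,251), (38,97), (1,1423), (63,61), (42,89), (0,2137), (1008,1), (2,1069), (71,47), (96,31), (9,389), (37,107), (1,1427), (0,2141), (1009,1), (3,857), (0,2143), (1,1429), (57,67), (1010,1), (5,613), (89,37), (66,53), (34,113), (3,859), (22,179), (12,307), (1,1433), (81,43), (1011,1), (16,239), (11,331), (14,269), (83,41), (0,2153), (10,359), (28,139), (8,431), (7,479), (1012,1), (17,227), (4,719), (3,863), (45,83), (1,1439), (32,127), (5,617), (1013,1), (27,149), (0,2161), (31,131), (72,47), (24,173), (39,103), (6,541), (90,37), (8,433), (1014,1), (5,619), (20,197),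 (1015,1), (14,271), (16,241), (1016,1), (1,1447), (23,167), (22,181), (50,79), (0,2173), (1017,1), (2,1087), (1018,1), (17,229), (1019,1), (1,1451), (12,311), (62,67), (1020,1), (0,2179), (1,1453), (37,109), (44,89), (4,727), (2,1091), (41,97), (0,2183), (9,397), (1021,1), (15,257), (1022,1), (76,47), (2,1093), (1023,1), (1024,1), (6,547), (1,1459), (20,199), (27,151), (54,73), (11,337), (12,313), (7,487), (30,137), (3,877), (78,43), (2,1097), (1025,1), (8,439), (64,61), (21,191), (1026,1), (13,293), (26,157), (4,733), (1027,1), (25,163), (52,71), (91,37), (10,367), (3,881), (0,2203), (36,113), (115,29), (1028,1), (9,401), (2,1103), (1,1471), (0,2207), (3,883), (1029,1), (5,631), (0,2209), (7,491), (1030,1), (59,67), (48,79), (65,59), (0,2213), (17,233), (84,41), (8,443), (19,211), (14,277), (104,31), (4,739), (3,887), (2,1109), (109,29), (12,317), (21,193), (93,37), (0,2221), (1,1481), (38,101),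 (33,127), (1031,1), (30,139), (1,1483), (47,89), (68,53), (32,131), (1032,1), (6,557), (4,743), (1033,1), (18,223), (1,1487), (40,97), (1034,1), (79,47), (167,11), (1,1489), (2,1117), (29,149), (15,263), (82,43), (53,71), (0,2237), (24,179)]

def us19 : List (ℕ × ℕ) := [(10,373), (92,37), (0,2239), (1,1493), (1035,1), (46,83), (58,59), (1036,1), (0,2243), (5,641), (1037,1), (8,449), (7,499), (2,1123), (39,107), (1038,1), (14,281), (1,1499), (23,173), (9,409), (1039,1), (5,643), (0,2251), (49,79), (6,563), (74,53), (4,751), (1040,1), (25,167), (85,41), (11,347), (80,47), (0,2257), (83,43), (2,1129), (16,251), (37,113), (31,137), (1041,1), (1042,1), (24,181), (52,73), (7,503), (14,283), (5,647), (29,151), (21,197), (38,103), (1,1511), (0,2267), (3,907), (1043,1), (11,349), (0,2269), (43,89), (18,227), (17,239), (4,757), (60,59), (57,71), (41,101), (0,2273), (10,379), (1044,1), (1,1517), (6,569),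 (27,157), (1045,1), (3,911), (55,67), (201,7), (0,2279), (1046,1), (0,2281), (1047,1), (26,163), (50,83), (4,761), (6,571), (1,1523), (8,457), (5,653), (35,127), (15,269), (0,2287), (65,61), (1048,1), (21,199), (39,109), (17,241), (18,229), (7,509), (51,79), (22,191), (33,131), (0,2293), (31,139), (94,37), (11,353), (1049,1), (88,41), (1,1531), (0,2297), (3,919), (10,383), (1050,1), (53,73), (1051,1), (61,59), (2,1151), (13,307), (77,47), (15,271), (1052,1), (9,419), (8,461), (69,53), (2,1153), (5,659), (4,769), (62,71), (6,577), (1053,1), (0,2309), (28,149), (1054,1), (0,2311), (56,67), (1055,1), (99,37), (16,257), (5,661), (45,89), (1,1543), (8,463), (9,421), (22,193), (12,331), (41,103), (58,61), (4,773), (1056,1), (1057,1), (20,211), (84,43), (3,929), (40,101), (1,1549), (48,83), (1058,1), (2,1163), (73,47), (23,179), (1059,1), (42,97), (32,137), (1,1553), (18,233), (100,37), (70,53), (13,311),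 (0,2333), (11,359), (10,389), (1060,1), (8,467), (25,173), (57,73), (86,41), (1061,1), (26,167), (1,1559), (0,2339), (1062,1), (28,151), (0,2341), (19,223), (2,1171), (3,937), (59,71), (14,293), (7,521), (63,67), (122,23), (160,19), (0,2347), (13,313), (6,587), (60,61), (1063,1), (81,47), (1,1567), (0,2351), (1064,1), (3,941), (23,181), (7,523), (38,107), (15,277), (29,157)]

def us20 : List (ℕ × ℕ) := [(5,673), (147,19), (1,1571), (0,2357), (87,41), (35,131), (12,337), (1065,1), (67,59), (4,787), (2,1181), (1066,1), (32,139), (27,163), (22,197), (85,43), (49,83), (1067,1), (16,263), (3,947), (102,37), (1,1579), (40,103), (5,677), (54,79), (9,431), (0,2371), (109,31), (6,593), (62,73), (39,113), (2,1187), (1,1583), (1068,1), (1069,1), (44,97), (0,2377), (13,317), (89,41), (61,61), (1070,1), (123,23), (0,2381), (9,433), (10,397), (3,953), (0,2383), (19,227), (30,149), (17,251), (75,53), (11,367),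 (2,1193), (1,1591), (153,7), (24,191), (22,199), (15,281), (0,2389), (66,59), (18,239), (5,683), (4,797), (1071,1), (1072,1), (0,2393), (1073,1), (8,479), (1,1597), (6,599), (78,47), (33,137), (38,109), (90,41), (0,2399), (1074,1), (1075,1), (1,1601), (2,1201), (98,31), (46,89), (1076,1), (6,601), (19,229), (103,37), (15,283), (10,401), (51,83), (41,107), (88,43), (59,73), (18,241), (1,1607), (0,2411), (71,53), (64,67), (24,193), (34,127), (1,1609), (55,71), (9,439), (1077,1), (30,151), (25,179), (0,2417), (3,967), (116,31), (5,691), (0,2419), (1,1613), (1078,1), (16,269), (27,167), (26,173), (1079,1), (0,2423), (42,101), (11,373), (47,97), (1080,1), (2,1213), (21,211), (4,809), (3,971), (6,607), (1,1619), (12,347), (1081,1), (1082,1), (1,1621), (1083,1), (33,139), (4,811), (28,157), (2,1217), (7,541), (8,487), (1084,1), (9,443), (0,2437), (1085,1), (72,53), (16,271), (91,41), (67,61), (1,1627),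 (0,2441), (17,257), (101,37), (3,977), (12,349), (25,181), (82,47), (29,163), (2,1223), (19,233), (0,2447), (50,89), (1086,1), (52,79), (56,71), (1087,1), (151,13), (86,43), (6,613), (41,109), (20,223), (5,701), (10,409), (8,491), (1,1637), (14,307), (140,17), (1088,1), (3,983), (2,1229), (31,149), (0,2459), (93,41), (105,37), (40,107), (7,547), (2,1231), (24,197), (4,821), (11,379), (1089,1), (76,53), (112,29), (35,137), (0,2467), (83,47), (6,617), (4,823), (9,449), (1090,1), (66,61), (12,353), (42,103), (87,43)]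

def us21 : List (ℕ × ℕ) := [(0,2473), (43,97), (2,1237), (44,101), (1091,1), (6,619), (36,127), (0,2477), (3,991), (68,59), (0,2479), (134,29), (1092,1), (92,41), (4,827), (5,709), (55,73), (13,331), (23,191), (1093,1), (63,71), (1,1657), (38,113), (4,829), (24,199), (14,311), (53,79), (34,131), (11,383), (54,83), (15,293), (0,2491), (31,151), (48,89), (3,997), (16,277), (89,43), (1,1663), (8,499), (110,31), (1094,1), (20,227), (106,37), (2,1249), (17,263), (1095,1), (1096,1), (1,1667), (0,2501), (35,139), (1097,1), (0,2503), (1,1669), (14,313), (29,167), (26,179), (7,557), (40,109), (74,59), (1098,1), (27,173), (23,193), (19,239), (18,251), (117,31), (30,157), (65,67), (12,359), (9,457), (10,419), (8,503), (90,43), (95,37), (5,719), (4,839), (79,53), (2,1259), (56,73), (20,229), (1099,1), (0,2521), (1,1681), (45,97), (3,1009), (127,29), (44,103), (6,631), (1100,1), (47,101), (10,421), (28,163),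 (162,19), (13,337), (57,79), (11,389), (16,281), (1101,1), (19,241), (0,2531), (22,211), (3,1013), (32,149), (7,563), (26,181), (1102,1), (9,461), (14,317), (49,89), (0,2537), (1103,1), (84,47), (0,2539), (1,1693), (37,127), (1104,1), (1105,1), (94,41), (41,113), (0,2543), (80,53), (5,727), (8,509), (1,1697), (58,67), (9,463), (16,283), (3,1019), (1106,1), (1,1699), (0,2549), (1107,1), (0,2551), (1108,1), (141,29), (3,1021), (96,37), (2,1277), (36,131), (63,73), (17,269), (64,71), (0,2557), (168,5), (2,1279), (91,43), (4,853), (1109,1), (7,569), (23,197), (68,61), (99,41), (20,233), (1,1709), (6,641), (21,223), (1110,1), (5,733), (2,1283), (69,59), (32,151), (62,79), (42,107), (9,467), (12,367), (7,571), (18,257), (4,857), (6,643), (1111,1), (52,83), (1112,1), (17,271), (47,103), (43,101), (1113,1), (4,859), (3,1031), (2,1289), (25,191), (0,2579), (60,67), (93,43), (11,397), (51,89), (1,1721),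 (2,1291), (3,1033), (100,41), (1114,1), (1,1723), (85,47), (10,431), (5,739), (23,199), (1115,1), (6,647), (28,167), (4,863), (107,37), (31,157)]

def us22 : List (ℕ × ℕ) := [(0,2591), (1116,1), (74,61), (0,2593), (1117,1), (2,1297), (29,173), (27,179), (70,59), (7,577), (77,53), (3,1039), (10,433), (40,113), (1,1733), (1118,1), (5,743), (1119,1), (92,43), (2,1301), (13,347), (34,137), (118,31), (8,521), (25,193), (2,1303), (11,401), (59,79), (33,149), (30,163), (1,1739), (0,2609), (15,307), (1120,1), (21,227), (12,373), (1,1741), (6,653), (1121,1), (61,67), (2,1307), (53,83), (8,523), (42,109), (0,2617), (13,349), (1122,1), (46,97), (111,31), (37,131), (1,1747), (0,2621), (44,107), (1123,1), (3,1049), (0,2623), (73,53), (102,41), (27,181), (1124,1), (45,101), (43,103), (0,2627), (3,1051), (64,73), (5,751), (20,239), (1,1753), (18,263), (4,877), (17,277), (88,47), (1125,1), (0,2633), (21,229),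 (10,439), (9,479), (112,31), (19,251), (6,659), (16,293), (24,211), (2,1319), (1,1759), (1126,1), (1127,1), (34,139), (7,587), (2,1321), (33,151), (4,881), (15,311), (6,661), (1,1763), (156,23), (104,37), (1128,1), (0,2647), (13,353), (14,331), (4,883), (5,757), (81,53), (134,31), (20,241), (1129,1), (3,1061), (12,379), (69,61), (2,1327), (75,59), (57,83), (1130,1), (0,2657), (3,1063), (10,443), (11,409), (0,2659), (25,197), (1131,1), (15,313), (4,887), (1132,1), (65,71), (0,2663), (5,761), (108,37), (103,41), (1,1777), (94,43), (39,127), (50,97), (1133,1), (7,593), (32,157), (17,281), (54,89), (44,109), (0,2671), (36,137), (30,167), (3,1069), (1134,1), (26,191), (1,1783), (47,107), (22,223), (0,2677), (1135,1), (45,103), (9,487), (86,47), (21,233), (67,67), (1,1787), (12,383), (28,173), (35,149), (97,37), (0,2683), (1,1789), (70,61), (71,59), (29,179), (55,79), (25,199), (0,2687), (99,43), (1136,1),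 (17,283), (0,2689), (31,163), (18,269), (1137,1), (5,769), (6,673), (13,359), (0,2693), (10,449), (15,317), (1138,1), (7,599), (14,337), (1139,1), (62,83), (58,71), (19,257), (0,2699), (1140,1), (9,491), (0,2701), (1,1801), (26,193), (87,47), (78,53), (1141,1), (7,601), (8,541), (5,773), (101,41)]

def us23 : List (ℕ × ℕ) := [(0,2707), (208,5), (6,677), (100,43), (18,271), (36,139), (0,2711), (119,29), (42,113), (128,31), (0,2713), (66,67), (72,59), (29,181), (48,97), (1,1811), (1142,1), (3,1087), (35,151), (0,2719), (113,37), (1143,1), (4,907), (2,1361), (1144,1), (12,389), (11,419), (22,227), (47,109), (56,79), (89,47), (105,41), (46,101), (3,1091), (1145,1), (43,107), (0,2729), (1146,1), (0,2731), (7,607), (6,683), (3,1093), (4,911), (60,71), (2,1367), (1,1823), (8,547), (1147,1), (11,421), (139,23), (65,73), (2,1369), (59,83), (37,137), (1148,1), (0,2741), (10,457), (3,1097), (23,211), (76,59),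 (1149,1), (9,499), (75,61), (1150,1), (2,1373), (1,1831), (0,2747), (33,157), (22,229), (21,239), (0,2749), (90,47), (1151,1), (39,131), (102,43), (13,367), (0,2753), (1152,1), (5,787), (120,29), (31,167), (82,53), (4,919), (3,1103), (26,197), (7,613), (52,89), (1153,1), (20,251), (19,263), (2,1381), (1154,1), (16,307), (6,691), (49,97), (63,79), (10,461), (9,503), (0,2767), (106,41), (30,173), (44,113), (61,71), (27,191), (18,277), (1,1847), (32,163), (21,241), (1155,1), (3,1109), (0,2773), (1,1849), (58,73), (28,179), (114,37), (71,61), (14,347), (7,617), (0,2777), (50,101), (10,463), (12,397), (43,109), (37,139), (46,103), (45,107), (83,53), (1156,1), (17,293), (1157,1), (8,557), (7,619), (26,199), (4,929), (24,223), (95,41), (1158,1), (0,2789), (5,797), (1159,1), (0,2791), (1,1861), (14,349), (3,1117), (1160,1), (38,127), (1161,1), (103,43), (22,233), (91,47), (0,2797), (13,373), (2,1399),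 (27,193), (16,311), (9,509), (1162,1), (1,1867), (0,2801), (11,431), (10,467), (79,59), (0,2803), (53,89), (6,701), (1163,1), (28,181), (72,61), (1,1871), (12,401), (3,1123), (1164,1), (0,2809), (1,1873), (18,281), (60,73), (4,937), (115,37), (1165,1), (51,97), (15,331), (68,67), (11,433), (8,563), (1,1877), (1166,1), (16,313), (1167,1), (2,1409), (1,1879), (0,2819), (93,47), (129,31), (1168,1), (55,83), (3,1129), (4,941), (14,353), (19,269), (47,113)]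

def us24 : List (ℕ × ℕ) := [(35,157), (20,257), (1169,1), (48,101), (96,41), (18,283), (109,37), (34,149), (5,809), (80,59), (50,103), (0,2833), (1,1889), (45,109), (1170,1), (6,709), (76,61), (0,2837), (24,227), (101,43), (5,811), (32,167), (7,631), (67,71), (1171,1), (4,947), (1172,1), (13,379), (0,2843), (92,47), (64,79), (8,569), (19,271), (2,1423), (61,73), (74,67), (57,89), (25,211), (124,37), (1173,1), (0,2851), (1,1901), (147,23), (33,163), (16,317), (11,439), (2,1427), (31,173), (8,571), (1174,1), (27,197), (0,2857), (41,127), (2,1429), (4,953), (105,43), (1175,1), (1,1907), (0,2861), (84,53), (24,229), (12,409), (56,83), (30,179), (15,337), (29,191), (9,521), (2,1433), (1176,1), (0,2867), (98,37), (22,239), (34,151), (1,1913), (107,41), (137,29), (14,359), (13,383), (1177,1), (5,821), (10,479), (1178,1), (66,71), (6,719), (9,523), (39,137), (3,1151), (2,1439), (49,101), (0,2879), (11,443),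 (1179,1), (5,823), (0,2881), (43,113), (38,131), (3,1153), (131,31), (48,103), (7,641), (8,577), (27,199), (116,37), (21,251), (0,2887), (1180,1), (210,4), (46,107), (1181,1), (1,1927), (77,59), (22,241), (62,89), (20,263), (7,643), (2,1447), (5,827), (29,193), (30,181), (1,1931), (0,2897), (79,61), (1182,1), (119,31), (23,223), (1,1933), (1183,1), (4,967), (5,829), (2,1451), (106,43), (0,2903), (1184,1), (63,83), (36,149), (2,1453), (1185,1), (3,1163), (6,727), (19,277), (0,2909), (161,23), (54,97), (0,2911), (7,647), (1186,1), (24,233), (4,971), (94,47), (69,67), (85,53), (1187,1), (1188,1), (17,307), (0,2917), (13,389), (2,1459), (11,449), (39,139), (67,73), (73,59), (40,127), (10,487), (33,167), (0,2923), (1,1949), (95,43), (1189,1), (1190,1), (1,1951), (0,2927), (3,1171), (80,61), (51,101), (132,31), (18,293), (4,977), (104,41), (6,733), (166,17), (12,419), (35,163), (8,587), (49,103), (14,367),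 (5,839), (59,89), (99,47), (45,113), (7,653), (0,2939), (1191,1), (32,173), (1,1961), (2,1471), (50,107), (46,109), (121,29), (1192,1), (36,151)]

def us25 : List (ℕ × ℕ) := [(149,19), (10,491), (12,421), (41,131), (70,67), (4,983), (15,347), (81,59), (19,281), (23,227), (108,41), (3,1181), (0,2953), (31,179), (26,211), (17,311), (29,197), (21,257), (6,739), (66,73), (0,2957), (1193,1), (122,29), (20,269), (1,1973), (125,37), (28,191), (100,47), (2,1481), (65,79), (0,2963), (1194,1), (1195,1), (8,593), (7,659), (2,1483), (15,349), (96,43), (3,1187), (88,53), (1,1979), (0,2969), (1196,1), (11,457), (0,2971), (19,283), (6,743), (97,41), (4,991), (17,313), (2,1487), (7,661), (1197,1), (9,541), (1198,1), (23,229), (13,397), (2,1489), (110,37), (16,331), (37,149), (1,1987), (20,271), (68,71), (3,1193), (34,157), (1199,1), (14,373), (29,199), (5,853), (2,1493), (31,181), (51,103), (24,239), (64,83),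 (77,61), (1,1993), (1200,1), (4,997), (28,193), (1201,1), (1202,1), (0,2993), (10,499), (8,599), (1,1997), (48,107), (11,461), (117,37), (50,109), (2,1499), (1,1999), (0,2999), (5,857), (1203,1), (15,353), (1204,1), (58,79), (3,1201), (1205,1), (6,751), (1,2003), (8,601), (35,167), (5,859), (52,97), (13,401), (102,47), (9,547), (78,59), (11,463), (107,43), (25,223), (17,317), (22,251), (24,241), (40,131), (113,41), (38,137), (75,67), (1206,1), (1,2011), (12,431), (74,71), (10,503), (73,61), (37,151), (5,863), (86,53), (2,1511), (152,13), (1207,1), (21,263), (1208,1), (1,2017), (55,89), (4,1009), (33,173), (6,757), (7,673), (23,233), (54,101), (133,29), (12,433), (1,2021), (14,379), (3,1213), (16,337), (2,1517), (1209,1), (8,607), (11,467), (1210,1), (1211,1), (136,31), (4,1013), (1212,1), (1,2027), (60,79), (1213,1), (3,1217), (32,179), (1,2029), (6,761), (1214,1), (2,1523), (7,677), (20,277),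 (87,53), (42,127), (71,67), (49,107), (81,61), (46,113), (15,359), (48,109), (126,37), (28,197), (10,509), (103,47), (53,97), (30,191), (4,1019), (3,1223), (38,139), (1,2039), (1215,1), (27,211), (1216,1), (36,157), (2,1531), (1217,1), (4,1021), (9,557), (14,383), (25,227), (8,613), (68,73), (13,409), (82,59)]

def us26 : List (ℕ × ℕ) := [(1218,1), (1219,1), (5,877), (18,307), (56,89), (1220,1), (3,1229), (12,439), (7,683), (89,53), (104,43), (114,41), (6,769), (19,293), (32,181), (3,1231), (1221,1), (1,2053), (1222,1), (61,79), (72,67), (41,137), (5,881), (22,257), (28,199), (8,617), (1223,1), (2,1543), (1224,1), (1225,1), (30,193), (69,71), (54,103), (5,883), (20,281), (25,229), (6,773), (3,1237), (4,1031), (21,269), (1226,1), (1,2063), (8,619), (108,43), (9,563), (34,163), (83,59), (2,1549), (4,1033), (1227,1), (90,53), (12,443), (101,47), (74,73), (51,107), (1,2069), (57,97), (5,887), (1228,1),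 (2,1553), (49,109), (23,239), (50,113), (118,37), (7,691), (18,311), (78,61), (44,127), (14,389), (65,83), (20,283), (11,479), (35,173), (63,89), (76,67), (115,41), (21,271), (4,1039), (97,43), (2,1559), (1229,1), (15,367), (1230,1), (1,2081), (26,223), (3,1249), (16,347), (70,71), (1,2083), (1231,1), (105,47), (10,521), (111,37), (41,139), (148,23), (39,149), (9,569), (18,313), (1,2087), (52,101), (1232,1), (33,179), (23,241), (1,2089), (2,1567), (1233,1), (1234,1), (109,41), (24,251), (10,523), (1235,1), (37,157), (9,571), (16,349), (2,1571), (13,419), (12,449), (42,131), (17,331), (112,37), (25,233), (1236,1), (1237,1), (4,1049), (3,1259), (6,787), (1,2099), (1238,1), (40,137), (31,191), (30,197), (62,97), (4,1051), (91,53), (58,83), (7,701), (8,631), (22,263), (124,41), (13,421), (2,1579), (1239,1), (67,79), (113,43), (51,109), (122,31), (1240,1), (134,37), (48,113), (29,211), (11,487), (2,1583),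 (1,2111), (33,181), (1241,1), (1,2113), (18,317), (15,373), (39,151), (82,61), (106,47), (34,167), (9,577), (164,23), (5,907), (47,127), (69,73), (14,397), (16,353), (98,41), (26,227), (36,163), (199,11), (93,53), (53,101), (2,1591), (79,67), (4,1061), (30,199), (31,193), (1242,1), (21,277), (84,59), (1243,1), (6,797), (5,911), (4,1063), (155,29), (7,709), (11,491), (1244,1), (3,1277), (52,103), (1,2129), (2,1597), (75,71), (60,83), (95,47), (1,2131), (40,139)]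

def us27 : List (ℕ × ℕ) := [(3,1279), (116,41), (12,457), (66,79), (1245,1), (59,97), (17,337), (2,1601), (83,61), (64,89), (169,29), (8,641), (1,2137), (26,229), (92,53), (4,1069), (3,1283), (14,401), (123,31), (44,131), (54,107), (188,19), (1,2141), (70,73), (24,257), (1246,1), (2,1607), (1,2143), (8,643), (80,67), (5,919), (1247,1), (2,1609), (127,37), (1248,1), (49,113), (15,379), (35,179), (3,1289), (20,293), (19,307), (138,31), (114,43), (2,1613), (25,239), (12,461), (3,1291), (22,269), (9,587), (1,2153), (1249,1), (71,71), (16,359), (21,281), (57,101), (13,431), (27,223), (1250,1), (8,647), (7,719), (6,809), (61,83), (128,37), (2,1619), (43,127), (133,31), (1251,1), (12,463), (1,2161), (2,1621), (3,1297), (96,47), (11,499), (6,811), (53,103), (85,59), (10,541), (32,191), (13,433), (1252,1), (1253,1), (1254,1), (31,197), (5,929), (22,271), (3,1301), (25,241), (2,1627), (21,283), (1255,1),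 (15,383), (141,37), (36,167), (3,1303), (35,181), (1256,1), (1,2173), (37,163), (4,1087), (9,593), (26,233), (1257,1), (23,251), (1258,1), (8,653), (19,311), (72,71), (1259,1), (3,1307), (115,43), (1,2179), (12,467), (11,503), (54,109), (28,211), (7,727), (14,409), (1260,1), (4,1091), (2,1637), (1,2183), (47,131), (1261,1), (51,113), (1262,1), (38,149), (4,1093), (5,937), (125,41), (1263,1), (32,193), (10,547), (62,101), (77,67), (31,199), (6,821), (75,73), (94,53), (19,313), (34,173), (24,263), (42,137), (1264,1), (109,43), (107,47), (4,1097), (27,227), (6,823), (13,439), (5,941), (84,61), (9,599), (8,659), (1265,1), (57,103), (17,347), (39,157), (3,1319), (55,97), (7,733), (1266,1), (110,41), (76,71), (45,127), (3,1321), (16,367), (88,59), (1,2203), (8,661), (9,601), (146,29), (15,389), (1267,1), (6,827), (11,509), (4,1103), (18,331), (1,2207), (124,43), (1268,1), (99,53), (1,2209), (2,1657),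 (5,947), (1269,1), (17,349), (6,829), (73,67), (52,107), (3,1327), (68,79), (1,2213), (67,83), (27,229), (117,41), (71,73), (38,151), (13,443), (140,23), (22,277)]

def us28 : List (ℕ × ℕ) := [(1270,1), (7,739), (2,1663), (4,1109), (1271,1), (1272,1), (19,317), (135,37), (1,2221), (1273,1), (98,43), (59,101), (2,1667), (1274,1), (1275,1), (5,953), (42,139), (65,89), (2,1669), (9,607), (100,53), (37,167), (43,131), (23,257), (10,557), (33,191), (7,743), (1276,1), (29,223), (26,239), (56,97), (62,103), (145,31), (32,197), (157,29), (81,67), (4,1117), (14,419), (41,149), (12,479), (17,353), (116,43), (85,61), (1,2237), (6,839), (44,137), (16,373), (74,79), (72,73), (1,2239), (1277,1), (104,47), (66,83), (2,1681), (24,269), (86,59), (28,217), (158,29), (1,2243), (8,673), (1278,1), (129,37), (13,449), (14,421), (4,1123), (21,293), (18,337), (53,107), (9,613), (22,281), (79,71), (36,173), (26,241),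 (15,397), (1279,1), (30,211), (20,307), (33,193), (10,563), (27,233), (52,109), (7,751), (1280,1), (1281,1), (58,89), (126,41), (32,199), (108,47), (5,967), (8,677), (2,1693), (11,521), (4,1129), (24,271), (1282,1), (25,251), (54,113), (1283,1), (102,53), (87,59), (1284,1), (9,617), (2,1697), (76,73), (63,97), (22,283), (41,151), (2,1699), (5,971), (59,103), (11,523), (1285,1), (34,179), (1286,1), (3,1361), (130,37), (9,619), (29,227), (44,139), (45,131), (7,757), (97,47), (80,71), (15,401), (12,487), (1287,1), (17,359), (16,379), (6,853), (1288,1), (10,569), (8,683), (1289,1), (88,61), (78,67), (3,1367), (2,1709), (23,263), (5,977), (1290,1), (20,311), (89,59), (3,1369), (39,163), (57,107), (7,761), (47,137), (169,31), (10,571), (60,89), (40,149), (13,457), (6,857), (46,127), (150,19), (1291,1), (1292,1), (3,1373), (53,109), (55,101), (29,229), (6,859), (69,79), (12,491), (1293,1), (35,191),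 (184,23), (34,181), (125,43), (5,983), (131,37), (2,1721), (1294,1), (20,313), (118,41), (103,53), (2,1723), (16,383), (33,197), (14,431), (1295,1), (1296,1), (139,29), (90,59), (6,863), (3,1381), (4,1151), (38,157), (113,47), (8,691), (1297,1), (28,223), (13,461), (1298,1), (4,1153), (119,37), (37,173), (7,769), (110,43), (10,577)]

def us29 : List (ℕ × ℕ) := [(24,277), (14,433), (111,41), (1299,1), (27,239), (2,1733), (79,73), (1300,1), (5,991), (25,257), (18,347), (9,631), (61,89), (207,7), (13,463), (40,151), (35,193), (47,139), (19,331), (70,79), (15,409), (86,61), (62,107), (2,1739), (7,773), (77,71), (1301,1), (31,211), (2,1741), (33,199), (117,43), (82,67), (56,101), (112,41), (68,83), (17,367), (20,317), (1302,1), (57,109), (4,1163), (5,997), (18,349), (36,179), (64,97), (50,127), (12,499), (43,137), (2,1747), (27,241), (29,233), (1303,1), (132,37), (23,269), (3,1399), (101,53), (1304,1),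 (16,389), (55,103), (13,467), (52,113), (1305,1), (80,73), (8,701), (134,41), (2,1753), (39,167), (87,61), (6,877), (172,29), (1306,1), (91,59), (14,439), (24,281), (4,1171), (26,251), (73,71), (120,37), (22,293), (11,541), (83,67), (2,1759), (28,227), (194,17), (1307,1), (12,503), (10,587), (3,1409), (23,271), (1308,1), (6,881), (105,53), (114,47), (9,641), (2,1763), (74,83), (1309,1), (36,181), (18,353), (21,307), (59,107), (5,1009), (6,883), (41,157), (146,31), (63,101), (1310,1), (9,643), (46,131), (24,283), (89,61), (19,337), (93,59), (7,787), (1311,1), (62,109), (4,1181), (17,373), (14,443), (43,139), (8,709), (5,1013), (35,197), (126,43), (6,887), (1312,1), (28,229), (81,71), (25,263), (142,37), (1313,1), (1314,1), (56,103), (2,1777), (75,79), (11,547), (48,127), (3,1423), (10,593), (9,647), (53,113), (67,89), (4,1187), (15,419), (45,137), (1315,1), (12,509), (1316,1), (149,23), (2,1783),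 (5,1019), (127,41), (3,1427), (30,223), (90,61), (92,59), (1317,1), (115,47), (3,1429), (16,397), (5,1021), (2,1787), (1318,1), (42,149), (21,311), (77,73), (106,53), (2,1789), (15,421), (4,1193), (37,179), (168,7), (151,19), (35,199), (3,1433), (1319,1), (29,239), (38,163), (7,797), (32,211), (128,41), (1320,1), (18,359), (1321,1), (9,653), (14,449), (13,479), (10,599), (71,79), (8,719), (109,47), (1322,1), (59,109), (3,1439), (26,257), (21,313), (1323,1), (17,379), (23,277), (1324,1), (50,131)]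

def us30 : List (ℕ × ℕ) := [(4,1201), (95,53), (66,89), (63,103), (10,601), (143,37), (141,41), (5,1031), (16,401), (192,19), (69,83), (40,157), (28,233), (118,43), (211,5), (73,73), (45,139), (29,241), (5,1033), (57,113), (3,1447), (84,67), (124,47), (49,127), (37,181), (11,557), (78,71), (1325,1), (42,151), (9,659), (1326,5), (136,37), (159,31), (3,1451), (6,907), (34,191), (91,61), (1327,1), (25,269), (30,227), (3,1453), (39,173), (111,43), (72,79), (8,727), (9,661), (64,101), (5,1039), (65,97), (55,107), (17,383), (4,1213), (27,251), (1328,1), (7,809), (20,331), (10,607), (98,47), (19,347), (6,911), (1329,1), (21,317), (1330,1), (12,521), (3,1459), (1331,1), (7,811), (81,73), (44,149), (4,1217), (70,83), (13,487), (23,281), (1332,1), (112,43), (14,457), (96,53), (1333,1), (94,59), (25,271), (11,563), (93,61), (12,523), (24,293), (137,37), (15,431), (30,229), (19,349), (8,733), (116,47), (34,193),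 (41,163), (48,131), (202,11), (4,1223), (18,367), (5,1049), (1334,1), (62,113), (76,79), (38,167), (1335,1), (6,919), (134,43), (3,1471), (10,613), (5,1051), (23,283), (31,223), (1336,1), (15,433), (16,409), (26,263), (13,491), (51,127), (22,307), (85,67), (1337,1), (58,97), (4,1229), (99,59), (14,461), (139,31), (135,41), (92,61), (56,107), (82,71), (33,211), (4,1231), (7,821), (8,739), (17,389), (1338,1), (176,29), (11,569), (46,137), (44,151), (144,37), (9,673), (10,617), (3,1481), (187,23), (7,823), (14,463), (28,239), (1339,1), (55,109), (19,353), (20,337), (3,1483), (64,103), (107,53), (4,1237), (11,571), (177,29), (1340,1), (5,1061), (10,619), (1341,1), (8,743), (6,929), (100,59), (3,1487), (1342,1), (1343,1), (5,1063), (7,827), (3,1489), (78,73), (9,677), (1344,1), (36,191), (47,149), (1345,1), (27,257), (83,71), (30,233), (59,113), (18,373), (7,829), (129,41), (15,439), (22,311), (3,1493),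 (49,131), (60,97), (75,83), (28,241), (14,467), (1346,1), (68,89), (25,277), (1347,1), (127,43), (5,1069), (13,499), (34,197), (1348,1), (63,107), (31,227)]

def us31 : List (ℕ × ℕ) := [(4,1249), (3,1499), (6,937), (1349,1), (40,163), (1350,1), (11,577), (153,11), (88,67), (79,79), (46,139), (8,751), (121,37), (22,313), (9,683), (1351,1), (41,167), (39,179), (125,47), (56,109), (1352,1), (128,43), (36,193), (6,941), (29,251), (15,443), (26,269), (173,31), (50,137), (42,157), (19,359), (1353,1), (16,419), (17,397), (130,41), (13,503), (1354,1), (122,37), (47,151), (7,839), (102,59), (71,83), (4,1259), (31,229), (1355,1), (34,199), (94,61), (74,89), (61,97), (110,47), (141,43), (1356,29), (8,757), (10,631), (12,541), (65,101), (6,947), (16,421), (104,53), (18,379), (193,19), (32,223), (80,79), (25,281), (26,271), (1357,1), (82,73), (174,31), (35,211), (51,131), (43,149), (1358,1), (9,691), (39,181),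 (1359,1), (22,317), (5,1087), (8,761), (38,173), (21,331), (117,47), (1360,1), (23,293), (17,401), (54,127), (1361,1), (6,953), (99,61), (131,41), (27,263), (63,109), (11,587), (108,53), (15,449), (20,347), (13,509), (72,83), (5,1091), (86,67), (37,191), (25,283), (1362,1), (50,139), (30,239), (1363,1), (5,1093), (179,29), (160,31), (12,547), (123,37), (18,383), (4,1277), (14,479), (83,73), (119,41), (84,71), (103,59), (48,137), (4,1279), (24,307), (58,101), (7,853), (20,349), (5,1097), (1364,1), (40,167), (36,197), (55,113), (97,53), (100,61), (147,31), (31,233), (8,769), (10,641), (44,157), (1365,1), (138,37), (4,1283), (1366,1), (43,151), (64,107), (87,67), (19,367), (11,593), (29,257), (9,701), (30,241), (7,857), (167,19), (10,643), (32,227), (76,83), (37,193), (5,1103), (1367,1), (65,103), (1368,1), (8,773), (7,859), (133,37), (1369,1), (6,967), (135,43), (77,79), (69,89), (1370,1), (45,149),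 (132,41), (212,5), (21,337), (1371,1), (126,47), (26,277), (16,431), (67,97), (36,199), (5,1109), (10,647), (20,353), (7,863), (6,971), (15,457), (154,37), (17,409), (89,67), (200,13), (24,311), (1372,1), (60,101), (18,389), (28,251), (48,139), (41,173), (32,229), (11,599), (101,59), (120,41), (113,53), (14,487), (16,433)]

def us32 : List (ℕ × ℕ) := [(56,113), (12,557), (9,709), (1373,1), (27,269), (1374,1), (33,223), (102,61), (49,137), (85,71), (175,31), (11,601), (13,521), (6,977), (5,1117), (189,23), (73,79), (42,163), (24,313), (129,43), (58,103), (1375,1), (70,89), (19,373), (10,653), (15,461), (90,67), (1376,1), (161,31), (13,523), (105,59), (64,109), (47,157), (45,151), (1377,1), (14,491), (66,97), (27,271), (54,131), (5,1123), (6,983), (1378,1), (1379,1), (26,281), (8,787), (15,463), (142,41), (52,127), (1380,1), (38,179), (61,101), (37,197), (12,563), (84,73), (79,83), (31,239), (148,29),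 (209,7), (29,263), (11,607), (7,877), (118,47), (20,359), (81,79), (16,439), (1381,1), (152,17), (10,659), (9,719), (63,113), (25,293), (130,43), (1382,1), (1383,1), (32,233), (49,139), (26,283), (24,317), (6,991), (7,881), (103,61), (60,103), (10,661), (166,23), (1384,1), (1385,1), (15,467), (18,397), (195,19), (111,47), (22,331), (33,227), (51,137), (7,883), (114,53), (88,71), (31,241), (1386,1), (40,173), (19,379), (37,199), (17,419), (38,181), (106,59), (12,569), (28,257), (80,83), (11,613), (8,797), (91,67), (16,443), (163,29), (6,997), (1387,1), (21,347), (23,307), (7,887), (14,499), (1388,1), (44,163), (112,47), (145,37), (12,571), (143,41), (9,727), (131,43), (17,421), (1389,1), (53,127), (1390,1), (43,157), (1391,1), (75,89), (33,229), (42,167), (34,211), (1392,1), (18,401), (11,617), (39,191), (95,59), (65,107), (21,349), (35,223), (28,259), (85,73), (30,251), (27,277), (61,103), (136,41),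 (134,47), (93,67), (119,43), (19,383), (46,149), (11,619), (14,503), (1393,1), (101,61), (41,179), (115,53), (78,79), (178,31), (51,139), (9,733), (1394,1), (29,269), (1395,1), (20,367), (1396,1), (10,673), (12,577), (67,101), (16,449), (1397,1), (23,311), (22,337), (8,809), (1398,1), (1399,1), (86,71), (1400,1), (71,89), (1401,1), (39,193), (92,67), (109,53), (8,811), (1402,1), (105,61), (13,541), (137,41), (21,353), (1403,1), (52,131), (10,677), (1404,1), (32,239), (132,43), (57,127)]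

def us33 : List (ℕ × ℕ) := [(9,739), (29,271), (58,107), (77,83), (64,113), (23,313), (155,37), (96,59), (15,479), (14,509), (41,181), (68,97), (27,281), (47,163), (1405,1), (28,263), (46,151), (33,233), (1406,1), (124,53), (45,157), (87,71), (19,389), (120,43), (35,227), (9,743), (65,109), (88,73), (169,37), (127,47), (18,409), (66,101), (44,167), (1407,1), (72,89), (17,431), (1408,1), (1409,1), (32,241), (50,149), (10,683), (144,41), (11,631), (26,293), (13,547), (20,373), (27,283), (1410,1), (190,23), (98,53), (82,79), (73,83), (12,587), (54,137), (30,257), (128,47), (16,457), (17,433), (1411,1), (36,211), (1412,1), (40,179), (106,61), (89,71), (60,107), (67,103), (23,317), (35,229), (74,97), (162,31), (1413,1), (53,131), (62,127), (142,43), (21,359), (107,59), (1414,1), (196,19), (116,53), (141,47), (39,197), (24,331), (76,89), (15,487), (1415,1), (1416,1), (31,251), (58,109), (170,37), (25,307),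 (10,691), (165,29), (83,79), (95,61), (16,461), (81,83), (12,593), (197,19), (42,173), (50,151), (90,71), (94,67), (29,277), (43,163), (1417,1), (1418,1), (86,73), (121,41), (1419,37), (40,181), (22,347), (1420,1), (11,641), (16,463), (14,521), (19,397), (20,379), (28,269), (54,139), (17,439), (66,103), (48,149), (61,107), (15,491), (1421,1), (47,167), (1422,1), (13,557), (39,199), (1423,1), (122,41), (33,239), (14,523), (1424,1), (1425,1), (99,67), (22,349), (1426,1), (18,419), (140,29), (59,127), (57,131), (143,43), (12,599), (35,233), (60,109), (87,73), (25,311), (1427,1), (1428,1), (28,271), (38,191), (16,467), (182,29), (1429,1), (30,263), (17,443), (96,61), (18,421), (19,401), (1430,1), (24,337), (20,383), (136,43), (29,281), (148,31), (33,241), (146,37), (104,59), (69,97), (37,211), (21,367), (100,67), (1431,1), (91,71), (1432,1), (25,313), (79,89), (48,151), (135,47), (180,31), (191,23),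 (78,83), (89,73), (1433,1), (22,353), (34,223), (65,113), (45,163), (44,173), (46,157), (125,53), (31,257), (15,499), (68,101), (123,41), (29,283), (38,193), (49,149), (52,137)]

def us34 : List (ℕ × ℕ) := [(108,59), (27,293), (1434,1), (61,109), (1435,1), (156,37), (1436,1), (137,43), (62,131), (43,167), (93,71), (163,31), (1437,1), (138,41), (17,449), (84,79), (110,53), (32,251), (70,97), (107,61), (90,73), (80,89), (157,37), (1438,1), (129,47), (97,59), (164,31), (20,389), (25,317), (67,107), (1439,1), (133,41), (1440,1), (102,67), (21,373), (1441,1), (158,37), (74,101), (117,53), (28,277), (58,113), (92,71), (42,179), (41,191), (26,307), (144,43), (1442,1), (35,239), (23,331), (49,151), (30,269), (154,41), (183,29), (22,359), (52,139), (1443,1), (1444,1), (1445,1), (34,227), (53,137), (82,83), (50,157), (55,127), (1446,1), (51,149), (1447,1), (59,131), (130,47), (181,31), (47,173), (68,103),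 (159,37), (1448,1), (66,107), (38,197), (1449,1), (1450,1), (30,271), (113,59), (35,241), (31,263), (1451,1), (45,167), (41,193), (91,73), (42,181), (85,79), (1452,1), (36,223), (1453,1), (60,113), (34,229), (1454,1), (103,67), (1455,1), (83,83), (67,109), (1456,1), (77,89), (104,61), (121,43), (75,97), (1457,1), (1458,1), (131,47), (126,53), (1459,1), (1460,1), (74,103), (38,199), (53,139), (51,151), (93,73), (56,127), (57,137), (44,179), (122,43), (1461,1), (1462,1), (108,61), (40,191), (69,101), (1463,1), (119,47), (48,157), (1464,1), (46,163), (94,71), (139,37), (73,89), (61,113), (185,29), (1465,1), (71,97), (66,109), (1466,1), (92,73), (152,19), (1467,1), (101,67), (97,61), (88,79), (114,59), (1468,1), (145,41), (165,31), (186,29), (99,71), (171,37), (132,47), (70,101), (1469,1), (81,89), (123,43), (118,53), (1470,1), (105,67), (1471,1), (1472,1), (1473,1), (120,47), (206,11), (138,43),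 (1474,1), (1475,1), (1476,1)]

/-- uses of the table -/
def us : List (ℕ × ℕ) := us0 ++ us1 ++ us2 ++ us3 ++ us4 ++ us5 ++ us6 ++ us7 ++ us8 ++ us9 ++ us10 ++ us11 ++ us12 ++ us13 ++ us14 ++ us15 ++ us16 ++ us17 ++ us18 ++ us19 ++ us20 ++ us21 ++ us22 ++ us23 ++ us24 ++ us25 ++ us26 ++ us27 ++ us28 ++ us29 ++ us30 ++ us31 ++ us32 ++ us33 ++ us34

def sv0 : List ℕ := [31, 32, 33, 34, 35, 37, 39, 40, 43, 45, 47, 49, 53, 57, 58, 61, 66, 71, 72, 78, 79, 80, 81, 84, 86, 96, 97, 98, 102, 103, 105, 106, 108, 121, 122, 126, 127, 128, 133, 135, 140, 147, 148, 152, 153, 161, 162, 163, 164, 172, 178, 179, 180, 181, 182, 194, 197, 199, 200, 202, 203, 205, 223, 224, 226, 227, 234, 239, 240, 241, 243, 248, 251, 256, 259, 268, 270, 271, 278, 279, 281, 282, 283, 298, 300, 308, 311, 312, 314, 315, 316, 318, 337, 344, 345, 346, 347, 350, 351, 352, 353, 354, 355, 376, 378, 380, 384, 387, 388, 395, 400, 401, 402,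 419, 421, 422, 426, 427, 436, 444, 445, 450, 452, 460, 462, 463, 465, 466, 467, 468, 482, 487, 488, 490, 491, 494, 500, 508, 514, 515, 517, 518, 523, 524, 532, 548, 550, 552, 556, 564, 567, 568, 569, 570, 571, 580, 581, 594, 602, 603, 604, 616, 617, 618, 619, 622, 623, 626, 627, 643, 644, 651, 661, 663, 664, 665, 666, 677, 678, 690, 694, 701, 705, 707, 711, 715, 716, 731, 732, 735, 736, 737, 738, 739, 745, 748, 754, 760, 770, 774]

def sv1 : List ℕ := [775, 778, 779, 801, 805, 809, 811, 812, 823, 824, 826, 827, 828, 830, 842, 848, 850, 853, 855, 856, 857, 858, 868, 881, 882, 883, 884, 886, 887, 888, 922, 923, 927, 930, 936, 938, 940, 941, 942, 943, 944, 955, 972, 976, 977, 978, 980, 987, 989, 997, 1000, 1001, 1002, 1004, 1020, 1024, 1025, 1026, 1027, 1039, 1045, 1050, 1051, 1052, 1063, 1064, 1065, 1066, 1067, 1069, 1094, 1095, 1097, 1098, 1108, 1110, 1111, 1123, 1130, 1131, 1132, 1135, 1156, 1157,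 1165, 1169, 1179, 1182, 1183, 1184, 1189, 1193, 1195, 1201, 1204, 1205, 1216, 1218, 1219, 1222, 1223, 1224, 1234, 1239, 1240, 1243, 1260, 1280, 1281, 1282, 1283, 1285, 1287, 1290, 1291, 1300, 1301, 1304, 1305, 1306, 1307, 1308, 1312, 1314, 1324, 1326, 1327, 1333, 1335, 1375, 1378, 1381, 1382, 1384, 1388, 1411, 1417, 1418, 1421, 1422, 1429, 1430, 1431, 1432, 1433, 1434, 1435, 1454, 1455, 1457, 1458, 1459, 1464, 1465, 1467, 1468, 1492, 1499, 1500, 1501, 1502, 1503, 1506, 1515, 1518, 1530, 1531, 1554, 1560, 1568, 1570, 1571, 1572, 1575, 1576, 1577, 1578, 1579, 1588, 1592, 1601, 1607, 1608, 1612, 1614, 1615, 1622, 1624, 1625, 1626, 1627, 1645, 1648, 1650, 1667, 1668, 1669, 1670, 1672, 1682]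

def sv2 : List ℕ := [1683, 1699, 1702, 1703, 1704, 1706, 1711, 1719, 1723, 1724, 1738, 1741, 1744, 1751, 1752, 1755, 1756, 1769, 1782, 1785, 1786, 1788, 1790, 1791, 1792, 1812, 1815, 1816, 1819, 1820, 1827, 1838, 1841, 1849, 1863, 1864, 1865, 1874, 1875, 1876, 1877, 1878, 1879, 1883, 1885, 1887, 1888, 1909, 1911, 1912, 1935, 1936, 1938, 1944, 1947, 1961, 1963, 1975, 1979, 1981, 1991, 1992, 1998, 1999, 2000, 2001, 2002, 2003, 2005, 2008, 2010, 2012, 2028, 2029, 2030, 2033, 2034, 2053, 2057, 2067, 2068, 2069, 2070, 2071, 2077, 2089, 2101, 2102, 2105, 2108, 2110, 2112, 2114, 2117, 2118, 2119, 2120, 2135, 2136, 2137, 2139, 2140, 2141, 2143, 2144, 2145, 2146, 2147, 2188, 2190, 2211, 2214, 2223, 2224, 2225, 2237, 2238, 2239, 2243, 2244, 2245, 2248, 2249, 2259, 2265, 2275, 2281, 2284, 2295, 2297, 2298, 2311, 2312, 2317, 2323, 2327, 2328, 2335, 2338, 2339, 2340, 2341, 2344, 2345, 2346, 2352, 2354, 2357,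 2377, 2379, 2380, 2381, 2383, 2384, 2390, 2392, 2408, 2411, 2426, 2434, 2435, 2437, 2439, 2446, 2449, 2467, 2468, 2473, 2475, 2476, 2479, 2483, 2484, 2486, 2498, 2503, 2506, 2507, 2508, 2539, 2544, 2545, 2547, 2548, 2551, 2552, 2554, 2555, 2557, 2564, 2583, 2584, 2588, 2596, 2597, 2598, 2599, 2609, 2610, 2619]

def sv3 : List ℕ := [2620, 2621, 2622, 2623, 2624, 2625, 2659, 2660, 2664, 2666, 2667, 2669, 2674, 2676, 2677, 2679, 2681, 2703, 2707, 2708, 2715, 2716, 2717, 2718, 2727, 2730, 2731, 2741, 2748, 2749, 2750, 2752, 2753, 2777, 2778, 2785, 2791, 2792, 2793, 2799, 2804, 2810, 2815, 2817, 2827, 2838, 2839, 2847, 2848, 2850, 2853, 2854, 2857, 2858, 2860, 2861, 2862, 2863, 2875, 2883, 2885, 2893, 2894, 2907, 2908, 2911, 2912, 2914, 2917, 2918, 2921, 2958, 2959, 2964, 2965, 2967, 2968, 2969, 2970, 2972, 2975, 2976, 2978, 2983, 2985, 2987, 2988, 3012, 3014, 3026, 3030, 3043, 3044, 3048, 3049, 3051,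 3052, 3053, 3054, 3055, 3083, 3088, 3089, 3104, 3105, 3106, 3107, 3112, 3114, 3121, 3122, 3124, 3126, 3127, 3148, 3152, 3154, 3163, 3164, 3185, 3186, 3192, 3193, 3194, 3195, 3197, 3198, 3201, 3202, 3203, 3218, 3221, 3222, 3223, 3224, 3225, 3229, 3230, 3232, 3234, 3235, 3247, 3248, 3259, 3260, 3264, 3268, 3269, 3302, 3303, 3308, 3319, 3321, 3322, 3323, 3324, 3325, 3332, 3335, 3336, 3339, 3340, 3342, 3346, 3347, 3348, 3349, 3390, 3392, 3393, 3394, 3395, 3396, 3398, 3399, 3401, 3402, 3433, 3434, 3448, 3461, 3462, 3464, 3467, 3468, 3470, 3471, 3472, 3477, 3479, 3480, 3481, 3485, 3486, 3487, 3504, 3505, 3508, 3521, 3530]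

def sv4 : List ℕ := [3531, 3538, 3539, 3540, 3541, 3542, 3545, 3548, 3553, 3555, 3556, 3570, 3583, 3584, 3586, 3587, 3588, 3589, 3612, 3614, 3615, 3616, 3617, 3624, 3625, 3626, 3627, 3633, 3634, 3657, 3665, 3668, 3680, 3685, 3689, 3697, 3698, 3699, 3700, 3701, 3702, 3703, 3704, 3706, 3721, 3722, 3723, 3726, 3727, 3729, 3743, 3755, 3757, 3769, 3771, 3772, 3776, 3779, 3780, 3782, 3783, 3799, 3802, 3807, 3808, 3809, 3821, 3822, 3834, 3847, 3853, 3854, 3855, 3856, 3858, 3865, 3870, 3871, 3872, 3880, 3883, 3884, 3906, 3913, 3915, 3916, 3919, 3920, 3924, 3925, 3927, 3932, 3938, 3939, 3941, 3946, 3947, 3951, 3975, 3976, 3977, 3979, 3980, 4003, 4004, 4005, 4006, 4007, 4008, 4009, 4018, 4023, 4024, 4025, 4026, 4027, 4031, 4033, 4052, 4060, 4062, 4063, 4067, 4068, 4069, 4084, 4088, 4092, 4098, 4105, 4114, 4120, 4121, 4122, 4129, 4130, 4135, 4139, 4141, 4144, 4156, 4158, 4159, 4162, 4163, 4165, 4170, 4171,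 4185, 4187, 4192, 4225, 4226, 4230, 4231, 4232, 4234, 4235, 4237, 4242, 4243, 4244, 4259, 4260, 4262, 4264, 4265, 4267, 4273, 4274, 4276, 4279, 4280, 4285, 4288, 4289, 4290, 4295, 4303, 4304, 4306, 4309, 4325, 4345, 4347, 4348, 4358, 4362, 4364, 4398, 4399, 4404, 4405, 4407, 4408, 4422, 4425, 4426, 4427, 4428]

def sv5 : List ℕ := [4429, 4431, 4444, 4446, 4451, 4452, 4453, 4454, 4455, 4466, 4471, 4472, 4486, 4487, 4490, 4492, 4496, 4507, 4508, 4519, 4520, 4521, 4522, 4523, 4524, 4538, 4543, 4548, 4550, 4552, 4554, 4566, 4567, 4584, 4585, 4587, 4590, 4594, 4595, 4601, 4602, 4603, 4609, 4619, 4623, 4624, 4626, 4627, 4635, 4636, 4639, 4652, 4656, 4662, 4663, 4665, 4667, 4668, 4671, 4683, 4689, 4697, 4698, 4708, 4718, 4719, 4720, 4722, 4723, 4724, 4730, 4746, 4747, 4756, 4758, 4759, 4763, 4764, 4787, 4788, 4789, 4790, 4794, 4795, 4800, 4801, 4802, 4804, 4807, 4811, 4818, 4819, 4820, 4824, 4840, 4841,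 4843, 4844, 4846, 4847, 4855, 4890, 4891, 4894, 4903, 4904, 4905, 4906, 4907, 4923, 4924, 4934, 4935, 4938, 4939, 4940, 4948, 4950, 4955, 4958, 4960, 4963, 4967, 4968, 4974, 4976, 4982, 4983, 4985, 4990, 4996, 4999, 5003, 5004, 5005, 5026, 5027, 5028, 5029, 5031, 5032, 5049, 5055, 5057, 5058, 5071, 5081, 5082, 5086, 5088, 5089, 5103, 5104, 5111, 5112, 5113, 5120, 5122, 5124, 5125, 5136, 5137, 5139, 5155, 5172, 5173, 5175, 5192, 5194, 5198, 5200, 5204, 5208, 5209, 5216, 5228, 5236, 5238, 5239, 5242, 5243, 5245, 5249, 5250, 5253, 5257, 5275, 5287, 5296, 5297, 5298, 5312, 5313, 5314, 5322, 5323, 5327, 5330, 5335, 5337]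

def sv6 : List ℕ := [5343, 5344, 5348, 5351, 5352, 5355, 5356, 5357, 5358, 5359, 5381, 5387, 5388, 5391, 5394, 5402, 5406, 5415, 5416, 5417, 5418, 5419, 5420, 5423, 5424, 5425, 5426, 5428, 5435, 5439, 5444, 5447, 5448, 5450, 5451, 5452, 5454, 5457, 5484, 5489, 5490, 5499, 5500, 5502, 5503, 5504, 5505, 5508, 5528, 5531, 5532, 5534, 5537, 5538, 5539, 5564, 5572, 5575, 5585, 5588, 5589, 5591, 5592, 5593, 5595, 5599, 5606, 5607, 5609, 5610, 5611, 5645, 5653, 5654, 5655, 5659, 5660, 5662, 5663, 5669, 5671, 5672, 5673, 5674, 5675, 5692, 5697, 5698, 5700, 5702, 5707, 5708, 5712, 5716, 5727, 5737, 5738, 5740, 5741, 5743, 5744, 5745, 5749, 5754, 5755, 5796, 5797, 5798, 5800, 5801, 5803, 5809, 5810, 5814, 5817, 5819, 5826, 5827, 5842, 5844, 5845, 5846, 5849, 5850, 5851, 5858, 5861, 5863, 5864, 5866, 5868, 5870, 5871, 5872, 5886, 5889, 5895, 5896, 5899, 5900, 5929, 5930, 5931, 5932, 5945, 5947, 5948, 5965,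 5969, 5983, 5984, 6024, 6025, 6027, 6029, 6032, 6036, 6037, 6040, 6041, 6044, 6048, 6049, 6053, 6054, 6055, 6056, 6062, 6077, 6079, 6083, 6084, 6085, 6090, 6091, 6092, 6104, 6109, 6122, 6126, 6127, 6128, 6132, 6134, 6135, 6137, 6139, 6148, 6151, 6152, 6153, 6154, 6165, 6166, 6167, 6185, 6188, 6204, 6215, 6216]

def sv7 : List ℕ := [6217, 6218, 6224, 6225, 6226, 6232, 6234, 6241, 6245, 6247, 6248, 6256, 6257, 6266, 6271, 6272, 6274, 6275, 6277, 6281, 6282, 6283, 6289, 6306, 6322, 6325, 6326, 6327, 6328, 6329, 6345, 6346, 6347, 6348, 6354, 6357, 6359, 6360, 6363, 6364, 6367, 6370, 6372, 6377, 6379, 6390, 6391, 6392, 6397, 6403, 6425, 6427, 6431, 6432, 6435, 6438, 6439, 6440, 6442, 6445, 6468, 6482, 6497, 6498, 6499, 6513, 6515, 6524, 6540, 6542, 6543, 6564, 6565, 6566, 6569, 6580, 6582, 6583, 6584, 6586, 6587, 6594, 6595, 6601, 6602, 6603, 6604, 6605, 6610, 6611, 6615, 6617, 6618, 6633, 6635, 6641,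 6642, 6643, 6645, 6647, 6656, 6661, 6662, 6664, 6665, 6666, 6668, 6671, 6678, 6681, 6682, 6683, 6684, 6695, 6698, 6722, 6723, 6724, 6727, 6735, 6737, 6744, 6745, 6747, 6749, 6750, 6751, 6759, 6760, 6768, 6792, 6793, 6794, 6795, 6796, 6800, 6808, 6809, 6810, 6831, 6832, 6834, 6849, 6850, 6854, 6857, 6858, 6869, 6870, 6872, 6873, 6874, 6878, 6880, 6884, 6886, 6887, 6888, 6889, 6904, 6907, 6915, 6918, 6919, 6925, 6926, 6942, 6943, 6945, 6949, 6964, 6969, 6970, 6971, 6972, 6973, 6977, 6987, 6988, 7002, 7003, 7004, 7005, 7006, 7007, 7008, 7015, 7022, 7026, 7034, 7036, 7045, 7048, 7049, 7050, 7052, 7063, 7067, 7068, 7074]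

def sv8 : List ℕ := [7084, 7105, 7108, 7112, 7115, 7119, 7129, 7130, 7132, 7137, 7138, 7139, 7156, 7158, 7159, 7165, 7172, 7173, 7174, 7180, 7183, 7188, 7189, 7191, 7192, 7195, 7203, 7223, 7229, 7230, 7235, 7239, 7240, 7241, 7242, 7247, 7248, 7249, 7250, 7254, 7260, 7263, 7264, 7267, 7268, 7285, 7287, 7289, 7291, 7319, 7320, 7322, 7324, 7327, 7339, 7340, 7347, 7348, 7349, 7351, 7352, 7353, 7354, 7355, 7374, 7375, 7387, 7415, 7420, 7421, 7422, 7423, 7430, 7432, 7434, 7435, 7453, 7456, 7457, 7464, 7465, 7481, 7482, 7483, 7491, 7492, 7494, 7499, 7500, 7508, 7512, 7514, 7520, 7521, 7524, 7526, 7527, 7528, 7529, 7531, 7532, 7539, 7541, 7545, 7549, 7551, 7552, 7554, 7566, 7567, 7571, 7572, 7584, 7585, 7587, 7588, 7589, 7591, 7595, 7598, 7599, 7600, 7609, 7615, 7619, 7621, 7627, 7645, 7646, 7648, 7659, 7660, 7662, 7663, 7664, 7666, 7675, 7688, 7691, 7692, 7696, 7704, 7705, 7706, 7707, 7713, 7720, 7723,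 7724, 7728, 7729, 7730, 7740, 7756, 7757, 7759, 7763, 7781, 7782, 7783, 7792, 7804, 7814, 7825, 7826, 7829, 7830, 7831, 7833, 7841, 7842, 7843, 7844, 7849, 7855, 7860, 7877, 7878, 7880, 7883, 7884, 7885, 7888, 7901, 7903, 7905, 7906, 7908, 7909, 7911, 7913, 7914, 7915, 7940, 7944, 7945, 7946, 7954, 7955, 7960]

def sv9 : List ℕ := [7984, 7999, 8005, 8007, 8008, 8012, 8019, 8021, 8022, 8024, 8025, 8026, 8028, 8042, 8043, 8044, 8054, 8055, 8059, 8060, 8063, 8064, 8070, 8071, 8075, 8076, 8083, 8084, 8089, 8090, 8091, 8092, 8095, 8119, 8126, 8127, 8130, 8131, 8141, 8143, 8144, 8149, 8162, 8164, 8166, 8167, 8168, 8174, 8175, 8184, 8190, 8191, 8197, 8199, 8215, 8219, 8220, 8221, 8222, 8225, 8235, 8236, 8237, 8238, 8243, 8244, 8245, 8271, 8272, 8275, 8276, 8279, 8280, 8283, 8288, 8292, 8294, 8295, 8296, 8297, 8321, 8323, 8324, 8327, 8328, 8329, 8368, 8370, 8375, 8376, 8380, 8381, 8382, 8383, 8384, 8385,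 8388, 8429, 8431, 8432, 8433, 8437, 8440, 8443, 8444, 8447, 8448, 8456, 8461, 8467, 8468, 8470, 8472, 8473, 8475, 8479, 8480, 8484, 8488, 8489, 8503, 8504, 8505, 8523, 8530, 8531, 8532, 8535, 8537, 8543, 8544, 8545, 8547, 8548, 8551, 8552, 8555, 8556, 8558, 8585, 8586, 8587, 8600, 8608, 8612, 8620, 8621, 8623, 8625, 8626, 8628, 8629, 8630, 8632, 8634, 8635, 8679, 8680, 8684, 8687, 8688, 8689, 8690, 8692, 8694, 8697, 8698, 8711, 8712, 8723, 8725, 8731, 8732, 8740, 8745, 8747, 8748, 8750, 8754, 8756, 8758, 8760, 8763, 8764, 8765, 8786, 8787, 8789, 8792, 8793, 8809, 8811, 8812, 8827, 8841, 8842, 8845, 8847, 8848, 8851]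

def sv10 : List ℕ := [8854, 8855, 8856, 8857, 8866, 8867, 8868, 8869, 8872, 8891, 8892, 8893, 8896, 8897, 8898, 8899, 8905, 8914, 8919, 8932, 8933, 8953, 8959, 8960, 8967, 8968, 8972, 8976, 8977, 8980, 8981, 8984, 8986, 8987, 8988, 8991, 8992, 8993, 8994, 8995]

/-- surviving parts -/
def sv : List ℕ := sv0 ++ sv1 ++ sv2 ++ sv3 ++ sv4 ++ sv5 ++ sv6 ++ sv7 ++ sv8 ++ sv9 ++ sv10

end Pool.Agent.Lib.MP_2e8272_nt.Full.BaseB
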