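import Pool.Agent.Lib.MP_2e8272_nt.Full.Range
import Pool.Agent.Lib.MP_2e8272_nt.Full.DataB
import Pool.Agent.Lib.MP_2e8272_nt.Full.TabB

/-!
# Certificate B: generators, relations, decision tree
-/

namespace Pool.Agent.Lib.MP_2e8272_nt.Full.BaseB

open Full

theorem hl : ∀ g ∈ l, 0 < g.1 ∧ 0 < g.2 := by decide +kernel

theorem hrels : rels.all (fun rs => rs.all (relOk l w (l.length + 1))) = true := by
  decide +kernel

theorem htree : chk (rels.map fun rs => rs.map Prod.fst) (l.length + 1) tree [] [] = true := by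
  decide +kernel

end Pool.Agent.Lib.MP_2e8272_nt.Full.BaseB
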