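import Pool.Agent.Lib.MP_2e8272_nt.Full.BTab
import Pool.Agent.Lib.MP_2e8272_nt.Full.DataB
import Pool.Agent.Lib.MP_2e8272_nt.Full.TabB

/-!
# Certificate B: multiplication table and its uses
-/

namespace Pool.Agent.Lib.MP_2e8272_nt.Full.BaseB

open Full

theorem htb : tb.all (teOk l) = true := by decide +kernel

theorem hlen : Nat.ble 1477 tb.length = true := by decide +kernel

theorem husF : usesF (bld 11 tb) 1477 us = true := by decide +kernel

theorem hus : usesOk tb us = true := (usesF_spec hlen (by decide) us husF).1

theorem hrl : relF l (bld 11 tb) us = relList l tb us :=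
  relF_eq us (usesF_spec hlen (by decide) us husF).2

end Pool.Agent.Lib.MP_2e8272_nt.Full.BaseB
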