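import Pool.Agent.Lib.MP_2e8272_nt.Full.CertB2

/-!
# Certificate B: the uses are increasing
-/

namespace Pool.Agent.Lib.MP_2e8272_nt.Full.BaseB

open Full

theorem hincF : incr 1 (relF l (bld 11 tb) us) = true := by decide +kernel

theorem hinc : incr 1 (relList l tb us) = true := by
  rw [← hrl]
  exact hincF

end Pool.Agent.Lib.MP_2e8272_nt.Full.BaseB
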