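import Pool.Agent.Lib.MP_2e8272_nt.Full.CertB2

/-!
# Certificate B: range of the uses
-/

namespace Pool.Agent.Lib.MP_2e8272_nt.Full.BaseB

open Full

theorem hNF : (relF l (bld 11 tb) us).all (fun r => Nat.ble r.1 9000) = true := by
  decide +kernel

theorem hN : (relList l tb us).all (fun r => Nat.ble r.1 9000) = true := by
  rw [← hrl]
  exact hNF

end Pool.Agent.Lib.MP_2e8272_nt.Full.BaseB
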