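import Pool.Agent.Lib.MP_2e8272_nt.Full.MulB
import Pool.Agent.Lib.MP_2e8272_nt.Full.DataB
import Pool.Agent.Lib.MP_2e8272_nt.Full.TabB

/-!
# Certificate B, numerical part: `301 ≤ n < 8813`
-/

namespace Pool.Agent.Lib.MP_2e8272_nt.Full.BaseB

open Full

/-- the surviving parts below 834; beyond, all multiples of 3 are taken -/
def svS : List ℕ := sv.filter (fun a => Nat.blt a 834)

theorem hI : svS.all (fun a => Nat.blt 0 a) = true := by decide +kernel

theorem hnum : numOkB 270 41 30 330 8813 301 (gd l) tree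
    (((List.range (l.length + 1)).map (gd l)) ++ svS) (tsL (3 * 278 - 1)) 3 278 10 = true := by
  decide +kernel

end Pool.Agent.Lib.MP_2e8272_nt.Full.BaseB
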