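import Mathlib

/-!
# Power series with nonnegative coefficients
-/

namespace Pool.Agent.Lib.MP_2e8272_nt.Full

open PowerSeries

/-- all coefficients are nonnegative -/
def Nn (f : PowerSeries ℤ) : Prop := ∀ n, 0 ≤ coeff n f

theorem Nn.mul {f g : PowerSeries ℤ} (hf : Nn f) (hg : Nn g) : Nn (f * g) := by
  intro n
  rw [coeff_mul]
  exact Finset.sum_nonneg fun p _ => mul_nonneg (hf _) (hg _)

theorem Nn.add {f g : PowerSeries ℤ} (hf : Nn f) (hg : Nn g) : Nn (f + g) := by
  intro n
  rw [map_add]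
  exact add_nonneg (hf _) (hg _)

theorem Nn.zero : Nn 0 := by intro n; simp

theorem Nn.one : Nn 1 := by
  intro n
  rw [coeff_one]
  split_ifs <;> norm_num

theorem Nn.X_pow (t : ℕ) : Nn ((X : PowerSeries ℤ) ^ t) := by
  intro n
  rw [coeff_X_pow]
  split_ifs <;> norm_num

theorem Nn.sum {ι : Type*} (s : Finset ι) (f : ι → PowerSeries ℤ) (h : ∀ i ∈ s, Nn (f i)) :
    Nn (∑ i ∈ s, f i) := by
  intro n
  rw [map_sum]
  exact Finset.sum_nonneg fun i hi => h i hi n

theorem Nn.prod {ι : Type*} (s : Finset ι) (f : ι → PowerSeries ℤ) (h : ∀ i ∈ s, Nn (f i)) :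
    Nn (∏ i ∈ s, f i) := by
  classical
  induction s using Finset.induction_on with
  | empty => simpa using Nn.one
  | insert a s ha ih =>
    rw [Finset.prod_insert ha]
    exact (h a (Finset.mem_insert_self _ _)).mul
      (ih fun i hi => h i (Finset.mem_insert_of_mem hi))

/-- the geometric series `1 / (1 - X ^ g)` -/
noncomputable def geo (g : ℕ) : PowerSeries ℤ := mk fun n => if g ∣ n then 1 else 0

theorem Nn.geo (g : ℕ) : Nn (geo g) := by
  intro n
  rw [Full.geo, coeff_mk]
  split_ifs <;> norm_num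

theorem geo_mul {g : ℕ} (hg : 0 < g) : geo g * (1 - X ^ g) = 1 := by
  ext n
  rw [mul_sub, mul_one, map_sub, coeff_one, coeff_mul_X_pow', geo, coeff_mk]
  by_cases h : g ≤ n
  · rw [if_pos h, coeff_mk]
    have h1 : g ∣ n - g ↔ g ∣ n := by
      rw [Nat.dvd_sub_self_right]
      constructor
      · rintro (h2 | h2)
        · exact h2
        · have h3 : n = g := le_antisymm h2 h
          rw [h3]
      · exact fun h2 => Or.inl h2
    have h2 : n ≠ 0 := by omega
    simp only [h1, h2, if_false]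
    split_ifs <;> norm_num
  · rw [if_neg h]
    by_cases h0 : n = 0
    · subst h0; simp
    · have : ¬ g ∣ n := fun hd => h (Nat.le_of_dvd (Nat.pos_of_ne_zero h0) hd)
      simp [this, h0]

theorem mul_geo {g : ℕ} (hg : 0 < g) : (1 - X ^ g) * geo g = 1 := by
  rw [mul_comm]; exact geo_mul hg

/-- nondecreasing, nonnegative coefficients -/
def Inc (f : PowerSeries ℤ) : Prop := Nn ((1 - X) * f)

theorem Inc.of_mono {f : PowerSeries ℤ} (h0 : 0 ≤ coeff 0 f)
    (h : ∀ n, coeff n f ≤ coeff (n + 1) f) : Inc f := by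
  intro n
  rw [sub_mul, one_mul, map_sub]
  cases n with
  | zero =>
    rw [coeff_zero_X_mul]
    simpa using h0
  | succ n =>
    rw [coeff_succ_X_mul]
    exact sub_nonneg.mpr (h n)

theorem Inc.mono {f : PowerSeries ℤ} (h : Inc f) (n : ℕ) : coeff n f ≤ coeff (n + 1) f := by
  have := h (n + 1)
  rw [sub_mul, one_mul, map_sub, coeff_succ_X_mul] at this
  exact sub_nonneg.mp this

theorem Inc.nn {f : PowerSeries ℤ} (h : Inc f) : Nn f := by
  intro n
  induction n with
  | zero =>
    have := h 0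
    rw [sub_mul, one_mul, map_sub, coeff_zero_X_mul, sub_zero] at this
    exact this
  | succ n ih => exact ih.trans (h.mono n)

theorem Inc.mul_nn {f g : PowerSeries ℤ} (hf : Inc f) (hg : Nn g) : Inc (f * g) := by
  unfold Inc
  rw [← mul_assoc]
  exact Nn.mul hf hg

/-- an increasing series times `X ^ t - X ^ h` with `t ≤ h` -/
theorem Inc.shift {f : PowerSeries ℤ} (hf : Inc f) {t h : ℕ} (hth : t ≤ h) :
    Nn (f * (X ^ t - X ^ h)) := by
  obtain ⟨k, rfl⟩ := Nat.exists_eq_add_of_le hth
  have h1 : (1 : PowerSeries ℤ) - X ^ k = (∑ i ∈ Finset.range k, X ^ i) * (1 - X) := by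
    rw [← neg_sub, ← geom_sum_mul]
    ring
  have h2 : f * (X ^ t - X ^ (t + k)) =
      X ^ t * ((∑ i ∈ Finset.range k, X ^ i) * ((1 - X) * f)) := by
    rw [pow_add]
    have : f * (X ^ t - X ^ t * X ^ k) = X ^ t * ((1 - X ^ k) * f) := by ring
    rw [this, h1]
    ring
  rw [h2]
  exact (Nn.X_pow t).mul ((Nn.sum _ _ fun i _ => Nn.X_pow i).mul hf)

/-- replacing a larger part by a smaller one -/
theorem Inc.geo_le {f : PowerSeries ℤ} (hf : Inc f) {t h : ℕ} (ht : 0 < t) (hth : t ≤ h) :
    Nn (f * geo t - f * geo h) := by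
  have e : f * geo t - f * geo h = (f * (X ^ t - X ^ h)) * (geo t * geo h) := by
    have h1 := geo_mul ht
    have h2 := geo_mul (lt_of_lt_of_le ht hth)
    calc f * geo t - f * geo h
        = f * geo t * (geo h * (1 - X ^ h)) - f * geo h * (geo t * (1 - X ^ t)) := by
          rw [h1, h2]; ring
      _ = _ := by ring
  rw [e]
  exact (hf.shift hth).mul ((Nn.geo t).mul (Nn.geo h))

/-- the killing step: a relation of degree `t` for the generator of degree `g` cancels the
factor `geo h` of a later generator of degree `h ≥ t` -/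
theorem kill_step {a a' Q : PowerSeries ℤ} {g t h : ℕ} (hg : 0 < g) (hh : 0 < h) (hth : t ≤ h)
    (ha' : Inc a') (hQ : Nn Q) (hc : Nn (a' * (1 - X ^ t) - a * (1 - X ^ g))) :
    Nn (a' * (Q * geo g) - a * (Q * geo h)) := by
  have e : a' * (Q * geo g) - a * (Q * geo h) =
      (a' * (1 - X ^ t) - a * (1 - X ^ g)) * (Q * (geo g * geo h)) +
        (a' * (X ^ t - X ^ h)) * (Q * (geo g * geo h)) := by
    have h1 := geo_mul hg
    have h2 := geo_mul hh
    calc a' * (Q * geo g) - a * (Q * geo h)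
        = a' * (Q * geo g) * (geo h * (1 - X ^ h)) - a * (Q * geo h) * (geo g * (1 - X ^ g)) := by
          rw [h1, h2]; ring
      _ = _ := by ring
  rw [e]
  exact (hc.mul (hQ.mul ((Nn.geo g).mul (Nn.geo h)))).add
    ((ha'.shift hth).mul (hQ.mul ((Nn.geo g).mul (Nn.geo h))))

end Pool.Agent.Lib.MP_2e8272_nt.Full
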