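import Mathlib
import Pool.Agent.Lib.MP_2e8272_nt.Full.PS

/-!
# Packed power series

The first `n` coefficients of a power series with small nonnegative coefficients are stored in one
natural number, in base `2 ^ (v + 1)`, every digit being smaller than `2 ^ v`. Multiplication by
`1 / (1 - X ^ g)` is a sequence of shifts and additions, and two series are compared by one
subtraction. All functions are meant to be evaluated by the kernel.
-/

namespace Pool.Agent.Lib.MP_2e8272_nt.Full

open PowerSeries Finset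

/-- the packed form of the first `n` values of `f` -/
def pk (w : ℕ) (f : ℕ → ℕ) (n : ℕ) : ℕ := ∑ i ∈ range n, f i * 2 ^ (w * i)

theorem pk_succ (w : ℕ) (f : ℕ → ℕ) (n : ℕ) : pk w f (n + 1) = pk w f n + f n * 2 ^ (w * n) := by
  rw [pk, Finset.sum_range_succ, pk]

theorem pk_congr {w n : ℕ} {f g : ℕ → ℕ} (h : ∀ i < n, f i = g i) : pk w f n = pk w g n := by
  refine Finset.sum_congr rfl fun i hi => ?_
  rw [h i (Finset.mem_range.mp hi)]

theorem pk_lt {w : ℕ} {f : ℕ → ℕ} {n : ℕ} (h : ∀ i < n, f i < 2 ^ w) : pk w f n < 2 ^ (w * n) := by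
  induction n with
  | zero => simp [pk]
  | succ n ih =>
    rw [pk_succ]
    have h1 := ih fun i hi => h i (Nat.lt_succ_of_lt hi)
    have h2 : f n + 1 ≤ 2 ^ w := h n (Nat.lt_succ_self n)
    calc pk w f n + f n * 2 ^ (w * n) < 2 ^ (w * n) + f n * 2 ^ (w * n) := by omega
      _ = (f n + 1) * 2 ^ (w * n) := by ring
      _ ≤ 2 ^ w * 2 ^ (w * n) := Nat.mul_le_mul_right _ h2
      _ = 2 ^ (w * (n + 1)) := by rw [← pow_add]; ring_nf

theorem pk_add_split (w : ℕ) (f : ℕ → ℕ) (a b : ℕ) :
    pk w f (a + b) = pk w f a + pk w (fun i => f (a + i)) b * 2 ^ (w * a) := by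
  induction b with
  | zero => simp [pk]
  | succ b ih =>
    rw [← add_assoc, pk_succ, ih, pk_succ]
    rw [show w * (a + b) = w * b + w * a by ring, pow_add]
    ring

theorem pk_mod {w : ℕ} {f : ℕ → ℕ} {a b : ℕ} (h : ∀ i < a, f i < 2 ^ w) :
    pk w f (a + b) % 2 ^ (w * a) = pk w f a := by
  rw [pk_add_split, Nat.add_mul_mod_self_right, Nat.mod_eq_of_lt (pk_lt h)]

theorem pk_testBit {w : ℕ} {f : ℕ → ℕ} {n : ℕ} (h : ∀ i < n, f i < 2 ^ w) {i j : ℕ} (hi : i < n)
    (hj : j < w) : (pk w f n).testBit (w * i + j) = (f i).testBit j := by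
  obtain ⟨b, rfl⟩ := Nat.exists_eq_add_of_lt hi
  have e1 : pk w f (i + b + 1) =
      pk w f i + (f i + pk w (fun k => f (i + 1 + k)) b * 2 ^ w) * 2 ^ (w * i) := by
    rw [show i + b + 1 = (i + 1) + b by ring, pk_add_split, pk_succ,
      show w * (i + 1) = w + w * i by ring, pow_add]
    ring
  have h1 : pk w f i < 2 ^ (w * i) := pk_lt fun k hk => h k (by omega)
  rw [e1, show pk w f i + (f i + pk w (fun k => f (i + 1 + k)) b * 2 ^ w) * 2 ^ (w * i) =
    2 ^ (w * i) * (f i + pk w (fun k => f (i + 1 + k)) b * 2 ^ w) + pk w f i by ring,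
    Nat.testBit_two_pow_mul_add _ h1, if_neg (by omega), Nat.add_sub_cancel_left,
    show f i + pk w (fun k => f (i + 1 + k)) b * 2 ^ w =
      2 ^ w * pk w (fun k => f (i + 1 + k)) b + f i by ring,
    Nat.testBit_two_pow_mul_add _ (h i hi), if_pos hj]

/-- the number with digits `2 ^ v` in base `2 ^ (v + 1)` -/
def maskOf (v n : ℕ) : ℕ :=
  Nat.mul (Nat.pow 2 v)
    (Nat.div (Nat.sub (Nat.pow 2 (Nat.mul (v + 1) n)) 1) (Nat.sub (Nat.pow 2 (v + 1)) 1))

theorem maskOf_eq (v n : ℕ) : maskOf v n = pk (v + 1) (fun _ => 2 ^ v) n := by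
  have h1 : 2 ≤ 2 ^ (v + 1) := by
    rw [pow_succ]
    have := Nat.one_le_two_pow (n := v)
    omega
  have h2 := Nat.geomSum_eq h1 n
  have h3 : maskOf v n = 2 ^ v * ((2 ^ ((v + 1) * n) - 1) / (2 ^ (v + 1) - 1)) := rfl
  rw [h3, pow_mul, ← h2, pk, Finset.mul_sum]
  exact Finset.sum_congr rfl fun i _ => by rw [pow_mul]

theorem lt_of_land_mask {v n : ℕ} {f : ℕ → ℕ} (h : ∀ i < n, f i < 2 ^ (v + 1))
    (hm : pk (v + 1) f n &&& maskOf v n = 0) : ∀ i < n, f i < 2 ^ v := by
  intro i hi
  have h1 : (pk (v + 1) f n &&& maskOf v n).testBit ((v + 1) * i + v) = false := by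
    rw [hm]; exact Nat.zero_testBit _
  have h2 : ∀ k < n, (fun _ : ℕ => 2 ^ v) k < 2 ^ (v + 1) := fun k _ => by
    change 2 ^ v < 2 ^ (v + 1)
    exact Nat.pow_lt_pow_right (by norm_num) (Nat.lt_succ_self v)
  rw [Nat.testBit_and, pk_testBit h hi (Nat.lt_succ_self v), maskOf_eq,
    pk_testBit h2 hi (Nat.lt_succ_self v)] at h1
  have h3 : (f i).testBit v = false := by
    simpa [Nat.testBit_two_pow_self] using h1
  by_contra h4
  have h4' : 2 ^ v ≤ f i := not_lt.mp h4
  have h5 : (f i).testBit v = true := by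
    rw [Nat.testBit_eq_decide_div_mod_eq]
    have h6 : f i / 2 ^ v = 1 := by
      apply Nat.div_eq_of_lt_le
      · simpa using h4'
      · have := h i hi
        rw [pow_succ] at this
        omega
    rw [h6]; rfl
  rw [h3] at h5
  exact Bool.false_ne_true h5

/-- `P` stores the first `n` coefficients of `F` -/
def Rep (v n P : ℕ) (F : PowerSeries ℤ) : Prop :=
  ∃ f : ℕ → ℕ, (∀ i < n, coeff i F = (f i : ℤ)) ∧ (∀ i < n, f i < 2 ^ v) ∧ P = pk (v + 1) f n

theorem Rep.congr {v n P : ℕ} {F G : PowerSeries ℤ} (h : Rep v n P F)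
    (hFG : ∀ i < n, coeff i F = coeff i G) : Rep v n P G := by
  obtain ⟨f, h1, h2, h3⟩ := h
  exact ⟨f, fun i hi => (hFG i hi).symm.trans (h1 i hi), h2, h3⟩

/-- multiplication by `1 + X ^ g`, packed -/
def stp (w n g P : ℕ) : ℕ :=
  Nat.add P (Nat.shiftLeft (Nat.mod P (Nat.pow 2 (Nat.mul w (Nat.sub n g)))) (Nat.mul w g))

theorem lt_two_pow_succ {a v : ℕ} (h : a < 2 ^ v) : a < 2 ^ (v + 1) :=
  h.trans (Nat.pow_lt_pow_right (by norm_num) (Nat.lt_succ_self v))

theorem pk_shift {w n g : ℕ} {f : ℕ → ℕ} (hg : g ≤ n) (h : ∀ i < n, f i < 2 ^ w) :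
    (pk w f n % 2 ^ (w * (n - g))) * 2 ^ (w * g) =
      pk w (fun i => if g ≤ i then f (i - g) else 0) n := by
  obtain ⟨a, rfl⟩ := Nat.exists_eq_add_of_le hg
  rw [Nat.add_sub_cancel_left, show g + a = a + g by ring,
    pk_mod (fun i hi => h i (by omega)), show a + g = g + a by ring, pk_add_split]
  have h1 : pk w (fun i => if g ≤ i then f (i - g) else 0) g = 0 := by
    rw [pk]
    refine Finset.sum_eq_zero fun i hi => ?_
    rw [if_neg (by have := Finset.mem_range.mp hi; omega), zero_mul]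
  rw [h1, zero_add]
  congr 1
  refine pk_congr fun i _ => ?_
  rw [if_pos (by omega), Nat.add_sub_cancel_left]

theorem Rep.stp {v n P g : ℕ} {F : PowerSeries ℤ} (h : Rep v n P F) (hg : g ≤ n)
    (hm : Nat.land (stp (v + 1) n g P) (maskOf v n) = 0) :
    Rep v n (Full.stp (v + 1) n g P) (F * (1 + X ^ g)) := by
  obtain ⟨f, h1, h2, h3⟩ := h
  have e : Full.stp (v + 1) n g P =
      pk (v + 1) (fun i => f i + if g ≤ i then f (i - g) else 0) n := by
    have h4 : Full.stp (v + 1) n g P =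
        P + (P % 2 ^ ((v + 1) * (n - g))) <<< ((v + 1) * g) := rfl
    rw [h4, h3, Nat.shiftLeft_eq, pk_shift hg fun i hi => lt_two_pow_succ (h2 i hi)]
    simp only [pk, ← Finset.sum_add_distrib, ← add_mul]
  have h5 : ∀ i < n, (fun i => f i + if g ≤ i then f (i - g) else 0) i < 2 ^ (v + 1) := by
    intro i hi
    have h6 := h2 i hi
    have h7 := h2 (i - g) (by omega)
    change (f i + if g ≤ i then f (i - g) else 0) < 2 ^ (v + 1)
    rw [pow_succ]
    split_ifs <;> omega
  refine ⟨fun i => f i + if g ≤ i then f (i - g) else 0, ?_, ?_, e⟩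
  · intro i hi
    rw [mul_add, mul_one, map_add, coeff_mul_X_pow', h1 i hi]
    push_cast
    congr 1
    split_ifs with hgi
    · exact h1 _ (by omega)
    · rfl
  · refine lt_of_land_mask h5 ?_
    rw [← e]
    exact hm

/-- multiplication by `geo g`, packed -/
def mulGeo (w n mask : ℕ) : ℕ → ℕ → ℕ → Option ℕ
  | 0, _, _ => none
  | fuel + 1, g, P =>
    match Nat.ble n g with
    | true => some P
    | false =>
      match Nat.beq (Nat.land (stp w n g P) mask) 0 with
      | true => mulGeo w n mask fuel (Nat.mul 2 g) (stp w n g P)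
      | false => none

theorem geo_double {g : ℕ} (hg : 0 < g) : geo g = (1 + X ^ g) * geo (2 * g) := by
  have h1 := geo_mul hg
  have h2 := geo_mul (g := 2 * g) (by omega)
  calc geo g = geo g * (geo (2 * g) * (1 - X ^ (2 * g))) := by rw [h2, mul_one]
    _ = (geo g * (1 - X ^ g)) * ((1 + X ^ g) * geo (2 * g)) := by
        rw [show (X : PowerSeries ℤ) ^ (2 * g) = X ^ g * X ^ g by rw [← pow_add]; ring_nf]
        ring
    _ = _ := by rw [h1, one_mul]

theorem coeff_mul_geo_of_lt {g n i : ℕ} (hn : n ≤ g) (hi : i < n) (F : PowerSeries ℤ) :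
    coeff i F = coeff i (F * geo g) := by
  have hg : 0 < g := by omega
  have h1 : F * geo g = F + X ^ g * (F * geo g) := by
    have := geo_mul hg
    calc F * geo g = F * (geo g * (1 - X ^ g)) + X ^ g * (F * geo g) := by ring
      _ = _ := by rw [this, mul_one]
  rw [h1, map_add, coeff_X_pow_mul', if_neg (by omega), add_zero]

theorem Rep.mulGeo {v n : ℕ} : ∀ (fuel g P P' : ℕ) (F : PowerSeries ℤ), 0 < g → Rep v n P F →
    mulGeo (v + 1) n (maskOf v n) fuel g P = some P' → Rep v n P' (F * geo g) := by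
  intro fuel
  induction fuel with
  | zero => intro g P P' F _ _ h; exact absurd h (by simp [Full.mulGeo])
  | succ fuel ih =>
    intro g P P' F hg hP h
    rw [Full.mulGeo] at h
    split at h
    · rename_i hb
      have h1 : P = P' := Option.some.inj h
      have h2 : n ≤ g := Nat.le_of_ble_eq_true hb
      rw [← h1]
      exact hP.congr fun i hi => coeff_mul_geo_of_lt h2 hi F
    · rename_i hb
      have h2 : g ≤ n := by
        by_contra h3
        exact Bool.false_ne_true (hb.symm.trans (Nat.ble_eq_true_of_le (by omega)))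
      split at h
      · rename_i hc
        have h4 := ih (Nat.mul 2 g) _ P' (F * (1 + X ^ g)) (by
          change 0 < 2 * g
          omega) (hP.stp h2 (Nat.eq_of_beq_eq_true hc)) h
        rw [mul_assoc] at h4
        rw [geo_double hg]
        exact h4
      · exact absurd h (by simp)

/-- multiplication by `geo g` for all `g` in a list -/
def mulList (w n mask : ℕ) : List ℕ → ℕ → Option ℕ
  | [], P => some P
  | g :: L, P =>
    match mulGeo w n mask 20 g P with
    | some P' => mulList w n mask L P'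
    | none => none

theorem Rep.mulList {v n : ℕ} : ∀ (L : List ℕ) (P P' : ℕ) (F : PowerSeries ℤ),
    (∀ g ∈ L, 0 < g) → Rep v n P F →
    mulList (v + 1) n (maskOf v n) L P = some P' → Rep v n P' (F * (L.map geo).prod) := by
  intro L
  induction L with
  | nil =>
    intro P P' F _ hP h
    rw [Full.mulList] at h
    rw [List.map_nil, List.prod_nil, mul_one, ← Option.some.inj h]
    exact hP
  | cons g L ih =>
    intro P P' F hL hP h
    rw [Full.mulList] at h
    split at h
    · rename_i P1 h1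
      have h2 := Rep.mulGeo 20 g P P1 F (hL g List.mem_cons_self) hP h1
      have h3 := ih P1 P' _ (fun a ha => hL a (List.mem_cons_of_mem _ ha)) h2 h
      rw [List.map_cons, List.prod_cons, ← mul_assoc]
      exact h3
    · exact absurd h (by simp)

/-- comparison of all coefficients from `lo` on -/
def cmpFrom (v n lo P Q : ℕ) : Bool :=
  Nat.beq (Nat.land (Nat.sub (Nat.add (Nat.shiftRight Q (Nat.mul (v + 1) lo))
    (maskOf v (Nat.sub n lo))) (Nat.shiftRight P (Nat.mul (v + 1) lo))) (maskOf v (Nat.sub n lo)))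
    (maskOf v (Nat.sub n lo))

theorem pk_shiftRight {w n lo : ℕ} {f : ℕ → ℕ} (hlo : lo ≤ n) (h : ∀ i < n, f i < 2 ^ w) :
    pk w f n >>> (w * lo) = pk w (fun i => f (lo + i)) (n - lo) := by
  obtain ⟨a, rfl⟩ := Nat.exists_eq_add_of_le hlo
  rw [Nat.add_sub_cancel_left, pk_add_split, Nat.shiftRight_eq_div_pow,
    Nat.add_mul_div_right _ _ (by positivity),
    Nat.div_eq_of_lt (pk_lt fun i hi => h i (by omega)), zero_add]

theorem cmp_core {v n : ℕ} {f g : ℕ → ℕ} (hf : ∀ i < n, f i < 2 ^ v) (hg : ∀ i < n, g i < 2 ^ v)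
    (h : (pk (v + 1) g n + maskOf v n - pk (v + 1) f n) &&& maskOf v n = maskOf v n) :
    ∀ i < n, f i ≤ g i := by
  have e : pk (v + 1) g n + maskOf v n - pk (v + 1) f n =
      pk (v + 1) (fun i => g i + 2 ^ v - f i) n := by
    apply Nat.sub_eq_of_eq_add
    rw [maskOf_eq, pk, pk, pk, pk, ← Finset.sum_add_distrib, ← Finset.sum_add_distrib]
    refine Finset.sum_congr rfl fun i hi => ?_
    rw [← add_mul, ← add_mul]
    congr 1
    have := hf i (Finset.mem_range.mp hi)
    omega
  intro i hi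
  have h1 : ∀ k < n, (fun i => g i + 2 ^ v - f i) k < 2 ^ (v + 1) := by
    intro k hk
    have h2 := hg k hk
    change g k + 2 ^ v - f k < 2 ^ (v + 1)
    rw [pow_succ]
    omega
  have h2 : ∀ k < n, (fun _ : ℕ => 2 ^ v) k < 2 ^ (v + 1) := fun k _ => by
    change 2 ^ v < 2 ^ (v + 1)
    exact Nat.pow_lt_pow_right (by norm_num) (Nat.lt_succ_self v)
  have h3 := congrArg (fun x => Nat.testBit x ((v + 1) * i + v)) h
  simp only [Nat.testBit_and] at h3
  rw [e, pk_testBit h1 hi (Nat.lt_succ_self v), maskOf_eq,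
    pk_testBit h2 hi (Nat.lt_succ_self v)] at h3
  simp only [Nat.testBit_two_pow_self, Bool.and_true] at h3
  by_contra h4
  have h6 : 1 ≤ 2 ^ v := Nat.one_le_two_pow
  have h5 : g i + 2 ^ v - f i < 2 ^ v := by omega
  rw [Nat.testBit_lt_two_pow h5] at h3
  exact Bool.false_ne_true h3

theorem Rep.le_of_cmpFrom {v n lo P Q : ℕ} {F G : PowerSeries ℤ} (hP : Rep v n P F)
    (hQ : Rep v n Q G) (hlo : lo ≤ n) (h : cmpFrom v n lo P Q = true) :
    ∀ i, lo ≤ i → i < n → coeff i F ≤ coeff i G := by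
  obtain ⟨f, f1, f2, f3⟩ := hP
  obtain ⟨g, g1, g2, g3⟩ := hQ
  have h0 := Nat.eq_of_beq_eq_true h
  have h1 : (Q >>> ((v + 1) * lo) + maskOf v (n - lo) - P >>> ((v + 1) * lo)) &&&
      maskOf v (n - lo) = maskOf v (n - lo) := h0
  rw [f3, g3, pk_shiftRight hlo fun i hi => lt_two_pow_succ (f2 i hi),
    pk_shiftRight hlo fun i hi => lt_two_pow_succ (g2 i hi)] at h1
  have h2 := cmp_core (fun i hi => f2 (lo + i) (by omega)) (fun i hi => g2 (lo + i) (by omega)) h1
  intro i hi1 hi2
  have h3 := h2 (i - lo) (by omega)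
  rw [show lo + (i - lo) = i by omega] at h3
  rw [f1 i hi2, g1 i hi2]
  exact_mod_cast h3

theorem Rep.one {v n : ℕ} (hv : 0 < v) (hn : 0 < n) : Rep v n 1 1 := by
  refine ⟨fun i => if i = 0 then 1 else 0, ?_, ?_, ?_⟩
  · intro i _
    rw [coeff_one]
    by_cases h0 : i = 0
    · simp [h0]
    · simp [h0]
  · intro i _
    change (if i = 0 then 1 else 0) < 2 ^ v
    have : 1 < 2 ^ v := Nat.one_lt_two_pow (by omega)
    split_ifs <;> omega
  · rw [pk, Finset.sum_eq_single 0]
    · simp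
    · intro b _ hb
      rw [if_neg hb, zero_mul]
    · intro h
      exact absurd (Finset.mem_range.mpr hn) h

end Pool.Agent.Lib.MP_2e8272_nt.Full
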