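import Mathlib
import Pool.Agent.Lib.MP_2e8272_nt.Full.PS

/-!
# Polynomial bounds for the coefficients of finite products of geometric series
-/

namespace Pool.Agent.Lib.MP_2e8272_nt.Full

open PowerSeries Finset

/-- the product of `geo` over a list -/
noncomputable def gprod (L : List ℕ) : PowerSeries ℤ := (L.map geo).prod

theorem gprod_nil : gprod [] = 1 := by simp [gprod]

theorem gprod_cons (a : ℕ) (L : List ℕ) : gprod (a :: L) = geo a * gprod L := by simp [gprod]

theorem gprod_append (L M : List ℕ) : gprod (L ++ M) = gprod L * gprod M := by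
  simp [gprod, List.map_append, List.prod_append]

theorem Nn.gprod (L : List ℕ) : Nn (gprod L) := by
  induction L with
  | nil => rw [gprod_nil]; exact Nn.one
  | cons a L ih => rw [gprod_cons]; exact (Nn.geo a).mul ih

/-- recursion for the coefficients of `f / (1 - X ^ a)` -/
theorem coeff_mul_geo {a : ℕ} (ha : 0 < a) (f : PowerSeries ℤ) (n : ℕ) :
    coeff n (f * geo a) = coeff n f + if a ≤ n then coeff (n - a) (f * geo a) else 0 := by
  have h1 : f * geo a = f + X ^ a * (f * geo a) := by
    have := geo_mul ha
    calc f * geo a = f * (geo a * (1 - X ^ a)) + X ^ a * (f * geo a) := by ring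
      _ = _ := by rw [this, mul_one]
  conv_lhs => rw [h1]
  rw [map_add, coeff_X_pow_mul']

theorem choose_step_upper (x a k : ℕ) :
    a * x.choose k + x.choose (k + 1) ≤ (x + a).choose (k + 1) := by
  induction a with
  | zero => simp
  | succ a ih =>
    rw [show x + (a + 1) = (x + a) + 1 by ring, Nat.choose_succ_succ]
    have h1 : x.choose k ≤ (x + a).choose k := Nat.choose_le_choose k (Nat.le_add_right x a)
    calc (a + 1) * x.choose k + x.choose (k + 1)
        = x.choose k + (a * x.choose k + x.choose (k + 1)) := by ring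
      _ ≤ (x + a).choose k + (x + a).choose (k + 1) := Nat.add_le_add h1 ih

theorem choose_step_lower (x a k : ℕ) :
    (x + a + 1).choose (k + 1) ≤ a * (x + a).choose k + (x + 1).choose (k + 1) := by
  induction a with
  | zero => simp
  | succ a ih =>
    rw [show x + (a + 1) + 1 = (x + (a + 1)) + 1 by ring, Nat.choose_succ_succ]
    have h1 : (x + a).choose k ≤ (x + (a + 1)).choose k :=
      Nat.choose_le_choose k (by omega)
    have h2 : (x + (a + 1)).choose (k + 1) ≤
        a * (x + (a + 1)).choose k + (x + 1).choose (k + 1) :=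
      le_trans (by rw [show x + (a + 1) = x + a + 1 by ring] at *; exact ih)
        (Nat.add_le_add_right (Nat.mul_le_mul_left a h1) _)
    calc (x + (a + 1)).choose k + (x + (a + 1)).choose (k + 1)
        ≤ (x + (a + 1)).choose k + (a * (x + (a + 1)).choose k + (x + 1).choose (k + 1)) :=
          Nat.add_le_add_left h2 _
      _ = _ := by ring

theorem lower_step {f : PowerSeries ℤ} {c a k : ℕ} (ha : 0 < a)
    (h : ∀ n, ((n + k).choose k : ℤ) ≤ c * coeff n f) (n : ℕ) :
    ((n + (k + 1)).choose (k + 1) : ℤ) ≤ (a * c : ℕ) * coeff n (f * geo a) := by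
  induction n using Nat.strong_induction_on with
  | _ n ih =>
    rw [coeff_mul_geo ha f n]
    have h1 := h n
    split_ifs with hn
    · have h2 := ih (n - a) (by omega)
      have h3 := choose_step_lower (n - a + k) a k
      rw [show n - a + k + a = n + k by omega] at h3
      rw [show n - a + (k + 1) = n - a + k + 1 by ring] at h2
      have h4 : ((n + (k + 1)).choose (k + 1) : ℤ) ≤
          a * (n + k).choose k + (n - a + k + 1).choose (k + 1) := by
        rw [show n + (k + 1) = n + k + 1 by ring]
        exact_mod_cast h3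
      have h5 : (a : ℤ) * (n + k).choose k ≤ a * (c * coeff n f) :=
        mul_le_mul_of_nonneg_left h1 (by positivity)
      push_cast at h2 ⊢
      linarith
    · have h3 : (n + (k + 1)).choose (k + 1) ≤ a * (n + k).choose k := by
        have h4 : ∀ m, (m + (k + 1)).choose (k + 1) ≤ (m + 1) * (m + k).choose k := by
          intro m
          have := choose_step_lower k m k
          rw [show k + m = m + k by ring, show m + k + 1 = m + (k + 1) by ring,
            Nat.choose_self (k + 1)] at this
          have h5 : 1 ≤ (m + k).choose k := Nat.choose_pos (by omega)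
          calc _ ≤ m * (m + k).choose k + 1 := this
            _ ≤ m * (m + k).choose k + (m + k).choose k := Nat.add_le_add_left h5 _
            _ = _ := by ring
        exact (h4 n).trans (Nat.mul_le_mul_right _ (by omega))
      have h4 : ((n + (k + 1)).choose (k + 1) : ℤ) ≤ a * (n + k).choose k := by
        exact_mod_cast h3
      have h5 : (a : ℤ) * (n + k).choose k ≤ a * (c * coeff n f) :=
        mul_le_mul_of_nonneg_left h1 (by positivity)
      push_cast
      linarith

theorem upper_step {f : PowerSeries ℤ} {c a k s : ℕ} (ha : 0 < a)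
    (h : ∀ n, (c : ℤ) * coeff n f ≤ ((n + s).choose k : ℤ)) (n : ℕ) :
    ((a * c : ℕ) : ℤ) * coeff n (f * geo a) ≤ ((n + (s + a)).choose (k + 1) : ℤ) := by
  induction n using Nat.strong_induction_on with
  | _ n ih =>
    rw [coeff_mul_geo ha f n]
    have h1 := h n
    have h3 := choose_step_upper (n + s) a k
    have h5 : (a : ℤ) * (c * coeff n f) ≤ a * (n + s).choose k :=
      mul_le_mul_of_nonneg_left h1 (by positivity)
    have h6 : (a : ℤ) * (n + s).choose k + (n + s).choose (k + 1) ≤
        (n + (s + a)).choose (k + 1) := by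
      rw [show n + (s + a) = n + s + a by ring]
      exact_mod_cast h3
    split_ifs with hn
    · have h2 := ih (n - a) (by omega)
      rw [show n - a + (s + a) = n + s by omega] at h2
      push_cast at h2 ⊢
      linarith
    · have h7 : (0 : ℤ) ≤ (n + s).choose (k + 1) := by positivity
      push_cast
      linarith

theorem lower_list : ∀ (L : List ℕ), (∀ a ∈ L, 0 < a) → ∀ n : ℕ,
    ((n + L.length).choose L.length : ℤ) ≤ (L.prod : ℕ) * coeff n (geo 1 * gprod L) := by
  intro L
  induction L with
  | nil =>
    intro _ n
    have h1 : (1 : ℤ) ≤ coeff n (geo 1) := by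
      rw [geo, coeff_mk, if_pos (one_dvd n)]
    simpa [gprod_nil] using h1
  | cons a L ih =>
    intro h n
    have h1 := lower_step (f := geo 1 * gprod L) (c := L.prod) (k := L.length)
      (h a List.mem_cons_self) (ih fun b hb => h b (List.mem_cons_of_mem _ hb)) n
    rw [List.length_cons, List.prod_cons, gprod_cons]
    rw [show geo 1 * (geo a * gprod L) = geo 1 * gprod L * geo a by ring]
    exact h1

theorem upper_list : ∀ (L : List ℕ), (∀ a ∈ L, 0 < a) → ∀ n : ℕ,
    (L.prod : ℕ) * coeff n (geo 1 * gprod L) ≤ ((n + L.sum).choose L.length : ℤ) := by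
  intro L
  induction L with
  | nil =>
    intro _ n
    have h1 : coeff n (geo 1) ≤ (1 : ℤ) := by
      rw [geo, coeff_mk, if_pos (one_dvd n)]
    simpa [gprod_nil] using h1
  | cons a L ih =>
    intro h n
    have h1 := upper_step (f := geo 1 * gprod L) (c := L.prod) (k := L.length) (s := L.sum)
      (h a List.mem_cons_self) (ih fun b hb => h b (List.mem_cons_of_mem _ hb)) n
    rw [List.length_cons, List.prod_cons, gprod_cons, List.sum_cons]
    rw [show geo 1 * (geo a * gprod L) = geo 1 * gprod L * geo a by ring,
      show n + (a + L.sum) = n + (L.sum + a) by ring]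
    exact h1

/-- the comparison of two binomial bounds persists -/
theorem choose_persist {s r R P Q n1 : ℕ} (hrR : r ≤ R) (hrs : r ≤ s)
    (h : (n1 + s).choose r * Q ≤ (n1 + R).choose R * P) :
    ∀ n, n1 ≤ n → (n + s).choose r * Q ≤ (n + R).choose R * P := by
  intro n hn
  induction n, hn using Nat.le_induction with
  | base => exact h
  | succ n _ ih =>
    -- (n+1+s).choose r * (n+1+s-r) = (n+s).choose r * (n+1+s)
    have e1 : (n + 1 + s).choose r * (n + 1 + s - r) = (n + s).choose r * (n + 1 + s) := by
      have h1 := Nat.choose_mul_succ_eq (n + s) r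
      rw [show n + 1 + s = n + s + 1 by ring]
      exact h1.symm
    have e2 : (n + 1 + R).choose R * (n + 1) = (n + R).choose R * (n + 1 + R) := by
      have h1 := Nat.choose_mul_succ_eq (n + R) R
      rw [show n + R + 1 - R = n + 1 by omega] at h1
      rw [show n + 1 + R = n + R + 1 by ring]
      exact h1.symm
    have hpos : 0 < (n + 1 + s - r) * (n + 1) := by
      apply Nat.mul_pos <;> omega
    refine Nat.le_of_mul_le_mul_left ?_ hpos
    have h4 : (n + 1 + s) * (n + 1) ≤ (n + 1 + R) * (n + 1 + s - r) := by
      obtain ⟨d, rfl⟩ := Nat.exists_eq_add_of_le hrs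
      obtain ⟨e, rfl⟩ := Nat.exists_eq_add_of_le hrR
      rw [show n + 1 + (r + d) - r = n + 1 + d by omega]
      nlinarith [Nat.zero_le (r * d), Nat.zero_le (e * d), Nat.zero_le (e * (n + 1))]
    calc (n + 1 + s - r) * (n + 1) * ((n + 1 + s).choose r * Q)
        = ((n + 1 + s).choose r * (n + 1 + s - r)) * (n + 1) * Q := by ring
      _ = (n + s).choose r * Q * ((n + 1 + s) * (n + 1)) := by rw [e1]; ring
      _ ≤ (n + R).choose R * P * ((n + 1 + R) * (n + 1 + s - r)) := Nat.mul_le_mul ih h4
      _ = ((n + R).choose R * (n + 1 + R)) * (n + 1 + s - r) * P := by ring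
      _ = ((n + 1 + R).choose R * (n + 1)) * (n + 1 + s - r) * P := by rw [e2]
      _ = _ := by ring

/-- comparison of two finite products for all large degrees -/
theorem base_compare {F G : List ℕ} (hF : ∀ a ∈ F, 0 < a) (hG : ∀ a ∈ G, 0 < a)
    (hlen : F.length ≤ G.length) (hsum : F.length ≤ F.sum) {n1 : ℕ}
    (h : (n1 + F.sum).choose F.length * G.prod ≤ (n1 + G.length).choose G.length * F.prod) :
    ∀ n, n1 ≤ n → coeff n (geo 1 * gprod F) ≤ coeff n (geo 1 * gprod G) := by
  intro n hn
  have h1 := choose_persist hlen hsum h n hn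
  have h2 := upper_list F hF n
  have h3 := lower_list G hG n
  have hP : 0 < F.prod := List.prod_pos hF
  have hQ : 0 < G.prod := List.prod_pos hG
  have h4 : ((n + F.sum).choose F.length : ℤ) * G.prod ≤
      (n + G.length).choose G.length * F.prod := by exact_mod_cast h1
  have hPQ : (0 : ℤ) < F.prod * G.prod := by positivity
  refine le_of_mul_le_mul_left ?_ hPQ
  calc (F.prod : ℤ) * G.prod * coeff n (geo 1 * gprod F)
      = G.prod * (F.prod * coeff n (geo 1 * gprod F)) := by ring
    _ ≤ G.prod * (n + F.sum).choose F.length := mul_le_mul_of_nonneg_left h2 (by positivity)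
    _ = (n + F.sum).choose F.length * G.prod := by ring
    _ ≤ (n + G.length).choose G.length * F.prod := h4
    _ = F.prod * (n + G.length).choose G.length := by ring
    _ ≤ F.prod * (G.prod * coeff n (geo 1 * gprod G)) :=
        mul_le_mul_of_nonneg_left h3 (by positivity)
    _ = _ := by ring

end Pool.Agent.Lib.MP_2e8272_nt.Full
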