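import Mathlib
import Pool.Agent.Lib.MP_2e8272_nt.Full.Sand
import Pool.Agent.Lib.MP_2e8272_nt.Full.Pack

/-!
# Comparison of two infinite products in all large degrees

`F` and `G` are finite products. The parts of a list of common parts are multiplied one after the
other; in each step the comparison of the coefficients in a window (done by the kernel) and the
comparison in all larger degrees give the comparison in all degrees from `lo` on. The remaining
common parts are at least `J`, where `G - F` is at least the sum of all deficits below `lo`.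
-/

namespace Pool.Agent.Lib.MP_2e8272_nt.Full

open PowerSeries Finset

/-- `F ≤ G` coefficientwise from degree `lo` on -/
def LeFrom (lo : ℕ) (F G : PowerSeries ℤ) : Prop := ∀ n, lo ≤ n → coeff n F ≤ coeff n G

theorem LeFrom.mul_geo {F G : PowerSeries ℤ} {lo n1 b : ℕ} (hb : 0 < b) (hbn : lo + b ≤ n1)
    (h : LeFrom n1 F G)
    (hw : ∀ n, lo ≤ n → n < n1 → coeff n (F * geo b) ≤ coeff n (G * geo b)) :
    LeFrom lo (F * geo b) (G * geo b) := by
  intro n
  induction n using Nat.strong_induction_on with
  | _ n ih =>
    intro hn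
    by_cases h1 : n < n1
    · exact hw n hn h1
    · rw [coeff_mul_geo hb F n, coeff_mul_geo hb G n]
      have h2 := h n (by omega)
      have h3 := ih (n - b) (by omega) (by omega)
      rw [if_pos (by omega), if_pos (by omega)]
      exact add_le_add h2 h3

/-- the kernel loop over the common parts -/
def tailLoop (v n lo mask : ℕ) : List ℕ → ℕ → ℕ → Option (ℕ × ℕ)
  | [], P, Q => some (P, Q)
  | b :: L, P, Q =>
    match mulGeo (v + 1) n mask 20 b P with
    | none => none
    | some P' =>
      match mulGeo (v + 1) n mask 20 b Q with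
      | none => none
      | some Q' =>
        match cmpFrom v n lo P' Q' with
        | true => tailLoop v n lo mask L P' Q'
        | false => none

theorem tailLoop_spec {v n lo : ℕ} (hlo : lo ≤ n) : ∀ (L : List ℕ) (P Q P' Q' : ℕ)
    (F G : PowerSeries ℤ), (∀ b ∈ L, 0 < b ∧ lo + b ≤ n) → Rep v n P F → Rep v n Q G →
    LeFrom n F G → tailLoop v n lo (maskOf v n) L P Q = some (P', Q') →
    Rep v n P' (F * gprod L) ∧ Rep v n Q' (G * gprod L) ∧
      LeFrom n (F * gprod L) (G * gprod L) := by
  intro L
  induction L with
  | nil =>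
    intro P Q P' Q' F G _ hP hQ h0 h
    rw [tailLoop] at h
    obtain ⟨h1, h2⟩ := Prod.mk.inj (Option.some.inj h)
    rw [gprod_nil, mul_one, mul_one, ← h1, ← h2]
    exact ⟨hP, hQ, h0⟩
  | cons b L ih =>
    intro P Q P' Q' F G hL hP hQ h0 h
    rw [tailLoop] at h
    split at h
    · exact absurd h (by simp)
    · rename_i P1 e1
      split at h
      · exact absurd h (by simp)
      · rename_i Q1 e2
        split at h
        · rename_i e3
          obtain ⟨hb, hbn⟩ := hL b List.mem_cons_self
          have hP1 := Rep.mulGeo 20 b P P1 F hb hP e1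
          have hQ1 := Rep.mulGeo 20 b Q Q1 G hb hQ e2
          have h1 := Rep.le_of_cmpFrom hP1 hQ1 hlo e3
          have h2 : LeFrom lo (F * geo b) (G * geo b) := h0.mul_geo hb hbn fun m hm1 hm2 =>
            h1 m hm1 hm2
          have h3 := ih P1 Q1 P' Q' (F * geo b) (G * geo b)
            (fun a ha => hL a (List.mem_cons_of_mem _ ha)) hP1 hQ1
            (fun m hm => h2 m (by omega)) h
          rw [gprod_cons, ← mul_assoc, ← mul_assoc]
          exact h3
        · exact absurd h (by simp)

/-- the digit `i` -/
def digit (v P i : ℕ) : ℕ := Nat.mod (Nat.shiftRight P (Nat.mul (v + 1) i)) (Nat.pow 2 (v + 1))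

theorem Rep.digit {v n P i : ℕ} {F : PowerSeries ℤ} (h : Rep v n P F) (hi : i < n) :
    coeff i F = (Full.digit v P i : ℤ) := by
  obtain ⟨f, h1, h2, h3⟩ := h
  rw [h1 i hi]
  have h4 : Full.digit v P i = (P >>> ((v + 1) * i)) % 2 ^ (v + 1) := rfl
  rw [h4, h3, pk_shiftRight hi.le fun k hk => lt_two_pow_succ (h2 k hk)]
  obtain ⟨b, hb⟩ := Nat.exists_eq_add_of_lt hi
  have h5 : pk (v + 1) (fun k => f (i + k)) (n - i) % 2 ^ ((v + 1) * 1) =
      pk (v + 1) (fun k => f (i + k)) 1 := by
    rw [show n - i = 1 + b by omega]
    refine pk_mod fun k hk => ?_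
    exact lt_two_pow_succ (h2 _ (by omega))
  rw [mul_one] at h5
  rw [h5, pk]
  simp

theorem coeff_mul_geo_one (F : PowerSeries ℤ) (n : ℕ) :
    coeff n (F * geo 1) = ∑ j ∈ range (n + 1), coeff j F := by
  induction n with
  | zero =>
    rw [coeff_mul_geo Nat.one_pos]
    simp
  | succ n ih =>
    rw [coeff_mul_geo Nat.one_pos, if_pos (by omega), Nat.add_sub_cancel, ih,
      Finset.sum_range_succ _ (n + 1)]
    ring

/-- packed sum with overflow check -/
theorem Rep.add {v n P Q : ℕ} {F G : PowerSeries ℤ} (hP : Rep v n P F) (hQ : Rep v n Q G)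
    (hm : Nat.land (Nat.add P Q) (maskOf v n) = 0) : Rep v n (Nat.add P Q) (F + G) := by
  obtain ⟨f, f1, f2, f3⟩ := hP
  obtain ⟨g, g1, g2, g3⟩ := hQ
  have e : Nat.add P Q = pk (v + 1) (fun i => f i + g i) n := by
    change P + Q = _
    rw [f3, g3]
    simp only [pk, ← Finset.sum_add_distrib, ← add_mul]
  refine ⟨fun i => f i + g i, ?_, ?_, e⟩
  · intro i hi
    rw [map_add, f1 i hi, g1 i hi]
    push_cast
    rfl
  · refine lt_of_land_mask ?_ (by rw [← e]; exact hm)
    intro i hi
    have h1 := f2 i hi
    have h2 := g2 i hi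
    change f i + g i < 2 ^ (v + 1)
    rw [pow_succ]
    omega

/-- the constant series with digits `K` -/
theorem Rep.const {v n K : ℕ} (hK : K < 2 ^ v) :
    Rep v n (Nat.div (Nat.mul K (maskOf v n)) (Nat.pow 2 v)) (PowerSeries.C (K : ℤ) * geo 1) := by
  refine ⟨fun _ => K, ?_, fun _ _ => hK, ?_⟩
  · intro i _
    rw [coeff_C_mul, geo, coeff_mk, if_pos (one_dvd i), mul_one]
  · change K * maskOf v n / 2 ^ v = _
    rw [maskOf_eq, pk, pk]
    apply Nat.div_eq_of_eq_mul_left (by positivity)
    rw [Finset.mul_sum, Finset.sum_mul]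
    exact Finset.sum_congr rfl fun i _ => by ring

/-- payment: common parts `≥ J` -/
theorem payment {F G : PowerSeries ℤ} (hF : Nn F) (hG : Nn G) {lo J : ℕ} (hloJ : lo ≤ J)
    (h1 : LeFrom lo F G)
    (h2 : ∀ n, J ≤ n → coeff n F + ∑ j ∈ range lo, coeff j F ≤ coeff n G)
    (B : Finset ℕ) (hB : ∀ b ∈ B, J ≤ b ∧ 0 < b) :
    LeFrom lo (F * ∏ b ∈ B, geo b) (G * ∏ b ∈ B, geo b) := by
  classical
  set K : ℤ := ∑ j ∈ range lo, coeff j F with hK
  have key : ∀ B : Finset ℕ, (∀ b ∈ B, J ≤ b ∧ 0 < b) →
      (∀ n, n < lo → coeff n ((G - F) * ∏ b ∈ B, geo b) = coeff n (G - F)) ∧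
      (∀ n, lo ≤ n → 0 ≤ coeff n ((G - F) * ∏ b ∈ B, geo b)) ∧
      (∀ n, J ≤ n → K - ∑ b ∈ B.filter (fun b => b ≤ n ∧ n - b < lo), coeff (n - b) F ≤
        coeff n ((G - F) * ∏ b ∈ B, geo b)) := by
    intro B
    induction B using Finset.induction_on with
    | empty =>
      intro _
      refine ⟨fun n _ => by simp, fun n hn => ?_, fun n hn => ?_⟩
      · have := h1 n hn
        simp only [Finset.prod_empty, mul_one, map_sub]
        linarith
      · have := h2 n hn
        simp only [Finset.prod_empty, mul_one, map_sub, Finset.filter_empty, Finset.sum_empty]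
        linarith
    | insert b B hb ih =>
      intro hB
      obtain ⟨i1, i2, i3⟩ := ih fun c hc => hB c (Finset.mem_insert_of_mem hc)
      obtain ⟨hbJ, hb0⟩ := hB b (Finset.mem_insert_self _ _)
      have e : (G - F) * ∏ c ∈ insert b B, geo c = ((G - F) * ∏ c ∈ B, geo c) * geo b := by
        rw [Finset.prod_insert hb]; ring
      rw [e]
      set D := (G - F) * ∏ c ∈ B, geo c with hD
      have c1 : ∀ n, n < lo → coeff n (D * geo b) = coeff n (G - F) := by
        intro n hn
        rw [coeff_mul_geo hb0, if_neg (by omega), add_zero]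
        exact i1 n hn
      have bound : ∀ n, ∑ c ∈ (insert b B).filter (fun c => c ≤ n ∧ n - c < lo),
          coeff (n - c) F ≤ K := by
        intro n
        have hinj : Set.InjOn (fun c => n - c)
            ((insert b B).filter (fun c => c ≤ n ∧ n - c < lo) : Finset ℕ) := by
          intro x hx y hy hxy
          rw [Finset.mem_coe, Finset.mem_filter] at hx hy
          have hxy' : n - x = n - y := hxy
          omega
        rw [← Finset.sum_image (f := fun j => coeff j F) hinj]
        refine Finset.sum_le_sum_of_subset_of_nonneg ?_ fun j _ _ => hF j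
        intro j hj
        obtain ⟨c, hc, rfl⟩ := Finset.mem_image.mp hj
        exact Finset.mem_range.mpr (Finset.mem_filter.mp hc).2.2
      have c2 : ∀ n, (lo ≤ n → 0 ≤ coeff n (D * geo b)) ∧ (J ≤ n →
          K - ∑ c ∈ (insert b B).filter (fun c => c ≤ n ∧ n - c < lo), coeff (n - c) F ≤
            coeff n (D * geo b)) := by
        intro n
        induction n using Nat.strong_induction_on with
        | _ n ihn =>
          have c3 : J ≤ n → K - ∑ c ∈ (insert b B).filter (fun c => c ≤ n ∧ n - c < lo),
              coeff (n - c) F ≤ coeff n (D * geo b) := by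
            intro hn
            have h3 := i3 n hn
            rw [coeff_mul_geo hb0]
            by_cases hbn : b ≤ n
            · rw [if_pos hbn]
              by_cases hl : n - b < lo
              · rw [Finset.filter_insert, if_pos ⟨hbn, hl⟩, Finset.sum_insert (by
                  intro h5
                  exact hb (Finset.mem_filter.mp h5).1), c1 _ hl]
                have h4 := hG (n - b)
                rw [map_sub]
                linarith
              · rw [Finset.filter_insert, if_neg (by tauto)]
                have h4 := (ihn (n - b) (by omega)).1 (by omega)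
                linarith
            · rw [if_neg hbn, Finset.filter_insert, if_neg (by tauto)]
              linarith
          refine ⟨fun hn => ?_, c3⟩
          by_cases hJ : J ≤ n
          · have h3 := c3 hJ
            have h4 := bound n
            linarith
          · rw [coeff_mul_geo hb0, if_neg (by omega), add_zero]
            exact i2 n hn
      exact ⟨c1, fun n hn => (c2 n).1 hn, fun n hn => (c2 n).2 hn⟩
  intro n hn
  have := (key B hB).2.1 n hn
  rw [sub_mul, map_sub] at this
  linarith

end Pool.Agent.Lib.MP_2e8272_nt.Full
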