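import Mathlib
import Pool.Agent.Lib.MP_2e8272_nt.Full.Tail

/-!
# The counting condition, checked by the kernel
-/

namespace Pool.Agent.Lib.MP_2e8272_nt.Full

open PowerSeries Finset

/-- add `X ^ t` for all `t < n` in a list -/
def addTok (v n mask : ℕ) : List ℕ → ℕ → Option ℕ
  | [], P => some P
  | t :: L, P =>
    match Nat.ble n t with
    | true => addTok v n mask L P
    | false =>
      match Nat.beq (Nat.land (Nat.add P (Nat.shiftLeft 1 (Nat.mul (v + 1) t))) mask) 0 with
      | true => addTok v n mask L (Nat.add P (Nat.shiftLeft 1 (Nat.mul (v + 1) t)))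
      | false => none

theorem Rep.X_pow {v n t : ℕ} (hv : 0 < v) (ht : t < n) :
    Rep v n (Nat.shiftLeft 1 (Nat.mul (v + 1) t)) (X ^ t) := by
  refine ⟨fun i => if i = t then 1 else 0, ?_, ?_, ?_⟩
  · intro i _
    rw [coeff_X_pow]
    by_cases h : i = t
    · simp [h]
    · simp [h]
  · intro i _
    change (if i = t then 1 else 0) < 2 ^ v
    have : 1 < 2 ^ v := Nat.one_lt_two_pow (by omega)
    split_ifs <;> omega
  · have h1 : Nat.shiftLeft 1 (Nat.mul (v + 1) t) = 1 <<< ((v + 1) * t) := rfl
    rw [h1, Nat.one_shiftLeft, pk, Finset.sum_eq_single t]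
    · simp
    · intro b _ hb
      rw [if_neg hb, zero_mul]
    · intro h
      exact absurd (Finset.mem_range.mpr ht) h

theorem Rep.addTok {v n : ℕ} (hv : 0 < v) : ∀ (L : List ℕ) (P P' : ℕ) (F : PowerSeries ℤ),
    Rep v n P F → addTok v n (maskOf v n) L P = some P' →
    Rep v n P' (F + (L.map fun t => (X : PowerSeries ℤ) ^ t).sum) := by
  intro L
  induction L with
  | nil =>
    intro P P' F hP h
    rw [Full.addTok] at h
    rw [List.map_nil, List.sum_nil, add_zero, ← Option.some.inj h]
    exact hP
  | cons t L ih =>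
    intro P P' F hP h
    rw [Full.addTok] at h
    rw [List.map_cons, List.sum_cons]
    split at h
    · rename_i hb
      have ht : n ≤ t := Nat.le_of_ble_eq_true hb
      refine (ih P P' F hP h).congr fun i hi => ?_
      rw [map_add, map_add, map_add, coeff_X_pow, if_neg (by omega), zero_add]
    · rename_i hb
      have ht : t < n := by
        by_contra h3
        exact Bool.false_ne_true (hb.symm.trans (Nat.ble_eq_true_of_le (by omega)))
      split at h
      · rename_i hc
        have h1 := hP.add (Rep.X_pow hv ht) (Nat.eq_of_beq_eq_true hc)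
        have h2 := ih _ P' _ h1 h
        rw [add_assoc] at h2
        exact h2
      · exact absurd h (by simp)

theorem coeff_tok (L : List ℕ) (x : ℕ) :
    coeff x ((L.map fun t => (X : PowerSeries ℤ) ^ t).sum * geo 1) =
      (L.countP (fun t => decide (t ≤ x)) : ℤ) := by
  induction L with
  | nil => simp
  | cons t L ih =>
    rw [List.map_cons, List.sum_cons, add_mul, map_add, ih, List.countP_cons,
      coeff_X_pow_mul']
    by_cases h : t ≤ x
    · rw [if_pos h, geo, coeff_mk, if_pos (one_dvd _)]
      simp [h]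
      ring
    · rw [if_neg h]
      simp [h]

/-- the list of tokens and targets below `n` -/
def tokList (tv : ℕ → ℕ) (iv : ℕ → Bool) (n : ℕ) : ℕ → List ℕ
  | 0 => []
  | m + 1 =>
    (match Nat.beq (tv (m + 1)) 0 with
      | true => n
      | false => tv (m + 1)) ::
    (match iv (m + 1) with
      | true => m + 1
      | false => n) :: tokList tv iv n m

theorem countP_tokList (tv : ℕ → ℕ) (iv : ℕ → Bool) (n x : ℕ) (hx : x < n) (N : ℕ) :
    (tokList tv iv n N).countP (fun t => decide (t ≤ x)) =
      ((Icc 1 N).filter (fun m => tv m ≠ 0 ∧ tv m ≤ x)).card +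
        ((Icc 1 N).filter (fun m => iv m = true ∧ m ≤ x)).card := by
  induction N with
  | zero => simp [tokList]
  | succ N ih =>
    have e1 : Icc 1 (N + 1) = insert (N + 1) (Icc 1 N) := by
      ext k; simp only [Finset.mem_Icc, Finset.mem_insert]; omega
    have hnot : ∀ p : ℕ → Prop, ∀ [DecidablePred p], (N + 1) ∉ (Icc 1 N).filter p := by
      intro p _ h
      have := (Finset.mem_Icc.mp (Finset.mem_filter.mp h).1).2
      omega
    have c1 : ((Icc 1 (N + 1)).filter (fun m => tv m ≠ 0 ∧ tv m ≤ x)).card =
        (if tv (N + 1) ≠ 0 ∧ tv (N + 1) ≤ x then 1 else 0) +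
          ((Icc 1 N).filter (fun m => tv m ≠ 0 ∧ tv m ≤ x)).card := by
      rw [e1, Finset.filter_insert]
      split_ifs with h
      · rw [Finset.card_insert_of_notMem (hnot _)]; ring
      · ring
    have c2 : ((Icc 1 (N + 1)).filter (fun m => iv m = true ∧ m ≤ x)).card =
        (if iv (N + 1) = true ∧ (N + 1) ≤ x then 1 else 0) +
          ((Icc 1 N).filter (fun m => iv m = true ∧ m ≤ x)).card := by
      rw [e1, Finset.filter_insert]
      split_ifs with h
      · rw [Finset.card_insert_of_notMem (hnot _)]; ring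
      · ring
    rw [c1, c2, tokList, List.countP_cons, List.countP_cons, ih]
    have d1 : (if (decide ((match Nat.beq (tv (N + 1)) 0 with
        | true => n
        | false => tv (N + 1)) ≤ x) : Bool) = true then 1 else 0) =
        (if tv (N + 1) ≠ 0 ∧ tv (N + 1) ≤ x then 1 else 0) := by
      by_cases h0 : tv (N + 1) = 0
      · rw [h0]
        have : ¬ n ≤ x := by omega
        simp [this]
      · have h1 : Nat.beq (tv (N + 1)) 0 = false := by
          cases h2 : Nat.beq (tv (N + 1)) 0
          · rfl
          · exact absurd (Nat.eq_of_beq_eq_true h2) h0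
        rw [h1]
        simp [h0]
    have d2 : (if (decide ((match iv (N + 1) with
        | true => N + 1
        | false => n) ≤ x) : Bool) = true then 1 else 0) =
        (if iv (N + 1) = true ∧ (N + 1) ≤ x then 1 else 0) := by
      have : ¬ n ≤ x := by omega
      cases h0 : iv (N + 1) <;> simp [this]
    rw [d1, d2]
    ring

/-- the kernel check of `x ≤ #tokens + #targets` for all `x < n` -/
def hallCheck (v n : ℕ) (tv : ℕ → ℕ) (iv : ℕ → Bool) : Bool :=
  match addTok v n (maskOf v n) (tokList tv iv n n) 0 with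
  | none => false
  | some P =>
    match mulGeo (v + 1) n (maskOf v n) 20 1 P with
    | none => false
    | some P1 =>
      match mulList (v + 1) n (maskOf v n) [1, 1] (Nat.shiftLeft 1 (Nat.mul (v + 1) 1)) with
      | none => false
      | some Q => cmpFrom v n 1 Q P1

theorem coeff_X_geo_geo (x : ℕ) :
    coeff x ((X : PowerSeries ℤ) ^ 1 * gprod [1, 1]) = (x : ℤ) := by
  have h1 : ∀ x : ℕ, coeff x (geo 1) = 1 := fun x => by
    rw [geo, coeff_mk, if_pos (one_dvd x)]
  have h2 : ∀ x : ℕ, coeff x (geo 1 * geo 1) = (x : ℤ) + 1 := by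
    intro x
    rw [coeff_mul_geo_one]
    simp [h1]
  rw [gprod_cons, gprod_cons, gprod_nil, mul_one, coeff_X_pow_mul']
  by_cases h : 1 ≤ x
  · rw [if_pos h, h2]
    push_cast [h]
    ring
  · rw [if_neg h]
    have : x = 0 := by omega
    simp [this]

theorem hallCheck_spec {v n : ℕ} (hv : 0 < v) (hn : 1 < n) {tv : ℕ → ℕ} {iv : ℕ → Bool}
    (h : hallCheck v n tv iv = true) : ∀ x, 0 < x → x < n →
      x ≤ ((Icc 1 n).filter (fun m => tv m ≠ 0 ∧ tv m ≤ x)).card +
        ((Icc 1 n).filter (fun m => iv m = true ∧ m ≤ x)).card := by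
  intro x hx0 hx
  rw [hallCheck] at h
  split at h
  · exact absurd h (by simp)
  · rename_i P hP
    split at h
    · exact absurd h (by simp)
    · rename_i P1 hP1
      split at h
      · exact absurd h (by simp)
      · rename_i Q hQ
        have r0 : Rep v n 0 (0 : PowerSeries ℤ) :=
          ⟨fun _ => 0, fun i _ => by simp, fun i _ => by positivity, by simp [pk]⟩
        have r1 := Rep.addTok hv _ _ _ _ r0 hP
        rw [zero_add] at r1
        have r2 := Rep.mulGeo 20 1 P P1 _ Nat.one_pos r1 hP1
        have r3 := Rep.mulList [1, 1] _ Q _ (by simp) (Rep.X_pow hv hn) hQ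
        have h4 := Rep.le_of_cmpFrom r3 r2 hn.le h x hx0 hx
        rw [coeff_tok, countP_tokList tv iv n x hx] at h4
        have h5 : coeff x ((X : PowerSeries ℤ) ^ 1 * (List.map geo [1, 1]).prod) = (x : ℤ) :=
          coeff_X_geo_geo x
        rw [h5] at h4
        exact_mod_cast h4

end Pool.Agent.Lib.MP_2e8272_nt.Full
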