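import Mathlib
import Pool.Agent.Lib.MP_2e8272_nt.Full.HallNum

/-!
# The counting condition for a list, checked by the kernel
-/

namespace Pool.Agent.Lib.MP_2e8272_nt.Full

open PowerSeries Finset

/-- check that at least `x` entries of the list are at most `x`, for all `0 < x < n` -/
def cntCheck (v n : ℕ) (L : List ℕ) : Bool :=
  match addTok v n (maskOf v n) L 0 with
  | none => false
  | some P =>
    match mulGeo (v + 1) n (maskOf v n) 20 1 P with
    | none => false
    | some P1 =>
      match mulList (v + 1) n (maskOf v n) [1, 1] (Nat.shiftLeft 1 (Nat.mul (v + 1) 1)) with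
      | none => false
      | some Q => cmpFrom v n 1 Q P1

theorem cntCheck_spec {v n : ℕ} (hv : 0 < v) (hn : 1 < n) {L : List ℕ}
    (h : cntCheck v n L = true) : ∀ x, 0 < x → x < n →
      x ≤ L.countP (fun t => decide (t ≤ x)) := by
  intro x hx0 hx
  rw [cntCheck] at h
  split at h
  · exact absurd h (by simp)
  · rename_i P hP
    split at h
    · exact absurd h (by simp)
    · rename_i P1 hP1
      split at h
      · exact absurd h (by simp)
      · rename_i Q hQ
        have r0 : Rep v n 0 (0 : PowerSeries ℤ) :=
          ⟨fun _ => 0, fun i _ => by simp, fun i _ => by positivity, by simp [pk]⟩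
        have r1 := Rep.addTok hv _ _ _ _ r0 hP
        rw [zero_add] at r1
        have r2 := Rep.mulGeo 20 1 P P1 _ Nat.one_pos r1 hP1
        have r3 := Rep.mulList [1, 1] _ Q _ (by simp) (Rep.X_pow hv hn) hQ
        have h1 := Rep.le_of_cmpFrom r3 r2 (by omega) h x hx0 hx
        have h2 : coeff x ((X : PowerSeries ℤ) ^ 1 * (([1, 1] : List ℕ).map geo).prod) = (x : ℤ) :=
          coeff_X_geo_geo x
        rw [h2, coeff_tok] at h1
        exact_mod_cast h1

end Pool.Agent.Lib.MP_2e8272_nt.Full
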