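import Pool.Agent.Lib.MP_2e8272_nt.Full.CertB2
import Pool.Agent.Lib.MP_2e8272_nt.Full.CertBN
import Pool.Agent.Lib.MP_2e8272_nt.Full.CntB

/-!
# Certificate B: the counting condition for `0 < x ≤ 9000`
-/

namespace Pool.Agent.Lib.MP_2e8272_nt.Full.BaseB

open Full

theorem hcnt : cntCheck 14 9001
    (1 :: ((relF l (bld 11 tb) us).map Prod.snd ++ (svS ++ comL 278 3000))) = true := by
  decide +kernel

theorem hcount : ∀ x, 0 < x → x ≤ 9000 →
    x ≤ (((1, 1) :: relList l tb us).filter (fun r => decide (r.2 ≤ x))).length +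
      ((svS ++ comL 278 3000).filter (fun a => decide (a ≤ x))).length := by
  intro x hx0 hx
  have h := cntCheck_spec (by norm_num) (by norm_num) hcnt x hx0 (by omega)
  rw [hrl, ← List.cons_append, List.countP_append] at h
  have e : (1 :: (relList l tb us).map Prod.snd) = ((1, 1) :: relList l tb us).map Prod.snd := rfl
  rw [e, List.countP_map] at h
  rw [← List.countP_eq_length_filter, ← List.countP_eq_length_filter]
  exact h

end Pool.Agent.Lib.MP_2e8272_nt.Full.BaseB
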