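import Pool.Agent.Lib.MP_2e8272_nt.Full.MulB
import Pool.Agent.Lib.MP_2e8272_nt.Full.CertB1
import Pool.Agent.Lib.MP_2e8272_nt.Full.CertB2
import Pool.Agent.Lib.MP_2e8272_nt.Full.CertB3
import Pool.Agent.Lib.MP_2e8272_nt.Full.CertB4
import Pool.Agent.Lib.MP_2e8272_nt.Full.CertBN
import Pool.Agent.Lib.MP_2e8272_nt.Full.CertBH

/-!
# The inequality for `301 ≤ n < 8813`
-/

namespace Pool.Agent.Lib.MP_2e8272_nt.Full.BaseB

open Full

theorem main (m : ℕ) (h1 : 301 ≤ m) (h2 : m < 8813) : M m ≤ pSharp m :=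
  range_certB hl hrels htree htb hus hinc (N := 9000) hN hI (c := 278) (K := 3000) (by norm_num)
    (by norm_num) hcount (v := 270) (vT := 41) (e := 30) (u := 330) (n := 8813) (lo := 301)
    (m := 10) (by norm_num) (by norm_num) (by norm_num) (by norm_num) (by norm_num)
    (by norm_num) (by norm_num) (by norm_num) (by norm_num) (by decide +kernel)
    (by decide +kernel) (by decide +kernel) (by decide +kernel) (by norm_num) (by norm_num)
    (by norm_num) hnum m h1 h2

end Pool.Agent.Lib.MP_2e8272_nt.Full.BaseB
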