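import Pool.Agent.Lib.MP_2e8272_nt.Full.PS

/-!
# Graded monoids of values and the chain inequality
-/

namespace Pool.Agent.Lib.MP_2e8272_nt.Full

open PowerSeries

/-- a submonoid of `ℕ × ℕ` (degree, value), degrees are added, values multiplied, with positive
values, finite fibres, and containing `(1, 1)` -/
structure Mon (V : Set (ℕ × ℕ)) : Prop where
  one : ((0 : ℕ), (1 : ℕ)) ∈ V
  unit : ((1 : ℕ), (1 : ℕ)) ∈ V
  mul : ∀ {a b x y : ℕ}, (a, x) ∈ V → (b, y) ∈ V → (a + b, x * y) ∈ V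
  pos : ∀ {a x : ℕ}, (a, x) ∈ V → 0 < x
  fin : ∀ n : ℕ, {x | (n, x) ∈ V}.Finite

/-- the monoid obtained by adjoining a generator of degree `d` and value `r` -/
def adj (V : Set (ℕ × ℕ)) (d r : ℕ) : Set (ℕ × ℕ) :=
  {p | ∃ c a x : ℕ, (a, x) ∈ V ∧ p = (a + c * d, x * r ^ c)}

/-- number of values of degree `n` -/
noncomputable def cnt (V : Set (ℕ × ℕ)) : PowerSeries ℤ :=
  mk fun n => (({x | (n, x) ∈ V}.ncard : ℕ) : ℤ)

theorem coeff_cnt (V : Set (ℕ × ℕ)) (n : ℕ) :
    coeff n (cnt V) = (({x | (n, x) ∈ V}.ncard : ℕ) : ℤ) := coeff_mk _ _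

theorem subset_adj (V : Set (ℕ × ℕ)) (d r : ℕ) : V ⊆ adj V d r := by
  rintro ⟨a, x⟩ h
  exact ⟨0, a, x, h, by simp⟩

theorem gen_mem_adj {V : Set (ℕ × ℕ)} (hV : Mon V) (d r : ℕ) : (d, r) ∈ adj V d r :=
  ⟨1, 0, 1, hV.one, by simp⟩

theorem Mon.inc {V : Set (ℕ × ℕ)} (hV : Mon V) : Inc (cnt V) := by
  refine Inc.of_mono ?_ ?_
  · rw [coeff_cnt]; positivity
  · intro n
    rw [coeff_cnt, coeff_cnt]
    have : {x | (n, x) ∈ V} ⊆ {x | (n + 1, x) ∈ V} := by
      intro x hx
      have := hV.mul hx hV.unit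
      simpa using this
    exact_mod_cast Set.ncard_le_ncard this (hV.fin _)

/-- decomposition of a fibre of the extended monoid -/
theorem adj_fibre {V : Set (ℕ × ℕ)} {d r : ℕ} (n : ℕ) :
    {x | (n, x) ∈ adj V d r} =
      {x | (n, x) ∈ V} ∪ {x | d ≤ n ∧ ∃ y, (n - d, y) ∈ adj V d r ∧ x = y * r} := by
  ext x
  constructor
  · rintro ⟨c, a, y, hy, he⟩
    obtain ⟨h1, h2⟩ := Prod.mk.inj he
    cases c with
    | zero =>
      left
      simp only [zero_mul, add_zero, pow_zero, mul_one] at h1 h2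
      subst h1 h2
      exact hy
    | succ c =>
      right
      have h3 : n = (a + c * d) + d := by rw [h1]; ring
      refine ⟨by omega, y * r ^ c, ⟨c, a, y, hy, ?_⟩, ?_⟩
      · rw [h3]; simp
      · rw [h2]; ring
  · rintro (h | ⟨hd, y, ⟨c, a, z, hz, he⟩, rfl⟩)
    · exact subset_adj V d r h
    · obtain ⟨h1, h2⟩ := Prod.mk.inj he
      refine ⟨c + 1, a, z, hz, ?_⟩
      have h3 : n = (a + c * d) + d := by omega
      rw [h3, h2]
      ext
      · simp; ring
      · simp; ring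

theorem Mon.adj {V : Set (ℕ × ℕ)} (hV : Mon V) {d r : ℕ} (hd : 0 < d) (hr : 0 < r) :
    Mon (adj V d r) where
  one := subset_adj V d r hV.one
  unit := subset_adj V d r hV.unit
  mul := by
    rintro a b x y ⟨c, a', x', hx', he⟩ ⟨e, b', y', hy', he'⟩
    obtain ⟨h1, h2⟩ := Prod.mk.inj he
    obtain ⟨h3, h4⟩ := Prod.mk.inj he'
    refine ⟨c + e, a' + b', x' * y', hV.mul hx' hy', ?_⟩
    rw [h1, h2, h3, h4]
    ext
    · simp; ring
    · simp [pow_add]; ring
  pos := by
    rintro a x ⟨c, a', x', hx', he⟩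
    obtain ⟨h1, h2⟩ := Prod.mk.inj he
    rw [h2]
    exact Nat.mul_pos (hV.pos hx') (Nat.pow_pos hr)
  fin := by
    intro n
    induction n using Nat.strong_induction_on with
    | _ n ih =>
      rw [adj_fibre]
      refine (hV.fin n).union ?_
      by_cases hn : d ≤ n
      · refine ((ih (n - d) (by omega)).image (fun y => y * r)).subset ?_
        rintro x ⟨_, y, hy, rfl⟩
        exact ⟨y, hy, rfl⟩
      · convert Set.finite_empty
        ext x
        simp [hn]

/-- the chain inequality without a relation -/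
theorem chain_free {V : Set (ℕ × ℕ)} (hV : Mon V) {d r : ℕ} (hd : 0 < d) (hr : 0 < r) :
    Nn (cnt V - cnt (adj V d r) * (1 - X ^ d)) := by
  intro n
  rw [mul_sub, mul_one, map_sub, map_sub, coeff_mul_X_pow', coeff_cnt, coeff_cnt]
  have hfin := (hV.adj hd hr).fin
  by_cases hn : d ≤ n
  · rw [if_pos hn, coeff_cnt]
    have h1 : {x | (n, x) ∈ adj V d r}.ncard ≤
        {x | (n, x) ∈ V}.ncard + {x | (n - d, x) ∈ adj V d r}.ncard := by
      rw [adj_fibre n]
      refine (Set.ncard_union_le _ _).trans (Nat.add_le_add_left ?_ _)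
      refine le_trans (Set.ncard_le_ncard (t := (fun y => y * r) '' {x | (n - d, x) ∈ adj V d r})
        ?_ ((hfin (n - d)).image _)) (Set.ncard_image_le (hfin (n - d)))
      rintro x ⟨_, y, hy, rfl⟩
      exact ⟨y, hy, rfl⟩
    have h2 : (({x | (n, x) ∈ adj V d r}.ncard : ℕ) : ℤ) ≤
        ({x | (n, x) ∈ V}.ncard : ℤ) + ({x | (n - d, x) ∈ adj V d r}.ncard : ℤ) := by
      exact_mod_cast h1
    linarith
  · rw [if_neg hn]
    have h1 : {x | (n, x) ∈ adj V d r} = {x | (n, x) ∈ V} := by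
      rw [adj_fibre n]
      ext x
      simp [hn]
    rw [h1]
    simp

/-- the chain inequality with one relation of degree `t`: a value `v` of degree `t` of the
old monoid which is `r` times a value of degree `t - d` of the new monoid -/
theorem chain_rel {V : Set (ℕ × ℕ)} (hV : Mon V) {d r : ℕ} (hd : 0 < d) (hr : 0 < r)
    {t v w e : ℕ} (hte : t = d + e) (hv : (t, v) ∈ V) (hvw : v = w * r)
    (hw : (e, w) ∈ adj V d r) :
    Nn (cnt V * (1 - X ^ t) - cnt (adj V d r) * (1 - X ^ d)) := by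
  intro n
  by_cases ht : t ≤ n
  · rw [mul_sub, mul_one, mul_sub, mul_one, map_sub, map_sub, map_sub, coeff_mul_X_pow',
      coeff_mul_X_pow', coeff_cnt, coeff_cnt, if_pos ht, if_pos (by omega), coeff_cnt, coeff_cnt]
    have hfin := (hV.adj hd hr).fin
    have hM := hV.adj hd hr
    set B : Set ℕ := {x | d ≤ n ∧ ∃ y, (n - d, y) ∈ adj V d r ∧ x = y * r} with hB
    have hBimg : B = (fun y => y * r) '' {x | (n - d, x) ∈ adj V d r} := by
      ext x
      constructor
      · rintro ⟨_, y, hy, rfl⟩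
        exact ⟨y, hy, rfl⟩
      · rintro ⟨y, hy, rfl⟩
        exact ⟨by omega, y, hy, rfl⟩
    have hBfin : B.Finite := by
      rw [hBimg]; exact (hfin _).image _
    have hBcard : B.ncard = {x | (n - d, x) ∈ adj V d r}.ncard := by
      rw [hBimg]
      refine Set.ncard_image_of_injective _ ?_
      intro x y hxy
      exact Nat.eq_of_mul_eq_mul_right hr hxy
    have h1 := Set.ncard_union_add_ncard_inter {x | (n, x) ∈ V} B (hV.fin n) hBfin
    have h2 : {x | (n - t, x) ∈ V}.ncard ≤ ({x | (n, x) ∈ V} ∩ B).ncard := by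
      have hv0 : 0 < v := hV.pos hv
      rw [← Set.ncard_image_of_injective (f := fun y => y * v) {x | (n - t, x) ∈ V}
        (fun x y hxy => Nat.eq_of_mul_eq_mul_right hv0 hxy)]
      refine Set.ncard_le_ncard ?_ ((hV.fin n).inter_of_left _)
      rintro x ⟨y, hy, rfl⟩
      have hy' : (n - t, y) ∈ V := hy
      constructor
      · have := hV.mul hy' hv
        rw [Nat.sub_add_cancel ht] at this
        exact this
      · refine ⟨by omega, y * w, ?_, ?_⟩
        · have := hM.mul (subset_adj V d r hy') hw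
          have h3 : n - t + e = n - d := by omega
          rw [h3] at this
          exact this
        · show y * v = y * w * r
          rw [hvw]; ring
    rw [← adj_fibre n] at h1
    have h3 : (({x | (n, x) ∈ adj V d r}.ncard : ℕ) : ℤ) +
        (({x | (n, x) ∈ V} ∩ B).ncard : ℤ) =
        ({x | (n, x) ∈ V}.ncard : ℤ) + (B.ncard : ℤ) := by exact_mod_cast h1
    have h4 : (({x | (n - t, x) ∈ V}.ncard : ℕ) : ℤ) ≤ (({x | (n, x) ∈ V} ∩ B).ncard : ℤ) := by
      exact_mod_cast h2
    have h5 : (B.ncard : ℤ) = ({x | (n - d, x) ∈ adj V d r}.ncard : ℤ) := by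
      exact_mod_cast hBcard
    linarith
  · have h := chain_free hV hd hr n
    rw [mul_sub, mul_one, mul_sub, mul_one, map_sub, map_sub, coeff_mul_X_pow' (cnt V) t,
      if_neg ht]
    rw [mul_sub, mul_one, map_sub] at h
    rw [sub_zero]
    exact h

end Pool.Agent.Lib.MP_2e8272_nt.Full
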