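import Mathlib

/-!
# Counting integers without small prime factors, and a linear lower bound for the tokens
-/

namespace Pool.Agent.Lib.MP_2e8272_nt.Full

open Finset

/-- inclusion-exclusion recursion -/
def cp : List ℕ → ℕ → ℕ
  | [], y => y
  | p :: ps, y => cp ps y - cp ps (y / p)

theorem card_cop : ∀ (ps : List ℕ), (∀ p ∈ ps, p.Prime) → ps.Nodup → ∀ y : ℕ,
    ((Icc 1 y).filter (fun j => ∀ p ∈ ps, ¬ p ∣ j)).card = cp ps y := by
  intro ps
  induction ps with
  | nil => intro _ _ y; simp [cp]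
  | cons p ps ih =>
    intro hp hnd y
    have hp0 : p.Prime := hp p List.mem_cons_self
    have hps : ∀ q ∈ ps, q.Prime := fun q hq => hp q (List.mem_cons_of_mem _ hq)
    have hnd' := (List.nodup_cons.mp hnd).2
    have hnot := (List.nodup_cons.mp hnd).1
    rw [cp, ← ih hps hnd' y, ← ih hps hnd' (y / p)]
    -- the multiples of p
    have e1 : ((Icc 1 y).filter (fun j => ∀ q ∈ ps, ¬ q ∣ j)).filter (fun j => p ∣ j) =
        ((Icc 1 (y / p)).filter (fun j => ∀ q ∈ ps, ¬ q ∣ j)).image (fun j => p * j) := by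
      ext j
      simp only [Finset.mem_filter, Finset.mem_Icc, Finset.mem_image]
      constructor
      · rintro ⟨⟨⟨h1, h2⟩, h3⟩, ⟨i, rfl⟩⟩
        refine ⟨i, ⟨⟨?_, ?_⟩, fun q hq hqi => h3 q hq (Dvd.dvd.mul_left hqi p)⟩, rfl⟩
        · rcases Nat.eq_zero_or_pos i with h0 | h0
          · subst h0; simp at h1
          · exact h0
        · rw [Nat.le_div_iff_mul_le hp0.pos, mul_comm]; exact h2
      · rintro ⟨i, ⟨⟨h1, h2⟩, h3⟩, rfl⟩
        refine ⟨⟨⟨Nat.mul_pos hp0.pos h1, ?_⟩, ?_⟩, Dvd.intro i rfl⟩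
        · rw [Nat.le_div_iff_mul_le hp0.pos, mul_comm] at h2; exact h2
        · intro q hq hqi
          rcases (hps q hq).dvd_mul.mp hqi with h4 | h4
          · have := (Nat.prime_dvd_prime_iff_eq (hps q hq) hp0).mp h4
            subst this
            exact hnot hq
          · exact h3 q hq h4
    have e2 : (((Icc 1 y).filter (fun j => ∀ q ∈ ps, ¬ q ∣ j)).filter (fun j => p ∣ j)).card =
        ((Icc 1 (y / p)).filter (fun j => ∀ q ∈ ps, ¬ q ∣ j)).card := by
      rw [e1]
      apply Finset.card_image_of_injective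
      intro a b hab
      exact Nat.eq_of_mul_eq_mul_left hp0.pos hab
    have e3 := Finset.card_filter_add_card_filter_not
      (s := (Icc 1 y).filter (fun j => ∀ q ∈ ps, ¬ q ∣ j)) (fun j => p ∣ j)
    have e4 : (Icc 1 y).filter (fun j => ∀ q ∈ p :: ps, ¬ q ∣ j) =
        ((Icc 1 y).filter (fun j => ∀ q ∈ ps, ¬ q ∣ j)).filter (fun j => ¬ p ∣ j) := by
      ext j
      simp only [Finset.mem_filter, List.mem_cons, forall_eq_or_imp]
      tauto
    rw [e4]
    omega

/-- the product of `p - 1` -/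
def ph (ps : List ℕ) : ℕ := (ps.map (fun p => p - 1)).prod

/-- error terms of the two bounds, scaled by the product of the primes -/
def lu : List ℕ → ℕ × ℕ
  | [] => (0, 0)
  | p :: ps => (p * ((lu ps).1 + (lu ps).2), p * ((lu ps).1 + (lu ps).2) + ph ps * (p - 1))

theorem cp_bounds : ∀ (ps : List ℕ), (∀ p ∈ ps, p.Prime) → ps.Nodup → ∀ y : ℕ,
    (ph ps * y : ℤ) - (lu ps).1 ≤ ps.prod * cp ps y ∧
      (ps.prod * cp ps y : ℤ) ≤ ph ps * y + (lu ps).2 := by
  intro ps
  induction ps with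
  | nil => intro _ _ y; simp [cp, ph, lu]
  | cons p ps ih =>
    intro hp hnd y
    have hp0 : p.Prime := hp p List.mem_cons_self
    have hps : ∀ q ∈ ps, q.Prime := fun q hq => hp q (List.mem_cons_of_mem _ hq)
    have hnd' := (List.nodup_cons.mp hnd).2
    obtain ⟨a1, a2⟩ := ih hps hnd' y
    obtain ⟨b1, b2⟩ := ih hps hnd' (y / p)
    have hle : cp ps (y / p) ≤ cp ps y := by
      rw [← card_cop ps hps hnd', ← card_cop ps hps hnd']
      refine Finset.card_le_card (Finset.filter_subset_filter _ ?_)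
      exact Finset.Icc_subset_Icc_right (Nat.div_le_self y p)
    have e1 : ((cp (p :: ps) y : ℕ) : ℤ) = cp ps y - cp ps (y / p) := by
      rw [cp]; exact Nat.cast_sub hle
    have hp1 : 1 ≤ p := hp0.one_le
    have e2 : ((ph (p :: ps) : ℕ) : ℤ) = (p - 1) * ph ps := by
      have h0 : ph (p :: ps) = (p - 1) * ph ps := by simp [ph]
      rw [h0]
      push_cast [hp1]
      ring
    have e3 : (((p :: ps).prod : ℕ) : ℤ) = p * (ps.prod : ℕ) := by
      rw [List.prod_cons]; push_cast; ring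
    have h1 : (p : ℤ) * (y / p : ℕ) ≤ y := by
      exact_mod_cast Nat.mul_div_le y p
    have h2 : (y : ℤ) ≤ p * (y / p : ℕ) + (p - 1) := by
      have h3 := Nat.lt_mul_div_succ y hp0.pos
      have h4 : (y : ℤ) < p * ((y / p : ℕ) + 1) := by exact_mod_cast h3
      linarith
    have hph : (0 : ℤ) ≤ ph ps := by positivity
    have hpp : (0 : ℤ) ≤ p := by positivity
    have m1 := mul_le_mul_of_nonneg_left a1 hpp
    have m2 := mul_le_mul_of_nonneg_left a2 hpp
    have m3 := mul_le_mul_of_nonneg_left b1 hpp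
    have m4 := mul_le_mul_of_nonneg_left b2 hpp
    have m5 := mul_le_mul_of_nonneg_left h1 hph
    have m6 := mul_le_mul_of_nonneg_left h2 hph
    rw [e1, e2, e3]
    have l1 : (((lu (p :: ps)).1 : ℕ) : ℤ) = p * ((lu ps).1 + (lu ps).2) := by
      rw [lu]; push_cast; ring
    have l2 : (((lu (p :: ps)).2 : ℕ) : ℤ) =
        p * ((lu ps).1 + (lu ps).2) + ph ps * (p - 1) := by
      rw [lu]; push_cast [hp1]; ring
    rw [l1, l2]
    constructor
    · nlinarith [m1, m4, m5]
    · nlinarith [m2, m3, m6]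

end Pool.Agent.Lib.MP_2e8272_nt.Full
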