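import Pool.Agent.Lib.MP_2e8272_nt.Full.TreeNum

/-!
# Certificate data: base generators, relations, decision tree
-/

namespace Pool.Agent.Lib.MP_2e8272_nt.Full.BaseA

open Full

/-- generators (degree, value) -/
def l : List (ℕ × ℕ) := [(2,2),
  (3,6),
  (4,24),
  (5,120),
  (6,720),
  (7,5040),
  (8,40320),
  (9,362880),
  (10,3628800),
  (11,39916800),
  (12,479001600),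
  (13,6227020800),
  (14,87178291200),
  (15,1307674368000),
  (16,20922789888000)]

/-- weight: lexicographic order, the unit first -/
def w (i : ℕ) : ℕ := if i = 15 then 2 ^ 96 else 2 ^ (90 - 6 * i)

def r0 : List (Mo × Mo) := [([(0,2),(1,1)],[(2,1),(15,3)]),
  ([(1,1),(3,1)],[(4,1),(15,2)]),
  ([(0,2),(4,1)],[(2,1),(3,1),(15,1)]),
  ([(4,1),(5,1)],[(8,1),(15,3)]),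
  ([(0,3),(5,1)],[(6,1),(15,5)]),
  ([(0,1),(2,1),(5,1)],[(1,1),(6,1),(15,2)]),
  ([(1,1),(2,1),(5,1)],[(0,1),(7,1),(15,3)]),
  ([(1,2),(6,1)],[(0,2),(7,1),(15,1)]),
  ([(2,2),(5,1)],[(0,3),(7,1)]),
  ([(0,1),(1,2),(5,1)],[(7,1),(15,6)]),
  ([(2,1),(9,1)],[(0,1),(10,1),(15,1)]),
  ([(0,1),(1,1),(8,1)],[(3,1),(7,1),(15,1)]),
  ([(2,1),(3,1),(5,1)],[(0,2),(8,1),(15,2)]),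
  ([(0,1),(3,1),(7,1)],[(2,1),(8,1),(15,2)]),
  ([(0,1),(1,1),(9,1)],[(10,1),(15,4)]),
  ([(0,3),(8,1)],[(4,1),(6,1),(15,2)]),
  ([(0,4),(7,1)],[(1,1),(2,1),(6,1),(15,2)]),
  ([(1,1),(4,1),(6,1)],[(0,1),(2,1),(8,1),(15,1)]),
  ([(1,1),(2,1),(8,1)],[(0,1),(4,1),(7,1)]),
  ([(0,1),(4,1),(9,1)],[(3,1),(10,1),(15,2)])]

def r1 : List (Mo × Mo) := [([(3,2),(7,1)],[(0,1),(4,1),(8,1),(15,1)]),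
  ([(5,1),(11,1)],[(2,1),(13,1),(15,1)]),
  ([(0,1),(3,1),(12,1)],[(14,1),(15,5)]),
  ([(0,1),(2,1),(3,1),(8,1)],[(4,2),(6,1),(15,1)]),
  ([(0,3),(13,1)],[(3,1),(12,1),(15,2)]),
  ([(0,1),(2,1),(13,1)],[(4,1),(12,1),(15,1)]),
  ([(6,1),(11,1)],[(0,1),(1,1),(14,1)]),
  ([(1,1),(5,1),(10,1)],[(7,1),(9,1),(15,2)]),
  ([(0,1),(4,1),(12,1)],[(1,1),(14,1),(15,3)]),
  ([(2,1),(3,1),(12,1)],[(0,1),(1,1),(14,1),(15,2)]),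
  ([(2,2),(13,1)],[(1,2),(14,1),(15,1)]),
  ([(0,2),(5,1),(10,1)],[(1,1),(6,1),(9,1),(15,1)]),
  ([(2,1),(4,1),(12,1)],[(0,1),(1,2),(14,1)]),
  ([(0,2),(7,1),(9,1)],[(2,1),(5,1),(10,1),(15,1)]),
  ([(3,1),(5,1),(10,1)],[(0,1),(8,1),(9,1),(15,1)]),
  ([(3,1),(7,1),(9,1)],[(8,1),(10,1),(15,3)]),
  ([(2,1),(4,1),(13,1)],[(8,1),(11,1),(15,2)]),
  ([(0,1),(6,1),(13,1)],[(5,1),(14,1),(15,2)]),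
  ([(1,3),(14,1)],[(0,1),(7,1),(11,1),(15,1)]),
  ([(4,1),(7,1),(9,1)],[(1,1),(8,1),(10,1),(15,1)])]

def r2 : List (Mo × Mo) := [([(1,1),(5,1),(14,1)],[(0,1),(8,1),(12,1)]),
  ([(4,2),(12,1)],[(0,1),(8,1),(11,1),(15,1)]),
  ([(1,1),(6,1),(13,1)],[(8,1),(12,1),(15,2)]),
  ([(3,1),(5,1),(12,1)],[(6,1),(13,1),(15,3)]),
  ([(1,2),(4,1),(12,1)],[(7,1),(11,1),(15,4)]),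
  ([(0,2),(8,1),(11,1)],[(1,1),(4,1),(14,1),(15,2)]),
  ([(3,1),(6,1),(12,1)],[(0,2),(5,1),(14,1)]),
  ([(1,2),(4,1),(14,1)],[(2,1),(8,1),(11,1),(15,1)]),
  ([(0,2),(8,1),(12,1)],[(2,1),(6,1),(13,1),(15,1)]),
  ([(0,3),(7,1),(11,1)],[(1,2),(2,1),(14,1),(15,2)]),
  ([(2,1),(8,1),(12,1)],[(7,1),(14,1),(15,3)]),
  ([(0,2),(7,1),(13,1)],[(1,1),(8,1),(12,1),(15,1)]),
  ([(3,1),(4,1),(6,1),(7,1)],[(0,2),(2,1),(8,2)]),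
  ([(2,2),(3,2),(8,1)],[(0,1),(4,3),(6,1)]),
  ([(4,1),(6,1),(12,1)],[(2,1),(5,1),(14,1),(15,1)]),
  ([(4,2),(6,1),(7,1)],[(2,2),(8,2),(15,1)]),
  ([(4,1),(6,1),(13,1)],[(3,1),(8,1),(12,1)]),
  ([(1,2),(8,1),(12,1)],[(2,1),(7,1),(13,1),(15,2)]),
  ([(4,1),(9,1),(12,1)],[(0,2),(10,1),(13,1)]),
  ([(4,2),(6,1),(9,1)],[(0,2),(3,1),(8,1),(10,1)])]

def r3 : List (Mo × Mo) := [([(3,1),(10,1),(12,1)],[(1,1),(9,1),(14,1),(15,1)]),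
  ([(2,1),(3,1),(8,1),(11,1)],[(1,1),(4,2),(14,1),(15,1)]),
  ([(2,1),(3,1),(6,1),(13,1)],[(0,1),(8,1),(14,1),(15,4)]),
  ([(0,1),(7,1),(9,2)],[(5,1),(10,2),(15,2)]),
  ([(1,2),(9,1),(14,1)],[(4,1),(10,1),(12,1),(15,1)]),
  ([(2,1),(3,1),(7,1),(13,1)],[(1,1),(4,1),(8,1),(12,1)]),
  ([(0,2),(5,2),(14,1)],[(6,2),(13,1),(15,3)]),
  ([(2,1),(5,2),(14,1)],[(6,1),(8,1),(12,1),(15,2)]),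
  ([(3,1),(4,1),(7,1),(12,1)],[(1,2),(8,1),(14,1),(15,2)]),
  ([(1,1),(2,1),(10,1),(13,1)],[(7,1),(9,1),(11,1),(15,1)]),
  ([(0,1),(4,1),(10,1),(13,1)],[(8,1),(9,1),(11,1),(15,1)]),
  ([(1,1),(6,1),(8,1),(12,1)],[(0,1),(5,1),(7,1),(14,1),(15,1)]),
  ([(1,1),(4,1),(10,1),(12,1)],[(0,1),(7,1),(9,1),(11,1)]),
  ([(2,1),(3,1),(10,1),(13,1)],[(0,1),(8,1),(9,1),(11,1)]),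
  ([(0,1),(8,1),(9,1),(12,1)],[(6,1),(10,1),(13,1),(15,2)]),
  ([(3,1),(5,1),(7,1),(14,1)],[(2,1),(6,1),(8,1),(13,1)]),
  ([(3,1),(6,1),(7,1),(13,1)],[(0,1),(8,2),(12,1),(15,1)]),
  ([(2,1),(5,1),(10,1),(13,1)],[(1,1),(8,1),(9,1),(12,1)]),
  ([(3,2),(12,2)],[(0,2),(13,1),(14,1),(15,3)]),
  ([(0,1),(4,2),(7,1),(13,1)],[(1,1),(8,2),(11,1),(15,2)])]

def r4 : List (Mo × Mo) := [([(0,1),(8,1),(10,1),(12,1)],[(7,1),(9,1),(14,1),(15,2)]),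
  ([(0,1),(8,1),(11,1),(12,1)],[(1,1),(2,1),(13,1),(14,1),(15,1)]),
  ([(3,1),(4,1),(12,2)],[(2,1),(13,1),(14,1),(15,4)]),
  ([(0,1),(1,2),(13,1),(14,1)],[(8,1),(11,1),(12,1),(15,2)]),
  ([(0,1),(2,1),(8,2),(11,1)],[(4,2),(7,1),(14,1),(15,2)]),
  ([(2,1),(6,1),(10,1),(13,1)],[(0,1),(7,1),(9,1),(14,1),(15,1)]),
  ([(3,1),(6,1),(10,1),(13,1)],[(8,1),(9,1),(14,1),(15,3)]),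
  ([(3,1),(7,1),(11,1),(12,1)],[(1,2),(2,1),(13,1),(14,1)]),
  ([(0,1),(1,1),(4,2),(7,1),(14,1)],[(2,2),(8,2),(11,1),(15,1)]),
  ([(1,1),(4,2),(9,1),(14,1)],[(0,1),(3,1),(8,1),(10,1),(11,1)]),
  ([(3,1),(8,1),(11,1),(12,1)],[(0,1),(1,1),(4,1),(13,1),(14,1)]),
  ([(2,1),(5,2),(10,2)],[(1,1),(6,1),(7,1),(9,2)]),
  ([(6,1),(7,1),(9,1),(13,1)],[(5,1),(8,1),(10,1),(12,1)]),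
  ([(3,1),(8,1),(12,2)],[(2,1),(5,1),(13,1),(14,1),(15,1)]),
  ([(0,1),(5,2),(10,1),(14,1)],[(6,1),(8,1),(9,1),(12,1),(15,1)]),
  ([(7,1),(9,2),(11,1)],[(0,1),(1,1),(10,2),(13,1)]),
  ([(4,1),(8,1),(12,2)],[(0,1),(7,1),(13,1),(14,1),(15,2)]),
  ([(8,1),(9,2),(11,1)],[(3,1),(10,2),(13,1),(15,1)]),
  ([(0,1),(3,2),(8,1),(10,1),(11,1)],[(4,3),(9,1),(14,1),(15,2)]),
  ([(7,1),(9,2),(14,1)],[(6,1),(10,2),(13,1)])]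

def r5 : List (Mo × Mo) := [([(8,2),(11,1),(12,1)],[(4,1),(7,1),(13,1),(14,1),(15,1)]),
  ([(3,1),(4,1),(7,1),(10,1),(13,1)],[(1,1),(8,2),(9,1),(11,1)]),
  ([(0,2),(3,1),(10,2),(13,1)],[(1,1),(4,1),(9,2),(14,1),(15,1)]),
  ([(8,1),(9,1),(11,1),(12,1)],[(1,1),(10,1),(13,1),(14,1),(15,2)]),
  ([(1,1),(8,1),(9,2),(12,1)],[(0,1),(5,1),(10,2),(13,1),(15,1)]),
  ([(0,1),(5,1),(7,1),(13,1),(14,1)],[(8,2),(12,2),(15,1)]),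
  ([(1,2),(8,2),(9,1),(11,1)],[(4,2),(7,1),(10,1),(13,1),(15,2)]),
  ([(2,1),(6,2),(13,2)],[(0,1),(5,1),(8,1),(12,1),(14,1),(15,1)]),
  ([(3,1),(4,2),(7,2),(13,1)],[(1,2),(8,3),(11,1),(15,1)]),
  ([(3,1),(4,2),(7,2),(14,1)],[(2,2),(8,3),(11,1)]),
  ([(2,1),(6,1),(7,1),(13,2)],[(1,1),(8,2),(12,2)]),
  ([(1,3),(8,3),(11,1)],[(4,3),(7,2),(13,1),(15,1)]),
  ([(1,1),(4,3),(13,1),(14,1)],[(3,1),(8,2),(11,2),(15,1)]),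
  ([(1,1),(6,1),(7,1),(9,3)],[(0,1),(5,2),(10,3),(15,1)]),
  ([(0,1),(5,3),(14,2)],[(6,3),(13,2),(15,1)]),
  ([(3,2),(8,2),(11,2)],[(4,4),(13,1),(14,1),(15,1)]),
  ([(6,1),(8,2),(12,2)],[(5,2),(7,1),(14,2),(15,1)]),
  ([(0,1),(5,1),(8,2),(12,2)],[(6,2),(7,1),(13,2),(15,2)]),
  ([(4,3),(7,1),(13,1),(14,1)],[(0,1),(8,3),(11,2)]),
  ([(6,2),(10,1),(13,2)],[(5,1),(8,1),(9,1),(12,1),(14,1)])]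

def r6 : List (Mo × Mo) := [([(0,1),(8,2),(9,1),(11,2)],[(1,1),(4,2),(10,1),(13,1),(14,1),(15,1)]),
  ([(1,1),(8,2),(9,1),(12,2)],[(5,1),(7,1),(10,1),(13,1),(14,1),(15,3)]),
  ([(4,4),(9,2),(14,1)],[(3,3),(8,1),(10,2),(11,1)]),
  ([(1,1),(8,2),(10,1),(12,2)],[(0,1),(7,2),(9,1),(13,1),(14,1),(15,1)]),
  ([(6,2),(8,1),(9,1),(12,1),(13,1)],[(5,3),(10,1),(14,2),(15,1)]),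
  ([(0,1),(5,2),(10,3),(13,1)],[(7,1),(8,1),(9,3),(12,1),(15,1)]),
  ([(0,1),(5,2),(7,1),(9,1),(14,2)],[(6,2),(8,1),(10,1),(12,1),(13,1),(15,1)]),
  ([(0,1),(3,3),(10,3),(13,1)],[(4,3),(9,3),(14,1),(15,1)]),
  ([(8,2),(9,2),(12,2)],[(5,2),(10,2),(13,1),(14,1),(15,1)]),
  ([(0,1),(5,3),(10,4)],[(6,1),(7,2),(9,4),(15,1)]),
  ([(6,1),(7,1),(8,1),(9,3),(12,1)],[(5,3),(10,3),(14,1),(15,1)]),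
  ([(1,1),(8,3),(12,3)],[(6,1),(7,2),(13,2),(14,1),(15,3)]),
  ([(6,4),(13,3)],[(5,4),(14,3),(15,1)]),
  ([(2,3),(8,4),(11,2)],[(1,1),(4,4),(7,2),(14,2),(15,1)]),
  ([(6,3),(7,1),(13,3)],[(5,2),(8,2),(12,2),(14,1)]),
  ([(8,3),(9,1),(12,3)],[(5,1),(6,1),(7,1),(10,1),(13,2),(14,1),(15,1)]),
  ([(8,3),(10,1),(12,3)],[(5,1),(7,2),(9,1),(13,1),(14,2),(15,1)]),
  ([(8,4),(12,4)],[(6,2),(7,2),(13,3),(14,1),(15,1)]),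
  ([(7,2),(8,1),(9,5),(12,1)],[(5,3),(10,5),(13,1),(15,1)]),
  ([(6,1),(7,3),(9,6)],[(5,4),(10,6),(15,1)])]

/-- relations (pattern, replacement) -/
def rels : List (List (Mo × Mo)) := [r0, r1, r2, r3, r4, r5, r6]

def u0 : Tree := .node 8 1 (.node 9 1 (.node 1 1 (.node 5 1 (.leaf [(2,17,[(1,1)]),(2,10,[(2,1)]),(0,1,[(3,1)]),(2,18,[(4,1)]),(3,11,[(6,1)]),(5,4,[(9,1)]),(1,7,[(10,1)]),(5,3,[(11,1)]),(2,0,[(14,1)]),(6,1,[(8,1),(12,1)])] [(0,1)]) (.leaf [(2,17,[(1,1)]),(2,10,[(2,1)]),(0,1,[(3,1)]),(2,18,[(4,1)]),(3,11,[(6,1)]),(5,4,[(9,1)]),(5,3,[(11,1)]),(6,1,[(8,1),(12,1)])] [(0,1),(5,1)])) (.node 3 1 (.leaf [(2,10,[(2,1)]),(2,18,[(4,1)]),(2,3,[(5,1)]),(2,6,[(6,1)]),(1,15,[(7,1)]),(3,0,[(10,1)]),(5,3,[(11,1)]),(4,13,[(12,1)])]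 [(0,1),(1,1)]) (.node 6 1 (.node 7 1 (.node 9 2 (.leaf [(2,10,[(2,1)]),(2,18,[(4,1)]),(6,10,[(9,1)]),(5,3,[(11,1)]),(4,12,[(13,1)]),(4,19,[(14,1)]),(5,16,[(8,1),(12,1)])] [(0,1),(1,1),(3,1)]) (.leaf [(2,10,[(2,1)]),(2,18,[(4,1)]),(5,3,[(11,1)]),(4,12,[(13,1)]),(5,16,[(8,1),(12,1)])] [(0,1),(1,1),(3,1),(9,1)])) (.leaf [(2,10,[(2,1)]),(2,18,[(4,1)]),(5,3,[(11,1)]),(6,4,[(6,1),(13,1)]),(5,16,[(8,1),(12,1)])] [(0,1),(1,1),(3,1),(7,1)])) (.node 9 2 (.node 7 2 (.leaf [(2,10,[(2,1)]),(2,18,[(4,1)]),(5,3,[(11,1)]),(4,19,[(14,1)]),(6,8,[(8,1),(12,1)]),(6,18,[(9,3)])] [(0,1),(1,1),(3,1),(6,1)]) (.node 7 1 (.leaf [(2,10,[(2,1)]),(2,18,[(4,1)]),(5,3,[(11,1)]),(4,19,[(14,1)]),(6,8,[(8,1),(12,1)])] [(0,1),(1,1),(3,1),(6,1),(7,1)]) (.leaf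 [(2,10,[(2,1)]),(2,18,[(4,1)]),(5,3,[(11,1)]),(6,8,[(8,1),(12,1)])] [(0,1),(1,1),(3,1),(6,1),(7,1)]))) (.leaf [(2,10,[(2,1)]),(2,18,[(4,1)]),(5,3,[(11,1)]),(6,15,[(8,2),(12,2)])] [(0,1),(1,1),(3,1),(6,1),(9,1)]))))) (.node 1 1 (.node 4 1 (.leaf [(2,17,[(1,1)]),(2,10,[(2,1)]),(0,1,[(3,1)]),(2,1,[(4,1)]),(0,3,[(5,1)]),(3,11,[(6,1)]),(3,12,[(10,1)]),(4,16,[(12,1)]),(5,0,[(8,1),(11,1)])] [(0,1),(9,1)]) (.node 5 1 (.leaf [(2,17,[(1,1)]),(2,10,[(2,1)]),(0,1,[(3,1)]),(3,11,[(6,1)]),(1,7,[(10,1)]),(1,1,[(11,1)]),(2,0,[(14,1)]),(6,11,[(8,2),(12,2)])] [(0,1),(4,1),(9,1)]) (.node 8 2 (.node 12 3 (.leaf [(2,17,[(1,1)]),(2,10,[(2,1)]),(0,1,[(3,1)]),(3,11,[(6,1)]),(6,11,[(8,1)]),(6,3,[(10,1)]),(5,0,[(11,1)])] [(0,1),(4,1),(5,1),(9,1)]) (.node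 12 2 (.leaf [(2,17,[(1,1)]),(2,10,[(2,1)]),(0,1,[(3,1)]),(3,11,[(6,1)]),(6,3,[(10,1)]),(5,0,[(11,1)])] [(0,1),(4,1),(5,1),(9,1),(12,1)]) (.leaf [(2,17,[(1,1)]),(2,10,[(2,1)]),(0,1,[(3,1)]),(3,11,[(6,1)]),(5,0,[(11,1)])] [(0,1),(4,1),(5,1),(9,1),(12,1)]))) (.leaf [(2,17,[(1,1)]),(2,10,[(2,1)]),(0,1,[(3,1)]),(3,11,[(6,1)])] [(0,1),(9,1),(4,1),(5,1),(8,1)])))) (.node 3 1 (.node 4 1 (.leaf [(2,10,[(2,1)]),(2,1,[(4,1)]),(2,3,[(5,1)]),(2,6,[(6,1)]),(3,8,[(7,1)]),(3,0,[(10,1)]),(4,10,[(11,1)]),(4,13,[(12,1)])] [(0,1),(1,1),(9,1)]) (.leaf [(2,10,[(2,1)]),(2,3,[(5,1)]),(2,6,[(6,1)]),(3,0,[(10,1)]),(4,10,[(11,1)]),(4,13,[(12,1)]),(1,0,[(3,1),(7,1)])] [(0,1),(1,1),(9,1),(4,1)])) (.node 6 2 (.node 13 3 (.node 6 3 (.leaf [(2,10,[(2,1)]),(2,14,[(4,1)]),(6,12,[(6,1)]),(6,14,[(7,1)]),(5,19,[(10,1)]),(1,6,[(11,1)]),(5,16,[(8,1),(12,1)])]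 [(0,1),(1,1),(3,1),(9,1)]) (.leaf [(2,10,[(2,1)]),(2,14,[(4,1)]),(5,19,[(10,1)]),(1,6,[(11,1)]),(5,16,[(8,1),(12,1)])] [(0,1),(1,1),(3,1),(9,1),(6,1)])) (.node 13 2 (.leaf [(2,10,[(2,1)]),(2,14,[(4,1)]),(5,19,[(10,1)]),(1,6,[(11,1)]),(5,16,[(8,1),(12,1)])] [(0,1),(1,1),(3,1),(9,1),(13,1)]) (.leaf [(2,10,[(2,1)]),(2,14,[(4,1)]),(1,6,[(11,1)]),(5,16,[(8,1),(12,1)])] [(0,1),(1,1),(3,1),(9,1),(13,2)]))) (.node 4 1 (.leaf [(2,10,[(2,1)]),(2,1,[(4,1)]),(0,3,[(5,1)]),(2,14,[(6,1)]),(4,16,[(12,1)]),(5,0,[(8,1),(11,1)])] [(0,1),(1,1),(3,1),(9,1)]) (.node 8 3 (.node 12 3 (.leaf [(2,10,[(2,1)]),(5,16,[(6,1)]),(6,16,[(10,1)]),(5,0,[(11,1)]),(6,17,[(8,1),(12,1)])] [(0,1),(1,1),(3,1),(4,1),(9,1)]) (.node 6 1 (.leaf [(2,10,[(2,1)]),(5,0,[(11,1)]),(5,16,[(12,1)])]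 [(0,1),(1,1),(3,1),(4,1),(6,1),(9,1)]) (.leaf [(2,10,[(2,1)]),(5,0,[(11,1)])] [(0,1),(1,1),(3,1),(4,1),(9,1),(12,2),(6,1)]))) (.node 6 1 (.node 8 2 (.leaf [(2,10,[(2,1)]),(1,6,[(11,1)]),(5,16,[(12,1)])] [(0,1),(1,1),(3,1),(4,1),(6,1),(8,1),(9,1)]) (.leaf [(2,10,[(2,1)]),(1,6,[(11,1)])] [(0,1),(1,1),(3,1),(4,1),(6,1),(9,1),(8,1)])) (.node 8 2 (.leaf [(2,10,[(2,1)]),(5,0,[(11,1)])] [(0,1),(1,1),(3,1),(4,1),(6,1),(8,1),(9,1)]) (.leaf [(2,10,[(2,1)]),(1,1,[(5,1),(11,1)])] [(0,1),(9,1),(1,1),(3,1),(4,1),(6,1),(8,1)]))))))))) (.node 6 1 (.node 2 1 (.node 13 1 (.node 13 2 (.leaf [(2,2,[(1,1)]),(1,10,[(2,1)]),(2,6,[(3,1)]),(2,14,[(4,1)]),(5,7,[(6,1)]),(5,10,[(7,1)]),(0,10,[(9,1)]),(4,5,[(10,1)]),(1,6,[(11,1)]),(3,7,[(5,2),(14,1)])]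 [(0,1),(8,1)]) (.leaf [(2,2,[(1,1)]),(1,10,[(2,1)]),(2,6,[(3,1)]),(2,14,[(4,1)]),(0,10,[(9,1)]),(4,5,[(10,1)]),(1,6,[(11,1)]),(3,7,[(5,2),(14,1)])] [(0,1),(8,1),(13,1)])) (.node 5 2 (.leaf [(0,6,[(1,1)]),(0,8,[(2,1)]),(2,6,[(3,1)]),(2,14,[(4,1)]),(0,10,[(9,1)]),(1,6,[(11,1)]),(3,7,[(14,1)]),(4,11,[(10,2)])] [(0,1),(8,1),(13,1)]) (.node 5 1 (.leaf [(0,6,[(1,1)]),(0,8,[(2,1)]),(2,6,[(3,1)]),(2,14,[(4,1)]),(0,10,[(9,1)]),(1,6,[(11,1)])] [(0,1),(5,1),(8,1),(13,1)]) (.leaf [(2,6,[(3,1)]),(2,14,[(4,1)]),(0,7,[(1,2)]),(0,10,[(9,1)]),(1,6,[(11,1)])] [(0,1),(8,1),(13,1),(5,1)])))) (.node 1 1 (.node 5 1 (.leaf [(0,7,[(1,1)]),(2,6,[(3,1)]),(2,14,[(4,1)]),(1,7,[(10,1)]),(1,6,[(11,1)]),(2,2,[(13,1)]),(2,0,[(14,1)]),(5,13,[(7,1),(9,3)])]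 [(0,1),(2,1),(8,1)]) (.node 7 1 (.node 9 2 (.leaf [(0,7,[(1,1)]),(2,6,[(3,1)]),(2,14,[(4,1)]),(5,13,[(9,1)]),(1,6,[(11,1)]),(2,2,[(13,1)]),(4,19,[(14,1)])] [(0,1),(2,1),(5,1),(8,1)]) (.leaf [(0,7,[(1,1)]),(2,6,[(3,1)]),(2,14,[(4,1)]),(1,6,[(11,1)]),(2,2,[(13,1)])] [(0,1),(2,1),(5,1),(8,1),(9,2)])) (.leaf [(0,7,[(1,1)]),(2,6,[(3,1)]),(2,14,[(4,1)]),(1,6,[(11,1)]),(2,2,[(13,1)])] [(0,1),(2,1),(8,1),(5,1),(7,1)]))) (.node 7 1 (.node 9 2 (.leaf [(2,6,[(3,1)]),(2,14,[(4,1)]),(1,6,[(11,1)]),(4,12,[(13,1)]),(4,19,[(14,1)]),(6,19,[(7,2),(9,4)])] [(0,1),(1,1),(2,1),(8,1)]) (.node 13 2 (.node 6 3 (.leaf [(2,6,[(3,1)]),(2,14,[(4,1)]),(4,12,[(9,1)]),(5,19,[(10,1)]),(1,6,[(11,1)]),(6,14,[(13,1)])] [(0,1),(1,1),(2,1),(8,1)]) (.node 6 2 (.leaf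 [(2,6,[(3,1)]),(2,14,[(4,1)]),(4,12,[(9,1)]),(5,19,[(10,1)]),(1,6,[(11,1)])] [(0,1),(1,1),(2,1),(6,1),(8,1)]) (.leaf [(2,6,[(3,1)]),(2,14,[(4,1)]),(4,12,[(9,1)]),(1,6,[(11,1)])] [(0,1),(1,1),(2,1),(8,1),(6,1)]))) (.node 9 1 (.leaf [(2,6,[(3,1)]),(2,14,[(4,1)]),(1,6,[(11,1)]),(4,12,[(13,1)])] [(0,1),(1,1),(2,1),(8,1),(9,1)]) (.leaf [(2,6,[(3,1)]),(2,14,[(4,1)]),(1,6,[(11,1)])] [(0,1),(1,1),(2,1),(8,1),(13,2),(9,1)])))) (.node 6 4 (.node 13 2 (.leaf [(2,6,[(3,1)]),(2,14,[(4,1)]),(5,19,[(10,1)]),(1,6,[(11,1)]),(6,12,[(13,1)])] [(0,1),(1,1),(2,1),(7,1),(8,1)]) (.leaf [(2,6,[(3,1)]),(2,14,[(4,1)]),(1,6,[(11,1)])] [(0,1),(1,1),(2,1),(7,1),(8,1),(13,2)])) (.node 6 2 (.leaf [(2,6,[(3,1)]),(2,14,[(4,1)]),(1,6,[(11,1)]),(5,19,[(10,1),(13,2)])]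 [(0,1),(1,1),(2,1),(7,1),(8,1),(6,2)]) (.leaf [(2,6,[(3,1)]),(2,14,[(4,1)]),(1,6,[(11,1)])] [(0,1),(8,1),(2,1),(1,1),(7,1),(6,1)])))))) (.node 2 1 (.node 5 1 (.node 5 2 (.node 10 1 (.leaf [(0,6,[(1,1)]),(0,8,[(2,1)]),(1,9,[(3,1)]),(1,12,[(4,1)]),(0,10,[(9,1)]),(4,11,[(10,1)]),(1,1,[(11,1)]),(3,17,[(13,1)]),(3,7,[(14,1)])] [(0,1),(6,1),(8,1)]) (.leaf [(0,6,[(1,1)]),(0,8,[(2,1)]),(1,9,[(3,1)]),(1,12,[(4,1)]),(0,10,[(9,1)]),(1,1,[(11,1)]),(3,7,[(14,1)])] [(0,1),(6,1),(8,1),(10,1)])) (.leaf [(0,6,[(1,1)]),(0,8,[(2,1)]),(1,9,[(3,1)]),(1,12,[(4,1)]),(0,10,[(9,1)]),(1,1,[(11,1)]),(3,17,[(10,1),(13,1)])] [(0,1),(6,1),(8,1),(5,1)])) (.node 1 3 (.node 13 1 (.leaf [(1,10,[(2,1)]),(1,9,[(3,1)]),(1,12,[(4,1)]),(0,10,[(9,1)]),(3,9,[(10,1)]),(1,18,[(14,1)])]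 [(0,1),(5,1),(6,1),(8,1)]) (.leaf [(1,9,[(3,1)]),(1,12,[(4,1)]),(0,10,[(9,1)]),(1,18,[(14,1)])] [(0,1),(5,1),(6,1),(8,1),(13,1)])) (.node 1 1 (.node 13 1 (.leaf [(1,10,[(2,1)]),(1,9,[(3,1)]),(1,12,[(4,1)]),(0,10,[(9,1)]),(3,9,[(10,1)])] [(0,1),(1,2),(5,1),(6,1),(8,1)]) (.leaf [(1,9,[(3,1)]),(1,12,[(4,1)]),(0,10,[(9,1)])] [(0,1),(1,2),(5,1),(6,1),(8,1),(13,1)])) (.leaf [(1,9,[(3,1)]),(1,12,[(4,1)]),(0,10,[(9,1)]),(1,10,[(2,1),(13,1)])] [(0,1),(6,1),(8,1),(5,1),(1,1)])))) (.node 3 1 (.node 4 1 (.leaf [(0,1,[(1,1)]),(2,1,[(4,1)]),(2,3,[(5,1)]),(3,8,[(7,1)]),(2,18,[(9,1)]),(3,0,[(10,1)]),(4,2,[(12,1)])] [(0,1),(2,1),(6,1),(8,1)]) (.node 7 1 (.leaf [(0,1,[(1,1)]),(1,0,[(3,1)]),(2,3,[(5,1)]),(1,15,[(9,1)]),(3,0,[(10,1)]),(4,7,[(11,1)])]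 [(0,1),(2,1),(4,1),(6,1),(8,1)]) (.leaf [(0,1,[(1,1)]),(2,3,[(5,1)]),(3,0,[(10,1)]),(3,18,[(3,1),(12,1)])] [(0,1),(2,1),(6,1),(8,1),(4,1),(7,1)]))) (.node 1 2 (.node 5 1 (.leaf [(2,4,[(4,1)]),(1,7,[(10,1)]),(1,1,[(11,1)]),(2,0,[(14,1)])] [(0,1),(2,1),(3,1),(6,1),(8,1)]) (.node 9 2 (.leaf [(2,4,[(4,1)]),(3,4,[(14,1)]),(4,15,[(7,1),(11,1)])] [(0,1),(2,1),(3,1),(5,1),(6,1),(8,1)]) (.node 9 1 (.leaf [(2,4,[(4,1)]),(3,4,[(14,1)])] [(0,1),(2,1),(3,1),(5,1),(6,1),(8,1),(9,1)]) (.leaf [(2,4,[(4,1)]),(1,18,[(1,1),(14,1)])] [(0,1),(2,1),(3,1),(6,1),(8,1),(5,1),(9,1)])))) (.node 1 1 (.node 4 1 (.leaf [(2,1,[(4,1)]),(0,3,[(5,1)]),(2,18,[(9,1)]),(3,12,[(10,1)])] [(0,1),(1,1),(2,1),(3,1),(6,1),(8,1)]) (.node 5 1 (.leaf [(1,7,[(10,1)]),(1,1,[(11,1)]),(2,0,[(14,1)])]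 [(0,1),(1,1),(2,1),(3,1),(4,1),(6,1),(8,1)]) (.node 7 1 (.node 9 2 (.leaf [(4,15,[(11,1)]),(4,19,[(14,1)])] [(0,1),(1,1),(2,1),(3,1),(4,1),(5,1),(6,1),(8,1)]) (.leaf [] [(0,1),(1,1),(2,1),(3,1),(4,1),(5,1),(6,1),(8,1),(9,2)])) (.leaf [] [(0,1),(1,1),(2,1),(3,1),(6,1),(8,1),(4,1),(5,1),(7,1)])))) (.node 4 1 (.leaf [(2,1,[(4,1)]),(0,3,[(5,1)]),(2,18,[(9,1)])] [(0,1),(1,1),(2,1),(3,1),(6,1),(8,1)]) (.node 7 1 (.node 9 2 (.leaf [(4,15,[(11,1)]),(4,19,[(14,1)])] [(0,1),(1,1),(2,1),(3,1),(4,1),(6,1),(8,1)]) (.leaf [(1,1,[(5,1),(11,1)])] [(0,1),(1,1),(2,1),(3,1),(4,1),(6,1),(8,1),(9,2)])) (.leaf [(1,1,[(5,1),(11,1)])] [(0,1),(8,1),(6,1),(2,1),(3,1),(1,1),(4,1),(7,1)]))))))))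

def u1 : Tree := .node 13 1 (.node 2 1 (.node 1 1 (.leaf [(1,10,[(2,1)]),(0,1,[(3,1)]),(1,16,[(4,1)]),(0,6,[(5,1)]),(2,2,[(6,1)]),(0,18,[(8,1)]),(0,10,[(9,1)]),(3,9,[(10,1)]),(1,18,[(1,2),(14,1)])] [(0,1),(12,1)]) (.node 3 1 (.leaf [(1,10,[(2,1)]),(1,16,[(4,1)]),(0,12,[(5,1)]),(3,2,[(6,1)]),(3,5,[(7,1)]),(0,10,[(9,1)]),(3,13,[(10,1)]),(3,1,[(8,1),(11,1)])] [(0,1),(1,1),(12,1)]) (.node 6 1 (.node 13 2 (.leaf [(1,10,[(2,1)]),(1,16,[(4,1)]),(5,7,[(6,1)]),(5,10,[(7,1)]),(0,10,[(9,1)]),(4,5,[(10,1)]),(1,6,[(11,1)]),(3,7,[(5,2),(14,1)])] [(0,1),(1,1),(3,1),(12,1)]) (.leaf [(1,10,[(2,1)]),(1,16,[(4,1)]),(0,10,[(9,1)]),(4,5,[(10,1)]),(1,6,[(11,1)]),(3,7,[(5,2),(14,1)])] [(0,1),(1,1),(3,1),(12,1),(13,1)])) (.node 5 1 (.leaf [(1,10,[(2,1)]),(1,16,[(4,1)]),(0,10,[(9,1)]),(3,17,[(10,1)]),(1,1,[(11,1)]),(3,7,[(5,1),(14,1)])]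 [(0,1),(1,1),(3,1),(6,1),(12,1)]) (.leaf [(1,10,[(2,1)]),(1,16,[(4,1)]),(0,10,[(9,1)])] [(0,1),(12,1),(1,1),(3,1),(6,1),(5,1)]))))) (.node 7 1 (.node 1 2 (.node 5 1 (.leaf [(0,1,[(3,1)]),(0,3,[(4,1)]),(2,2,[(6,1)]),(1,7,[(10,1)]),(1,1,[(11,1)]),(2,0,[(14,1)])] [(0,1),(2,1),(12,1)]) (.node 9 1 (.node 11 1 (.leaf [(0,1,[(3,1)]),(1,19,[(4,1)]),(2,2,[(6,1)]),(4,15,[(9,1)]),(3,4,[(14,1)]),(5,6,[(8,2)])] [(0,1),(2,1),(5,1),(12,1)]) (.leaf [(0,1,[(3,1)]),(1,19,[(4,1)]),(2,2,[(6,1)]),(3,4,[(14,1)])] [(0,1),(2,1),(5,1),(12,1),(11,1)])) (.node 1 3 (.leaf [(0,1,[(3,1)]),(2,2,[(6,1)]),(1,18,[(14,1)]),(5,11,[(8,3),(11,1)])] [(0,1),(2,1),(5,1),(9,1),(12,1)]) (.leaf [(0,1,[(3,1)]),(2,2,[(6,1)]),(2,7,[(4,1),(14,1)])] [(0,1),(2,1),(12,1),(5,1),(9,1),(1,1)]))))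 (.node 3 1 (.node 4 2 (.leaf [(0,1,[(1,1)]),(1,0,[(3,1)]),(0,3,[(5,1)]),(3,16,[(6,1)]),(5,8,[(7,1)]),(1,15,[(9,1)]),(5,1,[(10,1)]),(5,18,[(4,1),(14,1)])] [(0,1),(2,1),(12,1)]) (.node 5 1 (.leaf [(0,1,[(1,1)]),(1,0,[(3,1)]),(0,3,[(4,1)]),(3,16,[(6,1)]),(1,15,[(9,1)]),(1,14,[(10,1)]),(1,1,[(11,1)]),(3,15,[(14,1)])] [(0,1),(2,1),(12,1)]) (.node 4 1 (.leaf [(0,1,[(1,1)]),(1,0,[(3,1)]),(3,16,[(6,1)]),(1,15,[(9,1)]),(5,1,[(10,1)])] [(0,1),(2,1),(4,1),(5,1),(12,1)]) (.leaf [(0,1,[(1,1)]),(1,0,[(3,1)]),(3,16,[(6,1)]),(1,15,[(9,1)])] [(0,1),(2,1),(12,1),(5,1),(4,1)])))) (.node 6 1 (.node 6 3 (.node 13 2 (.leaf [(2,2,[(1,1)]),(2,16,[(4,1)]),(4,12,[(9,1)]),(5,19,[(10,1)]),(1,6,[(11,1)]),(6,14,[(13,1)])] [(0,1),(2,1),(3,1),(12,1)]) (.leaf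 [(2,2,[(1,1)]),(2,16,[(4,1)]),(4,12,[(9,1)]),(1,6,[(11,1)])] [(0,1),(2,1),(3,1),(12,1),(13,1)])) (.node 6 2 (.leaf [(2,2,[(1,1)]),(2,16,[(4,1)]),(4,12,[(9,1)]),(1,6,[(11,1)]),(5,19,[(10,1),(13,1)])] [(0,1),(2,1),(3,1),(6,1),(12,1)]) (.leaf [(2,2,[(1,1)]),(2,16,[(4,1)]),(4,12,[(9,1)]),(1,6,[(11,1)])] [(0,1),(2,1),(3,1),(12,1),(6,1)]))) (.node 5 1 (.node 1 1 (.leaf [(0,3,[(4,1)]),(1,7,[(10,1)]),(1,1,[(11,1)]),(2,0,[(14,1)])] [(0,1),(1,1),(2,1),(3,1),(6,1),(12,1)]) (.leaf [(0,3,[(4,1)]),(1,1,[(11,1)]),(4,19,[(9,2),(14,1)])] [(0,1),(2,1),(3,1),(6,1),(12,1),(1,1)])) (.node 9 2 (.leaf [(1,19,[(4,1)]),(4,15,[(11,1)]),(4,19,[(14,1)])] [(0,1),(2,1),(3,1),(1,2),(5,1),(6,1),(12,1)]) (.node 4 3 (.leaf [(1,19,[(9,1)]),(5,18,[(14,1)])] [(0,1),(2,1),(3,1),(1,2),(5,1),(6,1),(12,1)])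 (.node 4 1 (.leaf [(1,19,[(9,1)])] [(0,1),(2,1),(3,1),(1,2),(5,1),(6,1),(4,2),(12,1)]) (.leaf [] [(0,1),(2,1),(12,1),(1,2),(3,1),(6,1),(5,1),(9,2),(4,1)])))))))) (.node 1 1 (.node 14 1 (.node 1 2 (.leaf [(1,18,[(1,1)]),(0,1,[(3,1)]),(2,7,[(4,1)]),(2,0,[(5,1)]),(2,2,[(6,1)]),(3,4,[(9,1)])] [(0,1),(2,1),(7,1),(12,1)]) (.node 4 2 (.leaf [(0,1,[(3,1)]),(5,12,[(4,1)]),(2,0,[(5,1)]),(2,2,[(6,1)]),(4,9,[(9,1)])] [(0,1),(1,1),(2,1),(7,1),(12,1)]) (.leaf [(0,1,[(3,1)]),(2,0,[(5,1)]),(2,2,[(6,1)]),(4,17,[(8,1),(9,2),(11,1)])] [(0,1),(2,1),(7,1),(12,1),(1,1),(4,2)]))) (.node 11 1 (.node 8 2 (.node 1 3 (.leaf [(0,1,[(3,1)]),(1,1,[(5,1)]),(2,2,[(6,1)]),(5,11,[(8,1)]),(5,6,[(9,1)])] [(0,1),(2,1),(7,1),(12,1),(14,1)]) (.node 1 2 (.leaf [(0,1,[(3,1)]),(1,1,[(5,1)]),(2,2,[(6,1)]),(5,6,[(9,1)])]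 [(0,1),(1,1),(2,1),(7,1),(12,1),(14,1)]) (.leaf [(0,1,[(3,1)]),(1,1,[(5,1)]),(2,2,[(6,1)]),(4,17,[(9,2)])] [(0,1),(2,1),(7,1),(12,1),(14,1),(1,1)]))) (.node 8 1 (.leaf [(0,1,[(3,1)]),(1,1,[(5,1)]),(2,2,[(6,1)]),(4,17,[(9,2)])] [(0,1),(2,1),(7,1),(8,1),(12,1),(14,1)]) (.leaf [(0,1,[(3,1)]),(1,1,[(5,1)]),(2,2,[(6,1)])] [(0,1),(2,1),(7,1),(12,1),(14,1),(8,1)]))) (.node 5 1 (.leaf [(0,1,[(3,1)]),(0,3,[(4,1)]),(2,2,[(6,1)]),(1,7,[(10,1)])] [(0,1),(2,1),(7,1),(11,1),(12,1),(14,1)]) (.leaf [(0,1,[(3,1)]),(2,2,[(6,1)])] [(0,1),(2,1),(7,1),(12,1),(14,1),(11,1),(5,1)])))) (.node 6 1 (.node 6 4 (.node 10 1 (.leaf [(4,6,[(3,1)]),(2,16,[(4,1)]),(1,6,[(11,1)]),(5,19,[(13,1)])] [(0,1),(1,1),(2,1),(7,1),(12,1)]) (.leaf [(2,16,[(4,1)]),(1,6,[(11,1)]),(6,12,[(13,2)])]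 [(0,1),(1,1),(2,1),(7,1),(12,1),(10,1)])) (.node 6 2 (.node 10 1 (.leaf [(4,6,[(3,1)]),(2,16,[(4,1)]),(1,6,[(11,1)]),(5,19,[(13,1)])] [(0,1),(1,1),(2,1),(7,1),(12,1),(6,2)]) (.leaf [(2,16,[(4,1)]),(1,6,[(11,1)])] [(0,1),(1,1),(2,1),(7,1),(12,1),(6,2),(10,1)])) (.leaf [(2,16,[(4,1)]),(1,6,[(11,1)]),(4,6,[(3,1),(10,1)])] [(0,1),(1,1),(2,1),(7,1),(12,1),(6,1)]))) (.node 5 1 (.leaf [(0,3,[(4,1)]),(1,1,[(11,1)]),(1,14,[(3,1),(10,1)])] [(0,1),(1,1),(2,1),(6,1),(7,1),(12,1)]) (.node 8 2 (.node 9 2 (.leaf [(4,17,[(11,1)]),(6,2,[(4,4),(14,1)])] [(0,1),(1,1),(2,1),(5,1),(6,1),(7,1),(12,1)]) (.leaf [(5,15,[(3,2),(11,2)])] [(0,1),(1,1),(2,1),(5,1),(6,1),(7,1),(12,1),(9,2)])) (.node 8 1 (.node 9 2 (.leaf [(4,17,[(11,1)]),(6,2,[(4,4),(14,1)])]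 [(0,1),(1,1),(2,1),(5,1),(6,1),(7,1),(8,1),(12,1)]) (.leaf [] [(0,1),(1,1),(2,1),(5,1),(6,1),(7,1),(8,1),(12,1),(9,2)])) (.leaf [(6,2,[(4,4),(9,2),(14,1)])] [(0,1),(12,1),(2,1),(7,1),(1,1),(6,1),(5,1),(8,1)])))))))) (.node 1 1 (.node 9 1 (.node 11 1 (.node 1 2 (.node 7 1 (.leaf [(0,10,[(2,1)]),(0,1,[(3,1)]),(1,19,[(4,1)]),(1,1,[(5,1)]),(1,6,[(6,1)]),(4,15,[(9,1)]),(3,4,[(14,1)]),(5,6,[(8,2)])] [(0,1),(12,1),(13,1)]) (.node 8 1 (.leaf [(0,10,[(2,1)]),(0,1,[(3,1)]),(1,1,[(5,1)]),(1,6,[(6,1)]),(5,6,[(8,1)]),(4,17,[(9,1)]),(3,4,[(14,1)])] [(0,1),(7,1),(12,1),(13,1)]) (.leaf [(0,10,[(2,1)]),(0,1,[(3,1)]),(1,1,[(5,1)]),(1,6,[(6,1)]),(3,4,[(14,1)])] [(0,1),(12,1),(13,1),(7,1),(8,1)]))) (.node 4 2 (.leaf [(0,10,[(2,1)]),(0,1,[(3,1)]),(1,1,[(5,1)]),(1,6,[(6,1)]),(1,19,[(7,1)]),(4,9,[(14,1)]),(4,17,[(8,1),(9,1)])]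 [(0,1),(1,1),(12,1),(13,1)]) (.node 4 1 (.leaf [(0,10,[(2,1)]),(0,1,[(3,1)]),(1,1,[(5,1)]),(1,6,[(6,1)]),(1,19,[(7,1)]),(4,17,[(8,1),(9,1)])] [(0,1),(1,1),(4,1),(12,1),(13,1)]) (.node 9 2 (.leaf [(0,10,[(2,1)]),(0,1,[(3,1)]),(1,1,[(5,1)]),(1,6,[(6,1)]),(4,15,[(7,1)]),(4,17,[(8,1)])] [(0,1),(1,1),(4,1),(12,1),(13,1)]) (.leaf [(0,10,[(2,1)]),(0,1,[(3,1)]),(1,1,[(5,1)]),(1,6,[(6,1)])] [(0,1),(12,1),(13,1),(1,1),(4,1),(9,1)]))))) (.node 4 1 (.node 14 1 (.leaf [(3,4,[(1,1)]),(0,10,[(2,1)]),(0,1,[(3,1)]),(4,9,[(4,1)]),(0,3,[(5,1)]),(0,17,[(6,1)]),(1,19,[(7,1)])] [(0,1),(11,1),(12,1),(13,1)]) (.leaf [(0,10,[(2,1)]),(0,1,[(3,1)]),(0,3,[(5,1)]),(0,17,[(6,1)]),(1,19,[(7,1)])] [(0,1),(11,1),(12,1),(13,1),(14,1)])) (.node 14 1 (.leaf [(3,4,[(1,1)]),(0,10,[(2,1)]),(0,1,[(3,1)]),(2,0,[(5,1)]),(4,19,[(7,1),(9,1)])]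 [(0,1),(4,1),(11,1),(12,1),(13,1)]) (.node 6 1 (.leaf [(0,7,[(1,1)]),(0,10,[(2,1)]),(0,1,[(3,1)]),(1,7,[(5,1),(10,1)]),(5,13,[(7,1),(9,2)])] [(0,1),(4,1),(11,1),(12,1),(13,1),(14,1)]) (.leaf [(0,10,[(2,1)]),(0,1,[(3,1)]),(1,7,[(5,1),(10,1)])] [(0,1),(12,1),(13,1),(11,1),(4,1),(14,1),(6,1)]))))) (.node 5 1 (.leaf [(0,6,[(2,1)]),(0,1,[(3,1)]),(0,3,[(4,1)]),(0,7,[(1,1),(6,1)]),(1,7,[(10,1)]),(1,1,[(11,1)]),(2,0,[(14,1)])] [(0,1),(9,1),(12,1),(13,1)]) (.node 1 3 (.node 8 3 (.leaf [(0,18,[(2,1)]),(0,1,[(3,1)]),(0,7,[(6,1)]),(5,11,[(11,1)]),(1,18,[(14,1)])] [(0,1),(5,1),(9,1),(12,1),(13,1)]) (.node 8 1 (.leaf [(0,18,[(2,1)]),(0,1,[(3,1)]),(0,7,[(6,1)]),(1,18,[(14,1)])] [(0,1),(5,1),(9,1),(12,1),(13,1),(8,2)]) (.leaf [(0,1,[(3,1)]),(0,7,[(6,1)]),(1,18,[(14,1)])]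 [(0,1),(5,1),(9,1),(12,1),(13,1),(8,1)]))) (.node 1 2 (.leaf [(0,1,[(3,1)]),(0,7,[(6,1)]),(0,18,[(2,1),(8,1)]),(2,7,[(4,1),(14,1)])] [(0,1),(1,1),(5,1),(9,1),(12,1),(13,1)]) (.node 6 1 (.leaf [(0,1,[(3,1)]),(0,17,[(4,1)]),(1,6,[(11,1)]),(0,18,[(2,1),(8,1)])] [(0,1),(1,1),(5,1),(9,1),(12,1),(13,1)]) (.leaf [(0,1,[(3,1)]),(0,18,[(2,1),(8,1)])] [(0,1),(12,1),(13,1),(9,1),(5,1),(1,1),(6,1)])))))) (.node 3 1 (.node 4 2 (.node 9 1 (.node 8 2 (.node 9 2 (.leaf [(0,10,[(2,1)]),(0,3,[(5,1)]),(2,19,[(6,1)]),(1,15,[(7,1)]),(4,17,[(11,1)]),(6,2,[(4,2),(14,1)])] [(0,1),(1,1),(12,1),(13,1)]) (.leaf [(0,10,[(2,1)]),(0,3,[(5,1)]),(2,19,[(6,1)]),(1,15,[(7,1)]),(5,15,[(3,1),(11,2)])] [(0,1),(1,1),(12,1),(13,1),(9,1)])) (.node 8 1 (.node 9 2 (.leaf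 [(0,10,[(2,1)]),(0,3,[(5,1)]),(2,19,[(6,1)]),(1,15,[(7,1)]),(4,17,[(11,1)]),(6,2,[(4,2),(14,1)])] [(0,1),(1,1),(8,1),(12,1),(13,1)]) (.leaf [(0,10,[(2,1)]),(0,3,[(5,1)]),(2,19,[(6,1)]),(1,15,[(7,1)])] [(0,1),(1,1),(8,1),(12,1),(13,1),(9,1)])) (.leaf [(0,10,[(2,1)]),(0,3,[(5,1)]),(2,19,[(6,1)]),(1,15,[(7,1)]),(6,2,[(4,2),(9,1),(14,1)])] [(0,1),(1,1),(12,1),(13,1),(8,1)]))) (.node 3 2 (.node 8 1 (.node 11 1 (.leaf [(3,1,[(2,1)]),(0,3,[(5,1)]),(1,6,[(6,1)]),(1,0,[(7,1)]),(5,15,[(8,1),(11,1)])] [(0,1),(1,1),(9,1),(12,1),(13,1)]) (.leaf [(0,3,[(5,1)]),(2,13,[(2,2)]),(1,0,[(7,1)])] [(0,1),(1,1),(9,1),(12,1),(13,1),(11,1)])) (.leaf [(0,3,[(5,1)]),(1,0,[(7,1)]),(1,6,[(6,1),(11,1)])] [(0,1),(1,1),(9,1),(12,1),(13,1),(8,1)])) (.node 6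 1 (.leaf [(0,3,[(5,1)]),(2,12,[(7,1)]),(1,6,[(11,1)])] [(0,1),(1,1),(3,1),(9,1),(12,1),(13,1)]) (.leaf [(0,3,[(5,1)]),(3,1,[(2,1),(8,1),(11,1)]),(5,9,[(7,2),(14,1)])] [(0,1),(1,1),(12,1),(13,1),(9,1),(3,1),(6,1)])))) (.node 5 1 (.node 7 1 (.leaf [(0,12,[(2,1)]),(1,0,[(3,1)]),(0,3,[(4,1)]),(1,15,[(9,1)]),(1,14,[(10,1)]),(1,1,[(11,1)]),(3,15,[(14,1)])] [(0,1),(1,1),(12,1),(13,1)]) (.leaf [(0,12,[(2,1)]),(0,3,[(4,1)]),(1,14,[(10,1)]),(1,1,[(11,1)])] [(0,1),(1,1),(12,1),(13,1),(7,1)])) (.node 8 1 (.node 11 1 (.node 3 2 (.leaf [(3,1,[(2,1)]),(1,6,[(6,1)]),(1,0,[(7,1)]),(4,17,[(9,2)]),(5,15,[(8,1),(11,1)])] [(0,1),(1,1),(5,1),(4,2),(12,1),(13,1)]) (.node 9 1 (.leaf [(3,1,[(2,1)]),(1,6,[(6,1)]),(1,15,[(7,1)]),(4,17,[(9,1)])] [(0,1),(1,1),(3,1),(5,1),(4,2),(12,1),(13,1)])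 (.leaf [(3,1,[(2,1)]),(1,6,[(6,1)])] [(0,1),(1,1),(5,1),(4,2),(12,1),(13,1),(3,1),(9,1)]))) (.node 7 1 (.node 4 1 (.leaf [(1,0,[(3,1)]),(2,12,[(6,1)]),(1,15,[(9,1)])] [(0,1),(1,1),(4,1),(5,1),(11,1),(12,1),(13,1)]) (.leaf [(1,0,[(3,1)]),(1,15,[(9,1)])] [(0,1),(1,1),(5,1),(11,1),(12,1),(13,1),(4,1)])) (.node 2 2 (.leaf [(2,13,[(3,1)]),(0,10,[(9,1)])] [(0,1),(1,1),(5,1),(7,1),(4,2),(11,1),(12,1),(13,1)]) (.node 2 1 (.leaf [(0,10,[(9,1)])] [(0,1),(1,1),(2,1),(5,1),(7,1),(4,2),(11,1),(12,1),(13,1)]) (.leaf [] [(0,1),(1,1),(5,1),(4,2),(12,1),(13,1),(11,1),(7,1),(2,1)]))))) (.node 7 1 (.node 4 1 (.leaf [(1,0,[(3,1)]),(2,12,[(6,1)]),(1,15,[(9,1)])] [(0,1),(1,1),(4,1),(5,1),(8,1),(12,1),(13,1)]) (.leaf [(1,0,[(3,1)]),(1,15,[(9,1)]),(1,6,[(6,1),(11,1)])]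 [(0,1),(1,1),(5,1),(8,1),(12,1),(13,1),(4,1)])) (.leaf [(0,10,[(2,1),(9,1)]),(1,6,[(6,1),(11,1)])] [(0,1),(1,1),(12,1),(13,1),(4,2),(5,1),(8,1),(7,1)]))))) (.node 9 2 (.node 4 2 (.leaf [(0,10,[(2,1)]),(0,3,[(5,1)]),(2,19,[(6,1)]),(1,19,[(7,1)]),(4,17,[(8,1),(11,1)]),(6,2,[(4,2),(14,1)])] [(0,1),(1,1),(3,1),(12,1),(13,1)]) (.node 7 1 (.leaf [(0,10,[(2,1)]),(1,19,[(4,1)]),(4,15,[(11,1)]),(4,19,[(14,1)]),(6,19,[(6,1),(7,2),(9,4)])] [(0,1),(1,1),(3,1),(12,1),(13,1)]) (.node 11 1 (.leaf [(0,10,[(2,1)]),(1,1,[(5,1)]),(1,6,[(6,1)]),(4,17,[(8,1)])] [(0,1),(1,1),(3,1),(7,1),(4,2),(12,1),(13,1)]) (.node 4 1 (.leaf [(0,10,[(2,1)]),(0,3,[(5,1)])] [(0,1),(1,1),(3,1),(4,1),(7,1),(11,1),(12,1),(13,1)]) (.leaf [(0,10,[(2,1)])] [(0,1),(1,1),(3,1),(12,1),(13,1),(7,1),(11,1),(4,1)])))))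 (.node 2 1 (.node 5 1 (.node 5 2 (.leaf [(0,8,[(2,1)]),(0,3,[(4,1)]),(0,10,[(9,1)]),(1,1,[(11,1)]),(3,7,[(14,1)]),(4,11,[(10,2)])] [(0,1),(1,1),(3,1),(12,1),(13,1)]) (.leaf [(0,8,[(2,1)]),(0,3,[(4,1)]),(0,10,[(9,1)]),(1,1,[(11,1)])] [(0,1),(1,1),(3,1),(12,1),(13,1),(5,1)])) (.node 6 1 (.leaf [(0,10,[(9,1)]),(1,6,[(11,1)]),(2,15,[(4,2),(7,1)])] [(0,1),(1,1),(3,1),(5,1),(12,1),(13,1)]) (.leaf [(0,10,[(9,1)]),(6,13,[(2,2),(8,4),(11,2)])] [(0,1),(1,1),(3,1),(12,1),(13,1),(5,1),(6,1)]))) (.node 4 2 (.node 6 1 (.leaf [(0,3,[(5,1)]),(2,15,[(7,1)]),(2,19,[(9,1)]),(1,6,[(11,1)])] [(0,1),(1,1),(2,1),(3,1),(12,1),(13,1)]) (.node 9 1 (.leaf [(0,3,[(5,1)]),(1,19,[(7,1)])] [(0,1),(1,1),(2,1),(3,1),(6,1),(9,1),(12,1),(13,1)]) (.leaf [(0,3,[(5,1)])]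 [(0,1),(1,1),(2,1),(3,1),(12,1),(13,1),(6,1),(9,1)]))) (.node 4 1 (.node 9 1 (.leaf [(0,3,[(5,1)]),(1,19,[(7,1)]),(1,6,[(6,1),(11,1)])] [(0,1),(1,1),(2,1),(3,1),(4,1),(9,1),(12,1),(13,1)]) (.leaf [(0,3,[(5,1)]),(1,6,[(6,1),(11,1)])] [(0,1),(1,1),(2,1),(3,1),(4,1),(12,1),(13,1),(9,1)])) (.node 11 1 (.leaf [(1,1,[(5,1)]),(1,6,[(6,1)])] [(0,1),(1,1),(2,1),(3,1),(4,1),(12,1),(13,1),(9,2)]) (.leaf [] [(0,1),(12,1),(13,1),(1,1),(3,1),(9,2),(2,1),(4,1),(11,1)]))))))))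

def u2 : Tree := .node 5 1 (.node 0 2 (.node 7 1 (.leaf [(0,4,[(0,1)]),(0,0,[(1,1)]),(0,5,[(2,1)]),(0,13,[(3,1)]),(0,3,[(4,1)]),(1,13,[(9,1)]),(1,11,[(10,1)]),(1,1,[(11,1)]),(2,11,[(13,1)]),(3,6,[(5,1),(14,1)]),(2,8,[(8,1),(12,1)])] []) (.node 12 1 (.leaf [(0,4,[(0,1)]),(0,0,[(1,1)]),(0,5,[(2,1)]),(1,2,[(3,1)]),(0,3,[(4,1)]),(2,8,[(8,1)]),(1,11,[(10,1)]),(1,1,[(11,1)]),(1,17,[(6,1),(13,1)]),(3,6,[(5,1),(14,1)])] [(7,1)]) (.leaf [(0,4,[(0,1)]),(0,0,[(1,1)]),(0,5,[(2,1)]),(0,3,[(4,1)]),(1,11,[(10,1)]),(1,1,[(11,1)]),(1,17,[(6,1),(13,1)]),(3,6,[(5,1),(14,1)])] [(7,1),(12,1)]))) (.node 1 1 (.leaf [(0,9,[(1,1)]),(0,5,[(2,1)]),(0,1,[(3,1)]),(0,3,[(4,1)]),(0,11,[(8,1)]),(0,14,[(9,1)]),(1,7,[(10,1)]),(1,1,[(11,1)]),(2,0,[(14,1)]),(1,17,[(6,1),(13,1)])]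 [(0,1)]) (.node 5 2 (.node 10 1 (.node 10 4 (.leaf [(0,5,[(2,1)]),(1,14,[(3,1)]),(0,3,[(4,1)]),(6,9,[(5,1)]),(1,1,[(11,1)]),(6,5,[(13,1)]),(4,14,[(14,1)]),(4,0,[(8,1),(12,1)]),(3,3,[(7,1),(9,2)])] [(0,1),(1,1)]) (.node 10 3 (.leaf [(0,5,[(2,1)]),(1,14,[(3,1)]),(0,3,[(4,1)]),(1,1,[(11,1)]),(6,5,[(13,1)]),(4,14,[(14,1)]),(4,0,[(8,1),(12,1)]),(3,3,[(7,1),(9,2)])] [(0,1),(1,1),(10,1)]) (.leaf [(0,5,[(2,1)]),(1,14,[(3,1)]),(0,3,[(4,1)]),(1,1,[(11,1)]),(4,14,[(14,1)]),(1,17,[(6,1),(13,1)]),(4,0,[(8,1),(12,1)]),(3,3,[(7,1),(9,2)])] [(0,1),(1,1),(10,2)]))) (.node 7 1 (.node 9 1 (.node 13 1 (.leaf [(0,5,[(2,1)]),(0,13,[(3,1)]),(0,3,[(4,1)]),(1,17,[(6,1)]),(3,3,[(9,1)]),(1,1,[(11,1)]),(5,5,[(14,1)]),(3,14,[(8,1),(12,1)])] [(0,1),(1,1),(10,1)])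 (.leaf [(0,5,[(2,1)]),(0,13,[(3,1)]),(0,3,[(4,1)]),(3,3,[(9,1)]),(1,1,[(11,1)]),(3,14,[(8,1),(12,1)]),(6,6,[(14,2)])] [(0,1),(1,1),(10,1),(13,1)])) (.node 13 1 (.leaf [(0,5,[(2,1)]),(0,13,[(3,1)]),(0,3,[(4,1)]),(1,17,[(6,1)]),(1,1,[(11,1)]),(5,5,[(14,1)]),(5,17,[(8,2),(12,2)])] [(0,1),(1,1),(9,1),(10,1)]) (.leaf [(0,5,[(2,1)]),(0,13,[(3,1)]),(0,3,[(4,1)]),(1,1,[(11,1)]),(5,14,[(5,1),(14,2)]),(5,17,[(8,2),(12,2)])] [(0,1),(1,1),(10,1),(9,1),(13,1)]))) (.node 12 1 (.node 8 2 (.leaf [(0,5,[(2,1)]),(1,2,[(3,1)]),(0,3,[(4,1)]),(3,14,[(9,1)]),(1,1,[(11,1)]),(5,17,[(12,1)]),(1,17,[(6,1),(13,1)]),(5,14,[(5,1),(14,2)])] [(0,1),(1,1),(7,1),(10,1)]) (.node 8 1 (.leaf [(0,5,[(2,1)]),(1,2,[(3,1)]),(0,3,[(4,1)]),(3,14,[(9,1)]),(1,1,[(11,1)]),(1,17,[(6,1),(13,1)]),(5,14,[(5,1),(14,2)])]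 [(0,1),(1,1),(7,1),(8,1),(10,1)]) (.leaf [(0,5,[(2,1)]),(1,2,[(3,1)]),(0,3,[(4,1)]),(1,1,[(11,1)]),(1,17,[(6,1),(13,1)]),(5,14,[(5,1),(14,2)])] [(0,1),(1,1),(7,1),(10,1),(8,1)]))) (.leaf [(0,5,[(2,1)]),(0,3,[(4,1)]),(1,1,[(11,1)]),(1,17,[(6,1),(13,1)]),(5,14,[(5,1),(14,2)])] [(0,1),(1,1),(10,1),(7,1),(12,1)])))) (.node 12 1 (.node 8 1 (.node 13 1 (.leaf [(0,5,[(2,1)]),(1,2,[(3,1)]),(0,3,[(4,1)]),(1,17,[(6,1)]),(3,14,[(9,1)]),(4,0,[(10,1)]),(1,1,[(11,1)]),(5,17,[(8,1),(12,1)]),(5,5,[(7,1),(14,1)])] [(0,1),(1,1),(5,1)]) (.leaf [(0,5,[(2,1)]),(1,2,[(3,1)]),(0,3,[(4,1)]),(3,14,[(9,1)]),(4,0,[(10,1)]),(1,1,[(11,1)]),(5,17,[(8,1),(12,1)])] [(0,1),(1,1),(5,1),(13,1)])) (.node 7 1 (.node 13 1 (.leaf [(0,5,[(2,1)]),(1,2,[(3,1)]),(0,3,[(4,1)]),(1,17,[(6,1)]),(1,1,[(11,1)]),(5,5,[(14,1)]),(3,3,[(9,2)])]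 [(0,1),(1,1),(5,1),(8,1)]) (.leaf [(0,5,[(2,1)]),(1,2,[(3,1)]),(0,3,[(4,1)]),(1,1,[(11,1)]),(3,3,[(9,2)])] [(0,1),(1,1),(5,1),(8,1),(13,1)])) (.leaf [(0,5,[(2,1)]),(1,2,[(3,1)]),(0,3,[(4,1)]),(1,1,[(11,1)]),(1,17,[(6,1),(13,1)])] [(0,1),(1,1),(5,1),(8,1),(7,1)]))) (.node 7 1 (.node 13 1 (.leaf [(0,5,[(2,1)]),(0,13,[(3,1)]),(0,3,[(4,1)]),(1,17,[(6,1)]),(1,1,[(11,1)]),(5,5,[(14,1)]),(3,3,[(9,2)])] [(0,1),(1,1),(5,1),(12,1)]) (.leaf [(0,5,[(2,1)]),(0,13,[(3,1)]),(0,3,[(4,1)]),(1,1,[(11,1)]),(3,3,[(9,2)])] [(0,1),(1,1),(5,1),(12,1),(13,1)])) (.leaf [(0,5,[(2,1)]),(0,3,[(4,1)]),(1,1,[(11,1)]),(1,14,[(3,1),(10,1)]),(1,17,[(6,1),(13,1)])] [(0,1),(1,1),(5,1),(12,1),(7,1)])))))) (.node 8 1 (.node 12 1 (.node 6 1 (.leaf [(2,8,[(0,1)]),(0,11,[(1,1)]),(2,10,[(2,1)]),(1,2,[(3,1)]),(1,8,[(4,1)]),(3,14,[(9,1)]),(4,0,[(10,1)]),(4,1,[(11,1)]),(1,17,[(13,1)]),(5,16,[(8,1),(12,1)])]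 [(5,1)]) (.leaf [(2,8,[(0,1)]),(0,11,[(1,1)]),(2,10,[(2,1)]),(1,2,[(3,1)]),(1,8,[(4,1)]),(3,14,[(9,1)]),(4,0,[(10,1)]),(4,1,[(11,1)]),(6,17,[(8,3),(12,3)])] [(5,1),(6,1)])) (.node 11 1 (.node 2 1 (.leaf [(2,5,[(0,1)]),(0,11,[(1,1)]),(1,3,[(3,1)]),(1,6,[(6,1)]),(4,4,[(8,1)]),(0,10,[(9,1)]),(1,5,[(13,1)])] [(5,1),(12,1)]) (.node 3 2 (.node 9 1 (.leaf [(2,5,[(0,1)]),(0,11,[(1,1)]),(0,19,[(4,1)]),(1,6,[(6,1)]),(0,13,[(7,1)]),(4,17,[(9,1)]),(4,18,[(10,1)]),(5,15,[(8,1),(11,1)])] [(2,1),(5,1),(12,1)]) (.leaf [(2,5,[(0,1)]),(0,11,[(1,1)]),(1,6,[(6,1)]),(0,13,[(7,1)]),(4,18,[(10,1)]),(5,15,[(8,1),(11,1)])] [(2,1),(5,1),(12,1),(9,1)])) (.node 4 1 (.node 3 1 (.leaf [(2,5,[(0,1)]),(0,11,[(1,1)]),(1,6,[(6,1)]),(0,13,[(7,1)]),(0,19,[(9,1)]),(3,10,[(10,1),(13,1)])]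 [(2,1),(3,1),(5,1),(12,1)]) (.node 13 1 (.leaf [(2,5,[(0,1)]),(0,11,[(1,1)]),(1,6,[(6,1)]),(0,19,[(9,1)]),(3,10,[(10,1)]),(3,19,[(4,1),(7,1)])] [(2,1),(3,1),(5,1),(12,1)]) (.leaf [(2,5,[(0,1)]),(0,11,[(1,1)]),(1,6,[(6,1)]),(0,19,[(9,1)])] [(2,1),(5,1),(12,1),(3,1),(13,1)]))) (.node 3 1 (.node 9 1 (.leaf [(2,5,[(0,1)]),(0,11,[(1,1)]),(1,6,[(6,1)]),(0,13,[(7,1)]),(4,17,[(9,1)]),(6,0,[(8,1),(11,1)])] [(2,1),(3,1),(4,1),(5,1),(12,1)]) (.leaf [(2,5,[(0,1)]),(0,11,[(1,1)]),(1,6,[(6,1)]),(0,13,[(7,1)])] [(2,1),(3,1),(4,1),(5,1),(12,1),(9,1)])) (.node 9 1 (.leaf [(2,5,[(0,1)]),(0,11,[(1,1)]),(1,6,[(6,1)]),(4,17,[(9,1)]),(6,0,[(8,1),(11,1)])] [(2,1),(3,1),(4,1),(5,1),(12,1)]) (.leaf [(2,5,[(0,1)]),(0,11,[(1,1)]),(1,6,[(6,1)])] [(5,1),(12,1),(2,1),(4,1),(3,1),(9,1)]))))))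 (.node 13 1 (.node 0 2 (.leaf [(0,15,[(0,1)]),(0,11,[(1,1)]),(1,5,[(2,1)]),(0,2,[(4,1)]),(1,17,[(6,1)]),(2,11,[(7,1)]),(5,2,[(3,1),(10,2)])] [(5,1),(11,1),(12,1)]) (.node 4 1 (.node 7 1 (.leaf [(0,11,[(1,1)]),(1,5,[(2,1)]),(0,13,[(3,1)]),(3,19,[(4,1)]),(1,17,[(6,1)]),(0,19,[(9,1)]),(3,10,[(10,1)])] [(0,1),(5,1),(11,1),(12,1)]) (.leaf [(0,11,[(1,1)]),(1,5,[(2,1)]),(1,17,[(6,1)]),(0,19,[(9,1)]),(3,10,[(10,1)])] [(0,1),(5,1),(11,1),(12,1),(7,1)])) (.node 3 3 (.leaf [(0,11,[(1,1)]),(1,5,[(2,1)]),(1,17,[(6,1)]),(0,13,[(7,1)]),(6,7,[(10,3)])] [(0,1),(4,1),(5,1),(11,1),(12,1)]) (.node 3 1 (.leaf [(0,11,[(1,1)]),(1,5,[(2,1)]),(1,17,[(6,1)]),(0,13,[(7,1)])] [(0,1),(4,1),(5,1),(3,2),(11,1),(12,1)]) (.leaf [(0,11,[(1,1)]),(1,5,[(2,1)]),(1,17,[(6,1)]),(3,3,[(7,1),(9,2)])]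 [(5,1),(11,1),(12,1),(0,1),(4,1),(3,1)]))))) (.node 7 1 (.node 9 1 (.leaf [(1,13,[(0,1)]),(0,11,[(1,1)]),(0,10,[(2,1)]),(0,13,[(3,1)]),(0,19,[(4,1)]),(3,3,[(9,1)])] [(5,1),(11,1),(12,1),(13,1)]) (.node 0 2 (.leaf [(0,15,[(0,1)]),(0,11,[(1,1)]),(0,13,[(3,1)]),(0,2,[(4,1)])] [(5,1),(9,1),(11,1),(12,1),(13,1)]) (.leaf [(0,11,[(1,1)]),(0,13,[(3,1)]),(2,15,[(4,2),(6,1)])] [(5,1),(11,1),(12,1),(13,1),(9,1),(0,1)]))) (.node 0 2 (.node 2 1 (.leaf [(0,15,[(0,1)]),(0,11,[(1,1)]),(1,3,[(3,1)]),(0,2,[(4,1)]),(0,10,[(9,1)])] [(5,1),(7,1),(11,1),(12,1),(13,1)]) (.leaf [(0,15,[(0,1)]),(0,11,[(1,1)]),(0,2,[(4,1)])] [(5,1),(7,1),(11,1),(12,1),(13,1),(2,1)])) (.node 2 1 (.leaf [(0,11,[(1,1)]),(1,3,[(3,1)]),(0,10,[(9,1)])] [(0,1),(5,1),(7,1),(11,1),(12,1),(13,1)])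 (.leaf [(0,11,[(1,1)]),(0,19,[(4,1),(9,1)])] [(5,1),(12,1),(11,1),(13,1),(7,1),(0,1),(2,1)]))))))) (.node 1 1 (.node 4 1 (.node 13 1 (.node 4 3 (.leaf [(0,0,[(0,1)]),(1,5,[(2,1)]),(0,1,[(3,1)]),(0,17,[(6,1)]),(3,19,[(7,1)]),(0,14,[(9,1)]),(3,10,[(10,1)]),(1,8,[(12,1)]),(5,12,[(14,1)])] [(5,1),(8,1)]) (.node 4 2 (.leaf [(0,0,[(0,1)]),(1,5,[(2,1)]),(0,1,[(3,1)]),(0,17,[(6,1)]),(3,19,[(7,1)]),(0,14,[(9,1)]),(3,10,[(10,1)]),(1,8,[(12,1)]),(2,7,[(1,1),(14,1)])] [(4,1),(5,1),(8,1)]) (.leaf [(0,0,[(0,1)]),(1,5,[(2,1)]),(0,1,[(3,1)]),(0,17,[(6,1)]),(0,14,[(9,1)]),(3,10,[(10,1)]),(1,8,[(12,1)]),(2,7,[(1,1),(14,1)])] [(5,1),(8,1),(4,1)]))) (.node 14 1 (.leaf [(0,0,[(0,1)]),(2,7,[(1,1)]),(0,1,[(3,1)]),(0,17,[(6,1)]),(0,14,[(9,1)]),(1,8,[(12,1)]),(4,8,[(4,1),(7,1)])]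 [(5,1),(8,1),(13,1)]) (.leaf [(0,0,[(0,1)]),(0,1,[(3,1)]),(0,17,[(6,1)]),(0,14,[(9,1)]),(1,8,[(12,1)])] [(5,1),(8,1),(13,1),(14,1)]))) (.node 1 2 (.node 13 1 (.leaf [(0,0,[(0,1)]),(1,5,[(2,1)]),(0,1,[(3,1)]),(0,7,[(6,1)]),(0,14,[(9,1)]),(4,3,[(14,1)])] [(4,1),(5,1),(8,1)]) (.leaf [(0,0,[(0,1)]),(0,1,[(3,1)]),(0,7,[(6,1)]),(0,14,[(9,1)]),(1,18,[(1,1),(14,1)])] [(4,1),(5,1),(8,1),(13,1)])) (.node 6 1 (.leaf [(0,0,[(0,1)]),(0,1,[(3,1)]),(0,14,[(9,1)]),(1,6,[(11,1)]),(1,17,[(13,1)])] [(1,1),(4,1),(5,1),(8,1)]) (.leaf [(0,0,[(0,1)]),(0,1,[(3,1)]),(0,14,[(9,1)]),(1,5,[(2,1),(13,1)])] [(5,1),(8,1),(4,1),(1,1),(6,1)])))) (.node 7 1 (.node 4 1 (.node 13 1 (.leaf [(0,2,[(0,1)]),(1,5,[(2,1)]),(0,13,[(3,1)]),(3,19,[(4,1)]),(1,17,[(6,1)]),(0,19,[(9,1)]),(3,10,[(10,1)]),(1,8,[(12,1)])]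 [(1,1),(5,1),(8,1)]) (.node 6 1 (.leaf [(0,2,[(0,1)]),(0,13,[(3,1)]),(2,15,[(4,1)]),(0,19,[(9,1)]),(1,6,[(11,1)]),(1,8,[(12,1)])] [(1,1),(5,1),(8,1),(13,1)]) (.leaf [(0,2,[(0,1)]),(0,13,[(3,1)]),(0,19,[(9,1)]),(1,8,[(12,1)])] [(1,1),(5,1),(8,1),(13,1),(6,1)]))) (.node 0 2 (.node 0 3 (.leaf [(0,16,[(0,1)]),(0,13,[(3,1)]),(1,13,[(9,1)]),(2,9,[(11,1)]),(2,11,[(13,1)])] [(1,1),(4,1),(5,1),(8,1)]) (.leaf [(0,13,[(3,1)]),(1,13,[(9,1)]),(2,11,[(13,1)]),(1,6,[(6,1),(11,1)])] [(1,1),(4,1),(5,1),(8,1),(0,1)])) (.node 2 1 (.leaf [(0,13,[(3,1)]),(0,10,[(9,1)]),(1,5,[(13,1)]),(1,6,[(6,1),(11,1)])] [(0,1),(1,1),(4,1),(5,1),(8,1)]) (.node 6 1 (.leaf [(0,13,[(3,1)]),(1,6,[(11,1)]),(1,17,[(13,1)]),(3,3,[(9,2)])] [(0,1),(1,1),(2,1),(4,1),(5,1),(8,1)])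 (.leaf [(0,13,[(3,1)]),(3,3,[(9,2)])] [(1,1),(5,1),(8,1),(4,1),(0,1),(2,1),(6,1)]))))) (.node 13 1 (.node 4 1 (.leaf [(0,2,[(0,1)]),(1,5,[(2,1)]),(1,17,[(6,1)]),(0,19,[(9,1)]),(3,10,[(10,1)]),(1,8,[(12,1)])] [(1,1),(5,1),(7,1),(8,1)]) (.node 3 1 (.node 0 2 (.leaf [(1,4,[(0,1)]),(1,5,[(2,1)]),(1,17,[(6,1)]),(1,2,[(12,1)]),(5,2,[(10,2)])] [(1,1),(4,1),(5,1),(7,1),(8,1)]) (.leaf [(1,5,[(2,1)]),(1,17,[(6,1)]),(1,2,[(12,1)]),(6,7,[(3,2),(10,3)])] [(1,1),(4,1),(5,1),(7,1),(8,1),(0,1)])) (.leaf [(1,5,[(2,1)]),(1,4,[(0,2)]),(1,17,[(6,1)])] [(1,1),(5,1),(7,1),(8,1),(4,1),(3,1)]))) (.node 4 1 (.leaf [(0,2,[(0,1)]),(0,19,[(9,1)]),(1,8,[(12,1)]),(1,6,[(6,1),(11,1)])] [(1,1),(5,1),(7,1),(8,1),(13,1)]) (.leaf [(0,10,[(2,1),(9,1)]),(1,2,[(3,1),(12,1)]),(1,6,[(6,1),(11,1)])]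 [(5,1),(8,1),(1,1),(7,1),(13,1),(4,1)]))))))

def tree : Tree := .node 0 1 (u2) (.node 12 1 (u0) (u1))

end Pool.Agent.Lib.MP_2e8272_nt.Full.BaseA
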