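import Pool.Agent.Lib.MP_2e8272_nt.Full.Link

/-!
# Counting exponent vectors
-/

namespace Pool.Agent.Lib.MP_2e8272_nt.Full

open PowerSeries

/-- degree of an exponent vector (the first `k` variables) -/
def dgr (d : ℕ → ℕ) (k : ℕ) (c : ℕ → ℕ) : ℕ := ∑ i ∈ Finset.range k, c i * d i

/-- exponent vectors in `k` variables of degree `n` with property `P` -/
def vecs (d : ℕ → ℕ) (k : ℕ) (P : (ℕ → ℕ) → Prop) (n : ℕ) : Set (ℕ → ℕ) :=
  {c | (∀ i, k ≤ i → c i = 0) ∧ dgr d k c = n ∧ P c}

theorem vecs_finite {d : ℕ → ℕ} {k : ℕ} (hd : ∀ i < k, 0 < d i) (P : (ℕ → ℕ) → Prop) (n : ℕ) :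
    (vecs d k P n).Finite := by
  have hfin : (Set.pi Set.univ (fun i : Fin k => Set.Iic n)).Finite :=
    Set.Finite.pi (fun _ => Set.finite_Iic n)
  refine Set.Finite.of_finite_image (f := fun c : ℕ → ℕ => fun i : Fin k => c i)
    (hfin.subset ?_) ?_
  · rintro _ ⟨c, ⟨_, hc, _⟩, rfl⟩
    intro i _
    show c i ≤ n
    have h1 : c i * d i ≤ n := by
      rw [← hc]
      exact Finset.single_le_sum (f := fun i => c i * d i) (fun _ _ => Nat.zero_le _)
        (Finset.mem_range.mpr i.2)
    exact le_trans (Nat.le_mul_of_pos_right _ (hd i i.2)) h1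
  · intro a ha b hb hab
    funext i
    by_cases hi : i < k
    · exact congrFun hab ⟨i, hi⟩
    · rw [ha.1 i (by omega), hb.1 i (by omega)]

/-- the generating series -/
noncomputable def ser (d : ℕ → ℕ) (k : ℕ) (P : (ℕ → ℕ) → Prop) : PowerSeries ℤ :=
  mk fun n => (((vecs d k P n).ncard : ℕ) : ℤ)

theorem coeff_ser (d : ℕ → ℕ) (k : ℕ) (P : (ℕ → ℕ) → Prop) (n : ℕ) :
    coeff n (ser d k P) = (((vecs d k P n).ncard : ℕ) : ℤ) := coeff_mk _ _

theorem ser_nn (d : ℕ → ℕ) (k : ℕ) (P : (ℕ → ℕ) → Prop) : Nn (ser d k P) := by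
  intro n; rw [coeff_ser]; positivity

theorem ser_mono {d : ℕ → ℕ} {k : ℕ} (hd : ∀ i < k, 0 < d i) {P Q : (ℕ → ℕ) → Prop}
    (h : ∀ c, P c → Q c) : Nn (ser d k Q - ser d k P) := by
  intro n
  rw [map_sub, coeff_ser, coeff_ser]
  have : (vecs d k P n).ncard ≤ (vecs d k Q n).ncard :=
    Set.ncard_le_ncard (fun c hc => ⟨hc.1, hc.2.1, h c hc.2.2⟩) (vecs_finite hd Q n)
  have : (((vecs d k P n).ncard : ℕ) : ℤ) ≤ ((vecs d k Q n).ncard : ℤ) := by exact_mod_cast this
  linarith

theorem ser_congr {d : ℕ → ℕ} {k : ℕ} {P Q : (ℕ → ℕ) → Prop}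
    (h : ∀ c, P c ↔ Q c) : ser d k P = ser d k Q := by
  have : P = Q := funext fun c => propext (h c)
  rw [this]

theorem ser_false {d : ℕ → ℕ} {k : ℕ} {P : (ℕ → ℕ) → Prop}
    (h : ∀ c, ¬ P c) : ser d k P = 0 := by
  ext n
  rw [coeff_ser]
  have : vecs d k P n = ∅ := by
    ext c
    simp only [Set.mem_empty_iff_false, iff_false]
    intro hc
    exact h c hc.2.2
  rw [this]
  simp

theorem ser_split {d : ℕ → ℕ} {k : ℕ} (hd : ∀ i < k, 0 < d i) (P Q : (ℕ → ℕ) → Prop) :
    ser d k P = ser d k (fun c => P c ∧ Q c) + ser d k (fun c => P c ∧ ¬ Q c) := by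
  ext n
  rw [map_add, coeff_ser, coeff_ser, coeff_ser]
  have h1 : vecs d k P n = vecs d k (fun c => P c ∧ Q c) n ∪ vecs d k (fun c => P c ∧ ¬ Q c) n := by
    ext c
    by_cases hQ : Q c
    · constructor
      · intro hc; exact Or.inl ⟨hc.1, hc.2.1, hc.2.2, hQ⟩
      · rintro (hc | hc)
        · exact ⟨hc.1, hc.2.1, hc.2.2.1⟩
        · exact ⟨hc.1, hc.2.1, hc.2.2.1⟩
    · constructor
      · intro hc; exact Or.inr ⟨hc.1, hc.2.1, hc.2.2, hQ⟩
      · rintro (hc | hc)
        · exact ⟨hc.1, hc.2.1, hc.2.2.1⟩
        · exact ⟨hc.1, hc.2.1, hc.2.2.1⟩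
  have h2 : Disjoint (vecs d k (fun c => P c ∧ Q c) n) (vecs d k (fun c => P c ∧ ¬ Q c) n) := by
    rw [Set.disjoint_left]
    intro c hc hc'
    exact hc'.2.2.2 hc.2.2.2
  rw [h1, Set.ncard_union_eq h2 (vecs_finite hd _ n) (vecs_finite hd _ n)]
  push_cast
  rfl

/-- shifting by a vector `s` -/
theorem ser_shift {d : ℕ → ℕ} {k : ℕ} (s : ℕ → ℕ) (hs : ∀ i, k ≤ i → s i = 0)
    (P : (ℕ → ℕ) → Prop) :
    ser d k (fun c => (∀ i, s i ≤ c i) ∧ P (fun i => c i - s i)) =
      X ^ (dgr d k s) * ser d k P := by
  ext n
  rw [coeff_ser, coeff_X_pow_mul']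
  by_cases h : dgr d k s ≤ n
  · rw [if_pos h, coeff_ser]
    congr 1
    have himg : vecs d k (fun c => (∀ i, s i ≤ c i) ∧ P (fun i => c i - s i)) n =
        (fun c : ℕ → ℕ => fun i => c i + s i) '' vecs d k P (n - dgr d k s) := by
      ext c
      constructor
      · rintro ⟨h1, h2, h3, h4⟩
        refine ⟨fun i => c i - s i, ⟨?_, ?_, h4⟩, ?_⟩
        · intro i hi
          show c i - s i = 0
          rw [h1 i hi]; simp
        · have h5 : dgr d k (fun i => c i - s i) + dgr d k s = n := by
            rw [← h2]
            unfold dgr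
            rw [← Finset.sum_add_distrib]
            refine Finset.sum_congr rfl fun i _ => ?_
            show (c i - s i) * d i + s i * d i = c i * d i
            rw [← add_mul, Nat.sub_add_cancel (h3 i)]
          omega
        · funext i
          show c i - s i + s i = c i
          exact Nat.sub_add_cancel (h3 i)
      · rintro ⟨c', ⟨h1, h2, h3⟩, rfl⟩
        refine ⟨?_, ?_, ?_, ?_⟩
        · intro i hi
          show c' i + s i = 0
          rw [h1 i hi, hs i hi]
        · have h5 : dgr d k (fun i => c' i + s i) = dgr d k c' + dgr d k s := by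
            unfold dgr
            rw [← Finset.sum_add_distrib]
            refine Finset.sum_congr rfl fun i _ => ?_
            show (c' i + s i) * d i = _
            ring
          show dgr d k (fun i => c' i + s i) = n
          rw [h5]; omega
        · intro i
          exact Nat.le_add_left _ _
        · show P (fun i => c' i + s i - s i)
          have : (fun i => c' i + s i - s i) = c' := by
            funext i; simp
          rw [this]
          exact h3
    rw [himg]
    have hinj : Function.Injective (fun c : ℕ → ℕ => fun i => c i + s i) := by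
      intro a b hab
      funext i
      have : a i + s i = b i + s i := congrFun hab i
      omega
    rw [Set.ncard_image_of_injective _ hinj]
  · rw [if_neg h]
    have : vecs d k (fun c => (∀ i, s i ≤ c i) ∧ P (fun i => c i - s i)) n = ∅ := by
      ext c
      simp only [Set.mem_empty_iff_false, iff_false]
      rintro ⟨_, h2, h3, _⟩
      apply h
      rw [← h2]
      unfold dgr
      exact Finset.sum_le_sum fun i _ => Nat.mul_le_mul_right _ (h3 i)
    rw [this]
    simp

/-- all exponent vectors -/
theorem ser_all {d : ℕ → ℕ} {k : ℕ} (hd : ∀ i < k, 0 < d i) :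
    ser d k (fun _ => True) = ∏ i ∈ Finset.range k, geo (d i) := by
  induction k with
  | zero =>
    rw [Finset.range_zero, Finset.prod_empty]
    ext n
    rw [coeff_ser, coeff_one]
    by_cases hn : n = 0
    · subst hn
      rw [if_pos rfl]
      have : vecs d 0 (fun _ => True) 0 = {fun _ => 0} := by
        ext c
        constructor
        · rintro ⟨h1, _, _⟩
          show c = fun _ => 0
          funext i
          exact h1 i (Nat.zero_le _)
        · intro hc
          have : c = fun _ => 0 := hc
          subst this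
          exact ⟨fun _ _ => rfl, by simp [dgr], trivial⟩
      rw [this, Set.ncard_singleton]
      rfl
    · rw [if_neg hn]
      have : vecs d 0 (fun _ => True) n = ∅ := by
        ext c
        simp only [Set.mem_empty_iff_false, iff_false]
        rintro ⟨_, h2, _⟩
        apply hn
        rw [← h2]
        simp [dgr]
      rw [this]
      simp
  | succ k ih =>
    have hd' : ∀ i < k, 0 < d i := fun i hi => hd i (by omega)
    have hdk : 0 < d k := hd k (by omega)
    rw [Finset.prod_range_succ, ← ih hd']
    -- vectors with `c k ≥ 1`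
    set e : ℕ → ℕ := fun i => if i = k then 1 else 0 with he
    have hshift := ser_shift (d := d) (k := k + 1) e
      (by intro i hi; simp [he]; omega) (fun _ => True)
    have hde : dgr d (k + 1) e = d k := by
      unfold dgr
      rw [Finset.sum_range_succ]
      have : ∑ i ∈ Finset.range k, e i * d i = 0 := by
        refine Finset.sum_eq_zero fun i hi => ?_
        have : i ≠ k := (Finset.mem_range.mp hi).ne
        simp [he, this]
      rw [this]
      simp [he]
    rw [hde] at hshift
    have hsp := ser_split hd (fun _ => True) (fun c => 1 ≤ c k)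
    have h1 : ser d (k + 1) (fun c => True ∧ 1 ≤ c k) = X ^ d k * ser d (k + 1) (fun _ => True) := by
      rw [← hshift]
      refine ser_congr fun c => ?_
      constructor
      · rintro ⟨_, h⟩
        refine ⟨fun i => ?_, trivial⟩
        by_cases hi : i = k
        · subst hi; simpa [he] using h
        · simp [he, hi]
      · rintro ⟨h, _⟩
        have := h k
        simp [he] at this
        exact ⟨trivial, by omega⟩
    have h2 : ser d (k + 1) (fun c => True ∧ ¬ 1 ≤ c k) = ser d k (fun _ => True) := by
      ext n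
      rw [coeff_ser, coeff_ser]
      congr 2
      ext c
      constructor
      · rintro ⟨g1, g2, _, g3⟩
        have g4 : c k = 0 := by omega
        refine ⟨?_, ?_, trivial⟩
        · intro i hi
          rcases Nat.lt_or_ge k i with h | h
          · exact g1 i h
          · have : i = k := by omega
            rw [this]; exact g4
        · rw [← g2]
          unfold dgr
          rw [Finset.sum_range_succ, g4]
          simp
      · rintro ⟨g1, g2, _⟩
        have g4 : c k = 0 := g1 k le_rfl
        refine ⟨fun i hi => g1 i (by omega), ?_, trivial, by omega⟩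
        rw [← g2]
        unfold dgr
        rw [Finset.sum_range_succ, g4]
        simp
    rw [h1, h2] at hsp
    have h3 := geo_mul hdk
    calc ser d (k + 1) (fun _ => True)
        = ser d (k + 1) (fun _ => True) * (geo (d k) * (1 - X ^ d k)) := by rw [h3, mul_one]
      _ = (ser d (k + 1) (fun _ => True) - X ^ d k * ser d (k + 1) (fun _ => True)) *
          geo (d k) := by ring
      _ = ser d k (fun _ => True) * geo (d k) := by
          congr 1
          exact sub_eq_iff_eq_add'.mpr hsp

end Pool.Agent.Lib.MP_2e8272_nt.Full
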