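import Pool.Agent.Lib.MP_2e8272_nt.Full.Base

/-!
# Relations in the tower in multiplication form
-/

namespace Pool.Agent.Lib.MP_2e8272_nt.Full

open scoped Nat

/-- two values of degrees `a`, `b` in `V` with quotient `x` -/
def MulIn (V : Set (ℕ × ℕ)) (x a b : ℕ) : Prop :=
  ∃ v w : ℕ, (a, v) ∈ V ∧ (b, w) ∈ V ∧ v = x * w

theorem MulIn.one {V : Set (ℕ × ℕ)} (hV : Mon V) : MulIn V 1 0 0 :=
  ⟨1, 1, hV.one, hV.one, rfl⟩

theorem MulIn.mul {V : Set (ℕ × ℕ)} (hV : Mon V) {x y a b c d : ℕ} (h1 : MulIn V x a b)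
    (h2 : MulIn V y c d) : MulIn V (x * y) (a + c) (b + d) := by
  obtain ⟨v, w, hv, hw, he⟩ := h1
  obtain ⟨v', w', hv', hw', he'⟩ := h2
  refine ⟨v * v', w * w', hV.mul hv hv', hV.mul hw hw', ?_⟩
  rw [he, he']; ring

theorem MulIn.mono {V W : Set (ℕ × ℕ)} (h : V ⊆ W) {x a b : ℕ} (h1 : MulIn V x a b) :
    MulIn W x a b := by
  obtain ⟨v, w, hv, hw, he⟩ := h1
  exact ⟨v, w, h hv, h hw, he⟩

/-- the generic factor `b`: `b! = b * (b - 1)!` -/
theorem MulIn.part {L : ℕ} (hL : 0 < L) {B : Set (ℕ × ℕ)} (hB : Mon B) {b k : ℕ} (hb : 0 < b)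
    (hk : b ≤ k) : MulIn (tower L B k) b (L * b) (L * (b - 1)) := by
  refine ⟨b !, (b - 1)!, gen_mem_tower hL hB hk, gen_mem_tower hL hB (by omega), ?_⟩
  exact (Nat.mul_factorial_pred (by omega)).symm

theorem unit_pow_mem {V : Set (ℕ × ℕ)} (hV : Mon V) (n : ℕ) : (n, 1) ∈ V := by
  induction n with
  | zero => exact hV.one
  | succ n ih => simpa using hV.mul ih hV.unit

theorem pad_mem {V : Set (ℕ × ℕ)} (hV : Mon V) {a b x : ℕ} (h : (a, x) ∈ V) (hab : a ≤ b) :
    (b, x) ∈ V := by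
  obtain ⟨c, rfl⟩ := Nat.exists_eq_add_of_le hab
  simpa using hV.mul h (unit_pow_mem hV c)

theorem HasRel.mono {L : ℕ} (hL : 0 < L) {B : Set (ℕ × ℕ)} (hB : Mon B) {m t t' : ℕ}
    (h : HasRel L B m t) (ht : t ≤ t') : HasRel L B m t' := by
  obtain ⟨v, w, e, h1, h2, h3, h4⟩ := h
  exact ⟨v, w, e + (t' - t), by omega, pad_mem (hB.tower hL _) h2 ht, h3,
    pad_mem (hB.tower hL _) h4 (by omega)⟩

/-- a relation from the factor form: `m (m - 1) ... (m - j + 1) = v / w` -/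
theorem HasRel.of_mul {L : ℕ} (hL : 0 < L) {B : Set (ℕ × ℕ)} (hB : Mon B) {m j a b t : ℕ}
    (hj : 0 < j) (hjm : j ≤ m) (h : MulIn (tower L B (m - 1)) (m.descFactorial j) a b)
    (h1 : L * (m - j) + a ≤ t) (h2 : L * m + b ≤ t) : HasRel L B m t := by
  obtain ⟨v, w, hv, hw, he⟩ := h
  have hM := hB.tower hL (m - 1)
  refine ⟨(m - j)! * v, w, t - L * m, by omega, ?_, ?_, ?_⟩
  · exact pad_mem hM (hM.mul (gen_mem_tower hL hB (by omega)) hv) h1
  · rw [he, ← mul_assoc, Nat.factorial_mul_descFactorial hjm, mul_comm]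
  · exact pad_mem (hB.tower hL m) (tower_mono (Nat.sub_le _ _) hw) (by omega)

/-- a redundant generator -/
theorem HasRel.self {L : ℕ} {B : Set (ℕ × ℕ)} (hB : Mon B) (hL : 0 < L) {m : ℕ}
    (h : (L * m, m !) ∈ tower L B (m - 1)) : HasRel L B m (L * m) :=
  ⟨m !, 1, 0, by omega, h, by ring, (hB.tower hL m).one⟩

/-- sparse monomials give elements of the base monoid -/
theorem mono_mem_baseOf {l : List (ℕ × ℕ)} (hl : ∀ g ∈ l, 0 < g.1 ∧ 0 < g.2) (m : Mo) :
    (mdeg (gd l) m, mval l m) ∈ baseOf l := by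
  have hM := baseOf_mon l hl
  have hgen : ∀ i, (gd l i, gv l i) ∈ baseOf l := by
    intro i
    unfold gd gv
    clear hM
    induction l generalizing i with
    | nil => exact (baseOf_mon [] hl).unit
    | cons g l ih =>
      have hl' : ∀ x ∈ l, 0 < x.1 ∧ 0 < x.2 := fun x hx => hl x (by simp [hx])
      cases i with
      | zero => exact gen_mem_adj (baseOf_mon l hl') g.1 g.2
      | succ i => exact subset_adj _ _ _ (ih hl' i)
  have hpow : ∀ i n, (n * gd l i, gv l i ^ n) ∈ baseOf l := by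
    intro i n
    induction n with
    | zero => simpa using hM.one
    | succ n ih =>
      have := hM.mul ih (hgen i)
      rw [pow_succ, add_mul, one_mul]
      exact this
  induction m with
  | nil => exact hM.one
  | cons x m ih => exact hM.mul (hpow x.1 x.2) ih

/-- an entry of a multiplication table: `(x, v, w)` with `value v = x * value w` -/
theorem MulIn.of_mono {l : List (ℕ × ℕ)} (hl : ∀ g ∈ l, 0 < g.1 ∧ 0 < g.2) {x : ℕ} (v w : Mo)
    (h : mval l v = x * mval l w) : MulIn (baseOf l) x (mdeg (gd l) v) (mdeg (gd l) w) :=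
  ⟨_, _, mono_mem_baseOf hl v, mono_mem_baseOf hl w, h⟩

end Pool.Agent.Lib.MP_2e8272_nt.Full
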