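import Mathlib
import Pool.Agent.Lib.MP_2e8272_nt.Defs
import Pool.Agent.Lib.MP_2e8272_nt.Full.PS

/-!
# The coefficient form of `pSharp`
-/

namespace Pool.Agent.Lib.MP_2e8272_nt.Full

open PowerSeries Finset

/-- the parts up to `N` allowed by `pSharp` -/
def TS (N : ℕ) : Finset ℕ := (Finset.Icc 1 N).filter (fun a => a ≤ 7 ∨ 3 ∣ a)

theorem TS_pos {N a : ℕ} (h : a ∈ TS N) : 0 < a := by
  have := (Finset.mem_filter.mp h).1
  exact (Finset.mem_Icc.mp this).1

/-- the multiset with `l t / t` copies of `t` -/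
private def msOf (T : Finset ℕ) (l : ℕ →₀ ℕ) : Multiset ℕ :=
  ∑ t ∈ T, Multiset.replicate (l t / t) t

private theorem msOf_count (T : Finset ℕ) (l : ℕ →₀ ℕ) (a : ℕ) :
    (msOf T l).count a = if a ∈ T then l a / a else 0 := by
  rw [msOf, Multiset.count_sum']
  simp only [Multiset.count_replicate]
  rw [Finset.sum_ite_eq']

private theorem msOf_mem {T : Finset ℕ} {l : ℕ →₀ ℕ} {a : ℕ} (h : a ∈ msOf T l) : a ∈ T := by
  by_contra h1
  have := msOf_count T l a
  rw [if_neg h1, Multiset.count_eq_zero] at this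
  exact this h

private theorem msOf_sum (T : Finset ℕ) (l : ℕ →₀ ℕ) (h : ∀ t ∈ T, t ∣ l t) :
    (msOf T l).sum = ∑ t ∈ T, l t := by
  rw [msOf, Multiset.sum_sum]
  refine Finset.sum_congr rfl fun t ht => ?_
  rw [Multiset.sum_replicate, smul_eq_mul, Nat.div_mul_cancel (h t ht)]

theorem coeff_prod_geo (T : Finset ℕ) (n : ℕ) :
    coeff n (∏ t ∈ T, geo t) =
      (((T.finsuppAntidiag n).filter (fun l => ∀ t ∈ T, t ∣ l t)).card : ℤ) := by
  rw [coeff_prod, Finset.card_filter]
  push_cast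
  refine Finset.sum_congr rfl fun l _ => ?_
  simp only [geo, coeff_mk]
  rw [Finset.prod_boole]

/-- lower bound for `pSharp` -/
theorem coeff_le_pSharp (N n : ℕ) : coeff n (∏ t ∈ TS N, geo t) ≤ (pSharp n : ℤ) := by
  rw [coeff_prod_geo, pSharp]
  norm_cast
  rw [← Fintype.card_coe]
  have key : ∀ l : ((TS N).finsuppAntidiag n).filter (fun l => ∀ t ∈ TS N, t ∣ l t),
      (msOf (TS N) l.1).sum = n := by
    rintro ⟨l, hl⟩
    rw [Finset.mem_filter, Finset.mem_finsuppAntidiag] at hl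
    rw [msOf_sum _ _ hl.2]
    exact hl.1.1
  let f : ((TS N).finsuppAntidiag n).filter (fun l => ∀ t ∈ TS N, t ∣ l t) →
      {l : n.Partition // ∀ a ∈ l.parts, a ≤ 7 ∨ 3 ∣ a} := fun l =>
    ⟨⟨msOf (TS N) l.1, fun {a} ha => TS_pos (msOf_mem ha), key l⟩,
      fun a ha => by
        have h1 : a ∈ TS N := msOf_mem ha
        exact (Finset.mem_filter.mp h1).2⟩
  refine Fintype.card_le_of_injective f ?_
  rintro ⟨l, hl⟩ ⟨l', hl'⟩ h
  have h1 : msOf (TS N) l = msOf (TS N) l' := by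
    have := congrArg (fun x => x.1.parts) h
    exact this
  rw [Finset.mem_filter, Finset.mem_finsuppAntidiag] at hl hl'
  refine Subtype.ext (Finsupp.ext fun a => ?_)
  by_cases ha : a ∈ TS N
  · have h2 := msOf_count (TS N) l a
    rw [h1, msOf_count, if_pos ha, if_pos ha] at h2
    have h3 := Nat.div_mul_cancel (hl.2 a ha)
    have h4 := Nat.div_mul_cancel (hl'.2 a ha)
    change l a = l' a
    rw [← h3, ← h4, h2]
  · have h2 : l a = 0 := by
      by_contra h3
      exact ha (hl.1.2 (Finsupp.mem_support_iff.mpr h3))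
    have h3 : l' a = 0 := by
      by_contra h3
      exact ha (hl'.1.2 (Finsupp.mem_support_iff.mpr h3))
    change l a = l' a
    rw [h2, h3]

end Pool.Agent.Lib.MP_2e8272_nt.Full
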