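import Pool.Agent.Lib.MP_2e8272_nt.Full.TreeNum
import Pool.Agent.Lib.MP_2e8272_nt.Full.Rel
import Pool.Agent.Lib.MP_2e8272_nt.Full.Sharp

/-!
# Certificates for a finite range of `n` (grid `L = 1`)
-/

namespace Pool.Agent.Lib.MP_2e8272_nt.Full

open PowerSeries
open scoped Nat

/-! ## Relation tables -/

/-- degree of an atom: base generator (index below 1000) or part `index - 1000` -/
def aD (l : List (ℕ × ℕ)) (i : ℕ) : ℕ := if i < 1000 then gd l i else i - 1000

/-- value of an atom -/
def aV (l : List (ℕ × ℕ)) (i : ℕ) : ℕ := if i < 1000 then gv l i else (i - 1000)!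

/-- value of a monomial in atoms -/
def mvalA (l : List (ℕ × ℕ)) : Mo → ℕ
  | [] => 1
  | x :: m => aV l x.1 ^ x.2 * mvalA l m

theorem atom_mem {l : List (ℕ × ℕ)} (hl : ∀ g ∈ l, 0 < g.1 ∧ 0 < g.2) {k : ℕ} (m : Mo)
    (hm : ∀ x ∈ m, x.1 ≤ 1000 + k) :
    (mdeg (aD l) m, mvalA l m) ∈ tower 1 (baseOf l) k := by
  have hM := (baseOf_mon l hl).tower Nat.one_pos k (L := 1)
  have hgen : ∀ i, i ≤ 1000 + k → (aD l i, aV l i) ∈ tower 1 (baseOf l) k := by
    intro i hi
    unfold aD aV
    by_cases h : i < 1000
    · rw [if_pos h, if_pos h]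
      have h1 := mono_mem_baseOf hl [(i, 1)]
      have h2 : (mdeg (gd l) [(i, 1)], mval l [(i, 1)]) = (gd l i, gv l i) := by
        simp [mdeg, mval]
      rw [h2] at h1
      exact tower_mono (Nat.zero_le k) h1
    · rw [if_neg h, if_neg h]
      have := gen_mem_tower (L := 1) Nat.one_pos (baseOf_mon l hl) (i := i - 1000) (m := k)
        (by omega)
      rw [one_mul] at this
      exact this
  induction m with
  | nil => exact hM.one
  | cons x m ih =>
    have hpow : ∀ n, (n * aD l x.1, aV l x.1 ^ n) ∈ tower 1 (baseOf l) k := by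
      intro n
      induction n with
      | zero => simpa using hM.one
      | succ n ih2 =>
        have := hM.mul ih2 (hgen x.1 (hm x (by simp)))
        rw [pow_succ, add_mul, one_mul]
        exact this
    exact hM.mul (hpow x.2) (ih fun y hy => hm y (by simp [hy]))

/-- entry `(j, x, v, w)` of the multiplication table -/
abbrev TE := ℕ × ℕ × Mo × Mo

/-- largest atom index -/
def topA : Mo → ℕ
  | [] => 0
  | x :: m => max x.1 (topA m)

theorem le_topA {m : Mo} {x : ℕ × ℕ} (h : x ∈ m) : x.1 ≤ topA m := by
  induction m with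
  | nil => simp at h
  | cons y m ih =>
    rw [List.mem_cons] at h
    rcases h with rfl | h
    · exact le_max_left _ _
    · exact (ih h).trans (le_max_right _ _)

/-- check of a table entry: `v = x * w` for `j = 1` (used for all `m = x * b`), and
`v = x (x - 1) ... (x - j + 1) * w` for `j > 1` (used for `m = x`) -/
def teOk (l : List (ℕ × ℕ)) (e : TE) : Bool :=
  decide (0 < e.1) && decide (e.1 ≤ e.2.1) &&
    decide (mvalA l e.2.2.1 = e.2.1.descFactorial e.1 * mvalA l e.2.2.2)

/-- the generator number of an entry -/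
def entM (e : TE) (b : ℕ) : ℕ := if e.1 = 1 then e.2.1 * b else e.2.1

/-- the degree of the relation of an entry -/
def entT (l : List (ℕ × ℕ)) (e : TE) (b : ℕ) : ℕ :=
  if b = 1 then max (entM e b - e.1 + mdeg (aD l) e.2.2.1) (entM e b + mdeg (aD l) e.2.2.2)
  else max (entM e b - e.1 + mdeg (aD l) e.2.2.1 + b)
    (entM e b + mdeg (aD l) e.2.2.2 + (b - 1))

/-- check of the use of an entry with the factor `b` -/
def entOk (e : TE) (b : ℕ) : Bool :=
  decide (0 < b) && (decide (b = 1) || decide (e.1 = 1)) && decide (b < entM e b) &&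
    decide (topA e.2.2.1 < 1000 + entM e b) && decide (topA e.2.2.2 < 1000 + entM e b)

theorem hasRel_of_entry {l : List (ℕ × ℕ)} (hl : ∀ g ∈ l, 0 < g.1 ∧ 0 < g.2) {e : TE} {b : ℕ}
    (h1 : teOk l e = true) (h2 : entOk e b = true) :
    HasRel 1 (baseOf l) (entM e b) (entT l e b) := by
  obtain ⟨j, x, v, w⟩ := e
  simp only [teOk, entOk, Bool.and_eq_true, Bool.or_eq_true, decide_eq_true_eq] at h1 h2
  obtain ⟨⟨hj, hjx⟩, hval⟩ := h1
  obtain ⟨⟨⟨⟨hb, hbj⟩, hbm⟩, htv⟩, htw⟩ := h2
  have hB := baseOf_mon l hl
  set m := entM (j, x, v, w) b with hm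
  have hM := hB.tower Nat.one_pos (m - 1) (L := 1)
  have hv := atom_mem hl (k := m - 1) v (fun y hy => by
    have := le_topA hy
    omega)
  have hw := atom_mem hl (k := m - 1) w (fun y hy => by
    have := le_topA hy
    omega)
  by_cases hb1 : b = 1
  · have hmx : m = x := by
      rw [hm]; unfold entM
      split_ifs
      · simp [hb1]
      · rfl
    refine HasRel.of_mul Nat.one_pos hB hj (by omega)
      (a := mdeg (aD l) v) (b := mdeg (aD l) w) ⟨_, _, hv, hw, ?_⟩ ?_ ?_
    · rw [hmx]; exact hval
    · unfold entT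
      rw [if_pos hb1, one_mul]
      exact le_max_left _ _
    · unfold entT
      rw [if_pos hb1, one_mul]
      exact le_max_right _ _
  · have hj1 : j = 1 := by
      rcases hbj with h | h
      · exact absurd h hb1
      · exact h
    subst hj1
    have hmx : m = x * b := by
      rw [hm]; unfold entM
      simp
    have hx0 : 0 < x := by omega
    refine HasRel.of_mul Nat.one_pos hB hj (by omega)
      (a := mdeg (aD l) v + b) (b := mdeg (aD l) w + (b - 1)) ?_ ?_ ?_
    · have h1 : MulIn (tower 1 (baseOf l) (m - 1)) x (mdeg (aD l) v) (mdeg (aD l) w) :=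
        ⟨_, _, hv, hw, by rw [hval, Nat.descFactorial_one]⟩
      have h2 := MulIn.part (L := 1) Nat.one_pos hB hb (k := m - 1) (by omega)
      have h3 := h1.mul hM h2
      rw [one_mul, one_mul] at h3
      rw [hmx, Nat.descFactorial_one]
      rw [hmx] at h3
      exact h3
    · unfold entT
      rw [if_neg hb1, one_mul]
      refine le_trans (le_of_eq ?_) (le_max_left _ _)
      show m - 1 + (mdeg (aD l) v + b) = m - 1 + mdeg (aD l) v + b
      ring
    · unfold entT
      rw [if_neg hb1, one_mul]
      refine le_trans (le_of_eq ?_) (le_max_right _ _)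
      show m + (mdeg (aD l) w + (b - 1)) = m + mdeg (aD l) w + (b - 1)
      ring

/-- the list of pairs (generator, degree of the relation) of a list of uses -/
def relList (l : List (ℕ × ℕ)) (tb : List TE) : List (ℕ × ℕ) → List (ℕ × ℕ)
  | [] => []
  | u :: us => (entM (tb.getD u.1 (1, 1, [], [])) u.2,
      entT l (tb.getD u.1 (1, 1, [], [])) u.2) :: relList l tb us

/-- all uses are correct -/
def usesOk (tb : List TE) (us : List (ℕ × ℕ)) : Bool :=
  us.all (fun u => decide (u.1 < tb.length) && entOk (tb.getD u.1 (1, 1, [], [])) u.2)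

theorem hasRel_relList {l : List (ℕ × ℕ)} (hl : ∀ g ∈ l, 0 < g.1 ∧ 0 < g.2) {tb : List TE}
    (h1 : tb.all (teOk l) = true) {us : List (ℕ × ℕ)} (h2 : usesOk tb us = true) :
    ∀ r ∈ relList l tb us, HasRel 1 (baseOf l) r.1 r.2 := by
  induction us with
  | nil => intro r hr; simp [relList] at hr
  | cons u us ih =>
    intro r hr
    simp only [usesOk, List.all_cons, Bool.and_eq_true, decide_eq_true_eq] at h2
    rw [relList, List.mem_cons] at hr
    rcases hr with rfl | hr
    · refine hasRel_of_entry hl ?_ h2.1.2
      have : tb.getD u.1 (1, 1, [], []) = tb[u.1]'h2.1.1 := by simp [h2.1.1]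
      rw [this]
      exact List.all_eq_true.mp h1 _ (List.getElem_mem _)
    · exact ih h2.2 r hr

/-- strictly increasing first components, above a bound -/
def incr : ℕ → List (ℕ × ℕ) → Bool
  | _, [] => true
  | a, r :: rs => Nat.blt a r.1 && incr r.1 rs

theorem incr_spec : ∀ (a : ℕ) (rs : List (ℕ × ℕ)), incr a rs = true →
    (∀ r ∈ rs, a < r.1) ∧ (rs.map Prod.fst).Nodup := by
  intro a rs
  induction rs generalizing a with
  | nil => intro _; simp
  | cons r rs ih =>
    intro h
    rw [incr, Bool.and_eq_true] at h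
    have h1 : a < r.1 := Nat.blt_eq.mp h.1
    obtain ⟨h2, h3⟩ := ih r.1 h.2
    constructor
    · intro s hs
      rw [List.mem_cons] at hs
      rcases hs with rfl | hs
      · exact h1
      · exact h1.trans (h2 s hs)
    · rw [List.map_cons, List.nodup_cons]
      refine ⟨?_, h3⟩
      intro hmem
      obtain ⟨s, hs, he⟩ := List.mem_map.mp hmem
      have := h2 s hs
      omega

theorem look_of_mem {rl : List (ℕ × ℕ)} (hnd : (rl.map Prod.fst).Nodup) {r : ℕ × ℕ}
    (hr : r ∈ rl) : look rl r.1 = r.2 := by
  induction rl with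
  | nil => simp at hr
  | cons s rl ih =>
    rw [List.map_cons, List.nodup_cons] at hnd
    rw [List.mem_cons] at hr
    rcases hr with rfl | hr
    · rw [look, if_pos rfl]
    · rw [look, if_neg]
      · exact ih hnd.2 hr
      · intro he
        exact hnd.1 (he ▸ List.mem_map_of_mem hr)

theorem length_filter_eq_sum (I : List ℕ) (x : ℕ) :
    (I.filter (fun a => decide (a ≤ x))).length = (I.map fun a => if a ≤ x then 1 else 0).sum := by
  induction I with
  | nil => simp
  | cons a I ih =>
    rw [List.map_cons, List.sum_cons, ← ih, List.filter_cons]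
    by_cases h : a ≤ x
    · simp [h]; ring
    · simp [h]

/-- the matching theorem for lists -/
theorem matching_list {B : Set (ℕ × ℕ)} (hB : Mon B) (N : ℕ) (rl : List (ℕ × ℕ))
    (hnd : (rl.map Prod.fst).Nodup) (hpos : ∀ r ∈ rl, 0 < r.1 ∧ r.1 ≤ N)
    (hrel : ∀ r ∈ rl, HasRel 1 B r.1 r.2) (I : List ℕ) (hI : ∀ a ∈ I, 0 < a)
    (hcount : ∀ x, 0 < x → x ≤ N →
      x ≤ (rl.filter (fun r => decide (r.2 ≤ x))).length +
        (I.filter (fun a => decide (a ≤ x))).length) :
    Nn (cnt B * (I.map geo).prod - cnt (tower 1 B N)) := by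
  classical
  have h := matching (L := 1) Nat.one_pos hB N (rl.map Prod.fst).toFinset (look rl)
    (by
      intro i hi
      rw [List.mem_toFinset] at hi
      obtain ⟨r, hr, rfl⟩ := List.mem_map.mp hi
      exact hpos r hr)
    (by
      intro i hi
      rw [List.mem_toFinset] at hi
      obtain ⟨r, hr, rfl⟩ := List.mem_map.mp hi
      rw [look_of_mem hnd hr]
      exact hrel r hr)
    (Finset.univ : Finset (Fin I.length)) (fun a => I[a])
    (fun a _ => hI _ (List.getElem_mem _))
    (by
      intro x hx hxN
      refine (hcount x hx hxN).trans (le_of_eq ?_)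
      congr 1
      · have e : (rl.map Prod.fst).toFinset.filter (fun i => look rl i ≤ 1 * x) =
            ((rl.filter (fun r => decide (r.2 ≤ x))).map Prod.fst).toFinset := by
          ext i
          rw [Finset.mem_filter, List.mem_toFinset, List.mem_toFinset, List.mem_map, List.mem_map]
          constructor
          · rintro ⟨⟨r, hr, rfl⟩, h2⟩
            rw [look_of_mem hnd hr, one_mul] at h2
            exact ⟨r, List.mem_filter.mpr ⟨hr, decide_eq_true h2⟩, rfl⟩
          · rintro ⟨r, hr, rfl⟩
            obtain ⟨h3, h4⟩ := List.mem_filter.mp hr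
            refine ⟨⟨r, h3, rfl⟩, ?_⟩
            rw [look_of_mem hnd h3, one_mul]
            exact of_decide_eq_true h4
        rw [e, List.toFinset_card_of_nodup, List.length_map]
        exact (List.filter_sublist.map Prod.fst).nodup hnd
      · rw [length_filter_eq_sum, Finset.card_filter]
        simp only [one_mul]
        rw [← List.sum_ofFn]
        congr 1
        conv_lhs => rw [← List.ofFn_getElem (xs := I)]
        rw [List.map_ofFn]
        rfl)
  have e : ∏ a : Fin I.length, geo (I[a]) = (I.map geo).prod := by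
    rw [← List.prod_ofFn]
    congr 1
    conv_rhs => rw [← List.ofFn_getElem (xs := I)]
    rw [List.map_ofFn]
    rfl
  rw [← e]
  exact h

/-! ## Counting by packed series -/

/-- the series of a list of exponents -/
noncomputable def expS : List ℕ → PowerSeries ℤ
  | [] => 0
  | a :: I => X ^ a + expS I

theorem coeff_expS_geo (I : List ℕ) (x : ℕ) :
    coeff x (expS I * geo 1) = ((I.filter (fun a => decide (a ≤ x))).length : ℤ) := by
  induction I with
  | nil => simp [expS]
  | cons a I ih =>
    rw [expS, add_mul, map_add, ih, coeff_X_pow_mul', List.filter_cons]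
    by_cases h : a ≤ x
    · rw [if_pos h, geo, coeff_mk, if_pos (one_dvd _)]
      simp [h]; ring
    · rw [if_neg h]
      simp [h]

/-- packed form of `expS` -/
def expN (w n : ℕ) : List ℕ → ℕ
  | [] => 0
  | a :: I =>
    match Nat.blt a n with
    | true => Nat.add (Nat.shiftLeft 1 (Nat.mul w a)) (expN w n I)
    | false => expN w n I

theorem rep_expN {v n : ℕ} (I : List ℕ) (h : I.length < 2 ^ v) :
    Rep v n (expN (v + 1) n I) (expS I) := by
  have key : ∀ I : List ℕ, ∃ f : ℕ → ℕ, (∀ i < n, coeff i (expS I) = (f i : ℤ)) ∧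
      (∀ i < n, f i ≤ I.length) ∧ expN (v + 1) n I = pk (v + 1) f n := by
    intro I
    induction I with
    | nil => exact ⟨fun _ => 0, by simp [expS], by simp, by simp [expN, pk]⟩
    | cons a I ih =>
      obtain ⟨f, h1, h2, h3⟩ := ih
      by_cases ha : a < n
      · refine ⟨fun i => f i + if i = a then 1 else 0, ?_, ?_, ?_⟩
        · intro i hi
          rw [expS, map_add, coeff_X_pow, h1 i hi]
          push_cast
          ring
        · intro i hi
          have := h2 i hi
          show f i + (if i = a then 1 else 0) ≤ I.length + 1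
          split_ifs <;> omega
        · have e : expN (v + 1) n (a :: I) =
              1 <<< ((v + 1) * a) + expN (v + 1) n I := by
            rw [expN, Nat.blt_eq.mpr ha]
            rfl
          rw [e, h3, Nat.shiftLeft_eq, one_mul, pk, pk, add_comm]
          simp only [add_mul, Finset.sum_add_distrib, ite_mul, one_mul, zero_mul]
          congr 1
          rw [Finset.sum_ite_eq' (Finset.range n) a, if_pos (Finset.mem_range.mpr ha)]
      · refine ⟨f, ?_, ?_, ?_⟩
        · intro i hi
          rw [expS, map_add, coeff_X_pow, h1 i hi, if_neg (by omega), zero_add]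
        · intro i hi
          have := h2 i hi
          show f i ≤ I.length + 1
          omega
        · have e : expN (v + 1) n (a :: I) = expN (v + 1) n I := by
            rw [expN]
            have : Nat.blt a n = false := by
              rw [Bool.eq_false_iff]
              intro h
              exact ha (Nat.blt_eq.mp h)
            rw [this]
          rw [e, h3]
  obtain ⟨f, h1, h2, h3⟩ := key I
  exact ⟨f, h1, fun i hi => (h2 i hi).trans_lt h, h3⟩

/-- the check that up to every `x < n` there are at least `x` entries in the list -/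
def countOk (v n : ℕ) (J : List ℕ) : Bool :=
  Nat.blt J.length (Nat.pow 2 v) && Nat.blt 1 (Nat.pow 2 v) && Nat.blt 1 n &&
  match mulList (v + 1) n (maskOf v n) [1] (expN (v + 1) n J),
    mulList (v + 1) n (maskOf v n) [1, 1] (expN (v + 1) n [1]) with
  | some P, some Q => cmpFrom v n 0 Q P
  | _, _ => false

theorem countOk_spec {v n : ℕ} {J : List ℕ} (h : countOk v n J = true) :
    ∀ x < n, x ≤ (J.filter (fun a => decide (a ≤ x))).length := by
  unfold countOk at h
  simp only [Bool.and_eq_true, Nat.blt_eq] at h
  obtain ⟨⟨⟨h1, h2⟩, h3⟩, h4⟩ := h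
  split at h4
  · rename_i P Q hP hQ
    have r1 := Rep.mulList [1] _ P _ (by simp) (rep_expN (v := v) (n := n) J h1) hP
    have r2 := Rep.mulList [1, 1] _ Q _ (by simp) (rep_expN (v := v) (n := n) [1] h2) hQ
    have h5 := Rep.le_of_cmpFrom r2 r1 (Nat.zero_le n) h4
    intro x hx
    have h6 := h5 x (Nat.zero_le _) hx
    have e1 : expS J * (([1] : List ℕ).map geo).prod = expS J * geo 1 := by simp
    have e2 : coeff x (expS [1] * (([1, 1] : List ℕ).map geo).prod) = (x : ℤ) := by
      have e3 : expS [1] * (([1, 1] : List ℕ).map geo).prod = X * (geo 1 * geo 1) := by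
        simp [expS]
      have e4 : ∀ y : ℕ, coeff y (geo 1 * geo 1) = (y : ℤ) + 1 := by
        intro y
        rw [coeff_mul]
        simp [geo]
      rw [e3]
      cases x with
      | zero => simp
      | succ x =>
        rw [coeff_succ_X_mul, e4]
        push_cast
        ring
    rw [e1, coeff_expS_geo, e2] at h6
    exact_mod_cast h6
  · exact absurd h4 (by simp)

end Pool.Agent.Lib.MP_2e8272_nt.Full
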