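import Mathlib
import Pool.Agent.Lib.MP_2e8272_nt.Full.Tail

/-!
# Multiplication by a geometric series with one multiplication

`P * ((2 ^ (w g k) - 1) / (2 ^ (w g) - 1)) mod 2 ^ (w n)` with `g k ≥ n`. The digits of `P` have to be
smaller than `2 ^ u`, where `(n / g + 1) 2 ^ u ≤ 2 ^ v`, `w = v + 1`.
-/

namespace Pool.Agent.Lib.MP_2e8272_nt.Full

open PowerSeries Finset

/-- the number with digits `2 ^ w - 2 ^ u` in base `2 ^ w` -/
def maskHi (w u n : ℕ) : ℕ :=
  Nat.mul (Nat.sub (Nat.pow 2 w) (Nat.pow 2 u))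
    (Nat.div (Nat.sub (Nat.pow 2 (Nat.mul w n)) 1) (Nat.sub (Nat.pow 2 w) 1))

theorem maskHi_eq {w : ℕ} (hw : 0 < w) (u n : ℕ) :
    maskHi w u n = pk w (fun _ => 2 ^ w - 2 ^ u) n := by
  have h1 : 2 ≤ 2 ^ w := by
    calc 2 = 2 ^ 1 := by norm_num
      _ ≤ 2 ^ w := Nat.pow_le_pow_right (by norm_num) hw
  have h2 := Nat.geomSum_eq h1 n
  have h3 : maskHi w u n = (2 ^ w - 2 ^ u) * ((2 ^ (w * n) - 1) / (2 ^ w - 1)) := rfl
  rw [h3, pow_mul, ← h2, pk, Finset.mul_sum]
  exact Finset.sum_congr rfl fun i _ => by rw [pow_mul]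

theorem lt_of_land_maskHi {w u n : ℕ} (huw : u ≤ w) (hw : 0 < w) {f : ℕ → ℕ}
    (h : ∀ i < n, f i < 2 ^ w) (hm : pk w f n &&& maskHi w u n = 0) : ∀ i < n, f i < 2 ^ u := by
  intro i hi
  have h2 : ∀ k < n, (fun _ : ℕ => 2 ^ w - 2 ^ u) k < 2 ^ w := fun k _ => by
    change 2 ^ w - 2 ^ u < 2 ^ w
    have := Nat.pow_pos (n := u) (show 0 < 2 by norm_num)
    have := Nat.pow_pos (n := w) (show 0 < 2 by norm_num)
    omega
  by_contra h4
  have h4' : 2 ^ u ≤ f i := not_lt.mp h4
  -- some bit j with u ≤ j < w is set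
  obtain ⟨j, hj1, hj2⟩ : ∃ j, u ≤ j ∧ (f i).testBit j = true := by
    by_contra h5
    push Not at h5
    have h6 : f i < 2 ^ u := Nat.lt_pow_two_of_testBit (f i) fun j hj => by
      have := h5 j hj
      simpa using this
    exact h4 h6
  have hjw : j < w := by
    by_contra h5
    have h6 : f i < 2 ^ j := lt_of_lt_of_le (h i hi) (Nat.pow_le_pow_right (by norm_num) (by omega))
    rw [Nat.testBit_lt_two_pow h6] at hj2
    exact Bool.false_ne_true hj2
  have h1 : (pk w f n &&& maskHi w u n).testBit (w * i + j) = false := by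
    rw [hm]; exact Nat.zero_testBit _
  rw [Nat.testBit_and, pk_testBit h hi hjw, maskHi_eq hw, pk_testBit h2 hi hjw, hj2,
    Bool.true_and] at h1
  have h7 : (2 ^ w - 2 ^ u).testBit j = true := by
    obtain ⟨k, rfl⟩ := Nat.exists_eq_add_of_le huw
    have h8 : 2 ^ (u + k) - 2 ^ u = 2 ^ u * (2 ^ k - 1) := by
      rw [pow_add, Nat.mul_sub, mul_one]
    rw [h8, Nat.testBit_two_pow_mul]
    simp only [hj1, decide_true, Bool.true_and]
    rw [Nat.testBit_two_pow_sub_one]
    simp only [decide_eq_true_eq]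
    omega
  rw [h7] at h1
  exact Bool.false_ne_true h1.symm

/-- multiplication by `geo g`, packed, one multiplication -/
def gmul (w n g P : ℕ) : ℕ :=
  Nat.mod (Nat.mul P (Nat.div
    (Nat.sub (Nat.pow 2 (Nat.mul (Nat.mul w g) (Nat.succ (Nat.div n g)))) 1)
    (Nat.sub (Nat.pow 2 (Nat.mul w g)) 1))) (Nat.pow 2 (Nat.mul w n))

theorem gmul_core {w n g : ℕ} (hw : 0 < w) (hg : 0 < g) {f c : ℕ → ℕ}
    (hf : ∀ i < n, f i < 2 ^ w) (hc : ∀ i < n, c i < 2 ^ w)
    (hrec : ∀ i < n, c i = f i + if g ≤ i then c (i - g) else 0) :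
    gmul w n g (pk w f n) = pk w c n := by
  have h1 : 2 ≤ 2 ^ (w * g) := by
    calc 2 = 2 ^ 1 := by norm_num
      _ ≤ 2 ^ (w * g) := Nat.pow_le_pow_right (by norm_num) (Nat.mul_pos hw hg)
  have h2 := Nat.geomSum_eq h1 (n / g + 1)
  have e : gmul w n g (pk w f n) =
      (pk w f n * (∑ j ∈ range (n / g + 1), (2 ^ (w * g)) ^ j)) % 2 ^ (w * n) := by
    rw [h2, ← pow_mul]; rfl
  rw [e]
  set S := ∑ j ∈ range (n / g + 1), (2 ^ (w * g)) ^ j with hS
  -- S (2^(wg) - 1) + 1 = 2^(w g k)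
  have h3 : S * 2 ^ (w * g) + 1 = S + (2 ^ (w * g)) ^ (n / g + 1) := by
    rw [hS, Finset.sum_mul]
    have h4 : ∑ i ∈ range (n / g + 1), (2 ^ (w * g)) ^ i * 2 ^ (w * g) + 1 =
        ∑ i ∈ range (n / g + 1 + 1), (2 ^ (w * g)) ^ i := by
      rw [Finset.sum_range_succ' (fun i => (2 ^ (w * g)) ^ i) (n / g + 1), pow_zero]
      congr 1
    rw [h4, Finset.sum_range_succ]
  -- pk c = pk f + shift
  have h5 : ∃ q, pk w c n + q * 2 ^ (w * n) = pk w f n + pk w c n * 2 ^ (w * g) := by
    by_cases hgn : g ≤ n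
    · have h6 := pk_shift (f := c) hgn hc
      have h7 : pk w c n = pk w f n + pk w (fun i => if g ≤ i then c (i - g) else 0) n := by
        rw [pk, pk, pk, ← Finset.sum_add_distrib]
        refine Finset.sum_congr rfl fun i hi => ?_
        rw [← add_mul, ← hrec i (Finset.mem_range.mp hi)]
      refine ⟨pk w c n / 2 ^ (w * (n - g)), ?_⟩
      have h8 := Nat.mod_add_div (pk w c n) (2 ^ (w * (n - g)))
      have h9 : 2 ^ (w * n) = 2 ^ (w * (n - g)) * 2 ^ (w * g) := by
        rw [← pow_add, ← mul_add, Nat.sub_add_cancel hgn]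
      calc pk w c n + pk w c n / 2 ^ (w * (n - g)) * 2 ^ (w * n)
          = pk w f n + ((pk w c n % 2 ^ (w * (n - g))) * 2 ^ (w * g) +
            2 ^ (w * (n - g)) * (pk w c n / 2 ^ (w * (n - g))) * 2 ^ (w * g)) := by
              rw [h6, h9]
              conv_lhs => rw [h7]
              ring_nf
              rw [← h7]
        _ = pk w f n + ((pk w c n % 2 ^ (w * (n - g)) +
            2 ^ (w * (n - g)) * (pk w c n / 2 ^ (w * (n - g))))) * 2 ^ (w * g) := by ring
        _ = _ := by rw [h8]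
    · have h7 : pk w c n = pk w f n := by
        refine pk_congr fun i hi => ?_
        rw [hrec i hi, if_neg (by omega), add_zero]
      refine ⟨pk w c n * 2 ^ (w * (g - n)), ?_⟩
      have h9 : 2 ^ (w * g) = 2 ^ (w * (g - n)) * 2 ^ (w * n) := by
        rw [← pow_add, ← mul_add, Nat.sub_add_cancel (by omega)]
      rw [h9, ← h7]; ring
  obtain ⟨q, hq⟩ := h5
  have h10 : (2 ^ (w * g)) ^ (n / g + 1) = 2 ^ (w * (g * (n / g + 1) - n)) * 2 ^ (w * n) := by
    have h11 : n < g * (n / g + 1) := Nat.lt_mul_div_succ n hg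
    rw [← pow_mul, ← pow_add, ← mul_add, Nat.sub_add_cancel h11.le, mul_assoc]
  have h12 : Nat.ModEq (2 ^ (w * n)) (pk w f n * S) (pk w c n) := by
    -- (pk f) S = pk c S + q S M - pk c 2^(wg) S ; use S 2^(wg) = S + (..) - 1
    have h13 : pk w f n * S + pk w c n * (S * 2 ^ (w * g)) = pk w c n * S + q * S * 2 ^ (w * n) := by
      calc pk w f n * S + pk w c n * (S * 2 ^ (w * g))
          = (pk w f n + pk w c n * 2 ^ (w * g)) * S := by ring
        _ = _ := by rw [← hq]; ring
    have h14 : pk w c n * (S * 2 ^ (w * g)) + pk w c n =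
        pk w c n * S + pk w c n * (2 ^ (w * (g * (n / g + 1) - n)) * 2 ^ (w * n)) := by
      rw [← h10]
      calc pk w c n * (S * 2 ^ (w * g)) + pk w c n = pk w c n * (S * 2 ^ (w * g) + 1) := by ring
        _ = _ := by rw [h3]; ring
    have h15 : pk w f n * S + pk w c n * (2 ^ (w * (g * (n / g + 1) - n))) * 2 ^ (w * n) =
        pk w c n + q * S * 2 ^ (w * n) := by
      have h16 : pk w f n * S + (pk w c n * (S * 2 ^ (w * g)) + pk w c n) =
          pk w c n * S + q * S * 2 ^ (w * n) + pk w c n := by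
        rw [← add_assoc, h13]
      rw [h14] at h16
      have h17 : pk w c n * S + (pk w f n * S +
          pk w c n * (2 ^ (w * (g * (n / g + 1) - n))) * 2 ^ (w * n)) =
          pk w c n * S + (pk w c n + q * S * 2 ^ (w * n)) := by
        calc _ = pk w f n * S + (pk w c n * S +
            pk w c n * (2 ^ (w * (g * (n / g + 1) - n)) * 2 ^ (w * n))) := by ring
          _ = _ := by rw [h16]; ring
      exact Nat.add_left_cancel h17
    have h18 : (pk w f n * S) % 2 ^ (w * n) = (pk w f n * S +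
        pk w c n * (2 ^ (w * (g * (n / g + 1) - n))) * 2 ^ (w * n)) % 2 ^ (w * n) :=
      (Nat.add_mul_mod_self_right _ _ _).symm
    have h19 : pk w c n % 2 ^ (w * n) = (pk w c n + q * S * 2 ^ (w * n)) % 2 ^ (w * n) :=
      (Nat.add_mul_mod_self_right _ _ _).symm
    change (pk w f n * S) % 2 ^ (w * n) = pk w c n % 2 ^ (w * n)
    rw [h18, h19, h15]
  have h20 : (pk w f n * S) % 2 ^ (w * n) = pk w c n % 2 ^ (w * n) := h12
  rw [h20, Nat.mod_eq_of_lt (pk_lt hc)]

/-- multiplication by `geo g` with the check of the digits -/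
def gstep (v u n mhi g P : ℕ) : Option ℕ :=
  match Nat.beq (Nat.land P mhi) 0 with
  | false => none
  | true =>
    match Nat.ble (Nat.mul (Nat.succ (Nat.div n g)) (Nat.pow 2 u)) (Nat.pow 2 v) with
    | false => none
    | true => some (gmul (v + 1) n g P)

theorem Rep.gstep {v u n g P P' : ℕ} {F : PowerSeries ℤ} (huv : u ≤ v) (hg : 0 < g)
    (hP : Rep v n P F) (h : gstep v u n (maskHi (v + 1) u n) g P = some P') :
    Rep v n P' (F * geo g) := by
  rw [Full.gstep] at h
  split at h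
  · exact absurd h (by simp)
  rename_i e1
  split at h
  · exact absurd h (by simp)
  rename_i e2
  have hP' := Option.some.inj h
  obtain ⟨f, f1, f2, f3⟩ := hP
  have f2' : ∀ i < n, f i < 2 ^ (v + 1) := fun i hi => lt_two_pow_succ (f2 i hi)
  have f4 : ∀ i < n, f i < 2 ^ u := by
    refine lt_of_land_maskHi (w := v + 1) (by omega) (by omega) f2' ?_
    rw [← f3]
    exact Nat.eq_of_beq_eq_true e1
  have e3 : (n / g + 1) * 2 ^ u ≤ 2 ^ v := Nat.le_of_ble_eq_true e2
  -- the coefficients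
  have key : ∀ i, i < n → ∃ c : ℕ, coeff i (F * geo g) = (c : ℤ) ∧ c + 1 ≤ (i / g + 1) * 2 ^ u := by
    intro i
    induction i using Nat.strong_induction_on with
    | _ i ih =>
      intro hi
      have h5 := f4 i hi
      rw [coeff_mul_geo hg]
      by_cases hgi : g ≤ i
      · obtain ⟨c, hc1, hc2⟩ := ih (i - g) (by omega) (by omega)
        refine ⟨f i + c, ?_, ?_⟩
        · rw [if_pos hgi, f1 i hi, hc1]; push_cast; ring
        · have h6 : i / g = (i - g) / g + 1 := by
            conv_lhs => rw [show i = (i - g) + g by omega]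
            exact Nat.add_div_right _ hg
          rw [h6]
          calc f i + c + 1 = (c + 1) + f i := by ring
            _ ≤ ((i - g) / g + 1) * 2 ^ u + 2 ^ u := Nat.add_le_add hc2 h5.le
            _ = _ := by ring
      · refine ⟨f i, ?_, ?_⟩
        · rw [if_neg hgi, add_zero]; exact f1 i hi
        · calc f i + 1 ≤ 2 ^ u := h5
            _ = 1 * 2 ^ u := by ring
            _ ≤ _ := Nat.mul_le_mul_right _ (Nat.succ_le_succ (Nat.zero_le _))
  classical
  let c : ℕ → ℕ := fun i => (coeff i (F * geo g)).toNat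
  have hc1 : ∀ i < n, coeff i (F * geo g) = (c i : ℤ) := by
    intro i hi
    obtain ⟨a, ha, _⟩ := key i hi
    change _ = ((coeff i (F * geo g)).toNat : ℤ)
    rw [ha, Int.toNat_natCast]
  have hc2 : ∀ i < n, c i < 2 ^ v := by
    intro i hi
    obtain ⟨a, ha, hb⟩ := key i hi
    have : c i = a := by
      have := hc1 i hi
      rw [ha] at this
      exact_mod_cast this.symm
    rw [this]
    have h6 : (i / g + 1) * 2 ^ u ≤ (n / g + 1) * 2 ^ u :=
      Nat.mul_le_mul_right _ (Nat.add_le_add_right (Nat.div_le_div_right hi.le) 1)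
    omega
  refine ⟨c, hc1, hc2, ?_⟩
  rw [← hP', f3]
  refine gmul_core (by omega) hg f2' (fun i hi => lt_two_pow_succ (hc2 i hi)) ?_
  intro i hi
  have h7 := coeff_mul_geo hg F i
  rw [hc1 i hi, f1 i hi] at h7
  by_cases hgi : g ≤ i
  · rw [if_pos hgi, hc1 (i - g) (by omega)] at h7
    rw [if_pos hgi]
    exact_mod_cast h7
  · rw [if_neg hgi] at h7 ⊢
    exact_mod_cast h7

end Pool.Agent.Lib.MP_2e8272_nt.Full
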