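import Pool.Agent.Lib.MP_2e8272_nt.Full.Cop

/-!
# A linear lower bound for the number of tokens
-/

namespace Pool.Agent.Lib.MP_2e8272_nt.Full

open Finset

/-- `m` is `e.1` times an integer prime to `LL / e.1`, and the token of cost `e.2.1` is at most `x` -/
def TokF (LL : ℕ) (dl : List (ℕ × ℕ × List ℕ)) (m x : ℕ) : Prop :=
  ∃ e ∈ dl, Nat.gcd m LL = e.1 ∧ m + m / e.1 + e.2.1 ≤ x + 1

/-- the conditions on a list of classes -/
def GoodDl (LL : ℕ) (dl : List (ℕ × ℕ × List ℕ)) : Prop :=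
  (∀ e ∈ dl, 1 < e.1 ∧ e.1 ∣ LL ∧ (∀ p ∈ e.2.2, p.Prime) ∧ e.2.2.Nodup ∧
    LL / e.1 ∣ e.2.2.prod ^ 3) ∧ (dl.map Prod.fst).Nodup

theorem class_lower {LL N x : ℕ} (hx : x ≤ N) {d c : ℕ} {ps : List ℕ} (hd : 1 < d)
    (hdL : d ∣ LL) (hp : ∀ p ∈ ps, p.Prime) (hnd : ps.Nodup) (hps : LL / d ∣ ps.prod ^ 3) :
    cp ps ((x + 1 - c) / (d + 1)) ≤
      ((Icc 1 N).filter (fun m => Nat.gcd m LL = d ∧ m + m / d + c ≤ x + 1)).card := by
  rw [← card_cop ps hp hnd]
  refine Finset.card_le_card_of_injOn (fun j => d * j) ?_ ?_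
  · intro j hj
    rw [Finset.mem_coe, Finset.mem_filter, Finset.mem_Icc] at hj
    obtain ⟨⟨h1, h2⟩, h3⟩ := hj
    rw [Finset.mem_coe, Finset.mem_filter, Finset.mem_Icc]
    change (1 ≤ d * j ∧ d * j ≤ N) ∧ Nat.gcd (d * j) LL = d ∧ d * j + d * j / d + c ≤ x + 1
    have h4 : (d + 1) * j ≤ x + 1 - c := by
      rw [Nat.le_div_iff_mul_le (by omega)] at h2
      rw [mul_comm]; exact h2
    have h5 : d * j / d = j := Nat.mul_div_cancel_left j (by omega)
    have h6 : (d + 1) * j = d * j + j := by ring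
    have h7 : 0 < d * j := Nat.mul_pos (by omega) h1
    refine ⟨⟨h7, by omega⟩, ?_, ?_⟩
    · obtain ⟨M, rfl⟩ := hdL
      rw [Nat.mul_div_cancel_left M (by omega)] at hps
      rw [Nat.gcd_mul_left]
      have h8 : Nat.Coprime j (ps.prod ^ 3) := by
        apply Nat.Coprime.pow_right
        clear hps hnd
        induction ps with
        | nil => simp
        | cons p ps ih =>
          rw [List.prod_cons]
          apply Nat.Coprime.mul_right
          · exact ((Nat.Prime.coprime_iff_not_dvd (hp p List.mem_cons_self)).mpr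
              (h3 p List.mem_cons_self)).symm
          · exact ih (fun q hq => hp q (List.mem_cons_of_mem _ hq))
              (fun q hq => h3 q (List.mem_cons_of_mem _ hq))
      have h9 : Nat.gcd j M = 1 := Nat.Coprime.coprime_dvd_right hps h8
      rw [h9, mul_one]
    · rw [h5]; omega
  · intro a _ b _ hab
    exact Nat.eq_of_mul_eq_mul_left (by omega) hab

theorem tau_lower {LL N x : ℕ} (hx : x ≤ N) : ∀ (dl : List (ℕ × ℕ × List ℕ)), GoodDl LL dl →
    (dl.map (fun e => cp e.2.2 ((x + 1 - e.2.1) / (e.1 + 1)))).sum ≤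
      (by classical exact ((Icc 1 N).filter (fun m => TokF LL dl m x)).card) := by
  classical
  intro dl
  induction dl with
  | nil => intro _; simp
  | cons e dl ih =>
    rintro ⟨h1, h2⟩
    obtain ⟨a1, a2, a3, a4, a5⟩ := h1 e List.mem_cons_self
    rw [List.map_cons, List.nodup_cons] at h2
    have hih := ih ⟨fun b hb => h1 b (List.mem_cons_of_mem _ hb), h2.2⟩
    rw [List.map_cons, List.sum_cons]
    have h3 := class_lower (c := e.2.1) hx a1 a2 a3 a4 a5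
    have hdisj : Disjoint ((Icc 1 N).filter (fun m => Nat.gcd m LL = e.1 ∧
        m + m / e.1 + e.2.1 ≤ x + 1)) ((Icc 1 N).filter (fun m => TokF LL dl m x)) := by
      rw [Finset.disjoint_filter]
      rintro m _ ⟨h4, _⟩ ⟨b, hb, h5, _⟩
      apply h2.1
      rw [← h4, h5]
      exact List.mem_map_of_mem hb
    refine (Nat.add_le_add h3 hih).trans ?_
    rw [← Finset.card_union_of_disjoint hdisj]
    apply Finset.card_le_card
    intro m hm
    rw [Finset.mem_union, Finset.mem_filter, Finset.mem_filter] at hm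
    rw [Finset.mem_filter]
    rcases hm with ⟨h4, h5⟩ | ⟨h4, b, hb, h5⟩
    · exact ⟨h4, e, List.mem_cons_self, h5⟩
    · exact ⟨h4, b, List.mem_cons_of_mem _ hb, h5⟩

/-- slope and constant of a class -/
def slq (e : ℕ × ℕ × List ℕ) : ℚ := (ph e.2.2 : ℚ) / ((e.2.2.prod : ℚ) * ((e.1 : ℚ) + 1))

def knq (e : ℕ × ℕ × List ℕ) : ℚ :=
  ((ph e.2.2 : ℚ) * (1 - (e.2.1 : ℚ) - (e.1 : ℚ)) - ((e.1 : ℚ) + 1) * ((lu e.2.2).1 : ℚ)) /
    ((e.2.2.prod : ℚ) * ((e.1 : ℚ) + 1))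

theorem class_linear {x : ℕ} {e : ℕ × ℕ × List ℕ} (hp : ∀ p ∈ e.2.2, p.Prime)
    (hnd : e.2.2.Nodup) :
    slq e * x + knq e ≤ cp e.2.2 ((x + 1 - e.2.1) / (e.1 + 1)) := by
  obtain ⟨d, c, ps⟩ := e
  simp only [slq, knq]
  simp only at hp hnd
  set y := (x + 1 - c) / (d + 1) with hy
  have h1 := (cp_bounds ps hp hnd y).1
  have h2 : (x : ℤ) + 1 - c - d ≤ (d + 1) * y := by
    have h3 := Nat.lt_mul_div_succ (x + 1 - c) (show 0 < d + 1 by omega)
    rw [← hy] at h3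
    have h4 : x + 1 - c < (d + 1) * y + (d + 1) := by
      calc x + 1 - c < (d + 1) * (y + 1) := h3
        _ = _ := by ring
    zify at h4
    have h5 : (x : ℤ) + 1 - c ≤ ((x + 1 - c : ℕ) : ℤ) := by
      omega
    linarith
  have hP : 0 < ps.prod := List.prod_pos fun p hp' => (hp p hp').pos
  generalize ps.prod = P at h1 hP ⊢
  have hP' : (0 : ℚ) < P := by exact_mod_cast hP
  have hd : (0 : ℚ) < (d : ℚ) + 1 := by positivity
  have h1q := (Int.cast_le (R := ℚ)).mpr h1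
  have h2q := (Int.cast_le (R := ℚ)).mpr h2
  push_cast at h1q h2q
  have hph : (0 : ℚ) ≤ ph ps := by positivity
  have h3 := mul_le_mul_of_nonneg_left h2q hph
  have h4 := mul_le_mul_of_nonneg_left h1q hd.le
  rw [div_mul_eq_mul_div, ← add_div, div_le_iff₀ (mul_pos hP' hd)]
  nlinarith [h3, h4]

theorem linear_lower {LL N x : ℕ} (hx : x ≤ N) (dl : List (ℕ × ℕ × List ℕ))
    (h : GoodDl LL dl) :
    (dl.map slq).sum * x + (dl.map knq).sum ≤
      ((by classical exact ((Icc 1 N).filter (fun m => TokF LL dl m x)).card : ℕ) : ℚ) := by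
  have h1 := tau_lower hx dl h
  refine le_trans ?_ (Nat.cast_le.mpr h1)
  have h2 := h.1
  clear h h1
  induction dl with
  | nil => simp
  | cons e dl ih =>
    obtain ⟨_, _, a3, a4, _⟩ := h2 e List.mem_cons_self
    have h3 := class_linear (x := x) a3 a4
    have h4 := ih fun b hb => h2 b (List.mem_cons_of_mem _ hb)
    simp only [List.map_cons, List.sum_cons]
    push_cast at h4 ⊢
    linarith

/-- the classes modulo 27720 -/
def dl0 : List (ℕ × ℕ × List ℕ) :=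
    [(2, 1, [11, 7, 5, 3, 2]), (3, 2, [11, 7, 5, 3, 2]), (4, 2, [11, 7, 5, 3, 2]),
    (5, 4, [11, 7, 3, 2]), (6, 2, [11, 7, 5, 3, 2]), (7, 6, [11, 5, 3, 2]),
    (8, 3, [11, 7, 5, 3]), (9, 4, [11, 7, 5, 2]), (10, 4, [11, 7, 3, 2]), (11, 10, [7, 5, 3, 2]),
    (12, 3, [11, 7, 5, 3, 2]), (14, 6, [11, 5, 3, 2]), (15, 4, [11, 7, 3, 2]),
    (18, 4, [11, 7, 5, 2]), (20, 4, [11, 7, 3, 2]), (21, 5, [11, 5, 3, 2]),
    (22, 10, [7, 5, 3, 2]), (24, 4, [11, 7, 5, 3]), (28, 6, [11, 5, 3, 2]),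
    (30, 4, [11, 7, 3, 2]), (33, 9, [7, 5, 3, 2]), (35, 6, [11, 3, 2]), (36, 4, [11, 7, 5, 2]),
    (40, 5, [11, 7, 3]), (42, 4, [11, 5, 3, 2]), (44, 11, [7, 5, 3, 2]), (45, 6, [11, 7, 2]),
    (55, 10, [7, 3, 2]), (56, 7, [11, 5, 3]), (60, 4, [11, 7, 3, 2]), (63, 7, [11, 5, 2]),
    (66, 10, [7, 5, 3, 2]), (70, 7, [11, 3, 2]), (72, 5, [11, 7, 5]), (77, 16, [5, 3, 2]),
    (84, 5, [11, 5, 3, 2]), (88, 12, [7, 5, 3]), (90, 6, [11, 7, 2]), (99, 11, [7, 5, 2]),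
    (105, 8, [11, 3, 2]), (110, 11, [7, 3, 2]), (120, 5, [11, 7, 3]), (126, 6, [11, 5, 2]),
    (132, 11, [7, 5, 3, 2]), (140, 8, [11, 3, 2]), (154, 16, [5, 3, 2]), (165, 12, [7, 3, 2]),
    (168, 6, [11, 5, 3]), (180, 6, [11, 7, 2]), (198, 11, [7, 5, 2]), (210, 8, [11, 3, 2]),
    (220, 12, [7, 3, 2]), (231, 15, [5, 3, 2]), (252, 6, [11, 5, 2]), (264, 12, [7, 5, 3]),
    (280, 9, [11, 3]), (308, 16, [5, 3, 2]), (315, 9, [11, 2]), (330, 12, [7, 3, 2]),
    (360, 6, [11, 7]), (385, 16, [3, 2]), (396, 12, [7, 5, 2]), (420, 8, [11, 3, 2]),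
    (440, 13, [7, 3]), (462, 14, [5, 3, 2]), (495, 13, [7, 2]), (504, 7, [11, 5]),
    (616, 16, [5, 3]), (630, 8, [11, 2]), (660, 13, [7, 3, 2]), (693, 14, [5, 2]),
    (770, 16, [3, 2]), (792, 13, [7, 5]), (840, 8, [11, 3]), (924, 14, [5, 3, 2]),
    (990, 13, [7, 2]), (1155, 15, [3, 2]), (1260, 8, [11, 2]), (1320, 14, [7, 3]),
    (1386, 13, [5, 2]), (1540, 16, [3, 2]), (1848, 15, [5, 3]), (1980, 13, [7, 2]),
    (2310, 14, [3, 2]), (2520, 8, [11]), (2772, 14, [5, 2]), (3080, 17, [3]), (3465, 17, [2]),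
    (3960, 14, [7]), (4620, 15, [3, 2]), (5544, 15, [5]), (6930, 16, [2]), (9240, 16, [3]),
    (13860, 16, [2]), (27720, 17, [])]

instance (LL : ℕ) (dl : List (ℕ × ℕ × List ℕ)) : Decidable (GoodDl LL dl) := by
  unfold GoodDl; infer_instance

theorem dl0_good : GoodDl 27720 dl0 := by decide +kernel

theorem dl0_slope : (17217 / 25000 : ℚ) ≤ (dl0.map slq).sum := by decide +kernel

theorem dl0_const : (-205 : ℚ) ≤ (dl0.map knq).sum := by decide +kernel

/-- the token count for large `x` -/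
theorem tokens_large {N x : ℕ} (hx : x ≤ N) (hb : 12000 ≤ x) :
    x + 50 ≤ (by classical exact ((Icc 1 N).filter (fun m => TokF 27720 dl0 m x)).card) + x / 3 := by
  have h1 := linear_lower hx dl0 dl0_good
  have h2 : (17217 / 25000 : ℚ) * x + (-205) ≤ (dl0.map slq).sum * x + (dl0.map knq).sum :=
    add_le_add (mul_le_mul_of_nonneg_right dl0_slope (by positivity)) dl0_const
  set T : ℕ := (by classical exact ((Icc 1 N).filter (fun m => TokF 27720 dl0 m x)).card) with hT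
  have h3 : (17217 / 25000 : ℚ) * x + (-205) ≤ T := h2.trans h1
  have h4 : x ≤ 3 * (x / 3) + 2 := by omega
  have h4q : (x : ℚ) ≤ 3 * ((x / 3 : ℕ) : ℚ) + 2 := by exact_mod_cast h4
  have h5 : (12000 : ℚ) ≤ x := by exact_mod_cast hb
  have h6 : ((x + 50 : ℕ) : ℚ) ≤ ((T + x / 3 : ℕ) : ℚ) := by
    push_cast
    linarith
  exact_mod_cast h6

end Pool.Agent.Lib.MP_2e8272_nt.Full
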