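import Pool.Agent.Lib.MP_2e8272_nt.Full.Queue

/-!
# The matching theorem, counting form
-/

namespace Pool.Agent.Lib.MP_2e8272_nt.Full

open PowerSeries
open scoped Nat

theorem geo_sub_one {g : ℕ} : Nn (geo g - 1) := by
  intro n
  rw [map_sub, coeff_one, geo, coeff_mk]
  by_cases h : n = 0
  · subst h; simp
  · rw [if_neg h]
    split_ifs <;> norm_num

/-- extra factors only increase the coefficients -/
theorem le_prod_geo {ι : Type*} {f : PowerSeries ℤ} (hf : Nn f) (I : Finset ι) (σ : ι → ℕ) :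
    Nn (f * ∏ a ∈ I, geo (σ a) - f) := by
  classical
  induction I using Finset.induction_on with
  | empty =>
    rw [Finset.prod_empty, mul_one, sub_self]
    exact Nn.zero
  | insert a s ha ih =>
    rw [Finset.prod_insert ha]
    have e : f * (geo (σ a) * ∏ x ∈ s, geo (σ x)) - f =
        (f * ∏ x ∈ s, geo (σ x)) * (geo (σ a) - 1) + (f * ∏ x ∈ s, geo (σ x) - f) := by ring
    rw [e]
    exact ((hf.mul (Nn.prod _ _ fun _ _ => Nn.geo _)).mul geo_sub_one).add ih

/-- domination: every part of `S` is at least as large as its image in `I` -/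
theorem dom {ι : Type*} [DecidableEq ι] {L : ℕ} {f : PowerSeries ℤ} (hf : Inc f) (S : Finset ℕ)
    (ff : ℕ → ι) (σ : ι → ℕ) (I : Finset ι) (hσ : ∀ a ∈ I, 0 < σ a)
    (hfi : ∀ m ∈ S, ff m ∈ I) (hinj : ∀ m ∈ S, ∀ m' ∈ S, ff m = ff m' → m = m')
    (hle : ∀ m ∈ S, σ (ff m) ≤ L * m) :
    Nn (f * ∏ a ∈ I, geo (σ a) - f * ∏ m ∈ S, geo (L * m)) := by
  classical
  induction S using Finset.induction_on generalizing I with
  | empty =>
    rw [Finset.prod_empty, mul_one]
    exact le_prod_geo hf.nn I σ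
  | insert m S hm ih =>
    have hmI := hfi m (Finset.mem_insert_self _ _)
    have ih' := ih (I.erase (ff m)) (fun a ha => hσ a (Finset.mem_of_mem_erase ha))
      (by
        intro x hx
        refine Finset.mem_erase.mpr ⟨?_, hfi x (Finset.mem_insert_of_mem hx)⟩
        intro he
        have := hinj x (Finset.mem_insert_of_mem hx) m (Finset.mem_insert_self _ _) he
        subst this
        exact hm hx)
      (fun x hx y hy => hinj x (Finset.mem_insert_of_mem hx) y (Finset.mem_insert_of_mem hy))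
      (fun x hx => hle x (Finset.mem_insert_of_mem hx))
    rw [Finset.prod_insert hm, ← Finset.mul_prod_erase I (fun a => geo (σ a)) hmI]
    have hI2 : Inc (f * ∏ x ∈ S, geo (L * x)) := hf.mul_nn (Nn.prod _ _ fun _ _ => Nn.geo _)
    have e : f * (geo (σ (ff m)) * ∏ a ∈ I.erase (ff m), geo (σ a)) -
        f * (geo (L * m) * ∏ x ∈ S, geo (L * x)) =
        (f * ∏ a ∈ I.erase (ff m), geo (σ a) - f * ∏ x ∈ S, geo (L * x)) * geo (σ (ff m)) +
        ((f * ∏ x ∈ S, geo (L * x)) * geo (σ (ff m)) -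
          (f * ∏ x ∈ S, geo (L * x)) * geo (L * m)) := by ring
    rw [e]
    exact (ih'.mul (Nn.geo _)).add
      (hI2.geo_le (hσ _ hmI) (hle m (Finset.mem_insert_self _ _)))

/-- **Matching theorem.**  Relations `t i` for the generators `i ∈ Rl` and a family of target
parts `σ a`; if up to every `x` there are at least `x` relations and target parts of degree at
most `L x`, then the number of values is bounded by the base times the product over the
target parts. -/
theorem matching {L : ℕ} (hL : 0 < L) {B : Set (ℕ × ℕ)} (hB : Mon B) (N : ℕ)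
    (Rl : Finset ℕ) (t : ℕ → ℕ) (hRl : ∀ i ∈ Rl, 0 < i ∧ i ≤ N)
    (hrel : ∀ i ∈ Rl, HasRel L B i (t i))
    {ι : Type*} [DecidableEq ι] (I : Finset ι) (σ : ι → ℕ) (hσ : ∀ a ∈ I, 0 < σ a)
    (hcount : ∀ x, 0 < x → x ≤ N →
      x ≤ (Rl.filter (fun i => t i ≤ L * x)).card + (I.filter (fun a => σ a ≤ L * x)).card) :
    Nn (cnt B * ∏ a ∈ I, geo (σ a) - cnt (tower L B N)) := by
  classical
  -- Hall's theorem
  let T : {x : ℕ // x ∈ Finset.Ioc 0 N} → Finset (ℕ ⊕ ι) := fun x =>
    (Rl.filter (fun i => t i ≤ L * x.1)).disjSum (I.filter (fun a => σ a ≤ L * x.1))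
  have hall : ∃ f : {x : ℕ // x ∈ Finset.Ioc 0 N} → ℕ ⊕ ι,
      Function.Injective f ∧ ∀ x, f x ∈ T x := by
    rw [← Finset.all_card_le_biUnion_card_iff_exists_injective]
    intro s
    rcases s.eq_empty_or_nonempty with h | h
    · rw [h]; simp
    · obtain ⟨x, hx, hmax⟩ := s.exists_max_image (fun y => y.1) h
      have h1 : s.card ≤ x.1 := by
        have : (s.map ⟨Subtype.val, Subtype.val_injective⟩) ⊆ Finset.Ioc 0 x.1 := by
          intro y hy
          rw [Finset.mem_map] at hy
          obtain ⟨z, hz, rfl⟩ := hy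
          have := hmax z hz
          have h2 := (Finset.mem_Ioc.mp z.2).1
          exact Finset.mem_Ioc.mpr ⟨h2, this⟩
        have := Finset.card_le_card this
        rwa [Finset.card_map, Nat.card_Ioc, Nat.sub_zero] at this
      have h2 : x.1 ≤ (T x).card := by
        show x.1 ≤ ((Rl.filter (fun i => t i ≤ L * x.1)).disjSum
          (I.filter (fun a => σ a ≤ L * x.1))).card
        rw [Finset.card_disjSum]
        exact hcount x.1 (Finset.mem_Ioc.mp x.2).1 (Finset.mem_Ioc.mp x.2).2
      exact h1.trans (h2.trans (Finset.card_le_card (Finset.subset_biUnion_of_mem T hx)))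
  obtain ⟨f, hfinj, hfT⟩ := hall
  -- the killed generator of a relation
  let κ : ℕ → Option ℕ := fun i =>
    if h : ∃ x : {x : ℕ // x ∈ Finset.Ioc 0 N}, f x = Sum.inl i then some h.choose.1 else none
  have hκspec : ∀ i m, κ i = some m →
      ∃ x : {x : ℕ // x ∈ Finset.Ioc 0 N}, f x = Sum.inl i ∧ x.1 = m := by
    intro i m hm
    by_cases h : ∃ x : {x : ℕ // x ∈ Finset.Ioc 0 N}, f x = Sum.inl i
    · have h1 : κ i = some h.choose.1 := dif_pos h
      rw [h1] at hm
      exact ⟨h.choose, h.choose_spec, Option.some.inj hm⟩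
    · have h1 : κ i = none := dif_neg h
      rw [h1] at hm
      exact absurd hm (by simp)
  have hκ' : ∀ i (x : {x : ℕ // x ∈ Finset.Ioc 0 N}), f x = Sum.inl i → κ i = some x.1 := by
    intro i x hx
    have h : ∃ x : {x : ℕ // x ∈ Finset.Ioc 0 N}, f x = Sum.inl i := ⟨x, hx⟩
    have h1 : κ i = some h.choose.1 := dif_pos h
    rw [h1]
    congr 2
    exact hfinj (h.choose_spec.trans hx.symm)
  have hq := queue hL hB N κ
    (by
      intro i _ _ i' _ _ m h1 h2
      obtain ⟨x, hx, hxm⟩ := hκspec i m h1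
      obtain ⟨y, hy, hym⟩ := hκspec i' m h2
      have : x = y := Subtype.ext (hxm.trans hym.symm)
      subst this
      rw [hx] at hy
      exact Sum.inl.inj hy)
    (by
      intro i _ _ m h1
      obtain ⟨x, hx, hxm⟩ := hκspec i m h1
      have h2 := hfT x
      rw [hx] at h2
      have h3 : i ∈ Rl.filter (fun i => t i ≤ L * x.1) := Finset.inl_mem_disjSum.mp h2
      rw [Finset.mem_filter] at h3
      subst hxm
      exact ⟨(Finset.mem_Ioc.mp x.2).2, t i, hrel i h3.1, h3.2⟩) 0 (Nat.zero_le _)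
  -- the survivors are dominated by the target parts
  have hinr : ∀ m ∈ alive N κ 0, ∃ (h : m ∈ Finset.Ioc 0 N) (a : ι), f ⟨m, h⟩ = Sum.inr a ∧
      a ∈ I ∧ σ a ≤ L * m := by
    intro m hm
    rw [mem_alive] at hm
    have h : m ∈ Finset.Ioc 0 N := Finset.mem_Ioc.mpr hm.1
    refine ⟨h, ?_⟩
    have h2 := hfT ⟨m, h⟩
    rcases hf : f ⟨m, h⟩ with i | a
    · exfalso
      rw [hf] at h2
      have h3 : i ∈ Rl.filter (fun i => t i ≤ L * m) := Finset.inl_mem_disjSum.mp h2
      rw [Finset.mem_filter] at h3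
      have h4 := hRl i h3.1
      exact hm.2 i h4.1 h4.2 (hκ' i ⟨m, h⟩ hf)
    · rw [hf] at h2
      have h3 : a ∈ I.filter (fun a => σ a ≤ L * m) := Finset.inr_mem_disjSum.mp h2
      rw [Finset.mem_filter] at h3
      exact ⟨a, rfl, h3.1, h3.2⟩
  by_cases hne : (alive N κ 0).Nonempty
  · obtain ⟨m0, hm0⟩ := hne
    obtain ⟨_, a0, _⟩ := hinr m0 hm0
    let ff : ℕ → ι := fun m => if h : m ∈ Finset.Ioc 0 N then
      (match f ⟨m, h⟩ with
        | Sum.inl _ => a0
        | Sum.inr a => a) else a0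
    have hfi : ∀ m ∈ alive N κ 0, ∃ (h : m ∈ Finset.Ioc 0 N), f ⟨m, h⟩ = Sum.inr (ff m) ∧
        ff m ∈ I ∧ σ (ff m) ≤ L * m := by
      intro m hm
      obtain ⟨h, a, h1, h2, h3⟩ := hinr m hm
      have : ff m = a := by
        show (if h : m ∈ Finset.Ioc 0 N then
          (match f ⟨m, h⟩ with
            | Sum.inl _ => a0
            | Sum.inr a => a) else a0) = a
        rw [dif_pos h, h1]
      rw [this]
      exact ⟨h, h1, h2, h3⟩
    have hd := dom (L := L) hB.inc (alive N κ 0) ff σ I hσ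
      (fun m hm => (hfi m hm).choose_spec.2.1)
      (by
        intro m hm m' hm' he
        obtain ⟨h1, h2, _⟩ := hfi m hm
        obtain ⟨h3, h4, _⟩ := hfi m' hm'
        rw [← he, ← h2] at h4
        have := hfinj h4
        exact (congrArg Subtype.val this).symm)
      (fun m hm => (hfi m hm).choose_spec.2.2)
    have := hd.add hq
    unfold surv at this
    convert this using 1
    show _ = _ + (cnt (tower L B 0) * _ - _)
    simp only [tower]
    ring
  · rw [Finset.not_nonempty_iff_eq_empty] at hne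
    unfold surv at hq
    rw [hne, Finset.prod_empty, mul_one] at hq
    have := (le_prod_geo hB.inc.nn I σ).add hq
    convert this using 1
    show _ = _ + (cnt (tower L B 0) - _)
    simp only [tower]
    ring

end Pool.Agent.Lib.MP_2e8272_nt.Full
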