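import Pool.Agent.Lib.MP_2e8272_nt.Defs
import Pool.Agent.Lib.MP_2e8272_nt.Full.Match

/-!
# The number of multinomial coefficients is bounded by the number of values in the tower
-/

namespace Pool.Agent.Lib.MP_2e8272_nt.Full

open PowerSeries
open scoped Nat

theorem prod_mem_tower {L : ℕ} (hL : 0 < L) {B : Set (ℕ × ℕ)} (hB : Mon B) {N : ℕ}
    {ι : Type*} (s : Finset ι) (i : ι → ℕ) (hi : ∀ j ∈ s, i j ≤ N) :
    (L * ∑ j ∈ s, i j, ∏ j ∈ s, (i j)!) ∈ tower L B N := by
  classical
  induction s using Finset.induction_on with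
  | empty => simpa using (hB.tower hL N).one
  | insert a s ha ih =>
    rw [Finset.sum_insert ha, Finset.prod_insert ha, mul_add]
    exact (hB.tower hL N).mul (gen_mem_tower hL hB (hi a (Finset.mem_insert_self _ _)))
      (ih fun j hj => hi j (Finset.mem_insert_of_mem hj))

theorem M_le {L : ℕ} (hL : 0 < L) {B : Set (ℕ × ℕ)} (hB : Mon B) {n N : ℕ} (hn : n ≤ N) :
    (M n : ℤ) ≤ coeff (L * n) (cnt (tower L B N)) := by
  rw [coeff_cnt]
  have h : (multinomialValues n).ncard ≤ {x | (L * n, x) ∈ tower L B N}.ncard := by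
    refine Set.ncard_le_ncard_of_injOn (fun m => n ! / m) ?_ ?_ ((hB.tower hL N).fin _)
    · rintro m ⟨k, hk, i, hi, rfl⟩
      have h1 : (∏ j, (i j)!) * Nat.multinomial Finset.univ i = n ! := by
        rw [Nat.multinomial_spec, hi]
      have h2 : n ! / Nat.multinomial Finset.univ i = ∏ j, (i j)! := by
        rw [← h1]
        exact Nat.mul_div_cancel _ (Nat.multinomial_pos _ _)
      show (L * n, n ! / Nat.multinomial Finset.univ i) ∈ tower L B N
      rw [h2, ← hi]
      refine prod_mem_tower hL hB Finset.univ i ?_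
      intro j _
      refine le_trans ?_ hn
      rw [← hi]
      exact Finset.single_le_sum (f := i) (fun _ _ => Nat.zero_le _) (Finset.mem_univ j)
    · have hdvd : ∀ m ∈ multinomialValues n, m ∣ n ! ∧ 0 < m := by
        rintro m ⟨k, hk, i, hi, rfl⟩
        refine ⟨⟨∏ j, (i j)!, ?_⟩, Nat.multinomial_pos _ _⟩
        rw [mul_comm, Nat.multinomial_spec, hi]
      intro a ha b hb hab
      obtain ⟨⟨x, hx⟩, ha0⟩ := hdvd a ha
      obtain ⟨⟨y, hy⟩, hb0⟩ := hdvd b hb
      have h1 : n ! / a = x := by rw [hx]; exact Nat.mul_div_cancel_left _ ha0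
      have h2 : n ! / b = y := by rw [hy]; exact Nat.mul_div_cancel_left _ hb0
      have hxy : x = y := by
        rw [← h1, ← h2]; exact hab
      subst hxy
      have hx0 : 0 < x := by
        rcases Nat.eq_zero_or_pos x with h0 | h0
        · subst h0
          have := Nat.factorial_pos n
          simp [hx] at this
        · exact h0
      rw [hx] at hy
      exact Nat.eq_of_mul_eq_mul_right hx0 hy
  exact_mod_cast h

/-- the monoid generated by `(1, 1)` -/
def base0 : Set (ℕ × ℕ) := {p | p.2 = 1}

theorem base0_mon : Mon base0 where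
  one := rfl
  unit := rfl
  mul := by
    intro a b x y hx hy
    have h1 : x = 1 := hx
    have h2 : y = 1 := hy
    show x * y = 1
    rw [h1, h2]
  pos := by
    intro a x hx
    have h1 : x = 1 := hx
    rw [h1]; exact Nat.one_pos
  fin := by
    intro n
    refine (Set.finite_singleton 1).subset ?_
    intro x hx
    exact hx

theorem cnt_base0 : cnt base0 = geo 1 := by
  ext n
  rw [coeff_cnt, geo, coeff_mk, if_pos (one_dvd n)]
  have : {x | (n, x) ∈ base0} = {1} := by
    ext x; rfl
  rw [this, Set.ncard_singleton]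
  rfl

/-- the monoid generated by `(1, 1)` and a list of generators (degree, value) -/
def baseOf : List (ℕ × ℕ) → Set (ℕ × ℕ)
  | [] => base0
  | g :: l => adj (baseOf l) g.1 g.2

theorem baseOf_mon (l : List (ℕ × ℕ)) (h : ∀ g ∈ l, 0 < g.1 ∧ 0 < g.2) : Mon (baseOf l) := by
  induction l with
  | nil => exact base0_mon
  | cons g l ih =>
    have h1 := h g (by simp)
    exact (ih fun x hx => h x (by simp [hx])).adj h1.1 h1.2

theorem cnt_baseOf (l : List (ℕ × ℕ)) (h : ∀ g ∈ l, 0 < g.1 ∧ 0 < g.2) :
    Nn (geo 1 * (l.map fun g => geo g.1).prod - cnt (baseOf l)) := by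
  induction l with
  | nil =>
    rw [List.map_nil, List.prod_nil, mul_one]
    show Nn (geo 1 - cnt base0)
    rw [cnt_base0, sub_self]
    exact Nn.zero
  | cons g l ih =>
    have h1 := h g (by simp)
    have h2 : ∀ x ∈ l, 0 < x.1 ∧ 0 < x.2 := fun x hx => h x (by simp [hx])
    have ih' := ih h2
    have hc := chain_free (baseOf_mon l h2) h1.1 h1.2
    rw [List.map_cons, List.prod_cons]
    have e : geo 1 * (geo g.1 * (l.map fun g => geo g.1).prod) - cnt (baseOf (g :: l)) =
        (geo 1 * (l.map fun g => geo g.1).prod - cnt (baseOf l)) * geo g.1 +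
        (cnt (baseOf l) - cnt (adj (baseOf l) g.1 g.2) * (1 - X ^ g.1)) * geo g.1 := by
      have h3 := geo_mul h1.1
      calc geo 1 * (geo g.1 * (l.map fun g => geo g.1).prod) - cnt (baseOf (g :: l))
          = geo 1 * (geo g.1 * (l.map fun g => geo g.1).prod) -
            cnt (adj (baseOf l) g.1 g.2) * (geo g.1 * (1 - X ^ g.1)) := by
              rw [h3, mul_one]; rfl
        _ = _ := by ring
    rw [e]
    exact (ih'.mul (Nn.geo _)).add (hc.mul (Nn.geo _))

end Pool.Agent.Lib.MP_2e8272_nt.Full
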