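import Pool.Agent.Lib.MP_2e8272_nt.Full.Range

/-!
# Packed power series with spare bits: products by one multiplication

The first `n` coefficients are stored in base `2 ^ w`; digit bounds are tracked separately, so that
the product of two packed series is one multiplication of natural numbers.
-/

namespace Pool.Agent.Lib.MP_2e8272_nt.Full

open PowerSeries Finset

/-- `P` stores the first `n` coefficients of `F` in base `2 ^ w`, all of them smaller than `b` -/
def RepB (w b n P : ℕ) (F : PowerSeries ℤ) : Prop :=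
  ∃ f : ℕ → ℕ, (∀ i < n, coeff i F = (f i : ℤ)) ∧ (∀ i < n, f i < b) ∧ P = pk w f n

theorem RepB.rep {v b n P : ℕ} {F : PowerSeries ℤ} (h : RepB (v + 1) b n P F) (hb : b ≤ 2 ^ v) :
    Rep v n P F := by
  obtain ⟨f, h1, h2, h3⟩ := h
  exact ⟨f, h1, fun i hi => (h2 i hi).trans_le hb, h3⟩

theorem RepB.mono {w b c n P : ℕ} {F : PowerSeries ℤ} (h : RepB w b n P F) (hb : b ≤ c) :
    RepB w c n P F := by
  obtain ⟨f, h1, h2, h3⟩ := h
  exact ⟨f, h1, fun i hi => (h2 i hi).trans_le hb, h3⟩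

theorem RepB.congr {w b n P : ℕ} {F G : PowerSeries ℤ} (h : RepB w b n P F)
    (hFG : ∀ i < n, coeff i F = coeff i G) : RepB w b n P G := by
  obtain ⟨f, h1, h2, h3⟩ := h
  exact ⟨f, fun i hi => (hFG i hi).symm.trans (h1 i hi), h2, h3⟩

/-- truncated product -/
def mulTr (w n P Q : ℕ) : ℕ := Nat.mod (Nat.mul P Q) (Nat.pow 2 (Nat.mul w n))

theorem pk_eq_eval (w : ℕ) (f : ℕ → ℕ) (n : ℕ) :
    pk w f n = (∑ i ∈ range n, Polynomial.monomial i (f i)).eval (2 ^ w) := by
  rw [pk, Polynomial.eval_finsetSum]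
  refine Finset.sum_congr rfl fun i _ => ?_
  rw [Polynomial.eval_monomial, pow_mul]

theorem coeff_cut (f : ℕ → ℕ) (n i : ℕ) :
    (∑ j ∈ range n, Polynomial.monomial j (f j)).coeff i = if i < n then f i else 0 := by
  rw [Polynomial.finsetSum_coeff]
  simp only [Polynomial.coeff_monomial]
  rw [Finset.sum_ite_eq' (range n) i]
  simp only [Finset.mem_range]

theorem RepB.mulTr {w b c n P Q : ℕ} {F G : PowerSeries ℤ} (hP : RepB w b n P F)
    (hQ : RepB w c n Q G) (h : n * (b * c) ≤ 2 ^ w) :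
    RepB w (n * (b * c)) n (mulTr w n P Q) (F * G) := by
  obtain ⟨f, f1, f2, f3⟩ := hP
  obtain ⟨g, g1, g2, g3⟩ := hQ
  set p : Polynomial ℕ := ∑ i ∈ range n, Polynomial.monomial i (f i) with hp
  set q : Polynomial ℕ := ∑ i ∈ range n, Polynomial.monomial i (g i) with hq
  have hc : ∀ k < n, (p * q).coeff k = ∑ x ∈ antidiagonal k, f x.1 * g x.2 := by
    intro k hk
    rw [Polynomial.coeff_mul]
    refine Finset.sum_congr rfl fun x hx => ?_
    have hx' := mem_antidiagonal.mp hx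
    rw [hp, hq, coeff_cut, coeff_cut, if_pos (by omega), if_pos (by omega)]
  have hb : ∀ k < n, (p * q).coeff k < n * (b * c) := by
    intro k hk
    rw [hc k hk]
    calc ∑ x ∈ antidiagonal k, f x.1 * g x.2 < ∑ x ∈ antidiagonal k, b * c := by
          refine Finset.sum_lt_sum_of_nonempty ⟨(0, k), by simp⟩ fun x hx => ?_
          have hx' := mem_antidiagonal.mp hx
          exact Nat.mul_lt_mul'' (f2 _ (by omega)) (g2 _ (by omega))
      _ = (k + 1) * (b * c) := by
          rw [Finset.sum_const, Finset.Nat.card_antidiagonal, smul_eq_mul]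
      _ ≤ n * (b * c) := Nat.mul_le_mul_right _ hk
  refine ⟨(p * q).coeff, ?_, hb, ?_⟩
  · intro k hk
    rw [hc k hk, PowerSeries.coeff_mul]
    push_cast
    refine Finset.sum_congr rfl fun x hx => ?_
    have hx' := mem_antidiagonal.mp hx
    rw [f1 _ (by omega), g1 _ (by omega)]
  · show P * Q % 2 ^ (w * n) = _
    rw [f3, g3, pk_eq_eval, pk_eq_eval, ← hp, ← hq, ← Polynomial.eval_mul,
      eval_eq_pk (p * q) w (n + ((p * q).natDegree + 1)) (by omega)]
    exact pk_mod fun i hi => (hb i hi).trans_le h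

/-- the number with all digits `2 ^ w - 2 ^ v` -/
def hiM (v w n : ℕ) : ℕ :=
  Nat.mul (Nat.sub (Nat.pow 2 w) (Nat.pow 2 v))
    (Nat.div (Nat.sub (Nat.pow 2 (Nat.mul w n)) 1) (Nat.sub (Nat.pow 2 w) 1))

theorem hiM_eq {v w : ℕ} (n : ℕ) (hw : 0 < w) : hiM v w n = pk w (fun _ => 2 ^ w - 2 ^ v) n := by
  have h1 : 2 ≤ 2 ^ w := by
    calc 2 = 2 ^ 1 := by norm_num
      _ ≤ 2 ^ w := Nat.pow_le_pow_right (by norm_num) hw
  have h2 := Nat.geomSum_eq h1 n
  have h3 : hiM v w n = (2 ^ w - 2 ^ v) * ((2 ^ (w * n) - 1) / (2 ^ w - 1)) := rfl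
  rw [h3, pow_mul, ← h2, pk, Finset.mul_sum]
  exact Finset.sum_congr rfl fun i _ => by rw [pow_mul]

theorem lt_of_land_hiM {v w n : ℕ} {f : ℕ → ℕ} (hvw : v < w) (h : ∀ i < n, f i < 2 ^ w)
    (hm : pk w f n &&& hiM v w n = 0) : ∀ i < n, f i < 2 ^ v := by
  intro i hi
  refine Nat.lt_pow_two_of_testBit _ fun j hj => ?_
  by_cases hjw : j < w
  · have h1 : (pk w f n &&& hiM v w n).testBit (w * i + j) = false := by
      rw [hm]; exact Nat.zero_testBit _
    have h2 : ∀ k < n, (fun _ : ℕ => 2 ^ w - 2 ^ v) k < 2 ^ w := fun k _ => by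
      change 2 ^ w - 2 ^ v < 2 ^ w
      have h3 : 0 < 2 ^ v := by positivity
      have h4 : 0 < 2 ^ w := by positivity
      omega
    rw [Nat.testBit_and, pk_testBit h hi hjw, hiM_eq n (by omega), pk_testBit h2 hi hjw] at h1
    have h5 : (2 ^ w - 2 ^ v).testBit j = true := by
      have e : 2 ^ w - 2 ^ v = 2 ^ v * (2 ^ (w - v) - 1) := by
        rw [Nat.mul_sub, ← pow_add, mul_one, show v + (w - v) = w by omega]
      rw [e, Nat.testBit_two_pow_mul, Nat.testBit_two_pow_sub_one]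
      simp only [Bool.and_eq_true, decide_eq_true_eq]
      omega
    change ((f i).testBit j && (2 ^ w - 2 ^ v).testBit j) = false at h1
    rw [h5, Bool.and_true] at h1
    exact h1
  · exact Nat.testBit_lt_two_pow ((h i hi).trans_le (Nat.pow_le_pow_right (by norm_num) (by omega)))

theorem RepB.cut {v w b n P : ℕ} {F : PowerSeries ℤ} (h : RepB w b n P F) (hvw : v < w)
    (hb : b ≤ 2 ^ w) (hm : Nat.beq (Nat.land P (hiM v w n)) 0 = true) : RepB w (2 ^ v) n P F := by
  obtain ⟨f, h1, h2, h3⟩ := h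
  refine ⟨f, h1, ?_, h3⟩
  refine lt_of_land_hiM hvw (fun i hi => (h2 i hi).trans_le hb) ?_
  have h4 : P &&& hiM v w n = 0 := Nat.eq_of_beq_eq_true hm
  rw [← h3]
  exact h4

theorem RepB.one {w n : ℕ} (hn : 0 < n) : RepB w 2 n 1 1 := by
  refine ⟨fun i => if i = 0 then 1 else 0, ?_, ?_, ?_⟩
  · intro i _
    rw [coeff_one]
    by_cases h0 : i = 0
    · simp [h0]
    · simp [h0]
  · intro i _
    change (if i = 0 then 1 else 0) < 2
    split_ifs <;> omega
  · rw [pk, Finset.sum_eq_single 0]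
    · simp
    · intro b _ hb
      rw [if_neg hb, zero_mul]
    · intro h
      exact absurd (Finset.mem_range.mpr hn) h

theorem RepB.zero {w b n : ℕ} (hb : 0 < b) : RepB w b n 0 0 := by
  refine ⟨fun _ => 0, fun i _ => by simp, fun i _ => hb, ?_⟩
  rw [pk]
  simp

theorem RepB.add {w b c n P Q : ℕ} {F G : PowerSeries ℤ} (hP : RepB w b n P F)
    (hQ : RepB w c n Q G) : RepB w (b + c) n (Nat.add P Q) (F + G) := by
  obtain ⟨f, f1, f2, f3⟩ := hP
  obtain ⟨g, g1, g2, g3⟩ := hQ
  refine ⟨fun i => f i + g i, ?_, ?_, ?_⟩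
  · intro i hi
    rw [map_add, f1 i hi, g1 i hi]
    push_cast
    rfl
  · intro i hi
    have h1 := f2 i hi
    have h2 := g2 i hi
    show f i + g i < b + c
    omega
  · show P + Q = _
    rw [f3, g3, pk, pk, pk, ← Finset.sum_add_distrib]
    exact Finset.sum_congr rfl fun i _ => by ring

/-- packed multiplication by `X ^ g` -/
def shXm (w n g P : ℕ) : ℕ :=
  Nat.shiftLeft (Nat.mod P (Nat.pow 2 (Nat.mul w (Nat.sub n g)))) (Nat.mul w g)

theorem RepB.shXm {w b n P g : ℕ} {F : PowerSeries ℤ} (h : RepB w b n P F) (hb0 : 0 < b)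
    (hb : b ≤ 2 ^ w) (hg : g ≤ n) : RepB w b n (shXm w n g P) (X ^ g * F) := by
  obtain ⟨f, h1, h2, h3⟩ := h
  refine ⟨fun i => if g ≤ i then f (i - g) else 0, ?_, ?_, ?_⟩
  · intro i hi
    show _ = ((if g ≤ i then f (i - g) else 0 : ℕ) : ℤ)
    rw [coeff_X_pow_mul']
    split_ifs with hgi
    · exact h1 _ (by omega)
    · rfl
  · intro i hi
    change (if g ≤ i then f (i - g) else 0) < b
    split_ifs
    · exact h2 _ (by omega)
    · exact hb0
  · show (P % 2 ^ (w * (n - g))) <<< (w * g) = _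
    rw [h3, Nat.shiftLeft_eq]
    exact pk_shift hg fun i hi => (h2 i hi).trans_le hb

/-- the packed geometric series -/
def geoN (w n g : ℕ) : ℕ :=
  Nat.div (Nat.sub (Nat.pow 2 (Nat.mul (Nat.mul w g) (Nat.add (Nat.div n g) 1))) 1)
    (Nat.sub (Nat.pow 2 (Nat.mul w g)) 1)

theorem geoN_eq {w g : ℕ} (n : ℕ) (hw : 0 < w) (hg : 0 < g) :
    geoN w n g = pk w (fun i => if g ∣ i then 1 else 0) (g * (n / g + 1)) := by
  have h1 : 2 ≤ 2 ^ (w * g) := by
    calc 2 = 2 ^ 1 := by norm_num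
      _ ≤ 2 ^ (w * g) := Nat.pow_le_pow_right (by norm_num) (Nat.mul_pos hw hg)
  have h2 := Nat.geomSum_eq h1 (n / g + 1)
  have h3 : geoN w n g = (2 ^ (w * g * (n / g + 1)) - 1) / (2 ^ (w * g) - 1) := rfl
  rw [h3, pow_mul, ← h2]
  generalize n / g + 1 = K
  induction K with
  | zero => simp [pk]
  | succ K ih =>
    rw [Finset.sum_range_succ, ih, show g * (K + 1) = g * K + g by ring, pk_add_split]
    congr 1
    have e : pk w (fun i => if g ∣ g * K + i then 1 else 0) g = 1 := by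
      rw [pk, Finset.sum_eq_single 0]
      · simp
      · intro b hb hb0
        have hb' := Finset.mem_range.mp hb
        have hnd : ¬ g ∣ g * K + b := by
          rw [Nat.dvd_add_right (Dvd.intro K rfl)]
          intro hd
          have := Nat.le_of_dvd (Nat.pos_of_ne_zero hb0) hd
          omega
        rw [if_neg hnd, zero_mul]
      · intro h
        exact absurd (Finset.mem_range.mpr hg) h
    rw [e, one_mul, ← pow_mul, ← mul_assoc]

theorem RepB.geoN {w g n : ℕ} (hw : 0 < w) (hg : 0 < g) :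
    RepB w 2 n (Full.geoN w n g % 2 ^ (w * n)) (geo g) := by
  refine ⟨fun i => if g ∣ i then 1 else 0, ?_, ?_, ?_⟩
  · intro i _
    rw [geo, coeff_mk]
    push_cast
    rfl
  · intro i _
    change (if g ∣ i then 1 else 0) < 2
    split_ifs <;> omega
  · rw [geoN_eq n hw hg]
    have h1 : n ≤ g * (n / g + 1) := by
      have := Nat.div_add_mod n g
      have := Nat.mod_lt n hg
      rw [mul_add]
      omega
    obtain ⟨b, hb⟩ := Nat.exists_eq_add_of_le h1
    rw [hb]
    refine pk_mod fun i _ => ?_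
    have : 1 < 2 ^ w := Nat.one_lt_two_pow (by omega)
    split_ifs <;> omega

theorem RepB.mulGeoN {v w n P g : ℕ} {F : PowerSeries ℤ} (h : RepB w (2 ^ v) n P F)
    (hvw : v < w) (hg : 0 < g) (hb : n * (2 ^ v * 2) ≤ 2 ^ w)
    (hm : Nat.beq (Nat.land (Full.mulTr w n P (Full.geoN w n g)) (hiM v w n)) 0 = true) :
    RepB w (2 ^ v) n (Full.mulTr w n P (Full.geoN w n g)) (F * geo g) := by
  have h1 := h.mulTr (RepB.geoN (n := n) (by omega : 0 < w) hg) hb
  have e : Full.mulTr w n P (Full.geoN w n g % 2 ^ (w * n)) =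
      Full.mulTr w n P (Full.geoN w n g) := by
    show P * (Full.geoN w n g % 2 ^ (w * n)) % 2 ^ (w * n) = P * Full.geoN w n g % 2 ^ (w * n)
    rw [Nat.mul_mod, Nat.mod_mod, ← Nat.mul_mod]
  rw [e] at h1
  exact h1.cut hvw hb hm

/-- multiplication by `geo g` for all `g` in a list -/
def mulGL (w n M : ℕ) : List ℕ → ℕ → Option ℕ
  | [], P => some P
  | g :: L, P =>
    match Nat.beq (Nat.land (mulTr w n P (geoN w n g)) M) 0 with
    | true => mulGL w n M L (mulTr w n P (geoN w n g))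
    | false => none

theorem RepB.mulGL {v w n : ℕ} (hvw : v < w) (hb : n * (2 ^ v * 2) ≤ 2 ^ w) :
    ∀ (L : List ℕ) (P P' : ℕ) (F : PowerSeries ℤ),
    (∀ g ∈ L, 0 < g) → RepB w (2 ^ v) n P F →
    mulGL w n (hiM v w n) L P = some P' → RepB w (2 ^ v) n P' (F * (L.map geo).prod) := by
  intro L
  induction L with
  | nil =>
    intro P P' F _ hP h
    rw [Full.mulGL] at h
    rw [List.map_nil, List.prod_nil, mul_one, ← Option.some.inj h]
    exact hP
  | cons g L ih =>
    intro P P' F hL hP h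
    rw [Full.mulGL] at h
    split at h
    · rename_i h1
      have h2 := hP.mulGeoN hvw (hL g List.mem_cons_self) hb h1
      have h3 := ih _ P' _ (fun a ha => hL a (List.mem_cons_of_mem _ ha)) h2 h
      rw [List.map_cons, List.prod_cons, ← mul_assoc]
      exact h3
    · exact absurd h (by simp)

/-- checked product -/
def mulC (w n M P Q : ℕ) : Option ℕ :=
  match Nat.beq (Nat.land (mulTr w n P Q) M) 0 with
  | true => some (mulTr w n P Q)
  | false => none

theorem RepB.mulC {v w b c n P Q R : ℕ} {F G : PowerSeries ℤ} (hP : RepB w b n P F)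
    (hQ : RepB w c n Q G) (hvw : v < w) (h : n * (b * c) ≤ 2 ^ w)
    (hR : mulC w n (hiM v w n) P Q = some R) : RepB w (2 ^ v) n R (F * G) := by
  rw [Full.mulC] at hR
  split at hR
  · rename_i h1
    rw [← Option.some.inj hR]
    exact (hP.mulTr hQ h).cut hvw h h1
  · exact absurd hR (by simp)

/-! ## Many parts at once -/

/-- the sum over the number `k` of parts `≥ s c` (all divisible by `s`) -/
noncomputable def tSer (s c m : ℕ) : PowerSeries ℤ :=
  ∑ k ∈ range m, X ^ (s * c * k) * ∏ j ∈ range k, geo (s * (j + 1))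

theorem tSer_step {s : ℕ} (hs : 0 < s) (c m : ℕ) :
    tSer s c (m + 1) * (1 - X ^ (s * c)) =
      tSer s (c + 1) (m + 1) - X ^ (s * c * (m + 1)) * ∏ j ∈ range m, geo (s * (j + 1)) := by
  induction m with
  | zero => simp [tSer]
  | succ m ih =>
    have h1 : tSer s c (m + 2) = tSer s c (m + 1) +
        X ^ (s * c * (m + 1)) * ∏ j ∈ range (m + 1), geo (s * (j + 1)) := by
      rw [tSer, Finset.sum_range_succ, ← tSer]
    have h2 : tSer s (c + 1) (m + 2) = tSer s (c + 1) (m + 1) +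
        X ^ (s * (c + 1) * (m + 1)) * ∏ j ∈ range (m + 1), geo (s * (j + 1)) := by
      rw [tSer, Finset.sum_range_succ, ← tSer]
    have h3 : ∏ j ∈ range m, geo (s * (j + 1)) =
        (∏ j ∈ range (m + 1), geo (s * (j + 1))) * (1 - X ^ (s * (m + 1))) := by
      rw [Finset.prod_range_succ, mul_assoc, geo_mul (Nat.mul_pos hs (Nat.succ_pos m)), mul_one]
    rw [h1, h2, add_mul, ih, h3]
    generalize ∏ j ∈ range (m + 1), geo (s * (j + 1)) = A
    have e1 : (X : PowerSeries ℤ) ^ (s * (c + 1) * (m + 1)) =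
        X ^ (s * c * (m + 1)) * X ^ (s * (m + 1)) := by rw [← pow_add]; ring_nf
    have e2 : (X : PowerSeries ℤ) ^ (s * c * (m + 1 + 1)) =
        X ^ (s * c * (m + 1)) * X ^ (s * c) := by rw [← pow_add]; ring_nf
    rw [e1, e2]
    ring

theorem tSer_dvd {s c m n : ℕ} (hs : 0 < s) (hn : n ≤ s * c * (m + 1)) {K : ℕ} (hcK : c ≤ K) :
    (X : PowerSeries ℤ) ^ n ∣
      tSer s c (m + 1) * ∏ i ∈ Ico c K, (1 - X ^ (s * i)) - tSer s K (m + 1) := by
  induction K, hcK using Nat.le_induction with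
  | base => simp
  | succ K hcK ih =>
    rw [Finset.prod_Ico_succ_top hcK]
    have e : tSer s c (m + 1) * ((∏ i ∈ Ico c K, (1 - X ^ (s * i))) * (1 - X ^ (s * K))) -
        tSer s (K + 1) (m + 1) =
        (tSer s c (m + 1) * ∏ i ∈ Ico c K, (1 - X ^ (s * i)) - tSer s K (m + 1)) *
          (1 - X ^ (s * K)) + (tSer s K (m + 1) * (1 - X ^ (s * K)) -
            tSer s (K + 1) (m + 1)) := by ring
    rw [e, tSer_step hs]
    refine dvd_add (Dvd.dvd.mul_right ih _) ?_
    have e2 : tSer s (K + 1) (m + 1) - X ^ (s * K * (m + 1)) *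
        ∏ j ∈ range m, geo (s * (j + 1)) - tSer s (K + 1) (m + 1) =
        X ^ (s * K * (m + 1)) * (-∏ j ∈ range m, geo (s * (j + 1))) := by ring
    rw [e2]
    refine Dvd.dvd.mul_right (pow_dvd_pow _ (hn.trans ?_)) _
    exact Nat.mul_le_mul_right _ (Nat.mul_le_mul_left _ hcK)

theorem tSer_top {s K m n : ℕ} (hn : n ≤ s * K) :
    (X : PowerSeries ℤ) ^ n ∣ tSer s K (m + 1) - 1 := by
  rw [tSer, Finset.sum_range_succ']
  simp only [mul_zero, pow_zero, Finset.range_zero, Finset.prod_empty, mul_one, add_sub_cancel_right]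
  refine Finset.dvd_sum fun k _ => Dvd.dvd.mul_right (pow_dvd_pow _ (hn.trans ?_)) _
  exact Nat.le_mul_of_pos_right _ (Nat.succ_pos k)

theorem tSer_prod {s c m n K : ℕ} (hs : 0 < s) (hc : 0 < c) (hn : n ≤ s * c * (m + 1))
    (hcK : c ≤ K) (hnK : n ≤ s * K) :
    (X : PowerSeries ℤ) ^ n ∣ tSer s c (m + 1) - ∏ i ∈ Ico c K, geo (s * i) := by
  have h1 := dvd_add (tSer_dvd hs hn hcK) (tSer_top (m := m) hnK)
  have h2 : (∏ i ∈ Ico c K, (1 - (X : PowerSeries ℤ) ^ (s * i))) * ∏ i ∈ Ico c K, geo (s * i) =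
      1 := by
    rw [← Finset.prod_mul_distrib]
    refine Finset.prod_eq_one fun i hi => ?_
    have := (Finset.mem_Ico.mp hi).1
    exact mul_geo (Nat.mul_pos hs (by omega))
  have h3 : tSer s c (m + 1) - ∏ i ∈ Ico c K, geo (s * i) =
      ((tSer s c (m + 1) * ∏ i ∈ Ico c K, (1 - X ^ (s * i)) - tSer s K (m + 1)) +
        (tSer s K (m + 1) - 1)) * ∏ i ∈ Ico c K, geo (s * i) := by
    calc tSer s c (m + 1) - ∏ i ∈ Ico c K, geo (s * i)
        = tSer s c (m + 1) * ((∏ i ∈ Ico c K, (1 - (X : PowerSeries ℤ) ^ (s * i))) *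
            ∏ i ∈ Ico c K, geo (s * i)) - ∏ i ∈ Ico c K, geo (s * i) := by rw [h2, mul_one]
      _ = _ := by ring
  rw [h3]
  exact Dvd.dvd.mul_right h1 _

theorem coeff_mul_tSer {s c m n K : ℕ} (hs : 0 < s) (hc : 0 < c) (hn : n ≤ s * c * (m + 1))
    (hcK : c ≤ K) (hnK : n ≤ s * K) (F : PowerSeries ℤ) {i : ℕ} (hi : i < n) :
    coeff i (F * tSer s c (m + 1)) = coeff i (F * ∏ i ∈ Ico c K, geo (s * i)) := by
  have h1 : (X : PowerSeries ℤ) ^ n ∣ F * tSer s c (m + 1) - F * ∏ i ∈ Ico c K, geo (s * i) := by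
    rw [← mul_sub]
    exact Dvd.dvd.mul_left (tSer_prod hs hc hn hcK hnK) _
  have h2 := PowerSeries.X_pow_dvd_iff.mp h1 i hi
  rw [map_sub, sub_eq_zero] at h2
  exact h2

/-- packed evaluation of `tSer` -/
def tLoop (w n M s c : ℕ) : ℕ → ℕ → ℕ → ℕ → Option ℕ
  | 0, _, _, S => some S
  | m + 1, k, t, S =>
    match Nat.beq (Nat.land (Nat.add S t) M) 0 with
    | true =>
      match Nat.beq (Nat.land (mulTr w n (shXm w n (Nat.mul s c) t)
          (geoN w n (Nat.mul s (Nat.add k 1)))) M) 0 with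
      | true => tLoop w n M s c m (Nat.add k 1) (mulTr w n (shXm w n (Nat.mul s c) t)
          (geoN w n (Nat.mul s (Nat.add k 1)))) (Nat.add S t)
      | false => none
    | false => none

theorem RepB.tLoop {v w n s c : ℕ} (hn : 0 < n) (hvw : v < w) (hb : n * (2 ^ v * 2) ≤ 2 ^ w)
    (hs : 0 < s) (hsc : s * c ≤ n) : ∀ (m k t S R : ℕ),
    RepB w (2 ^ v) n t (X ^ (s * c * k) * ∏ j ∈ range k, geo (s * (j + 1))) →
    RepB w (2 ^ v) n S (tSer s c k) → tLoop w n (hiM v w n) s c m k t S = some R →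
    RepB w (2 ^ v) n R (tSer s c (k + m)) := by
  intro m
  have hb2 : 2 ^ v + 2 ^ v ≤ 2 ^ w := by
    calc 2 ^ v + 2 ^ v = 1 * (2 ^ v * 2) := by ring
      _ ≤ n * (2 ^ v * 2) := Nat.mul_le_mul_right _ hn
      _ ≤ 2 ^ w := hb
  induction m with
  | zero =>
    intro k t S R _ hS h
    rw [Full.tLoop] at h
    rw [add_zero, ← Option.some.inj h]
    exact hS
  | succ m ih =>
    intro k t S R ht hS h
    rw [Full.tLoop] at h
    split at h
    · rename_i h1
      split at h
      · rename_i h2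
        have e1 : Nat.mul s c = s * c := rfl
        have a1 := (hS.add ht).cut hvw hb2 h1
        have a2 := ht.shXm (g := s * c) (by positivity) (by omega) hsc
        have a3 := a2.mulGeoN (g := s * (k + 1)) hvw (Nat.mul_pos hs (Nat.succ_pos k)) hb h2
        have e2 : X ^ (s * c) * (X ^ (s * c * k) * ∏ j ∈ range k, geo (s * (j + 1))) *
            geo (s * (k + 1)) =
            X ^ (s * c * (k + 1)) * ∏ j ∈ range (k + 1), geo (s * (j + 1)) := by
          rw [Finset.prod_range_succ, show s * c * (k + 1) = s * c * k + s * c by ring, pow_add]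
          ring
        have e3 : tSer s c k + X ^ (s * c * k) * ∏ j ∈ range k, geo (s * (j + 1)) =
            tSer s c (k + 1) := by
          rw [tSer, tSer, Finset.sum_range_succ]
        rw [e2] at a3
        rw [e3] at a1
        have a4 := ih (k + 1) _ _ R a3 a1 h
        rw [show k + (m + 1) = k + 1 + m by ring]
        exact a4
      · exact absurd h (by simp)
    · exact absurd h (by simp)

theorem repB_toPS {p : Polynomial ℕ} {w b n : ℕ} (h : p.eval 1 < b) (hb : b ≤ 2 ^ w) :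
    RepB w b n (Nat.mod (p.eval (2 ^ w)) (Nat.pow 2 (Nat.mul w n))) (toPS p) := by
  refine ⟨p.coeff, fun i _ => coeff_toPS p i, fun i _ => (coeff_le_eval_one p i).trans_lt h, ?_⟩
  show p.eval (2 ^ w) % 2 ^ (w * n) = _
  rw [eval_eq_pk p w (n + (p.natDegree + 1)) (by omega)]
  exact pk_mod fun i _ => ((coeff_le_eval_one p i).trans_lt h).trans_le hb

/-! ## The numerical comparison -/

/-- the numerical comparison with the common parts `s i`, `i ≥ c` -/
def numOkB (v vT e u n lo : ℕ) (d : ℕ → ℕ) (t : Tree) (Lg LT : List ℕ) (s c m : ℕ) : Bool :=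
  Nat.blt (numN d (u + 1) t [] 0).2.2 (Nat.pow 2 e) &&
  match mulGL (u + 1) n (hiM v (u + 1) n) Lg 1, mulGL (u + 1) n (hiM v (u + 1) n) LT 1,
    tLoop (u + 1) n (hiM vT (u + 1) n) s c (m + 1) 0 1 0 with
  | some R, some Q, some T =>
    match mulC (u + 1) n (hiM v (u + 1) n) R T, mulC (u + 1) n (hiM v (u + 1) n) Q T with
    | some RT, some QT =>
      match mulC (u + 1) n (hiM v (u + 1) n)
          (Nat.mod (numN d (u + 1) t [] 0).1 (Nat.pow 2 (Nat.mul (u + 1) n))) RT,
        mulC (u + 1) n (hiM v (u + 1) n)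
          (Nat.mod (numN d (u + 1) t [] 0).2.1 (Nat.pow 2 (Nat.mul (u + 1) n))) RT with
      | some F, some G => cmpFrom u n lo F (Nat.add G QT)
      | _, _ => false
    | _, _ => false
  | _, _, _ => false

theorem numOkB_spec {v vT e u n lo : ℕ} (hn : 0 < n) (hlo : lo ≤ n) (hv0 : 0 < v) (hvT0 : 0 < vT)
    (hvu : v + 1 ≤ u) (hvTu : vT + 1 ≤ u) (heu : e ≤ u) (hb1 : n * (2 ^ v * 2) ≤ 2 ^ (u + 1))
    (hb2 : n * (2 ^ vT * 2) ≤ 2 ^ (u + 1)) (hb3 : n * (2 ^ v * 2 ^ vT) ≤ 2 ^ (u + 1))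
    (hb4 : n * (2 ^ e * 2 ^ v) ≤ 2 ^ (u + 1)) {d : ℕ → ℕ} {t : Tree}
    {Lg LT : List ℕ} {s c m : ℕ} (hs : 0 < s) (hsc : s * c ≤ n)
    (hLg : ∀ g ∈ Lg, 0 < g) (hLT : ∀ g ∈ LT, 0 < g)
    (h : numOkB v vT e u n lo d t Lg LT s c m = true) :
    ∀ i, lo ≤ i → i < n →
      coeff i (num d t [] 0 * ((Lg.map geo).prod * tSer s c (m + 1))) ≤
        coeff i ((LT.map geo).prod * tSer s c (m + 1)) := by
  unfold numOkB at h
  rw [Bool.and_eq_true] at h
  obtain ⟨h1, h2⟩ := h
  have h1' : (numN d (u + 1) t [] 0).2.2 < 2 ^ e := Nat.blt_eq.mp h1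
  obtain ⟨n1, n2, n3⟩ := numN_eq d (u + 1) t [] 0
  rw [n3] at h1'
  have hone : ∀ x : ℕ, 0 < x → RepB (u + 1) (2 ^ x) n 1 1 := fun x hx =>
    (RepB.one hn).mono (by
      calc 2 = 2 ^ 1 := by norm_num
        _ ≤ 2 ^ x := Nat.pow_le_pow_right (by norm_num) hx)
  split at h2
  · rename_i R Q T hR hQ hT
    split at h2
    · rename_i RT QT hRT hQT
      split at h2
      · rename_i F G hF hG
        have r1 := RepB.mulGL (by omega) hb1 Lg 1 R 1 hLg (hone v hv0) hR
        have r2 := RepB.mulGL (by omega) hb1 LT 1 Q 1 hLT (hone v hv0) hQ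
        have r3 := RepB.tLoop (v := vT) (w := u + 1) (s := s) (c := c) hn (by omega) hb2 hs hsc
          (m + 1) 0 1 0 T (by simpa using hone vT hvT0)
          (by
            rw [tSer, Finset.range_zero, Finset.sum_empty]
            exact RepB.zero (by positivity)) hT
        rw [one_mul] at r1 r2
        rw [zero_add] at r3
        have r4 := r1.mulC r3 (by omega) hb3 hRT
        have r5 := r2.mulC r3 (by omega) hb3 hQT
        have e0 : (2 : ℕ) ^ e ≤ 2 ^ (u + 1) := Nat.pow_le_pow_right (by norm_num) (by omega)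
        have p1 := repB_toPS (p := (numP d t [] 0).1) (w := u + 1) (b := 2 ^ e) (n := n)
          (by omega) e0
        have p2 := repB_toPS (p := (numP d t [] 0).2) (w := u + 1) (b := 2 ^ e) (n := n)
          (by omega) e0
        rw [← n1] at p1
        rw [← n2] at p2
        have r6 := p1.mulC r4 (by omega) hb4 hF
        have r7 := p2.mulC r4 (by omega) hb4 hG
        have e1 : 2 ^ v + 2 ^ v ≤ 2 ^ u := by
          calc 2 ^ v + 2 ^ v = 2 ^ (v + 1) := by ring
            _ ≤ 2 ^ u := Nat.pow_le_pow_right (by norm_num) hvu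
        have r8 := (r7.add r5).rep (v := u) e1
        have r9 := r6.rep (v := u) (by omega)
        have h5 := Rep.le_of_cmpFrom r9 r8 hlo h2
        intro i hi1 hi2
        have h6 := h5 i hi1 hi2
        rw [num_eq, sub_mul, map_sub]
        rw [map_add] at h6
        linarith
      · exact absurd h2 (by simp)
    · exact absurd h2 (by simp)
  · exact absurd h2 (by simp)

/-! ## The range theorem -/

/-- the parts `3 i` with `c ≤ i < K` -/
def comL (c K : ℕ) : List ℕ := (List.range (K - c)).map fun i => 3 * (c + i)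

theorem comL_pos {c K : ℕ} (hc : 0 < c) : ∀ a ∈ comL c K, 0 < a := by
  intro a ha
  obtain ⟨i, _, rfl⟩ := List.mem_map.mp ha
  omega

theorem list_prod_range (f : ℕ → PowerSeries ℤ) (k : ℕ) :
    ((List.range k).map f).prod = ∏ i ∈ range k, f i := by
  induction k with
  | zero => simp
  | succ k ih => rw [List.range_succ, List.map_append, List.prod_append, ih,
      Finset.prod_range_succ, List.map_singleton, List.prod_singleton]

theorem comL_prod (c K : ℕ) : ((comL c K).map geo).prod = ∏ i ∈ Ico c K, geo (3 * i) := by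
  rw [comL, List.map_map, list_prod_range, Finset.prod_Ico_eq_prod_range]
  rfl

theorem TS_split {c K : ℕ} (hc : 3 ≤ c) (hcK : c ≤ K) :
    ∏ t ∈ TS (3 * K - 1), geo t = (∏ t ∈ TS (3 * c - 1), geo t) * ∏ i ∈ Ico c K, geo (3 * i) := by
  classical
  have h1 : TS (3 * K - 1) = TS (3 * c - 1) ∪ (Ico c K).image (fun i => 3 * i) := by
    ext a
    simp only [TS, Finset.mem_union, Finset.mem_filter, Finset.mem_Icc, Finset.mem_image,
      Finset.mem_Ico]
    constructor
    · rintro ⟨⟨h1, h2⟩, h3⟩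
      by_cases h4 : a ≤ 3 * c - 1
      · exact Or.inl ⟨⟨h1, h4⟩, h3⟩
      · right
        rcases h3 with h3 | ⟨b, rfl⟩
        · omega
        · exact ⟨b, by omega, rfl⟩
    · rintro (⟨⟨h1, h2⟩, h3⟩ | ⟨b, h1, rfl⟩)
      · exact ⟨⟨h1, by omega⟩, h3⟩
      · exact ⟨⟨by omega, by omega⟩, Or.inr ⟨b, rfl⟩⟩
  have h2 : Disjoint (TS (3 * c - 1)) ((Ico c K).image (fun i => 3 * i)) := by
    rw [Finset.disjoint_left]
    intro a h3 h4
    simp only [TS, Finset.mem_filter, Finset.mem_Icc] at h3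
    obtain ⟨b, hb, rfl⟩ := Finset.mem_image.mp h4
    have := Finset.mem_Ico.mp hb
    omega
  rw [h1, Finset.prod_union h2, Finset.prod_image]
  intro a _ b _ hab
  simpa using hab

/-- **Range theorem**, with all multiples of 3 from `3 c` on among the surviving parts. -/
theorem range_certB {l : List (ℕ × ℕ)} (hl : ∀ g ∈ l, 0 < g.1 ∧ 0 < g.2) {w : ℕ → ℕ}
    {rels : List (List (Mo × Mo))}
    (hr : rels.all (fun rs => rs.all (relOk l w (l.length + 1))) = true) {t : Tree}
    (ht : chk (rels.map fun rs => rs.map Prod.fst) (l.length + 1) t [] [] = true)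
    {tb : List TE} (htb : tb.all (teOk l) = true) {us : List (ℕ × ℕ)}
    (hus : usesOk tb us = true) (hinc : incr 1 (relList l tb us) = true) {N : ℕ}
    (hN : (relList l tb us).all (fun r => Nat.ble r.1 N) = true) {I : List ℕ}
    (hI : I.all (fun a => Nat.blt 0 a) = true) {c K : ℕ} (hc3 : 3 ≤ c) (hcK : c ≤ K)
    (hcount : ∀ x, 0 < x → x ≤ N →
      x ≤ (((1, 1) :: relList l tb us).filter (fun r => decide (r.2 ≤ x))).length +
        ((I ++ comL c K).filter (fun a => decide (a ≤ x))).length)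
    {v vT e u n lo m : ℕ}
    (hn : 0 < n) (hnN : n ≤ N + 1) (hlo : lo ≤ n) (hN1 : 1 ≤ N) (hv0 : 0 < v) (hvT0 : 0 < vT)
    (hvu : v + 1 ≤ u) (hvTu : vT + 1 ≤ u) (heu : e ≤ u) (hb1 : n * (2 ^ v * 2) ≤ 2 ^ (u + 1))
    (hb2 : n * (2 ^ vT * 2) ≤ 2 ^ (u + 1)) (hb3 : n * (2 ^ v * 2 ^ vT) ≤ 2 ^ (u + 1))
    (hb4 : n * (2 ^ e * 2 ^ v) ≤ 2 ^ (u + 1)) (hcn : 3 * c ≤ n) (hnm : n ≤ 3 * c * (m + 1))
    (hnK : n ≤ 3 * K)
    (hnum : numOkB v vT e u n lo (gd l) t (((List.range (l.length + 1)).map (gd l)) ++ I)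
      (tsL (3 * c - 1)) 3 c m = true) :
    ∀ k, lo ≤ k → k < n → M k ≤ pSharp k := by
  have hB := baseOf_mon l hl
  have hI' : ∀ a ∈ I, 0 < a := by
    intro a ha
    exact Nat.blt_eq.mp (List.all_eq_true.mp hI a ha)
  have hI2 : ∀ a ∈ I ++ comL c K, 0 < a := by
    intro a ha
    rcases List.mem_append.mp ha with h | h
    · exact hI' a h
    · exact comL_pos (by omega) a h
  have h1 := base_bound hl w rels hr t ht
  obtain ⟨hi1, hi2⟩ := incr_spec 1 _ hinc
  have hrel := hasRel_relList hl htb hus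
  have hself : HasRel 1 (baseOf l) 1 1 := by
    have : (1 * 1, Nat.factorial 1) ∈ tower 1 (baseOf l) (1 - 1) := hB.unit
    exact HasRel.self hB Nat.one_pos this
  have h2 := matching_list hB N ((1, 1) :: relList l tb us)
    (by
      rw [List.map_cons, List.nodup_cons]
      refine ⟨?_, hi2⟩
      intro hmem
      obtain ⟨r, hr1, hr2⟩ := List.mem_map.mp hmem
      have := hi1 r hr1
      omega)
    (by
      intro r hr1
      rw [List.mem_cons] at hr1
      rcases hr1 with rfl | hr1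
      · exact ⟨Nat.one_pos, hN1⟩
      · have := hi1 r hr1
        have h3 := List.all_eq_true.mp hN r hr1
        exact ⟨by omega, Nat.le_of_ble_eq_true h3⟩)
    (by
      intro r hr1
      rw [List.mem_cons] at hr1
      rcases hr1 with rfl | hr1
      · exact hself
      · exact hrel r hr1)
    (I ++ comL c K) hI2 hcount
  have hgeo : ((((List.range (l.length + 1)).map (gd l)) ++ I).map geo).prod =
      (∏ i ∈ Finset.range (l.length + 1), geo (gd l i)) * (I.map geo).prod := by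
    rw [List.map_append, List.prod_append, List.map_map]
    congr 1
  have hpos : ∀ g ∈ ((List.range (l.length + 1)).map (gd l)) ++ I, 0 < g := by
    intro g hg
    rw [List.mem_append] at hg
    rcases hg with hg | hg
    · obtain ⟨i, _, rfl⟩ := List.mem_map.mp hg
      exact gd_pos hl i
    · exact hI' g hg
  have hposT : ∀ g ∈ tsL (3 * c - 1), 0 < g := by
    intro g hg
    rw [tsL, List.mem_filter] at hg
    have := hg.2
    simp only [Bool.and_eq_true, Nat.blt_eq] at this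
    exact this.1
  have h4 := numOkB_spec hn hlo hv0 hvT0 hvu hvTu heu hb1 hb2 hb3 hb4 (by norm_num : 0 < 3) hcn
    hpos hposT hnum
  intro k hk1 hk2
  have h5 := h4 k hk1 hk2
  rw [← mul_assoc, coeff_mul_tSer (by norm_num) (by omega) hnm hcK hnK _ hk2,
    coeff_mul_tSer (by norm_num) (by omega) hnm hcK hnK _ hk2, hgeo, tsL_prod,
    ← TS_split hc3 hcK] at h5
  have h6 := coeff_le_pSharp (3 * K - 1) k
  have h7 := M_le (L := 1) Nat.one_pos hB (n := k) (N := N) (by omega)
  rw [one_mul] at h7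
  have h8 := h2 k
  rw [map_sub, sub_nonneg] at h8
  have h9 := (h1.mul (nn_prodL (I ++ comL c K))) k
  rw [sub_mul, map_sub, sub_nonneg, List.map_append, List.prod_append, comL_prod, mul_assoc] at h9
  rw [List.map_append, List.prod_append, comL_prod] at h8
  have e1 : num (gd l) t [] 0 * ((∏ i ∈ Finset.range (l.length + 1), geo (gd l i)) *
      ((I.map geo).prod * ∏ i ∈ Ico c K, geo (3 * i))) =
      num (gd l) t [] 0 * ((∏ i ∈ Finset.range (l.length + 1), geo (gd l i)) *
      (I.map geo).prod) * ∏ i ∈ Ico c K, geo (3 * i) := by ring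
  rw [e1] at h9
  have : (M k : ℤ) ≤ (pSharp k : ℤ) := by linarith
  exact_mod_cast this

end Pool.Agent.Lib.MP_2e8272_nt.Full
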