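import Pool.Agent.Lib.MP_2e8272_nt.Full.Chain

/-!
# The tower of monoids and the matching theorem
-/

namespace Pool.Agent.Lib.MP_2e8272_nt.Full

open PowerSeries
open scoped Nat

/-- the base monoid with the generators `(L * i, i!)`, `1 ≤ i ≤ m`, adjoined -/
def tower (L : ℕ) (B : Set (ℕ × ℕ)) : ℕ → Set (ℕ × ℕ)
  | 0 => B
  | m + 1 => adj (tower L B m) (L * (m + 1)) (m + 1)!

theorem Mon.tower {L : ℕ} (hL : 0 < L) {B : Set (ℕ × ℕ)} (hB : Mon B) (m : ℕ) :
    Mon (tower L B m) := by
  induction m with
  | zero => exact hB
  | succ m ih => exact ih.adj (Nat.mul_pos hL (Nat.succ_pos m)) (Nat.factorial_pos _)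

theorem tower_mono {L : ℕ} {B : Set (ℕ × ℕ)} {m k : ℕ} (h : m ≤ k) :
    tower L B m ⊆ tower L B k := by
  induction k with
  | zero =>
    have : m = 0 := by omega
    subst this; exact subset_rfl
  | succ k ih =>
    rcases Nat.lt_or_ge m (k + 1) with h1 | h1
    · exact (ih (by omega)).trans (subset_adj _ _ _)
    · have : m = k + 1 := by omega
      subst this; exact subset_rfl

theorem gen_mem_tower {L : ℕ} (hL : 0 < L) {B : Set (ℕ × ℕ)} (hB : Mon B) {i m : ℕ}
    (hi : i ≤ m) : (L * i, i !) ∈ tower L B m := by
  cases i with
  | zero => simpa using (hB.tower hL m).one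
  | succ i => exact tower_mono hi (gen_mem_adj (hB.tower hL i) _ _)

/-- a relation of degree `t` for the generator number `m` -/
def HasRel (L : ℕ) (B : Set (ℕ × ℕ)) (m t : ℕ) : Prop :=
  ∃ v w e : ℕ, t = L * m + e ∧ (t, v) ∈ tower L B (m - 1) ∧ v = w * m ! ∧ (e, w) ∈ tower L B m

theorem HasRel.le {L : ℕ} {B : Set (ℕ × ℕ)} {m t : ℕ} (h : HasRel L B m t) : L * m ≤ t := by
  obtain ⟨v, w, e, h1, _⟩ := h
  omega

/-- the surviving generators above `j` -/
noncomputable def alive (N : ℕ) (κ : ℕ → Option ℕ) (j : ℕ) : Finset ℕ :=
  (Finset.Ioc j N).filter (fun m => ∀ i ∈ Finset.Ioc j N, κ i ≠ some m)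

theorem mem_alive {N : ℕ} {κ : ℕ → Option ℕ} {j m : ℕ} :
    m ∈ alive N κ j ↔ (j < m ∧ m ≤ N) ∧ ∀ i, j < i → i ≤ N → κ i ≠ some m := by
  unfold alive
  rw [Finset.mem_filter, Finset.mem_Ioc]
  constructor
  · rintro ⟨h1, h2⟩
    exact ⟨h1, fun i hi hi' => h2 i (Finset.mem_Ioc.mpr ⟨hi, hi'⟩)⟩
  · rintro ⟨h1, h2⟩
    exact ⟨h1, fun i hi => h2 i (Finset.mem_Ioc.mp hi).1 (Finset.mem_Ioc.mp hi).2⟩

/-- the product over the surviving generators above `j` -/
noncomputable def surv (L N : ℕ) (κ : ℕ → Option ℕ) (j : ℕ) : PowerSeries ℤ :=
  ∏ m ∈ alive N κ j, geo (L * m)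

theorem Nn.surv (L N : ℕ) (κ : ℕ → Option ℕ) (j : ℕ) : Nn (surv L N κ j) :=
  Nn.prod _ _ fun _ _ => Nn.geo _

/-- the matching theorem, explicit form -/
theorem queue {L : ℕ} (hL : 0 < L) {B : Set (ℕ × ℕ)} (hB : Mon B) (N : ℕ) (κ : ℕ → Option ℕ)
    (hinj : ∀ i, 0 < i → i ≤ N → ∀ i', 0 < i' → i' ≤ N → ∀ m, κ i = some m → κ i' = some m →
      i = i')
    (hκ : ∀ i, 0 < i → i ≤ N → ∀ m, κ i = some m → m ≤ N ∧ ∃ t, HasRel L B i t ∧ t ≤ L * m) :
    ∀ j ≤ N, Nn (cnt (tower L B j) * surv L N κ j - cnt (tower L B N)) := by
  have hle : ∀ i, 0 < i → i ≤ N → ∀ m, κ i = some m → i ≤ m := by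
    intro i hi hi' m hm
    obtain ⟨_, t, ht, htm⟩ := hκ i hi hi' m hm
    exact Nat.le_of_mul_le_mul_left (ht.le.trans htm) hL
  have key : ∀ k j : ℕ, j + k = N →
      Nn (cnt (tower L B j) * surv L N κ j - cnt (tower L B N)) := by
    intro k
    induction k with
    | zero =>
      intro j hj
      have : j = N := by omega
      subst this
      have h0 : alive j κ j = ∅ := by
        ext m
        rw [mem_alive]
        simp
      simp only [surv, h0, Finset.prod_empty, mul_one, sub_self]
      exact Nn.zero
    | succ k ih =>
      intro j hj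
      have ih' := ih (j + 1) (by omega)
      have hM := hB.tower hL j
      have hg : 0 < L * (j + 1) := Nat.mul_pos hL (Nat.succ_pos j)
      have hr : 0 < (j + 1)! := Nat.factorial_pos _
      -- it suffices to compare the two products
      suffices hs : Nn (cnt (tower L B j) * surv L N κ j -
          cnt (tower L B (j + 1)) * surv L N κ (j + 1)) by
        have := hs.add ih'
        convert this using 1
        ring
      have hnot : ∀ i, j + 1 < i → i ≤ N → κ i ≠ some (j + 1) := by
        intro i hi hi' he
        have := hle i (by omega) hi' _ he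
        omega
      rcases hκj : κ (j + 1) with _ | m
      · -- no relation used
        have hset : alive N κ j = insert (j + 1) (alive N κ (j + 1)) := by
          ext x
          rw [Finset.mem_insert, mem_alive, mem_alive]
          constructor
          · rintro ⟨⟨h1, h1'⟩, h2⟩
            rcases Nat.lt_or_ge (j + 1) x with h3 | h3
            · exact Or.inr ⟨⟨h3, h1'⟩, fun i hi hi' => h2 i (by omega) hi'⟩
            · exact Or.inl (by omega)
          · rintro (h1 | ⟨⟨h1, h1'⟩, h2⟩)
            · subst h1
              refine ⟨⟨by omega, by omega⟩, fun i hi hi' => ?_⟩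
              rcases Nat.lt_or_ge (j + 1) i with h3 | h3
              · exact hnot i h3 hi'
              · have : i = j + 1 := by omega
                subst this; rw [hκj]; simp
            · refine ⟨⟨by omega, h1'⟩, fun i hi hi' => ?_⟩
              rcases Nat.lt_or_ge (j + 1) i with h3 | h3
              · exact h2 i h3 hi'
              · have : i = j + 1 := by omega
                subst this; rw [hκj]; simp
        have e1 : surv L N κ j = surv L N κ (j + 1) * geo (L * (j + 1)) := by
          unfold surv
          rw [hset, Finset.prod_insert, mul_comm]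
          rw [mem_alive]; omega
        rw [e1]
        have hc := chain_free hM hg hr
        have e2 : cnt (tower L B j) * (surv L N κ (j + 1) * geo (L * (j + 1))) -
            cnt (tower L B (j + 1)) * surv L N κ (j + 1) =
            (cnt (tower L B j) - cnt (adj (tower L B j) (L * (j + 1)) (j + 1)!) *
              (1 - X ^ (L * (j + 1)))) * (surv L N κ (j + 1) * geo (L * (j + 1))) := by
          have h1 := geo_mul hg
          calc cnt (tower L B j) * (surv L N κ (j + 1) * geo (L * (j + 1))) -
            cnt (tower L B (j + 1)) * surv L N κ (j + 1)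
              = cnt (tower L B j) * (surv L N κ (j + 1) * geo (L * (j + 1))) -
            cnt (tower L B (j + 1)) * surv L N κ (j + 1) *
              (geo (L * (j + 1)) * (1 - X ^ (L * (j + 1)))) := by rw [h1, mul_one]
            _ = _ := by
              show _ = (cnt (tower L B j) - cnt (tower L B (j + 1)) *
                (1 - X ^ (L * (j + 1)))) * _
              ring
        rw [e2]
        exact hc.mul ((Nn.surv _ _ _ _).mul (Nn.geo _))
      · obtain ⟨hmN, t, ⟨v, w, e, hte, hv, hvw, hw⟩, htm⟩ := hκ (j + 1) (by omega) (by omega) m hκj
        have hjm := hle (j + 1) (by omega) (by omega) m hκj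
        simp only [Nat.add_sub_cancel] at hv
        have hc : Nn (cnt (tower L B j) * (1 - X ^ t) -
            cnt (tower L B (j + 1)) * (1 - X ^ (L * (j + 1)))) :=
          chain_rel hM hg hr hte hv hvw hw
        have hnotm : ∀ i, j + 1 < i → i ≤ N → κ i ≠ some m := by
          intro i hi hi' he
          have := hinj i (by omega) hi' (j + 1) (by omega) (by omega) m he hκj
          omega
        by_cases hmj : m = j + 1
        · -- self kill
          subst hmj
          have hset : alive N κ j = alive N κ (j + 1) := by
            ext x
            rw [mem_alive, mem_alive]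
            constructor
            · rintro ⟨⟨h1, h1'⟩, h2⟩
              rcases Nat.lt_or_ge (j + 1) x with h3 | h3
              · exact ⟨⟨h3, h1'⟩, fun i hi hi' => h2 i (by omega) hi'⟩
              · have h4 : x = j + 1 := by omega
                exact absurd (h4 ▸ hκj) (h2 (j + 1) (by omega) (by omega))
            · rintro ⟨⟨h1, h1'⟩, h2⟩
              refine ⟨⟨by omega, h1'⟩, fun i hi hi' => ?_⟩
              rcases Nat.lt_or_ge (j + 1) i with h3 | h3
              · exact h2 i h3 hi'
              · have : i = j + 1 := by omega
                subst this; rw [hκj]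
                intro he
                have := Option.some.inj he
                omega
          have e1 : surv L N κ j = surv L N κ (j + 1) := by
            unfold surv
            rw [hset]
          rw [e1]
          have ht : t = L * (j + 1) := by omega
          rw [ht] at hc
          have e2 : cnt (tower L B j) * surv L N κ (j + 1) -
              cnt (tower L B (j + 1)) * surv L N κ (j + 1) =
              (cnt (tower L B j) * (1 - X ^ (L * (j + 1))) -
                cnt (tower L B (j + 1)) * (1 - X ^ (L * (j + 1)))) *
              (surv L N κ (j + 1) * geo (L * (j + 1))) := by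
            have h1 := geo_mul hg
            calc cnt (tower L B j) * surv L N κ (j + 1) -
              cnt (tower L B (j + 1)) * surv L N κ (j + 1)
                = (cnt (tower L B j) - cnt (tower L B (j + 1))) * surv L N κ (j + 1) *
                  (geo (L * (j + 1)) * (1 - X ^ (L * (j + 1)))) := by rw [h1]; ring
              _ = _ := by ring
          rw [e2]
          exact hc.mul ((Nn.surv _ _ _ _).mul (Nn.geo _))
        · -- a later generator is killed
          have hmS : m ∈ alive N κ (j + 1) := by
            rw [mem_alive]
            exact ⟨⟨by omega, hmN⟩, hnotm⟩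
          have hset : alive N κ j = insert (j + 1) ((alive N κ (j + 1)).erase m) := by
            ext x
            rw [Finset.mem_insert, Finset.mem_erase, mem_alive, mem_alive]
            constructor
            · rintro ⟨⟨h1, h1'⟩, h2⟩
              rcases Nat.lt_or_ge (j + 1) x with h3 | h3
              · refine Or.inr ⟨?_, ⟨h3, h1'⟩, fun i hi hi' => h2 i (by omega) hi'⟩
                intro he; subst he
                exact h2 (j + 1) (by omega) (by omega) hκj
              · exact Or.inl (by omega)
            · rintro (h1 | ⟨h0, ⟨h1, h1'⟩, h2⟩)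
              · subst h1
                refine ⟨⟨by omega, by omega⟩, fun i hi hi' => ?_⟩
                rcases Nat.lt_or_ge (j + 1) i with h3 | h3
                · exact hnot i h3 hi'
                · have : i = j + 1 := by omega
                  subst this; rw [hκj]
                  intro he; exact hmj (Option.some.inj he)
              · refine ⟨⟨by omega, h1'⟩, fun i hi hi' => ?_⟩
                rcases Nat.lt_or_ge (j + 1) i with h3 | h3
                · exact h2 i h3 hi'
                · have : i = j + 1 := by omega
                  subst this; rw [hκj]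
                  intro he; exact h0 (Option.some.inj he).symm
          have hj1 : j + 1 ∉ (alive N κ (j + 1)).erase m := by
            rw [Finset.mem_erase, mem_alive]; omega
          have e1 : surv L N κ j =
              (∏ x ∈ (alive N κ (j + 1)).erase m, geo (L * x)) * geo (L * (j + 1)) := by
            unfold surv
            rw [hset, Finset.prod_insert hj1, mul_comm]
          have e2 : surv L N κ (j + 1) =
              (∏ x ∈ (alive N κ (j + 1)).erase m, geo (L * x)) * geo (L * m) := by
            unfold surv
            rw [mul_comm, Finset.mul_prod_erase _ (fun x => geo (L * x)) hmS]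
          rw [e1, e2]
          exact kill_step hg (Nat.mul_pos hL (by omega)) htm hM.inc
            (Nn.prod _ _ fun _ _ => Nn.geo _) hc
  intro j hj
  exact key (N - j) j (by omega)

end Pool.Agent.Lib.MP_2e8272_nt.Full
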