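import Pool.Agent.Lib.MP_2e8272_nt.Full.Final

/-!
# The inequality on a finite range from certificates
-/

namespace Pool.Agent.Lib.MP_2e8272_nt.Full

open PowerSeries
open scoped Nat

theorem Rep.addR {v n P Q : ℕ} {F G : PowerSeries ℤ} (hP : Rep v n P F) (hQ : Rep v n Q G)
    (hm : Nat.land (Nat.add P Q) (maskOf v n) = 0) : Rep v n (Nat.add P Q) (F + G) := by
  obtain ⟨f, f1, f2, f3⟩ := hP
  obtain ⟨g, g1, g2, g3⟩ := hQ
  have e : Nat.add P Q = pk (v + 1) (fun i => f i + g i) n := by
    show P + Q = _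
    rw [f3, g3, pk, pk, pk, ← Finset.sum_add_distrib]
    exact Finset.sum_congr rfl fun i _ => by ring
  refine ⟨fun i => f i + g i, ?_, ?_, e⟩
  · intro i hi
    rw [map_add, f1 i hi, g1 i hi]
    push_cast
    rfl
  · refine lt_of_land_mask ?_ (e ▸ hm)
    intro i hi
    have h1 := f2 i hi
    have h2 := g2 i hi
    show f i + g i < 2 ^ (v + 1)
    rw [pow_succ]
    omega

/-- the list of allowed parts up to `N` -/
def tsL (N : ℕ) : List ℕ :=
  (List.range (N + 1)).filter (fun a => Nat.blt 0 a && (Nat.ble a 7 || Nat.beq (Nat.mod a 3) 0))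

theorem tsL_prod (N : ℕ) : ((tsL N).map geo).prod = ∏ t ∈ TS N, geo t := by
  have h1 : (tsL N).Nodup := List.nodup_range.filter _
  have h2 : (tsL N).toFinset = TS N := by
    ext a
    rw [List.mem_toFinset, tsL, List.mem_filter, List.mem_range, TS, Finset.mem_filter,
      Finset.mem_Icc]
    simp only [Bool.and_eq_true, Bool.or_eq_true, Nat.blt_eq, Nat.ble_eq, Nat.beq_eq]
    show a < N + 1 ∧ 0 < a ∧ (a ≤ 7 ∨ a % 3 = 0) ↔ _
    rw [Nat.dvd_iff_mod_eq_zero]
    omega
  rw [← h2]
  exact (List.prod_toFinset _ h1).symm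

theorem nn_prodL (I : List ℕ) : Nn (I.map geo).prod := by
  induction I with
  | nil => simpa using Nn.one
  | cons a I ih =>
    rw [List.map_cons, List.prod_cons]
    exact (Nn.geo a).mul ih

/-- the numerical comparison -/
def numOk (v n lo : ℕ) (d : ℕ → ℕ) (t : Tree) (Lg LT : List ℕ) : Bool :=
  Nat.blt (numN d (v + 1) t [] 0).2.2 (Nat.pow 2 v) &&
  match mulList (v + 1) n (maskOf v n) Lg
      (Nat.mod (numN d (v + 1) t [] 0).1 (Nat.pow 2 (Nat.mul (v + 1) n))),
    mulList (v + 1) n (maskOf v n) Lg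
      (Nat.mod (numN d (v + 1) t [] 0).2.1 (Nat.pow 2 (Nat.mul (v + 1) n))),
    mulList (v + 1) n (maskOf v n) LT 1 with
  | some P, some N, some Q =>
    Nat.beq (Nat.land (Nat.add N Q) (maskOf v n)) 0 && cmpFrom v n lo P (Nat.add N Q)
  | _, _, _ => false

theorem numOk_spec {v n lo : ℕ} (hv : 0 < v) (hn : 0 < n) (hlo : lo ≤ n) {d : ℕ → ℕ} {t : Tree}
    {Lg LT : List ℕ} (hLg : ∀ g ∈ Lg, 0 < g) (hLT : ∀ g ∈ LT, 0 < g)
    (h : numOk v n lo d t Lg LT = true) :
    ∀ i, lo ≤ i → i < n →
      coeff i (num d t [] 0 * (Lg.map geo).prod) ≤ coeff i ((LT.map geo).prod) := by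
  unfold numOk at h
  rw [Bool.and_eq_true] at h
  obtain ⟨h1, h2⟩ := h
  have h1' : Nat.ble (Nat.pow 2 v) (numN d (v + 1) t [] 0).2.2 = false := by
    rw [Nat.blt_eq] at h1
    rw [Bool.eq_false_iff]
    intro h3
    exact absurd (Nat.le_of_ble_eq_true h3) (not_le.mpr h1)
  obtain ⟨rp, rn⟩ := rep_num d v n t 0 h1'
  split at h2
  · rename_i P N Q hP hN hQ
    rw [Bool.and_eq_true] at h2
    have r1 := Rep.mulList Lg _ P _ hLg rp hP
    have r2 := Rep.mulList Lg _ N _ hLg rn hN
    have r3 := Rep.mulList LT _ Q _ hLT (Rep.one hv hn) hQ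
    have r4 := r2.addR r3 (Nat.eq_of_beq_eq_true h2.1)
    have h5 := Rep.le_of_cmpFrom r1 r4 hlo h2.2
    intro i hi1 hi2
    have h6 := h5 i hi1 hi2
    rw [num_eq, sub_mul, map_sub]
    rw [map_add, one_mul] at h6
    linarith
  · exact absurd h2 (by simp)

/-- **Range theorem.** -/
theorem range_cert {l : List (ℕ × ℕ)} (hl : ∀ g ∈ l, 0 < g.1 ∧ 0 < g.2) {w : ℕ → ℕ}
    {rels : List (List (Mo × Mo))}
    (hr : rels.all (fun rs => rs.all (relOk l w (l.length + 1))) = true) {t : Tree}
    (ht : chk (rels.map fun rs => rs.map Prod.fst) (l.length + 1) t [] [] = true)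
    {tb : List TE} (htb : tb.all (teOk l) = true) {us : List (ℕ × ℕ)}
    (hus : usesOk tb us = true) (hinc : incr 1 (relList l tb us) = true) {N : ℕ}
    (hN : (relList l tb us).all (fun r => Nat.ble r.1 N) = true) {I : List ℕ}
    (hI : I.all (fun a => Nat.blt 0 a) = true) {vc : ℕ}
    (hc : countOk vc (N + 1) (1 :: ((relList l tb us).map Prod.snd ++ I)) = true) {v n lo : ℕ}
    (hv : 0 < v) (hn : 0 < n) (hnN : n ≤ N + 1) (hlo : lo ≤ n) (hN1 : 1 ≤ N)
    (hnum : numOk v n lo (gd l) t (((List.range (l.length + 1)).map (gd l)) ++ I) (tsL n)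
      = true) :
    ∀ m, lo ≤ m → m < n → M m ≤ pSharp m := by
  have hB := baseOf_mon l hl
  have hI' : ∀ a ∈ I, 0 < a := by
    intro a ha
    exact Nat.blt_eq.mp (List.all_eq_true.mp hI a ha)
  have h1 := base_bound hl w rels hr t ht
  obtain ⟨hi1, hi2⟩ := incr_spec 1 _ hinc
  have hrel := hasRel_relList hl htb hus
  have hself : HasRel 1 (baseOf l) 1 1 := by
    have : (1 * 1, 1 !) ∈ tower 1 (baseOf l) (1 - 1) := hB.unit
    exact HasRel.self hB Nat.one_pos this
  have h2 := matching_list hB N ((1, 1) :: relList l tb us)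
    (by
      rw [List.map_cons, List.nodup_cons]
      refine ⟨?_, hi2⟩
      intro hmem
      obtain ⟨r, hr1, hr2⟩ := List.mem_map.mp hmem
      have := hi1 r hr1
      omega)
    (by
      intro r hr1
      rw [List.mem_cons] at hr1
      rcases hr1 with rfl | hr1
      · exact ⟨Nat.one_pos, hN1⟩
      · have := hi1 r hr1
        have h3 := List.all_eq_true.mp hN r hr1
        exact ⟨by omega, Nat.le_of_ble_eq_true h3⟩)
    (by
      intro r hr1
      rw [List.mem_cons] at hr1
      rcases hr1 with rfl | hr1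
      · exact hself
      · exact hrel r hr1)
    I hI'
    (by
      intro x hx hxN
      have h3 := countOk_spec hc x (by omega)
      rw [List.filter_cons, if_pos (by simp; omega), List.length_cons, List.filter_append,
        List.length_append, List.filter_map, List.length_map] at h3
      rw [List.filter_cons, if_pos (by simp; omega), List.length_cons]
      have e : (relList l tb us).filter ((fun a => decide (a ≤ x)) ∘ Prod.snd) =
          (relList l tb us).filter (fun r => decide (r.2 ≤ x)) := rfl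
      rw [e] at h3
      omega)
  have hgeo : ((((List.range (l.length + 1)).map (gd l)) ++ I).map geo).prod =
      (∏ i ∈ Finset.range (l.length + 1), geo (gd l i)) * (I.map geo).prod := by
    rw [List.map_append, List.prod_append, List.map_map]
    congr 1
  have hpos : ∀ g ∈ ((List.range (l.length + 1)).map (gd l)) ++ I, 0 < g := by
    intro g hg
    rw [List.mem_append] at hg
    rcases hg with hg | hg
    · obtain ⟨i, _, rfl⟩ := List.mem_map.mp hg
      exact gd_pos hl i
    · exact hI' g hg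
  have hposT : ∀ g ∈ tsL n, 0 < g := by
    intro g hg
    rw [tsL, List.mem_filter] at hg
    have := hg.2
    simp only [Bool.and_eq_true, Nat.blt_eq] at this
    exact this.1
  have h4 := numOk_spec hv hn hlo hpos hposT hnum
  intro m hm1 hm2
  have h5 := h4 m hm1 hm2
  rw [hgeo, tsL_prod] at h5
  have h6 := coeff_le_pSharp n m
  have h7 := M_le (L := 1) Nat.one_pos hB (n := m) (N := N) (by omega)
  rw [one_mul] at h7
  have h8 := h2 m
  rw [map_sub, sub_nonneg] at h8
  have h9 := (h1.mul (nn_prodL I)) m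
  rw [sub_mul, map_sub, sub_nonneg, mul_assoc] at h9
  have : (M m : ℤ) ≤ (pSharp m : ℤ) := by linarith
  exact_mod_cast this

end Pool.Agent.Lib.MP_2e8272_nt.Full
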