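import Mathlib

/-!
# The counting condition, checked by the kernel with a sliding window

The pending tokens are kept in a window number with base `2 ^ w` digits, read from the lowest
digit on.  An overflow of a digit only makes the count smaller, so no check for it is needed.
-/

namespace Pool.Agent.Lib.MP_2e8272_nt.Full

open Finset

/-- sum of the first `y + 1` digits in base `b` -/
def dsum (b : ℕ) : ℕ → ℕ → ℕ
  | P, 0 => P % b
  | P, y + 1 => P % b + dsum b (P / b) y

theorem dsum_succ_le {b : ℕ} (hb : 2 ≤ b) : ∀ (y P : ℕ), dsum b (P + 1) y ≤ dsum b P y + 1 := by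
  intro y
  induction y with
  | zero =>
    intro P
    rw [dsum, dsum, Nat.add_mod, Nat.mod_eq_of_lt (show 1 < b by omega)]
    exact Nat.mod_le _ _
  | succ y ih =>
    intro P
    rw [dsum, dsum]
    have h1 : P % b < b := Nat.mod_lt _ (by omega)
    have h2 := Nat.div_add_mod P b
    by_cases h : P % b + 1 < b
    · have h3 : (P + 1) % b = P % b + 1 := by
        conv_lhs => rw [← h2]
        rw [show b * (P / b) + P % b + 1 = P % b + 1 + b * (P / b) by ring,
          Nat.add_mul_mod_self_left, Nat.mod_eq_of_lt h]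
      have h4 : (P + 1) / b = P / b := by
        conv_lhs => rw [← h2]
        rw [show b * (P / b) + P % b + 1 = P % b + 1 + b * (P / b) by ring,
          Nat.add_mul_div_left _ _ (by omega), Nat.div_eq_of_lt h, zero_add]
      rw [h3, h4]
      omega
    · have h5 : P % b + 1 = b := by omega
      have h6 : P + 1 = b * (P / b + 1) := by
        rw [mul_add, mul_one]
        omega
      have h3 : (P + 1) % b = 0 := by rw [h6, Nat.mul_mod_right]
      have h4 : (P + 1) / b = P / b + 1 := by rw [h6, Nat.mul_div_cancel_left _ (by omega)]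
      rw [h3, h4]
      have := ih (P / b)
      omega

theorem dsum_add_pow {b : ℕ} (hb : 2 ≤ b) : ∀ (s y P : ℕ),
    dsum b (P + b ^ s) y ≤ dsum b P y + if s ≤ y then 1 else 0 := by
  intro s
  induction s with
  | zero =>
    intro y P
    rw [pow_zero, if_pos (Nat.zero_le y)]
    exact dsum_succ_le hb y P
  | succ s ih =>
    intro y P
    have h3 : (P + b ^ (s + 1)) % b = P % b := by
      rw [pow_succ, mul_comm (b ^ s) b, Nat.add_mul_mod_self_left]
    have h4 : (P + b ^ (s + 1)) / b = P / b + b ^ s := by
      rw [pow_succ, mul_comm (b ^ s) b, Nat.add_mul_div_left _ _ (by omega)]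
    cases y with
    | zero => rw [dsum, dsum, h3]; simp
    | succ y =>
      rw [dsum, dsum, h3, h4]
      have h5 := ih y (P / b)
      have h6 : (if s + 1 ≤ y + 1 then 1 else 0) = if s ≤ y then 1 else 0 := by
        by_cases h : s ≤ y
        · rw [if_pos h, if_pos (by omega)]
        · rw [if_neg h, if_neg (by omega)]
      rw [h6]
      omega

/-- add the token `t` to the window starting at `x` -/
def rhTok (w t x P : ℕ) : ℕ :=
  match Nat.ble x t with
  | true => Nat.add P (Nat.shiftLeft 1 (Nat.mul w (Nat.sub t x)))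
  | false => P

/-- the new count -/
def rhCnt (w : ℕ) (i : Bool) (P c : ℕ) : ℕ :=
  match i with
  | true => Nat.succ (Nat.add c (Nat.mod P (Nat.pow 2 w)))
  | false => Nat.add c (Nat.mod P (Nat.pow 2 w))

theorem rhCnt_eq (w : ℕ) (i : Bool) (P c : ℕ) :
    rhCnt w i P c = c + P % 2 ^ w + if i = true then 1 else 0 := by
  cases i
  · simp only [Bool.false_eq_true, if_false, add_zero]; rfl
  · simp only [if_true]; rfl

/-- the loop -/
def runHall (w : ℕ) (tv : ℕ → ℕ) (iv : ℕ → Bool) : ℕ → ℕ → ℕ → ℕ → Bool
  | 0, _, _, _ => true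
  | fuel + 1, x, c, P =>
    match Nat.ble x (rhCnt w (iv x) (rhTok w (tv x) x P) c) with
    | true => runHall w tv iv fuel (Nat.succ x) (rhCnt w (iv x) (rhTok w (tv x) x P) c)
        (Nat.shiftRight (rhTok w (tv x) x P) w)
    | false => false

theorem rhTok_dsum {w t x P : ℕ} (hw : 0 < w) (hx : 0 < x) (y : ℕ) :
    dsum (2 ^ w) (rhTok w t x P) y ≤
      dsum (2 ^ w) P y + if t ≠ 0 ∧ t ≤ x + y then 1 else 0 := by
  have hb : 2 ≤ 2 ^ w := by
    calc 2 = 2 ^ 1 := by norm_num
      _ ≤ 2 ^ w := Nat.pow_le_pow_right (by norm_num) hw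
  rw [rhTok]
  split
  · rename_i h
    have h1 : x ≤ t := Nat.le_of_ble_eq_true h
    have h2 : Nat.add P (Nat.shiftLeft 1 (Nat.mul w (Nat.sub t x))) = P + (2 ^ w) ^ (t - x) := by
      change P + 1 <<< (w * (t - x)) = _
      rw [Nat.one_shiftLeft, pow_mul]
    rw [h2]
    refine (dsum_add_pow hb (t - x) y P).trans ?_
    refine Nat.add_le_add_left ?_ _
    by_cases h3 : t - x ≤ y
    · rw [if_pos h3, if_pos ⟨by omega, by omega⟩]
    · rw [if_neg h3]; exact Nat.zero_le _
  · exact Nat.le_add_right _ _

theorem runHall_spec {w : ℕ} (hw : 0 < w) {tv : ℕ → ℕ} {iv : ℕ → Bool} :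
    ∀ (fuel x c P : ℕ), 0 < x →
      (∀ y, c + dsum (2 ^ w) P y ≤
        ((Icc 1 (x - 1)).filter (fun m => tv m ≠ 0 ∧ tv m ≤ x + y)).card +
          ((Icc 1 (x - 1)).filter (fun m => iv m = true)).card) →
      runHall w tv iv fuel x c P = true → ∀ z, x ≤ z → z < x + fuel →
        z ≤ ((Icc 1 z).filter (fun m => tv m ≠ 0 ∧ tv m ≤ z)).card +
          ((Icc 1 z).filter (fun m => iv m = true)).card := by
  intro fuel
  induction fuel with
  | zero => intro x c P _ _ _ z h1 h2; omega
  | succ fuel ih =>
    intro x c P hx hinv h z hz1 hz2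
    rw [runHall] at h
    split at h
    · rename_i hle
      have e1 : Icc 1 x = insert x (Icc 1 (x - 1)) := by
        ext k; simp only [Finset.mem_Icc, Finset.mem_insert]; omega
      have hnot : ∀ p : ℕ → Prop, ∀ [DecidablePred p], x ∉ (Icc 1 (x - 1)).filter p := by
        intro p _ h
        have := (Finset.mem_Icc.mp (Finset.mem_filter.mp h).1).2
        omega
      have c1 : ∀ y, ((Icc 1 x).filter (fun m => tv m ≠ 0 ∧ tv m ≤ x + y)).card =
          (if tv x ≠ 0 ∧ tv x ≤ x + y then 1 else 0) +
            ((Icc 1 (x - 1)).filter (fun m => tv m ≠ 0 ∧ tv m ≤ x + y)).card := by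
        intro y
        rw [e1, Finset.filter_insert]
        split_ifs with h
        · rw [Finset.card_insert_of_notMem (hnot _)]; ring
        · ring
      have c2 : ((Icc 1 x).filter (fun m => iv m = true)).card =
          (if iv x = true then 1 else 0) +
            ((Icc 1 (x - 1)).filter (fun m => iv m = true)).card := by
        rw [e1, Finset.filter_insert]
        split_ifs with h
        · rw [Finset.card_insert_of_notMem (hnot _)]; ring
        · ring
      set P1 := rhTok w (tv x) x P with hP1
      set c' := rhCnt w (iv x) P1 c with hc'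
      have hc'' : c' = c + P1 % 2 ^ w + if iv x = true then 1 else 0 := by
        rw [hc']
        exact rhCnt_eq w (iv x) P1 c
      have key : ∀ y, c' + dsum (2 ^ w) (Nat.shiftRight P1 w) y ≤
          ((Icc 1 x).filter (fun m => tv m ≠ 0 ∧ tv m ≤ x + 1 + y)).card +
            ((Icc 1 x).filter (fun m => iv m = true)).card := by
        intro y
        have h1 : Nat.shiftRight P1 w = P1 / 2 ^ w := Nat.shiftRight_eq_div_pow P1 w
        have h2 : dsum (2 ^ w) P1 (y + 1) = P1 % 2 ^ w + dsum (2 ^ w) (P1 / 2 ^ w) y := rfl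
        have h3 := rhTok_dsum (t := tv x) (P := P) hw hx (y + 1)
        rw [← hP1] at h3
        have h4 := hinv (y + 1)
        have h5 := c1 (y + 1)
        rw [show x + (y + 1) = x + 1 + y by ring] at h3 h4 h5
        rw [h1, h5, c2, hc'']
        omega
      by_cases hz : z = x
      · subst hz
        have h1 : z ≤ c' := Nat.le_of_ble_eq_true hle
        have h3 := rhTok_dsum (t := tv z) (P := P) hw hx 0
        rw [← hP1] at h3
        have h2 : dsum (2 ^ w) P1 0 = P1 % 2 ^ w := rfl
        have h4 := hinv 0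
        have h5 := c1 0
        rw [add_zero] at h3 h4 h5
        rw [h5, c2]
        omega
      · refine ih (x + 1) c' (Nat.shiftRight P1 w) (by omega) ?_ h z (by omega) (by omega)
        intro y
        rw [Nat.add_sub_cancel]
        exact key y
    · exact absurd h (by simp)

/-- the counting condition for `0 < x < n` -/
theorem runHall_main {w n : ℕ} (hw : 0 < w) {tv : ℕ → ℕ} {iv : ℕ → Bool}
    (h : runHall w tv iv n 1 0 0 = true) : ∀ x, 0 < x → x ≤ n →
      x ≤ ((Icc 1 x).filter (fun m => tv m ≠ 0 ∧ tv m ≤ x)).card +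
        ((Icc 1 x).filter (fun m => iv m = true)).card := by
  intro x hx0 hx
  refine runHall_spec hw n 1 0 0 Nat.one_pos ?_ h x hx0 (by omega)
  intro y
  have h1 : ∀ y, dsum (2 ^ w) 0 y = 0 := by
    intro y
    induction y with
    | zero => rw [dsum, Nat.zero_mod]
    | succ y ih => rw [dsum, Nat.zero_mod, Nat.zero_div, ih]
  rw [h1]
  exact Nat.zero_le _

end Pool.Agent.Lib.MP_2e8272_nt.Full
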