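import Mathlib
import Pool.Agent.Lib.MP_2e8272_nt.Full.Tail

/-!
# Infinite products: splitting of multisets, and parts which are multiples of 3
-/

namespace Pool.Agent.Lib.MP_2e8272_nt.Full

open PowerSeries Finset

/-! ### Equality of the first `n` coefficients -/

/-- equality of the first `n` coefficients -/
def EqTo (n : ℕ) (A B : PowerSeries ℤ) : Prop := ∀ i < n, coeff i A = coeff i B

theorem EqTo.refl (n : ℕ) (A : PowerSeries ℤ) : EqTo n A A := fun _ _ => rfl

theorem EqTo.symm {n : ℕ} {A B : PowerSeries ℤ} (h : EqTo n A B) : EqTo n B A :=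
  fun i hi => (h i hi).symm

theorem EqTo.trans {n : ℕ} {A B C : PowerSeries ℤ} (h : EqTo n A B) (h' : EqTo n B C) :
    EqTo n A C := fun i hi => (h i hi).trans (h' i hi)

theorem EqTo.mul {n : ℕ} {A B C D : PowerSeries ℤ} (h : EqTo n A B) (h' : EqTo n C D) :
    EqTo n (A * C) (B * D) := by
  intro i hi
  rw [coeff_mul, coeff_mul]
  refine Finset.sum_congr rfl fun p hp => ?_
  have := Finset.HasAntidiagonal.mem_antidiagonal.mp hp
  rw [h p.1 (by omega), h' p.2 (by omega)]

theorem EqTo.add {n : ℕ} {A B C D : PowerSeries ℤ} (h : EqTo n A B) (h' : EqTo n C D) :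
    EqTo n (A + C) (B + D) := by
  intro i hi
  rw [map_add, map_add, h i hi, h' i hi]

theorem EqTo.X_pow {n s : ℕ} (hs : n ≤ s) (A : PowerSeries ℤ) : EqTo n (X ^ s * A) 0 := by
  intro i hi
  rw [coeff_X_pow_mul', if_neg (by omega), map_zero]

theorem EqTo.geo {n g : ℕ} (hg : n ≤ g) : EqTo n (geo g) 1 := by
  intro i hi
  have := coeff_mul_geo_of_lt hg hi 1
  rw [one_mul] at this
  exact this.symm

/-! ### Multiples of 3 -/

/-- `1 / ((1 - X^3) ... (1 - X^(3k)))` -/
noncomputable def p3 : ℕ → PowerSeries ℤ
  | 0 => 1
  | k + 1 => p3 k * geo (3 * (k + 1))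

/-- the truncated sum for the product of all `geo (3 i)` with `i ≥ a` -/
noncomputable def e3 (K a : ℕ) : PowerSeries ℤ := ∑ k ∈ range (K + 1), X ^ (3 * a * k) * p3 k

theorem p3_step (k : ℕ) : X ^ (3 * (k + 1)) * p3 (k + 1) = p3 (k + 1) - p3 k := by
  have h := geo_mul (g := 3 * (k + 1)) (by omega)
  have h1 : p3 (k + 1) * (1 - X ^ (3 * (k + 1))) = p3 k := by
    rw [p3, mul_assoc, h, mul_one]
  rw [← h1]; ring

theorem e3_step (K a : ℕ) :
    e3 K (a + 1) = (1 - X ^ (3 * a)) * e3 K a + X ^ (3 * a * (K + 1)) * p3 K := by
  induction K with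
  | zero =>
    simp only [e3, zero_add, Finset.range_one, Finset.sum_singleton, mul_zero, pow_zero, p3,
      mul_one]
    ring
  | succ K ih =>
    have h1 : e3 (K + 1) (a + 1) = e3 K (a + 1) + X ^ (3 * (a + 1) * (K + 1)) * p3 (K + 1) := by
      rw [e3, Finset.sum_range_succ, ← e3]
    have h2 : e3 (K + 1) a = e3 K a + X ^ (3 * a * (K + 1)) * p3 (K + 1) := by
      rw [e3, Finset.sum_range_succ, ← e3]
    have h3 : (X : PowerSeries ℤ) ^ (3 * (a + 1) * (K + 1)) * p3 (K + 1) =
        X ^ (3 * a * (K + 1)) * (p3 (K + 1) - p3 K) := by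
      rw [← p3_step, ← mul_assoc, ← pow_add]
      congr 2
      ring
    have h4 : (X : PowerSeries ℤ) ^ (3 * a * (K + 1 + 1)) = X ^ (3 * a) * X ^ (3 * a * (K + 1)) := by
      rw [← pow_add]; congr 1; ring
    rw [h1, ih, h3, h2, h4]
    ring

theorem e3_geo {n K a : ℕ} (ha : 0 < a) (h : n ≤ 3 * a * (K + 1)) :
    EqTo n (e3 K a) (geo (3 * a) * e3 K (a + 1)) := by
  have h1 := geo_mul (g := 3 * a) (by omega)
  have h2 : geo (3 * a) * e3 K (a + 1) =
      e3 K a + X ^ (3 * a * (K + 1)) * (geo (3 * a) * p3 K) := by
    rw [e3_step]
    calc _ = (geo (3 * a) * (1 - X ^ (3 * a))) * e3 K a +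
          X ^ (3 * a * (K + 1)) * (geo (3 * a) * p3 K) := by ring
      _ = _ := by rw [h1, one_mul]
  rw [h2]
  have h3 := (EqTo.refl n (e3 K a)).add (EqTo.X_pow h (geo (3 * a) * p3 K))
  rw [add_zero] at h3
  exact h3.symm

theorem e3_one {n K a : ℕ} (ha : 0 < a) (h : n ≤ 3 * a) : EqTo n (e3 K a) 1 := by
  have h1 : e3 K a = 1 + ∑ k ∈ range K, X ^ (3 * a * (k + 1)) * p3 (k + 1) := by
    rw [e3, Finset.sum_range_succ', add_comm]
    simp [p3]
  rw [h1]
  intro i hi
  rw [map_add, map_sum, Finset.sum_eq_zero, add_zero]
  intro k _
  exact EqTo.X_pow (h.trans (Nat.le_mul_of_pos_right _ (Nat.succ_pos k))) _ i hi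

/-- the product over multiples of 3 -/
theorem prod3_eq {n K : ℕ} : ∀ (m a : ℕ), 0 < a → n ≤ 3 * a * (K + 1) → n ≤ 3 * (a + m) →
    EqTo n (∏ i ∈ Ico a (a + m), geo (3 * i)) (e3 K a) := by
  intro m
  induction m with
  | zero =>
    intro a ha _ h
    rw [add_zero, Finset.Ico_self, Finset.prod_empty]
    exact (e3_one ha (by omega)).symm
  | succ m ih =>
    intro a ha h1 h2
    have h3 : Ico a (a + (m + 1)) = insert a (Ico (a + 1) (a + 1 + m)) := by
      ext k; simp only [Finset.mem_Ico, Finset.mem_insert]; omega
    rw [h3, Finset.prod_insert (by simp)]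
    have h4 := ih (a + 1) (by omega) (h1.trans (Nat.mul_le_mul_right _ (by omega))) (by omega)
    exact ((EqTo.refl n (geo (3 * a))).mul h4).trans (e3_geo ha h1).symm

/-! ### Splitting of multisets -/

/-- the series of the multisets with parts in `B` -/
noncomputable def rB (B : Finset ℕ) : PowerSeries ℤ := ∏ b ∈ B, geo b

theorem Nn.rB (B : Finset ℕ) : Nn (rB B) := Nn.prod _ _ fun b _ => Nn.geo b

theorem rB_zero {B : Finset ℕ} (hB : ∀ b ∈ B, 0 < b) : coeff 0 (rB B) = 1 := by
  classical
  induction B using Finset.induction_on with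
  | empty => simp [rB]
  | insert b B hb ih =>
    have h1 : rB (insert b B) = rB B * geo b := by
      rw [rB, Finset.prod_insert hb, rB]; ring
    rw [h1, coeff_mul_geo (hB b (Finset.mem_insert_self _ _)),
      ih fun c hc => hB c (Finset.mem_insert_of_mem hc)]
    have : ¬ b ≤ 0 := by have := hB b (Finset.mem_insert_self _ _); omega
    simp [this]

/-- the double sum -/
noncomputable def qB (B : Finset ℕ) (a c : ℕ) : ℤ :=
  ∑ s ∈ range a, ∑ t ∈ range (c + 1),
    if s + t < a + c ∧ a + c - s - t ∈ B then coeff s (rB B) * coeff t (rB B) else 0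

theorem split {B : Finset ℕ} (hB : ∀ b ∈ B, 0 < b) (a : ℕ) (ha : 0 < a) :
    ∀ c, coeff (a + c) (rB B) ≤ qB B a c := by
  classical
  induction B using Finset.induction_on with
  | empty =>
    intro c
    have : a + c ≠ 0 := by omega
    simp [rB, qB, coeff_one, this, ha.ne']
  | insert b B hb ih =>
    have hb0 := hB b (Finset.mem_insert_self _ _)
    have ih' := ih fun c hc => hB c (Finset.mem_insert_of_mem hc)
    have h1 : rB (insert b B) = rB B * geo b := by
      rw [rB, Finset.prod_insert hb, rB]; ring
    have hrec : ∀ n, coeff n (rB (insert b B)) = coeff n (rB B) +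
        if b ≤ n then coeff (n - b) (rB (insert b B)) else 0 := by
      intro n
      rw [h1]
      exact coeff_mul_geo hb0 _ n
    have hnn := Nn.rB B
    have hnn' := Nn.rB (insert b B)
    have hle : ∀ n, coeff n (rB B) ≤ coeff n (rB (insert b B)) := by
      intro n
      rw [hrec n]
      have := hnn' (n - b)
      split_ifs <;> linarith
    intro c
    induction c using Nat.strong_induction_on with
    | _ c ihc =>
      rw [hrec (a + c)]
      have hQ := ih' c
      by_cases hbc : b ≤ c
      · rw [if_pos (by omega), show a + c - b = a + (c - b) by omega]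
        have h2 := ihc (c - b) (by omega)
        refine (add_le_add hQ h2).trans ?_
        -- qB B a c + qB B' a (c - b) ≤ qB B' a c
        rw [qB, qB, qB, ← Finset.sum_add_distrib]
        refine Finset.sum_le_sum fun s hs => ?_
        have hs' := Finset.mem_range.mp hs
        have e1 : ∑ t ∈ range (c + 1), (if s + t < a + c ∧ a + c - s - t ∈ insert b B then
            coeff s (rB (insert b B)) * coeff t (rB (insert b B)) else 0) =
            ∑ t ∈ range (c + 1), (if s + t < a + c ∧ a + c - s - t ∈ insert b B then
              coeff s (rB (insert b B)) * coeff t (rB B) else 0) +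
            ∑ t ∈ range (c + 1), (if b ≤ t then (if s + t < a + c ∧ a + c - s - t ∈ insert b B then
              coeff s (rB (insert b B)) * coeff (t - b) (rB (insert b B)) else 0) else 0) := by
          rw [← Finset.sum_add_distrib]
          refine Finset.sum_congr rfl fun t _ => ?_
          rw [hrec t]
          split_ifs <;> ring
        have e2 : ∑ t ∈ range (c + 1), (if b ≤ t then (if s + t < a + c ∧
            a + c - s - t ∈ insert b B then
              coeff s (rB (insert b B)) * coeff (t - b) (rB (insert b B)) else 0) else 0) =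
            ∑ t ∈ range (c - b + 1), (if s + t < a + (c - b) ∧ a + (c - b) - s - t ∈ insert b B then
              coeff s (rB (insert b B)) * coeff t (rB (insert b B)) else 0) := by
          rw [← Finset.sum_filter]
          refine (Finset.sum_nbij' (fun t => t + b) (fun t => t - b) ?_ ?_ ?_ ?_ ?_).symm
          · intro t ht
            rw [Finset.mem_range] at ht
            rw [Finset.mem_filter, Finset.mem_range]
            omega
          · intro t ht
            rw [Finset.mem_filter, Finset.mem_range] at ht
            rw [Finset.mem_range]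
            omega
          · intro t _; exact Nat.add_sub_cancel t b
          · intro t ht
            rw [Finset.mem_filter] at ht
            exact Nat.sub_add_cancel ht.2
          · intro t _
            rw [Nat.add_sub_cancel, show a + c - s - (t + b) = a + (c - b) - s - t by omega]
            have : (s + t < a + (c - b)) ↔ (s + (t + b) < a + c) := by omega
            simp only [this]
        rw [e1, e2]
        refine add_le_add ?_ le_rfl
        refine Finset.sum_le_sum fun t _ => ?_
        by_cases hc1 : s + t < a + c ∧ a + c - s - t ∈ B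
        · rw [if_pos hc1, if_pos ⟨hc1.1, Finset.mem_insert_of_mem hc1.2⟩]
          exact mul_le_mul_of_nonneg_right (hle s) (hnn t)
        · rw [if_neg hc1]
          have := mul_nonneg (hnn' s) (hnn t)
          split_ifs <;> linarith
      · -- b > c
        have e3 : qB B a c + (if b ≤ a + c then coeff (a + c - b) (rB (insert b B)) else 0) ≤
            qB (insert b B) a c := by
          have hsplit : qB (insert b B) a c =
              (∑ s ∈ range a, ∑ t ∈ range (c + 1), if s + t < a + c ∧ a + c - s - t ∈ B then
                coeff s (rB (insert b B)) * coeff t (rB (insert b B)) else 0) +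
              (∑ s ∈ range a, ∑ t ∈ range (c + 1), if s + t < a + c ∧ a + c - s - t = b then
                coeff s (rB (insert b B)) * coeff t (rB (insert b B)) else 0) := by
            rw [qB, ← Finset.sum_add_distrib]
            refine Finset.sum_congr rfl fun s _ => ?_
            rw [← Finset.sum_add_distrib]
            refine Finset.sum_congr rfl fun t _ => ?_
            by_cases h4 : s + t < a + c
            · by_cases h5 : a + c - s - t = b
              · have h6 : a + c - s - t ∉ B := by rw [h5]; exact hb
                simp [h4, h5, hb]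
              · have h6 : (a + c - s - t ∈ insert b B) ↔ a + c - s - t ∈ B := by
                  rw [Finset.mem_insert]; tauto
                simp [h4, h5, h6]
            · simp [h4]
          rw [hsplit]
          refine add_le_add ?_ ?_
          · rw [qB]
            refine Finset.sum_le_sum fun s _ => Finset.sum_le_sum fun t _ => ?_
            split_ifs
            · exact mul_le_mul (hle s) (hle t) (hnn t) (hnn' s)
            · exact le_rfl
          · split_ifs with h4
            · have h5 : coeff (a + c - b) (rB (insert b B)) ≤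
                  ∑ t ∈ range (c + 1), if (a + c - b) + t < a + c ∧ a + c - (a + c - b) - t = b then
                    coeff (a + c - b) (rB (insert b B)) * coeff t (rB (insert b B)) else 0 := by
                have h6 := Finset.single_le_sum (s := range (c + 1))
                  (f := fun t => if (a + c - b) + t < a + c ∧ a + c - (a + c - b) - t = b then
                    coeff (a + c - b) (rB (insert b B)) * coeff t (rB (insert b B)) else 0)
                  (fun t _ => by
                    change 0 ≤ (if (a + c - b) + t < a + c ∧ a + c - (a + c - b) - t = b then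
                      coeff (a + c - b) (rB (insert b B)) * coeff t (rB (insert b B)) else 0)
                    have := mul_nonneg (hnn' (a + c - b)) (hnn' t)
                    split_ifs <;> linarith) (Finset.mem_range.mpr (Nat.succ_pos c))
                refine le_trans ?_ h6
                change _ ≤ (if (a + c - b) + 0 < a + c ∧ a + c - (a + c - b) - 0 = b then
                      coeff (a + c - b) (rB (insert b B)) * coeff 0 (rB (insert b B)) else 0)
                rw [if_pos (by omega), rB_zero hB, mul_one]
              refine h5.trans (Finset.single_le_sum (s := range a)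
                (f := fun s => ∑ t ∈ range (c + 1), if s + t < a + c ∧ a + c - s - t = b then
                  coeff s (rB (insert b B)) * coeff t (rB (insert b B)) else 0)
                (fun s _ => Finset.sum_nonneg fun t _ => ?_) (Finset.mem_range.mpr (by omega)))
              have := mul_nonneg (hnn' s) (hnn' t)
              split_ifs <;> linarith
            · refine Finset.sum_nonneg fun s _ => Finset.sum_nonneg fun t _ => ?_
              have := mul_nonneg (hnn' s) (hnn' t)
              split_ifs <;> linarith
        exact (add_le_add hQ le_rfl).trans e3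

/-- number of multisets of total at most `n` -/
noncomputable def hB (B : Finset ℕ) (n : ℕ) : ℤ := ∑ t ∈ range (n + 1), coeff t (rB B)

theorem submul {B : Finset ℕ} (hB' : ∀ b ∈ B, 0 < b) (a c : ℕ) :
    coeff (a + 1 + c) (rB B) ≤ hB B a * hB B c := by
  refine (split hB' (a + 1) (Nat.succ_pos a) c).trans ?_
  rw [qB, hB, hB, Finset.sum_mul_sum]
  refine Finset.sum_le_sum fun s _ => Finset.sum_le_sum fun t _ => ?_
  have := mul_nonneg (Nn.rB B s) (Nn.rB B t)
  split_ifs <;> linarith

/-- the first `lo` coefficients -/
noncomputable def cut (lo : ℕ) (F : PowerSeries ℤ) : PowerSeries ℤ :=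
  mk fun i => if i < lo then coeff i F else 0

/-- comparison with all parts in `B`, for all degrees `n ≥ J` -/
theorem payment2 {F G : PowerSeries ℤ} (hF : Nn F) (hG : Nn G) {lo J : ℕ} (hJ : 0 < J)
    (hloJ : lo ≤ J) (h1 : LeFrom lo F G) {K : ℤ} {B : Finset ℕ} (hB0 : ∀ b ∈ B, 0 < b)
    (hK : coeff (J - 1) (cut lo F * rB B * geo 1) ≤ K)
    (h2 : ∀ m, J ≤ m → coeff m F + K ≤ coeff m G) :
    LeFrom J (F * rB B) (G * rB B) := by
  intro n hn
  obtain ⟨c, rfl⟩ := Nat.exists_eq_add_of_le hn
  have hr := Nn.rB B
  have e : coeff (J + c) (G * rB B) - coeff (J + c) (F * rB B) =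
      ∑ j ∈ range (J + c + 1), (coeff j G - coeff j F) * coeff (J + c - j) (rB B) := by
    rw [coeff_mul, coeff_mul, ← Finset.sum_sub_distrib,
      Finset.Nat.sum_antidiagonal_eq_sum_range_succ
        (fun i j => coeff i G * coeff j (rB B) - coeff i F * coeff j (rB B))]
    refine Finset.sum_congr rfl fun j _ => ?_
    ring
  -- lower bound of the sum
  have e2 : ∑ j ∈ range (J + c + 1), (coeff j G - coeff j F) * coeff (J + c - j) (rB B) =
      ∑ j ∈ range J, (coeff j G - coeff j F) * coeff (J + c - j) (rB B) +
        ∑ t ∈ range (c + 1), (coeff (J + t) G - coeff (J + t) F) * coeff (c - t) (rB B) := by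
    rw [show J + c + 1 = J + (c + 1) by ring, Finset.sum_range_add]
    congr 1
    refine Finset.sum_congr rfl fun t _ => ?_
    rw [show J + c - (J + t) = c - t by omega]
  have e3 : K * hB B c ≤
      ∑ t ∈ range (c + 1), (coeff (J + t) G - coeff (J + t) F) * coeff (c - t) (rB B) := by
    have h3 : hB B c = ∑ t ∈ range (c + 1), coeff (c - t) (rB B) := by
      rw [hB, ← Finset.sum_range_reflect]
      refine Finset.sum_congr rfl fun t _ => ?_
      rw [show c + 1 - 1 - t = c - t by omega]
    rw [h3, Finset.mul_sum]
    refine Finset.sum_le_sum fun t _ => ?_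
    have h4 := h2 (J + t) (Nat.le_add_right J t)
    exact mul_le_mul_of_nonneg_right (by linarith) (hr _)
  have hHc : 0 ≤ hB B c := Finset.sum_nonneg fun t _ => hr t
  have e4 : -(K * hB B c) ≤ ∑ j ∈ range J, (coeff j G - coeff j F) * coeff (J + c - j) (rB B) := by
    have h5 : ∑ j ∈ range J, (if j < lo then coeff j F else 0) * hB B (J - 1 - j) =
        coeff (J - 1) (cut lo F * rB B * geo 1) := by
      rw [mul_assoc, coeff_mul, Finset.Nat.sum_antidiagonal_eq_sum_range_succ
        (fun i j => coeff i (cut lo F) * coeff j (rB B * geo 1)), show (J - 1).succ = J by omega]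
      refine Finset.sum_congr rfl fun j _ => ?_
      rw [coeff_mul_geo_one, cut, coeff_mk, hB]
    have h6 : ∑ j ∈ range J, (if j < lo then coeff j F else 0) * hB B (J - 1 - j) * hB B c ≤
        K * hB B c := by
      rw [← Finset.sum_mul, h5]
      exact mul_le_mul_of_nonneg_right hK hHc
    refine (neg_le_neg h6).trans ?_
    rw [← Finset.sum_neg_distrib]
    refine Finset.sum_le_sum fun j hj => ?_
    have hj' := Finset.mem_range.mp hj
    by_cases hlo : j < lo
    · rw [if_pos hlo]
      have h7 := submul hB0 (J - 1 - j) c
      rw [show J - 1 - j + 1 + c = J + c - j by omega] at h7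
      have h8 := mul_le_mul_of_nonneg_left h7 (hF j)
      have h9 := mul_nonneg (hG j) (hr (J + c - j))
      linarith
    · rw [if_neg hlo]
      have h7 := h1 j (not_lt.mp hlo)
      have h8 := mul_nonneg (sub_nonneg.mpr h7) (hr (J + c - j))
      linarith
  have e5 : 0 ≤ coeff (J + c) (G * rB B) - coeff (J + c) (F * rB B) := by
    rw [e, e2]
    linarith
  linarith

end Pool.Agent.Lib.MP_2e8272_nt.Full
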