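import Mathlib
import Pool.Agent.Lib.MP_2e8272_nt.Full.Geo2
import Pool.Agent.Lib.MP_2e8272_nt.Full.TailB

/-!
# The kernel check for the range `n ≥ lo`, with all multiples of 3
-/

namespace Pool.Agent.Lib.MP_2e8272_nt.Full

open PowerSeries Finset

/-! ### Products with one multiplication per part -/

/-- multiplication by `geo g` for all `g` of a list -/
def gList (v u n mhi : ℕ) : List ℕ → ℕ → Option ℕ
  | [], P => some P
  | g :: L, P =>
    match gstep v u n mhi g P with
    | some P' => gList v u n mhi L P'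
    | none => none

theorem gList_spec {v u n : ℕ} (huv : u ≤ v) : ∀ (L : List ℕ) (P P' : ℕ) (F : PowerSeries ℤ),
    (∀ a ∈ L, 0 < a) → Rep v n P F → gList v u n (maskHi (v + 1) u n) L P = some P' →
    Rep v n P' (F * gprod L) := by
  intro L
  induction L with
  | nil =>
    intro P P' F _ hP h
    rw [gList] at h
    rw [gprod_nil, mul_one, ← Option.some.inj h]
    exact hP
  | cons b L ih =>
    intro P P' F hL hP h
    rw [gList] at h
    split at h
    · rename_i P1 e1
      have hP1 := Rep.gstep huv (hL b List.mem_cons_self) hP e1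
      have h3 := ih P1 P' _ (fun a ha => hL a (List.mem_cons_of_mem _ ha)) hP1 h
      rw [gprod_cons, ← mul_assoc]
      exact h3
    · exact absurd h (by simp)

/-- the kernel loop over the common parts -/
def gLoop (v u n lo mhi : ℕ) : List ℕ → ℕ → ℕ → Option (ℕ × ℕ)
  | [], P, Q => some (P, Q)
  | b :: L, P, Q =>
    match gstep v u n mhi b P with
    | none => none
    | some P' =>
      match gstep v u n mhi b Q with
      | none => none
      | some Q' =>
        match cmpFrom v n lo P' Q' with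
        | true => gLoop v u n lo mhi L P' Q'
        | false => none

theorem gLoop_spec {v u n lo : ℕ} (huv : u ≤ v) (hlo : lo ≤ n) : ∀ (L : List ℕ)
    (P Q P' Q' : ℕ) (F G : PowerSeries ℤ), (∀ b ∈ L, 0 < b ∧ lo + b ≤ n) → Rep v n P F →
    Rep v n Q G → LeFrom n F G →
    gLoop v u n lo (maskHi (v + 1) u n) L P Q = some (P', Q') →
    Rep v n P' (F * gprod L) ∧ Rep v n Q' (G * gprod L) ∧
      LeFrom n (F * gprod L) (G * gprod L) := by
  intro L
  induction L with
  | nil =>
    intro P Q P' Q' F G _ hP hQ h0 h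
    rw [gLoop] at h
    obtain ⟨h1, h2⟩ := Prod.mk.inj (Option.some.inj h)
    rw [gprod_nil, mul_one, mul_one, ← h1, ← h2]
    exact ⟨hP, hQ, h0⟩
  | cons b L ih =>
    intro P Q P' Q' F G hL hP hQ h0 h
    rw [gLoop] at h
    split at h
    · exact absurd h (by simp)
    · rename_i P1 e1
      split at h
      · exact absurd h (by simp)
      · rename_i Q1 e2
        split at h
        · rename_i e3
          obtain ⟨hb, hbn⟩ := hL b List.mem_cons_self
          have hP1 := Rep.gstep huv hb hP e1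
          have hQ1 := Rep.gstep huv hb hQ e2
          have h1 := Rep.le_of_cmpFrom hP1 hQ1 hlo e3
          have h2 : LeFrom lo (F * geo b) (G * geo b) := h0.mul_geo hb hbn fun m hm1 hm2 =>
            h1 m hm1 hm2
          have h3 := ih P1 Q1 P' Q' (F * geo b) (G * geo b)
            (fun a ha => hL a (List.mem_cons_of_mem _ ha)) hP1 hQ1
            (fun m hm => h2 m (by omega)) h
          rw [gprod_cons, ← mul_assoc, ← mul_assoc]
          exact h3
        · exact absurd h (by simp)

/-! ### Shift by `X ^ s` -/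

/-- shift by `s` digits -/
def shX (w n s P : ℕ) : ℕ :=
  Nat.shiftLeft (Nat.mod P (Nat.pow 2 (Nat.mul w (Nat.sub n s)))) (Nat.mul w s)

theorem Rep.shX {v n s P : ℕ} {F : PowerSeries ℤ} (hs : s ≤ n) (h : Rep v n P F) :
    Rep v n (Full.shX (v + 1) n s P) (X ^ s * F) := by
  obtain ⟨f, f1, f2, f3⟩ := h
  refine ⟨fun i => if s ≤ i then f (i - s) else 0, ?_, ?_, ?_⟩
  · intro i hi
    rw [coeff_X_pow_mul']
    change _ = (((if s ≤ i then f (i - s) else 0 : ℕ)) : ℤ)
    split_ifs with h1
    · exact f1 _ (by omega)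
    · rfl
  · intro i hi
    change (if s ≤ i then f (i - s) else 0) < 2 ^ v
    split_ifs with h1
    · exact f2 _ (by omega)
    · positivity
  · have h4 : Full.shX (v + 1) n s P = (P % 2 ^ ((v + 1) * (n - s))) <<< ((v + 1) * s) := rfl
    rw [h4, f3, Nat.shiftLeft_eq, pk_shift hs fun i hi => lt_two_pow_succ (f2 i hi)]

/-! ### The first `lo` coefficients -/

/-- the first `lo` digits -/
def cutP (w lo P : ℕ) : ℕ := Nat.mod P (Nat.pow 2 (Nat.mul w lo))

theorem Rep.cutP {v n lo P : ℕ} {F : PowerSeries ℤ} (hlo : lo ≤ n) (h : Rep v n P F) :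
    Rep v n (Full.cutP (v + 1) lo P) (cut lo F) := by
  obtain ⟨f, f1, f2, f3⟩ := h
  refine ⟨fun i => if i < lo then f i else 0, ?_, ?_, ?_⟩
  · intro i hi
    rw [cut, coeff_mk]
    change _ = (((if i < lo then f i else 0 : ℕ)) : ℤ)
    split_ifs with h1
    · exact f1 _ (by omega)
    · rfl
  · intro i hi
    change (if i < lo then f i else 0) < 2 ^ v
    split_ifs with h1
    · exact f2 _ (by omega)
    · positivity
  · have h4 : Full.cutP (v + 1) lo P = P % 2 ^ ((v + 1) * lo) := rfl
    obtain ⟨a, ha⟩ := Nat.exists_eq_add_of_le hlo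
    rw [h4, f3, ha, pk_mod fun i hi => lt_two_pow_succ (f2 i (by omega)), pk_add_split]
    have h5 : pk (v + 1) (fun i => (fun j => if j < lo then f j else 0) (lo + i)) a = 0 := by
      rw [pk]
      refine Finset.sum_eq_zero fun i _ => ?_
      change (if lo + i < lo then f (lo + i) else 0) * _ = 0
      rw [if_neg (by omega), zero_mul]
    rw [h5, zero_mul, add_zero]
    refine pk_congr fun i hi => ?_
    rw [if_pos hi]

/-! ### Multiplication by `e3 K a` -/

/-- multiplication by `e3`: state `X ^ (3 a k) * (F * p3 k)` and `F * e3 k a` -/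
def e3Loop (v u n a3 mhi mask : ℕ) : ℕ → ℕ → ℕ → ℕ → Option ℕ
  | 0, _, _, acc => some acc
  | fuel + 1, k, S, acc =>
    match gstep v u n mhi (Nat.mul 3 (Nat.succ k)) (shX (v + 1) n a3 S) with
    | none => none
    | some S' =>
      match Nat.beq (Nat.land (Nat.add acc S') mask) 0 with
      | true => e3Loop v u n a3 mhi mask fuel (Nat.succ k) S' (Nat.add acc S')
      | false => none

theorem e3Loop_spec {v u n a : ℕ} (huv : u ≤ v) (hn : 3 * a ≤ n) :
    ∀ (fuel k S acc R : ℕ) (F : PowerSeries ℤ),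
    Rep v n S (X ^ (3 * a * k) * (F * p3 k)) → Rep v n acc (F * e3 k a) →
    e3Loop v u n (3 * a) (maskHi (v + 1) u n) (maskOf v n) fuel k S acc = some R →
    Rep v n R (F * e3 (k + fuel) a) := by
  intro fuel
  induction fuel with
  | zero =>
    intro k S acc R F _ hacc h
    rw [e3Loop] at h
    rw [← Option.some.inj h]
    exact hacc
  | succ fuel ih =>
    intro k S acc R F hS hacc h
    rw [e3Loop] at h
    split at h
    · exact absurd h (by simp)
    rename_i S1 e1
    split at h
    · rename_i e2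
      have hS1 : Rep v n S1 (X ^ (3 * a * (k + 1)) * (F * p3 (k + 1))) := by
        have h1 := Rep.gstep (g := 3 * (k + 1)) huv (by omega) (hS.shX hn) e1
        have h2 : X ^ (3 * a) * (X ^ (3 * a * k) * (F * p3 k)) * geo (3 * (k + 1)) =
            X ^ (3 * a * (k + 1)) * (F * p3 (k + 1)) := by
          rw [p3, show 3 * a * (k + 1) = 3 * a + 3 * a * k by ring, pow_add]; ring
        rw [h2] at h1
        exact h1
      have h2 := hacc.add hS1 (Nat.eq_of_beq_eq_true e2)
      have h3 : F * e3 k a + X ^ (3 * a * (k + 1)) * (F * p3 (k + 1)) = F * e3 (k + 1) a := by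
        have h4 : e3 (k + 1) a = e3 k a + X ^ (3 * a * (k + 1)) * p3 (k + 1) := by
          rw [e3, Finset.sum_range_succ, ← e3]
        rw [h4]; ring
      rw [h3] at h2
      have h5 := ih (k + 1) S1 _ R F hS1 h2 h
      rw [show k + 1 + fuel = k + (fuel + 1) by ring] at h5
      exact h5
    · exact absurd h (by simp)

theorem e3_zero (a : ℕ) : e3 0 a = 1 := by
  simp [e3, p3]

theorem Rep.e3 {v u n a K P R : ℕ} {F : PowerSeries ℤ} (huv : u ≤ v) (hn : 3 * a ≤ n)
    (hP : Rep v n P F)
    (h : e3Loop v u n (3 * a) (maskHi (v + 1) u n) (maskOf v n) K 0 P P = some R) :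
    Rep v n R (F * Full.e3 K a) := by
  have h1 := e3Loop_spec huv hn K 0 P P R F
    (by rw [p3, mul_one, mul_zero, pow_zero, one_mul]; exact hP)
    (by rw [e3_zero, mul_one]; exact hP) h
  rw [zero_add] at h1
  exact h1

/-! ### The check -/

/-- the last part: comparison of the full products below `n`, and the payment constant -/
def lastChk3 (v u n lo J a3 K bl P Q : ℕ) : Bool :=
  match gstep v u n (maskHi (v + 1) u n) bl P with
  | none => false
  | some P2 =>
  match gstep v u n (maskHi (v + 1) u n) bl Q with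
  | none => false
  | some Q2 =>
  match cmpFrom v n lo P2 Q2 with
  | false => false
  | true =>
  match e3Loop v u n a3 (maskHi (v + 1) u n) (maskOf v n) K 0 P2 P2 with
  | none => false
  | some P3 =>
  match e3Loop v u n a3 (maskHi (v + 1) u n) (maskOf v n) K 0 Q2 Q2 with
  | none => false
  | some Q3 =>
  match cmpFrom v n lo P3 Q3 with
  | false => false
  | true =>
  match e3Loop v u n a3 (maskHi (v + 1) u n) (maskOf v n) K 0 (cutP (v + 1) lo P2)
      (cutP (v + 1) lo P2) with
  | none => false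
  | some C3 =>
  match gstep v u n (maskHi (v + 1) u n) 1 C3 with
  | none => false
  | some C4 =>
  match Nat.blt (digit v C4 (Nat.pred J)) (Nat.pow 2 v) with
  | false => false
  | true =>
  match Nat.beq (Nat.land (Nat.add P2 (Nat.div (Nat.mul (digit v C4 (Nat.pred J))
      (maskOf v n)) (Nat.pow 2 v))) (maskOf v n)) 0 with
  | false => false
  | true => cmpFrom v n J (Nat.add P2 (Nat.div (Nat.mul (digit v C4 (Nat.pred J))
      (maskOf v n)) (Nat.pow 2 v))) Q2

theorem EqTo.mul_left {n : ℕ} {A B : PowerSeries ℤ} (F : PowerSeries ℤ) (h : EqTo n A B) :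
    EqTo n (F * A) (F * B) := (EqTo.refl n F).mul h

theorem lastChk3_spec {v u n lo J a K bl P Q : ℕ} {F G : PowerSeries ℤ} (huv : u ≤ v)
    (hlo0 : 0 < lo) (hloJ : lo ≤ J) (hbl : 0 < bl) (hJn : J + bl ≤ n)
    (hK : 3 * a ≤ n) (hFn : Nn F) (hGn : Nn G) (hP : Rep v n P F)
    (hQ : Rep v n Q G) (h0 : LeFrom n F G) {B : Finset ℕ} (hB0 : ∀ b ∈ B, 0 < b)
    (hB : EqTo n (rB B) (e3 K a))
    (h : lastChk3 v u n lo J (3 * a) K bl P Q = true) :
    LeFrom lo (F * geo bl * rB B) (G * geo bl * rB B) := by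
  rw [lastChk3] at h
  split at h
  · exact absurd h (by simp)
  rename_i P2 e1
  split at h
  · exact absurd h (by simp)
  rename_i Q2 e2
  split at h
  · exact absurd h (by simp)
  rename_i e3'
  split at h
  · exact absurd h (by simp)
  rename_i P3 e4
  split at h
  · exact absurd h (by simp)
  rename_i Q3 e5
  split at h
  · exact absurd h (by simp)
  rename_i e6
  split at h
  · exact absurd h (by simp)
  rename_i C3 e7
  split at h
  · exact absurd h (by simp)
  rename_i C4 e8
  split at h
  · exact absurd h (by simp)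
  rename_i e9
  split at h
  · exact absurd h (by simp)
  rename_i e10
  have hP2 := Rep.gstep huv hbl hP e1
  have hQ2 := Rep.gstep huv hbl hQ e2
  have hP3 := Rep.e3 huv hK hP2 e4
  have hQ3 := Rep.e3 huv hK hQ2 e5
  have hC3 := Rep.e3 huv hK (hP2.cutP (lo := lo) (by omega)) e7
  have hC4 := Rep.gstep huv Nat.one_pos hC3 e8
  have h1 := Rep.le_of_cmpFrom hP2 hQ2 (by omega) e3'
  have h2 : LeFrom lo (F * geo bl) (G * geo bl) := h0.mul_geo hbl (by omega) fun m a b => h1 m a b
  have hK2 := hC4.digit (i := J - 1) (by omega)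
  have e9' : Nat.ble (digit v C4 (J - 1) + 1) (2 ^ v) = true := e9
  have hKlt : digit v C4 (J - 1) < 2 ^ v := Nat.le_of_ble_eq_true e9'
  have h' : cmpFrom v n J (Nat.add P2 (Nat.div (Nat.mul (digit v C4 (J - 1))
      (maskOf v n)) (Nat.pow 2 v))) Q2 = true := h
  have e10' : Nat.beq (Nat.land (Nat.add P2 (Nat.div (Nat.mul (digit v C4 (J - 1))
      (maskOf v n)) (Nat.pow 2 v))) (maskOf v n)) 0 = true := e10
  have hR := hP2.add (Rep.const (n := n) hKlt) (Nat.eq_of_beq_eq_true e10')
  have h3 := Rep.le_of_cmpFrom hR hQ2 (by omega) h'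
  -- payment from `J` on
  have h4 : ∀ m, J ≤ m → coeff m (F * geo bl) + (digit v C4 (J - 1) : ℤ) ≤
      coeff m (G * geo bl) := by
    intro m hm
    induction m using Nat.strong_induction_on with
    | _ m ih =>
      by_cases hmn : m < n
      · have h4 := h3 m hm hmn
        have hg1 : coeff m (geo 1) = 1 := by rw [geo, coeff_mk, if_pos (one_dvd m)]
        rw [map_add, coeff_C_mul, hg1, mul_one] at h4
        exact h4
      · have h4 := ih (m - bl) (by omega) (by omega)
        have h5 := h0 m (by omega)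
        rw [coeff_mul_geo hbl F m, coeff_mul_geo hbl G m, if_pos (by omega), if_pos (by omega)]
        linarith
  have h5 : coeff (J - 1) (cut lo (F * geo bl) * rB B * geo 1) ≤ (digit v C4 (J - 1) : ℤ) := by
    rw [← hK2]
    refine le_of_eq ?_
    exact ((hB.mul_left (cut lo (F * geo bl))).mul (EqTo.refl n (geo 1))) (J - 1) (by omega)
  have h6 := payment2 (hFn.mul (Nn.geo bl)) (hGn.mul (Nn.geo bl)) (by omega) hloJ h2 hB0 h5 h4
  -- below `n`
  have h7 := Rep.le_of_cmpFrom hP3 hQ3 (by omega) e6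
  intro m hm
  by_cases hmn : m < n
  · rw [(hB.mul_left (F * geo bl)) m hmn, (hB.mul_left (G * geo bl)) m hmn]
    exact h7 m hm hmn
  · exact h6 m (by omega)

/-- the whole kernel check -/
def chk3 (v u n lo J a3 K bl : ℕ) (FL DL CL : List ℕ) : Bool :=
  match gList v u n (maskHi (v + 1) u n) FL 1 with
  | none => false
  | some P =>
    match gList v u n (maskHi (v + 1) u n) DL 1 with
    | none => false
    | some Q =>
      match gLoop v u n lo (maskHi (v + 1) u n) CL P Q with
      | none => false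
      | some R => lastChk3 v u n lo J a3 K bl R.1 R.2

theorem chk3_spec {v u n lo J a K bl : ℕ} {FL DL CL : List ℕ} (hv : 0 < v) (huv : u ≤ v)
    (hlo0 : 0 < lo) (hloJ : lo ≤ J) (hbl : 0 < bl) (hJn : J + bl ≤ n)
    (hK : 3 * a ≤ n) (hF : ∀ a ∈ FL, 0 < a)
    (hG : ∀ a ∈ DL, 0 < a) (hC : ∀ b ∈ CL, 0 < b ∧ lo + b ≤ n)
    (h0 : LeFrom n (gprod FL) (gprod DL)) (h : chk3 v u n lo J (3 * a) K bl FL DL CL = true)
    {B : Finset ℕ} (hB0 : ∀ b ∈ B, 0 < b) (hB : EqTo n (rB B) (e3 K a)) :
    LeFrom lo (gprod FL * gprod CL * geo bl * rB B)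
      (gprod DL * gprod CL * geo bl * rB B) := by
  rw [chk3] at h
  split at h
  · exact absurd h (by simp)
  rename_i P e1
  split at h
  · exact absurd h (by simp)
  rename_i Q e2
  split at h
  · exact absurd h (by simp)
  rename_i R e3'
  have hP := gList_spec huv FL 1 P 1 hF (Rep.one hv (by omega)) e1
  have hQ := gList_spec huv DL 1 Q 1 hG (Rep.one hv (by omega)) e2
  rw [one_mul] at hP hQ
  obtain ⟨r1, r2, r3⟩ := gLoop_spec huv (by omega) CL P Q R.1 R.2 (gprod FL) (gprod DL) hC hP hQ h0
    (by rw [e3'])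
  exact lastChk3_spec huv hlo0 hloJ hbl hJn hK ((Nn.gprod FL).mul (Nn.gprod CL))
    ((Nn.gprod DL).mul (Nn.gprod CL)) r1 r2 r3 hB0 hB h

/-- the multiples of 3 from `3 a` on -/
def mul3 (a m : ℕ) : Finset ℕ := (Ico a (a + m)).image fun i => 3 * i

theorem mul3_EqTo {n K a m : ℕ} (ha : 0 < a) (h1 : n ≤ 3 * a * (K + 1)) (h2 : n ≤ 3 * (a + m)) :
    EqTo n (rB (mul3 a m)) (e3 K a) := by
  have h3 : rB (mul3 a m) = ∏ i ∈ Ico a (a + m), geo (3 * i) := by
    rw [rB, mul3, Finset.prod_image]
    intro x _ y _ hxy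
    have : 3 * x = 3 * y := hxy
    omega
  rw [h3]
  exact prod3_eq m a ha h1 h2

end Pool.Agent.Lib.MP_2e8272_nt.Full
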