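import Mathlib
import Pool.Agent.Lib.MP_2e8272_nt.Full.Tail

/-!
# The tail certificate: comparison of two infinite products, checked by the kernel
-/

namespace Pool.Agent.Lib.MP_2e8272_nt.Full

open PowerSeries Finset

/-- last step: multiply both series by `geo bl`, compare from `lo` on, and compare with the sum of
all coefficients below `lo` from `J` on -/
def lastChk (v n lo J bl P Q : ℕ) : Bool :=
  match mulGeo (v + 1) n (maskOf v n) 20 bl P with
  | none => false
  | some P2 =>
    match mulGeo (v + 1) n (maskOf v n) 20 bl Q with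
    | none => false
    | some Q2 =>
      match cmpFrom v n lo P2 Q2 with
      | false => false
      | true =>
        match mulGeo (v + 1) n (maskOf v n) 20 1 P2 with
        | none => false
        | some P3 =>
          match Nat.blt (digit v P3 (lo - 1)) (Nat.pow 2 v) with
          | false => false
          | true =>
            match Nat.beq (Nat.land (Nat.add P2 (Nat.div (Nat.mul (digit v P3 (lo - 1))
                (maskOf v n)) (Nat.pow 2 v))) (maskOf v n)) 0 with
            | false => false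
            | true => cmpFrom v n J (Nat.add P2 (Nat.div (Nat.mul (digit v P3 (lo - 1))
                (maskOf v n)) (Nat.pow 2 v))) Q2

theorem lastChk_spec {v n lo J bl P Q : ℕ} {F G : PowerSeries ℤ} (hlo0 : 0 < lo)
    (hloJ : lo ≤ J) (hbl : 0 < bl) (hJn : J + bl ≤ n) (hP : Rep v n P F)
    (hQ : Rep v n Q G) (h0 : LeFrom n F G) (h : lastChk v n lo J bl P Q = true) :
    LeFrom lo (F * geo bl) (G * geo bl) ∧
      ∀ m, J ≤ m → coeff m (F * geo bl) + ∑ j ∈ range lo, coeff j (F * geo bl) ≤
        coeff m (G * geo bl) := by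
  rw [lastChk] at h
  split at h
  · exact absurd h (by simp)
  rename_i P2 e1
  split at h
  · exact absurd h (by simp)
  rename_i Q2 e2
  split at h
  · exact absurd h (by simp)
  rename_i e3
  split at h
  · exact absurd h (by simp)
  rename_i P3 e4
  split at h
  · exact absurd h (by simp)
  rename_i e5
  split at h
  · exact absurd h (by simp)
  rename_i e6
  have hP2 := Rep.mulGeo 20 bl P P2 F hbl hP e1
  have hQ2 := Rep.mulGeo 20 bl Q Q2 G hbl hQ e2
  have hP3 := Rep.mulGeo 20 1 P2 P3 _ Nat.one_pos hP2 e4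
  have h1 := Rep.le_of_cmpFrom hP2 hQ2 (by omega) e3
  have h2 : LeFrom lo (F * geo bl) (G * geo bl) := h0.mul_geo hbl (by omega) fun m a b => h1 m a b
  refine ⟨h2, ?_⟩
  have hK := hP3.digit (i := lo - 1) (by omega)
  rw [coeff_mul_geo_one, show lo - 1 + 1 = lo by omega] at hK
  set K := digit v P3 (lo - 1) with hKdef
  have hKlt : K < 2 ^ v := by
    have h3 : Nat.ble (K + 1) (2 ^ v) = true := e5
    exact Nat.le_of_ble_eq_true h3
  have hR := hP2.add (Rep.const (n := n) hKlt) (Nat.eq_of_beq_eq_true e6)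
  have h3 := Rep.le_of_cmpFrom hR hQ2 (by omega) h
  intro m hm
  rw [hK]
  induction m using Nat.strong_induction_on with
  | _ m ih =>
    by_cases hmn : m < n
    · have h4 := h3 m hm hmn
      have hg1 : coeff m (geo 1) = 1 := by rw [geo, coeff_mk, if_pos (one_dvd m)]
      rw [map_add, coeff_C_mul, hg1, mul_one] at h4
      exact h4
    · have h4 := ih (m - bl) (by omega) (by omega)
      have h5 := h0 m (by omega)
      rw [coeff_mul_geo hbl F m, coeff_mul_geo hbl G m, if_pos (by omega), if_pos (by omega)]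
      linarith

/-- the whole kernel check -/
def tailChk (v n lo J bl : ℕ) (FL DL CL : List ℕ) : Bool :=
  match mulList (v + 1) n (maskOf v n) FL 1 with
  | none => false
  | some P =>
    match mulList (v + 1) n (maskOf v n) DL 1 with
    | none => false
    | some Q =>
      match tailLoop v n lo (maskOf v n) CL P Q with
      | none => false
      | some R => lastChk v n lo J bl R.1 R.2

theorem tailChk_spec {v n lo J bl : ℕ} {FL DL CL : List ℕ} (hv : 0 < v) (hlo0 : 0 < lo)
    (hloJ : lo ≤ J) (hbl : 0 < bl) (hJn : J + bl ≤ n) (hF : ∀ a ∈ FL, 0 < a)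
    (hG : ∀ a ∈ DL, 0 < a) (hC : ∀ b ∈ CL, 0 < b ∧ lo + b ≤ n)
    (h0 : LeFrom n (gprod FL) (gprod DL)) (h : tailChk v n lo J bl FL DL CL = true)
    (B : Finset ℕ) (hB : ∀ b ∈ B, J ≤ b) :
    LeFrom lo (gprod FL * gprod CL * geo bl * ∏ b ∈ B, geo b)
      (gprod DL * gprod CL * geo bl * ∏ b ∈ B, geo b) := by
  rw [tailChk] at h
  split at h
  · exact absurd h (by simp)
  rename_i P e1
  split at h
  · exact absurd h (by simp)
  rename_i Q e2
  split at h
  · exact absurd h (by simp)
  rename_i R e3
  have hP := Rep.mulList FL 1 P 1 hF (Rep.one hv (by omega)) e1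
  have hQ := Rep.mulList DL 1 Q 1 hG (Rep.one hv (by omega)) e2
  rw [one_mul] at hP hQ
  obtain ⟨r1, r2, r3⟩ := tailLoop_spec (by omega) CL P Q R.1 R.2 (gprod FL) (gprod DL) hC hP hQ h0
    (by rw [e3])
  obtain ⟨s1, s2⟩ := lastChk_spec hlo0 hloJ hbl hJn r1 r2 r3 h
  refine payment ?_ ?_ hloJ s1 s2 B fun b hb => ⟨hB b hb, by have := hB b hb; omega⟩
  · exact ((Nn.gprod FL).mul (Nn.gprod CL)).mul (Nn.geo bl)
  · exact ((Nn.gprod DL).mul (Nn.gprod CL)).mul (Nn.geo bl)

end Pool.Agent.Lib.MP_2e8272_nt.Full
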