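import Pool.Agent.Lib.MP_2e8272_nt.Full.TailTab
import Pool.Agent.Lib.MP_2e8272_nt.Full.Lin
import Pool.Agent.Lib.MP_2e8272_nt.Full.RunHall

/-!
# The counting condition of the tail certificate
-/

namespace Pool.Agent.Lib.MP_2e8272_nt.Full.TailT

open Full Finset
open scoped Nat

/-- the base monoid -/
def BB : Set (ℕ × ℕ) := baseOf yl

theorem hl : ∀ g ∈ yl, 0 < g.1 ∧ 0 < g.2 := by decide +kernel

theorem hBB : Mon BB := baseOf_mon yl hl

theorem htb : tb.all (teOk yl) = true := by decide +kernel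

theorem hus : usesOk tb us = true := by decide +kernel

theorem hrl : relList yl tb us = rl := by decide +kernel

theorem rel_rl : ∀ r ∈ rl, HasRel 1 BB r.1 r.2 := by
  rw [← hrl]
  exact hasRel_relList hl htb hus

theorem rel_one : HasRel 1 BB 1 1 := by
  have h := HasRel.self (L := 1) (B := BB) (m := 1) hBB Nat.one_pos (by
    have h1 : (1 * 1, 1 !) = ((1 : ℕ), (1 : ℕ)) := by simp
    rw [h1]
    exact hBB.unit)
  simpa using h

/-- multiplication by the classes: two monomials in the generators -/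
def cdat : List (Mo × Mo) :=
    [([(0, 1)], []), ([(1, 1)], [(0, 1)]), ([(0, 2)], []), ([(2, 1)], [(0, 2), (1, 1)]),
    ([(1, 1)], []), ([(3, 1)], [(1, 1), (2, 1)]), ([(0, 3)], []), ([(1, 2)], [(0, 2)]),
    ([(2, 1)], [(0, 1), (1, 1)]), ([(4, 1)], [(1, 1), (2, 1), (3, 1)]), ([(0, 1), (1, 1)], []),
    ([(0, 1), (3, 1)], [(1, 1), (2, 1)]), ([(2, 1)], [(0, 3)]), ([(1, 2)], [(0, 1)]),
    ([(2, 1)], [(1, 1)]), ([(3, 1)], [(0, 1), (2, 1)]),
    ([(0, 1), (4, 1)], [(1, 1), (2, 1), (3, 1)]), ([(0, 2), (1, 1)], []),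
    ([(0, 2), (3, 1)], [(1, 1), (2, 1)]), ([(2, 1)], [(0, 2)]),
    ([(4, 1)], [(0, 1), (2, 1), (3, 1)]), ([(3, 1)], [(0, 2), (1, 2)]), ([(1, 2)], []),
    ([(0, 1), (2, 1)], [(1, 1)]), ([(3, 1)], [(2, 1)]),
    ([(0, 2), (4, 1)], [(1, 1), (2, 1), (3, 1)]), ([(1, 1), (2, 1)], [(0, 4)]),
    ([(4, 1)], [(0, 2), (1, 2), (3, 1)]), ([(0, 3), (3, 1)], [(1, 1), (2, 1)]),
    ([(2, 1)], [(0, 1)]), ([(1, 1), (3, 1)], [(0, 2), (2, 1)]), ([(4, 1)], [(2, 1), (3, 1)]),
    ([(3, 1)], [(0, 1), (1, 2)]), ([(0, 1), (1, 2)], []),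
    ([(3, 1), (4, 1)], [(1, 2), (2, 2), (3, 1)]), ([(0, 1), (3, 1)], [(2, 1)]),
    ([(0, 3), (4, 1)], [(1, 1), (2, 1), (3, 1)]), ([(1, 1), (2, 1)], [(0, 3)]),
    ([(1, 1), (4, 1)], [(0, 2), (2, 1), (3, 1)]), ([(3, 1)], [(0, 3), (1, 1)]),
    ([(4, 1)], [(0, 1), (1, 2), (3, 1)]), ([(2, 1)], []), ([(1, 1), (3, 1)], [(0, 1), (2, 1)]),
    ([(0, 1), (4, 1)], [(2, 1), (3, 1)]), ([(3, 1)], [(1, 2)]),
    ([(0, 1), (3, 1), (4, 1)], [(1, 2), (2, 2), (3, 1)]), ([(4, 1)], [(0, 3), (1, 1), (3, 1)]),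
    ([(0, 2), (3, 1)], [(2, 1)]), ([(1, 1), (2, 1)], [(0, 2)]),
    ([(1, 1), (4, 1)], [(0, 1), (2, 1), (3, 1)]), ([(3, 1)], [(0, 2), (1, 1)]),
    ([(4, 1)], [(1, 2), (3, 1)]), ([(3, 1), (4, 1)], [(0, 1), (1, 1), (2, 2), (3, 1)]),
    ([(1, 1), (3, 1)], [(2, 1)]), ([(0, 2), (4, 1)], [(2, 1), (3, 1)]),
    ([(0, 1), (3, 1)], [(1, 2)]), ([(0, 2), (3, 1), (4, 1)], [(1, 2), (2, 2), (3, 1)]),
    ([(3, 1)], [(0, 4)]), ([(4, 1)], [(0, 2), (1, 1), (3, 1)]), ([(1, 1), (2, 1)], [(0, 1)]),
    ([(3, 1), (4, 1)], [(0, 2), (1, 3), (2, 1), (3, 1)]), ([(1, 1), (4, 1)], [(2, 1), (3, 1)]),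
    ([(3, 1)], [(0, 1), (1, 1)]), ([(0, 1), (4, 1)], [(1, 2), (3, 1)]),
    ([(4, 1)], [(1, 1), (2, 2)]), ([(4, 1)], [(0, 4), (3, 1)]),
    ([(0, 1), (1, 1), (3, 1)], [(2, 1)]), ([(0, 3), (3, 1), (4, 1)], [(1, 2), (2, 2), (3, 1)]),
    ([(3, 1)], [(0, 3)]), ([(4, 1)], [(0, 1), (1, 1), (3, 1)]), ([(4, 1)], [(0, 2), (2, 2)]),
    ([(3, 1), (4, 1)], [(0, 1), (1, 3), (2, 1), (3, 1)]),
    ([(0, 1), (1, 1), (4, 1)], [(2, 1), (3, 1)]), ([(3, 1)], [(1, 1)]),
    ([(0, 1), (4, 1)], [(1, 1), (2, 2)]), ([(4, 1)], [(0, 3), (3, 1)]),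
    ([(3, 1), (4, 1)], [(0, 3), (1, 2), (2, 1), (3, 1)]), ([(3, 1)], [(0, 2)]),
    ([(4, 1)], [(1, 1), (3, 1)]), ([(4, 1)], [(0, 1), (2, 2)]), ([(4, 1)], [(1, 3), (2, 1)]),
    ([(0, 2), (4, 1)], [(1, 1), (2, 2)]), ([(4, 1)], [(0, 2), (3, 1)]),
    ([(4, 1)], [(0, 2), (1, 2), (2, 1)]), ([(3, 1)], [(0, 1)]), ([(4, 1)], [(2, 2)]),
    ([(0, 1), (4, 1)], [(1, 3), (2, 1)]), ([(4, 1)], [(0, 4), (1, 1), (2, 1)]),
    ([(4, 1)], [(0, 1), (3, 1)]), ([(4, 1)], [(0, 1), (1, 2), (2, 1)]),
    ([(0, 1), (4, 1)], [(2, 2)]), ([(4, 1)], [(0, 3), (1, 1), (2, 1)]),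
    ([(4, 1)], [(1, 2), (2, 1)]), ([(4, 1)], [(0, 2), (1, 1), (2, 1)]),
    ([(4, 1)], [(0, 1), (1, 1), (2, 1)])]

/-- check of one class -/
def cok (e : (ℕ × ℕ × List ℕ) × Mo × Mo) : Bool :=
  decide (mval yl e.2.1 = e.1.1 * mval yl e.2.2) && decide (mdeg (gd yl) e.2.1 ≤ e.1.2.1) &&
    decide (mdeg (gd yl) e.2.2 ≤ e.1.2.1)

theorem hcok : (dl0.zip cdat).all cok = true := by decide +kernel

theorem hlen : dl0.length = cdat.length := by decide +kernel

theorem class_mul {e : ℕ × ℕ × List ℕ} (he : e ∈ dl0) :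
    ∃ a b, a ≤ e.2.1 ∧ b ≤ e.2.1 ∧ MulIn BB e.1 a b := by
  obtain ⟨i, hi, rfl⟩ := List.mem_iff_getElem.mp he
  have h2 : i < (dl0.zip cdat).length := by
    rw [List.length_zip, ← hlen, min_self]; exact hi
  have h3 := List.all_eq_true.mp hcok _ (List.getElem_mem h2)
  rw [List.getElem_zip] at h3
  simp only [cok, Bool.and_eq_true, decide_eq_true_eq] at h3
  obtain ⟨⟨h4, h5⟩, h6⟩ := h3
  exact ⟨_, _, h5, h6, MulIn.of_mono hl _ _ h4⟩

theorem rel_class {m d c : ℕ} {ps : List ℕ} (he : (d, c, ps) ∈ dl0) (hm : 0 < m)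
    (hdm : d ∣ m) (hd : 1 < d) : HasRel 1 BB m (m + m / d - 1 + c) := by
  obtain ⟨a, b, ha, hb, h⟩ := class_mul he
  obtain ⟨j, rfl⟩ := hdm
  have hj : 0 < j := Nat.pos_of_mul_pos_left hm
  have hdiv : d * j / d = j := Nat.mul_div_cancel_left j (by omega)
  have hjm : j ≤ d * j - 1 := by
    have : 2 * j ≤ d * j := Nat.mul_le_mul_right j hd
    omega
  have h1 := MulIn.part (L := 1) Nat.one_pos hBB (b := j) (k := d * j - 1) hj hjm
  have h2 : MulIn (tower 1 BB (d * j - 1)) d a b :=
    MulIn.mono (tower_mono (Nat.zero_le _)) h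
  have h3 := MulIn.mul (hBB.tower Nat.one_pos (d * j - 1)) h2 h1
  refine HasRel.of_mul (j := 1) Nat.one_pos hBB Nat.one_pos hm
    (a := a + 1 * j) (b := b + 1 * (j - 1)) ?_ ?_ ?_
  · rw [Nat.descFactorial_one]; exact h3
  · rw [hdiv]; simp only [one_mul]; simp only at ha; omega
  · rw [hdiv]; simp only [one_mul]; simp only at hb; omega

/-- look up a part in a list of relations -/
def lk : List (ℕ × ℕ) → ℕ → ℕ
  | [], _ => 0
  | r :: rs, m =>
    match Nat.beq r.1 m with
    | true => r.2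
    | false => lk rs m

theorem lk_mem {rs : List (ℕ × ℕ)} {m : ℕ} (h : lk rs m ≠ 0) : (m, lk rs m) ∈ rs := by
  induction rs with
  | nil => exact absurd rfl h
  | cons r rs ih =>
    rw [lk] at h ⊢
    split at h
    · rename_i hb
      have h1 : r.1 = m := Nat.eq_of_beq_eq_true hb
      rw [← h1]
      exact List.mem_cons_self
    · exact List.mem_cons_of_mem _ (ih h)

/-- cost of a class, or zero -/
def cst : List (ℕ × ℕ × List ℕ) → ℕ → ℕ
  | [], _ => 0
  | e :: es, d =>
    match Nat.beq e.1 d with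
    | true => e.2.1
    | false => cst es d

theorem cst_mem {es : List (ℕ × ℕ × List ℕ)} {d : ℕ} (h : cst es d ≠ 0) :
    ∃ ps, (d, cst es d, ps) ∈ es := by
  induction es with
  | nil => exact absurd rfl h
  | cons e es ih =>
    rw [cst] at h ⊢
    split at h
    · rename_i hb
      have h1 : e.1 = d := Nat.eq_of_beq_eq_true hb
      refine ⟨e.2.2, ?_⟩
      rw [← h1]
      exact List.mem_cons_self
    · obtain ⟨ps, hps⟩ := ih h
      exact ⟨ps, List.mem_cons_of_mem _ hps⟩

theorem cst_eq {es : List (ℕ × ℕ × List ℕ)} (hnd : (es.map Prod.fst).Nodup)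
    {e : ℕ × ℕ × List ℕ} (he : e ∈ es) : cst es e.1 = e.2.1 := by
  induction es with
  | nil => simp at he
  | cons f es ih =>
    rw [List.map_cons, List.nodup_cons] at hnd
    rw [List.mem_cons] at he
    rw [cst]
    rcases he with rfl | he
    · rw [show Nat.beq e.1 e.1 = true from Nat.beq_refl e.1]
    · split
      · rename_i hb
        have h1 : f.1 = e.1 := Nat.eq_of_beq_eq_true hb
        exact absurd (h1 ▸ List.mem_map_of_mem he) hnd.1
      · exact ih hnd.2 he

/-- the token of the part `m`, or zero -/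
def tv (m : ℕ) : ℕ :=
  match Nat.ble m 900 with
  | true => lk ((1, 1) :: rl) m
  | false =>
    match cst dl0 (Nat.gcd m 27720) with
    | 0 => 0
    | c + 1 => Nat.add (Nat.add m (Nat.div m (Nat.gcd m 27720))) c

theorem hgt : ∀ e ∈ dl0, 1 < e.1 ∧ 0 < e.2.1 := by decide +kernel

theorem tv_rel {m : ℕ} (hm : 0 < m) (h : tv m ≠ 0) : HasRel 1 BB m (tv m) := by
  by_cases h900 : m ≤ 900
  · have e : tv m = lk ((1, 1) :: rl) m := by rw [tv, Nat.ble_eq_true_of_le h900]
    rw [e] at h ⊢
    have h1 := lk_mem h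
    rw [List.mem_cons] at h1
    rcases h1 with h1 | h1
    · obtain ⟨h2, h3⟩ := Prod.mk.inj h1
      rw [h3, h2]
      exact rel_one
    · exact rel_rl _ h1
  · have hb0 : Nat.ble m 900 = false := by
      cases h : Nat.ble m 900
      · rfl
      · exact absurd (Nat.le_of_ble_eq_true h) h900
    rcases hc : cst dl0 (Nat.gcd m 27720) with _ | c
    · exact absurd (by rw [tv, hb0, hc]) h
    · have e : tv m = m + m / Nat.gcd m 27720 + c := by rw [tv, hb0, hc]; rfl
      have h1 : cst dl0 (Nat.gcd m 27720) ≠ 0 := by rw [hc]; omega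
      obtain ⟨ps, hps⟩ := cst_mem h1
      have hd := (hgt _ hps).1
      have h2 := rel_class hps hm (Nat.gcd_dvd_left m 27720) hd
      rw [hc] at h2
      have h3 : ∀ q : ℕ, m + q - 1 + (c + 1) = m + q + c := by intro q; omega
      rw [h3] at h2
      rw [e]
      exact h2

/-! ### Fast evaluation -/

theorem lk_cons (r : ℕ × ℕ) (rs : List (ℕ × ℕ)) (m : ℕ) :
    lk (r :: rs) m = if r.1 = m then r.2 else lk rs m := by
  rw [lk]
  split
  · rename_i h
    rw [if_pos (Nat.eq_of_beq_eq_true h)]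
  · rename_i h
    rw [if_neg]
    intro h1
    rw [h1, Nat.beq_refl] at h
    exact Bool.false_ne_true h.symm

/-- split a list of relations by the parity of the part -/
def spl : List (ℕ × ℕ) → List (ℕ × ℕ) × List (ℕ × ℕ)
  | [] => ([], [])
  | p :: L =>
    match Nat.beq (Nat.mod p.1 2) 0 with
    | true => ((Nat.div p.1 2, p.2) :: (spl L).1, (spl L).2)
    | false => ((spl L).1, (Nat.div p.1 2, p.2) :: (spl L).2)

theorem lk_spl : ∀ (L : List (ℕ × ℕ)) (j : ℕ),
    lk (spl L).1 j = lk L (2 * j) ∧ lk (spl L).2 j = lk L (2 * j + 1) := by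
  intro L
  induction L with
  | nil => intro j; exact ⟨rfl, rfl⟩
  | cons p L ih =>
    intro j
    have hd : Nat.div p.1 2 = p.1 / 2 := rfl
    obtain ⟨h1, h2⟩ := ih j
    rw [spl]
    split
    · rename_i hb
      have h0 : p.1 % 2 = 0 := Nat.eq_of_beq_eq_true hb
      constructor
      · rw [lk_cons, lk_cons, h1, hd]
        by_cases h : p.1 / 2 = j
        · rw [if_pos h, if_pos (by omega)]
        · rw [if_neg h, if_neg (by omega)]
      · rw [lk_cons, h2, if_neg (by omega)]
    · rename_i hb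
      have h0 : p.1 % 2 ≠ 0 := fun h => Bool.false_ne_true (hb.symm.trans (by
        have : Nat.mod p.1 2 = 0 := h
        rw [this]; rfl))
      constructor
      · rw [lk_cons, h1, if_neg (by omega)]
      · rw [lk_cons, lk_cons, h2, hd]
        by_cases h : p.1 / 2 = j
        · rw [if_pos h, if_pos (by omega)]
        · rw [if_neg h, if_neg (by omega)]

/-- lookup tree -/
inductive LT : Type
  | leaf : ℕ → LT
  | node : LT → LT → LT

/-- value at `i` -/
def LT.get : LT → ℕ → ℕ
  | LT.leaf v, _ => v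
  | LT.node a b, i =>
    match Nat.beq (Nat.mod i 2) 0 with
    | true => a.get (Nat.div i 2)
    | false => b.get (Nat.div i 2)

/-- lookup tree of depth `k` -/
def bldL : ℕ → List (ℕ × ℕ) → LT
  | 0, L => LT.leaf (lk L 0)
  | k + 1, L => LT.node (bldL k (spl L).1) (bldL k (spl L).2)

theorem get_bldL : ∀ (k : ℕ) (L : List (ℕ × ℕ)) (i : ℕ), i < 2 ^ k →
    (bldL k L).get i = lk L i := by
  intro k
  induction k with
  | zero =>
    intro L i hi
    have h0 : i = 0 := by simpa using hi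
    subst h0
    rw [bldL, LT.get]
  | succ k ih =>
    intro L i hi
    rw [pow_succ] at hi
    have h2 : Nat.div i 2 = i / 2 := rfl
    rw [bldL, LT.get]
    split
    · rename_i hb
      have h1 : i % 2 = 0 := Nat.eq_of_beq_eq_true hb
      rw [h2, ih _ _ (by omega), (lk_spl L (i / 2)).1]
      congr 1
      omega
    · rename_i hb
      have h1 : i % 2 ≠ 0 := fun h => Bool.false_ne_true (hb.symm.trans (by
        have : Nat.mod i 2 = 0 := h
        rw [this]; rfl))
      rw [h2, ih _ _ (by omega), (lk_spl L (i / 2)).2]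
      congr 1
      omega

/-- fast form of `tv` -/
def tvF (m : ℕ) : ℕ :=
  match Nat.ble m 900 with
  | true => (bldL 10 ((1, 1) :: rl)).get m
  | false =>
    match Nat.gcd m 27720 with
    | 0 => 0
    | g + 1 =>
      match cst dl0 (Nat.succ g) with
      | 0 => 0
      | c + 1 => Nat.add (Nat.add m (Nat.div m (Nat.succ g))) c

theorem tvF_eq (m : ℕ) : tvF m = tv m := by
  rw [tvF, tv]
  split
  · rename_i h
    have h1 : m ≤ 900 := Nat.le_of_ble_eq_true h
    rw [get_bldL 10 _ m (by omega)]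
  · split
    · rename_i h
      have := Nat.gcd_pos_of_pos_right m (show 0 < 27720 by norm_num)
      omega
    · rename_i g h
      rw [h]

/-- membership in a list -/
def memb : List ℕ → ℕ → Bool
  | [], _ => false
  | a :: l, m =>
    match Nat.beq a m with
    | true => true
    | false => memb l m

theorem memb_iff {l : List ℕ} {m : ℕ} : memb l m = true ↔ m ∈ l := by
  induction l with
  | nil => simp [memb]
  | cons a l ih =>
    rw [memb, List.mem_cons]
    split
    · rename_i hb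
      have h1 : a = m := Nat.eq_of_beq_eq_true hb
      simp [h1]
    · rename_i hb
      rw [ih]
      constructor
      · exact Or.inr
      · rintro (h | h)
        · subst h
          exact absurd (Nat.beq_refl m) (by rw [hb]; exact Bool.false_ne_true)
        · exact h

/-- multiples of 3 not used as targets -/
def AL : List ℕ :=
    [111, 129, 183, 207, 210, 213, 231, 252, 285, 288, 291, 321, 357, 360, 363, 366, 381, 396, 405,
    408, 411, 429, 432, 471, 477, 498, 501, 525, 528, 534, 537, 540, 573, 582, 585, 588, 597, 630,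
    633, 636, 648, 651, 669, 672, 681, 684, 687, 696, 717, 741, 750, 759, 762, 780, 783, 786, 789,
    792, 813, 831]

/-- the additional targets -/
def SL : List ℕ := [14, 15, 19, 22, 25, 26, 28, 29, 47, 86]

/-- a common part -/
def cv (m : ℕ) : Bool :=
  match Nat.ble 33 m with
  | false => false
  | true =>
    match Nat.beq (Nat.mod m 3) 0 with
    | false => false
    | true =>
      match memb AL m with
      | true => false
      | false => true

theorem cv_iff {m : ℕ} : cv m = true ↔ 33 ≤ m ∧ 3 ∣ m ∧ m ∉ AL := by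
  rw [cv]
  constructor
  · intro h
    split at h
    · exact absurd h (by simp)
    rename_i h1
    split at h
    · exact absurd h (by simp)
    rename_i h2
    split at h
    · exact absurd h (by simp)
    rename_i h3
    refine ⟨Nat.le_of_ble_eq_true h1, ?_, ?_⟩
    · exact Nat.dvd_of_mod_eq_zero (Nat.eq_of_beq_eq_true h2)
    · intro h4
      rw [memb_iff.mpr h4] at h3
      exact absurd h3 (by simp)
  · rintro ⟨h1, h2, h3⟩
    have e1 : Nat.ble 33 m = true := Nat.ble_eq_true_of_le h1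
    have e2 : Nat.beq (Nat.mod m 3) 0 = true := by
      have h4 : Nat.mod m 3 = 0 := Nat.mod_eq_zero_of_dvd h2
      rw [h4]
      rfl
    have e3 : memb AL m = false := by
      cases h4 : memb AL m
      · rfl
      · exact absurd (memb_iff.mp h4) h3
    rw [e1, e2, e3]

/-- a target -/
def iv (m : ℕ) : Bool :=
  match memb SL m with
  | true => true
  | false => cv m

theorem iv_iff {m : ℕ} : iv m = true ↔ m ∈ SL ∨ (33 ≤ m ∧ 3 ∣ m ∧ m ∉ AL) := by
  rw [iv, ← cv_iff, ← memb_iff (l := SL)]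
  cases h : memb SL m <;> simp

theorem al_lt : ∀ a ∈ AL, a < 832 := by decide +kernel

theorem sl_lt : ∀ a ∈ SL, a < 87 := by decide +kernel

/-- fast form of `iv` -/
def ivF (m : ℕ) : Bool :=
  match Nat.ble m 86 with
  | true => iv m
  | false =>
    match Nat.beq (Nat.mod m 3) 0 with
    | false => false
    | true =>
      match Nat.ble m 831 with
      | false => true
      | true =>
        match memb AL m with
        | true => false
        | false => true

theorem ivF_eq (m : ℕ) : ivF m = iv m := by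
  rw [ivF]
  split
  · rfl
  rename_i h0
  have h1 : ¬ m ≤ 86 := fun h => Bool.false_ne_true (h0.symm.trans (Nat.ble_eq_true_of_le h))
  have hsl : m ∉ SL := fun h => by have := sl_lt m h; omega
  split
  · rename_i h2
    have h3 : ¬ 3 ∣ m := fun h => Bool.false_ne_true (h2.symm.trans (by
      have : Nat.mod m 3 = 0 := Nat.mod_eq_zero_of_dvd h
      rw [this]; rfl))
    have h4 : ¬ iv m = true := fun h => by
      rw [iv_iff] at h
      rcases h with h | h
      · exact hsl h
      · exact h3 h.2.1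
    exact (Bool.eq_false_iff.mpr h4).symm
  · rename_i h2
    have h3 : 3 ∣ m := Nat.dvd_of_mod_eq_zero (Nat.eq_of_beq_eq_true h2)
    split
    · rename_i h4
      have h5 : ¬ m ≤ 831 := fun h => Bool.false_ne_true (h4.symm.trans (Nat.ble_eq_true_of_le h))
      have h6 : m ∉ AL := fun h => by have := al_lt m h; omega
      exact (iv_iff.mpr (Or.inr ⟨by omega, h3, h6⟩)).symm
    · split
      · rename_i h6
        have h7 : m ∈ AL := memb_iff.mp h6
        have h4 : ¬ iv m = true := fun h => by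
          rw [iv_iff] at h
          rcases h with h | h
          · exact hsl h
          · exact h.2.2 h7
        exact (Bool.eq_false_iff.mpr h4).symm
      · rename_i h6
        have h7 : m ∉ AL := fun h => Bool.false_ne_true (h6.symm.trans (memb_iff.mpr h))
        exact (iv_iff.mpr (Or.inr ⟨by omega, h3, h7⟩)).symm

theorem hall_numF : runHall 6 tvF ivF 12600 1 0 0 = true := by decide +kernel

theorem hall_num : runHall 6 tv iv 12600 1 0 0 = true := by
  rw [← funext tvF_eq, ← funext ivF_eq]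
  exact hall_numF

/-- the part of the table needed for large `x` -/
def lowOk : ℕ → Bool
  | 0 => true
  | m + 1 =>
    match Nat.ble (Nat.gcd (m + 1) 27720) 1 with
    | true => lowOk m
    | false =>
      match Nat.beq (tv (m + 1)) 0 with
      | true => false
      | false =>
        match Nat.ble (tv (m + 1)) 12600 with
        | true => lowOk m
        | false => false

theorem hlow : lowOk 900 = true := by decide +kernel

theorem lowOk_spec : ∀ N, lowOk N = true → ∀ m, 0 < m → m ≤ N → 1 < Nat.gcd m 27720 →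
    tv m ≠ 0 ∧ tv m ≤ 12600 := by
  intro N
  induction N with
  | zero => intro _ m h1 h2; omega
  | succ N ih =>
    intro h m h1 h2 h3
    rw [lowOk] at h
    rcases Nat.lt_or_ge N m with h4 | h4
    · have h5 : m = N + 1 := by omega
      subst h5
      split at h
      · rename_i hb
        have := Nat.le_of_ble_eq_true hb
        omega
      · split at h
        · exact absurd h (by simp)
        rename_i hb
        split at h
        · rename_i hb2
          refine ⟨?_, Nat.le_of_ble_eq_true hb2⟩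
          intro h6
          rw [h6] at hb
          exact absurd hb (by decide)
        · exact absurd h (by simp)
    · refine ih ?_ m h1 h4 h3
      split at h
      · exact h
      · split at h
        · exact absurd h (by simp)
        · split at h
          · exact h
          · exact absurd h (by simp)

/-- the token count for large `x` -/
theorem tokens_large' {N x : ℕ} (hx : x ≤ N) (hb : 12600 ≤ x) :
    x + 60 ≤ (by classical exact ((Icc 1 N).filter (fun m => TokF 27720 dl0 m x)).card) + x / 3 := by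
  have h1 := linear_lower hx dl0 dl0_good
  have h2 : (17217 / 25000 : ℚ) * x + (-205) ≤ (dl0.map slq).sum * x + (dl0.map knq).sum :=
    add_le_add (mul_le_mul_of_nonneg_right dl0_slope (by positivity)) dl0_const
  set T : ℕ := (by classical exact ((Icc 1 N).filter (fun m => TokF 27720 dl0 m x)).card) with hT
  have h3 : (17217 / 25000 : ℚ) * x + (-205) ≤ T := h2.trans h1
  have h4 : x ≤ 3 * (x / 3) + 2 := by omega
  have h4q : (x : ℚ) ≤ 3 * ((x / 3 : ℕ) : ℚ) + 2 := by exact_mod_cast h4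
  have h5 : (12600 : ℚ) ≤ x := by exact_mod_cast hb
  have h6 : ((x + 60 : ℕ) : ℚ) ≤ ((T + x / 3 : ℕ) : ℚ) := by
    push_cast
    linarith
  exact_mod_cast h6

theorem tokF_sub {N x : ℕ} (hb : 12600 ≤ x) :
    (by classical exact ((Icc 1 N).filter (fun m => TokF 27720 dl0 m x))) ⊆
      (Icc 1 N).filter (fun m => tv m ≠ 0 ∧ tv m ≤ x) := by
  classical
  intro m hm
  rw [Finset.mem_filter, Finset.mem_Icc] at hm
  rw [Finset.mem_filter, Finset.mem_Icc]
  obtain ⟨h1, e, he, h2, h3⟩ := hm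
  refine ⟨h1, ?_⟩
  have hd := hgt e he
  by_cases h900 : m ≤ 900
  · have h4 := lowOk_spec 900 hlow m h1.1 h900 (by rw [h2]; exact hd.1)
    exact ⟨h4.1, h4.2.trans hb⟩
  · have hb0 : Nat.ble m 900 = false := by
      cases h : Nat.ble m 900
      · rfl
      · exact absurd (Nat.le_of_ble_eq_true h) h900
    have h4 : cst dl0 (Nat.gcd m 27720) = e.2.1 := by
      rw [h2]
      exact cst_eq dl0_good.2 he
    obtain ⟨c, hc⟩ : ∃ c, e.2.1 = c + 1 := ⟨e.2.1 - 1, by omega⟩
    have h5 : tv m = m + m / Nat.gcd m 27720 + c := by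
      rw [tv, hb0, h4, hc]
      rfl
    rw [h5, h2]
    have h6 : 0 < m := h1.1
    have h7 : m + m / e.1 + (c + 1) ≤ x + 1 := by rw [← hc]; exact h3
    clear h5 h4 h3 h2
    generalize m / e.1 = q at h7 ⊢
    constructor
    · omega
    · omega

theorem sl_small : ∀ a ∈ SL, 0 < a ∧ a ≤ 86 ∧ ¬ (33 ≤ a ∧ 3 ∣ a) := by decide +kernel

theorem sl_nodup : SL.Nodup := by decide +kernel

theorem targets_large {N x : ℕ} (hx : x ≤ N) (hb : 12600 ≤ x) :
    x / 3 ≤ ((Icc 1 N).filter (fun m => iv m = true ∧ m ≤ x)).card + 60 := by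
  classical
  have h1 : (SL.toFinset ∪ ((Icc 11 (x / 3)).image (fun i => 3 * i) \ AL.toFinset)) ⊆
      (Icc 1 N).filter (fun m => iv m = true ∧ m ≤ x) := by
    intro a ha
    rw [Finset.mem_union, Finset.mem_sdiff, List.mem_toFinset, List.mem_toFinset,
      Finset.mem_image] at ha
    rw [Finset.mem_filter, Finset.mem_Icc, iv_iff]
    rcases ha with ha | ⟨⟨i, hi, rfl⟩, ha⟩
    · have := sl_small a ha
      exact ⟨⟨this.1, by omega⟩, Or.inl ha, by omega⟩
    · rw [Finset.mem_Icc] at hi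
      exact ⟨⟨by omega, by omega⟩, Or.inr ⟨by omega, Dvd.intro i rfl, ha⟩, by omega⟩
  have h2 := Finset.card_le_card h1
  have hdisj : Disjoint SL.toFinset
      ((Icc 11 (x / 3)).image (fun i => 3 * i) \ AL.toFinset) := by
    rw [Finset.disjoint_left]
    intro a ha h
    rw [List.mem_toFinset] at ha
    rw [Finset.mem_sdiff, Finset.mem_image] at h
    obtain ⟨⟨i, hi, rfl⟩, _⟩ := h
    rw [Finset.mem_Icc] at hi
    exact (sl_small _ ha).2.2 ⟨by omega, Dvd.intro i rfl⟩
  rw [Finset.card_union_of_disjoint hdisj, List.toFinset_card_of_nodup sl_nodup] at h2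
  have h3 : SL.length = 10 := by decide
  have h4 : ((Icc 11 (x / 3)).image (fun i => 3 * i)).card = x / 3 - 10 := by
    rw [Finset.card_image_of_injective _ (fun a b h => by
      have : 3 * a = 3 * b := h
      omega), Nat.card_Icc]
    omega
  have h5 := Finset.le_card_sdiff AL.toFinset ((Icc 11 (x / 3)).image (fun i => 3 * i))
  have h6 : AL.toFinset.card ≤ 60 := by
    refine (List.toFinset_card_le AL).trans ?_
    decide
  omega

/-- the counting condition for all `x` -/
theorem hall {N x : ℕ} (hx0 : 0 < x) (hx : x ≤ N) :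
    x ≤ ((Icc 1 N).filter (fun m => tv m ≠ 0 ∧ tv m ≤ x)).card +
      ((Icc 1 N).filter (fun m => iv m = true ∧ m ≤ x)).card := by
  classical
  by_cases hb : 12600 ≤ x
  · have h1 := tokens_large' hx hb
    have h2 := Finset.card_le_card (tokF_sub (N := N) hb)
    have h3 := targets_large hx hb
    omega
  · have h1 := runHall_main (by norm_num) hall_num x hx0 (by omega)
    refine h1.trans (Nat.add_le_add (Finset.card_le_card ?_) (Finset.card_le_card ?_))
    · intro m hm
      rw [Finset.mem_filter, Finset.mem_Icc] at hm ⊢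
      exact ⟨⟨hm.1.1, by omega⟩, hm.2⟩
    · intro m hm
      rw [Finset.mem_filter, Finset.mem_Icc] at hm ⊢
      exact ⟨⟨hm.1.1, by omega⟩, hm.2, by omega⟩

end Pool.Agent.Lib.MP_2e8272_nt.Full.TailT
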