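import Pool.Agent.Lib.MP_2e8272_nt.Full.TailHall
import Pool.Agent.Lib.MP_2e8272_nt.Full.TailC
import Pool.Agent.Lib.MP_2e8272_nt.Full.Sharp

/-!
# The inequality for all `n ≥ 8813`
-/

namespace Pool.Agent.Lib.MP_2e8272_nt.Full.TailT

open Full Finset PowerSeries

/-- the small factors of the bound (without the first `geo 1`) -/
def FL : List ℕ := [1, 2, 4, 4, 9, 10, 15] ++ SL

/-- allowed parts from 2 to 31 -/
def TL : List ℕ := [2, 3, 4, 5, 6, 7, 9, 12, 15, 18, 21, 24, 27, 30]

/-- the common parts from 34 to 831 -/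
def CL : List ℕ := (List.range 832).filter (fun m => Nat.ble 34 m && cv m)

theorem base_num : (10560 + FL.sum).descFactorial FL.length / FL.length.factorial *
    (TL ++ AL.take 15).prod ≤
      (10560 + (TL ++ AL.take 15).length).descFactorial (TL ++ AL.take 15).length /
        (TL ++ AL.take 15).length.factorial * FL.prod := by decide +kernel

theorem pos_FL : ∀ a ∈ FL, 0 < a := by decide +kernel

theorem pos_TA : ∀ a ∈ TL ++ AL, 0 < a := by decide +kernel

theorem AL_take_drop : (TL ++ AL.take 15) ++ AL.drop 15 = TL ++ AL := by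
  rw [List.append_assoc, List.take_append_drop]

theorem le_mul_gprod {F : PowerSeries ℤ} (hF : Nn F) : ∀ (L : List ℕ), (∀ a ∈ L, 0 < a) →
    ∀ n, coeff n F ≤ coeff n (F * gprod L) := by
  intro L
  induction L generalizing F with
  | nil => intro _ n; rw [gprod_nil, mul_one]
  | cons a L ih =>
    intro h n
    have h1 : coeff n F ≤ coeff n (F * geo a) := by
      rw [coeff_mul_geo (h a List.mem_cons_self)]
      have h2 := (hF.mul (Nn.geo a)) (n - a)
      split_ifs <;> linarith
    have h2 := ih (hF.mul (Nn.geo a)) (fun b hb => h b (List.mem_cons_of_mem _ hb)) n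
    rw [gprod_cons, ← mul_assoc]
    exact h1.trans h2

theorem base_all : LeFrom 10560 (gprod (1 :: FL)) (gprod (1 :: (TL ++ AL))) := by
  intro n hn
  have h1 := base_compare (F := FL) (G := TL ++ AL.take 15) pos_FL
    (fun a ha => pos_TA a (by
      rw [← AL_take_drop]
      exact List.mem_append_left _ ha))
    (by decide) (by decide) (n1 := 10560) (by
      rw [Nat.choose_eq_descFactorial_div_factorial, Nat.choose_eq_descFactorial_div_factorial]
      exact base_num) n hn
  rw [gprod_cons, gprod_cons, ← AL_take_drop, gprod_append (TL ++ AL.take 15), ← mul_assoc]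
  exact h1.trans (le_mul_gprod ((Nn.geo 1).mul (Nn.gprod _)) _
    (fun a ha => pos_TA a (by
      rw [← AL_take_drop]
      exact List.mem_append_right _ ha)) n)

theorem chk_num : chk3 248 234 10560 8813 10527 (3 * 278) 12 33 (1 :: FL) (1 :: (TL ++ AL)) CL =
    true := by
  decide +kernel

/-! ### Assembly -/

/-- the generators with a relation -/
def RT (N : ℕ) : Finset ℕ := (Icc 1 N).filter fun m => tv m ≠ 0

/-- the target parts -/
def IT (N : ℕ) : Finset ℕ := (Icc 1 N).filter fun m => iv m = true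

theorem bound1 {n N : ℕ} (hn : n ≤ N) :
    (M n : ℤ) ≤ coeff n (cnt BB * ∏ a ∈ IT N, geo a) := by
  have h1 := M_le (L := 1) Nat.one_pos hBB hn
  rw [one_mul] at h1
  have h2 := matching (L := 1) Nat.one_pos hBB N (RT N) tv
    (fun i hi => by
      have := (Finset.mem_filter.mp hi).1
      rw [Finset.mem_Icc] at this
      omega)
    (fun i hi => by
      have h := Finset.mem_filter.mp hi
      have h3 := Finset.mem_Icc.mp h.1
      exact tv_rel (by omega) h.2)
    (IT N) (fun a => a)
    (fun a ha => by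
      have := (Finset.mem_filter.mp ha).1
      rw [Finset.mem_Icc] at this
      omega)
    (fun x hx0 hx => by
      have h := hall hx0 hx
      rw [RT, IT, Finset.filter_filter, Finset.filter_filter, one_mul]
      exact h)
  have h3 := h2 n
  rw [map_sub] at h3
  linarith

theorem gprod_eq {L : List ℕ} (h : L.Nodup) : gprod L = ∏ a ∈ L.toFinset, geo a := by
  rw [gprod, List.prod_toFinset geo h]

/-- targets below 832 -/
def VL : List ℕ := 33 :: (SL ++ CL)

/-- allowed parts below 832 -/
def WL : List ℕ := 33 :: (1 :: (TL ++ AL) ++ CL)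

theorem mem_CL {a : ℕ} : a ∈ CL ↔ a < 832 ∧ 34 ≤ a ∧ 3 ∣ a ∧ a ∉ AL := by
  rw [CL, List.mem_filter, List.mem_range, Bool.and_eq_true, cv_iff]
  constructor
  · rintro ⟨h1, h2, h3⟩
    exact ⟨h1, Nat.le_of_ble_eq_true h2, h3.2⟩
  · rintro ⟨h1, h2, h3⟩
    exact ⟨h1, Nat.ble_eq_true_of_le h2, by omega, h3⟩

theorem CL_nodup : CL.Nodup := List.nodup_range.filter _

theorem head_nodup : (33 :: 1 :: (TL ++ AL)).Nodup := by decide +kernel

theorem al_dvd : ∀ a ∈ AL, 34 ≤ a ∧ 3 ∣ a := by decide +kernel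

theorem tl_low : ∀ a ∈ TL, a < 34 := by decide +kernel

theorem low_mem : ∀ a < 34, (a ∈ 33 :: 1 :: TL ↔ (1 ≤ a ∧ (a ≤ 7 ∨ 3 ∣ a))) := by decide +kernel

theorem VL_nodup : VL.Nodup := by
  rw [VL, List.nodup_cons, List.nodup_append]
  refine ⟨?_, sl_nodup, CL_nodup, ?_⟩
  · rw [List.mem_append]
    rintro (h | h)
    · exact (sl_small 33 h).2.2 ⟨le_rfl, by norm_num⟩
    · have := (mem_CL.mp h).2.1
      omega
  · intro a ha b hb hab
    subst hab
    have h1 := mem_CL.mp hb
    exact (sl_small a ha).2.2 ⟨by omega, h1.2.2.1⟩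

theorem WL_nodup : WL.Nodup := by
  have e : WL = (33 :: 1 :: (TL ++ AL)) ++ CL := rfl
  rw [e, List.nodup_append]
  refine ⟨head_nodup, CL_nodup, ?_⟩
  intro a ha b hb hab
  subst hab
  have h1 := mem_CL.mp hb
  rw [List.mem_cons, List.mem_cons, List.mem_append] at ha
  rcases ha with h | h | h | h
  · omega
  · omega
  · have := tl_low a h
    omega
  · exact h1.2.2.2 h

theorem VL_lt : ∀ a ∈ VL, a < 832 := by
  intro a ha
  rw [VL, List.mem_cons, List.mem_append] at ha
  rcases ha with h | h | h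
  · omega
  · have := (sl_small a h).2.1
    omega
  · exact (mem_CL.mp h).1

theorem WL_lt : ∀ a ∈ WL, a < 832 := by
  intro a ha
  have e : WL = (33 :: 1 :: (TL ++ AL)) ++ CL := rfl
  rw [e, List.mem_append, List.mem_cons, List.mem_cons, List.mem_append] at ha
  rcases ha with (h | h | h | h) | h
  · omega
  · omega
  · have := tl_low a h
    omega
  · exact al_lt a h
  · exact (mem_CL.mp h).1

theorem VL_mem : ∀ a < 832, (a ∈ VL ↔ iv a = true) := by
  intro a ha
  rw [VL, List.mem_cons, List.mem_append, mem_CL, iv_iff]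
  constructor
  · rintro (h | h | h)
    · subst h
      exact Or.inr ⟨le_rfl, by norm_num, fun h => by have := (al_dvd 33 h).1; omega⟩
    · exact Or.inl h
    · exact Or.inr ⟨by omega, h.2.2⟩
  · rintro (h | h)
    · exact Or.inr (Or.inl h)
    · rcases Nat.eq_or_lt_of_le h.1 with h1 | h1
      · exact Or.inl h1.symm
      · exact Or.inr (Or.inr ⟨ha, by omega, h.2⟩)

theorem WL_mem : ∀ a < 832, (a ∈ WL ↔ (1 ≤ a ∧ (a ≤ 7 ∨ 3 ∣ a))) := by
  intro a ha
  have e : WL = (33 :: 1 :: (TL ++ AL)) ++ CL := rfl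
  rw [e, List.mem_append, List.mem_cons, List.mem_cons, List.mem_append, mem_CL]
  by_cases h34 : a < 34
  · have h1 := low_mem a h34
    rw [List.mem_cons, List.mem_cons] at h1
    rw [← h1]
    constructor
    · rintro ((h | h | h | h) | h)
      · exact Or.inl h
      · exact Or.inr (Or.inl h)
      · exact Or.inr (Or.inr h)
      · have := (al_dvd a h).1
        omega
      · omega
    · rintro (h | h | h)
      · exact Or.inl (Or.inl h)
      · exact Or.inl (Or.inr (Or.inl h))
      · exact Or.inl (Or.inr (Or.inr (Or.inl h)))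
  · constructor
    · rintro ((h | h | h | h) | h)
      · omega
      · omega
      · have := tl_low a h
        omega
      · exact ⟨by omega, Or.inr (al_dvd a h).2⟩
      · exact ⟨by omega, Or.inr h.2.2.1⟩
    · rintro ⟨_, h | h⟩
      · omega
      · by_cases h2 : a ∈ AL
        · exact Or.inl (Or.inr (Or.inr (Or.inr h2)))
        · exact Or.inr ⟨ha, by omega, h, h2⟩

theorem mem_mul3 {a m b : ℕ} : b ∈ mul3 a m ↔ 3 ∣ b ∧ 3 * a ≤ b ∧ b < 3 * (a + m) := by
  rw [mul3, Finset.mem_image]
  constructor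
  · rintro ⟨i, hi, rfl⟩
    rw [Finset.mem_Ico] at hi
    exact ⟨Dvd.intro i rfl, by omega, by omega⟩
  · rintro ⟨⟨i, rfl⟩, h1, h2⟩
    exact ⟨i, Finset.mem_Ico.mpr ⟨by omega, by omega⟩, rfl⟩

theorem IT_eq (m : ℕ) : IT (3 * (277 + m)) = VL.toFinset ∪ mul3 278 m := by
  ext a
  rw [IT, Finset.mem_filter, Finset.mem_Icc, Finset.mem_union, List.mem_toFinset, mem_mul3]
  by_cases ha : a < 832
  · rw [VL_mem a ha]
    constructor
    · rintro ⟨_, h⟩
      exact Or.inl h
    · rintro (h | h)
      · refine ⟨⟨?_, by omega⟩, h⟩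
        rcases Nat.eq_zero_or_pos a with h0 | h0
        · subst h0
          exact absurd h (by decide)
        · exact h0
      · omega
  · have h1 : a ∉ VL := fun h => ha (VL_lt a h)
    have h2 : a ∉ AL := fun h => ha (al_lt a h)
    have h3 : a ∉ SL := fun h => by
      have := (sl_small a h).2.1
      omega
    rw [iv_iff]
    constructor
    · rintro ⟨h4, h5 | h5⟩
      · exact absurd h5 h3
      · exact Or.inr ⟨h5.2.1, by omega, by omega⟩
    · rintro (h | h)
      · exact absurd h h1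
      · exact ⟨⟨by omega, by omega⟩, Or.inr ⟨by omega, h.1, h2⟩⟩

theorem TS_eq (m : ℕ) : TS (3 * (277 + m)) = WL.toFinset ∪ mul3 278 m := by
  ext a
  rw [TS, Finset.mem_filter, Finset.mem_Icc, Finset.mem_union, List.mem_toFinset, mem_mul3]
  by_cases ha : a < 832
  · rw [WL_mem a ha]
    constructor
    · rintro ⟨h, h'⟩
      exact Or.inl ⟨h.1, h'⟩
    · rintro (h | h)
      · exact ⟨⟨h.1, by omega⟩, h.2⟩
      · omega
  · have h1 : a ∉ WL := fun h => ha (WL_lt a h)
    constructor
    · rintro ⟨h4, h5 | h5⟩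
      · omega
      · exact Or.inr ⟨h5, by omega, by omega⟩
    · rintro (h | h)
      · exact absurd h h1
      · exact ⟨⟨by omega, by omega⟩, Or.inr h.1⟩

theorem disj {L : List ℕ} (hL : ∀ a ∈ L, a < 832) (m : ℕ) : Disjoint L.toFinset (mul3 278 m) := by
  rw [Finset.disjoint_left]
  intro a ha hb
  have h1 := hL a (List.mem_toFinset.mp ha)
  rw [mem_mul3] at hb
  omega

theorem prod_IT (m : ℕ) : ∏ a ∈ IT (3 * (277 + m)), geo a = gprod VL * rB (mul3 278 m) := by
  rw [IT_eq, Finset.prod_union (disj VL_lt m), gprod_eq VL_nodup, rB]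

theorem prod_TS (m : ℕ) : ∏ a ∈ TS (3 * (277 + m)), geo a = gprod WL * rB (mul3 278 m) := by
  rw [TS_eq, Finset.prod_union (disj WL_lt m), gprod_eq WL_nodup, rB]

theorem pos_1FL : ∀ a ∈ 1 :: FL, 0 < a := by decide +kernel

theorem pos_1TA : ∀ a ∈ 1 :: (TL ++ AL), 0 < a := by decide +kernel

theorem pos_CL : ∀ b ∈ CL, 0 < b ∧ 8813 + b ≤ 10560 := by
  intro b hb
  have h := mem_CL.mp hb
  omega

/-- **The tail.** -/
theorem main (n : ℕ) (hn : 8813 ≤ n) : M n ≤ pSharp n := by
  set m := n + 4000 with hm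
  have h1 : (M n : ℤ) ≤ coeff n (cnt BB * ∏ a ∈ IT (3 * (277 + m)), geo a) :=
    bound1 (by omega)
  have h2 : coeff n (cnt BB * ∏ a ∈ IT (3 * (277 + m)), geo a) ≤
      coeff n (geo 1 * (yl.map fun g => geo g.1).prod * ∏ a ∈ IT (3 * (277 + m)), geo a) := by
    have h3 := (cnt_baseOf yl hl).mul (Nn.prod (IT (3 * (277 + m))) geo fun a _ => Nn.geo a)
    have h4 := h3 n
    rw [sub_mul, map_sub] at h4
    have h5 : cnt (baseOf yl) = cnt BB := rfl
    rw [h5] at h4
    linarith
  have h3 : geo 1 * (yl.map fun g => geo g.1).prod * ∏ a ∈ IT (3 * (277 + m)), geo a =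
      gprod (1 :: FL) * gprod CL * geo 33 * rB (mul3 278 m) := by
    rw [prod_IT, VL, FL, gprod_cons, gprod_cons, gprod_append, gprod_append]
    have h4 : (yl.map fun g => geo g.1).prod = gprod [1, 2, 4, 4, 9, 10, 15] := rfl
    rw [h4]
    ring
  have h4 : ∏ a ∈ TS (3 * (277 + m)), geo a =
      gprod (1 :: (TL ++ AL)) * gprod CL * geo 33 * rB (mul3 278 m) := by
    rw [prod_TS, WL, gprod_cons 33, gprod_append (1 :: (TL ++ AL))]
    ring
  have h5 := chk3_spec (a := 278) (by norm_num) (by norm_num) (by norm_num) (by norm_num)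
    (by norm_num) (by norm_num) (by norm_num) pos_1FL pos_1TA pos_CL base_all chk_num
    (B := mul3 278 m) (fun b hb => by rw [mem_mul3] at hb; omega)
    (mul3_EqTo (by norm_num) (by norm_num) (by omega)) n hn
  have h6 := coeff_le_pSharp (3 * (277 + m)) n
  rw [h3] at h2
  rw [h4] at h6
  exact_mod_cast h1.trans (h2.trans (h5.trans h6))

end Pool.Agent.Lib.MP_2e8272_nt.Full.TailT
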