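import Pool.Agent.Lib.MP_2e8272_nt.Full.Final

/-!
# Data of the tail certificate: generators, multiplication table, uses
-/

namespace Pool.Agent.Lib.MP_2e8272_nt.Full.TailT

open Full

/-- the additional generators (degree, value) -/
def yl : List (ℕ × ℕ) := [(1, 2), (2, 6), (4, 120), (4, 5040), (9, 39916800), (10, 1037836800), (15, 177843714048000)]

def tb0 : List TE := [(2,2,[(0,1)],[]), (3,3,[(1,1)],[]), (4,4,[(1,1),(0,2)],[]), (5,5,[(2,1)],[]),
  (6,6,[(2,1),(1,1)],[]), (7,7,[(3,1)],[]), (8,8,[(3,1),(0,3)],[]), (9,9,[(3,1),(1,2),(0,1)],[]),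
  (10,10,[(3,1),(2,1),(1,1)],[]), (11,11,[(4,1)],[]), (12,12,[(4,1),(1,1),(0,1)],[]),
  (13,13,[(5,1),(1,1)],[]), (1,14,[(0,1),(3,1)],[(1006,1)]), (1,15,[(2,1)],[(0,3)]),
  (16,16,[(5,1),(3,1),(0,2)],[]), (17,17,[(6,1),(0,1)],[]), (1,18,[(1,2)],[(0,1)]),
  (1,20,[(2,1)],[(1,1)]), (2,21,[(3,1)],[(0,1),(1,1)]), (3,22,[(4,1)],[(1,1),(1006,1)]),
  (1,24,[(1004,1)],[]), (2,25,[(2,2)],[(1004,1)]), (1,26,[(5,1)],[(4,1)]),
  (1,27,[(1,3)],[(0,3)]), (1,28,[(0,2),(3,1)],[(1006,1)]), (1,30,[(2,1)],[(0,2)]),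
  (1,32,[(0,5)],[]), (1,33,[(4,1)],[(0,1),(2,1),(3,1)]), (1,34,[(6,1)],[(3,1),(5,1)]),
  (1,35,[(3,1)],[(1,1),(1004,1)]), (2,36,[(3,1)],[(0,2)]), (1,38,[(0,1),(1019,1)],[(1018,1)]),
  (1,39,[(1,1),(5,1)],[(0,2),(4,1)]), (1,40,[(0,1),(2,1)],[(1,1)]), (1,42,[(3,1)],[(2,1)]),
  (1,44,[(0,2),(4,1)],[(1010,1)]), (1,45,[(1006,1)],[(0,4)]), (1,46,[(0,1),(1023,1)],[(1022,1)]),
  (1,48,[(0,1),(1004,1)],[]), (2,49,[(0,3),(3,2)],[(2,1),(1006,1)])]

def tb1 : List TE := [(3,50,[(3,2)],[(1,3)]), (1,51,[(1,1),(6,1)],[(1016,1)]), (1,52,[(0,1),(5,1)],[(4,1)]),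
  (1,54,[(1,3)],[(0,2)]), (2,55,[(1,1),(4,1)],[(0,4),(3,1)]), (1,56,[(0,3),(3,1)],[(1006,1)]),
  (1,57,[(1019,1)],[(0,1),(1,1),(6,1)]), (1,58,[(0,1),(1029,1)],[(1028,1)]),
  (1,60,[(2,1)],[(0,1)]), (1,2,[(0,1)],[]), (1,63,[(1,1),(3,1)],[(0,2),(2,1)]),
  (1,64,[(0,6)],[]), (3,65,[(0,1),(3,1),(5,1)],[(4,1)]), (4,66,[(0,1),(5,1)],[(2,1)]),
  (1,68,[(0,1),(6,1)],[(3,1),(5,1)]), (1,69,[(1,1),(1023,1)],[(0,1),(1022,1)]),
  (1,70,[(3,1)],[(0,1),(1,2)]), (1,72,[(0,1),(1,2)],[]), (1,75,[(2,2)],[(0,3),(1004,1)]),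
  (1,76,[(0,2),(1019,1)],[(1018,1)]), (1,77,[(4,1)],[(1006,2)]),
  (1,78,[(1,1),(5,1)],[(0,1),(4,1)]), (1,80,[(0,2),(2,1)],[(1,1)]), (1,81,[(1,4)],[(0,4)]),
  (1,84,[(0,1),(3,1)],[(2,1)]), (2,85,[(6,1)],[(5,1),(1004,1)]),
  (1,87,[(1,1),(1029,1)],[(0,1),(1028,1)]), (1,88,[(0,3),(4,1)],[(1010,1)]),
  (1,90,[(1006,1)],[(0,3)]), (1,91,[(1014,1)],[(0,1),(1012,1)]),
  (1,92,[(0,2),(1023,1)],[(1022,1)]), (1,3,[(1,1)],[(0,1)]), (1,95,[(1020,1)],[(0,2),(1018,1)]),
  (1,96,[(0,2),(1004,1)],[]), (1,98,[(0,1),(3,2)],[(1006,2)]),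
  (1,99,[(1,1),(4,1)],[(0,2),(2,1),(3,1)]), (1,100,[(2,2)],[(1,1),(1004,1)]),
  (1,102,[(1,1),(6,1)],[(0,1),(3,1),(5,1)]), (1,104,[(0,2),(5,1)],[(4,1)]),
  (1,105,[(3,1)],[(0,1),(1004,1)])]

def tb2 : List TE := [(1,108,[(1,3)],[(0,1)]), (1,110,[(4,1)],[(1009,1)]), (1,112,[(0,4),(3,1)],[(1006,1)]),
  (1,114,[(1019,1)],[(1,1),(6,1)]), (2,115,[(1,1),(1025,1)],[(4,1),(6,1)]),
  (1,116,[(0,2),(1029,1)],[(1028,1)]), (1,117,[(1,2),(5,1)],[(0,3),(4,1)]),
  (1,119,[(6,1)],[(0,1),(5,1),(1006,1)]), (1,120,[(2,1)],[]),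
  (2,121,[(4,2)],[(1,1),(3,1),(1010,1)]), (1,4,[(0,2)],[]), (1,125,[(2,3)],[(1004,3)]),
  (1,126,[(1,1),(3,1)],[(0,1),(2,1)]), (1,128,[(0,7)],[]),
  (1,130,[(2,1),(5,1)],[(0,1),(1012,1)]), (1,132,[(0,1),(4,1)],[(2,1),(3,1)]),
  (2,133,[(0,1),(1022,1)],[(6,1),(1006,1)]), (1,135,[(1,1),(1006,1)],[(0,5)]),
  (1,136,[(6,1)],[(1015,1)]), (1,138,[(1,1),(1023,1)],[(1022,1)]), (1,140,[(3,1)],[(1,2)]),
  (1,143,[(5,1)],[(0,1),(1010,1)]), (1,144,[(1,1),(1004,1)],[]),
  (1,145,[(1030,1)],[(1,1),(1028,1)]), (1,147,[(3,2)],[(0,1),(2,1),(1006,1)]),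
  (1,150,[(2,2)],[(0,2),(1004,1)]), (1,152,[(0,3),(1019,1)],[(1018,1)]),
  (1,153,[(1018,1)],[(0,1),(1016,1)]), (1,154,[(0,1),(4,1)],[(1006,2)]),
  (1,5,[(2,1)],[(1004,1)]), (1,156,[(1,1),(5,1)],[(4,1)]), (1,160,[(0,3),(2,1)],[(1,1)]),
  (1,161,[(3,1),(1023,1)],[(1006,1),(1022,1)]), (1,162,[(1,4)],[(0,3)]),
  (1,165,[(4,1)],[(0,1),(3,1),(1004,1)]), (1,168,[(0,2),(3,1)],[(2,1)]),
  (1,169,[(5,2)],[(0,2),(4,2)]), (1,170,[(6,1)],[(0,1),(1,1),(1014,1)]),
  (1,171,[(1019,1)],[(0,2),(6,1)]), (1,174,[(1,1),(1029,1)],[(1028,1)])]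

def tb3 : List TE := [(1,175,[(2,1),(3,1)],[(1,1),(1004,2)]), (2,176,[(4,1)],[(1,4)]), (1,180,[(1006,1)],[(0,2)]),
  (1,182,[(1014,1)],[(1012,1)]), (1,184,[(0,1),(1024,1)],[(1,1),(1022,1)]), (1,6,[(1,1)],[]),
  (1,187,[(4,1),(6,1)],[(0,1),(3,1),(5,1),(1010,1)]), (1,189,[(1,2),(3,1)],[(0,3),(2,1)]),
  (1,190,[(1020,1)],[(0,1),(1018,1)]), (1,192,[(0,3),(1004,1)],[]),
  (1,195,[(2,1),(5,1)],[(0,4),(4,1)]), (1,196,[(0,2),(3,2)],[(1006,2)]),
  (1,198,[(1,1),(4,1)],[(0,1),(2,1),(3,1)]), (1,200,[(2,2)],[(0,1),(1,2)]),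
  (1,203,[(1029,1)],[(0,2),(1027,1)]), (1,204,[(1,1),(6,1)],[(3,1),(5,1)]),
  (1,207,[(1,2),(1023,1)],[(0,2),(1022,1)]), (1,208,[(0,3),(5,1)],[(4,1)]),
  (1,209,[(1022,1)],[(1,1),(3,1),(6,1)]), (1,210,[(3,1)],[(1004,1)]), (1,216,[(1,3)],[]),
  (1,7,[(3,1)],[(1006,1)]), (1,220,[(4,1)],[(1,2),(3,1)]),
  (2,221,[(6,1)],[(0,1),(3,1),(1009,1)]), (1,224,[(0,5),(3,1)],[(1006,1)]),
  (2,225,[(2,1),(3,1)],[(0,1),(1,1)]), (1,228,[(0,1),(1019,1)],[(1,1),(6,1)]),
  (1,230,[(2,1),(1023,1)],[(0,1),(1,1),(1022,1)]), (1,231,[(4,1)],[(0,1),(2,1),(1006,1)]),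
  (1,232,[(0,3),(1029,1)],[(1028,1)]), (1,234,[(1,2),(5,1)],[(0,2),(4,1)]),
  (1,238,[(6,1)],[(5,1),(1006,1)]), (1,240,[(0,1),(2,1)],[]), (1,242,[(0,1),(4,2)],[(1010,2)]),
  (1,243,[(1,5)],[(0,5)]), (1,245,[(3,2)],[(1,1),(1004,1),(1006,1)]),
  (1,247,[(5,1),(1019,1)],[(0,1),(4,1),(1018,1)]), (1,8,[(0,3)],[]),
  (1,250,[(2,3)],[(0,1),(1,1),(1004,2)]), (1,252,[(1,1),(3,1)],[(2,1)])]

def tb4 : List TE := [(1,253,[(1023,1)],[(0,1),(1021,1)]), (1,255,[(6,1)],[(0,3),(1014,1)]), (1,256,[(0,8)],[]),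
  (1,260,[(2,1),(5,1)],[(1012,1)]), (2,261,[(1029,1)],[(3,1),(1023,1)]),
  (1,264,[(0,2),(4,1)],[(2,1),(3,1)]), (1,266,[(0,2),(1021,1)],[(2,1),(1018,1)]),
  (1,270,[(1,1),(1006,1)],[(0,4)]), (1,272,[(0,1),(6,1)],[(1015,1)]),
  (1,273,[(1014,1)],[(0,3),(4,1)]), (1,275,[(2,1),(4,1)],[(0,1),(1004,1),(1009,1)]),
  (1,276,[(1024,1)],[(0,1),(1022,1)]), (1,9,[(1,2)],[(0,2)]), (1,280,[(0,1),(3,1)],[(1,2)]),
  (1,285,[(1020,1)],[(0,1),(6,1),(1004,1)]), (1,286,[(5,1)],[(1010,1)]),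
  (1,288,[(0,1),(1,1),(1004,1)],[]), (1,289,[(6,2)],[(3,1),(5,1),(1016,1)]),
  (1,290,[(0,1),(1030,1)],[(1,1),(1028,1)]), (1,294,[(3,2)],[(2,1),(1006,1)]),
  (1,297,[(1,2),(4,1)],[(0,3),(2,1),(3,1)]), (1,299,[(0,1),(1,2),(1026,1)],[(4,1),(1020,1)]),
  (1,300,[(2,2)],[(0,1),(1004,1)]), (1,304,[(0,4),(1019,1)],[(1018,1)]),
  (1,306,[(1018,1)],[(1016,1)]), (1,308,[(0,2),(4,1)],[(1006,2)]), (1,10,[(2,1)],[(0,1),(1,1)]),
  (1,312,[(0,1),(1,1),(5,1)],[(4,1)]), (1,315,[(3,1)],[(0,4)]),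
  (1,319,[(4,1),(1029,1)],[(0,2),(3,2),(1027,1)]), (1,320,[(0,4),(2,1)],[(1,1)]),
  (1,322,[(0,1),(3,1),(1023,1)],[(1006,1),(1022,1)]), (1,323,[(1019,1)],[(5,1),(1009,1)]),
  (1,324,[(1,4)],[(0,2)]), (1,325,[(2,2),(5,1)],[(0,2),(1004,1),(1012,1)]),
  (1,330,[(4,1)],[(3,1),(1004,1)]), (1,336,[(0,3),(3,1)],[(2,1)]), (1,338,[(5,2)],[(0,1),(4,2)]),
  (1,340,[(6,1)],[(1,1),(1014,1)]), (1,11,[(4,1)],[(1010,1)])]

def tb5 : List TE := [(1,342,[(1019,1)],[(0,1),(6,1)]), (1,343,[(3,3)],[(1006,3)]),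
  (1,345,[(2,1),(1023,1)],[(0,3),(1022,1)]), (1,348,[(0,1),(1,1),(1029,1)],[(1028,1)]),
  (1,350,[(2,1),(3,1)],[(0,1),(1,2),(1004,1)]), (1,351,[(1,3),(5,1)],[(0,4),(4,1)]),
  (3,352,[(5,1)],[(1004,1)]), (1,357,[(6,1)],[(0,2),(2,1),(5,1)]), (1,360,[(1006,1)],[(0,1)]),
  (1,361,[(1019,2)],[(1018,2)]), (1,363,[(4,2)],[(0,1),(2,1),(3,1),(1010,1)]),
  (1,364,[(1014,1)],[(1,1),(4,1)]), (1,368,[(0,2),(1024,1)],[(1,1),(1022,1)]),
  (1,12,[(0,1),(1,1)],[]), (1,374,[(4,1),(6,1)],[(3,1),(5,1),(1010,1)]),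
  (1,375,[(2,3)],[(0,3),(1004,2)]), (1,377,[(0,4),(1029,1)],[(2,1),(3,1),(1024,1)]),
  (1,378,[(1,2),(3,1)],[(0,2),(2,1)]), (1,380,[(1020,1)],[(1018,1)]),
  (1,384,[(0,4),(1004,1)],[]), (2,385,[(0,4),(4,1)],[(1,1),(1006,1)]),
  (1,390,[(2,1),(5,1)],[(0,3),(4,1)]), (1,391,[(6,1),(1023,1)],[(0,1),(3,1),(5,1),(1022,1)]),
  (1,392,[(0,3),(3,2)],[(1006,2)]), (1,396,[(1,1),(4,1)],[(2,1),(3,1)]),
  (1,399,[(1021,1)],[(6,1),(1006,1)]), (1,400,[(2,2)],[(1,2)]), (1,13,[(5,1)],[(0,1),(4,1)]),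
  (1,405,[(1,2),(1006,1)],[(0,6)]), (1,406,[(1029,1)],[(0,1),(1027,1)]),
  (1,408,[(1,1),(6,1)],[(0,1),(1015,1)]), (1,414,[(1,1),(1024,1)],[(0,3),(1022,1)]),
  (1,416,[(0,4),(5,1)],[(4,1)]), (1,418,[(0,1),(1022,1)],[(1,1),(3,1),(6,1)]),
  (1,420,[(3,1)],[(0,1),(1,1)]), (1,425,[(2,1),(6,1)],[(1004,2),(1014,1)]),
  (1,429,[(5,1)],[(0,2),(2,1),(3,1)]), (1,432,[(0,1),(1,3)],[]),
  (1,435,[(1030,1)],[(0,1),(1028,1)]), (1,437,[(2,1),(1023,1)],[(4,1),(6,1)])]

def tb6 : List TE := [(1,440,[(0,1),(4,1)],[(1,2),(3,1)]), (1,441,[(3,2)],[(0,2),(2,2)]),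
  (1,442,[(6,1)],[(0,1),(3,1),(4,1)]), (1,448,[(0,6),(3,1)],[(1006,1)]), (1,450,[(2,2)],[(0,5)]),
  (1,455,[(1015,1)],[(1,1),(1012,1)]), (1,456,[(0,2),(1019,1)],[(1,1),(6,1)]),
  (1,459,[(1,1),(1018,1)],[(0,2),(1016,1)]), (1,460,[(2,1),(1023,1)],[(1,1),(1022,1)]),
  (1,462,[(4,1)],[(2,1),(1006,1)]), (1,464,[(0,4),(1029,1)],[(1028,1)]),
  (1,468,[(1,2),(5,1)],[(0,1),(4,1)]), (1,475,[(2,1),(1020,1)],[(0,2),(1004,1),(1018,1)]),
  (1,476,[(0,1),(6,1)],[(5,1),(1006,1)]), (1,480,[(0,2),(2,1)],[]),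
  (1,483,[(3,1),(1023,1)],[(0,1),(2,1),(1022,1)]), (1,484,[(0,2),(4,2)],[(1010,2)]),
  (1,486,[(1,5)],[(0,4)]), (1,490,[(3,2)],[(0,1),(1,2),(1006,1)]),
  (1,493,[(6,1),(1029,1)],[(0,1),(3,1),(5,1),(1028,1)]),
  (1,494,[(5,1),(1019,1)],[(4,1),(1018,1)]), (1,495,[(4,1)],[(0,4),(3,1)]), (1,16,[(0,4)],[]),
  (1,500,[(2,3)],[(1,1),(1004,2)]), (1,504,[(0,1),(1,1),(3,1)],[(2,1)]),
  (1,506,[(1023,1)],[(1021,1)]), (1,507,[(1,1),(5,2)],[(0,3),(4,2)]),
  (1,510,[(6,1)],[(0,2),(1014,1)]), (1,512,[(0,9)],[]), (1,513,[(1,1),(1019,1)],[(0,3),(6,1)]),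
  (1,520,[(2,1),(5,1)],[(1,1),(4,1)]), (1,522,[(0,2),(1030,1)],[(3,1),(1026,1)]),
  (1,525,[(2,1),(3,1)],[(0,1),(1004,2)]), (1,17,[(6,1)],[(0,1),(3,1),(5,1)]),
  (1,528,[(0,3),(4,1)],[(2,1),(3,1)]), (1,529,[(1023,2)],[(1022,2)]),
  (1,532,[(0,3),(1021,1)],[(2,1),(1018,1)]), (1,539,[(3,1),(4,1)],[(1006,3)]),
  (1,540,[(1,1),(1006,1)],[(0,3)]), (1,544,[(0,2),(6,1)],[(1015,1)])]

def tb7 : List TE := [(1,546,[(1014,1)],[(0,2),(4,1)]), (1,550,[(2,1),(4,1)],[(1004,1),(1009,1)]),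
  (1,551,[(1019,1),(1029,1)],[(1018,1),(1028,1)]), (1,552,[(1024,1)],[(1022,1)]),
  (1,560,[(0,2),(3,1)],[(1,2)]), (2,561,[(4,1),(6,1)],[(1,1),(5,1),(1010,1)]),
  (1,567,[(1,3),(3,1)],[(0,4),(2,1)]), (1,570,[(1020,1)],[(6,1),(1004,1)]),
  (1,572,[(0,1),(5,1)],[(1010,1)]), (1,575,[(1025,1)],[(1004,1),(1022,1)]),
  (1,576,[(1004,2)],[]), (1,578,[(6,2)],[(0,1),(3,2),(5,2)]),
  (1,580,[(0,2),(1030,1)],[(1,1),(1028,1)]), (1,585,[(5,1),(1006,1)],[(0,5),(4,1)]),
  (1,588,[(0,1),(3,2)],[(2,1),(1006,1)]), (1,19,[(1019,1)],[(1018,1)]),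
  (1,594,[(1,2),(4,1)],[(0,2),(2,1),(3,1)]), (1,595,[(6,1)],[(0,1),(1,1),(5,1),(1004,1)]),
  (1,598,[(1004,1),(1026,1)],[(2,2),(1022,1)]), (1,600,[(2,2)],[(1004,1)]),
  (1,605,[(4,2)],[(0,1),(1009,1),(1010,1)]), (1,608,[(0,5),(1019,1)],[(1018,1)]),
  (1,609,[(1,1),(1029,1)],[(0,3),(1027,1)]), (1,612,[(1018,1)],[(0,1),(3,1),(5,1)]),
  (1,616,[(0,3),(4,1)],[(1006,2)]), (1,621,[(1,2),(1024,1)],[(0,5),(1022,1)]),
  (1,624,[(5,1),(1004,1)],[(4,1)]), (1,625,[(2,4)],[(1004,4)]),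
  (1,627,[(1022,1)],[(0,1),(3,1),(6,1)]), (1,630,[(3,1)],[(0,3)]),
  (1,637,[(3,1),(1014,1)],[(0,1),(1006,1),(1012,1)]),
  (1,638,[(4,1),(1029,1)],[(0,1),(3,2),(1027,1)]), (1,640,[(0,5),(2,1)],[(1,1)]),
  (1,644,[(0,2),(3,1),(1023,1)],[(1006,1),(1022,1)]), (1,646,[(1019,1)],[(1,2),(3,1),(5,1)]),
  (1,648,[(1,4)],[(0,1)]), (1,650,[(2,2),(5,1)],[(0,1),(1004,1),(1012,1)]),
  (1,21,[(3,1)],[(0,1),(2,1)]), (1,660,[(4,1)],[(0,1),(1,1),(3,1)]),
  (1,663,[(1,1),(6,1)],[(0,3),(3,1),(4,1)])]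

def tb8 : List TE := [(1,665,[(1021,1)],[(0,1),(1,1),(1018,1)]), (1,667,[(0,2),(1029,1)],[(5,1),(1021,1)]),
  (1,672,[(0,4),(3,1)],[(2,1)]), (1,675,[(2,1),(1006,1)],[(0,7)]), (1,676,[(5,2)],[(4,2)]),
  (1,680,[(0,1),(6,1)],[(1,1),(1014,1)]), (1,22,[(0,1),(4,1)],[(1010,1)]),
  (1,684,[(1019,1)],[(6,1)]), (1,686,[(0,1),(3,3)],[(1006,3)]),
  (1,690,[(2,1),(1023,1)],[(0,2),(1022,1)]), (1,693,[(4,1)],[(0,2),(2,2)]),
  (1,696,[(1004,1),(1029,1)],[(1028,1)]), (1,700,[(2,1),(3,1)],[(1,2),(1004,1)]),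
  (1,702,[(1,3),(5,1)],[(0,3),(4,1)]), (1,704,[(0,6),(4,1)],[(1010,1)]),
  (1,23,[(1023,1)],[(1022,1)]), (1,714,[(6,1)],[(0,1),(2,1),(5,1)]),
  (1,715,[(5,1)],[(0,2),(1009,1)]), (1,720,[(1006,1)],[]), (1,722,[(0,1),(1019,2)],[(1018,2)]),
  (1,725,[(2,1),(1030,1)],[(1,1),(1004,1),(1028,1)]), (1,726,[(4,2)],[(2,1),(3,1),(1010,1)]),
  (1,728,[(0,1),(1014,1)],[(1,1),(4,1)]), (1,729,[(1,6)],[(0,6)]),
  (1,735,[(3,2)],[(0,1),(1004,1),(1006,1)]), (1,736,[(0,3),(1024,1)],[(1,1),(1022,1)]),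
  (1,741,[(5,1),(1019,1)],[(0,1),(6,1),(1012,1)]),
  (1,748,[(0,1),(4,1),(6,1)],[(3,1),(5,1),(1010,1)]), (1,750,[(2,3)],[(0,2),(1004,2)]),
  (1,754,[(0,5),(1029,1)],[(2,1),(3,1),(1024,1)]), (1,756,[(1,2),(3,1)],[(0,1),(2,1)]),
  (1,759,[(1,1),(1023,1)],[(0,2),(1021,1)]), (1,760,[(0,1),(1020,1)],[(1018,1)]),
  (1,765,[(1,1),(6,1)],[(0,4),(1014,1)]), (1,768,[(0,5),(1004,1)],[]),
  (1,770,[(4,1)],[(0,1),(1,2),(1006,1)]), (1,25,[(2,2)],[(1004,2)]),
  (1,780,[(2,1),(5,1)],[(0,2),(4,1)]), (1,782,[(6,1),(1023,1)],[(3,1),(5,1),(1022,1)]),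
  (1,783,[(1,1),(1030,1)],[(3,1),(1026,1)])]

def tb9 : List TE := [(1,784,[(0,4),(3,2)],[(1006,2)]), (1,792,[(1012,1)],[(2,1),(3,1)]),
  (1,798,[(0,1),(1021,1)],[(6,1),(1006,1)]), (1,800,[(0,1),(2,2)],[(1,2)]),
  (1,805,[(3,1),(1023,1)],[(1,1),(1004,1),(1022,1)]), (1,810,[(1,2),(1006,1)],[(0,5)]),
  (1,812,[(1029,1)],[(1027,1)]), (1,816,[(1,1),(6,1)],[(1015,1)]),
  (1,819,[(1,1),(1014,1)],[(0,4),(4,1)]), (1,825,[(2,1),(4,1)],[(0,4),(1009,1)]),
  (1,828,[(1,1),(1024,1)],[(0,2),(1022,1)]), (1,832,[(0,5),(5,1)],[(4,1)]),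
  (2,833,[(0,4),(3,1),(6,1)],[(4,1),(1006,2)]), (1,836,[(0,2),(1022,1)],[(1,1),(3,1),(6,1)]),
  (1,840,[(3,1)],[(1,1)]), (1,841,[(1029,2)],[(1028,2)]),
  (1,845,[(2,1),(5,2)],[(0,3),(4,1),(1012,1)]), (1,847,[(4,2)],[(1006,2),(1010,1)]),
  (1,850,[(2,1),(6,1)],[(0,1),(1,1),(1004,1),(1014,1)]), (1,855,[(1020,1)],[(0,4),(6,1)]),
  (1,858,[(5,1)],[(0,1),(2,1),(3,1)]), (1,864,[(1,2),(1004,1)],[]),
  (1,867,[(1,1),(6,2)],[(0,1),(3,1),(5,1),(1016,1)]), (1,870,[(1030,1)],[(1028,1)]),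
  (1,874,[(0,1),(2,1),(1023,1)],[(4,1),(6,1)]), (1,875,[(2,2),(3,1)],[(1,1),(1004,3)]),
  (1,880,[(0,2),(4,1)],[(1,2),(3,1)]), (1,882,[(3,2)],[(0,1),(2,2)]),
  (1,884,[(6,1)],[(3,1),(4,1)]), (1,891,[(1,3),(4,1)],[(0,4),(2,1),(3,1)]),
  (1,896,[(0,7),(3,1)],[(1006,1)]), (1,897,[(0,3),(1027,1)],[(4,1),(1020,1)]),
  (1,29,[(1029,1)],[(1028,1)]), (1,900,[(2,2)],[(0,4)])]

/-- the multiplication table -/
def tb : List TE := tb0 ++ tb1 ++ tb2 ++ tb3 ++ tb4 ++ tb5 ++ tb6 ++ tb7 ++ tb8 ++ tb9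

/-- the uses of the table -/
def us : List (ℕ × ℕ) := [(0,1), (1,1), (2,1), (3,1), (4,1), (5,1), (6,1), (7,1), (8,1), (9,1), (10,1), (11,1), (12,1),
  (13,1), (14,1), (15,1), (16,1), (17,1), (18,1), (19,1), (20,1), (21,1), (22,1), (23,1), (24,1),
  (25,1), (26,1), (27,1), (28,1), (29,1), (30,1), (31,1), (32,1), (33,1), (34,1), (35,1), (36,1),
  (37,1), (38,1), (39,1), (40,1), (41,1), (42,1), (43,1), (44,1), (45,1), (46,1), (47,1), (48,1),
  (49,31), (50,1), (51,1), (52,1), (53,1), (54,1), (55,1), (56,1), (57,1), (49,37), (58,1),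
  (59,1), (60,1), (61,1), (62,1), (63,1), (49,41), (64,1), (65,1), (49,43), (66,1), (67,1),
  (68,1), (69,1), (70,1), (71,31), (49,47), (72,1), (73,1), (74,1), (75,1), (76,1), (77,1),
  (78,1), (79,1), (49,53), (80,1), (81,1), (71,37), (82,1), (83,1), (84,1), (85,1), (86,1),
  (49,59), (87,1), (88,1), (89,1), (49,61), (71,41), (90,31), (91,1), (92,1), (93,1), (71,43),
  (94,1), (95,1), (96,1), (49,67), (97,1), (98,1), (99,1), (100,1), (71,47), (49,71), (101,1),
  (102,1), (103,1), (49,73), (104,1), (90,37), (105,1), (106,1), (107,1), (108,1), (109,31),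
  (110,1), (49,79), (71,53), (111,1), (112,1), (113,1), (90,41), (114,1), (49,83), (115,1),
  (116,1), (117,1), (118,1), (90,43), (119,1), (120,1), (121,1), (71,59), (49,89), (122,1),
  (123,1), (71,61), (124,1), (109,37), (125,31), (126,1), (90,47), (127,1), (128,1), (129,1),
  (49,97), (130,1), (131,1), (132,1), (133,1), (71,67), (49,101), (134,1), (135,1), (109,41),
  (49,103), (136,1), (137,1), (138,1), (139,1), (90,53), (71,71), (49,107), (109,43), (140,1),
  (141,31), (49,109), (71,73), (142,1), (143,1), (125,37), (144,1), (145,1), (49,113), (146,1),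
  (147,1), (148,1), (149,1), (150,1), (109,47), (90,59), (71,79), (151,1), (152,1), (153,1),
  (154,1), (90,61), (155,1), (125,41), (156,1), (157,31), (71,83), (158,1), (159,1), (160,1),
  (49,127), (161,1), (162,1), (125,43), (141,37), (163,1), (164,1), (49,131), (165,1), (109,53),
  (166,1), (71,89), (90,67), (167,1), (168,1), (169,1), (49,137), (170,1), (171,1), (49,139),
  (172,31), (173,1), (125,47), (90,71), (174,1), (175,1), (141,41), (176,1), (177,1), (178,1),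
  (71,97), (90,73), (179,1), (109,59), (157,37), (180,1), (49,149), (181,1), (182,1), (141,43),
  (49,151), (71,101), (183,1), (109,61), (184,1), (185,1), (71,103), (186,31), (187,1), (49,157),
  (188,1), (90,79), (125,53), (189,1), (190,1), (71,107), (191,1), (192,1), (193,1), (194,1),
  (49,163), (71,109), (157,41), (141,47), (195,1), (90,83), (172,37), (49,167), (109,67),
  (196,1), (197,1), (71,113), (198,1), (199,31), (200,1), (201,1), (157,43), (202,1), (49,173),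
  (203,1), (204,1), (205,1), (206,1), (125,59), (109,71), (90,89), (207,1), (49,179), (208,1),
  (209,1), (49,181), (210,1), (211,1), (109,73), (125,61), (212,1), (172,41), (186,37), (141,53),
  (213,31), (214,1), (215,1), (157,47), (216,1), (217,1), (218,1), (71,127), (49,191), (219,1),
  (220,1), (49,193), (172,43), (90,97), (221,1), (222,1), (223,1), (71,131), (49,197), (109,79),
  (224,1), (49,199), (225,1), (226,1), (125,67), (227,31), (90,101), (228,1), (229,1), (199,37),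
  (230,1), (186,41), (71,137), (90,103), (141,59), (231,1), (109,83), (232,1), (71,139), (233,1),
  (234,1), (49,211), (172,47), (157,53), (235,1), (125,71), (141,61), (90,107), (236,1),
  (186,43), (237,1), (12,31), (238,1), (90,109), (239,1), (125,73), (240,1), (241,1), (242,1),
  (213,37), (109,89), (49,223), (71,149), (243,1), (244,1), (199,41), (90,113), (71,151),
  (49,227), (245,1), (246,1), (49,229), (247,1), (248,1), (249,1), (250,1), (13,31), (49,233),
  (251,1), (141,67), (186,47), (71,157), (157,59), (199,43), (125,79), (252,1), (253,1),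
  (172,53), (49,239), (254,1), (227,37), (49,241), (255,1), (256,1), (109,97), (257,1), (157,61),
  (71,163), (258,1), (213,41), (259,1), (260,1), (261,1), (262,31), (141,71), (125,83), (263,1),
  (71,167), (49,251), (264,1), (109,101), (265,1), (266,1), (90,127), (267,1), (141,73), (268,1),
  (269,1), (49,257), (109,103), (213,43), (199,47), (12,37), (71,173), (270,1), (271,1),
  (90,131), (272,1), (49,263), (273,31), (274,1), (275,1), (186,53), (172,59), (276,1), (227,41),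
  (125,89), (109,107), (157,67), (71,179), (49,269), (277,1), (278,1), (49,271), (71,181),
  (279,1), (109,109), (280,1), (90,137), (172,61), (281,1), (282,1), (283,1), (141,79), (49,277),
  (13,37), (90,139), (16,31), (227,43), (284,1), (285,1), (49,281), (213,47), (109,113),
  (49,283), (286,1), (157,71), (287,1), (288,1), (71,191), (12,41), (289,1), (290,1), (291,1),
  (71,193), (292,1), (141,83), (125,97), (199,53), (157,73), (293,1), (49,293), (294,1),
  (295,31), (186,59), (71,197), (262,37), (296,1), (297,1), (90,149), (71,199), (298,1), (299,1),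
  (12,43), (172,67), (90,151), (300,1), (125,101), (301,1), (302,1), (186,61), (227,47), (303,1),
  (49,307), (13,41), (304,1), (125,103), (17,31), (305,1), (49,311), (141,89), (306,1), (307,1),
  (49,313), (308,1), (90,157), (273,37), (309,1), (157,79), (71,211), (49,317), (109,127),
  (213,53), (310,1), (311,1), (172,71), (312,1), (125,107), (313,1), (13,43), (314,1), (315,1),
  (199,59), (316,1), (317,31), (90,163), (125,109), (109,131), (262,41), (172,73), (12,47),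
  (318,1), (49,331), (319,1), (157,83), (320,1), (16,37), (321,1), (90,167), (71,223), (186,67),
  (199,61), (322,1), (49,337), (323,1), (324,1), (125,113), (141,97), (325,1), (71,227),
  (326,31), (327,1), (109,137), (328,1), (71,229), (262,43), (227,53), (329,1), (90,173),
  (330,1), (49,347), (109,139), (331,1), (273,41), (49,349), (71,233), (332,1), (333,1),
  (295,37), (334,1), (13,47), (49,353), (141,101), (213,59), (186,71), (172,79), (157,89),
  (335,31), (336,1), (337,1), (90,179), (71,239), (49,359), (338,1), (141,103), (339,1),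
  (71,241), (90,181), (340,1), (341,1), (342,1), (343,1), (186,73), (273,43), (213,61), (49,367),
  (344,1), (345,1), (199,67), (16,41), (17,37), (346,1), (12,53), (20,31), (109,149), (49,373),
  (172,83), (347,1), (141,107), (348,1), (262,47), (71,251), (349,1), (109,151), (350,1),
  (49,379), (351,1), (352,1), (125,127), (141,109), (90,191), (353,1), (49,383), (227,59),
  (354,1), (355,1), (71,257), (90,193), (16,43), (356,31), (157,97), (317,37), (49,389),
  (295,41), (357,1), (199,71), (358,1), (359,1), (360,1), (109,157), (125,131), (90,197),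
  (71,263), (186,79), (141,113), (361,1), (227,61), (49,397), (13,53), (90,199), (362,1),
  (273,47), (363,1), (172,89), (49,401), (199,73), (213,67), (364,1), (22,31), (71,269),
  (157,101), (365,1), (366,1), (71,271), (326,37), (109,163), (367,1), (295,43), (49,409),
  (368,1), (17,41), (125,137), (157,103), (369,1), (12,59), (370,1), (186,83), (71,277), (371,1),
  (372,1), (125,139), (109,167), (373,1), (23,31), (49,419), (374,1), (375,1), (49,421),
  (71,281), (90,211), (376,1), (16,47), (377,1), (262,53), (71,283), (378,1), (335,37), (213,71),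
  (12,61), (379,1), (157,107), (380,1), (17,43), (317,41), (49,431), (381,1), (109,173),
  (49,433), (382,1), (24,31), (199,79), (383,1), (227,67), (157,109), (172,97), (384,1), (385,1),
  (213,73), (49,439), (71,293), (386,1), (387,1), (388,1), (13,59), (49,443), (20,37), (141,127),
  (186,89), (389,1), (90,223), (295,47), (125,149), (109,179), (390,1), (391,1), (49,449),
  (392,31), (393,1)]

/-- the pairs (part, degree of its relation) -/
def rl : List (ℕ × ℕ) := [(2,2), (3,3), (4,4), (5,5), (6,6), (7,7), (8,8), (9,9), (10,10), (11,11), (12,12), (13,13),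
  (14,20), (15,18), (16,16), (17,17), (18,21), (20,23), (21,24), (22,30), (24,27), (25,31),
  (26,35), (27,32), (28,34), (30,33), (32,36), (33,42), (34,48), (35,41), (36,38), (38,57),
  (39,50), (40,44), (42,46), (44,54), (45,50), (46,69), (48,52), (49,59), (50,56), (51,67),
  (52,62), (54,59), (55,64), (56,62), (57,75), (58,87), (60,63), (62,93), (63,69), (64,69),
  (65,77), (66,73), (68,83), (69,93), (70,75), (72,76), (74,111), (75,82), (76,96), (77,89),
  (78,89), (80,85), (81,88), (82,123), (84,88), (85,99), (86,129), (87,117), (88,99), (90,95),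
  (91,104), (92,116), (93,125), (94,141), (95,115), (96,101), (98,110), (99,109), (100,107),
  (102,118), (104,115), (105,110), (106,159), (108,113), (110,119), (111,149), (112,119),
  (114,132), (115,140), (116,146), (117,130), (118,177), (119,136), (120,123), (121,137),
  (122,183), (123,165), (124,156), (125,137), (126,131), (128,134), (129,173), (130,143),
  (132,141), (133,154), (134,201), (135,142), (136,151), (138,162), (140,144), (141,189),
  (142,213), (143,154), (144,149), (145,175), (146,219), (147,158), (148,186), (150,157),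
  (152,173), (153,170), (154,166), (155,189), (156,167), (158,237), (159,213), (160,166),
  (161,189), (162,169), (164,206), (165,174), (166,249), (168,173), (169,189), (170,187),
  (171,189), (172,216), (174,204), (175,185), (176,184), (177,237), (178,267), (180,185),
  (182,195), (183,245), (184,208), (185,225), (186,218), (187,212), (188,236), (189,196),
  (190,209), (192,198), (194,291), (195,208), (196,208), (198,208), (200,207), (201,269),
  (202,303), (203,232), (204,220), (205,249), (206,309), (207,233), (208,220), (209,230),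
  (210,214), (212,266), (213,285), (214,321), (215,261), (216,221), (217,253), (218,327),
  (219,293), (220,228), (221,235), (222,260), (224,232), (225,231), (226,339), (228,247),
  (230,256), (231,242), (232,263), (234,247), (235,285), (236,296), (237,317), (238,254),
  (240,244), (242,262), (243,252), (244,306), (245,257), (246,288), (247,275), (248,281),
  (249,333), (250,261), (252,257), (253,275), (254,381), (255,272), (256,263), (258,302),
  (259,301), (260,273), (261,288), (262,393), (264,274), (265,321), (266,288), (267,357),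
  (268,336), (270,277), (272,287), (273,286), (274,411), (275,289), (276,299), (278,417),
  (279,313), (280,284), (282,330), (284,356), (285,305), (286,296), (287,333), (288,294),
  (289,319), (290,320), (291,389), (292,366), (294,304), (295,357), (296,335), (297,309),
  (298,447), (299,329), (300,307), (301,349), (302,453), (303,405), (304,326), (305,369),
  (306,323), (308,320), (309,413), (310,344), (312,324), (314,471), (315,319), (316,396),
  (318,372), (319,356), (320,327), (321,429), (322,350), (323,342), (324,331), (325,343),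
  (326,489), (327,437), (328,371), (329,381), (330,338), (332,416), (333,373), (334,501),
  (335,405), (336,342), (338,357), (339,453), (340,356), (341,381), (342,360), (343,361),
  (344,389), (345,371), (346,519), (348,379), (350,359), (351,366), (352,359), (354,414),
  (355,429), (356,446), (357,373), (358,537), (360,365), (361,398), (362,543), (363,382),
  (364,377), (365,441), (366,428), (368,393), (369,413), (370,410), (371,429), (372,405),
  (374,398), (375,386), (376,425), (377,409), (378,385), (380,399), (381,509), (382,573),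
  (384,391), (385,396), (386,579), (387,433), (388,486), (390,403), (391,428), (392,404),
  (393,525), (394,591), (395,477), (396,406), (398,597), (399,420), (400,407), (402,470),
  (403,443), (404,506), (405,414), (406,434), (407,453), (408,424), (410,454), (411,549),
  (412,516), (413,477), (414,439), (415,501), (416,429), (417,557), (418,440), (420,423),
  (422,633), (423,473), (424,479), (425,447), (426,498), (427,493), (428,536), (429,439),
  (430,476), (432,438), (434,470), (435,464), (436,546), (437,463), (438,512), (440,449),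
  (441,451), (442,456), (444,483), (445,537), (446,669), (447,597), (448,457), (450,457),
  (451,501), (452,566), (453,605), (454,681), (455,469), (456,476), (458,687), (459,478),
  (460,486), (462,472), (464,496), (465,499), (466,699), (468,481), (469,541), (470,520),
  (471,629), (472,533), (473,525), (474,554), (475,499), (476,492), (477,533), (478,717),
  (480,485), (481,527), (482,723), (483,510), (484,504), (485,585), (486,495), (488,551),
  (489,653), (490,501), (492,535), (493,536), (494,522), (495,503), (496,530), (497,573),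
  (498,582), (500,511), (501,669), (502,753), (504,510), (505,609), (506,528), (507,528),
  (508,636), (510,526), (511,589), (512,520), (513,533), (514,771), (515,621), (516,561),
  (517,573), (518,560), (519,693), (520,533), (522,553), (524,656), (525,534), (526,789),
  (527,572), (528,539), (529,574), (530,586), (531,593), (532,555), (533,583), (534,624),
  (535,645), (536,605), (537,717), (538,807), (539,557), (540,547), (542,813), (543,725),
  (544,560), (545,657), (546,559), (548,686), (549,613), (550,563), (551,598), (552,575),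
  (553,637), (554,831), (555,595), (556,696), (558,592), (559,611), (560,565), (561,583),
  (562,843), (564,613), (565,681), (566,849), (567,576), (568,641), (570,589), (572,582),
  (573,765), (574,620), (575,601), (576,583), (578,607), (579,773), (580,611), (581,669),
  (582,680), (583,645), (584,659), (585,600), (586,879), (588,598), (589,638), (590,652),
  (591,789), (592,632), (594,606), (595,612), (596,746), (597,797), (598,628), (600,607),
  (602,650), (603,673), (604,756), (605,625), (606,708), (608,631), (609,639), (610,674),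
  (611,667), (612,629), (614,921), (615,659), (616,628), (618,722), (620,654), (621,648),
  (622,933), (623,717), (624,637), (625,641), (626,939), (627,648), (628,786), (629,680),
  (630,633), (632,713), (633,845), (634,951), (635,765), (636,691), (637,656), (638,675),
  (639,713), (640,648), (642,750), (644,672), (645,691), (646,664), (648,655), (649,717),
  (650,667), (651,686), (652,816), (654,764), (655,789), (656,700), (657,733), (658,710),
  (660,668), (662,993), (663,679), (664,749), (665,686), (666,706), (667,698), (668,836),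
  (669,893), (670,740), (671,741), (672,679), (674,1011), (675,684), (676,695), (678,792),
  (679,781), (680,696), (681,909), (682,722), (684,702), (685,825), (686,704), (687,917),
  (688,734), (689,751), (690,716), (692,866), (693,703), (694,1041), (695,837), (696,728),
  (697,752), (698,1047), (699,933), (700,708), (702,717), (703,758), (704,718), (705,755),
  (706,1059), (707,813), (708,769), (710,784), (711,793), (712,803), (713,766), (714,729),
  (715,726), (716,896), (717,957), (718,1077), (720,725), (721,829), (722,760), (723,965),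
  (724,906), (725,759), (726,744), (728,742), (729,740), (730,806), (731,788), (732,795),
  (734,1101), (735,746), (736,762), (737,813), (738,782), (740,780), (741,769), (742,800),
  (744,778), (745,897), (746,1119), (747,833), (748,772), (749,861), (750,761), (752,802),
  (753,1005), (754,787), (755,909), (756,763), (758,1137), (759,783), (760,780), (762,890),
  (763,877), (764,956), (765,783), (766,1149), (767,835), (768,776), (770,781), (771,1029),
  (772,966), (774,820), (775,813), (776,875), (777,818), (778,1167), (779,838), (780,793),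
  (781,861), (782,819), (783,814), (784,796), (785,945), (786,918), (788,986), (789,1053),
  (790,872), (791,909), (792,803), (793,863), (794,1191), (795,851), (796,996), (798,819),
  (799,860), (800,808), (801,893), (802,1203), (803,885), (804,873), (805,833), (806,846),
  (807,1077), (808,911), (810,819), (812,840), (813,1085), (814,860), (815,981), (816,832),
  (817,878), (818,1227), (819,834), (820,864), (822,960), (824,929), (825,838), (826,890),
  (828,853), (830,916), (831,1109), (832,846), (833,854), (834,974), (835,1005), (836,859),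
  (837,873), (838,1257), (840,843), (841,898), (842,1263), (843,1125), (844,1056), (845,869),
  (846,896), (847,869), (848,904), (849,1133), (850,871), (851,910), (852,925), (854,920),
  (855,874), (856,965), (858,867), (860,906), (861,906), (862,1293), (864,871), (865,1041),
  (866,1299), (867,898), (868,904), (869,957), (870,899), (871,947), (872,983), (873,973),
  (874,901), (875,889), (876,951), (878,1317), (879,1173), (880,890), (882,891), (884,898),
  (885,947), (886,1329), (888,928), (889,1021), (890,982), (891,905), (892,1116), (893,958),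
  (894,1044), (895,1077), (896,906), (897,926), (898,1347), (899,958), (900,907)]

end Pool.Agent.Lib.MP_2e8272_nt.Full.TailT
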