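import Pool.Agent.Lib.MP_2e8272_nt.Full.Expo

/-!
# Exponent vectors avoiding a list of patterns: certified upper bounds by decision trees
-/

namespace Pool.Agent.Lib.MP_2e8272_nt.Full

open PowerSeries

/-- sparse monomials: list of (variable, exponent) -/
abbrev Mo := List (ℕ × ℕ)

/-- the monomial divides the exponent vector -/
def Cont (p : Mo) (c : ℕ → ℕ) : Prop := ∀ x ∈ p, x.2 ≤ c x.1

/-- exponent of a variable (first occurrence) -/
def look : Mo → ℕ → ℕ
  | [], _ => 0
  | x :: l, v => if x.1 = v then x.2 else look l v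

/-- degree of a sparse monomial -/
def mdeg (d : ℕ → ℕ) : Mo → ℕ
  | [] => 0
  | x :: l => x.2 * d x.1 + mdeg d l

theorem look_eq_zero {m : Mo} {v : ℕ} (h : v ∉ m.map Prod.fst) : look m v = 0 := by
  induction m with
  | nil => rfl
  | cons x l ih =>
    rw [List.map_cons, List.mem_cons, not_or] at h
    rw [look, if_neg (fun he => h.1 he.symm)]
    exact ih h.2

theorem cont_iff {m : Mo} (hn : (m.map Prod.fst).Nodup) (c : ℕ → ℕ) :
    Cont m c ↔ ∀ v, look m v ≤ c v := by
  induction m with
  | nil => simp [Cont, look]
  | cons x l ih =>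
    rw [List.map_cons, List.nodup_cons] at hn
    have ih' := ih hn.2
    constructor
    · intro h v
      rw [look]
      by_cases hv : x.1 = v
      · rw [if_pos hv, ← hv]
        exact h x (by simp)
      · rw [if_neg hv]
        exact ih'.mp (fun y hy => h y (by simp [hy])) v
    · intro h y hy
      rw [List.mem_cons] at hy
      rcases hy with rfl | hy
      · have := h y.1
        rw [look, if_pos rfl] at this
        exact this
      · refine ih'.mpr (fun v => ?_) y hy
        by_cases hv : x.1 = v
        · rw [look_eq_zero (by rw [← hv]; exact hn.1)]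
          exact Nat.zero_le _
        · have := h v
          rw [look, if_neg hv] at this
          exact this

theorem dgr_look {d : ℕ → ℕ} {k : ℕ} {m : Mo} (hn : (m.map Prod.fst).Nodup)
    (hk : ∀ x ∈ m, x.1 < k) : dgr d k (look m) = mdeg d m := by
  induction m with
  | nil => simp [dgr, look, mdeg]
  | cons x l ih =>
    rw [List.map_cons, List.nodup_cons] at hn
    have ih' := ih hn.2 (fun y hy => hk y (by simp [hy]))
    rw [mdeg, ← ih']
    unfold dgr
    have hx : x.1 ∈ Finset.range k := Finset.mem_range.mpr (hk x (by simp))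
    rw [← Finset.add_sum_erase _ _ hx, ← Finset.add_sum_erase (a := x.1) (s := Finset.range k)
      (fun i => look l i * d i) hx]
    have h0 : look l x.1 = 0 := look_eq_zero hn.1
    have h1 : look (x :: l) x.1 = x.2 := by rw [look, if_pos rfl]
    rw [h0, h1, zero_mul, zero_add]
    congr 1
    refine Finset.sum_congr rfl fun i hi => ?_
    have : x.1 ≠ i := (Finset.ne_of_mem_erase hi).symm
    rw [look, if_neg this]

/-- avoiding a list of monomials -/
def Avoid (ms : List Mo) (c : ℕ → ℕ) : Prop := ∀ m ∈ ms, ¬ Cont m c

/-- the numerator of a list of pairwise coprime monomials -/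
noncomputable def cop (d : ℕ → ℕ) : List Mo → PowerSeries ℤ
  | [] => 1
  | m :: ms => (1 - X ^ mdeg d m) * cop d ms

theorem ser_avoid {d : ℕ → ℕ} {k : ℕ} (hd : ∀ i < k, 0 < d i) (ms : List Mo)
    (hn : (ms.flatten.map Prod.fst).Nodup) (hk : ∀ x ∈ ms.flatten, x.1 < k) :
    ser d k (Avoid ms) = cop d ms * ∏ i ∈ Finset.range k, geo (d i) := by
  induction ms with
  | nil =>
    rw [cop, one_mul, ← ser_all hd]
    refine ser_congr fun c => ?_
    simp [Avoid]
  | cons m ms ih =>
    rw [List.flatten_cons, List.map_append, List.nodup_append] at hn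
    obtain ⟨hn1, hn2, hn3⟩ := hn
    have ih' := ih hn2 (fun x hx => hk x (by rw [List.flatten_cons]; simp [hx]))
    rw [cop]
    have hsp := ser_split hd (Avoid ms) (fun c => Cont m c)
    have h1 : ser d k (fun c => Avoid ms c ∧ ¬ Cont m c) = ser d k (Avoid (m :: ms)) := by
      refine ser_congr fun c => ?_
      simp only [Avoid, List.mem_cons, forall_eq_or_imp]
      tauto
    have hkm : ∀ x ∈ m, x.1 < k := fun x hx => hk x (by rw [List.flatten_cons]; simp [hx])
    have h2 : ser d k (fun c => Avoid ms c ∧ Cont m c) =
        X ^ (mdeg d m) * ser d k (Avoid ms) := by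
      rw [← dgr_look hn1 hkm, ← ser_shift (look m) ?_ (Avoid ms)]
      · refine ser_congr fun c => ?_
        rw [cont_iff hn1, and_comm]
        refine and_congr_right fun hc => ?_
        -- `c` and `c - look m` agree on the variables of `ms`
        have hag : ∀ m' ∈ ms, (Cont m' c ↔ Cont m' (fun i => c i - look m i)) := by
          intro m' hm'
          unfold Cont
          refine forall₂_congr fun x hx => ?_
          have : look m x.1 = 0 := by
            refine look_eq_zero fun hmem => ?_
            exact hn3 _ hmem _ (List.mem_map_of_mem (List.mem_flatten.mpr ⟨m', hm', hx⟩)) rfl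
          show x.2 ≤ c x.1 ↔ x.2 ≤ c x.1 - look m x.1
          rw [this, Nat.sub_zero]
        exact forall₂_congr fun m' hm' => not_congr (hag m' hm')
      · intro i hi
        refine look_eq_zero fun hmem => ?_
        obtain ⟨x, hx, hxi⟩ := List.mem_map.mp hmem
        have := hkm x hx
        omega
    rw [h1, h2] at hsp
    have : ser d k (Avoid (m :: ms)) = ser d k (Avoid ms) - X ^ mdeg d m * ser d k (Avoid ms) :=
      (sub_eq_iff_eq_add'.mpr hsp).symm
    rw [this, ih']
    ring

/-- decision trees -/
inductive Tree where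
  /-- pattern number `(i, j)` divides the shift -/
  | dead (i j : ℕ)
  /-- coprime monomials coming from patterns and from upper bounds -/
  | leaf (items : List (ℕ × ℕ × Mo)) (bs : Mo)
  /-- split according to `c v ≥ e` or `c v < e` -/
  | node (v e : ℕ) (l r : Tree)

/-- pattern number `(i, j)` -/
def pat (G : List (List Mo)) (i j : ℕ) : Mo := (G.getD i []).getD j []

theorem pat_mem {G : List (List Mo)} {i j : ℕ} (h : pat G i j ≠ []) :
    pat G i j ∈ G.flatten := by
  unfold pat at h ⊢
  by_cases hi : i < G.length
  · have e1 : G.getD i [] = G[i] := by simp [hi]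
    rw [e1] at h ⊢
    by_cases hj : j < G[i].length
    · have e2 : G[i].getD j [] = G[i][j] := by simp [hj]
      rw [e2]
      exact List.mem_flatten.mpr ⟨G[i], List.getElem_mem hi, List.getElem_mem hj⟩
    · exact absurd (by simp [hj]) h
  · exact absurd (by simp [hi]) h

/-- the set of exponent vectors at a node -/
def Region (G : List (List Mo)) (s R : Mo) (c : ℕ → ℕ) : Prop :=
  (∀ v, look s v ≤ c v) ∧ (∀ x ∈ R, c x.1 < x.2) ∧ ∀ p ∈ G.flatten, ¬ Cont p c

/-- the numerator of a tree; `ds` is the degree of the shift `s` -/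
noncomputable def num (d : ℕ → ℕ) : Tree → Mo → ℕ → PowerSeries ℤ
  | Tree.dead _ _, _, _ => 0
  | Tree.leaf items bs, _, ds =>
    X ^ ds * cop d (items.map (fun x => x.2.2) ++ bs.map (fun x => [x]))
  | Tree.node v e l r, s, ds =>
    num d l ((v, e) :: s) (ds + (e - look s v) * d v) + num d r s ds

/-- the check of a tree -/
def chk (G : List (List Mo)) (k : ℕ) : Tree → Mo → Mo → Bool
  | Tree.dead i j, s, _ =>
    (pat G i j != []) && (pat G i j).all (fun x => decide (x.2 ≤ look s x.1))
  | Tree.leaf items bs, s, R =>
    items.all (fun x => (pat G x.1 x.2.1 != []) &&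
      (pat G x.1 x.2.1).all (fun y => decide (y.2 ≤ look s y.1 + look x.2.2 y.1))) &&
    bs.all (fun x => R.any (fun y => decide (y.1 = x.1) && decide (y.2 ≤ look s x.1 + x.2))) &&
    decide (((items.map (fun x => x.2.2) ++ bs.map (fun x => [x])).flatten.map Prod.fst).Nodup) &&
    (items.map (fun x => x.2.2) ++ bs.map (fun x => [x])).flatten.all (fun x => decide (x.1 < k))
  | Tree.node v e l r, s, R =>
    decide (v < k) && decide (look s v ≤ e) && chk G k l ((v, e) :: s) R &&
      chk G k r s ((v, e) :: R)

theorem tree_bound {d : ℕ → ℕ} {k : ℕ} (hd : ∀ i < k, 0 < d i) (G : List (List Mo)) (t : Tree) :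
    ∀ (s R : Mo), (∀ v, k ≤ v → look s v = 0) → chk G k t s R = true →
    Nn (num d t s (dgr d k (look s)) * ∏ i ∈ Finset.range k, geo (d i) -
      ser d k (Region G s R)) := by
  induction t with
  | dead i j =>
    intro s R hs hc
    simp only [chk, Bool.and_eq_true, bne_iff_ne, List.all_eq_true, decide_eq_true_eq] at hc
    obtain ⟨h1, h2⟩ := hc
    rw [num, zero_mul, ser_false, sub_self]
    · exact Nn.zero
    · rintro c ⟨h3, _, h4⟩
      refine h4 _ (pat_mem h1) fun x hx => ?_
      exact (h2 x hx).trans (h3 _)
  | leaf items bs =>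
    intro s R hs hc
    simp only [chk, Bool.and_eq_true, bne_iff_ne, List.all_eq_true, decide_eq_true_eq,
      List.any_eq_true] at hc
    obtain ⟨⟨⟨h1, h2⟩, h3⟩, h4⟩ := hc
    set ms := items.map (fun x => x.2.2) ++ bs.map (fun x => [x]) with hms
    rw [num, mul_assoc, ← ser_avoid hd ms h3 h4, ← ser_shift (look s) hs]
    refine ser_mono hd ?_
    rintro c ⟨h5, h6, h7⟩
    refine ⟨h5, ?_⟩
    intro m hm hcont
    rw [hms, List.mem_append] at hm
    have hnm : (m.map Prod.fst).Nodup := by
      have : m ∈ ms := by rw [hms, List.mem_append]; exact hm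
      have hsub : m.Sublist ms.flatten := List.sublist_flatten_of_mem this
      exact (hsub.map Prod.fst).nodup h3
    rcases hm with hm | hm
    · obtain ⟨x, hx, rfl⟩ := List.mem_map.mp hm
      obtain ⟨h8, h9⟩ := h1 x hx
      refine h7 _ (pat_mem h8) fun y hy => ?_
      have h10 := h9 y hy
      have h11 := (cont_iff hnm _).mp hcont y.1
      have h12 := h5 y.1
      omega
    · obtain ⟨x, hx, rfl⟩ := List.mem_map.mp hm
      obtain ⟨y, hy, h8, h9⟩ := h2 x hx
      have h10 : x.2 ≤ c x.1 - look s x.1 := hcont x (by simp)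
      have h11 := h6 y hy
      have h12 := h5 x.1
      rw [h8] at h11
      omega
  | node v e l r ihl ihr =>
    intro s R hs hc
    simp only [chk, Bool.and_eq_true, decide_eq_true_eq] at hc
    obtain ⟨⟨⟨h1, h2⟩, h3⟩, h4⟩ := hc
    have hs' : ∀ w, k ≤ w → look ((v, e) :: s) w = 0 := by
      intro w hw
      rw [look, if_neg (by simp; omega)]
      exact hs w hw
    have hdg : dgr d k (look ((v, e) :: s)) = dgr d k (look s) + (e - look s v) * d v := by
      unfold dgr
      have hv : v ∈ Finset.range k := Finset.mem_range.mpr h1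
      rw [← Finset.add_sum_erase _ _ hv, ← Finset.add_sum_erase (a := v) (s := Finset.range k)
        (fun i => look s i * d i) hv]
      have e1 : look ((v, e) :: s) v = e := by rw [look, if_pos rfl]
      have e2 : ∑ x ∈ (Finset.range k).erase v, look ((v, e) :: s) x * d x =
          ∑ x ∈ (Finset.range k).erase v, look s x * d x := by
        refine Finset.sum_congr rfl fun i hi => ?_
        have : v ≠ i := (Finset.ne_of_mem_erase hi).symm
        rw [look, if_neg (by simpa using this)]
      rw [e1, e2]
      have e3 : e * d v = look s v * d v + (e - look s v) * d v := by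
        rw [← add_mul]
        congr 1
        omega
      rw [e3]
      ring
    have hl := ihl ((v, e) :: s) R hs' h3
    have hr := ihr s ((v, e) :: R) hs h4
    rw [hdg] at hl
    have hsp := ser_split hd (Region G s R) (fun c => e ≤ c v)
    have hml : Nn (ser d k (Region G ((v, e) :: s) R) -
        ser d k (fun c => Region G s R c ∧ e ≤ c v)) := by
      refine ser_mono hd ?_
      rintro c ⟨⟨g1, g2, g3⟩, g4⟩
      refine ⟨fun w => ?_, g2, g3⟩
      rw [look]
      by_cases hw : v = w
      · rw [if_pos (by simpa using hw), ← hw]; exact g4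
      · rw [if_neg (by simpa using hw)]; exact g1 w
    have hmr : Nn (ser d k (Region G s ((v, e) :: R)) -
        ser d k (fun c => Region G s R c ∧ ¬ e ≤ c v)) := by
      refine ser_mono hd ?_
      rintro c ⟨⟨g1, g2, g3⟩, g4⟩
      refine ⟨g1, fun x hx => ?_, g3⟩
      rw [List.mem_cons] at hx
      rcases hx with rfl | hx
      · exact not_le.mp g4
      · exact g2 x hx
    rw [num, hsp]
    have := (hl.add hr).add (hml.add hmr)
    convert this using 1
    ring

end Pool.Agent.Lib.MP_2e8272_nt.Full
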