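import Pool.Agent.Lib.MP_2e8272_nt.Full.Base
import Pool.Agent.Lib.MP_2e8272_nt.Full.Pack

/-!
# Packed evaluation of the numerator of a tree
-/

namespace Pool.Agent.Lib.MP_2e8272_nt.Full

open Polynomial

/-- positive and negative parts of a product of `1 - X ^ e` -/
noncomputable def copP : List ℕ → ℕ[X] × ℕ[X]
  | [] => (1, 0)
  | e :: l => ((copP l).1 + X ^ e * (copP l).2, (copP l).2 + X ^ e * (copP l).1)

/-- the evaluation of `copP` at `2 ^ w` -/
def copN (w : ℕ) : List ℕ → ℕ × ℕ
  | [] => (1, 0)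
  | e :: l =>
    (Nat.add (copN w l).1 (Nat.shiftLeft (copN w l).2 (Nat.mul w e)),
      Nat.add (copN w l).2 (Nat.shiftLeft (copN w l).1 (Nat.mul w e)))

theorem copN_eq (w : ℕ) (l : List ℕ) :
    (copN w l).1 = (copP l).1.eval (2 ^ w) ∧ (copN w l).2 = (copP l).2.eval (2 ^ w) := by
  induction l with
  | nil => simp [copN, copP]
  | cons e l ih =>
    obtain ⟨h1, h2⟩ := ih
    constructor
    · show (copN w l).1 + (copN w l).2 <<< (w * e) = _
      rw [h1, h2, Nat.shiftLeft_eq, copP, eval_add, eval_mul, eval_pow, eval_X, pow_mul]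
      ring
    · show (copN w l).2 + (copN w l).1 <<< (w * e) = _
      rw [h1, h2, Nat.shiftLeft_eq, copP, eval_add, eval_mul, eval_pow, eval_X, pow_mul]
      ring

theorem copP_one (l : List ℕ) :
    (copP l).1.eval 1 + (copP l).2.eval 1 = 2 ^ l.length := by
  induction l with
  | nil => simp [copP]
  | cons e l ih =>
    rw [copP, List.length_cons, pow_succ, ← ih]
    simp only [eval_add, eval_mul, eval_pow, eval_X, one_pow, one_mul]
    ring

/-- a polynomial with natural coefficients as a power series over `ℤ` -/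
noncomputable def toPS (p : ℕ[X]) : PowerSeries ℤ := PowerSeries.mk fun n => (p.coeff n : ℤ)

theorem coeff_toPS (p : ℕ[X]) (n : ℕ) : PowerSeries.coeff n (toPS p) = (p.coeff n : ℤ) :=
  PowerSeries.coeff_mk _ _

theorem toPS_add (p q : ℕ[X]) : toPS (p + q) = toPS p + toPS q := by
  ext n
  rw [map_add, coeff_toPS, coeff_toPS, coeff_toPS, coeff_add]
  push_cast
  rfl

theorem toPS_X_mul (e : ℕ) (p : ℕ[X]) : toPS (X ^ e * p) = PowerSeries.X ^ e * toPS p := by
  ext n
  rw [PowerSeries.coeff_X_pow_mul', coeff_toPS, coeff_X_pow_mul']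
  split_ifs
  · rw [coeff_toPS]
  · rfl

theorem toPS_one : toPS 1 = 1 := by
  ext n
  rw [coeff_toPS, PowerSeries.coeff_one, coeff_one]
  by_cases h : n = 0
  · subst h; simp
  · rw [if_neg h, if_neg h]
    rfl

theorem toPS_zero : toPS 0 = 0 := by
  ext n
  rw [coeff_toPS]
  simp

theorem cop_eq (d : ℕ → ℕ) (ms : List Mo) :
    cop d ms = toPS (copP (ms.map (mdeg d))).1 - toPS (copP (ms.map (mdeg d))).2 := by
  induction ms with
  | nil =>
    show (1 : PowerSeries ℤ) = toPS 1 - toPS 0
    rw [toPS_one, toPS_zero, sub_zero]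
  | cons m ms ih =>
    rw [cop, ih, List.map_cons, copP, toPS_add, toPS_add, toPS_X_mul, toPS_X_mul]
    ring

/-- positive and negative part of the numerator of a tree -/
noncomputable def numP (d : ℕ → ℕ) : Tree → Mo → ℕ → ℕ[X] × ℕ[X]
  | Tree.dead _ _, _, _ => (0, 0)
  | Tree.leaf items bs, _, ds =>
    (X ^ ds * (copP ((items.map (fun x => x.2.2) ++ bs.map (fun x => [x])).map (mdeg d))).1,
      X ^ ds * (copP ((items.map (fun x => x.2.2) ++ bs.map (fun x => [x])).map (mdeg d))).2)
  | Tree.node v e l r, s, ds =>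
    ((numP d l ((v, e) :: s) (ds + (e - look s v) * d v)).1 + (numP d r s ds).1,
      (numP d l ((v, e) :: s) (ds + (e - look s v) * d v)).2 + (numP d r s ds).2)

theorem num_eq (d : ℕ → ℕ) (t : Tree) : ∀ (s : Mo) (ds : ℕ),
    num d t s ds = toPS (numP d t s ds).1 - toPS (numP d t s ds).2 := by
  induction t with
  | dead i j =>
    intro s ds
    show (0 : PowerSeries ℤ) = toPS 0 - toPS 0
    rw [sub_self]
  | leaf items bs =>
    intro s ds
    rw [num, numP, toPS_X_mul, toPS_X_mul, cop_eq]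
    ring
  | node v e l r ihl ihr =>
    intro s ds
    rw [num, numP, toPS_add, toPS_add, ihl, ihr]
    ring

/-- packed evaluation: (positive part, negative part, sum of all coefficients) -/
def numN (d : ℕ → ℕ) (w : ℕ) : Tree → Mo → ℕ → ℕ × ℕ × ℕ
  | Tree.dead _ _, _, _ => (0, 0, 0)
  | Tree.leaf items bs, _, ds =>
    match copN w ((items.map (fun x => x.2.2) ++ bs.map (fun x => [x])).map (mdeg d)) with
    | (a, b) => (Nat.shiftLeft a (Nat.mul w ds), Nat.shiftLeft b (Nat.mul w ds),
        Nat.pow 2 (items.length + bs.length))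
  | Tree.node v e l r, s, ds =>
    match numN d w l ((v, e) :: s) (Nat.add ds (Nat.mul (Nat.sub e (look s v)) (d v))),
      numN d w r s ds with
    | (a, b, c), (a', b', c') => (Nat.add a a', Nat.add b b', Nat.add c c')

theorem numN_eq (d : ℕ → ℕ) (w : ℕ) (t : Tree) : ∀ (s : Mo) (ds : ℕ),
    (numN d w t s ds).1 = (numP d t s ds).1.eval (2 ^ w) ∧
    (numN d w t s ds).2.1 = (numP d t s ds).2.eval (2 ^ w) ∧
    (numN d w t s ds).2.2 = (numP d t s ds).1.eval 1 + (numP d t s ds).2.eval 1 := by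
  induction t with
  | dead i j => intro s ds; simp [numN, numP]
  | leaf items bs =>
    intro s ds
    obtain ⟨h1, h2⟩ := copN_eq w
      ((items.map (fun x => x.2.2) ++ bs.map (fun x => [x])).map (mdeg d))
    have h3 := copP_one ((items.map (fun x => x.2.2) ++ bs.map (fun x => [x])).map (mdeg d))
    have e1 : numN d w (Tree.leaf items bs) s ds =
        ((copN w ((items.map (fun x => x.2.2) ++ bs.map (fun x => [x])).map (mdeg d))).1 <<<
            (w * ds),
          (copN w ((items.map (fun x => x.2.2) ++ bs.map (fun x => [x])).map (mdeg d))).2 <<<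
            (w * ds), 2 ^ (items.length + bs.length)) := rfl
    rw [e1, numP]
    refine ⟨?_, ?_, ?_⟩
    · show _ <<< _ = _
      rw [h1, Nat.shiftLeft_eq, eval_mul, eval_pow, eval_X, pow_mul]
      ring
    · show _ <<< _ = _
      rw [h2, Nat.shiftLeft_eq, eval_mul, eval_pow, eval_X, pow_mul]
      ring
    · show 2 ^ (items.length + bs.length) = _
      simp only [eval_mul, eval_pow, eval_X, one_pow, one_mul]
      rw [h3]
      simp
  | node v e l r ihl ihr =>
    intro s ds
    obtain ⟨a1, a2, a3⟩ := ihl ((v, e) :: s) (ds + (e - look s v) * d v)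
    obtain ⟨b1, b2, b3⟩ := ihr s ds
    have e1 : numN d w (Tree.node v e l r) s ds =
        ((numN d w l ((v, e) :: s) (ds + (e - look s v) * d v)).1 + (numN d w r s ds).1,
          (numN d w l ((v, e) :: s) (ds + (e - look s v) * d v)).2.1 + (numN d w r s ds).2.1,
          (numN d w l ((v, e) :: s) (ds + (e - look s v) * d v)).2.2 + (numN d w r s ds).2.2) :=
      rfl
    rw [e1, numP]
    refine ⟨?_, ?_, ?_⟩
    · simp only [eval_add]
      rw [a1, b1]
    · simp only [eval_add]
      rw [a2, b2]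
    · simp only [eval_add]
      rw [a3, b3]
      ring

theorem eval_eq_pk (p : ℕ[X]) (w n : ℕ) (hn : p.natDegree < n) :
    p.eval (2 ^ w) = pk w p.coeff n := by
  rw [eval_eq_sum_range' hn, pk]
  refine Finset.sum_congr rfl fun i _ => ?_
  rw [pow_mul]

theorem coeff_le_eval_one (p : ℕ[X]) (i : ℕ) : p.coeff i ≤ p.eval 1 := by
  rw [eval_eq_sum_range]
  by_cases h : i ≤ p.natDegree
  · have := Finset.single_le_sum (f := fun i => p.coeff i * 1 ^ i) (fun _ _ => Nat.zero_le _)
      (Finset.mem_range.mpr (Nat.lt_succ_of_le h))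
    simpa using this
  · rw [coeff_eq_zero_of_natDegree_lt (by omega)]
    exact Nat.zero_le _

theorem rep_toPS {p : ℕ[X]} {v n : ℕ} (h : p.eval 1 < 2 ^ v) :
    Rep v n (Nat.mod (p.eval (2 ^ (v + 1))) (Nat.pow 2 (Nat.mul (v + 1) n))) (toPS p) := by
  refine ⟨p.coeff, fun i _ => coeff_toPS p i, fun i _ => (coeff_le_eval_one p i).trans_lt h, ?_⟩
  show p.eval (2 ^ (v + 1)) % 2 ^ ((v + 1) * n) = _
  rw [eval_eq_pk p (v + 1) (n + (p.natDegree + 1)) (by omega)]
  exact pk_mod fun i _ => lt_two_pow_succ ((coeff_le_eval_one p i).trans_lt h)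

/-- the two parts of the numerator, packed -/
theorem rep_num (d : ℕ → ℕ) (v n : ℕ) (t : Tree) (ds : ℕ)
    (h : Nat.ble (Nat.pow 2 v) (numN d (v + 1) t [] ds).2.2 = false) :
    Rep v n (Nat.mod (numN d (v + 1) t [] ds).1 (Nat.pow 2 (Nat.mul (v + 1) n)))
      (toPS (numP d t [] ds).1) ∧
    Rep v n (Nat.mod (numN d (v + 1) t [] ds).2.1 (Nat.pow 2 (Nat.mul (v + 1) n)))
      (toPS (numP d t [] ds).2) := by
  obtain ⟨h1, h2, h3⟩ := numN_eq d (v + 1) t [] ds
  have h4 : (numN d (v + 1) t [] ds).2.2 < 2 ^ v := by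
    by_contra h5
    have := Nat.ble_eq_true_of_le (not_lt.mp h5)
    exact Bool.false_ne_true (h.symm.trans this)
  rw [h3] at h4
  rw [h1, h2]
  exact ⟨rep_toPS (by omega), rep_toPS (by omega)⟩

end Pool.Agent.Lib.MP_2e8272_nt.Full
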